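import Pool.Agent.Lib.StrongMax.FinEdges

/-!
# Graphs all of whose components are finite (helper42)
-/

namespace Pool.Agent.StrongMax

open Cardinal

universe u

/-- **Attaching lemma.** Let `A` fail. Suppose that for every vertex type `V₀` of a host of `A` and
every index type `K` there are pairwise disjoint edge sets `P k` (`k : K`) on `V₀ ⊕ X`, none of them
with an edge inside `V₀`, such that (1) adding all of them to an `A`-free edge set on `V₀` gives an
`H`-free edge set, and (2) adding infinitely many of them to an edge set on `V₀` which is not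
`A`-free gives an edge set which is not `H`-free. Then `H` fails. -/
theorem Fails.of_partsU {W W' : Type u} {H : SimpleGraph W} {A : SimpleGraph W'}
    (hA : Fails.{u} A) (hAe : ∃ a b, A.Adj a b) (X : Type u → Type u → Type u)
    (P : (V₀ : Type u) → (K : Type u) → K → Set (Sym2 (V₀ ⊕ X V₀ K)))
    (hPl : ∀ V₀ K k, ∀ e ∈ P V₀ K k, ∀ a : Sym2 V₀, Sym2.map Sum.inl a ≠ e)
    (hPd : ∀ V₀ K k, ∀ e ∈ P V₀ K k, ¬ e.IsDiag)
    (hdisj : ∀ V₀ K k l, ∀ e, e ∈ P V₀ K k → e ∈ P V₀ K l → k = l)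
    (h1 : ∀ (V₀ K : Type u) (I₀ : Set (Sym2 V₀)), HFree A I₀ →
      HFree H (Sym2.map Sum.inl '' I₀ ∪ {e | ∃ k, e ∈ P V₀ K k}))
    (h2 : ∀ (V₀ K : Type u) (F₀ : Set (Sym2 V₀)) (Good : Set K), Good.Infinite → ¬ HFree A F₀ →
      ¬ HFree H (Sym2.map Sum.inl '' F₀ ∪ {e | ∃ k ∈ Good, e ∈ P V₀ K k})) : Fails.{u} H := by
  classical
  obtain ⟨V₀, G₀, hG₀⟩ := hA
  let K : Type u := Set (Sym2 V₀ ⊕ ℕ)
  have hKinf : Infinite K :=
    Infinite.of_injective (fun n : ℕ => ({Sum.inr n} : Set (Sym2 V₀ ⊕ ℕ)))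
      (fun m n h => Sum.inr_injective (Set.singleton_injective h))
  have hcard : #(Sym2 V₀) < #K := by
    have h1 : #(Sym2 V₀) ≤ #(Sym2 V₀ ⊕ ℕ) := Cardinal.mk_le_of_injective Sum.inl_injective
    have h2 : #(Sym2 V₀ ⊕ ℕ) < #K := Cardinal.mk_set ▸ Cardinal.cantor _
    exact lt_of_le_of_lt h1 h2
  let L : Sym2 V₀ → Sym2 (V₀ ⊕ X V₀ K) := Sym2.map Sum.inl
  have L_inj : Function.Injective L := Sym2.map.injective Sum.inl_injective
  let PP : Set (Sym2 (V₀ ⊕ X V₀ K)) := {e | ∃ k, e ∈ P V₀ K k}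
  let G : SimpleGraph (V₀ ⊕ X V₀ K) := SimpleGraph.fromEdgeSet (L '' G₀.edgeSet ∪ PP)
  have hGe : G.edgeSet = L '' G₀.edgeSet ∪ PP := by
    show (SimpleGraph.fromEdgeSet (L '' G₀.edgeSet ∪ PP)).edgeSet = _
    rw [SimpleGraph.edgeSet_fromEdgeSet]
    apply sdiff_eq_left.2
    rw [Set.disjoint_left]
    rintro e (⟨a, ha, rfl⟩ | ⟨k, hk⟩) he
    · induction a with
      | _ a b =>
        have h1 : G₀.Adj a b := ha
        simp only [L, Sym2.map_mk, Sym2.mem_diagSet, Sym2.mk_isDiag_iff, Sum.inl.injEq] at he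
        exact h1.ne he
    · exact hPd V₀ K k e hk (by simpa using he)
  refine ⟨_, G, fun F hF => ?_⟩
  obtain ⟨hFG, hFH, hFmax⟩ := hF
  rw [hGe] at hFG
  -- the empty edge set is `A`-free
  have hA0 : HFree A (∅ : Set (Sym2 V₀)) := by
    rw [hFree_iff]
    intro f _ h
    obtain ⟨a, b, hab⟩ := hAe
    exact h a b hab
  have hPH : HFree H PP := (h1 V₀ K ∅ hA0).mono Set.subset_union_right
  have hPF : #(↥(PP \ F)) ≤ #(Sym2 V₀) := by
    refine (hFmax PP ?_ hPH).trans ?_
    · rw [hGe]; exact Set.subset_union_right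
    · have h1 : ∀ e : ↥(F \ PP), ∃ e' : Sym2 V₀, L e' = e.1 := by
        rintro ⟨e, he, heP⟩
        rcases hFG he with ⟨e', _, h⟩ | h
        · exact ⟨e', h⟩
        · exact absurd h heP
      choose g hg using h1
      exact Cardinal.mk_le_of_injective (f := g)
        (fun a b h => Subtype.ext (by rw [← hg a, ← hg b, h]))
  -- the good indices
  let Bad : Set K := {k | ∃ e ∈ P V₀ K k, e ∉ F}
  have hBad : #(↥Bad) < #K := by
    refine lt_of_le_of_lt (le_trans ?_ hPF) hcard
    have h1 : ∀ k : ↥Bad, ∃ e, e ∈ P V₀ K k.1 ∧ e ∉ F := fun k => k.2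
    choose g hg hgF using h1
    refine Cardinal.mk_le_of_injective (f := fun k => ⟨g k, ⟨k.1, hg k⟩, hgF k⟩) ?_
    intro k l h
    have h2 : g k = g l := congrArg Subtype.val h
    exact Subtype.ext (hdisj V₀ K k.1 l.1 (g k) (hg k) (h2 ▸ hg l))
  have hGood : (Badᶜ).Infinite := by
    have h1 : #(↥(Badᶜ)) = #K := Cardinal.mk_compl_of_infinite _ hBad
    have h2 : Infinite ↥(Badᶜ) := by
      rw [Cardinal.infinite_iff, h1]; exact Cardinal.infinite_iff.1 hKinf
    exact Set.infinite_coe_iff.1 h2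
  let FC : Set (Sym2 V₀) := {e | L e ∈ F}
  refine hG₀ FC ⟨?_, ?_, ?_⟩
  · intro e he
    rcases hFG he with ⟨e', he', h⟩ | ⟨k, h⟩
    · exact (L_inj h) ▸ he'
    · exact absurd rfl (hPl V₀ K k _ h e)
  · by_contra hcon
    refine h2 V₀ K FC (Badᶜ) hGood hcon (hFH.mono ?_)
    rintro e (⟨e', he', rfl⟩ | ⟨k, hk, he⟩)
    · exact he'
    · by_contra h
      exact hk ⟨e, he, h⟩
  · intro IC hICG hIC
    have h3 := hFmax (L '' IC ∪ (F ∩ PP)) ?_ ((h1 V₀ K IC hIC).mono ?_)
    · refine le_trans ?_ (h3.trans ?_)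
      · refine Cardinal.mk_le_of_injective (f := fun e => ⟨L e.1, Or.inl ⟨e.1, e.2.1, rfl⟩, e.2.2⟩) ?_
        intro a b h
        exact Subtype.ext (L_inj (congrArg Subtype.val h))
      · have h2 : ∀ e : ↥(F \ (L '' IC ∪ (F ∩ PP))), ∃ e' : ↥(FC \ IC), L e'.1 = e.1 := by
          rintro ⟨e, he, hn⟩
          rcases hFG he with ⟨e', _, h⟩ | h
          · refine ⟨⟨e', ?_, ?_⟩, h⟩
            · show L e' ∈ F
              rw [h]; exact he
            · intro h'
              exact hn (Or.inl ⟨e', h', h⟩)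
          · exact absurd (Or.inr ⟨he, h⟩) hn
        choose g hg using h2
        exact Cardinal.mk_le_of_injective (f := g)
          (fun a b h => Subtype.ext (by rw [← hg a, ← hg b, h]))
    · rw [hGe]
      rintro e (⟨e', he', rfl⟩ | ⟨_, he⟩)
      · exact Or.inl ⟨e', hICG he', rfl⟩
      · exact Or.inr he
    · rintro e (he | ⟨_, he⟩)
      · exact Or.inl he
      · exact Or.inr he

section FinComp

variable {W : Type u} {H : SimpleGraph W}

/-- If `H` embeds in `H - e` for every edge `e` then `H` fails (the host is `H` itself). -/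
theorem fails_of_inessentialU (h : ∀ a b, H.Adj a b → ∃ f : W → W, Function.Injective f ∧
    ∀ x y, H.Adj x y → H.Adj (f x) (f y) ∧ s(f x, f y) ≠ s(a, b)) : Fails.{u} H := by
  refine ⟨W, H, fun F hF => ?_⟩
  obtain ⟨hFG, hFH, hmax⟩ := hF
  rw [hFree_iff] at hFH
  -- some edge is missing
  obtain ⟨e, he, heF⟩ : ∃ e ∈ H.edgeSet, e ∉ F := by
    by_contra hcon
    push Not at hcon
    exact hFH id Function.injective_id (fun a b hab => hcon s(a, b) hab)
  have h1 : HFree H (insert e F) := by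
    rw [hFree_iff]
    intro f hf hfa
    by_cases hu : ∃ a b, H.Adj a b ∧ s(f a, f b) = e
    · obtain ⟨a, b, hab, hfe⟩ := hu
      obtain ⟨g, hg, hga⟩ := h a b hab
      refine hFH (f ∘ g) (hf.comp hg) (fun x y hxy => ?_)
      obtain ⟨h2, h3⟩ := hga x y hxy
      rcases hfa _ _ h2 with h4 | h4
      · exfalso
        apply h3
        have h5 : Sym2.map f s(g x, g y) = Sym2.map f s(a, b) := by
          rw [Sym2.map_mk, Sym2.map_mk, hfe]
          exact h4
        exact Sym2.map.injective hf h5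
      · exact h4
    · refine hFH f hf (fun x y hxy => ?_)
      rcases hfa x y hxy with h4 | h4
      · exact absurd ⟨x, y, hxy, h4⟩ hu
      · exact h4
  have h2 := hmax (insert e F) (Set.insert_subset he hFG) h1
  have h3 : F \ insert e F = ∅ := by
    rw [Set.sdiff_eq_empty]
    exact Set.subset_insert e F
  have h6 : IsEmpty ↥(F \ insert e F) := by rw [h3]; exact Set.isEmpty_coe_sort.2 rfl
  have h7 : #(↥(F \ insert e F)) = 0 := Cardinal.mk_eq_zero_iff.2 h6
  have h5 : IsEmpty ↥(insert e F \ F) :=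
    Cardinal.mk_eq_zero_iff.1 (nonpos_iff_eq_zero.1 (h2.trans h7.le))
  exact h5.false ⟨e, Set.mem_insert e F, heF⟩

/-- If the subgraph induced by the vertices of positive degree fails then `H` fails: add isolated
vertices to the host. -/
theorem Fails.of_posDegU (hA : Fails.{u} (H.induce (posDeg H))) : Fails.{u} H := by
  classical
  obtain ⟨V₀, G₀, hG₀⟩ := hA
  let L : Sym2 V₀ → Sym2 (V₀ ⊕ W) := Sym2.map Sum.inl
  have L_inj : Function.Injective L := Sym2.map.injective Sum.inl_injective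
  let G : SimpleGraph (V₀ ⊕ W) := SimpleGraph.fromEdgeSet (L '' G₀.edgeSet)
  have hGe : G.edgeSet = L '' G₀.edgeSet := by
    show (SimpleGraph.fromEdgeSet (L '' G₀.edgeSet)).edgeSet = _
    rw [SimpleGraph.edgeSet_fromEdgeSet]
    apply sdiff_eq_left.2
    rw [Set.disjoint_left]
    rintro e ⟨a, ha, rfl⟩ he
    induction a with
    | _ a b =>
      have h1 : G₀.Adj a b := ha
      simp only [L, Sym2.map_mk, Sym2.mem_diagSet, Sym2.mk_isDiag_iff, Sum.inl.injEq] at he
      exact h1.ne he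
  -- `H`-free sets
  have hfree : ∀ I₀ : Set (Sym2 V₀), HFree H (L '' I₀) ↔ HFree (H.induce (posDeg H)) I₀ := by
    intro I₀
    rw [← not_iff_not, not_hFree_iff, not_hFree_iff]
    constructor
    · rintro ⟨f, hf, hfa⟩
      have h1 : ∀ x : posDeg H, ∃ v, f x = .inl v := by
        rintro ⟨x, y, hxy⟩
        obtain ⟨e, -, he⟩ := hfa x y hxy
        induction e with
        | _ a b =>
          have he' : s(Sum.inl a, Sum.inl b) = s(f x, f y) := he
          rw [Sym2.eq_iff] at he'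
          rcases he' with ⟨h1, -⟩ | ⟨-, h1⟩
          · exact ⟨a, h1.symm⟩
          · exact ⟨b, h1.symm⟩
      choose g hg using h1
      refine ⟨g, fun x y h => Subtype.ext (hf (by rw [hg, hg, h])), fun x y hxy => ?_⟩
      obtain ⟨e, he, hee⟩ := hfa x.1 y.1 hxy
      have h2 : L e = L s(g x, g y) := by
        rw [hee, hg, hg]; rfl
      exact (L_inj h2) ▸ he
    · rintro ⟨g, hg, hga⟩
      refine ⟨fun x => if hx : x ∈ posDeg H then .inl (g ⟨x, hx⟩) else .inr x, ?_, ?_⟩
      · intro x y hxy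
        have hxy' : (if hx : x ∈ posDeg H then (Sum.inl (g ⟨x, hx⟩) : V₀ ⊕ W) else .inr x) =
          if hy : y ∈ posDeg H then (Sum.inl (g ⟨y, hy⟩) : V₀ ⊕ W) else .inr y := hxy
        by_cases hx : x ∈ posDeg H <;> by_cases hy : y ∈ posDeg H
        · rw [dif_pos hx, dif_pos hy] at hxy'
          exact congrArg Subtype.val (hg (Sum.inl_injective hxy'))
        · rw [dif_pos hx, dif_neg hy] at hxy'
          exact absurd hxy' (by simp)
        · rw [dif_neg hx, dif_pos hy] at hxy'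
          exact absurd hxy' (by simp)
        · rw [dif_neg hx, dif_neg hy] at hxy'
          exact Sum.inr_injective hxy'
      · intro x y hxy
        have hx : x ∈ posDeg H := ⟨y, hxy⟩
        have hy : y ∈ posDeg H := ⟨x, hxy.symm⟩
        show s((if hx : x ∈ posDeg H then (Sum.inl (g ⟨x, hx⟩) : V₀ ⊕ W) else .inr x),
          (if hy : y ∈ posDeg H then (Sum.inl (g ⟨y, hy⟩) : V₀ ⊕ W) else .inr y)) ∈ L '' I₀
        rw [dif_pos hx, dif_pos hy]
        exact ⟨s(g ⟨x, hx⟩, g ⟨y, hy⟩), hga ⟨x, hx⟩ ⟨y, hy⟩ hxy, rfl⟩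
  refine ⟨V₀ ⊕ W, G, fun F hF => ?_⟩
  obtain ⟨hFG, hFH, hmax⟩ := hF
  rw [hGe] at hFG
  let F₀ : Set (Sym2 V₀) := {e | L e ∈ F}
  have hF₀ : L '' F₀ = F := by
    ext e
    constructor
    · rintro ⟨e', he', rfl⟩
      exact he'
    · intro he
      obtain ⟨e', he', rfl⟩ := hFG he
      exact ⟨e', he, rfl⟩
  have himg : ∀ A B : Set (Sym2 V₀), #(↥(L '' A \ L '' B)) = #(↥(A \ B)) := by
    intro A B
    rw [← Set.image_sdiff L_inj]
    exact Cardinal.mk_image_eq L_inj
  refine hG₀ F₀ ⟨?_, ?_, ?_⟩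
  · intro e he
    obtain ⟨e', he', h⟩ := hFG (show L e ∈ F from he)
    exact (L_inj h) ▸ he'
  · rw [← hfree, hF₀]
    exact hFH
  · intro I hI hIH
    have h1 := hmax (L '' I) (by rw [hGe]; exact Set.image_mono hI) ((hfree I).2 hIH)
    rw [← hF₀, himg, himg] at h1
    exact h1

/-- The component of `x`. -/
def kcomp (H : SimpleGraph W) (x : W) : Set W := {y | H.Reachable x y}

theorem mem_kcomp_self (x : W) : x ∈ kcomp H x := SimpleGraph.Reachable.refl x

theorem kcomp_eq {x y : W} (h : y ∈ kcomp H x) : kcomp H y = kcomp H x := by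
  ext z
  exact ⟨fun hz => SimpleGraph.Reachable.trans h hz,
    fun hz => SimpleGraph.Reachable.trans (SimpleGraph.Reachable.symm h) hz⟩

theorem kcomp_adj {x y z : W} (h : y ∈ kcomp H x) (hyz : H.Adj y z) : z ∈ kcomp H x :=
  SimpleGraph.Reachable.trans h hyz.reachable

theorem mem_kcomp_symm {x y : W} (h : y ∈ kcomp H x) : x ∈ kcomp H y := SimpleGraph.Reachable.symm h

/-- `A` embeds into `B`. -/
def EmbS (H : SimpleGraph W) (A B : Set W) : Prop :=
  ∃ f : W → W, Set.InjOn f A ∧ Set.MapsTo f A B ∧ ∀ a ∈ A, ∀ b, H.Adj a b → H.Adj (f a) (f b)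

/-- The quasi-order of the components. -/
def Le (H : SimpleGraph W) (x y : W) : Prop := EmbS H (kcomp H x) (kcomp H y)

theorem Le.refl (x : W) : Le H x x :=
  ⟨id, Function.injective_id.injOn, fun _ h => h, fun _ _ _ h => h⟩

theorem Le.trans {x y z : W} (h1 : Le H x y) (h2 : Le H y z) : Le H x z := by
  obtain ⟨f, hf, hfm, hfa⟩ := h1
  obtain ⟨g, hg, hgm, hga⟩ := h2
  exact ⟨g ∘ f, hg.comp hf hfm, hgm.comp hfm,
    fun a ha b hab => hga _ (hfm ha) _ (hfa a ha b hab)⟩

theorem Le.of_mem {x y : W} (h : y ∈ kcomp H x) : Le H x y := by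
  show EmbS H (kcomp H x) (kcomp H y)
  rw [kcomp_eq h]
  exact Le.refl x

/-- A map of a component preserving adjacency has its values in one component. -/
theorem Le.of_map {x : W} {f : W → W} (hf : Set.InjOn f (kcomp H x))
    (hfa : ∀ a ∈ kcomp H x, ∀ b, H.Adj a b → H.Adj (f a) (f b)) : Le H x (f x) := by
  refine ⟨f, hf, ?_, hfa⟩
  rintro y ⟨p⟩
  suffices h : ∀ a b, ∀ q : H.Walk a b, a ∈ kcomp H x → H.Reachable (f a) (f b) from
    h x y p (mem_kcomp_self x)
  intro a b q
  induction q with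
  | nil => exact fun _ => SimpleGraph.Reachable.refl _
  | cons h _ ih =>
    intro ha
    exact (hfa _ ha _ h).reachable.trans (ih (kcomp_adj ha h))

/-- If `H[S]` fails, where `S` is a union of components none of which embeds into the complement
of `S`, then `H` fails. -/
theorem Fails.of_rdl (S : Set W) (hS : ∀ x y, H.Adj x y → x ∈ S → y ∈ S)
    (hpos : ∀ x ∈ S, ∃ y, H.Adj x y) (hA : Fails.{u} (H.induce S)) (hne : S.Nonempty)
    (hno : ∀ x ∈ S, ¬ EmbS H (kcomp H x) Sᶜ) : Fails.{u} H := by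
  classical
  refine Fails.of_partsU (A := H.induce S) hA ?_ (fun V₀ K => K × W)
    (fun V₀ K k => {e | ∃ w w' : W, H.Adj w w' ∧ w ∉ S ∧ w' ∉ S ∧
      e = s(.inr (k, w), .inr (k, w'))}) ?_ ?_ ?_ ?_ ?_
  · obtain ⟨x, hx⟩ := hne
    obtain ⟨y, hxy⟩ := hpos x hx
    exact ⟨⟨x, hx⟩, ⟨y, hS x y hxy hx⟩, hxy⟩
  · rintro V₀ K k e ⟨w, w', hww, hw, hw', rfl⟩ a h
    induction a with
    | _ x y =>
      rw [Sym2.map_mk, Sym2.eq_iff] at h
      rcases h with ⟨h1, h2⟩ | ⟨h1, h2⟩
      · exact absurd h1 (by simp)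
      · exact absurd h1 (by simp)
  · rintro V₀ K k e ⟨w, w', hww, hw, hw', rfl⟩ h
    rw [Sym2.mk_isDiag_iff] at h
    simp only [Sum.inr.injEq, Prod.mk.injEq, true_and] at h
    exact hww.ne h
  · rintro V₀ K k l e ⟨w, w', hww, hw, hw', rfl⟩ ⟨x, x', hxx, hx, hx', h⟩
    rw [Sym2.eq_iff] at h
    simp only [Sum.inr.injEq, Prod.mk.injEq] at h
    rcases h with ⟨h1, h2⟩ | ⟨h1, h2⟩
    · exact h1.1
    · exact h1.1
  · intro V₀ K I₀ hI₀
    rw [hFree_iff]
    intro f hf hfa
    have hnbr : ∀ a b, H.Adj a b → ∀ k w, f a = .inr (k, w) →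
        ∃ w', H.Adj w w' ∧ w ∉ S ∧ w' ∉ S ∧ f b = .inr (k, w') := by
      intro a b hab k w hw
      rcases hfa a b hab with ⟨e, he, h⟩ | ⟨k', x, x', hxx, hx, hx', h⟩
      · induction e with
        | _ y z =>
          rw [Sym2.map_mk, Sym2.eq_iff, hw] at h
          rcases h with ⟨h1, -⟩ | ⟨-, h1⟩
          · exact absurd h1 (by simp)
          · exact absurd h1 (by simp)
      · rw [Sym2.eq_iff, hw] at h
        simp only [Sum.inr.injEq, Prod.mk.injEq] at h
        rcases h with ⟨⟨rfl, rfl⟩, h1⟩ | ⟨⟨rfl, rfl⟩, h1⟩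
        · exact ⟨x', hxx, hx, hx', h1⟩
        · exact ⟨x, hxx.symm, hx', hx, h1⟩
    have hinl : ∀ x ∈ S, ∃ v, f x = .inl v := by
      intro x hx
      rcases hfx : f x with v | ⟨k, w⟩
      · exact ⟨v, rfl⟩
      · exfalso
        have hK : ∀ z ∈ kcomp H x, ∃ w, f z = .inr (k, w) := by
          rintro z ⟨p⟩
          suffices h : ∀ a b, ∀ q : H.Walk a b, (∃ w, f a = .inr (k, w)) →
              ∃ w, f b = .inr (k, w) from h x z p ⟨w, hfx⟩
          intro a b q
          induction q with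
          | nil => exact fun h => h
          | cons h _ ih =>
            rintro ⟨w, hw⟩
            obtain ⟨w', -, -, -, h1⟩ := hnbr _ _ h k w hw
            exact ih ⟨w', h1⟩
        choose! g hg using hK
        refine hno x hx ⟨g, ?_, ?_, ?_⟩
        · intro a ha b hb hab
          apply hf
          rw [hg a ha, hg b hb, hab]
        · intro a ha
          have haS : a ∈ S := by
            obtain ⟨p⟩ := ha
            suffices h : ∀ a b, ∀ q : H.Walk a b, a ∈ S → b ∈ S from h x a p hx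
            intro a b q
            induction q with
            | nil => exact fun h => h
            | cons h _ ih => exact fun ha => ih (hS _ _ h ha)
          obtain ⟨b, hab⟩ := hpos a haS
          obtain ⟨w', -, h1, -, -⟩ := hnbr a b hab k (g a) (hg a ha)
          exact h1
        · intro a ha b hab
          obtain ⟨w', h1, -, -, h2⟩ := hnbr a b hab k (g a) (hg a ha)
          rw [hg b (kcomp_adj ha hab)] at h2
          simp only [Sum.inr.injEq, Prod.mk.injEq, true_and] at h2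
          rw [h2]
          exact h1
    have hinl' : ∀ x : S, ∃ v, f x = .inl v := fun x => hinl x.1 x.2
    choose g hg using hinl'
    rw [hFree_iff] at hI₀
    refine hI₀ g ?_ ?_
    · intro a b h
      exact Subtype.ext (hf (by rw [hg, hg, h]))
    · intro a b hab
      have hab' : H.Adj a b := hab
      rcases hfa a b hab' with ⟨e, he, h⟩ | ⟨k', x, x', hxx, hx, hx', h⟩
      · rw [hg, hg] at h
        have h1 : e = s(g a, g b) := Sym2.map.injective Sum.inl_injective (by rw [h]; rfl)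
        exact h1 ▸ he
      · exfalso
        rw [hg, hg, Sym2.eq_iff] at h
        rcases h with ⟨h1, -⟩ | ⟨h1, -⟩
        · exact absurd h1 (by simp)
        · exact absurd h1 (by simp)
  · intro V₀ K F₀ Good hGood hF₀
    rw [not_hFree_iff] at hF₀ ⊢
    obtain ⟨f₀, hf₀, hf₀a⟩ := hF₀
    obtain ⟨k, hk⟩ := hGood.nonempty
    refine ⟨fun w => if h : w ∈ S then .inl (f₀ ⟨w, h⟩) else .inr (k, w), ?_, ?_⟩
    · intro a b hab
      by_cases ha : a ∈ S <;> by_cases hb : b ∈ S
      · simp only [dif_pos ha, dif_pos hb, Sum.inl.injEq] at hab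
        exact congrArg Subtype.val (hf₀ hab)
      · simp [dif_pos ha, dif_neg hb] at hab
      · simp [dif_neg ha, dif_pos hb] at hab
      · simp only [dif_neg ha, dif_neg hb, Sum.inr.injEq, Prod.mk.injEq, true_and] at hab
        exact hab
    · intro a b hab
      by_cases ha : a ∈ S
      · have hb : b ∈ S := hS a b hab ha
        left
        refine ⟨s(f₀ ⟨a, ha⟩, f₀ ⟨b, hb⟩), hf₀a ⟨a, ha⟩ ⟨b, hb⟩ hab, ?_⟩
        simp only [dif_pos ha, dif_pos hb]
        rfl
      · have hb : b ∉ S := fun hb => ha (hS b a hab.symm hb)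
        right
        refine ⟨k, hk, a, b, hab, ha, hb, ?_⟩
        simp only [dif_neg ha, dif_neg hb]

end FinComp

end Pool.Agent.StrongMax
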