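import Pool.Agent.Lib.StrongMax.Prune

/-!
# Star forests with two disjoint edges (helper42)
-/

namespace Pool.Agent.StrongMax

open Cardinal

universe u v

namespace StarForest

/-- The leaves of the star `j`. -/
abbrev T (j : ℕ) : Type := (Cardinal.aleph (((j + 1 : ℕ) : ℕ) : Ordinal.{0})).out

theorem card_T (j : ℕ) : #(T j) = Cardinal.aleph ((j + 1 : ℕ) : Ordinal.{0}) := Cardinal.mk_out _

/-- Vertices of the host: centres and leaves. -/
abbrev V : Type := ℕ ⊕ (Σ j : ℕ, T j)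

/-- The host: the disjoint union of stars. -/
def G : SimpleGraph V where
  Adj a b := match a, b with
    | .inl i, .inr x => i = x.1
    | .inr x, .inl i => i = x.1
    | _, _ => False
  symm := ⟨by
    intro a b h
    rcases a with a | a <;> rcases b with b | b <;> exact h⟩
  loopless := ⟨by
    intro a h
    rcases a with a | a <;> exact h⟩

/-- The edges. -/
def e (x : Σ j : ℕ, T j) : Sym2 V := s(Sum.inl x.1, Sum.inr x)

theorem e_inj : Function.Injective e := by
  intro x y h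
  simp only [e, Sym2.eq_iff, Sum.inl.injEq, Sum.inr.injEq, reduceCtorEq, and_self, or_false] at h
  exact h.2

theorem mem_edgeSet {a : Sym2 V} : a ∈ G.edgeSet ↔ ∃ x, a = e x := by
  constructor
  · intro h
    induction a with
    | _ a b =>
      rw [SimpleGraph.mem_edgeSet] at h
      rcases a with i | x <;> rcases b with i' | y
      · exact absurd h id
      · have h' : i = y.1 := h
        subst h'; exact ⟨y, rfl⟩
      · have h' : i' = x.1 := h
        subst h'; exact ⟨x, Sym2.eq_swap⟩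
      · exact absurd h id
  · rintro ⟨x, rfl⟩
    exact rfl

end StarForest

open StarForest in
/-- Finite star forests with two disjoint edges fail. -/
theorem starForest_fails {W : Type v} [Finite W] {H : SimpleGraph W}
    (hno : ∀ x ∈ coreSet H, ∀ y ∈ coreSet H, ¬ H.Adj x y)
    (htwo : ∃ a b c d, H.Adj a b ∧ H.Adj c d ∧ a ≠ c ∧ a ≠ d ∧ b ≠ c ∧ b ≠ d) : Fails.{0} H := by
  classical
  refine ⟨V, G, ?_⟩
  rintro F ⟨hFG, hFH, hFmax⟩
  obtain ⟨enc, henc⟩ := exists_injective_nat W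
  set N := Nat.card W with hN
  -- the centres
  have hcen : ∃ c : W → W, ∀ a b, H.Adj a b → c a = c b ∧ (c a = a ∨ c a = b) := by
    have h1 : ∀ x, x ∉ coreSet H → ∀ y z, H.Adj x y → H.Adj x z → y = z := by
      intro x hx y z hy hz
      by_contra hne
      exact hx ⟨y, z, hne, hy, hz⟩
    let c : W → W := fun x => if x ∈ coreSet H then x else
      if h : ∃ y, H.Adj x y then
        (if h.choose ∈ coreSet H then h.choose else if enc x < enc h.choose then x else h.choose)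
      else x
    have hc1 : ∀ x ∈ coreSet H, c x = x := fun x hx => if_pos hx
    have hc2 : ∀ x y, x ∉ coreSet H → H.Adj x y → c x =
        if y ∈ coreSet H then y else if enc x < enc y then x else y := by
      intro x y hx hxy
      have hex : ∃ y, H.Adj x y := ⟨y, hxy⟩
      have h2 : hex.choose = y := h1 x hx _ _ hex.choose_spec hxy
      simp only [c]
      rw [if_neg hx, dif_pos hex, h2]
    refine ⟨c, fun a b hab => ?_⟩
    by_cases ha : a ∈ coreSet H <;> by_cases hb : b ∈ coreSet H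
    · exact absurd hab (hno a ha b hb)
    · rw [hc1 a ha, hc2 b a hb hab.symm, if_pos ha]
      exact ⟨rfl, Or.inl rfl⟩
    · rw [hc1 b hb, hc2 a b ha hab, if_pos hb]
      exact ⟨rfl, Or.inr rfl⟩
    · rw [hc2 a b ha hab, hc2 b a hb hab.symm, if_neg ha, if_neg hb]
      have hne : enc a ≠ enc b := fun h => hab.ne (henc h)
      rcases lt_or_gt_of_ne hne with h | h
      · rw [if_pos h, if_neg (by omega)]
        exact ⟨rfl, Or.inl rfl⟩
      · rw [if_neg (by omega), if_pos h]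
        exact ⟨rfl, Or.inr rfl⟩
  obtain ⟨c, hc⟩ := hcen
  -- only finitely many big stars
  have hbig : {j : ℕ | (N : ℕ∞) ≤ {t : T j | e ⟨j, t⟩ ∈ F}.encard}.Finite := by
    by_contra hinf
    have hinf' : {j : ℕ | (N : ℕ∞) ≤ {t : T j | e ⟨j, t⟩ ∈ F}.encard}.Infinite := hinf
    have := hinf'.to_subtype
    let J := Infinite.natEmbedding {j : ℕ | (N : ℕ∞) ≤ {t : T j | e ⟨j, t⟩ ∈ F}.encard}
    -- leaves for each star
    have hl : ∀ n : ℕ, ∃ g : W → T (J n).1, Function.Injective g ∧ ∀ x, e ⟨(J n).1, g x⟩ ∈ F := by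
      intro n
      obtain ⟨g, hg, hg'⟩ := exists_sdr (ι := W) (fun _ => {t : T (J n).1 | e ⟨(J n).1, t⟩ ∈ F}) N
        le_rfl (fun _ => (J n).2)
      exact ⟨g, hg, hg'⟩
    choose g hg1 hg2 using hl
    let f : W → V := fun x => if c x = x then Sum.inl (J (enc x)).1
      else Sum.inr ⟨(J (enc (c x))).1, g (enc (c x)) x⟩
    have hJ : ∀ m n, (J m).1 = (J n).1 → m = n := fun m n h => J.injective (Subtype.ext h)
    have hf1 : ∀ x, c x = x → f x = Sum.inl (J (enc x)).1 := fun x h => if_pos h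
    have hf2 : ∀ x, c x ≠ x → f x = Sum.inr ⟨(J (enc (c x))).1, g (enc (c x)) x⟩ := fun x h => if_neg h
    refine hFree_iff.1 hFH f ?_ ?_
    · intro x y hxy
      by_cases hx : c x = x <;> by_cases hy : c y = y
      · rw [hf1 x hx, hf1 y hy] at hxy
        exact henc (hJ _ _ (Sum.inl_injective hxy))
      · rw [hf1 x hx, hf2 y hy] at hxy; exact absurd hxy (by simp)
      · rw [hf2 x hx, hf1 y hy] at hxy; exact absurd hxy (by simp)
      · rw [hf2 x hx, hf2 y hy] at hxy
        have h := Sum.inr_injective hxy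
        rw [Sigma.mk.injEq] at h
        have h1 := hJ _ _ h.1
        have h2 := h.2
        rw [h1] at h2
        exact hg1 _ (eq_of_heq h2)
    · intro a b hab
      obtain ⟨h1, h2 | h2⟩ := hc a b hab
      · have hb : c b ≠ b := fun h => hab.ne (by rw [← h2, h1, h])
        rw [hf1 a h2, hf2 b hb]
        have h3 : c b = a := by rw [← h1, h2]
        rw [h3]
        exact hg2 _ _
      · have ha : c a ≠ a := fun h => hab.ne (by rw [← h, h2])
        have h3 : c b = b := by rw [← h1, h2]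
        rw [hf2 a ha, hf1 b h3, h2, Sym2.eq_swap]
        exact hg2 _ _
  obtain ⟨b₀, hb₀⟩ := hbig.bddAbove
  set j₀ := b₀ + 1 with hj₀
  have hsmall : ∀ j, j₀ ≤ j → {t : T j | e ⟨j, t⟩ ∈ F}.Finite := by
    intro j hj
    by_contra hinf
    have : j ≤ b₀ := hb₀ (by
      show (N : ℕ∞) ≤ _
      rw [Set.Infinite.encard_eq hinf]; exact le_top)
    omega
  -- compare with the star j₀
  let I : Set (Sym2 V) := {a | ∃ t : T j₀, a = e ⟨j₀, t⟩}
  have hIG : I ⊆ G.edgeSet := by
    rintro a ⟨t, rfl⟩; exact StarForest.mem_edgeSet.2 ⟨_, rfl⟩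
  have hIH : HFree H I := by
    rw [hFree_iff]
    intro f hf hfI
    obtain ⟨p, q, r, s, hpq, hrs, h1, h2, h3, h4⟩ := htwo
    have key : ∀ x y, H.Adj x y → f x = Sum.inl j₀ ∨ f y = Sum.inl j₀ := by
      intro x y hxy
      obtain ⟨t, ht⟩ := hfI x y hxy
      simp only [e, Sym2.eq_iff] at ht
      rcases ht with ⟨h, _⟩ | ⟨_, h⟩
      · exact Or.inl h
      · exact Or.inr h
    rcases key p q hpq with hp | hp <;> rcases key r s hrs with hr | hr
    · exact h1 (hf (hp.trans hr.symm))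
    · exact h2 (hf (hp.trans hr.symm))
    · exact h3 (hf (hp.trans hr.symm))
    · exact h4 (hf (hp.trans hr.symm))
  have h1 := hFmax I hIG hIH
  have h2 : #(T j₀) ≤ #(↥(I \ F)) := by
    have h3 : #(↥({t : T j₀ | e ⟨j₀, t⟩ ∈ F}ᶜ : Set (T j₀))) = #(T j₀) := by
      have : Infinite (T j₀) := by
        rw [Cardinal.infinite_iff, card_T]; exact Cardinal.aleph0_le_aleph _
      exact Cardinal.mk_compl_of_infinite _
        (lt_of_lt_of_le (Cardinal.lt_aleph0_iff_set_finite.2 (hsmall j₀ le_rfl)) (Cardinal.aleph0_le_mk _))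
    rw [← h3]
    refine Cardinal.mk_le_of_injective (f := fun t => ⟨e ⟨j₀, t.1⟩, ⟨⟨t.1, rfl⟩, t.2⟩⟩) ?_
    intro s t h
    have h4 := e_inj (congrArg Subtype.val h)
    rw [Sigma.mk.injEq] at h4
    exact Subtype.ext (eq_of_heq h4.2)
  have h3 : #(↥(F \ I)) ≤ #((Σ j : Fin j₀, T j) ⊕ (Σ j : ℕ, {t : T (j₀ + 1 + j) | e ⟨j₀ + 1 + j, t⟩ ∈ F})) := by
    have : ∀ a : ↥(F \ I), ∃ x : (Σ j : Fin j₀, T j) ⊕ (Σ j : ℕ, {t : T (j₀ + 1 + j) | e ⟨j₀ + 1 + j, t⟩ ∈ F}),
        a.1 = e (Sum.elim (fun y => ⟨y.1, y.2⟩) (fun y => ⟨j₀ + 1 + y.1, y.2⟩) x) := by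
      rintro ⟨a, haF, haI⟩
      obtain ⟨⟨j, t⟩, rfl⟩ := StarForest.mem_edgeSet.1 (hFG haF)
      rcases lt_trichotomy j j₀ with h | h | h
      · exact ⟨Sum.inl ⟨⟨j, h⟩, t⟩, rfl⟩
      · subst h; exact absurd ⟨t, rfl⟩ haI
      · obtain ⟨k, rfl⟩ := Nat.exists_eq_add_of_le (show j₀ + 1 ≤ j from h)
        exact ⟨Sum.inr ⟨k, ⟨t, haF⟩⟩, rfl⟩
    choose g hg using this
    refine Cardinal.mk_le_of_injective (f := g) ?_
    intro a b h
    exact Subtype.ext (by rw [hg a, hg b, h])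
  have h4 : #((Σ j : Fin j₀, T j) ⊕ (Σ j : ℕ, {t : T (j₀ + 1 + j) | e ⟨j₀ + 1 + j, t⟩ ∈ F})) ≤
      Cardinal.aleph ((j₀ : ℕ) : Ordinal.{0}) := by
    have hcount : #(Σ j : ℕ, {t : T (j₀ + 1 + j) | e ⟨j₀ + 1 + j, t⟩ ∈ F}) ≤ ℵ₀ := by
      have : ∀ j : ℕ, Countable {t : T (j₀ + 1 + j) | e ⟨j₀ + 1 + j, t⟩ ∈ F} := fun j =>
        (hsmall (j₀ + 1 + j) (by omega)).countable.to_subtype
      exact Cardinal.mk_le_aleph0
    have hleft : #(Σ j : Fin j₀, T j) ≤ Cardinal.aleph ((j₀ : ℕ) : Ordinal.{0}) := by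
      rw [Cardinal.mk_sigma]
      have h5 : ∀ j : Fin j₀, #(T j) ≤ Cardinal.aleph ((j₀ : ℕ) : Ordinal.{0}) := by
        intro j
        rw [card_T]
        apply Cardinal.aleph_le_aleph.2
        have := j.2
        exact_mod_cast (show j.1 + 1 ≤ j₀ by omega)
      refine (Cardinal.sum_le_sum _ _ h5).trans ?_
      rw [Cardinal.sum_const']
      have h6 : #(Fin j₀) ≤ Cardinal.aleph ((j₀ : ℕ) : Ordinal.{0}) := by
        refine le_trans ?_ (Cardinal.aleph0_le_aleph _)
        rw [Cardinal.mk_fin]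
        exact (Cardinal.natCast_lt_aleph0).le
      exact (mul_le_mul' h6 le_rfl).trans (Cardinal.mul_eq_self (Cardinal.aleph0_le_aleph _)).le
    rw [Cardinal.mk_sum, Cardinal.lift_id, Cardinal.lift_id]
    refine (add_le_add hleft (hcount.trans (Cardinal.aleph0_le_aleph ((j₀ : ℕ) : Ordinal.{0})))).trans ?_
    rw [Cardinal.add_eq_self (Cardinal.aleph0_le_aleph _)]
  have h5 : #(T j₀) ≤ Cardinal.aleph ((j₀ : ℕ) : Ordinal.{0}) := h2.trans (h1.trans (h3.trans h4))
  rw [card_T, Cardinal.aleph_le_aleph] at h5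
  have h6 : (j₀ + 1 : ℕ) ≤ j₀ := by exact_mod_cast h5
  omega

end Pool.Agent.StrongMax
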