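import Pool.Agent.Lib.StrongMax.Reduce
import Pool.Agent.Lib.StrongMax.StarForest

/-!
# Reduction of disconnected graphs to their components (helper42)
-/

namespace Pool.Agent.StrongMax

open Cardinal

universe u v w

/-- The graph induced on `S` embeds as a subgraph in the graph induced on `T`. -/
def Emb {W : Type v} (H : SimpleGraph W) (S T : Set W) : Prop :=
  ∃ f : S → W, Function.Injective f ∧ (∀ a, f a ∈ T) ∧ ∀ a b : S, H.Adj a b → H.Adj (f a) (f b)

theorem Emb.refl {W : Type v} (H : SimpleGraph W) (S : Set W) : Emb H S S :=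
  ⟨Subtype.val, Subtype.val_injective, fun a => a.2, fun _ _ h => h⟩

theorem Emb.trans {W : Type v} {H : SimpleGraph W} {S T U : Set W} (h1 : Emb H S T)
    (h2 : Emb H T U) : Emb H S U := by
  obtain ⟨f, hf, hfT, hfa⟩ := h1
  obtain ⟨g, hg, hgU, hga⟩ := h2
  refine ⟨fun a => g ⟨f a, hfT a⟩, fun a b h => hf (congrArg Subtype.val (hg h)), fun a => hgU _,
    fun a b h => hga _ _ (hfa a b h)⟩

theorem Emb.ncard_le {W : Type v} [Finite W] {H : SimpleGraph W} {S T : Set W} (h : Emb H S T) :
    S.ncard ≤ T.ncard := by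
  obtain ⟨f, hf, hfT, -⟩ := h
  rw [← Nat.card_coe_set_eq, ← Nat.card_coe_set_eq]
  exact Nat.card_le_card_of_injective (fun a => (⟨f a, hfT a⟩ : T))
    (fun a b h => hf (congrArg Subtype.val h))

namespace Disc

variable {W : Type u} {VC : Type u}

/-- The embedding of the copy `t`. -/
noncomputable def emb (VC : Type u) (Z : Set W) (t : Set (Sym2 VC)) (w : W) : Set (Sym2 VC) × W :=
  open Classical in if w ∈ Z then (∅, w) else (t, w)

theorem emb_snd {Z : Set W} {t : Set (Sym2 VC)} {w : W} : (emb VC Z t w).2 = w := by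
  unfold emb; split_ifs <;> rfl

theorem emb_of_mem {Z : Set W} {t : Set (Sym2 VC)} {w : W} (h : w ∈ Z) :
    emb VC Z t w = (∅, w) := if_pos h

theorem emb_of_notMem {Z : Set W} {t : Set (Sym2 VC)} {w : W} (h : w ∉ Z) :
    emb VC Z t w = (t, w) := if_neg h

/-- The edges of the part `P`. -/
def P (VC : Type u) (H : SimpleGraph W) (S Z : Set W) : Set (Sym2 (VC ⊕ (Set (Sym2 VC) × W))) :=
  {e | ∃ t w w', H.Adj w w' ∧ w ∉ S ∧ w' ∉ S ∧
    e = s(Sum.inr (emb VC Z t w), Sum.inr (emb VC Z t w'))}

/-- The map of the edges of `G` to the host. -/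
def L : Sym2 VC → Sym2 (VC ⊕ (Set (Sym2 VC) × W)) := Sym2.map Sum.inl

theorem L_inj : Function.Injective (L : Sym2 VC → Sym2 (VC ⊕ (Set (Sym2 VC) × W))) :=
  Sym2.map.injective Sum.inl_injective

/-- The host. -/
def host (G : SimpleGraph VC) (H : SimpleGraph W) (S Z : Set W) :
    SimpleGraph (VC ⊕ (Set (Sym2 VC) × W)) :=
  SimpleGraph.fromEdgeSet (L '' G.edgeSet ∪ P VC H S Z)

theorem host_edgeSet (G : SimpleGraph VC) (H : SimpleGraph W) (S Z : Set W) :
    (host G H S Z).edgeSet = L '' G.edgeSet ∪ P VC H S Z := by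
  unfold host
  rw [SimpleGraph.edgeSet_fromEdgeSet]
  apply sdiff_eq_left.2
  rw [Set.disjoint_left]
  rintro e (⟨a, ha, rfl⟩ | ⟨t, w, w', h, -, -, rfl⟩) he
  · induction a with
    | _ a b =>
      have h1 : G.Adj a b := ha
      simp only [L, Sym2.map_mk, Sym2.mem_diagSet, Sym2.mk_isDiag_iff, Sum.inl.injEq] at he
      exact h1.ne he
  · simp only [Sym2.mem_diagSet, Sym2.mk_isDiag_iff, Sum.inr.injEq] at he
    have := congrArg Prod.snd he
    rw [emb_snd, emb_snd] at this
    exact h.ne this

end Disc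

open Disc in
theorem Fails.of_component {W : Type u} [Finite W] {H : SimpleGraph W} (C : H.ConnectedComponent)
    (hmax : ∀ D : H.ConnectedComponent, Emb H C.supp D.supp → Emb H D.supp C.supp)
    (hedge : ∃ x ∈ C.supp, ∃ y ∈ C.supp, H.Adj x y)
    (hfail : Fails.{u} (H.induce C.supp)) : Fails.{u} H := by
  classical
  obtain ⟨VC, G, hG⟩ := hfail
  -- the class of `C`
  let 𝒦 : Set H.ConnectedComponent := {K | Emb H C.supp K.supp}
  let Z : Set W := {w | ∃ K ∈ 𝒦, K ≠ C ∧ Quot.out K = w}
  have hout : ∀ K : H.ConnectedComponent, H.connectedComponentMk (Quot.out K) = K :=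
    fun K => Quot.out_eq K
  have hZ1 : ∀ w ∈ Z, Quot.out (H.connectedComponentMk w) = w ∧
      H.connectedComponentMk w ∈ 𝒦 ∧ H.connectedComponentMk w ≠ C := by
    rintro w ⟨K, hK, hKC, rfl⟩
    rw [hout]
    exact ⟨rfl, hK, hKC⟩
  have hZ2 : ∀ K ∈ 𝒦, K ≠ C → Quot.out K ∈ Z := fun K hK hKC => ⟨K, hK, hKC, rfl⟩
  have hadjc : ∀ a b, H.Adj a b → H.connectedComponentMk a = H.connectedComponentMk b :=
    fun a b h => SimpleGraph.ConnectedComponent.eq.2 h.reachable
  -- functions constant along edges are constant on components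
  have hconst : ∀ {α : Type u} (K : H.ConnectedComponent) (φ : W → α),
      (∀ a b, a ∈ K.supp → b ∈ K.supp → H.Adj a b → φ a = φ b) →
      ∀ a b, a ∈ K.supp → b ∈ K.supp → φ a = φ b := by
    intro α K φ hφ a b ha hb
    have h1 : H.Reachable a b := SimpleGraph.ConnectedComponent.exact (ha.trans hb.symm)
    refine (reachable_closed (S := {w | w ∈ K.supp ∧ φ a = φ w}) ?_ h1 ⟨ha, rfl⟩).2
    rintro x ⟨hx, hx'⟩ y hxy
    have hy : y ∈ K.supp := by
      have := hadjc x y hxy
      show H.connectedComponentMk y = K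
      rw [← this]; exact hx
    exact ⟨hy, hx'.trans (hφ x y hx hy hxy)⟩
  -- Claim A
  have claimA : ∀ (IC : Set (Sym2 VC)), HFree (H.induce C.supp) IC →
      ∀ I : Set (Sym2 (VC ⊕ (Set (Sym2 VC) × W))), I ⊆ L '' IC ∪ P VC H C.supp Z → HFree H I := by
    intro IC hIC I hI
    rw [hFree_iff]
    intro f hf hfa
    have hcases : ∀ a b, H.Adj a b →
        (∃ x y, f a = Sum.inl x ∧ f b = Sum.inl y ∧ s(x, y) ∈ IC) ∨
        (∃ t w w', H.Adj w w' ∧ w ∉ C.supp ∧ w' ∉ C.supp ∧
          f a = Sum.inr (emb VC Z t w) ∧ f b = Sum.inr (emb VC Z t w')) := by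
      intro a b hab
      rcases hI (hfa a b hab) with ⟨e, he, h⟩ | ⟨t, w, w', h1, h2, h3, h⟩
      · left
        induction e with
        | _ x y =>
          simp only [L, Sym2.map_mk] at h
          rw [Sym2.eq_iff] at h
          rcases h with ⟨h, h'⟩ | ⟨h, h'⟩
          · exact ⟨x, y, h.symm, h'.symm, he⟩
          · exact ⟨y, x, h'.symm, h.symm, by rwa [Sym2.eq_swap]⟩
      · right
        rw [Sym2.eq_iff] at h
        rcases h with ⟨h, h'⟩ | ⟨h, h'⟩
        · exact ⟨t, w, w', h1, h2, h3, h, h'⟩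
        · exact ⟨t, w', w, h1.symm, h3, h2, h, h'⟩
    have hKedge : ∀ K ∈ 𝒦, ∃ x ∈ K.supp, ∃ y ∈ K.supp, H.Adj x y := by
      rintro K ⟨g, hg, hgK, hga⟩
      obtain ⟨x, hx, y, hy, hxy⟩ := hedge
      exact ⟨g ⟨x, hx⟩, hgK _, g ⟨y, hy⟩, hgK _, hga ⟨x, hx⟩ ⟨y, hy⟩ hxy⟩
    -- every component of the class is mapped to the right side
    have hright : ∀ K ∈ 𝒦, ∀ a ∈ K.supp, ∃ p, f a = Sum.inr p := by
      intro K hK a ha
      by_contra hcon
      have hleft : ∀ b ∈ K.supp, (ULift.up.{u} (f b).isLeft) = ULift.up.{u} true := by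
        intro b hb
        rw [hconst K (fun w => ULift.up.{u} (f w).isLeft) (fun x y _ _ hxy => by
          rcases hcases x y hxy with ⟨p, q, h1, h2, _⟩ | ⟨t, w, w', _, _, _, h1, h2⟩
          · show ULift.up.{u} (f x).isLeft = ULift.up.{u} (f y).isLeft
            rw [h1, h2]; rfl
          · show ULift.up.{u} (f x).isLeft = ULift.up.{u} (f y).isLeft
            rw [h1, h2]; rfl) b a hb ha]
        cases hfa' : f a with
        | inl x => rfl
        | inr p => exact absurd ⟨p, hfa'⟩ hcon
      have hleft' : ∀ b : K.supp, ∃ x, f b = Sum.inl x := by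
        intro b
        have h := congrArg ULift.down (hleft b b.2)
        simp only at h
        exact Sum.isLeft_iff.1 h
      choose φ hφ using hleft'
      obtain ⟨g, hg, hgK, hga⟩ := hK
      refine hFree_iff.1 hIC (fun c => φ ⟨g c, hgK c⟩) ?_ ?_
      · intro c d hcd
        have h1 : f (g c) = f (g d) := by
          rw [hφ ⟨g c, hgK c⟩, hφ ⟨g d, hgK d⟩]
          exact congrArg Sum.inl hcd
        exact hg (hf h1)
      · intro c d hcd
        have hcd' : H.Adj c.1 d.1 := hcd
        rcases hcases _ _ (hga c d hcd') with ⟨p, q, h1, h2, h3⟩ | ⟨t, w, w', _, _, _, h1, h2⟩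
        · have h4 := hφ ⟨g c, hgK c⟩
          have h5 := hφ ⟨g d, hgK d⟩
          simp only at h4 h5
          rw [h1] at h4; rw [h2] at h5
          rw [← Sum.inl_injective h4, ← Sum.inl_injective h5]; exact h3
        · rw [hφ ⟨g c, hgK c⟩] at h1
          exact absurd h1 (by simp)
    -- the component of the projection
    have hD : ∀ K ∈ 𝒦, ∃ D : H.ConnectedComponent, D ≠ C ∧
        ∀ a ∈ K.supp, ∃ t w, f a = Sum.inr (emb VC Z t w) ∧ w ∈ D.supp := by
      intro K hK
      obtain ⟨x, hx, y, hy, hxy⟩ := hKedge K hK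
      have hproj : ∀ a ∈ K.supp, ∃ t w, f a = Sum.inr (emb VC Z t w) ∧ w ∉ C.supp := by
        intro a ha
        obtain ⟨b, hb, hab⟩ : ∃ b ∈ K.supp, H.Adj a b := by
          by_contra hcon
          push Not at hcon
          have h1 : H.Reachable a x := SimpleGraph.ConnectedComponent.exact (ha.trans hx.symm)
          have h2 := reachable_closed (S := {a}) (fun c hc d hcd => by
            rw [Set.mem_singleton_iff] at hc
            subst hc
            have hd : d ∈ K.supp := by
              show H.connectedComponentMk d = K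
              rw [← hadjc c d hcd]; exact ha
            exact absurd hcd (hcon d hd)) h1 rfl
          rw [Set.mem_singleton_iff] at h2
          exact hcon y hy (h2 ▸ hxy)
        rcases hcases a b hab with ⟨p, q, h1, h2, _⟩ | ⟨t, w, w', _, h3, _, h1, h2⟩
        · obtain ⟨p', hp'⟩ := hright K hK a ha
          rw [h1] at hp'; exact absurd hp' (by simp)
        · exact ⟨t, w, h1, h3⟩
      choose! t₀ w₀ h₀ h₀' using hproj
      refine ⟨H.connectedComponentMk (w₀ x), h₀' x hx, fun a ha => ⟨t₀ a, w₀ a, h₀ a ha, ?_⟩⟩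
      refine hconst K (fun w => H.connectedComponentMk (w₀ w)) (fun c d hc hd hcd => ?_) a x ha hx
      rcases hcases c d hcd with ⟨p, q, h1, h2, _⟩ | ⟨t, w, w', h3, _, _, h1, h2⟩
      · rw [h₀ c hc] at h1; exact absurd h1 (by simp)
      · rw [h₀ c hc] at h1; rw [h₀ d hd] at h2
        have h4 := congrArg Prod.snd (Sum.inr_injective h1)
        have h5 := congrArg Prod.snd (Sum.inr_injective h2)
        rw [emb_snd, emb_snd] at h4 h5
        show H.connectedComponentMk (w₀ c) = H.connectedComponentMk (w₀ d)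
        rw [h4, h5]; exact hadjc _ _ h3
    have : Nonempty H.ConnectedComponent := ⟨C⟩
    choose! D hDC hDa using hD
    -- the copies avoiding the glue vertex
    have hinj : ∀ K ∈ 𝒦, (∀ a ∈ K.supp, ∀ w ∈ Z, f a ≠ Sum.inr (∅, w)) →
        ∃ g : K.supp → W, Function.Injective g ∧ (∀ a, g a ∈ (D K).supp ∧ g a ∉ Z) ∧
          ∀ a b : K.supp, H.Adj a b → H.Adj (g a) (g b) := by
      intro K hK hav
      have h1 : ∀ a ∈ K.supp, ∃ t w, f a = Sum.inr (t, w) ∧ w ∈ (D K).supp ∧ w ∉ Z := by
        intro a ha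
        obtain ⟨t, w, h, hw⟩ := hDa K hK a ha
        have hwZ : w ∉ Z := by
          intro hwZ
          rw [emb_of_mem hwZ] at h
          exact hav a ha w hwZ h
        rw [emb_of_notMem hwZ] at h
        exact ⟨t, w, h, hw, hwZ⟩
      choose! t w hfw hwD hwZ using h1
      have hadj : ∀ c d, c ∈ K.supp → d ∈ K.supp → H.Adj c d → t c = t d ∧ H.Adj (w c) (w d) := by
        intro c d hc hd hcd
        rcases hcases c d hcd with ⟨p, q, h1, h2, _⟩ | ⟨s, x, x', h3, _, _, h1, h2⟩
        · rw [hfw c hc] at h1; exact absurd h1 (by simp)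
        · rw [hfw c hc] at h1; rw [hfw d hd] at h2
          have h4 := Sum.inr_injective h1
          have h5 := Sum.inr_injective h2
          have h6 := congrArg Prod.snd h4
          have h7 := congrArg Prod.snd h5
          rw [emb_snd] at h6 h7
          simp only at h6 h7
          have hx : x ∉ Z := h6 ▸ hwZ c hc
          have hx' : x' ∉ Z := h7 ▸ hwZ d hd
          rw [emb_of_notMem hx] at h4
          rw [emb_of_notMem hx'] at h5
          have h8 := congrArg Prod.fst h4
          have h9 := congrArg Prod.fst h5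
          simp only at h8 h9
          exact ⟨h8.trans h9.symm, by rw [h6, h7]; exact h3⟩
      have ht := hconst K t (fun c d hc hd hcd => (hadj c d hc hd hcd).1)
      refine ⟨fun a => w a, ?_, fun a => ⟨hwD a a.2, hwZ a a.2⟩, fun a b hab =>
        (hadj a b a.2 b.2 hab).2⟩
      intro a b hab
      apply Subtype.ext
      apply hf
      rw [hfw a a.2, hfw b b.2, ht a b a.2 b.2]
      have hab' : w a = w b := hab
      rw [hab']
    have hDK : ∀ K ∈ 𝒦, D K ∈ 𝒦 := by
      intro K hK
      by_contra hcon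
      have hDZ : ∀ a ∈ K.supp, ∀ w ∈ Z, f a ≠ Sum.inr (∅, w) := by
        intro a ha w hw h
        obtain ⟨t, w', h', hw'⟩ := hDa K hK a ha
        rw [h'] at h
        have h1 := congrArg Prod.snd (Sum.inr_injective h)
        rw [emb_snd] at h1
        simp only at h1
        subst h1
        have h2 := (hZ1 w' hw).2.1
        have h3 : H.connectedComponentMk w' = D K := hw'
        rw [h3] at h2
        exact hcon h2
      obtain ⟨g, hg, hgD, hga⟩ := hinj K hK hDZ
      exact hcon (Emb.trans hK ⟨g, hg, fun a => (hgD a).1, hga⟩)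
    have hglue : ∀ K ∈ 𝒦, ∃ a ∈ K.supp, f a = Sum.inr (∅, Quot.out (D K)) := by
      intro K hK
      by_contra hcon
      push Not at hcon
      have hav : ∀ a ∈ K.supp, ∀ w ∈ Z, f a ≠ Sum.inr (∅, w) := by
        intro a ha w hw h
        obtain ⟨t, w', h', hw'⟩ := hDa K hK a ha
        have h0 := h
        rw [h'] at h0
        have h1 := congrArg Prod.snd (Sum.inr_injective h0)
        rw [emb_snd] at h1
        simp only at h1
        subst h1
        have h2 := (hZ1 w' hw).1
        have h3 : H.connectedComponentMk w' = D K := hw'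
        rw [h3] at h2
        rw [h2] at hcon
        exact hcon a ha h
      obtain ⟨g, hg, hgD, hga⟩ := hinj K hK hav
      have h1 : (Set.range g) ⊂ (D K).supp := by
        refine ⟨?_, fun h => ?_⟩
        · rintro x ⟨a, rfl⟩
          exact (hgD a).1
        · have h2 : Quot.out (D K) ∈ (D K).supp := hout (D K)
          obtain ⟨a, ha⟩ := h h2
          exact (hgD a).2 (ha ▸ hZ2 (D K) (hDK K hK) (hDC K hK))
      have h2 : (Set.range g).ncard = K.supp.ncard := by
        rw [← Nat.card_coe_set_eq, ← Nat.card_coe_set_eq]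
        exact Nat.card_congr (Equiv.ofInjective g hg).symm
      have h3 := Set.ncard_lt_ncard h1 (Set.toFinite _)
      have h4 := (hmax (D K) (hDK K hK)).ncard_le
      have h5 : C.supp.ncard ≤ K.supp.ncard := Emb.ncard_le hK
      omega
    -- contradiction by counting
    let Φ : 𝒦 → 𝒦 := fun K => ⟨D K, hDK K K.2⟩
    have hΦ : Function.Injective Φ := by
      intro K K' h
      have h' : D K = D K' := congrArg Subtype.val h
      obtain ⟨a, ha, hfa1⟩ := hglue K K.2
      obtain ⟨b, hb, hfb1⟩ := hglue K' K'.2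
      rw [h'] at hfa1
      have hab : a = b := hf (hfa1.trans hfb1.symm)
      apply Subtype.ext
      have h1 : H.connectedComponentMk a = K := ha
      have h2 : H.connectedComponentMk b = K' := hb
      rw [← h1, ← h2, hab]
    have hfin : Finite H.ConnectedComponent := Quot.finite _
    obtain ⟨K, hK⟩ := (Finite.injective_iff_surjective.1 hΦ) ⟨C, Emb.refl H _⟩
    exact hDC K K.2 (congrArg Subtype.val hK)
  -- the host
  refine ⟨_, host G H C.supp Z, fun F hF => ?_⟩
  obtain ⟨hFG, hFH, hFmax⟩ := hF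
  rw [host_edgeSet] at hFG
  have hPfree : HFree H (P VC H C.supp Z) := by
    refine claimA ∅ ?_ _ (fun e he => Or.inr he)
    rw [hFree_iff]
    intro f _ h
    obtain ⟨x, hx, y, hy, hxy⟩ := hedge
    exact h ⟨x, hx⟩ ⟨y, hy⟩ hxy
  have hPF : #(↥(P VC H C.supp Z \ F)) ≤ #(Sym2 VC) := by
    refine (hFmax (P VC H C.supp Z) ?_ hPfree).trans ?_
    · rw [host_edgeSet]; exact Set.subset_union_right
    · have h1 : ∀ e : ↥(F \ P VC H C.supp Z), ∃ e' : Sym2 VC, L e' = e.1 := by
        rintro ⟨e, he, heP⟩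
        rcases hFG he with ⟨e', _, h⟩ | h
        · exact ⟨e', h⟩
        · exact absurd h heP
      choose g hg using h1
      exact Cardinal.mk_le_of_injective (f := g) (fun a b h => Subtype.ext (by rw [← hg a, ← hg b, h]))
  -- Claim B
  obtain ⟨t, ht⟩ : ∃ t : Set (Sym2 VC), ∀ w w', H.Adj w w' → w ∉ C.supp → w' ∉ C.supp →
      s(Sum.inr (emb VC Z t w), Sum.inr (emb VC Z t w')) ∈ F := by
    by_contra hcon
    push Not at hcon
    choose w w' hadj hw hw' hwF using hcon
    have h1 : #(Set (Sym2 VC)) ≤ #(↥(P VC H C.supp Z \ F)) := by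
      refine Cardinal.mk_le_of_injective (f := fun t =>
        ⟨s(Sum.inr (emb VC Z t (w t)), Sum.inr (emb VC Z t (w' t))),
          ⟨t, w t, w' t, hadj t, hw t, hw' t, rfl⟩, hwF t⟩) ?_
      intro t t' h
      have h2 := congrArg Subtype.val h
      simp only [Sym2.eq_iff, Sum.inr.injEq] at h2
      have key : ∀ a b, emb VC Z t a = emb VC Z t' b → a ∉ Z → t = t' := by
        intro a b hab ha
        have h3 := congrArg Prod.snd hab
        rw [emb_snd, emb_snd] at h3
        subst h3
        rw [emb_of_notMem ha, emb_of_notMem ha] at hab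
        exact congrArg Prod.fst hab
      have hnz : w t ∉ Z ∨ w' t ∉ Z := by
        by_contra hcon
        push Not at hcon
        have h3 := (hZ1 _ hcon.1).1
        have h4 := (hZ1 _ hcon.2).1
        rw [hadjc _ _ (hadj t)] at h3
        exact (hadj t).ne (h3.symm.trans h4)
      rcases hnz with hnz | hnz <;> rcases h2 with ⟨h2, h3⟩ | ⟨h2, h3⟩
      · exact key _ _ h2 hnz
      · exact key _ _ h2 hnz
      · exact key _ _ h3 hnz
      · exact key _ _ h3 hnz
    have h2 := h1.trans hPF
    exact absurd h2 (not_le.2 (by rw [Cardinal.mk_set]; exact Cardinal.cantor _))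
  -- the restriction to the left side
  let FC : Set (Sym2 VC) := {e | (L e : Sym2 (VC ⊕ (Set (Sym2 VC) × W))) ∈ F}
  have hLP : ∀ e : Sym2 VC, (L e : Sym2 (VC ⊕ (Set (Sym2 VC) × W))) ∉ P VC H C.supp Z := by
    rintro e ⟨t, w, w', _, _, _, h⟩
    induction e with
    | _ a b =>
      simp only [L, Sym2.map_mk, Sym2.eq_iff, reduceCtorEq, and_self, or_self] at h
  refine hG FC ⟨?_, ?_, ?_⟩
  · intro e he
    rcases hFG he with ⟨e', he', h⟩ | h
    · exact (L_inj h) ▸ he'
    · exact absurd h (hLP e)
  · rw [hFree_iff]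
    intro g hg hga
    refine hFree_iff.1 hFH (fun w => if h : w ∈ C.supp then Sum.inl (g ⟨w, h⟩) else
      Sum.inr (emb VC Z t w)) ?_ ?_
    · intro a b hab
      simp only at hab
      by_cases ha : a ∈ C.supp <;> by_cases hb : b ∈ C.supp
      · rw [dif_pos ha, dif_pos hb] at hab
        exact congrArg Subtype.val (hg (Sum.inl_injective hab))
      · rw [dif_pos ha, dif_neg hb] at hab
        exact absurd hab (by simp)
      · rw [dif_neg ha, dif_pos hb] at hab
        exact absurd hab (by simp)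
      · rw [dif_neg ha, dif_neg hb] at hab
        have h1 := congrArg Prod.snd (Sum.inr_injective hab)
        rwa [emb_snd, emb_snd] at h1
    · intro a b hab
      have hcomp := hadjc a b hab
      by_cases ha : a ∈ C.supp
      · have hb : b ∈ C.supp := by
          show H.connectedComponentMk b = C
          rw [← hcomp]; exact ha
        simp only [dif_pos ha, dif_pos hb]
        exact hga ⟨a, ha⟩ ⟨b, hb⟩ hab
      · have hb : b ∉ C.supp := by
          intro hb
          apply ha
          show H.connectedComponentMk a = C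
          rw [hcomp]; exact hb
        simp only [dif_neg ha, dif_neg hb]
        exact ht a b hab ha hb
  · intro IC hICG hIC
    have h1 := hFmax (L '' IC ∪ (F ∩ P VC H C.supp Z)) ?_ (claimA IC hIC _ ?_)
    · refine le_trans ?_ (h1.trans ?_)
      · refine Cardinal.mk_le_of_injective (f := fun e => ⟨L e.1, Or.inl ⟨e.1, e.2.1, rfl⟩, e.2.2⟩) ?_
        intro a b h
        exact Subtype.ext (L_inj (congrArg Subtype.val h))
      · have h2 : ∀ e : ↥(F \ (L '' IC ∪ (F ∩ P VC H C.supp Z))), ∃ e' : ↥(FC \ IC), L e'.1 = e.1 := by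
          rintro ⟨e, he, hn⟩
          rcases hFG he with ⟨e', _, h⟩ | h
          · refine ⟨⟨e', ?_, ?_⟩, h⟩
            · show L e' ∈ F
              rw [h]; exact he
            · intro h'
              exact hn (Or.inl ⟨e', h', h⟩)
          · exact absurd (Or.inr ⟨he, h⟩) hn
        choose g hg using h2
        exact Cardinal.mk_le_of_injective (f := g)
          (fun a b h => Subtype.ext (by rw [← hg a, ← hg b, h]))
    · rw [host_edgeSet]
      rintro e (⟨e', he', rfl⟩ | ⟨_, he⟩)
      · exact Or.inl ⟨e', hICG he', rfl⟩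
      · exact Or.inr he
    · rintro e (he | ⟨_, he⟩)
      · exact Or.inl he
      · exact Or.inr he

end Pool.Agent.StrongMax
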