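import Pool.Agent.Lib.StrongMax.Final

/-!
# Graphs with finitely many edges, in every universe (after helper42's file Inf)
-/

namespace Pool.Agent.StrongMax

open Cardinal

universe u

section

variable {W : Type u} {H : SimpleGraph W}

/-- The vertices of positive degree. -/
def posDeg (H : SimpleGraph W) : Set W := {x | ∃ y, H.Adj x y}

/-- If the subgraph induced by the vertices of positive degree fails with a host in the lowest
universe then `H` fails: add isolated vertices to the host. -/
theorem Fails.of_posDeg (hA : Fails.{0} (H.induce (posDeg H))) : Fails.{u} H := by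
  classical
  obtain ⟨V₀, G₀, hG₀⟩ := hA
  let L : Sym2 V₀ → Sym2 (V₀ ⊕ W) := Sym2.map Sum.inl
  have L_inj : Function.Injective L := Sym2.map.injective Sum.inl_injective
  let G : SimpleGraph (V₀ ⊕ W) := SimpleGraph.fromEdgeSet (L '' G₀.edgeSet)
  have hGe : G.edgeSet = L '' G₀.edgeSet := by
    show (SimpleGraph.fromEdgeSet (L '' G₀.edgeSet)).edgeSet = _
    rw [SimpleGraph.edgeSet_fromEdgeSet]
    apply sdiff_eq_left.2
    rw [Set.disjoint_left]
    rintro e ⟨a, ha, rfl⟩ he
    induction a with
    | _ a b =>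
      have h1 : G₀.Adj a b := ha
      simp only [L, Sym2.map_mk, Sym2.mem_diagSet, Sym2.mk_isDiag_iff, Sum.inl.injEq] at he
      exact h1.ne he
  -- `H`-free sets
  have hfree : ∀ I₀ : Set (Sym2 V₀), HFree H (L '' I₀) ↔ HFree (H.induce (posDeg H)) I₀ := by
    intro I₀
    rw [← not_iff_not, not_hFree_iff, not_hFree_iff]
    constructor
    · rintro ⟨f, hf, hfa⟩
      have h1 : ∀ x : posDeg H, ∃ v, f x = .inl v := by
        rintro ⟨x, y, hxy⟩
        obtain ⟨e, -, he⟩ := hfa x y hxy
        induction e with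
        | _ a b =>
          have he' : s(Sum.inl a, Sum.inl b) = s(f x, f y) := he
          rw [Sym2.eq_iff] at he'
          rcases he' with ⟨h1, -⟩ | ⟨-, h1⟩
          · exact ⟨a, h1.symm⟩
          · exact ⟨b, h1.symm⟩
      choose g hg using h1
      refine ⟨g, fun x y h => Subtype.ext (hf (by rw [hg, hg, h])), fun x y hxy => ?_⟩
      obtain ⟨e, he, hee⟩ := hfa x.1 y.1 hxy
      have h2 : L e = L s(g x, g y) := by
        rw [hee, hg, hg]; rfl
      exact (L_inj h2) ▸ he
    · rintro ⟨g, hg, hga⟩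
      refine ⟨fun x => if hx : x ∈ posDeg H then .inl (g ⟨x, hx⟩) else .inr x, ?_, ?_⟩
      · intro x y hxy
        have hxy' : (if hx : x ∈ posDeg H then (Sum.inl (g ⟨x, hx⟩) : V₀ ⊕ W) else .inr x) =
          if hy : y ∈ posDeg H then (Sum.inl (g ⟨y, hy⟩) : V₀ ⊕ W) else .inr y := hxy
        by_cases hx : x ∈ posDeg H <;> by_cases hy : y ∈ posDeg H
        · rw [dif_pos hx, dif_pos hy] at hxy'
          exact congrArg Subtype.val (hg (Sum.inl_injective hxy'))
        · rw [dif_pos hx, dif_neg hy] at hxy'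
          exact absurd hxy' (by simp)
        · rw [dif_neg hx, dif_pos hy] at hxy'
          exact absurd hxy' (by simp)
        · rw [dif_neg hx, dif_neg hy] at hxy'
          exact Sum.inr_injective hxy'
      · intro x y hxy
        have hx : x ∈ posDeg H := ⟨y, hxy⟩
        have hy : y ∈ posDeg H := ⟨x, hxy.symm⟩
        show s((if hx : x ∈ posDeg H then (Sum.inl (g ⟨x, hx⟩) : V₀ ⊕ W) else .inr x),
          (if hy : y ∈ posDeg H then (Sum.inl (g ⟨y, hy⟩) : V₀ ⊕ W) else .inr y)) ∈ L '' I₀
        rw [dif_pos hx, dif_pos hy]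
        exact ⟨s(g ⟨x, hx⟩, g ⟨y, hy⟩), hga ⟨x, hx⟩ ⟨y, hy⟩ hxy, rfl⟩
  refine ⟨V₀ ⊕ W, G, fun F hF => ?_⟩
  obtain ⟨hFG, hFH, hmax⟩ := hF
  rw [hGe] at hFG
  let F₀ : Set (Sym2 V₀) := {e | L e ∈ F}
  have hF₀ : L '' F₀ = F := by
    ext e
    constructor
    · rintro ⟨e', he', rfl⟩
      exact he'
    · intro he
      obtain ⟨e', he', rfl⟩ := hFG he
      exact ⟨e', he, rfl⟩
  have himg : ∀ A B : Set (Sym2 V₀), #(↥(L '' A \ L '' B)) = Cardinal.lift.{u} #(↥(A \ B)) := by
    intro A B
    rw [← Set.image_sdiff L_inj]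
    have := Cardinal.mk_image_eq_lift L (A \ B) L_inj
    rw [Cardinal.lift_id', Cardinal.lift_umax.{0, u}] at this
    exact this
  refine hG₀ F₀ ⟨?_, ?_, ?_⟩
  · intro e he
    obtain ⟨e', he', h⟩ := hFG (show L e ∈ F from he)
    exact (L_inj h) ▸ he'
  · rw [← hfree, hF₀]
    exact hFH
  · intro I hI hIH
    have h1 := hmax (L '' I) (by rw [hGe]; exact Set.image_mono hI) ((hfree I).2 hIH)
    rw [← hF₀, himg, himg, Cardinal.lift_le] at h1
    exact h1

/-- **Graphs with finitely many edges.** If the edges of `H` (finitely many, but there may be any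
number of isolated vertices) have no common vertex then `H` fails. -/
theorem fails_of_finEdges (hfin : H.edgeSet.Finite)
    (hst : ¬ ∃ z, ∀ a b, H.Adj a b → a = z ∨ b = z) : Fails.{u} H := by
  classical
  have hS : (posDeg H).Finite := by
    have h1 : posDeg H ⊆ ⋃ e ∈ H.edgeSet, {x | x ∈ e} := by
      rintro x ⟨y, hxy⟩
      simp only [Set.mem_iUnion]
      exact ⟨s(x, y), hxy, Sym2.mem_mk_left x y⟩
    refine (Set.Finite.biUnion hfin (fun e _ => ?_)).subset h1
    induction e with
    | _ a b =>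
      refine (Set.toFinite ({a, b} : Set W)).subset ?_
      intro x hx
      have : x ∈ s(a, b) := hx
      rw [Sym2.mem_iff] at this
      exact this
  have : Finite (posDeg H) := hS
  refine Fails.of_posDeg (finite_fails _ ?_)
  rintro ⟨z, hz⟩
  refine hst ⟨z.1, fun a b hab => ?_⟩
  rcases hz ⟨a, b, hab⟩ ⟨b, a, hab.symm⟩ hab with h | h
  · exact Or.inl (congrArg Subtype.val h)
  · exact Or.inr (congrArg Subtype.val h)

/-- Graphs without edges fail: no set is `H`-free in a host with the same vertices. -/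
theorem fails_of_eq_bot (hH : H = ⊥) : Fails.{u} H := by
  refine ⟨W, H, fun F hF => ?_⟩
  have h1 := hFree_iff.1 hF.2.1
  refine h1 id Function.injective_id (fun a b hab => ?_)
  rw [hH] at hab
  exact absurd hab (by simp)

end

end Pool.Agent.StrongMax
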