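import Pool.Agent.Lib.StrongMax.LF2a

/-!
# The vertices of large degree

If the subgraph of `H` induced by the vertices of degree at least `μ` fails (and has an edge) then
`H` fails.
-/

namespace Pool.Agent.StrongMax

open Cardinal

universe u

section Kernel

variable {W : Type u} {H : SimpleGraph W}

/-- The vertices of degree at least `μ`. -/
def bigDeg (H : SimpleGraph W) (μ : Cardinal.{u}) : Set W := {x | μ ≤ #(↥(H.neighborSet x))}

/-- The adjacency relation of a private copy of `H - S`, attached by `ρ : S → V₀`. -/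
def kAdj (H : SimpleGraph W) (S : Set W) {V₀ K : Type u} (k : K) :
    V₀ ⊕ ((S → V₀) × K × W) → V₀ ⊕ ((S → V₀) × K × W) → Prop
  | .inl _, .inl _ => False
  | .inr a, .inr b => a.1 = b.1 ∧ a.2.1 = k ∧ b.2.1 = k ∧ a.2.2 ∉ S ∧ b.2.2 ∉ S ∧ H.Adj a.2.2 b.2.2
  | .inl v, .inr a => a.2.1 = k ∧ a.2.2 ∉ S ∧ ∃ s : S, a.1 s = v ∧ H.Adj a.2.2 s.1
  | .inr a, .inl v => a.2.1 = k ∧ a.2.2 ∉ S ∧ ∃ s : S, a.1 s = v ∧ H.Adj a.2.2 s.1

theorem kAdj_symm (S : Set W) {V₀ K : Type u} (k : K) (v w : V₀ ⊕ ((S → V₀) × K × W))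
    (h : kAdj H S k v w) : kAdj H S k w v := by
  rcases v with v | a <;> rcases w with w | b
  · exact h
  · exact h
  · exact h
  · obtain ⟨h1, h2, h3, h4, h5, h6⟩ := h
    exact ⟨h1.symm, h3, h2, h5, h4, h6.symm⟩

/-- The edge set of the private copies with index `k`. -/
def kEdges (H : SimpleGraph W) (S : Set W) {V₀ K : Type u} (k : K) :
    Set (Sym2 (V₀ ⊕ ((S → V₀) × K × W))) :=
  {e | ∃ v w, e = s(v, w) ∧ kAdj H S k v w}

theorem mem_kEdges (S : Set W) {V₀ K : Type u} (k : K) (v w : V₀ ⊕ ((S → V₀) × K × W)) :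
    s(v, w) ∈ kEdges H S k ↔ kAdj H S k v w := by
  constructor
  · rintro ⟨v', w', h, hk⟩
    rw [Sym2.eq_iff] at h
    rcases h with ⟨rfl, rfl⟩ | ⟨rfl, rfl⟩
    · exact hk
    · exact kAdj_symm S k _ _ hk
  · intro h
    exact ⟨v, w, rfl, h⟩

/-- A private vertex has at most as many neighbours as its original in `H`. -/
theorem kAdj_degree (S : Set W) {V₀ K : Type u} (k : K) (a : (S → V₀) × K × W)
    (v : V₀ ⊕ ((S → V₀) × K × W)) (h : kAdj H S k (.inr a) v) :
    ∃ z, H.Adj a.2.2 z ∧ ((z ∉ S ∧ v = .inr (a.1, a.2.1, z)) ∨ ∃ hz : z ∈ S,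
      v = .inl (a.1 ⟨z, hz⟩)) := by
  rcases v with v | b
  · obtain ⟨-, -, s, hs, has⟩ := h
    exact ⟨s.1, has, Or.inr ⟨s.2, by rw [hs]⟩⟩
  · obtain ⟨h1, h2, h3, -, h5, h6⟩ := h
    refine ⟨b.2.2, h6, Or.inl ⟨h5, ?_⟩⟩
    congr 1
    exact Prod.ext h1.symm (Prod.ext (h3.trans h2.symm) rfl)

/-- **The kernel lemma.** If the subgraph induced by the vertices of degree at least `μ` fails and
has an edge, then `H` fails. -/
theorem Fails.of_bigDeg (μ : Cardinal.{u}) (hμ : μ ≠ 0) (hA : Fails.{u} (H.induce (bigDeg H μ)))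
    (hAe : ∃ a b, (H.induce (bigDeg H μ)).Adj a b) : Fails.{u} H := by
  classical
  refine Fails.of_partsU hA hAe (fun V₀ K => (bigDeg H μ → V₀) × K × W)
    (fun V₀ K k => kEdges H (bigDeg H μ) k) ?_ ?_ ?_ ?_ ?_
  · rintro V₀ K k e ⟨v, w, rfl, h⟩ a ha
    induction a with
    | _ x y =>
      rw [Sym2.map_mk, Sym2.eq_iff] at ha
      rcases ha with ⟨rfl, rfl⟩ | ⟨rfl, rfl⟩
      · exact h
      · exact h
  · rintro V₀ K k e ⟨v, w, rfl, h⟩ hd
    rw [Sym2.mk_isDiag_iff] at hd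
    subst hd
    rcases v with v | a
    · exact h
    · exact H.irrefl h.2.2.2.2.2
  · rintro V₀ K k l e ⟨v, w, rfl, h⟩ h'
    rw [mem_kEdges] at h'
    rcases v with v | a <;> rcases w with w | b
    · exact h.elim
    · exact h.1.symm.trans h'.1
    · exact h.1.symm.trans h'.1
    · exact h.2.1.symm.trans h'.2.1
  · intro V₀ K I₀ hI₀
    rw [hFree_iff] at hI₀ ⊢
    intro φ hφ hφa
    -- vertices of large degree are not mapped to private vertices
    have h1 : ∀ x : bigDeg H μ, ∃ v, φ x.1 = .inl v := by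
      rintro ⟨x, hx⟩
      rcases hx' : φ x with v | a
      · exact ⟨v, rfl⟩
      exfalso
      have hadj : ∀ y, H.Adj x y → kAdj H (bigDeg H μ) a.2.1 (.inr a) (φ y) := by
        intro y hxy
        rcases hφa x y hxy with ⟨e, -, he⟩ | ⟨k, hk⟩
        · exfalso
          induction e with
          | _ p q =>
            rw [Sym2.map_mk, hx', Sym2.eq_iff] at he
            rcases he with ⟨h, -⟩ | ⟨-, h⟩
            · exact absurd h (by simp)
            · exact absurd h (by simp)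
        · rw [mem_kEdges, hx'] at hk
          have : a.2.1 = k := by
            rcases hy : φ y with w | b
            · rw [hy] at hk; exact hk.1
            · rw [hy] at hk; exact hk.2.1
          rw [this]
          exact hk
      obtain ⟨y, hy⟩ : (H.neighborSet x).Nonempty := by
        by_contra hne
        apply hμ
        have h2 : μ ≤ #(↥(H.neighborSet x)) := hx
        have h3 : IsEmpty ↥(H.neighborSet x) := by
          rw [Set.isEmpty_coe_sort]
          exact Set.not_nonempty_iff_eq_empty.1 hne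
        rw [Cardinal.mk_eq_zero_iff.2 h3] at h2
        exact nonpos_iff_eq_zero.1 h2
      have ha : a.2.2 ∉ bigDeg H μ := by
        have := hadj y hy
        rcases hy' : φ y with w | b
        · rw [hy'] at this; exact this.2.1
        · rw [hy'] at this; exact this.2.2.2.1
      have hch : ∀ y : H.neighborSet x, ∃ z, H.Adj a.2.2 z ∧ ((z ∉ bigDeg H μ ∧
          φ y.1 = .inr (a.1, a.2.1, z)) ∨ ∃ hz : z ∈ bigDeg H μ, φ y.1 = .inl (a.1 ⟨z, hz⟩)) :=
        fun y => kAdj_degree (bigDeg H μ) a.2.1 a (φ y.1) (hadj y.1 y.2)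
      choose θ hθ1 hθ2 using hch
      apply ha
      have hx2 : μ ≤ #(↥(H.neighborSet x)) := hx
      refine le_trans hx2 ?_
      refine Cardinal.mk_le_of_injective (f := fun y => ⟨θ y, hθ1 y⟩) ?_
      intro y y' hyy
      have hyy' : θ y = θ y' := congrArg Subtype.val hyy
      apply Subtype.ext
      apply hφ
      rcases hθ2 y with ⟨h2, h3⟩ | ⟨h2, h3⟩ <;> rcases hθ2 y' with ⟨h4, h5⟩ | ⟨h4, h5⟩
      · rw [h3, h5, hyy']
      · exact absurd (hyy' ▸ h4) h2
      · exact absurd (hyy' ▸ h2) h4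
      · have h6 : (⟨θ y, h2⟩ : bigDeg H μ) = ⟨θ y', h4⟩ := Subtype.ext hyy'
        rw [h3, h5, h6]
    choose g hg using h1
    refine hI₀ g ?_ ?_
    · intro x y hxy
      apply Subtype.ext
      apply hφ
      rw [hg x, hg y, hxy]
    · intro x y hxy
      rcases hφa x.1 y.1 hxy with ⟨e, he, hee⟩ | ⟨k, hk⟩
      · rw [hg x, hg y] at hee
        have h2 : Sym2.map (Sum.inl : V₀ → V₀ ⊕ ((bigDeg H μ → V₀) × K × W)) e =
            Sym2.map Sum.inl s(g x, g y) := by rw [hee]; rfl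
        exact (Sym2.map.injective Sum.inl_injective h2) ▸ he
      · rw [hg x, hg y, mem_kEdges] at hk
        exact hk.elim
  · intro V₀ K F₀ Good hGood hF₀
    rw [not_hFree_iff] at hF₀ ⊢
    obtain ⟨f, hf, hfa⟩ := hF₀
    obtain ⟨k, hk⟩ := hGood.nonempty
    have hval : ∀ z, ∃ t : V₀ ⊕ ((bigDeg H μ → V₀) × K × W),
        (∀ hz : z ∈ bigDeg H μ, t = .inl (f ⟨z, hz⟩)) ∧ (z ∉ bigDeg H μ → t = .inr (f, k, z)) := by
      intro z
      by_cases hz : z ∈ bigDeg H μ
      · exact ⟨.inl (f ⟨z, hz⟩), fun _ => rfl, fun h => absurd hz h⟩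
      · exact ⟨.inr (f, k, z), fun h => absurd h hz, fun _ => rfl⟩
    choose ψ hψ1 hψ2 using hval
    refine ⟨ψ, ?_, ?_⟩
    · intro x y hxy
      by_cases hx : x ∈ bigDeg H μ <;> by_cases hy : y ∈ bigDeg H μ
      · rw [hψ1 x hx, hψ1 y hy] at hxy
        exact congrArg Subtype.val (hf (Sum.inl_injective hxy))
      · rw [hψ1 x hx, hψ2 y hy] at hxy
        exact absurd hxy (by simp)
      · rw [hψ2 x hx, hψ1 y hy] at hxy
        exact absurd hxy (by simp)
      · rw [hψ2 x hx, hψ2 y hy] at hxy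
        exact congrArg (fun t => t.2.2) (Sum.inr_injective hxy)
    · intro x y hxy
      by_cases hx : x ∈ bigDeg H μ <;> by_cases hy : y ∈ bigDeg H μ
      · rw [hψ1 x hx, hψ1 y hy]
        exact Or.inl ⟨_, hfa ⟨x, hx⟩ ⟨y, hy⟩ hxy, rfl⟩
      · rw [hψ1 x hx, hψ2 y hy]
        refine Or.inr ⟨k, hk, ?_⟩
        rw [mem_kEdges]
        exact ⟨rfl, hy, ⟨x, hx⟩, rfl, hxy.symm⟩
      · rw [hψ2 x hx, hψ1 y hy]
        refine Or.inr ⟨k, hk, ?_⟩
        rw [mem_kEdges]
        exact ⟨rfl, hx, ⟨y, hy⟩, rfl, hxy⟩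
      · rw [hψ2 x hx, hψ2 y hy]
        refine Or.inr ⟨k, hk, ?_⟩
        rw [mem_kEdges]
        exact ⟨rfl, rfl, rfl, hx, hy, hxy⟩

end Kernel

end Pool.Agent.StrongMax
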