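import Pool.Agent.Lib.StrongMax.LF2a

/-!
# Graphs all of whose components are finite, part 2 (helper42)
-/

namespace Pool.Agent.StrongMax

open Cardinal

universe u

section FinComp

variable {W : Type u} {H : SimpleGraph W}

theorem closed_of_reachable {S : Set W} (hS : ∀ x y, H.Adj x y → x ∈ S → y ∈ S) {x y : W}
    (hx : x ∈ S) (h : y ∈ kcomp H x) : y ∈ S := by
  obtain ⟨p⟩ := h
  induction p with
  | nil => exact hx
  | cons h _ ih => exact ih (hS _ _ h hx)

/-- **Star lemma.** Let `K t` be a finite star component into which every component embeds. If the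
graph without `K t` fails then `H` fails. -/
theorem Fails.of_sfl (hpos : ∀ x, ∃ y, H.Adj x y) (t c : W) (htf : (kcomp H t).Finite)
    (hc : ∀ a ∈ kcomp H t, ∀ b, H.Adj a b → a = c ∨ b = c) (hle : ∀ x, Le H x t)
    (hA : Fails.{u} (H.induce (kcomp H t)ᶜ)) (hAe : ∃ a, a ∉ kcomp H t) : Fails.{u} H := by
  classical
  refine Fails.of_partsU (A := H.induce (kcomp H t)ᶜ) hA ?_ (fun V₀ K => Option K)
    (fun V₀ K k => {s(.inr none, .inr (some k))}) ?_ ?_ ?_ ?_ ?_
  · obtain ⟨a, ha⟩ := hAe
    obtain ⟨b, hab⟩ := hpos a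
    exact ⟨⟨a, ha⟩, ⟨b, fun hb => ha (kcomp_adj hb hab.symm)⟩, hab⟩
  · rintro V₀ K k e he a h
    rw [Set.mem_singleton_iff] at he
    subst he
    induction a with
    | _ x y =>
      rw [Sym2.map_mk, Sym2.eq_iff] at h
      rcases h with ⟨h1, h2⟩ | ⟨h1, h2⟩
      · exact absurd h1 (by simp)
      · exact absurd h1 (by simp)
  · rintro V₀ K k e he h
    rw [Set.mem_singleton_iff] at he
    subst he
    rw [Sym2.mk_isDiag_iff] at h
    simp at h
  · rintro V₀ K k l e he h
    rw [Set.mem_singleton_iff] at he h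
    subst he
    rw [Sym2.eq_iff] at h
    simpa using h
  · intro V₀ K I₀ hI₀
    rw [hFree_iff]
    intro f hf hfa
    have hstar : ∀ a b, H.Adj a b → ∀ o, f a = .inr o → f a = .inr none ∨ f b = .inr none := by
      intro a b hab o ho
      rcases hfa a b hab with ⟨e, he, h⟩ | ⟨k, h⟩
      · exfalso
        induction e with
        | _ y z =>
          rw [Sym2.map_mk, Sym2.eq_iff, ho] at h
          rcases h with ⟨h1, -⟩ | ⟨-, h1⟩
          · exact absurd h1 (by simp)
          · exact absurd h1 (by simp)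
      · rw [Set.mem_singleton_iff, Sym2.eq_iff] at h
        rcases h with ⟨h1, -⟩ | ⟨-, h1⟩
        · exact Or.inl h1
        · exact Or.inr h1
    -- it is enough to find a map of the complement
    have key : ∀ h : W → W, Set.InjOn h (kcomp H t)ᶜ →
        (∀ a ∈ (kcomp H t)ᶜ, ∀ b, H.Adj a b → H.Adj (h a) (h b)) →
        (∀ a ∈ (kcomp H t)ᶜ, ∃ v, f (h a) = .inl v) → False := by
      intro h hh hha hhl
      have hhl' : ∀ a : ((kcomp H t)ᶜ : Set W), ∃ v, f (h a) = .inl v := fun a => hhl a.1 a.2
      choose g hg using hhl'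
      rw [hFree_iff] at hI₀
      refine hI₀ g ?_ ?_
      · intro a b hab
        exact Subtype.ext (hh a.2 b.2 (hf (by rw [hg, hg, hab])))
      · intro a b hab
        have hab' : H.Adj (h a) (h b) := hha a.1 a.2 b.1 hab
        rcases hfa _ _ hab' with ⟨e, he, h⟩ | ⟨k, h⟩
        · rw [hg, hg] at h
          have h1 : e = s(g a, g b) := Sym2.map.injective Sum.inl_injective (by rw [h]; rfl)
          exact h1 ▸ he
        · exfalso
          rw [hg, hg, Set.mem_singleton_iff, Sym2.eq_iff] at h
          rcases h with ⟨h1, -⟩ | ⟨h1, -⟩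
          · exact absurd h1 (by simp)
          · exact absurd h1 (by simp)
    by_cases hw : ∃ w₀, f w₀ = .inr none
    · obtain ⟨w₀, hw₀⟩ := hw
      have hout : ∀ x, x ∉ kcomp H w₀ → ∃ v, f x = .inl v := by
        intro x hx
        rcases hfx : f x with v | o
        · exact ⟨v, rfl⟩
        · exfalso
          obtain ⟨y, hxy⟩ := hpos x
          rcases hstar x y hxy o hfx with h1 | h1
          · have h2 : x = w₀ := hf (h1.trans hw₀.symm)
            exact hx (h2 ▸ mem_kcomp_self x)
          · have h2 : y = w₀ := hf (h1.trans hw₀.symm)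
            exact hx (h2 ▸ hxy.symm.reachable)
      by_cases ht : t ∈ kcomp H w₀
      · refine key id Function.injective_id.injOn (fun _ _ _ h => h) ?_
        intro a ha
        apply hout
        rw [← kcomp_eq ht]
        exact ha
      · obtain ⟨g, hg, hgm, hga⟩ := hle w₀
        have hdisj : ∀ x, x ∈ kcomp H t → x ∉ kcomp H w₀ := by
          intro x hx hx'
          apply ht
          rw [← kcomp_eq hx', kcomp_eq hx]
          exact mem_kcomp_self t
        refine key (fun x => if x ∈ kcomp H w₀ then g x else x) ?_ ?_ ?_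
        · intro a ha b hb hab
          by_cases h1 : a ∈ kcomp H w₀ <;> by_cases h2 : b ∈ kcomp H w₀
          · simp only [if_pos h1, if_pos h2] at hab
            exact hg h1 h2 hab
          · simp only [if_pos h1, if_neg h2] at hab
            exact absurd (hab ▸ hgm h1) hb
          · simp only [if_neg h1, if_pos h2] at hab
            exact absurd (hab.symm ▸ hgm h2) ha
          · simp only [if_neg h1, if_neg h2] at hab
            exact hab
        · intro a ha b hab
          by_cases h1 : a ∈ kcomp H w₀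
          · simp only [if_pos h1, if_pos (kcomp_adj h1 hab)]
            exact hga a h1 b hab
          · have h2 : b ∉ kcomp H w₀ := fun h => h1 (kcomp_adj h hab.symm)
            simp only [if_neg h1, if_neg h2]
            exact hab
        · intro a ha
          by_cases h1 : a ∈ kcomp H w₀
          · simp only [if_pos h1]
            exact hout _ (hdisj _ (hgm h1))
          · simp only [if_neg h1]
            exact hout _ h1
    · push Not at hw
      refine key id Function.injective_id.injOn (fun _ _ _ h => h) ?_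
      intro a ha
      rcases hfx : f a with v | o
      · exact ⟨v, hfx⟩
      · exfalso
        obtain ⟨y, hxy⟩ := hpos a
        rcases hstar a y hxy o hfx with h1 | h1
        · exact hw _ h1
        · exact hw _ h1
  · intro V₀ K F₀ Good hGood hF₀
    rw [not_hFree_iff] at hF₀ ⊢
    obtain ⟨f₀, hf₀, hf₀a⟩ := hF₀
    have : Finite (kcomp H t) := htf
    have : Infinite Good := hGood.to_subtype
    let g : kcomp H t ↪ Good := (Finite.equivFin (kcomp H t)).toEmbedding.trans
      (Fin.valEmbedding.trans (Infinite.natEmbedding Good))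
    refine ⟨fun w => if h : w ∈ kcomp H t then (if w = c then .inr none else .inr (some (g ⟨w, h⟩)))
      else .inl (f₀ ⟨w, h⟩), ?_, ?_⟩
    · intro a b hab
      by_cases ha : a ∈ kcomp H t <;> by_cases hb : b ∈ kcomp H t
      · simp only [dif_pos ha, dif_pos hb] at hab
        by_cases h1 : a = c <;> by_cases h2 : b = c
        · rw [h1, h2]
        · simp [if_pos h1, if_neg h2] at hab
        · simp [if_neg h1, if_pos h2] at hab
        · simp only [if_neg h1, if_neg h2, Sum.inr.injEq, Option.some.injEq] at hab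
          exact congrArg Subtype.val (g.injective (Subtype.ext hab))
      · simp only [dif_pos ha, dif_neg hb] at hab
        split_ifs at hab
      · simp only [dif_neg ha, dif_pos hb] at hab
        split_ifs at hab
      · simp only [dif_neg ha, dif_neg hb, Sum.inl.injEq] at hab
        exact congrArg Subtype.val (hf₀ hab)
    · intro a b hab
      by_cases ha : a ∈ kcomp H t
      · have hb : b ∈ kcomp H t := kcomp_adj ha hab
        right
        rcases hc a ha b hab with h1 | h1
        · have h2 : b ≠ c := fun h => hab.ne (h1.trans h.symm)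
          refine ⟨g ⟨b, hb⟩, (g ⟨b, hb⟩).2, ?_⟩
          simp only [dif_pos ha, dif_pos hb, if_pos h1, if_neg h2, Set.mem_singleton_iff]
        · have h2 : a ≠ c := fun h => hab.ne (h.trans h1.symm)
          refine ⟨g ⟨a, ha⟩, (g ⟨a, ha⟩).2, ?_⟩
          simp only [dif_pos ha, dif_pos hb, if_pos h1, if_neg h2, Set.mem_singleton_iff]
          exact Sym2.eq_swap
      · have hb : b ∉ kcomp H t := fun h => ha (kcomp_adj h hab.symm)
        left
        refine ⟨s(f₀ ⟨a, ha⟩, f₀ ⟨b, hb⟩), hf₀a ⟨a, ha⟩ ⟨b, hb⟩ hab, ?_⟩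
        simp only [dif_neg ha, dif_neg hb]
        rfl

/-- **Shift.** If above every component of `S` there are infinitely many vertices of `S` then the
graph induced by `S` is inessential and fails. -/
theorem inessential_fails (S : Set W) (hS : ∀ x y, H.Adj x y → x ∈ S → y ∈ S)
    (hfin : ∀ x, (kcomp H x).Finite) (hinf : ∀ x ∈ S, {y | y ∈ S ∧ Le H x y}.Infinite) :
    Fails.{u} (H.induce S) := by
  classical
  apply fails_of_inessentialU
  rintro ⟨a, haS⟩ ⟨b, hbS⟩ hab
  let T : Type u := {p : W × Set W // p.1 ∈ S ∧ p.2.Finite}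
  have step : ∀ p : T, ∃ q : T, Le H p.1.1 q.1.1 ∧ (∀ u ∈ p.1.2, u ∉ kcomp H q.1.1) ∧
      q.1.2 = p.1.2 ∪ kcomp H q.1.1 := by
    rintro ⟨⟨x, U⟩, hx, hU⟩
    have h1 : (⋃ u ∈ U, kcomp H u).Finite := hU.biUnion (fun u _ => hfin u)
    obtain ⟨y, ⟨hyS, hxy⟩, hy⟩ := ((hinf x hx).sdiff h1).nonempty
    refine ⟨⟨⟨y, U ∪ kcomp H y⟩, hyS, hU.union (hfin y)⟩, hxy, ?_, rfl⟩
    intro u hu huy
    apply hy
    simp only [Set.mem_iUnion]
    exact ⟨u, hu, mem_kcomp_symm huy⟩
  choose next hn1 hn2 hn3 using step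
  let s : ℕ → T := fun n => Nat.rec ⟨⟨a, kcomp H a⟩, haS, hfin a⟩ (fun _ p => next p) n
  have hs : ∀ n, s (n + 1) = next (s n) := fun n => rfl
  let X : ℕ → W := fun n => (s n).1.1
  let U : ℕ → Set W := fun n => (s n).1.2
  have hX0 : X 0 = a := rfl
  have hXS : ∀ n, X n ∈ S := fun n => (s n).2.1
  have hle : ∀ n, Le H (X n) (X (n + 1)) := fun n => hn1 (s n)
  have hU : ∀ n, U (n + 1) = U n ∪ kcomp H (X (n + 1)) := fun n => hn3 (s n)
  have hXU : ∀ n, kcomp H (X n) ⊆ U n := by
    intro n
    cases n with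
    | zero => exact subset_rfl
    | succ n => rw [hU]; exact Set.subset_union_right
  have hUm : Monotone U := monotone_nat_of_le_succ (fun n => by rw [hU]; exact Set.subset_union_left)
  have hlt : ∀ m n, m < n → ∀ w, w ∈ kcomp H (X m) → w ∉ kcomp H (X n) := by
    intro m n hmn w hw
    obtain ⟨n, rfl⟩ : ∃ n', n = n' + 1 := ⟨n - 1, by omega⟩
    exact hn2 (s n) w (hUm (by omega : m ≤ n) (hXU m hw))
  have huniq : ∀ m n w, w ∈ kcomp H (X m) → w ∈ kcomp H (X n) → m = n := by
    intro m n w hm hn
    rcases lt_trichotomy m n with h | h | h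
    · exact absurd hn (hlt m n h w hm)
    · exact h
    · exact absurd hm (hlt n m h w hn)
  choose g hg hgm hga using hle
  let f : W → W := fun w => if h : ∃ n, w ∈ kcomp H (X n) then g h.choose w else w
  have hf1 : ∀ n w, w ∈ kcomp H (X n) → f w = g n w := by
    intro n w hw
    have h : ∃ n, w ∈ kcomp H (X n) := ⟨n, hw⟩
    show (if h : ∃ n, w ∈ kcomp H (X n) then g h.choose w else w) = g n w
    rw [dif_pos h, huniq _ _ w h.choose_spec hw]
  have hf2 : ∀ w, (¬ ∃ n, w ∈ kcomp H (X n)) → f w = w := by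
    intro w h
    show (if h : ∃ n, w ∈ kcomp H (X n) then g h.choose w else w) = w
    rw [dif_neg h]
  have hfS : ∀ w ∈ S, f w ∈ S := by
    intro w hw
    by_cases h : ∃ n, w ∈ kcomp H (X n)
    · obtain ⟨n, hn⟩ := h
      rw [hf1 n w hn]
      exact closed_of_reachable hS (hXS (n + 1)) (hgm n hn)
    · rw [hf2 w h]; exact hw
  have hfa : ∀ w, f w ∉ kcomp H a := by
    intro w
    by_cases h : ∃ n, w ∈ kcomp H (X n)
    · obtain ⟨n, hn⟩ := h
      rw [hf1 n w hn]
      intro h0
      exact hlt 0 (n + 1) (by omega) _ h0 (hgm n hn)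
    · rw [hf2 w h]
      exact fun h0 => h ⟨0, h0⟩
  refine ⟨fun w => ⟨f w.1, hfS w.1 w.2⟩, ?_, ?_⟩
  · rintro ⟨x, hx⟩ ⟨y, hy⟩ hxy
    have hxy' : f x = f y := congrArg Subtype.val hxy
    apply Subtype.ext
    show x = y
    by_cases h : ∃ n, x ∈ kcomp H (X n) <;> by_cases h' : ∃ n, y ∈ kcomp H (X n)
    · obtain ⟨m, hm⟩ := h
      obtain ⟨n, hn⟩ := h'
      rw [hf1 m x hm, hf1 n y hn] at hxy'
      have h1 : m + 1 = n + 1 := huniq _ _ _ (hgm m hm) (hxy' ▸ hgm n hn)
      obtain rfl : m = n := by omega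
      exact hg m hm hn hxy'
    · obtain ⟨m, hm⟩ := h
      rw [hf1 m x hm, hf2 y h'] at hxy'
      exact absurd ⟨m + 1, hxy' ▸ hgm m hm⟩ h'
    · obtain ⟨n, hn⟩ := h'
      rw [hf2 x h, hf1 n y hn] at hxy'
      exact absurd ⟨n + 1, hxy'.symm ▸ hgm n hn⟩ h
    · rw [hf2 x h, hf2 y h'] at hxy'
      exact hxy'
  · rintro ⟨x, hx⟩ ⟨y, hy⟩ hxy
    have hxy0 : H.Adj x y := hxy
    constructor
    · show H.Adj (f x) (f y)
      by_cases h : ∃ n, x ∈ kcomp H (X n)
      · obtain ⟨m, hm⟩ := h
        rw [hf1 m x hm, hf1 m y (kcomp_adj hm hxy0)]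
        exact hga m x hm y hxy0
      · have h' : ¬ ∃ n, y ∈ kcomp H (X n) := fun ⟨n, hn⟩ => h ⟨n, kcomp_adj hn hxy0.symm⟩
        rw [hf2 x h, hf2 y h']
        exact hxy0
    · intro h
      rw [Sym2.eq_iff] at h
      rcases h with ⟨h1, -⟩ | ⟨-, h1⟩
      · have h2 : f x = a := congrArg Subtype.val h1
        exact hfa x (h2.symm ▸ mem_kcomp_self a)
      · have h2 : f y = a := congrArg Subtype.val h1
        exact hfa y (h2.symm ▸ mem_kcomp_self a)

/-- Finite stars are comparable. -/
theorem star_le (hpos : ∀ x, ∃ y, H.Adj x y) {y y' c c' : W} (hf : (kcomp H y).Finite)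
    (hf' : (kcomp H y').Finite) (hc : ∀ a ∈ kcomp H y, ∀ b, H.Adj a b → a = c ∨ b = c)
    (hc' : ∀ a ∈ kcomp H y', ∀ b, H.Adj a b → a = c' ∨ b = c')
    (hcard : (kcomp H y).ncard ≤ (kcomp H y').ncard) : Le H y y' := by
  classical
  have hcen : ∀ {z d : W}, (∀ a ∈ kcomp H z, ∀ b, H.Adj a b → a = d ∨ b = d) → d ∈ kcomp H z := by
    intro z d hd
    obtain ⟨w, hw⟩ := hpos z
    rcases hd z (mem_kcomp_self z) w hw with h | h
    · exact h ▸ mem_kcomp_self z
    · exact h ▸ hw.reachable
  have hcm := hcen hc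
  have hcm' := hcen hc'
  have hleaf : ∀ a ∈ kcomp H y', a ≠ c' → H.Adj c' a := by
    intro a ha hac
    obtain ⟨b, hab⟩ := hpos a
    rcases hc' a ha b hab with h | h
    · exact absurd h hac
    · exact h ▸ hab.symm
  have h1 : (kcomp H y \ {c}).ncard ≤ (kcomp H y' \ {c'}).ncard := by
    rw [Set.ncard_sdiff_singleton_of_mem hcm, Set.ncard_sdiff_singleton_of_mem hcm']
    omega
  have : Fintype ↥(kcomp H y \ {c}) := (hf.sdiff).fintype
  have : Fintype ↥(kcomp H y' \ {c'}) := (hf'.sdiff).fintype
  obtain ⟨g⟩ : Nonempty (↥(kcomp H y \ {c}) ↪ ↥(kcomp H y' \ {c'})) := by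
    apply Function.Embedding.nonempty_of_card_le
    rw [Set.ncard_eq_toFinset_card', Set.ncard_eq_toFinset_card'] at h1
    simpa using h1
  refine ⟨fun w => if h : w ∈ kcomp H y \ {c} then g ⟨w, h⟩ else c', ?_, ?_, ?_⟩
  · intro a ha b hb hab
    by_cases h1 : a = c <;> by_cases h2 : b = c
    · rw [h1, h2]
    · have hb' : b ∈ kcomp H y \ {c} := ⟨hb, h2⟩
      have ha' : a ∉ kcomp H y \ {c} := fun h => h.2 h1
      simp only [dif_neg ha', dif_pos hb'] at hab
      exact absurd hab.symm (g ⟨b, hb'⟩).2.2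
    · have ha' : a ∈ kcomp H y \ {c} := ⟨ha, h1⟩
      have hb' : b ∉ kcomp H y \ {c} := fun h => h.2 h2
      simp only [dif_pos ha', dif_neg hb'] at hab
      exact absurd hab (g ⟨a, ha'⟩).2.2
    · have ha' : a ∈ kcomp H y \ {c} := ⟨ha, h1⟩
      have hb' : b ∈ kcomp H y \ {c} := ⟨hb, h2⟩
      simp only [dif_pos ha', dif_pos hb'] at hab
      exact congrArg Subtype.val (g.injective (Subtype.ext hab))
  · intro a ha
    by_cases h1 : a ∈ kcomp H y \ {c}
    · simp only [dif_pos h1]
      exact (g ⟨a, h1⟩).2.1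
    · simp only [dif_neg h1]
      exact hcm'
  · intro a ha b hab
    have hb := kcomp_adj ha hab
    rcases hc a ha b hab with h | h
    · have ha' : a ∉ kcomp H y \ {c} := fun h' => h'.2 h
      have hb' : b ∈ kcomp H y \ {c} := ⟨hb, fun h' => hab.ne (h.trans h'.symm)⟩
      simp only [dif_neg ha', dif_pos hb']
      exact hleaf _ (g ⟨b, hb'⟩).2.1 (g ⟨b, hb'⟩).2.2
    · have hb' : b ∉ kcomp H y \ {c} := fun h' => h'.2 h
      have ha' : a ∈ kcomp H y \ {c} := ⟨ha, fun h' => hab.ne (h'.trans h.symm)⟩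
      simp only [dif_neg hb', dif_pos ha']
      exact (hleaf _ (g ⟨a, ha'⟩).2.1 (g ⟨a, ha'⟩).2.2).symm

/-- An upward closed union of components which fails makes `H` fail. -/
theorem Fails.of_upward (hpos : ∀ x, ∃ y, H.Adj x y) (S : Set W) (hne : S.Nonempty)
    (hup : ∀ x ∈ S, ∀ y, Le H x y → y ∈ S) (hA : Fails.{u} (H.induce S)) : Fails.{u} H := by
  have hS : ∀ x y, H.Adj x y → x ∈ S → y ∈ S :=
    fun x y hxy hx => hup x hx y (Le.of_mem hxy.reachable)
  refine Fails.of_rdl S hS (fun x _ => hpos x) hA hne ?_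
  rintro x hx ⟨f, hf, hfm, hfa⟩
  exact hfm (mem_kcomp_self x) (hup x hx _ (Le.of_map hf hfa))

theorem fails_finComps_core (hpos : ∀ x, ∃ y, H.Adj x y) (hfin : ∀ x, (kcomp H x).Finite)
    (hinf : Infinite W) : Fails.{u} H := by
  classical
  by_cases hU : ∃ x, ∀ y, Le H x y → {z | Le H y z}.Infinite
  · -- Case U
    obtain ⟨x, hx⟩ := hU
    let S : Set W := {x | ∀ y, Le H x y → {z | Le H y z}.Infinite}
    have hup : ∀ x ∈ S, ∀ y, Le H x y → y ∈ S :=
      fun x hx y hxy z hyz => hx z (hxy.trans hyz)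
    refine Fails.of_upward hpos S ⟨x, hx⟩ hup (inessential_fails S ?_ hfin ?_)
    · exact fun x y hxy hx => hup x hx y (Le.of_mem hxy.reachable)
    · intro x hx
      refine (hx x (Le.refl x)).mono ?_
      intro z hz
      exact ⟨hup x hx z hz, hz⟩
  · -- Case N
    push Not at hU
    by_cases hN1 : ∃ y, {z | Le H y z}.Finite ∧
        ¬ ∃ c, ∀ a ∈ {z | Le H y z}, ∀ b, H.Adj a b → a = c ∨ b = c
    · obtain ⟨y, hy, hyc⟩ := hN1
      refine Fails.of_upward hpos {z | Le H y z} ⟨y, Le.refl y⟩ (fun x hx z hz => hx.trans hz) ?_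
      apply fails_of_finEdges
      · have : Finite {z | Le H y z} := hy
        exact Set.toFinite _
      · rintro ⟨c, hc⟩
        apply hyc
        refine ⟨c.1, ?_⟩
        intro a ha b hab
        have hb : b ∈ {z | Le H y z} := Le.trans ha (Le.of_mem hab.reachable)
        rcases hc ⟨a, ha⟩ ⟨b, hb⟩ hab with h | h
        · exact Or.inl (congrArg Subtype.val h)
        · exact Or.inr (congrArg Subtype.val h)
    · push Not at hN1
      -- finite upward sets are single stars
      have hstar : ∀ y, {z | Le H y z}.Finite → {z | Le H y z} = kcomp H y := by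
        intro y hy
        obtain ⟨c, hc⟩ := hN1 y hy
        have hr : ∀ z, Le H y z → c ∈ kcomp H z := by
          intro z hz
          obtain ⟨w, hw⟩ := hpos z
          rcases hc z hz w hw with h | h
          · exact h ▸ mem_kcomp_self z
          · exact h ▸ hw.reachable
        ext z
        constructor
        · intro hz
          have h1 := hr z hz
          have h2 := hr y (Le.refl y)
          rw [← kcomp_eq h2, kcomp_eq h1]
          exact mem_kcomp_self z
        · intro hz
          exact Le.of_mem hz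
      have huniq : ∀ y y', {z | Le H y z}.Finite → {z | Le H y' z}.Finite → y' ∈ kcomp H y := by
        intro y y' hy hy'
        obtain ⟨c, hc⟩ := hN1 y hy
        obtain ⟨c', hc'⟩ := hN1 y' hy'
        rw [hstar y hy] at hc
        rw [hstar y' hy'] at hc'
        rcases le_total (kcomp H y).ncard (kcomp H y').ncard with h | h
        · have h1 : Le H y y' := star_le hpos (hfin y) (hfin y') hc hc' h
          rw [← hstar y hy]
          exact h1
        · have h1 : Le H y' y := star_le hpos (hfin y') (hfin y) hc' hc h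
          apply mem_kcomp_symm
          rw [← hstar y' hy']
          exact h1
      obtain ⟨x₁⟩ : Nonempty W := inferInstance
      obtain ⟨t, -, ht⟩ := hU x₁
      obtain ⟨c, hc⟩ := hN1 t ht
      rw [hstar t ht] at hc
      refine Fails.of_sfl hpos t c (hfin t) hc ?_ (inessential_fails _ ?_ hfin ?_) ?_
      · intro x
        obtain ⟨y, hxy, hy⟩ := hU x
        exact hxy.trans (Le.of_mem (huniq y t hy ht))
      · intro x y hxy hx hy
        exact hx (kcomp_adj hy hxy.symm)
      · intro x hx
        have h1 : {z | Le H x z}.Infinite := by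
          intro hxf
          exact hx (huniq t x ht hxf)
        refine (h1.sdiff (hfin t)).mono ?_
        rintro z ⟨hz, hzt⟩
        exact ⟨hzt, hz⟩
      · by_contra hcon
        push Not at hcon
        have h1 : kcomp H t = Set.univ := Set.eq_univ_of_forall hcon
        have h2 := hfin t
        rw [h1] at h2
        exact Set.infinite_univ h2

/-- **All components finite.** If all components of `H` are finite and `H` has infinitely many
edges then `H` fails. -/
theorem fails_of_finComps (hfin : ∀ x, {y | H.Reachable x y}.Finite) (hinf : ¬ H.edgeSet.Finite) :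
    Fails.{u} H := by
  classical
  apply Fails.of_posDegU
  apply fails_finComps_core
  · rintro ⟨x, y, hxy⟩
    exact ⟨⟨y, x, hxy.symm⟩, hxy⟩
  · intro x
    have h1 : (Subtype.val '' kcomp (H.induce (posDeg H)) x).Finite := by
      refine (hfin x.1).subset ?_
      rintro _ ⟨y, hy, rfl⟩
      have hy' : (H.induce (posDeg H)).Reachable x y := hy
      exact hy'.map (SimpleGraph.Embedding.induce (posDeg H)).toHom
    exact Set.Finite.of_finite_image h1 Subtype.val_injective.injOn
  · by_contra hcon
    rw [not_infinite_iff_finite] at hcon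
    apply hinf
    have h2 : (posDeg H).Finite := hcon
    have h3 : ((posDeg H) ×ˢ (posDeg H)).Finite := h2.prod h2
    refine (h3.image (fun p => s(p.1, p.2))).subset ?_
    intro e he
    induction e with
    | _ a b =>
      have hab : H.Adj a b := he
      exact ⟨(a, b), ⟨⟨b, hab⟩, ⟨a, hab.symm⟩⟩, rfl⟩

end FinComp

end Pool.Agent.StrongMax
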