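import Pool.Agent.Lib.StrongMax.LocFin1
import Pool.Agent.Lib.StrongMax.LF2

/-!
# All locally finite graphs with infinitely many edges fail
-/

namespace Pool.Agent.StrongMax

open Cardinal

universe u

section LocFin

variable {W : Type u} {H : SimpleGraph W}

/-- **König's lemma.** A locally finite graph with an infinite component contains a ray. -/
theorem exists_ray (hlf : ∀ x, (H.neighborSet x).Finite) (x : W)
    (hinf : {y | H.Reachable x y}.Infinite) :
    ∃ r : ℕ → W, Function.Injective r ∧ ∀ n, H.Adj (r n) (r (n + 1)) := by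
  classical
  let S : W → ℕ → Prop := fun y n => H.Reachable x y ∧ H.dist x y = n ∧
    {z | H.Reachable x z ∧ H.dist x z = n + H.dist y z}.Infinite
  have h0 : S x 0 := by
    refine ⟨SimpleGraph.Reachable.refl x, SimpleGraph.dist_self, ?_⟩
    refine hinf.mono ?_
    intro z hz
    exact ⟨hz, by simp⟩
  have hstep : ∀ y n, S y n → ∃ y', H.Adj y y' ∧ S y' (n + 1) := by
    rintro y n ⟨hy, hyn, hyinf⟩
    by_contra hcon
    push Not at hcon
    apply hyinf
    have hsub : {z | H.Reachable x z ∧ H.dist x z = n + H.dist y z} ⊆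
        {y} ∪ ⋃ y' ∈ H.neighborSet y ∩ {y' | H.dist x y' = n + 1},
          {z | H.Reachable x z ∧ H.dist x z = (n + 1) + H.dist y' z} := by
      rintro z ⟨hz, hzd⟩
      by_cases hzy : z = y
      · exact Or.inl hzy
      right
      have hyz : H.Reachable y z := hy.symm.trans hz
      obtain ⟨p, hp⟩ := hyz.exists_walk_length_eq_dist
      cases p with
      | nil => exact absurd rfl hzy
      | @cons _ y' _ h p =>
        simp only [SimpleGraph.Walk.length_cons] at hp
        have h1 : H.dist y' z ≤ p.length := SimpleGraph.dist_le p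
        have hxy' : H.Reachable x y' := hy.trans h.reachable
        obtain ⟨q, hq⟩ := hxy'.exists_walk_length_eq_dist
        obtain ⟨q', hq'⟩ := (hxy'.symm.trans hz).exists_walk_length_eq_dist
        have h2 := SimpleGraph.dist_le (q.append q')
        rw [SimpleGraph.Walk.length_append, hq, hq'] at h2
        obtain ⟨q0, hq0⟩ := hy.exists_walk_length_eq_dist
        have h3 := SimpleGraph.dist_le (q0.concat h)
        rw [SimpleGraph.Walk.length_concat, hq0] at h3
        simp only [Set.mem_iUnion]
        refine ⟨y', ⟨h, ?_⟩, hz, ?_⟩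
        · show H.dist x y' = n + 1
          omega
        · omega
    refine Set.Finite.subset ((Set.finite_singleton y).union (Set.Finite.biUnion
      ((hlf y).inter_of_left _) ?_)) hsub
    rintro y' ⟨hyy', hy'n⟩
    by_contra hinf'
    exact hcon y' hyy' ⟨hy.trans (SimpleGraph.Adj.reachable hyy'), hy'n, hinf'⟩
  let State : Type u := {p : W × ℕ // S p.1 p.2}
  have hnext : ∀ s : State, ∃ t : State, H.Adj s.1.1 t.1.1 ∧ t.1.2 = s.1.2 + 1 := by
    rintro ⟨⟨y, n⟩, hs⟩
    obtain ⟨y', hyy', hs'⟩ := hstep y n hs
    exact ⟨⟨(y', n + 1), hs'⟩, hyy', rfl⟩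
  choose next hnext1 hnext2 using hnext
  let s : ℕ → State := fun n => next^[n] ⟨(x, 0), h0⟩
  have hs : ∀ n, s (n + 1) = next (s n) := fun n => Function.iterate_succ_apply' next n _
  have hlev : ∀ n, (s n).1.2 = n := by
    intro n
    induction n with
    | zero => rfl
    | succ n ih => rw [hs, hnext2, ih]
  refine ⟨fun n => (s n).1.1, ?_, ?_⟩
  · intro m n hmn
    have h1 := (s m).2.2.1
    have h2 := (s n).2.2.1
    rw [hlev] at h1 h2
    have hmn' : (s m).1.1 = (s n).1.1 := hmn
    rw [hmn', h2] at h1
    exact h1.symm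
  · intro n
    show H.Adj (s n).1.1 (s (n + 1)).1.1
    rw [hs]
    exact hnext1 (s n)

/-- **Locally finite graphs.** A locally finite graph with infinitely many edges fails. -/
theorem fails_of_locFin (hlf : ∀ x, (H.neighborSet x).Finite) (hinf : ¬ H.edgeSet.Finite) :
    Fails.{u} H := by
  by_cases hfin : ∀ x, {y | H.Reachable x y}.Finite
  · exact fails_of_finComps hfin hinf
  · push Not at hfin
    obtain ⟨x, hx⟩ := hfin
    obtain ⟨r, hr, hadj⟩ := exists_ray hlf x hx
    exact fails_of_locFin_ray hlf (fun h => h r hr hadj (fun _ => Set.mem_univ _))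

end LocFin

end Pool.Agent.StrongMax
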