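import Pool.Agent.Lib.StrongMax.Basic42

/-!
# Stars: the reduction to matchings (helper9)

If every graph has a strongly maximal matching, then for a finite graph `H` with at least one edge
all of whose edges have a common vertex, every graph has a strongly maximal `H`-free edge set.
-/

namespace Pool.Agent.StrongMax

open Cardinal

universe u v

/-! ### Finite hosts -/

/-- Finite hosts have strongly maximal `H`-free edge sets if `H` has an edge. -/
theorem finite_host {W : Type v} {H : SimpleGraph W} (he : ∃ a b, H.Adj a b) {V : Type u} [Finite V]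
    (G : SimpleGraph V) : ∃ F, StronglyMaximal H G F := by
  classical
  have hfin : Finite (Set (Sym2 V)) := by infer_instance
  obtain ⟨F, hF, hmax⟩ := Set.exists_max_image {F : Set (Sym2 V) | F ⊆ G.edgeSet ∧ HFree H F}
    Set.ncard (Set.toFinite _) ⟨∅, Set.empty_subset _, by
      rw [hFree_iff]
      intro f _ h
      obtain ⟨a, b, hab⟩ := he
      exact h a b hab⟩
  refine ⟨F, hF.1, hF.2, fun I hI hIH => ?_⟩
  have h1 := hmax I ⟨hI, hIH⟩
  have h2 : (I \ F).ncard ≤ (F \ I).ncard := by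
    have h3 := Set.ncard_inter_add_ncard_sdiff_eq_ncard I F (Set.toFinite _)
    have h4 := Set.ncard_inter_add_ncard_sdiff_eq_ncard F I (Set.toFinite _)
    rw [Set.inter_comm] at h4
    omega
  have h5 : Nat.card ↥(I \ F) ≤ Nat.card ↥(F \ I) := h2
  rw [← Nat.cast_card, ← Nat.cast_card]
  exact_mod_cast h5

/-! ### Matchings -/

theorem p3_free_iff {V : Type u} {F : Set (Sym2 V)} :
    HFree (SimpleGraph.pathGraph 3) F ↔
      ∀ x a b, x ≠ a → x ≠ b → s(x, a) ∈ F → s(x, b) ∈ F → a = b := by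
  rw [hFree_iff]
  constructor
  · intro h x a b hxa hxb ha hb
    by_contra hab
    refine h ![a, x, b] ?_ ?_
    · intro i j hij
      fin_cases i <;> fin_cases j <;> simp_all
    · intro i j hij
      rw [SimpleGraph.pathGraph_adj] at hij
      fin_cases i <;> fin_cases j <;> simp_all [Sym2.eq_swap]
  · intro h f hf hfa
    have h1 : (SimpleGraph.pathGraph 3).Adj 1 0 := by rw [SimpleGraph.pathGraph_adj]; simp
    have h2 : (SimpleGraph.pathGraph 3).Adj 1 2 := by rw [SimpleGraph.pathGraph_adj]; simp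
    have h3 := h (f 1) (f 0) (f 2) (fun h => by simpa using hf h) (fun h => by simpa using hf h)
      (hfa 1 0 h1) (hfa 1 2 h2)
    simpa using hf h3

/-! ### Degrees -/

/-- The edges of `F` at `x`. -/
def inc {V : Type u} (F : Set (Sym2 V)) (x : V) : Set (Sym2 V) := {e | e ∈ F ∧ x ∈ e}

/-- `F` has all degrees at most `b`. -/
def IsBM {V : Type u} (b : ℕ) (F : Set (Sym2 V)) : Prop := ∀ x, (inc F x).encard ≤ b

theorem star_free_of_bm {W : Type v} {H : SimpleGraph W} {z : W} (hN : (H.neighborSet z).Finite)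
    {V : Type u} {b : ℕ} (hdeg : b < (H.neighborSet z).ncard) {F : Set (Sym2 V)} (hF : IsBM b F) :
    HFree H F := by
  rw [hFree_iff]
  intro f hf hfa
  have h1 : (fun w => s(f z, f w)) '' (H.neighborSet z) ⊆ inc F (f z) := by
    rintro _ ⟨w, hw, rfl⟩
    exact ⟨hfa z w hw, Sym2.mem_mk_left _ _⟩
  have hinj : Set.InjOn (fun w => s(f z, f w)) (H.neighborSet z) := by
    intro w _ w' _ h
    exact hf (Sym2.congr_right.1 h)
  have h2 := (Set.encard_le_encard h1).trans (hF (f z))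
  rw [hinj.encard_image, ← hN.cast_ncard_eq] at h2
  have h3 : (H.neighborSet z).ncard ≤ b := by exact_mod_cast h2
  omega

/-- Extending a finite injection. -/
theorem exists_inj_extend {W V : Type u} [Infinite V] (φ : W ↪ V) {S : Set W} (hS : S.Finite)
    {g : W → V} (hg : Set.InjOn g S) : ∃ f : W → V, Function.Injective f ∧ ∀ x ∈ S, f x = g x := by
  classical
  have h1 : #(↥Sᶜ) ≤ #(↥(g '' S)ᶜ) := by
    have h2 : #(↥(g '' S)ᶜ) = #V := by
      refine Cardinal.mk_compl_of_infinite _ ?_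
      exact lt_of_lt_of_le (Cardinal.lt_aleph0_iff_set_finite.2 (hS.image g))
        (Cardinal.infinite_iff.1 inferInstance)
    rw [h2]
    exact (Cardinal.mk_set_le _).trans ⟨φ⟩
  obtain ⟨ψ⟩ := h1
  refine ⟨fun x => if hx : x ∈ S then g x else (ψ ⟨x, hx⟩).1, ?_, fun x hx => dif_pos hx⟩
  intro x y hxy
  by_cases hx : x ∈ S <;> by_cases hy : y ∈ S
  · simp only [dif_pos hx, dif_pos hy] at hxy
    exact hg hx hy hxy
  · simp only [dif_pos hx, dif_neg hy] at hxy
    exact absurd ⟨x, hx, hxy⟩ (ψ ⟨y, hy⟩).2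
  · simp only [dif_neg hx, dif_pos hy] at hxy
    exact absurd ⟨y, hy, hxy.symm⟩ (ψ ⟨x, hx⟩).2
  · simp only [dif_neg hx, dif_neg hy] at hxy
    exact congrArg Subtype.val (ψ.injective (Subtype.ext hxy))

theorem bm_of_star_free {W : Type u} {H : SimpleGraph W} {z : W} (hN : (H.neighborSet z).Finite)
    (hz : ∀ a b, H.Adj a b → a = z ∨ b = z) {V : Type u} [Infinite V] (φ : W ↪ V) {b : ℕ}
    (hdeg : (H.neighborSet z).ncard ≤ b + 1) {F : Set (Sym2 V)} (hFd : ∀ e ∈ F, ¬ e.IsDiag)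
    (hF : HFree H F) : IsBM b F := by
  classical
  intro x
  by_contra hcon
  push Not at hcon
  have h1 : ((b + 1 : ℕ) : ℕ∞) ≤ (inc F x).encard := by
    have := Order.add_one_le_of_lt hcon
    exact_mod_cast this
  -- the neighbours
  let A : Set V := {a | a ≠ x ∧ s(x, a) ∈ F}
  have h2 : inc F x = (fun a => s(x, a)) '' A := by
    ext e
    constructor
    · rintro ⟨he, hxe⟩
      obtain ⟨a, rfl⟩ := hxe
      refine ⟨a, ⟨fun h => hFd _ he (by rw [h]; exact Sym2.mk_isDiag_iff.2 rfl), he⟩, rfl⟩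
    · rintro ⟨a, ⟨-, ha⟩, rfl⟩
      exact ⟨ha, Sym2.mem_mk_left _ _⟩
  have hinj : Set.InjOn (fun a => s(x, a)) A := fun a _ a' _ h => Sym2.congr_right.1 h
  rw [h2, hinj.encard_image] at h1
  have hX : (H.neighborSet z).encard ≤ A.encard := by
    refine le_trans ?_ h1
    rw [← hN.cast_ncard_eq]
    exact_mod_cast hdeg
  obtain ⟨g, hgA, hg⟩ := hN.exists_injOn_of_encard_le hX
  have hgx : ∀ w ∈ H.neighborSet z, g w ≠ x := fun w hw => (hgA hw).1
  have hnz : ∀ w ∈ H.neighborSet z, w ≠ z := fun w hw => hw.ne.symm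
  have hinj' : Set.InjOn (Function.update g z x) (insert z (H.neighborSet z)) := by
    rintro w (rfl | hw) w' (rfl | hw') h
    · rfl
    · rw [Function.update_self, Function.update_of_ne (hnz w' hw')] at h
      exact absurd h.symm (hgx w' hw')
    · rw [Function.update_self, Function.update_of_ne (hnz w hw)] at h
      exact absurd h (hgx w hw)
    · rw [Function.update_of_ne (hnz w hw), Function.update_of_ne (hnz w' hw')] at h
      exact hg hw hw' h
  obtain ⟨f, hf, hfS⟩ := exists_inj_extend φ (hN.insert z) hinj'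
  have hfz : f z = x := by
    rw [hfS z (Set.mem_insert _ _), Function.update_self]
  have hfN : ∀ w, H.Adj z w → s(x, f w) ∈ F := by
    intro w hw
    rw [hfS w (Set.mem_insert_of_mem _ hw), Function.update_of_ne (hnz w hw)]
    exact (hgA hw).2
  rw [hFree_iff] at hF
  refine hF f hf ?_
  intro w w' hww
  rcases hz w w' hww with rfl | rfl
  · rw [hfz]
    exact hfN w' hww
  · rw [hfz, Sym2.eq_swap]
    exact hfN w hww.symm

/-! ### The gadget -/

section Gadget

variable {V : Type u} (G : SimpleGraph V) (b : ℕ)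

/-- The middle edge of the gadget of `e`. -/
def midE (e : Sym2 V) : Sym2 ((V × Fin b) ⊕ (Sym2 V × V)) := Sym2.map (fun x => .inr (e, x)) e

/-- The outer edges of the gadget of `e`. -/
def outE (e : Sym2 V) (x : V) (i : Fin b) : Sym2 ((V × Fin b) ⊕ (Sym2 V × V)) :=
  s(.inl (x, i), .inr (e, x))

/-- The graph whose matchings correspond to the subgraphs of maximum degree at most `b`. -/
def gad : SimpleGraph ((V × Fin b) ⊕ (Sym2 V × V)) :=
  SimpleGraph.fromEdgeSet {t | (∃ e ∈ G.edgeSet, t = midE b e) ∨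
    ∃ e ∈ G.edgeSet, ∃ x ∈ e, ∃ i, t = outE b e x i}

variable {G b}

theorem midE_inj {e e' : Sym2 V} (h : midE b e = midE b e') : e = e' := by
  induction e with
  | _ x y =>
    induction e' with
    | _ x' y' =>
      rw [midE, midE, Sym2.map_mk, Sym2.map_mk, Sym2.eq_iff] at h
      rcases h with ⟨h, -⟩ | ⟨h, -⟩
      · exact congrArg Prod.fst (Sum.inr_injective h)
      · exact congrArg Prod.fst (Sum.inr_injective h)

theorem midE_ne_outE {e e' : Sym2 V} {x : V} {i : Fin b} : midE b e ≠ outE b e' x i := by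
  intro h
  induction e with
  | _ y z =>
    rw [midE, outE, Sym2.map_mk, Sym2.eq_iff] at h
    rcases h with ⟨h, -⟩ | ⟨-, h⟩ <;> exact Sum.inr_ne_inl h

theorem outE_inj {e e' : Sym2 V} {x x' : V} {i i' : Fin b} (h : outE b e x i = outE b e' x' i') :
    e = e' ∧ x = x' ∧ i = i' := by
  rw [outE, outE, Sym2.eq_iff] at h
  rcases h with ⟨h1, h2⟩ | ⟨h1, -⟩
  · have h3 := Sum.inl_injective h1
    have h4 := Sum.inr_injective h2
    simp only [Prod.mk.injEq] at h3 h4
    exact ⟨h4.1, h3.1, h3.2⟩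
  · exact absurd h1 Sum.inl_ne_inr

theorem mem_midE {e : Sym2 V} {t : (V × Fin b) ⊕ (Sym2 V × V)} :
    t ∈ midE b e ↔ ∃ x ∈ e, t = .inr (e, x) := by
  rw [midE, Sym2.mem_map]
  constructor
  · rintro ⟨x, hx, h⟩; exact ⟨x, hx, h.symm⟩
  · rintro ⟨x, hx, h⟩; exact ⟨x, hx, h.symm⟩

theorem mem_outE {e : Sym2 V} {x : V} {i : Fin b} {t : (V × Fin b) ⊕ (Sym2 V × V)} :
    t ∈ outE b e x i ↔ t = .inl (x, i) ∨ t = .inr (e, x) := by
  rw [outE, Sym2.mem_iff]

theorem gad_edgeSet : (gad G b).edgeSet = {t | (∃ e ∈ G.edgeSet, t = midE b e) ∨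
    ∃ e ∈ G.edgeSet, ∃ x ∈ e, ∃ i, t = outE b e x i} := by
  rw [gad, SimpleGraph.edgeSet_fromEdgeSet]
  apply sdiff_eq_left.2
  rw [Set.disjoint_left]
  rintro t (⟨e, he, rfl⟩ | ⟨e, he, x, hx, i, rfl⟩) h
  · induction e with
    | _ x y =>
      have hxy : G.Adj x y := he
      rw [midE, Sym2.map_mk, Sym2.mem_diagSet, Sym2.mk_isDiag_iff] at h
      have := Sum.inr_injective h
      simp only [Prod.mk.injEq, true_and] at this
      exact hxy.ne this
  · rw [outE, Sym2.mem_diagSet, Sym2.mk_isDiag_iff] at h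
    exact Sum.inl_ne_inr h

/-- At most one edge of a matching contains a given vertex. -/
theorem match_unique {V' : Type u} {G' : SimpleGraph V'} {M : Set (Sym2 V')} (hM : M ⊆ G'.edgeSet)
    (hMf : HFree (SimpleGraph.pathGraph 3) M) {t t' : Sym2 V'} {x : V'} (ht : t ∈ M) (ht' : t' ∈ M)
    (hx : x ∈ t) (hx' : x ∈ t') : t = t' := by
  obtain ⟨a, rfl⟩ := hx
  obtain ⟨b, rfl⟩ := hx'
  have h1 : G'.Adj x a := hM ht
  have h2 : G'.Adj x b := hM ht'
  rw [p3_free_iff.1 hMf x a b h1.ne h2.ne ht ht']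

theorem p3_free_of_unique {V' : Type u} {M : Set (Sym2 V')}
    (h : ∀ t ∈ M, ∀ t' ∈ M, ∀ x, x ∈ t → x ∈ t' → t = t') :
    HFree (SimpleGraph.pathGraph 3) M := by
  rw [p3_free_iff]
  intro x a b _ _ ha hb
  exact Sym2.congr_right.1 (h _ ha _ hb x (Sym2.mem_mk_left _ _) (Sym2.mem_mk_left _ _))

/-! ### The exchange -/

/-- The gadget of `e` is used at `x`. -/
def Out (M : Set (Sym2 ((V × Fin b) ⊕ (Sym2 V × V)))) (e : Sym2 V) (x : V) : Prop :=
  ∃ i, outE b e x i ∈ M

/-- The edges whose gadget is used at both ends. -/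
def Full (G : SimpleGraph V) (M : Set (Sym2 ((V × Fin b) ⊕ (Sym2 V × V)))) : Set (Sym2 V) :=
  {e | e ∈ G.edgeSet ∧ ∀ x ∈ e, Out M e x}

/-- The part of `M` in the gadget of `e`. -/
def gadM (M : Set (Sym2 ((V × Fin b) ⊕ (Sym2 V × V)))) (e : Sym2 V) :
    Set (Sym2 ((V × Fin b) ⊕ (Sym2 V × V))) :=
  {t | t ∈ M ∧ (t = midE b e ∨ ∃ x ∈ e, ∃ i, t = outE b e x i)}

section Exch

variable {M : Set (Sym2 ((V × Fin b) ⊕ (Sym2 V × V)))}

theorem slot_le (hu : ∀ t ∈ M, ∀ t' ∈ M, ∀ x, x ∈ t → x ∈ t' → t = t') (x : V)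
    (S : Set (Sym2 V)) (hS : ∀ e ∈ S, Out M e x) : S.encard ≤ b := by
  have h1 : S.encard ≤ (Set.univ : Set (Fin b)).encard := by
    refine Function.Embedding.encard_le (s := S) (t := (Set.univ : Set (Fin b)))
      ⟨fun e => ⟨(hS e.1 e.2).choose, trivial⟩, ?_⟩
    intro e e' h
    have h1 := (hS e.1 e.2).choose_spec
    have h2 := (hS e'.1 e'.2).choose_spec
    have h3 : (hS e.1 e.2).choose = (hS e'.1 e'.2).choose := congrArg Subtype.val h
    rw [← h3] at h2
    have := hu _ h1 _ h2 (.inl (x, (hS e.1 e.2).choose)) (mem_outE.2 (Or.inl rfl))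
      (mem_outE.2 (Or.inl rfl))
    exact Subtype.ext (outE_inj this).1
  refine h1.trans ?_
  rw [Set.encard_univ]
  simp

theorem used_le (hu : ∀ t ∈ M, ∀ t' ∈ M, ∀ x, x ∈ t → x ∈ t' → t = t') (x : V)
    (S : Set (Sym2 V)) : ({i : Fin b | ∃ e ∈ S, outE b e x i ∈ M}).encard ≤ S.encard := by
  refine Function.Embedding.encard_le
    ⟨fun i => ⟨i.2.choose, i.2.choose_spec.1⟩, ?_⟩
  intro i i' h
  have h1 := i.2.choose_spec.2
  have h2 := i'.2.choose_spec.2
  have h3 : i.2.choose = i'.2.choose := congrArg Subtype.val h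
  rw [← h3] at h2
  have := hu _ h1 _ h2 (.inr (i.2.choose, x)) (mem_outE.2 (Or.inr rfl)) (mem_outE.2 (Or.inr rfl))
  exact Subtype.ext (outE_inj this).2.2

theorem one_at (hu : ∀ t ∈ M, ∀ t' ∈ M, ∀ x, x ∈ t → x ∈ t' → t = t')
    (v : (V × Fin b) ⊕ (Sym2 V × V)) : {t | t ∈ M ∧ v ∈ t}.encard ≤ 1 := by
  rw [Set.encard_le_one_iff]
  intro t t' ht ht'
  exact hu t ht.1 t' ht'.1 v ht.2 ht'.2

theorem gadM_two (hu : ∀ t ∈ M, ∀ t' ∈ M, ∀ x, x ∈ t → x ∈ t' → t = t') (e : Sym2 V) :
    (gadM M e).encard ≤ 2 := by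
  induction e with
  | _ x y =>
    have h1 : gadM M s(x, y) ⊆ {t | t ∈ M ∧ .inr (s(x, y), x) ∈ t} ∪
        {t | t ∈ M ∧ .inr (s(x, y), y) ∈ t} := by
      rintro t ⟨ht, rfl | ⟨z, hz, i, rfl⟩⟩
      · exact Or.inl ⟨ht, mem_midE.2 ⟨x, Sym2.mem_mk_left _ _, rfl⟩⟩
      · rcases Sym2.mem_iff.1 hz with rfl | rfl
        · exact Or.inl ⟨ht, mem_outE.2 (Or.inr rfl)⟩
        · exact Or.inr ⟨ht, mem_outE.2 (Or.inr rfl)⟩
    refine (Set.encard_le_encard h1).trans ((Set.encard_union_le _ _).trans ?_)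
    refine (add_le_add (one_at hu _) (one_at hu _)).trans ?_
    norm_num

theorem gadM_one (hu : ∀ t ∈ M, ∀ t' ∈ M, ∀ x, x ∈ t → x ∈ t' → t = t') (e : Sym2 V)
    (he : ∃ x ∈ e, ¬ Out M e x) : (gadM M e).encard ≤ 1 := by
  obtain ⟨x, hx, hxo⟩ := he
  obtain ⟨y, rfl⟩ := hx
  have h1 : gadM M s(x, y) ⊆ {t | t ∈ M ∧ .inr (s(x, y), y) ∈ t} := by
    rintro t ⟨ht, rfl | ⟨z, hz, i, rfl⟩⟩
    · exact ⟨ht, mem_midE.2 ⟨y, Sym2.mem_mk_right _ _, rfl⟩⟩
    · rcases Sym2.mem_iff.1 hz with rfl | rfl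
      · exact absurd ⟨i, ht⟩ hxo
      · exact ⟨ht, mem_outE.2 (Or.inr rfl)⟩
  exact (Set.encard_le_encard h1).trans (one_at hu _)

theorem gadM_finite (hu : ∀ t ∈ M, ∀ t' ∈ M, ∀ x, x ∈ t → x ∈ t' → t = t') (e : Sym2 V) :
    (gadM M e).Finite :=
  Set.finite_of_encard_le_coe (k := 2) (by exact_mod_cast gadM_two hu e)

/-- The finite exchange property of the full edges. -/
theorem full_exchange [Nonempty (Fin b)]
    (hMax : StronglyMaximal (SimpleGraph.pathGraph 3) (gad G b) M) (A B : Finset (Sym2 V))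
    (hA : ∀ e ∈ A, e ∈ G.edgeSet ∧ e ∉ Full G M) (hB : ∀ e ∈ B, e ∈ Full G M)
    (hbm : IsBM b ((Full G M \ ↑B) ∪ ↑A)) : A.card ≤ B.card := by
  classical
  have hMG := hMax.1
  have hu : ∀ t ∈ M, ∀ t' ∈ M, ∀ x, x ∈ t → x ∈ t' → t = t' :=
    fun t ht t' ht' x hx hx' => match_unique hMG hMax.2.1 ht ht' hx hx'
  rw [gad_edgeSet] at hMG
  -- the half used edges at the vertices of `A`
  have hhalf : {e | e ∈ G.edgeSet ∧ e ∉ Full G M ∧
      ∃ x, (∃ a ∈ A, x ∈ a) ∧ x ∈ e ∧ Out M e x}.Finite := by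
    have h1 : {e | e ∈ G.edgeSet ∧ e ∉ Full G M ∧ ∃ x, (∃ a ∈ A, x ∈ a) ∧ x ∈ e ∧ Out M e x} ⊆
        ⋃ a ∈ (↑A : Set (Sym2 V)), ⋃ x ∈ {x | x ∈ a}, {e | Out M e x} := by
      rintro e ⟨-, -, x, ⟨a, ha, hx⟩, -, h⟩
      simp only [Set.mem_iUnion]
      exact ⟨a, ha, x, hx, h⟩
    refine Set.Finite.subset ?_ h1
    refine Set.Finite.biUnion A.finite_toSet (fun a _ => ?_)
    have h2 : {x | x ∈ a}.Finite := by
      induction a with
      | _ y z =>
        refine Set.Finite.subset (Set.toFinite {y, z}) ?_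
        intro x hx
        exact Sym2.mem_iff.1 hx
    refine Set.Finite.biUnion h2 (fun x _ => ?_)
    exact Set.finite_of_encard_le_coe (slot_le hu x {e | Out M e x} (fun e he => he))
  let T : Finset (Sym2 V) := (B ∪ hhalf.toFinset) \ A
  have hBA : ∀ e ∈ B, e ∉ A := fun e he he' => (hA e he').2 (hB e he)
  have hTG : ∀ e ∈ T, e ∈ G.edgeSet := by
    intro e he
    rw [Finset.mem_sdiff, Finset.mem_union, Set.Finite.mem_toFinset] at he
    rcases he.1 with h | h
    · exact (hB e h).1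
    · exact h.1
  have hTA : ∀ e ∈ T, e ∉ A := fun e he => (Finset.mem_sdiff.1 he).2
  have hBT : B ⊆ T := fun e he => Finset.mem_sdiff.2 ⟨Finset.mem_union_left _ he, hBA e he⟩
  have hhT : ∀ e ∈ G.edgeSet, e ∉ Full G M → ∀ x, (∃ a ∈ A, x ∈ a) → x ∈ e → Out M e x →
      e ∈ T ∨ e ∈ A := by
    intro e he hef x hx hxe hxo
    by_cases hea : e ∈ A
    · exact Or.inr hea
    · left
      refine Finset.mem_sdiff.2 ⟨Finset.mem_union_right _ ?_, hea⟩
      rw [Set.Finite.mem_toFinset]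
      exact ⟨he, hef, x, hx, hxe, hxo⟩
  have hTF : ∀ e ∈ T, e ∉ B → e ∉ Full G M := by
    intro e he heB
    rw [Finset.mem_sdiff, Finset.mem_union, Set.Finite.mem_toFinset] at he
    rcases he.1 with h | h
    · exact absurd h heB
    · exact h.2.1
  -- the free slots
  have hfree : ∀ x, ∃ σ : Sym2 V → Fin b, (∀ e ∈ A, x ∈ e → ∀ e', e' ∈ Full G M → e' ∉ B →
      x ∈ e' → outE b e' x (σ e) ∉ M) ∧
      (∀ e ∈ A, ∀ e' ∈ A, x ∈ e → x ∈ e' → σ e = σ e' → e = e') := by
    intro x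
    let S : Set (Sym2 V) := {e | (e ∈ Full G M ∧ e ∉ B) ∧ x ∈ e}
    let U : Set (Fin b) := {i | ∃ e ∈ S, outE b e x i ∈ M}
    let Ax : Set (Sym2 V) := {e | e ∈ A ∧ x ∈ e}
    have h1 : U.encard ≤ S.encard := used_le hu x S
    have h2 : S.encard + Ax.encard ≤ b := by
      rw [← Set.encard_union_eq]
      · refine le_trans (Set.encard_le_encard ?_) (hbm x)
        rintro e (⟨⟨he, heB⟩, hxe⟩ | ⟨he, hxe⟩)
        · exact ⟨Or.inl ⟨he, heB⟩, hxe⟩
        · exact ⟨Or.inr he, hxe⟩
      · rw [Set.disjoint_left]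
        rintro e ⟨⟨he, -⟩, -⟩ ⟨he', -⟩
        exact (hA e he').2 he
    have h3 : Ax.encard ≤ Uᶜ.encard := by
      have h4 : U.encard + Uᶜ.encard = b := by
        rw [Set.encard_add_encard_compl, Set.encard_univ]
        simp
      have h5 : U.encard + Ax.encard ≤ U.encard + Uᶜ.encard := by
        rw [h4]
        exact (add_le_add h1 le_rfl).trans h2
      have h6 : U.encard ≠ ⊤ := Set.encard_ne_top_iff.2 (Set.toFinite U)
      exact (ENat.add_le_add_iff_left h6).1 h5
    have hAxf : Ax.Finite := A.finite_toSet.subset (fun e he => he.1)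
    obtain ⟨σ, hσ, hinj⟩ := hAxf.exists_injOn_of_encard_le h3
    refine ⟨σ, ?_, ?_⟩
    · intro e he hxe e' he' heB' hxe' hcon
      exact hσ ⟨he, hxe⟩ ⟨e', ⟨⟨he', heB'⟩, hxe'⟩, hcon⟩
    · intro e he e' he' hxe hxe' h
      exact hinj ⟨he, hxe⟩ ⟨he', hxe'⟩ h
  choose σ hσF hσi using hfree
  let P : Finset (Σ _ : Sym2 V, V) := A.sigma (fun e => e.toFinset)
  let A' : Finset (Sym2 ((V × Fin b) ⊕ (Sym2 V × V))) :=
    T.image (midE b) ∪ P.image (fun p => outE b p.1 p.2 (σ p.2 p.1))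
  let B' : Finset (Sym2 ((V × Fin b) ⊕ (Sym2 V × V))) :=
    (A ∪ T).biUnion (fun e => (gadM_finite hu e).toFinset)
  have hmemA' : ∀ t, t ∈ A' ↔ (∃ e ∈ T, t = midE b e) ∨
      ∃ e ∈ A, ∃ x ∈ e, t = outE b e x (σ x e) := by
    intro t
    simp only [A', P, Finset.mem_union, Finset.mem_image, Finset.mem_sigma, Sym2.mem_toFinset]
    constructor
    · rintro (⟨e, he, rfl⟩ | ⟨⟨e, x⟩, ⟨he, hx⟩, rfl⟩)
      · exact Or.inl ⟨e, he, rfl⟩
      · exact Or.inr ⟨e, he, x, hx, rfl⟩
    · rintro (⟨e, he, rfl⟩ | ⟨e, he, x, hx, rfl⟩)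
      · exact Or.inl ⟨e, he, rfl⟩
      · exact Or.inr ⟨⟨e, x⟩, ⟨he, hx⟩, rfl⟩
  have hmemB' : ∀ t, t ∈ B' ↔ ∃ e, (e ∈ A ∨ e ∈ T) ∧ t ∈ gadM M e := by
    intro t
    simp only [B', Finset.mem_biUnion, Finset.mem_union, Set.Finite.mem_toFinset]
  -- the cardinalities
  have hcA : A'.card = T.card + 2 * A.card := by
    have h1 : Disjoint (T.image (midE b)) (P.image (fun p => outE b p.1 p.2 (σ p.2 p.1))) := by
      rw [Finset.disjoint_left]
      intro t ht ht'
      rw [Finset.mem_image] at ht ht'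
      obtain ⟨e, -, rfl⟩ := ht
      obtain ⟨p, -, h⟩ := ht'
      exact midE_ne_outE h.symm
    have h2 : (T.image (midE b)).card = T.card :=
      Finset.card_image_of_injective _ (fun e e' h => midE_inj h)
    have h3 : (P.image (fun p => outE b p.1 p.2 (σ p.2 p.1))).card = P.card := by
      refine Finset.card_image_of_injective _ ?_
      rintro ⟨e, x⟩ ⟨e', x'⟩ h
      obtain ⟨rfl, rfl, -⟩ := outE_inj h
      rfl
    have h4 : P.card = 2 * A.card := by
      rw [Finset.card_sigma, Finset.sum_const_nat (m := 2), mul_comm]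
      intro e he
      exact Sym2.card_toFinset_of_not_isDiag e (G.not_isDiag_of_mem_edgeSet (hA e he).1)
    show (T.image (midE b) ∪ P.image (fun p => outE b p.1 p.2 (σ p.2 p.1))).card = _
    rw [Finset.card_union_of_disjoint h1, h2, h3, h4]
  have hg1 : ∀ e ∈ G.edgeSet, e ∉ Full G M → (gadM_finite hu e).toFinset.card ≤ 1 := by
    intro e he hef
    have h1 : ∃ x ∈ e, ¬ Out M e x := by
      by_contra hcon
      push Not at hcon
      exact hef ⟨he, hcon⟩
    have h2 := gadM_one hu e h1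
    rw [(gadM_finite hu e).encard_eq_coe_toFinset_card] at h2
    exact_mod_cast h2
  have hg2 : ∀ e, (gadM_finite hu e).toFinset.card ≤ 2 := by
    intro e
    have h2 := gadM_two hu e
    rw [(gadM_finite hu e).encard_eq_coe_toFinset_card] at h2
    exact_mod_cast h2
  have hcB : B'.card ≤ A.card + 2 * B.card + (T \ B).card := by
    have h1 : B'.card ≤ ∑ e ∈ A ∪ T, (gadM_finite hu e).toFinset.card := Finset.card_biUnion_le
    have h2 : ∑ e ∈ A ∪ T, (gadM_finite hu e).toFinset.card ≤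
        ∑ e ∈ A, (gadM_finite hu e).toFinset.card + ∑ e ∈ T, (gadM_finite hu e).toFinset.card := by
      rw [← Finset.sum_union_inter]
      exact Nat.le_add_right _ _
    have h3 : ∑ e ∈ A, (gadM_finite hu e).toFinset.card ≤ A.card * 1 :=
      Finset.sum_le_card_nsmul _ _ _ (fun e he => hg1 e (hA e he).1 (hA e he).2)
    have h4 : ∑ e ∈ T, (gadM_finite hu e).toFinset.card =
        ∑ e ∈ T \ B, (gadM_finite hu e).toFinset.card +
        ∑ e ∈ B, (gadM_finite hu e).toFinset.card := (Finset.sum_sdiff hBT).symm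
    have h5 : ∑ e ∈ T \ B, (gadM_finite hu e).toFinset.card ≤ (T \ B).card * 1 :=
      Finset.sum_le_card_nsmul _ _ _ (fun e he => by
        rw [Finset.mem_sdiff] at he
        exact hg1 e (hTG e he.1) (hTF e he.1 he.2))
    have h6 : ∑ e ∈ B, (gadM_finite hu e).toFinset.card ≤ B.card * 2 :=
      Finset.sum_le_card_nsmul _ _ _ (fun e _ => hg2 e)
    omega
  have hTB : (T \ B).card + B.card = T.card := Finset.card_sdiff_add_card_eq_card hBT
  -- the exchange
  have hex : A'.card ≤ B'.card := by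
    refine hMax.exchange_fin ?_ ?_ ?_
    · intro t ht
      rw [gad_edgeSet]
      rcases (hmemA' t).1 ht with ⟨e, he, rfl⟩ | ⟨e, he, x, hx, rfl⟩
      · exact Or.inl ⟨e, hTG e he, rfl⟩
      · exact Or.inr ⟨e, (hA e he).1, x, hx, _, rfl⟩
    · intro t ht htM
      rw [hmemB']
      rcases (hmemA' t).1 ht with ⟨e, he, rfl⟩ | ⟨e, he, x, hx, rfl⟩
      · exact ⟨e, Or.inr he, htM, Or.inl rfl⟩
      · exact ⟨e, Or.inl he, htM, Or.inr ⟨x, hx, _, rfl⟩⟩
    · -- mixed pairs
      have hin : ∀ t ∈ M, ∀ e x, (.inr (e, x) : (V × Fin b) ⊕ (Sym2 V × V)) ∈ t → t ∈ gadM M e := by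
        intro t ht e x hx
        rcases hMG ht with ⟨e', he', rfl⟩ | ⟨e', he', x', hx', i, rfl⟩
        · obtain ⟨y, hy, h⟩ := mem_midE.1 hx
          have h' := Sum.inr_injective h
          simp only [Prod.mk.injEq] at h'
          obtain ⟨rfl, rfl⟩ := h'
          exact ⟨ht, Or.inl rfl⟩
        · rcases mem_outE.1 hx with h | h
          · exact absurd h Sum.inr_ne_inl
          · have h' := Sum.inr_injective h
            simp only [Prod.mk.injEq] at h'
            obtain ⟨rfl, rfl⟩ := h'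
            exact ⟨ht, Or.inr ⟨x, hx', i, rfl⟩⟩
      have hmix : ∀ t, t ∈ M → t ∉ B' → ∀ t' ∈ A', ∀ v, v ∈ t → v ∈ t' → False := by
        intro t ht htB t' ht' v hv hv'
        rcases (hmemA' t').1 ht' with ⟨e, he, rfl⟩ | ⟨e, he, x, hx, rfl⟩
        · obtain ⟨x, hx, rfl⟩ := mem_midE.1 hv'
          exact htB ((hmemB' t).2 ⟨e, Or.inr he, hin t ht e x hv⟩)
        · rcases mem_outE.1 hv' with rfl | rfl
          · rcases hMG ht with ⟨e', he', rfl⟩ | ⟨e', he', x', hx', i, rfl⟩
            · obtain ⟨y, hy, h⟩ := mem_midE.1 hv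
              exact Sum.inl_ne_inr h
            · rcases mem_outE.1 hv with h | h
              · have h' := Sum.inl_injective h
                simp only [Prod.mk.injEq] at h'
                obtain ⟨rfl, rfl⟩ := h'
                by_cases hf : e' ∈ Full G M
                · by_cases hb : e' ∈ B
                  · exact htB ((hmemB' _).2 ⟨e', Or.inr (hBT hb), ht,
                      Or.inr ⟨x, hx', _, rfl⟩⟩)
                  · exact hσF x e he hx e' hf hb hx' ht
                · have h1 := hhT e' he' hf x ⟨e, he, hx⟩ hx' ⟨_, ht⟩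
                  exact htB ((hmemB' _).2 ⟨e', h1.symm, ht, Or.inr ⟨x, hx', _, rfl⟩⟩)
              · exact Sum.inl_ne_inr h
          · exact htB ((hmemB' t).2 ⟨e, Or.inl he, hin t ht e x hv⟩)
      refine p3_free_of_unique ?_
      rintro t (⟨ht, htB⟩ | ht) t' (⟨ht', htB'⟩ | ht') v hv hv'
      · exact hu t ht t' ht' v hv hv'
      · exact (hmix t ht htB t' ht' v hv hv').elim
      · exact (hmix t' ht' htB' t ht v hv' hv).elim
      · rcases (hmemA' t).1 ht with ⟨e, he, rfl⟩ | ⟨e, he, x, hx, rfl⟩ <;>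
          rcases (hmemA' t').1 ht' with ⟨e', he', rfl⟩ | ⟨e', he', x', hx', rfl⟩
        · obtain ⟨x, hx, rfl⟩ := mem_midE.1 hv
          obtain ⟨x', hx', h⟩ := mem_midE.1 hv'
          have h' := Sum.inr_injective h
          simp only [Prod.mk.injEq] at h'
          rw [h'.1]
        · obtain ⟨x, hx, rfl⟩ := mem_midE.1 hv
          rcases mem_outE.1 hv' with h | h
          · exact absurd h Sum.inr_ne_inl
          · have h' := Sum.inr_injective h
            simp only [Prod.mk.injEq] at h'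
            exact absurd (h'.1 ▸ he') (hTA e he)
        · obtain ⟨y, hy, rfl⟩ := mem_midE.1 hv'
          rcases mem_outE.1 hv with h | h
          · exact absurd h Sum.inr_ne_inl
          · have h' := Sum.inr_injective h
            simp only [Prod.mk.injEq] at h'
            exact absurd (h'.1 ▸ he) (hTA e' he')
        · rcases mem_outE.1 hv with rfl | rfl <;> rcases mem_outE.1 hv' with h | h
          · have h' := Sum.inl_injective h
            simp only [Prod.mk.injEq] at h'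
            obtain ⟨rfl, h2⟩ := h'
            have := hσi x e he e' he' hx hx' h2
            subst this
            rfl
          · exact absurd h Sum.inl_ne_inr
          · exact absurd h Sum.inr_ne_inl
          · have h' := Sum.inr_injective h
            simp only [Prod.mk.injEq] at h'
            obtain ⟨rfl, rfl⟩ := h'
            rfl
  omega

end Exch

/-- **b-matchings.** -/
theorem exists_bm (hM : ∀ (V' : Type u) (G' : SimpleGraph V'),
      ∃ M, StronglyMaximal (SimpleGraph.pathGraph 3) G' M) :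
    ∃ F ⊆ G.edgeSet, IsBM b F ∧ ∀ I ⊆ G.edgeSet, IsBM b I → #(↥(I \ F)) ≤ #(↥(F \ I)) := by
  classical
  rcases Nat.eq_zero_or_pos b with hb | hb
  · subst hb
    refine ⟨∅, Set.empty_subset _, fun x => by simp [inc], fun I hI hbm => ?_⟩
    have hI0 : I = ∅ := by
      rw [Set.eq_empty_iff_forall_notMem]
      intro e he
      induction e with
      | _ x y =>
        have h1 := hbm x
        have h2 : (1 : ℕ∞) ≤ (inc I x).encard :=
          Set.one_le_encard_iff_nonempty.2 ⟨s(x, y), he, Sym2.mem_mk_left _ _⟩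
        have h3 := h2.trans h1
        simp at h3
    rw [hI0]
  have : Nonempty (Fin b) := ⟨⟨0, hb⟩⟩
  obtain ⟨M, hMax⟩ := hM _ (gad G b)
  have hu : ∀ t ∈ M, ∀ t' ∈ M, ∀ x, x ∈ t → x ∈ t' → t = t' :=
    fun t ht t' ht' x hx hx' => match_unique hMax.1 hMax.2.1 ht ht' hx hx'
  have hFb : IsBM b (Full G M) := fun x =>
    slot_le hu x _ (fun e he => he.1.2 x he.2)
  refine ⟨Full G M, fun e he => he.1, hFb, ?_⟩
  intro I hIG hIb
  set F := Full G M with hF
  -- each edge of `I \ F` meets an edge of `F \ I`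
  have htouch : ∀ e ∈ I \ F, ∃ e' ∈ F \ I, ∃ x ∈ e', x ∈ e := by
    rintro e ⟨heI, heF⟩
    by_contra hcon
    push Not at hcon
    have h1 : IsBM b ((F \ ↑(∅ : Finset (Sym2 V))) ∪ ↑({e} : Finset (Sym2 V))) := by
      intro x
      by_cases hx : x ∈ e
      · refine le_trans (Set.encard_le_encard ?_) (hIb x)
        rintro e' ⟨h | h, hxe'⟩
        · refine ⟨?_, hxe'⟩
          by_contra hn
          exact hcon e' ⟨h.1, hn⟩ x hxe' hx
        · rw [Finset.coe_singleton, Set.mem_singleton_iff] at h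
          exact ⟨h ▸ heI, hxe'⟩
      · refine le_trans (Set.encard_le_encard ?_) (hFb x)
        rintro e' ⟨h | h, hxe'⟩
        · exact ⟨h.1, hxe'⟩
        · rw [Finset.coe_singleton, Set.mem_singleton_iff] at h
          exact absurd (h ▸ hxe') hx
    have h2 := full_exchange hMax {e} ∅ (by
      intro a ha
      rw [Finset.mem_singleton] at ha
      exact ha ▸ ⟨hIG heI, heF⟩) (by simp) h1
    simp at h2
  have hsub : I \ F ⊆ ⋃ e' ∈ F \ I, ⋃ x ∈ {x | x ∈ e'}, inc I x := by
    intro e he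
    obtain ⟨e', he', x, hx, hxe⟩ := htouch e he
    simp only [Set.mem_iUnion]
    exact ⟨e', he', x, hx, he.1, hxe⟩
  have hfin : ∀ e' : Sym2 V, (⋃ x ∈ {x | x ∈ e'}, inc I x).Finite := by
    intro e'
    have h2 : {x | x ∈ e'}.Finite := by
      induction e' with
      | _ y z =>
        refine Set.Finite.subset (Set.toFinite {y, z}) ?_
        intro x hx
        exact Sym2.mem_iff.1 hx
    exact Set.Finite.biUnion h2 (fun x _ => Set.finite_of_encard_le_coe (hIb x))
  by_cases hfFI : (F \ I).Finite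
  · have hfIF : (I \ F).Finite := (hfFI.biUnion (fun e' _ => hfin e')).subset hsub
    have h1 := full_exchange hMax hfIF.toFinset hfFI.toFinset (by
      intro e he
      rw [Set.Finite.mem_toFinset] at he
      exact ⟨hIG he.1, he.2⟩) (by
      intro e he
      rw [Set.Finite.mem_toFinset] at he
      exact he.1) (by
      intro x
      refine le_trans (Set.encard_le_encard ?_) (hIb x)
      rintro e ⟨h | h, hxe⟩
      · refine ⟨?_, hxe⟩
        by_contra hn
        refine h.2 ?_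
        rw [Set.Finite.coe_toFinset]
        exact ⟨h.1, hn⟩
      · rw [Set.Finite.coe_toFinset] at h
        exact ⟨h.1, hxe⟩)
    rw [← Set.ncard_eq_toFinset_card _ hfIF, ← Set.ncard_eq_toFinset_card _ hfFI] at h1
    have := hfIF.to_subtype
    have := hfFI.to_subtype
    rw [← Nat.cast_card, ← Nat.cast_card]
    exact_mod_cast h1
  · have hinf : ℵ₀ ≤ #(↥(F \ I)) := Cardinal.infinite_iff.1 (Set.infinite_coe_iff.2 hfFI)
    calc #(↥(I \ F)) ≤ #(↥(⋃ e' ∈ F \ I, ⋃ x ∈ {x | x ∈ e'}, inc I x)) :=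
          Cardinal.mk_le_mk_of_subset hsub
      _ ≤ #(↥(F \ I)) * ℵ₀ := by
          refine (Cardinal.mk_biUnion_le (fun e' => ⋃ x ∈ {x | x ∈ e'}, inc I x) (F \ I)).trans ?_
          refine mul_le_mul' le_rfl (ciSup_le' (fun e' => ?_))
          have h1 := (hfin e'.1).to_subtype
          exact Cardinal.mk_le_aleph0
      _ = #(↥(F \ I)) := Cardinal.mul_eq_left hinf hinf Cardinal.aleph0_ne_zero

end Gadget

/-- If every graph has a strongly maximal matching, then for a graph `H` with at least one and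
finitely many edges, all of which have a common vertex, every graph has a strongly maximal
`H`-free edge set. -/
theorem star_good (hM : ∀ (V' : Type u) (G' : SimpleGraph V'),
      ∃ M, StronglyMaximal (SimpleGraph.pathGraph 3) G' M) {W : Type u}
    {H : SimpleGraph W} (hfin : H.edgeSet.Finite) {z : W} (hz : ∀ a b, H.Adj a b → a = z ∨ b = z)
    (he : ∃ a b, H.Adj a b) (V : Type u) (G : SimpleGraph V) : ∃ F, StronglyMaximal H G F := by
  classical
  by_cases hφ : Nonempty (W ↪ V)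
  swap
  · refine ⟨G.edgeSet, Set.Subset.rfl, ?_, fun I hI _ => ?_⟩
    · rw [hFree_iff]
      intro f hf _
      exact hφ ⟨⟨f, hf⟩⟩
    · rw [Set.sdiff_eq_empty.2 hI]
      simp
  obtain ⟨φ⟩ := hφ
  rcases finite_or_infinite V with hV | hV
  · exact finite_host he G
  · have hN : (H.neighborSet z).Finite := by
      refine Set.Finite.of_finite_image (f := fun w => s(z, w)) (hfin.subset ?_) ?_
      · rintro _ ⟨w, hw, rfl⟩
        exact hw
      · intro w _ w' _ h
        exact Sym2.congr_right.1 h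
    have hpos : 0 < (H.neighborSet z).ncard := by
      rw [Set.ncard_pos hN]
      obtain ⟨a, b, hab⟩ := he
      rcases hz a b hab with rfl | rfl
      · exact ⟨b, hab⟩
      · exact ⟨a, hab.symm⟩
    obtain ⟨b, hb⟩ : ∃ b, (H.neighborSet z).ncard = b + 1 := ⟨_, (Nat.sub_add_cancel hpos).symm⟩
    obtain ⟨F, hFG, hFb, hF⟩ := exists_bm (G := G) (b := b) hM
    refine ⟨F, hFG, star_free_of_bm hN (by omega) hFb, fun I hI hIH => hF I hI ?_⟩
    exact bm_of_star_free hN hz φ (by omega) (fun e he => G.not_isDiag_of_mem_edgeSet (hI he)) hIH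

end Pool.Agent.StrongMax
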