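import Pool.Agent.Lib.StrongMax.GadgetHost

/-!
# Graphs `H` such that `H - J` contains a ray for every independent set `J`
-/

namespace Pool.Agent.StrongMax

open Cardinal

universe u

section Ray

variable {W : Type u} {H : SimpleGraph W}

/-- The subgraph of `H` induced by `D` contains no ray (no one-way infinite path). -/
def Rayless (H : SimpleGraph W) (D : Set W) : Prop :=
  ∀ r : ℕ → W, Function.Injective r → (∀ n, H.Adj (r n) (r (n + 1))) → (∀ n, r n ∈ D) → False

variable {G0 : SimpleGraph W} {ι : Type u} {D : ι → Set W} {P : ι → W → W → Prop} {Λ : Type u}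

/-- There is no ray in the host all of whose vertices are in gadgets. -/
theorem no_thick_ray (hD : ∀ i, Rayless H (D i)) (r : ℕ → W ⊕ (ι × Λ × W))
    (hr : Function.Injective r) (hadj : ∀ n, (gHost H G0 D P Λ).Adj (r n) (r (n + 1)))
    (hth : ∀ n, ∃ a, r n = .inr a) : False := by
  choose a ha using hth
  have h1 : ∀ n, (gHost H G0 D P Λ).Adj (.inr (a n)) (.inr (a (n + 1))) := by
    intro n
    rw [← ha, ← ha]
    exact hadj n
  have h2 : ∀ n, (a n).1 = (a 0).1 := by
    intro n
    induction n with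
    | zero => rfl
    | succ n ih => rw [← ih]; exact (gHost_inr_inr.1 (h1 n)).1.symm
  have h3 : ∀ n, (a n).2.1 = (a 0).2.1 := by
    intro n
    induction n with
    | zero => rfl
    | succ n ih => rw [← ih]; exact (gHost_inr_inr.1 (h1 n)).2.1.symm
  refine hD (a 0).1 (fun n => (a n).2.2) ?_ (fun n => (gHost_inr_inr.1 (h1 n)).2.2.2.2) ?_
  · intro m n hmn
    apply hr
    rw [ha m, ha n]
    congr 1
    exact Prod.ext ((h2 m).trans (h2 n).symm) (Prod.ext ((h3 m).trans (h3 n).symm) hmn)
  · intro n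
    have := (gHost_inr_inr.1 (h1 n)).2.2.1
    rw [h2 n] at this
    exact this

/-- There is no ray in the host with only finitely many thin vertices. -/
theorem no_thick_ray' (hD : ∀ i, Rayless H (D i)) (r : ℕ → W ⊕ (ι × Λ × W))
    (hr : Function.Injective r) (hadj : ∀ n, (gHost H G0 D P Λ).Adj (r n) (r (n + 1)))
    (hfin : {n | ∃ w, r n = .inl w}.Finite) : False := by
  obtain ⟨N, hN⟩ := hfin.bddAbove
  refine no_thick_ray hD (fun n => r (n + (N + 1))) (fun m n h => by
    have := hr h
    omega) (fun n => by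
      have := hadj (n + (N + 1))
      rw [show n + 1 + (N + 1) = n + (N + 1) + 1 by omega]
      exact this) (fun n => ?_)
  rcases h : r (n + (N + 1)) with w | a
  · exfalso
    have : n + (N + 1) ≤ N := hN ⟨w, h⟩
    omega
  · exact ⟨a, rfl⟩

/-- **Theorem M.** If `H - J` contains a ray for every independent set `J`, then `H` fails. -/
theorem fails_of_rays (h : ∀ J : Set W, (∀ x ∈ J, ∀ y ∈ J, ¬ H.Adj x y) → ¬ Rayless H Jᶜ) :
    Fails.{u} H := by
  classical
  refine fails_of_gadgets H ⊤ (ι := {D : Set W // Rayless H D} × (W → W))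
    (fun i => i.1.1) (fun i d w => ∃ z, H.Adj d z ∧ i.2 z = w) le_top ?_ ?_
  · intro Λ φ hφ hφa
    refine h {z | ∃ w, φ z = .inl w} ?_ ?_
    · rintro x ⟨v, hv⟩ y ⟨w, hw⟩ hxy
      have := hφa x y hxy
      rw [hv, hw, gHost_inl_inl] at this
      exact this
    · intro r hr hadj hD
      refine no_thick_ray (fun i => i.1.2) (φ ∘ r) (hφ.comp hr) (fun n => hφa _ _ (hadj n))
        (fun n => ?_)
      rcases h1 : φ (r n) with w | a
      · exact absurd ⟨w, h1⟩ (hD n)
      · exact ⟨a, h1⟩
  · intro Λ φ hφ hφa p q x y hpq hpx hqy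
    -- everything thick, plus `p`
    have hray : Rayless H ({z | ∃ a, φ z = .inr a} ∪ {p}) := by
      intro r hr hadj hD
      refine no_thick_ray' (fun i => i.1.2) (φ ∘ r) (hφ.comp hr) (fun n => hφa _ _ (hadj n)) ?_
      have hsub : {n | ∃ w, (φ ∘ r) n = .inl w} ⊆ r ⁻¹' {p} := by
        rintro n ⟨w, hw⟩
        rcases hD n with ⟨a, ha⟩ | h1
        · have h2 : φ (r n) = .inl w := hw
          rw [ha] at h2
          exact absurd h2 (by simp)
        · exact h1
      exact ((Set.finite_singleton p).preimage hr.injOn).subset hsub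
    refine ⟨⟨⟨_, hray⟩, fun z => Sum.elim id (fun _ => p) (φ z)⟩, Or.inl (Or.inr rfl), ?_⟩
    intro z hz d hd hdz
    rcases h1 : φ z with w | a
    · refine ⟨w, rfl, z, hdz, ?_⟩
      show Sum.elim id (fun _ => p) (φ z) = w
      rw [h1]
      rfl
    · exact absurd (Or.inl ⟨a, h1⟩) hz

end Ray

end Pool.Agent.StrongMax
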