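import Pool.Agent.Lib.StrongMax.LocFin1

/-!
# Graphs with a ray which are locally finite up to finitely many vertices
-/

namespace Pool.Agent.StrongMax

open Cardinal

universe u

section SepRay

variable {W : Type u} {H : SimpleGraph W}

/-- **Level theorem.** Let `Z` be a finite independent set. Suppose that the vertices outside `Z`
have a root and a level such that, outside `Z`, adjacent vertices have the same root and their
levels differ by at most one, the boundary of every level is finite and the vertices of bounded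
level with a given root induce a rayless graph. If `H` has a ray then `H` fails. -/
theorem fails_of_levels (Z : Set W) (hZf : Z.Finite) (hZi : ∀ x ∈ Z, ∀ y ∈ Z, ¬ H.Adj x y)
    (root : W → W) (lev : W → ℕ)
    (hroot : ∀ x y, x ∉ Z → y ∉ Z → H.Adj x y → root x = root y)
    (hlev : ∀ x y, x ∉ Z → y ∉ Z → H.Adj x y → lev y ≤ lev x + 1)
    (hbd : ∀ c k, {w | w ∉ Z ∧ root w = c ∧ lev w = k ∧ ∃ y, y ∉ Z ∧ H.Adj w y ∧
      lev y < k}.Finite)
    (hrl : ∀ c k, Rayless H {w | w ∉ Z ∧ root w = c ∧ lev w ≤ k})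
    (hray : ¬ Rayless H Set.univ) : Fails.{u} H := by
  classical
  -- the boundary
  let Bd : W → ℕ → Set W := fun c k => {w | w ∉ Z ∧ root w = c ∧ lev w = k ∧
    ∃ y, y ∉ Z ∧ H.Adj w y ∧ lev y < k}
  -- indices: a rayless set, a placement, a root, a level
  let ι : Type u := {D : Set W // Rayless H D} × (W → W) × W × ℕ
  let D : ι → Set W := fun i => i.1.1
  let P : ι → W → W → Prop := fun i d w => (w ∈ Z ∨ w ∈ Bd i.2.2.1 i.2.2.2) ∧
    ∃ z, H.Adj d z ∧ i.2.1 z = w
  have hD : ∀ i : ι, Rayless H (D i) := fun i => i.1.2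
  -- tags
  let tag : ∀ {Λ : Type u}, W ⊕ (ι × Λ × W) → W × ℕ := fun {Λ} v => match v with
    | .inl w => (root w, lev w)
    | .inr a => (a.1.2.2.1, a.1.2.2.2)
  -- the vertices of `Z` in the host
  let ZZ : ∀ {Λ : Type u}, Set (W ⊕ (ι × Λ × W)) := fun {Λ} => Sum.inl '' Z
  have htag1 : ∀ (Λ : Type u) (v w : W ⊕ (ι × Λ × W)), v ∉ ZZ → w ∉ ZZ →
      (gHost H ⊥ D P Λ).Adj v w → tag v = tag w := by
    rintro Λ (x | a) (y | b) hv hw hvw
    · exact absurd hvw (by simp [gHost_inl_inl])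
    · obtain ⟨-, h1 | ⟨-, h1, h2, -⟩, -⟩ := gHost_inl_inr.1 hvw
      · exact absurd ⟨x, h1, rfl⟩ hv
      · exact Prod.ext h1 h2
    · obtain ⟨-, h1 | ⟨-, h1, h2, -⟩, -⟩ := gHost_inr_inl.1 hvw
      · exact absurd ⟨y, h1, rfl⟩ hw
      · exact Prod.ext h1.symm h2.symm
    · have := (gHost_inr_inr.1 hvw).1
      show (a.1.2.2.1, a.1.2.2.2) = (b.1.2.2.1, b.1.2.2.2)
      rw [this]
  have htag2 : ∀ (Λ : Type u) (v w : W ⊕ (ι × Λ × W)), v ∉ ZZ → w ∉ ZZ →
      (gHost H H D P Λ).Adj v w → (tag v).1 = (tag w).1 := by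
    intro Λ v w hv hw hvw
    by_cases h : ∃ x y, v = .inl x ∧ w = .inl y
    · obtain ⟨x, y, rfl, rfl⟩ := h
      exact hroot x y (fun h => hv ⟨x, h, rfl⟩) (fun h => hw ⟨y, h, rfl⟩) (gHost_inl_inl.1 hvw)
    · rw [htag1 Λ v w hv hw (gHost_bot_of hvw h)]
  -- a thin vertex outside `Z` adjacent to a thick vertex lies in a boundary
  have hbdry : ∀ (Λ : Type u) (x : W) (a : ι × Λ × W), x ∉ Z →
      (gHost H H D P Λ).Adj (.inl x) (.inr a) → x ∈ Bd (root x) (lev x) := by
    intro Λ x a hx hxa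
    obtain ⟨-, h1 | h1, -⟩ := gHost_inl_inr.1 hxa
    · exact absurd h1 hx
    · have h2 : root x = a.1.2.2.1 := h1.2.1
      have h3 : lev x = a.1.2.2.2 := h1.2.2.1
      rw [h2, h3]
      exact h1
  -- rays outside `Z` with a fixed root and bounded levels
  have hfin : ∀ (Λ : Type u) (r : ℕ → W ⊕ (ι × Λ × W)), Function.Injective r →
      (∀ n, (gHost H H D P Λ).Adj (r n) (r (n + 1))) → ∀ (c : W) (k : ℕ),
      (∀ n, r n ∉ ZZ ∧ (tag (r n)).1 = c ∧ (tag (r n)).2 ≤ k) → False := by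
    intro Λ r hr hadj c k hck
    -- finitely many thin boundary vertices
    have hBfin : {n | ∃ w, r n = .inl w ∧ w ∈ Bd (root w) (lev w)}.Finite := by
      have h1 : {n | ∃ w, r n = .inl w ∧ w ∈ Bd (root w) (lev w)} ⊆
          r ⁻¹' (⋃ j ∈ Finset.range (k + 1), Sum.inl '' (Bd c j)) := by
        rintro n ⟨w, hw, hwB⟩
        obtain ⟨-, h2, h3⟩ := hck n
        rw [hw] at h2 h3
        have h2' : root w = c := h2
        have h3' : lev w ≤ k := h3
        simp only [Set.mem_preimage, Set.mem_iUnion]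
        exact ⟨lev w, Finset.mem_range.2 (Nat.lt_succ_of_le h3'), w, h2' ▸ hwB, hw.symm⟩
      refine Set.Finite.subset (Set.Finite.preimage hr.injOn ?_) h1
      exact Set.Finite.biUnion (Finset.finite_toSet _) (fun j _ => (hbd c j).image _)
    obtain ⟨N, hN⟩ := hBfin.bddAbove
    -- after `N` the ray stays thin or stays thick
    have hstay : ∀ n, N < n → ∀ w, r n = .inl w → ∃ w', r (n + 1) = .inl w' := by
      intro n hn w hw
      rcases hw' : r (n + 1) with w' | a
      · exact ⟨w', rfl⟩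
      · exfalso
        have h1 := hadj n
        rw [hw, hw'] at h1
        have h2 := hbdry Λ w a (fun h => (hck n).1 (hw ▸ ⟨w, h, rfl⟩)) h1
        have h3 : n ≤ N := hN ⟨w, hw, h2⟩
        omega
    by_cases hthin : ∃ n, N < n ∧ ∃ w, r n = .inl w
    · obtain ⟨n₀, hn₀, hw₀⟩ := hthin
      have hall : ∀ m, ∃ w, r (n₀ + m) = .inl w := by
        intro m
        induction m with
        | zero => exact hw₀
        | succ m ih =>
          obtain ⟨w, hw⟩ := ih
          exact hstay (n₀ + m) (by omega) w hw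
      choose f hf using hall
      refine hrl c k f ?_ ?_ ?_
      · intro m n hmn
        have h1 : r (n₀ + m) = r (n₀ + n) := by rw [hf m, hf n, hmn]
        have := hr h1
        omega
      · intro m
        have h1 := hadj (n₀ + m)
        rw [hf m, show n₀ + m + 1 = n₀ + (m + 1) by omega, hf (m + 1), gHost_inl_inl] at h1
        exact h1
      · intro m
        obtain ⟨h1, h2, h3⟩ := hck (n₀ + m)
        rw [hf m] at h1 h2 h3
        exact ⟨fun h => h1 ⟨f m, h, rfl⟩, h2, h3⟩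
    · push Not at hthin
      refine no_thick_ray' hD r hr hadj ?_
      refine (Set.finite_le_nat N).subset ?_
      rintro n ⟨w, hw⟩
      by_contra hcon
      exact hthin n (not_le.1 hcon) w hw
  refine fails_of_gadgets H H D P le_rfl ?_ ?_
  · intro Λ φ hφ hφ'
    refine hray (fun r hr hadj _ => ?_)
    -- the ray leaves `Z`
    have hZfin : {n | φ (r n) ∈ (ZZ : Set (W ⊕ (ι × Λ × W)))}.Finite := by
      have h1 : ((φ ∘ r) ⁻¹' (ZZ : Set (W ⊕ (ι × Λ × W)))).Finite :=
        (hZf.image _).preimage (hφ.comp hr).injOn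
      exact h1
    obtain ⟨N, hN⟩ := hZfin.bddAbove
    have hout : ∀ n, φ (r (n + (N + 1))) ∉ (ZZ : Set (W ⊕ (ι × Λ × W))) := by
      intro n hn
      have : n + (N + 1) ≤ N := hN hn
      omega
    have h1 : ∀ n, tag (φ (r (n + (N + 1)))) = tag (φ (r (0 + (N + 1)))) := by
      intro n
      induction n with
      | zero => rfl
      | succ n ih =>
        rw [← ih]
        have h2 := hφ' _ _ (hadj (n + (N + 1)))
        rw [show n + (N + 1) + 1 = n + 1 + (N + 1) by omega] at h2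
        exact (htag1 Λ _ _ (hout n) (hout (n + 1)) h2).symm
    refine hfin Λ (fun n => φ (r (n + (N + 1)))) ?_ ?_ (tag (φ (r (0 + (N + 1))))).1
      (tag (φ (r (0 + (N + 1))))).2 (fun n => ⟨hout n, congrArg Prod.fst (h1 n),
        (congrArg Prod.snd (h1 n)).le⟩)
    · intro m n hmn
      have := hr (hφ hmn)
      omega
    · intro n
      have h2 := gHost_of_bot (G0 := H) (hφ' _ _ (hadj (n + (N + 1))))
      rw [show n + (N + 1) + 1 = n + 1 + (N + 1) by omega] at h2
      exact h2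
  · intro Λ φ hφ hφa p q x y hpq hpx hqy
    -- one of the two ends is outside `Z`; call it `s`
    obtain ⟨s, hs, hspq⟩ : ∃ s, φ s ∉ (ZZ : Set (W ⊕ (ι × Λ × W))) ∧ (s = p ∨ s = q) := by
      by_cases hx : x ∈ Z
      · refine ⟨q, ?_, Or.inr rfl⟩
        rintro ⟨y', hy', h⟩
        have h2 : y' = y := Sum.inl_injective (h.trans hqy)
        have h3 := hφa p q hpq
        rw [hpx, hqy, gHost_inl_inl] at h3
        exact hZi x hx y (h2 ▸ hy') h3
      · refine ⟨p, ?_, Or.inl rfl⟩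
        rintro ⟨x', hx', h⟩
        have h2 : x' = x := Sum.inl_injective (h.trans hpx)
        exact hx (h2 ▸ hx')
    -- the vertices which can be reached from `s` outside `Z`
    let Y : Set W := {z | φ z ∉ (ZZ : Set (W ⊕ (ι × Λ × W)))}
    let K : Set W := {z | ∃ (hz : z ∈ Y), (H.induce Y).Reachable ⟨s, hs⟩ ⟨z, hz⟩}
    have hKstep : ∀ z ∈ K, ∀ z', H.Adj z z' → z' ∈ Y → z' ∈ K := by
      rintro z ⟨hz, hr⟩ z' hzz hz'
      refine ⟨hz', hr.trans (SimpleGraph.Adj.reachable ?_)⟩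
      exact hzz
    have hcomp : ∀ z ∈ K, (tag (φ z)).1 = (tag (φ s)).1 := by
      rintro z ⟨hz, ⟨w⟩⟩
      have hgen : ∀ (u v : Y), (H.induce Y).Walk u v → (tag (φ v.1)).1 = (tag (φ u.1)).1 := by
        intro u v w
        induction w with
        | nil => rfl
        | @cons u v w h _ ih => exact ih.trans (htag2 Λ _ _ u.2 v.2 (hφa _ _ h)).symm
      exact hgen _ _ w
    let E : Set W := {z | z ∈ K ∧ (tag (φ z)).2 ≤ (tag (φ s)).2}
    have hE : Rayless H E := by
      intro r hr hadj hrE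
      exact hfin Λ (φ ∘ r) (hφ.comp hr) (fun n => hφa _ _ (hadj n)) (tag (φ s)).1 (tag (φ s)).2
        (fun n => ⟨(hrE n).1.1, hcomp _ (hrE n).1, (hrE n).2⟩)
    have hsE : s ∈ E := ⟨⟨hs, SimpleGraph.Reachable.refl _⟩, le_rfl⟩
    refine ⟨(⟨E, hE⟩, fun z => Sum.elim id (fun _ => p) (φ z), (tag (φ s)).1,
      (tag (φ s)).2 + 1), ?_, ?_⟩
    · rcases hspq with h | h
      · left; rw [← h]; exact hsE
      · right; rw [← h]; exact hsE
    intro z hz d hd hdz
    have hdK : d ∈ K := hd.1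
    have hdl : (tag (φ d)).2 ≤ (tag (φ s)).2 := hd.2
    have hρ : ∀ w, φ z = .inl w → Sum.elim id (fun _ => p) (φ z) = w := by
      intro w hw
      rw [hw]
      rfl
    by_cases hzZ : φ z ∈ (ZZ : Set (W ⊕ (ι × Λ × W)))
    · obtain ⟨w, hw, hwz⟩ := hzZ
      exact ⟨w, hwz.symm, Or.inl hw, z, hdz, hρ w hwz.symm⟩
    have hzK : z ∈ K := hKstep d hdK z hdz hzZ
    have hdZ : φ d ∉ (ZZ : Set (W ⊕ (ι × Λ × W))) := hdK.1
    have hlz : (tag (φ s)).2 < (tag (φ z)).2 := by
      by_contra hcon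
      exact hz ⟨hzK, not_lt.1 hcon⟩
    have hadj := hφa d z hdz
    obtain ⟨v, w, hv, hw⟩ : ∃ v w, φ d = .inl v ∧ φ z = .inl w := by
      by_contra hcon
      have h1 := htag1 Λ _ _ hdZ hzZ (gHost_bot_of hadj hcon)
      rw [h1] at hdl
      exact absurd hdl (not_le.2 hlz)
    have hvZ : v ∉ Z := fun h => hdZ ⟨v, h, hv.symm⟩
    have hwZ : w ∉ Z := fun h => hzZ ⟨w, h, hw.symm⟩
    refine ⟨w, hw, Or.inr ?_, z, hdz, hρ w hw⟩
    have h5 := hcomp z hzK
    rw [hv] at hdl
    rw [hw] at hlz h5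
    have hdl' : lev v ≤ (tag (φ s)).2 := hdl
    have hlz' : (tag (φ s)).2 < lev w := hlz
    rw [hv, hw, gHost_inl_inl] at hadj
    have h3 := hlev v w hvZ hwZ hadj
    refine ⟨hwZ, h5, ?_, v, hvZ, hadj.symm, ?_⟩
    · show lev w = (tag (φ s)).2 + 1
      omega
    · show lev v < (tag (φ s)).2 + 1
      omega

/-- **Theorem.** If `H` has a ray and there is a finite independent set `Z` such that every vertex
outside `Z` has finite degree, then `H` fails. -/
theorem fails_of_ray_finite (Z : Set W) (hZf : Z.Finite) (hZi : ∀ x ∈ Z, ∀ y ∈ Z, ¬ H.Adj x y)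
    (hlf : ∀ x, x ∉ Z → (H.neighborSet x).Finite) (hray : ¬ Rayless H Set.univ) :
    Fails.{u} H := by
  classical
  -- the graph outside `Z`
  let H' : SimpleGraph W :=
    { Adj := fun x y => x ∉ Z ∧ y ∉ Z ∧ H.Adj x y
      symm := ⟨fun x y h => ⟨h.2.1, h.1, h.2.2.symm⟩⟩
      loopless := ⟨fun x h => H.irrefl h.2.2⟩ }
  have hlf' : ∀ x, (H'.neighborSet x).Finite := by
    intro x
    by_cases hx : x ∈ Z
    · refine Set.finite_empty.subset ?_
      intro y hy
      exact absurd hx hy.1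
    · refine (hlf x hx).subset ?_
      intro y hy
      exact hy.2.2
  refine fails_of_levels Z hZf hZi (rootOf H') (levOf H') ?_ ?_ ?_ ?_ hray
  · intro x y hx hy hxy
    exact rootOf_adj (H := H') ⟨hx, hy, hxy⟩
  · intro x y hx hy hxy
    exact levOf_adj (H := H') ⟨hx, hy, hxy⟩
  · intro c k
    refine (levels_finite hlf' c k).subset ?_
    rintro w ⟨-, h1, h2, -⟩
    exact ⟨h1, h2⟩
  · intro c k r hr _ hD
    have h1 : (⋃ j ∈ Finset.range (k + 1), {w | rootOf H' w = c ∧ levOf H' w = j}).Finite :=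
      Set.Finite.biUnion (Finset.finite_toSet _) (fun j _ => levels_finite hlf' c j)
    have h2 : Set.range r ⊆ ⋃ j ∈ Finset.range (k + 1), {w | rootOf H' w = c ∧
        levOf H' w = j} := by
      rintro _ ⟨n, rfl⟩
      obtain ⟨-, h3, h4⟩ := hD n
      simp only [Set.mem_iUnion]
      exact ⟨levOf H' (r n), Finset.mem_coe.2 (Finset.mem_range.2 (Nat.lt_succ_of_le h4)), h3, rfl⟩
    exact Set.infinite_range_of_injective hr (h1.subset h2)

end SepRay

end Pool.Agent.StrongMax
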