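import Pool.Agent.Lib.StrongMax.Conflict

/-!
# The apex host (helper18)

`r` is a vertex of `H` with two neighbours `b ≠ c`.  The host has an apex `u`, a vertex `w i` for each
item `i`, and for each oriented conflict `i → j` a copy of `H` with `r, b, c` glued to `u, w i, w j`,
all other vertices of this copy being private.
-/

namespace Pool.Agent.StrongMax

open Cardinal

universe v

/-- Vertices of the apex host. -/
inductive HV (W : Type v) : Type v
  | u
  | w (i : Idx)
  | p (i j : Idx) (x : W)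

section Apex

variable {W : Type v} (H : SimpleGraph W) (r b c : W)

open Classical in
/-- The copy of `H` belonging to the conflict `i → j`. -/
noncomputable def psi (i j : Idx) (x : W) : HV W :=
  if x = r then .u else if x = b then .w i else if x = c then .w j else .p i j x

/-- The apex host. -/
def apexHost : SimpleGraph (HV W) where
  Adj a a' := a ≠ a' ∧ ∃ i j x y, Idx.Rel i j ∧ H.Adj x y ∧ a = psi r b c i j x ∧ a' = psi r b c i j y
  symm := ⟨by
    rintro a a' ⟨hne, i, j, x, y, hij, hxy, h1, h2⟩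
    exact ⟨hne.symm, i, j, y, x, hij, hxy.symm, h2, h1⟩⟩
  loopless := ⟨fun a h => h.1 rfl⟩

variable {H r b c}

@[simp] theorem psi_r (i j : Idx) : psi r b c i j r = .u := by simp [psi]

theorem psi_b (hrb : r ≠ b) (i j : Idx) : psi r b c i j b = .w i := by simp [psi, hrb.symm]

theorem psi_c (hrc : r ≠ c) (hbc : b ≠ c) (i j : Idx) : psi r b c i j c = .w j := by
  simp [psi, hrc.symm, hbc.symm]

theorem psi_p {x : W} (hr : x ≠ r) (hb : x ≠ b) (hc : x ≠ c) (i j : Idx) :
    psi r b c i j x = .p i j x := by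
  simp [psi, hr, hb, hc]

theorem psi_eq_u {i j : Idx} {x : W} (h : psi r b c i j x = .u) : x = r := by
  unfold psi at h
  split_ifs at h with h1
  exact h1

theorem psi_eq_w {i j k : Idx} {x : W} (h : psi r b c i j x = .w k) :
    (x = b ∧ k = i) ∨ (x = c ∧ k = j) := by
  unfold psi at h
  split_ifs at h with h1 h2 h3
  · injection h with h4; exact Or.inl ⟨h2, h4.symm⟩
  · injection h with h4; exact Or.inr ⟨h3, h4.symm⟩

theorem psi_eq_p {i j k l : Idx} {x y : W} (h : psi r b c i j x = .p k l y) :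
    i = k ∧ j = l ∧ x = y ∧ x ≠ r ∧ x ≠ b ∧ x ≠ c := by
  unfold psi at h
  split_ifs at h with h1 h2 h3
  injection h with h4 h5 h6
  exact ⟨h4, h5, h6, h1, h2, h3⟩

theorem psi_injective {i j : Idx} (hij : i ≠ j) : Function.Injective (psi r b c i j) := by
  intro x y h
  rcases hx : psi r b c i j x with _ | k | ⟨k, l, z⟩
  · rw [hx] at h
    rw [psi_eq_u hx, psi_eq_u h.symm]
  · rw [hx] at h
    rcases psi_eq_w hx with ⟨h1, h2⟩ | ⟨h1, h2⟩ <;> rcases psi_eq_w h.symm with ⟨h3, h4⟩ | ⟨h3, h4⟩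
    · rw [h1, h3]
    · exact absurd (h2.symm.trans h4) hij
    · exact absurd (h4.symm.trans h2) hij
    · rw [h1, h3]
  · rw [hx] at h
    rw [(psi_eq_p hx).2.2.1, (psi_eq_p h.symm).2.2.1]

theorem psi_adj {i j : Idx} (hij : Idx.Rel i j) {x y : W} (hxy : H.Adj x y) :
    (apexHost H r b c).Adj (psi r b c i j x) (psi r b c i j y) :=
  ⟨fun h => hxy.ne (psi_injective hij.ne h), i, j, x, y, hij, hxy, rfl, rfl⟩

/-- The copies of `H` are induced subgraphs of the host. -/
theorem psi_adj_iff (hrb : H.Adj r b) (hrc : H.Adj r c) (hbc : b ≠ c) {i j : Idx}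
    (hij : Idx.Rel i j) {x y : W} :
    (apexHost H r b c).Adj (psi r b c i j x) (psi r b c i j y) ↔ H.Adj x y := by
  refine ⟨?_, psi_adj hij⟩
  rintro ⟨hne, k, l, x', y', hkl, hxy, h1, h2⟩
  rcases hx : psi r b c i j x with _ | m | ⟨m, n, z⟩
  · have hxr := psi_eq_u hx
    rw [hx] at h1
    have hx'r := psi_eq_u h1.symm
    rw [hxr]
    rw [hx'r] at hxy
    rcases hy : psi r b c i j y with _ | m | ⟨m, n, z⟩
    · exact absurd (hx.trans hy.symm) hne
    · rcases psi_eq_w hy with ⟨h3, h4⟩ | ⟨h3, h4⟩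
      · rw [h3]; exact hrb
      · rw [h3]; exact hrc
    · rw [hy] at h2
      rw [(psi_eq_p hy).2.2.1, ← (psi_eq_p h2.symm).2.2.1]
      exact hxy
  · rw [hx] at h1
    rcases hy : psi r b c i j y with _ | m' | ⟨m', n, z⟩
    · have hyr := psi_eq_u hy
      rw [hyr]
      rcases psi_eq_w hx with ⟨h3, h4⟩ | ⟨h3, h4⟩
      · rw [h3]; exact hrb.symm
      · rw [h3]; exact hrc.symm
    · rw [hy] at h2
      have hne' : x ≠ y := fun h => hne (by rw [h])
      have hne2 : x' ≠ y' := hxy.ne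
      rcases psi_eq_w hx with ⟨h3, h4⟩ | ⟨h3, h4⟩ <;> rcases psi_eq_w hy with ⟨h5, h6⟩ | ⟨h5, h6⟩
      · exact absurd (h3.trans h5.symm) hne'
      · rcases psi_eq_w h1.symm with ⟨h7, h8⟩ | ⟨h7, h8⟩ <;>
          rcases psi_eq_w h2.symm with ⟨h9, h10⟩ | ⟨h9, h10⟩
        · exact absurd (h7.trans h9.symm) hne2
        · rw [h3, h5, ← h7, ← h9]; exact hxy
        · rw [h3, h5, ← h7, ← h9]; exact hxy.symm
        · exact absurd (h7.trans h9.symm) hne2
      · rcases psi_eq_w h1.symm with ⟨h7, h8⟩ | ⟨h7, h8⟩ <;>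
          rcases psi_eq_w h2.symm with ⟨h9, h10⟩ | ⟨h9, h10⟩
        · exact absurd (h7.trans h9.symm) hne2
        · rw [h3, h5, ← h7, ← h9]; exact hxy.symm
        · rw [h3, h5, ← h7, ← h9]; exact hxy
        · exact absurd (h7.trans h9.symm) hne2
      · exact absurd (h3.trans h5.symm) hne'
    · rw [hy] at h2
      obtain ⟨h3, h4, h5, -⟩ := psi_eq_p h2.symm
      obtain ⟨h6, h7, h8, -⟩ := psi_eq_p hy
      subst h3; subst h4; subst h6; subst h7
      have : x = x' := psi_injective hij.ne (by rw [hx, ← h1])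
      rw [this, h8, ← h5]; exact hxy
  · rw [hx] at h1
    obtain ⟨h3, h4, h5, -⟩ := psi_eq_p h1.symm
    obtain ⟨h6, h7, h8, -⟩ := psi_eq_p hx
    subst h3; subst h4; subst h6; subst h7
    have : y = y' := psi_injective hij.ne h2
    rw [this, h8, ← h5]; exact hxy

/-- A finite graph fails if all its copies in the apex host are planned. -/
theorem apexHost_fails [Finite W] (hrb : H.Adj r b) (hrc : H.Adj r c) (hbc : b ≠ c)
    (hplan : ∀ f : W → HV W, Function.Injective f →
      (∀ x y, H.Adj x y → (apexHost H r b c).Adj (f x) (f y)) →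
      ∃ i j, Idx.Rel i j ∧ ∀ x, ∃ y, f x = psi r b c i j y)
    (F : Set (Sym2 (HV W))) : ¬ StronglyMaximal H (apexHost H r b c) F := by
  classical
  have hr : r ≠ b := hrb.ne
  have hr' : r ≠ c := hrc.ne
  let e : Idx → Sym2 (HV W) := fun i => s(.u, .w i)
  let D : Idx → Idx → Set (Sym2 (HV W)) := fun i j =>
    {t | (∃ x y, H.Adj x y ∧ t = s(psi r b c i j x, psi r b c i j y)) ∧ t ≠ e i ∧ t ≠ e j}
  have heq : ∀ i j x y k, s(psi r b c i j x, psi r b c i j y) = e k → k = i ∨ k = j := by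
    intro i j x y k h
    rw [Sym2.eq_iff] at h
    rcases h with ⟨-, h⟩ | ⟨h, -⟩
    · rcases psi_eq_w h with ⟨-, h⟩ | ⟨-, h⟩
      · exact Or.inl h
      · exact Or.inr h
    · rcases psi_eq_w h with ⟨-, h⟩ | ⟨-, h⟩
      · exact Or.inl h
      · exact Or.inr h
  have heG1 : ∀ i j, Idx.Rel i j → e i = s(psi r b c i j r, psi r b c i j b) := by
    intro i j hij
    rw [psi_r, psi_b hr]
  have heG2 : ∀ i j, Idx.Rel i j → e j = s(psi r b c i j r, psi r b c i j c) := by
    intro i j hij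
    rw [psi_r, psi_c hr' hbc]
  refine not_stronglyMaximal_of_conflict e D ?_ ?_ ?_ ?_ ?_ ?_ ?_ F
  · intro i j h
    simp only [e, Sym2.eq_iff] at h
    rcases h with ⟨-, h⟩ | ⟨h, -⟩
    · injection h
    · cases h
  · intro i
    obtain ⟨j, hj | hj⟩ := Idx.exists_conf i
    · rw [heG1 i j hj]; exact psi_adj hj hrb
    · rw [heG2 j i hj]; exact psi_adj hj hrc
  · rintro i j hij t ⟨⟨x, y, hxy, rfl⟩, -⟩
    exact psi_adj hij hxy
  · rintro i k l hkl ⟨⟨x, y, hxy, h⟩, h1, h2⟩
    rcases heq k l x y i h.symm with rfl | rfl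
    · exact h1 rfl
    · exact h2 rfl
  · rintro i j k l t hij hkl ⟨⟨x, y, hxy, rfl⟩, h1, h2⟩ ⟨⟨x', y', hxy', h⟩, h3, h4⟩
    -- the private vertices determine the conflict
    have hw : ∀ x y, H.Adj x y → s(psi r b c i j x, psi r b c i j y) ≠ e i →
        s(psi r b c i j x, psi r b c i j y) ≠ e j →
        (∃ z, psi r b c i j x = .p i j z) ∨ (∃ z, psi r b c i j y = .p i j z) ∨
        (s(psi r b c i j x, psi r b c i j y) = s(.w i, .w j)) := by
      intro x y hxy h1 h2
      rcases hx : psi r b c i j x with _ | m | ⟨m, n, z⟩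
      · rcases hy : psi r b c i j y with _ | m | ⟨m, n, z⟩
        · exact absurd ((psi_eq_u hx).trans (psi_eq_u hy).symm) hxy.ne
        · rcases psi_eq_w hy with ⟨-, h4⟩ | ⟨-, h4⟩
          · exact absurd (by rw [hx, hy, h4]) h1
          · exact absurd (by rw [hx, hy, h4]) h2
        · obtain ⟨h5, h6, -⟩ := psi_eq_p hy
          exact Or.inr (Or.inl ⟨z, by rw [h5, h6]⟩)
      · rcases hy : psi r b c i j y with _ | m' | ⟨m', n, z⟩
        · rcases psi_eq_w hx with ⟨-, h4⟩ | ⟨-, h4⟩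
          · exact absurd (by rw [hx, hy, h4]; exact Sym2.eq_swap) h1
          · exact absurd (by rw [hx, hy, h4]; exact Sym2.eq_swap) h2
        · right; right
          rcases psi_eq_w hx with ⟨h3, h4⟩ | ⟨h3, h4⟩ <;>
            rcases psi_eq_w hy with ⟨h5, h6⟩ | ⟨h5, h6⟩
          · exact absurd (h3.trans h5.symm) hxy.ne
          · rw [h4, h6]
          · rw [h4, h6]; exact Sym2.eq_swap
          · exact absurd (h3.trans h5.symm) hxy.ne
        · obtain ⟨h5, h6, -⟩ := psi_eq_p hy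
          exact Or.inr (Or.inl ⟨z, by rw [h5, h6]⟩)
      · obtain ⟨h5, h6, -⟩ := psi_eq_p hx
        exact Or.inl ⟨z, by rw [h5, h6]⟩
    rcases hw x y hxy h1 h2 with ⟨z, hz⟩ | ⟨z, hz⟩ | hz
    · rw [hz, Sym2.eq_iff] at h
      rcases h with ⟨h, -⟩ | ⟨h, -⟩
      · obtain ⟨h5, h6, -⟩ := psi_eq_p h.symm
        exact ⟨h5.symm, h6.symm⟩
      · obtain ⟨h5, h6, -⟩ := psi_eq_p h.symm
        exact ⟨h5.symm, h6.symm⟩
    · rw [hz, Sym2.eq_iff] at h
      rcases h with ⟨-, h⟩ | ⟨-, h⟩
      · obtain ⟨h5, h6, -⟩ := psi_eq_p h.symm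
        exact ⟨h5.symm, h6.symm⟩
      · obtain ⟨h5, h6, -⟩ := psi_eq_p h.symm
        exact ⟨h5.symm, h6.symm⟩
    · rw [hz] at h
      rw [Sym2.eq_iff] at h
      have hij' := hij.ne
      rcases h with ⟨h5, h6⟩ | ⟨h5, h6⟩
      · rcases psi_eq_w h5.symm with ⟨h7, h8⟩ | ⟨h7, h8⟩ <;>
          rcases psi_eq_w h6.symm with ⟨h9, h10⟩ | ⟨h9, h10⟩
        · exact absurd (h8.trans h10.symm) hij'
        · exact ⟨h8, h10⟩
        · rw [h8, h10] at hij
          exact absurd hij hkl.asymm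
        · exact absurd (h8.trans h10.symm) hij'
      · rcases psi_eq_w h5.symm with ⟨h7, h8⟩ | ⟨h7, h8⟩ <;>
          rcases psi_eq_w h6.symm with ⟨h9, h10⟩ | ⟨h9, h10⟩
        · exact absurd (h8.trans h10.symm) hij'
        · exact ⟨h8, h10⟩
        · rw [h8, h10] at hij
          exact absurd hij hkl.asymm
        · exact absurd (h8.trans h10.symm) hij'
  · intro i j hij
    rw [not_hFree_iff]
    refine ⟨psi r b c i j, psi_injective hij.ne, fun x y hxy => ?_⟩
    by_cases h1 : s(psi r b c i j x, psi r b c i j y) = e i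
    · right; left; exact h1
    · by_cases h2 : s(psi r b c i j x, psi r b c i j y) = e j
      · right; right; exact h2
      · left; exact ⟨⟨x, y, hxy, rfl⟩, h1, h2⟩
  · intro F hFG hF
    obtain ⟨f, hf, hfF⟩ := not_hFree_iff.1 hF
    obtain ⟨i, j, hij, hpl⟩ := hplan f hf (fun x y hxy => hFG (hfF x y hxy))
    choose σ hσ using hpl
    have hσi : Function.Injective σ := fun x y h => hf (by rw [hσ, hσ, h])
    have hσa : ∀ x y, H.Adj x y → H.Adj (σ x) (σ y) := by
      intro x y hxy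
      rw [← psi_adj_iff hrb hrc hbc hij, ← hσ, ← hσ]
      exact hFG (hfF x y hxy)
    -- `σ` is a bijection on edges
    let τ : H.edgeSet → H.edgeSet := fun t => ⟨Sym2.map σ t.1, by
      obtain ⟨t, ht⟩ := t
      induction t with
      | _ x y => exact hσa x y ht⟩
    have hτ : Function.Injective τ := by
      intro t t' h
      exact Subtype.ext (Sym2.map.injective hσi (congrArg Subtype.val h))
    have hτs : Function.Surjective τ := Finite.surjective_of_injective hτ
    have hall : ∀ x y, H.Adj x y → s(psi r b c i j x, psi r b c i j y) ∈ F := by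
      intro x y hxy
      obtain ⟨⟨t, ht⟩, h⟩ := hτs ⟨s(x, y), hxy⟩
      induction t with
      | _ a a' =>
        have h' : s(σ a, σ a') = s(x, y) := congrArg Subtype.val h
        have h2 := hfF a a' ht
        rw [hσ, hσ] at h2
        rw [Sym2.eq_iff] at h'
        rcases h' with ⟨h3, h4⟩ | ⟨h3, h4⟩
        · rw [← h3, ← h4]; exact h2
        · rw [← h3, ← h4, Sym2.eq_swap]; exact h2
    refine ⟨i, j, hij, ?_, ?_, ?_⟩
    · rintro t ⟨⟨x, y, hxy, rfl⟩, -⟩
      exact hall x y hxy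
    · rw [heG1 i j hij]; exact hall r b hrb
    · rw [heG2 i j hij]; exact hall r c hrc

end Apex

end Pool.Agent.StrongMax
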