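import Pool.Agent.Lib.StrongMax.Disconnected

/-!
# Reduction of the whole question to connected graphs of minimum degree at least two (helper42)
-/

namespace Pool.Agent.StrongMax

open Cardinal

universe u v w

theorem overFin_iso {W : Type v} [Finite W] (H : SimpleGraph W) :
    ∃ (H' : SimpleGraph (Fin (Nat.card W))), Nonempty (H ≃g H') := by
  let e : W ≃ Fin (Nat.card W) := Finite.equivFin W
  exact ⟨H.comap e.symm, ⟨⟨e, by
    intro a b
    simp [SimpleGraph.comap_adj]⟩⟩⟩

/-- Two disjoint edges in a graph whose edges have no common vertex and which has no two adjacent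
vertices of degree at least two. -/
theorem two_disjoint {W : Type v} {H : SimpleGraph W} (hne : Nonempty W)
    (hstar : ¬ ∃ z, ∀ a b, H.Adj a b → a = z ∨ b = z)
    (hno : ∀ x ∈ coreSet H, ∀ y ∈ coreSet H, ¬ H.Adj x y) :
    ∃ a b c d, H.Adj a b ∧ H.Adj c d ∧ a ≠ c ∧ a ≠ d ∧ b ≠ c ∧ b ≠ d := by
  by_contra hcon
  push Not at hcon
  apply hstar
  by_cases hE : ∃ a b, H.Adj a b
  · obtain ⟨a, b, hab⟩ := hE
    -- one of `a`, `b` is not in the core
    have key : ∀ a b, H.Adj a b → a ∉ coreSet H → ∃ z, ∀ a b, H.Adj a b → a = z ∨ b = z := by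
      intro a b hab ha
      have ha' : ∀ c, H.Adj a c → c = b := by
        intro c hc
        by_contra h
        exact ha ⟨c, b, h, hc, hab⟩
      refine ⟨b, fun c d hcd => ?_⟩
      by_contra h
      push Not at h
      have h1 : a ≠ c := by
        rintro rfl
        exact h.2 (ha' d hcd)
      have h2 : a ≠ d := by
        rintro rfl
        exact h.1 (ha' c hcd.symm)
      exact h.2.symm (hcon a b c d hab hcd h1 h2 h.1.symm)
    by_cases ha : a ∈ coreSet H
    · exact key b a hab.symm (fun hb => hno a ha b hb hab)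
    · exact key a b hab ha
  · push Not at hE
    obtain ⟨z⟩ := hne
    exact ⟨z, fun a b h => absurd h (hE a b)⟩

theorem coreSet_supp {W : Type v} {H : SimpleGraph W} (C : H.ConnectedComponent) (x : C.supp)
    (hx : x.1 ∈ coreSet H) : x ∈ coreSet (H.induce C.supp) := by
  obtain ⟨y, z, hyz, hy, hz⟩ := hx
  have h : ∀ y, H.Adj x.1 y → y ∈ C.supp := by
    intro y hy
    have h1 : H.connectedComponentMk x.1 = H.connectedComponentMk y :=
      SimpleGraph.ConnectedComponent.eq.2 hy.reachable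
    show H.connectedComponentMk y = C
    rw [← h1]; exact x.2
  exact ⟨⟨y, h y hy⟩, ⟨z, h z hz⟩, fun h' => hyz (congrArg Subtype.val h'), hy, hz⟩

/-- **Reduction.** If all connected induced subgraphs of minimum degree at least two of a finite
graph `H` fail, and the edges of `H` do not have a common vertex, then `H` fails. -/
theorem fails_of_cyclic_aux {W : Type} [Finite W] {H : SimpleGraph W}
    (hstar : ¬ ∃ z, ∀ a b, H.Adj a b → a = z ∨ b = z)
    (hcyc : ∀ S : Set W, (H.induce S).Connected → (∀ x, x ∈ coreSet (H.induce S)) →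
      Fails.{0} (H.induce S)) : Fails.{0} H := by
  classical
  rcases isEmpty_or_nonempty W with hW | hW
  · refine ⟨Unit, ⊥, fun F hF => ?_⟩
    exact hFree_iff.1 hF.2.1 (fun w => (hW.false w).elim) (fun a => (hW.false a).elim)
      (fun a => (hW.false a).elim)
  by_cases hno : ∀ x ∈ coreSet H, ∀ y ∈ coreSet H, ¬ H.Adj x y
  · exact starForest_fails hno (two_disjoint hW hstar hno)
  push Not at hno
  obtain ⟨x₀, hx₀, y₀, hy₀, hxy₀⟩ := hno
  let 𝒩 : Set H.ConnectedComponent :=
    {K | ∃ x ∈ K.supp, ∃ y ∈ K.supp, x ∈ coreSet H ∧ y ∈ coreSet H ∧ H.Adj x y}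
  have hadjc : ∀ a b, H.Adj a b → H.connectedComponentMk a = H.connectedComponentMk b :=
    fun a b h => SimpleGraph.ConnectedComponent.eq.2 h.reachable
  have hne : H.connectedComponentMk x₀ ∈ 𝒩 :=
    ⟨x₀, rfl, y₀, (hadjc _ _ hxy₀).symm, hx₀, hy₀, hxy₀⟩
  have hfin : Finite H.ConnectedComponent := Quot.finite _
  obtain ⟨C, hC, hCmax⟩ := Set.exists_max_image 𝒩
    (fun K => ({D : H.ConnectedComponent | Emb H D.supp K.supp}).ncard) (Set.toFinite _) ⟨_, hne⟩
  have hup : ∀ D : H.ConnectedComponent, Emb H C.supp D.supp → D ∈ 𝒩 := by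
    rintro D ⟨f, hf, hfD, hfa⟩
    obtain ⟨x, hx, y, hy, hxc, hyc, hxy⟩ := hC
    have h : ∀ x (hx : x ∈ C.supp), x ∈ coreSet H → f ⟨x, hx⟩ ∈ coreSet H := by
      intro x hx hxc
      obtain ⟨y, z, hyz, hy, hz⟩ := hxc
      have hyC : y ∈ C.supp := by
        show H.connectedComponentMk y = C
        rw [← hadjc x y hy]; exact hx
      have hzC : z ∈ C.supp := by
        show H.connectedComponentMk z = C
        rw [← hadjc x z hz]; exact hx
      refine ⟨f ⟨y, hyC⟩, f ⟨z, hzC⟩, fun h => hyz ?_, hfa ⟨x, hx⟩ ⟨y, hyC⟩ hy,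
        hfa ⟨x, hx⟩ ⟨z, hzC⟩ hz⟩
      exact congrArg Subtype.val (hf h)
    exact ⟨f ⟨x, hx⟩, hfD _, f ⟨y, hy⟩, hfD _, h x hx hxc, h y hy hyc, hfa ⟨x, hx⟩ ⟨y, hy⟩ hxy⟩
  have hmax : ∀ D : H.ConnectedComponent, Emb H C.supp D.supp → Emb H D.supp C.supp := by
    intro D hD
    have h1 := hCmax D (hup D hD)
    have h2 : {D' : H.ConnectedComponent | Emb H D'.supp C.supp} ⊆
        {D' : H.ConnectedComponent | Emb H D'.supp D.supp} := fun D' hD' => Emb.trans hD' hD
    have h3 := Set.eq_of_subset_of_ncard_le h2 h1 (Set.toFinite _)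
    have h4 : D ∈ {D' : H.ConnectedComponent | Emb H D'.supp D.supp} := Emb.refl H _
    rw [← h3] at h4
    exact h4
  obtain ⟨x, hx, y, hy, hxc, hyc, hxy⟩ := hC
  refine Fails.of_component C hmax ⟨x, hx, y, hy, hxy⟩ ?_
  refine reduction _ C.supp (H.induce C.supp) rfl
    (by exact C.connected_toSimpleGraph) ?_ ?_
  · exact ⟨⟨x, hx⟩, coreSet_supp C ⟨x, hx⟩ hxc, ⟨y, hy⟩, coreSet_supp C ⟨y, hy⟩ hyc, hxy⟩
  · intro T hT1 hT2
    let e := induceInduce H C.supp T
    refine Fails.of_iso e.symm (hcyc _ (e.connected_iff.1 hT1) ?_)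
    intro x
    have h := mem_coreSet_iso e (hT2 (e.symm x))
    rwa [e.apply_symm_apply] at h

/-- **Reduction.** If all connected induced subgraphs of minimum degree at least two of a finite
graph `H` fail, and the edges of `H` do not have a common vertex, then `H` fails. -/
theorem fails_of_cyclic {W : Type v} [Finite W] {H : SimpleGraph W}
    (hstar : ¬ ∃ z, ∀ a b, H.Adj a b → a = z ∨ b = z)
    (hcyc : ∀ S : Set W, (H.induce S).Connected → (∀ x, x ∈ coreSet (H.induce S)) →
      Fails.{0} (H.induce S)) : Fails.{0} H := by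
  obtain ⟨H', ⟨e⟩⟩ := overFin_iso H
  refine Fails.of_iso e.symm (fails_of_cyclic_aux ?_ ?_)
  · rintro ⟨z, hz⟩
    refine hstar ⟨e.symm z, fun a b hab => ?_⟩
    rcases hz (e a) (e b) (e.map_adj_iff.2 hab) with h | h
    · left; rw [← h]; exact (e.symm_apply_apply a).symm
    · right; rw [← h]; exact (e.symm_apply_apply b).symm
  · intro S hS1 hS2
    let e' : H.induce (e ⁻¹' S) ≃g H'.induce S :=
      { toFun := fun x => ⟨e x.1, x.2⟩
        invFun := fun x => ⟨e.symm x.1, by
          show e (e.symm x.1) ∈ S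
          rw [e.apply_symm_apply]; exact x.2⟩
        left_inv := fun x => Subtype.ext (e.symm_apply_apply x.1)
        right_inv := fun x => Subtype.ext (e.apply_symm_apply x.1)
        map_rel_iff' := by
          intro a b
          exact e.map_adj_iff }
    refine Fails.of_iso e' (hcyc _ (e'.connected_iff.2 hS1) ?_)
    intro x
    have h := mem_coreSet_iso e'.symm (hS2 (e' x))
    rwa [e'.symm_apply_apply] at h

/-- Finite forests whose edges have no common vertex fail. -/
theorem forest_fails {W : Type v} [Finite W] {H : SimpleGraph W} (hT : H.IsAcyclic)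
    (hstar : ¬ ∃ z, ∀ a b, H.Adj a b → a = z ∨ b = z) : Fails.{0} H := by
  classical
  refine fails_of_cyclic hstar (fun S hS hS2 => ?_)
  exfalso
  have := Fintype.ofFinite S
  have hac : (H.induce S).IsTree := ⟨hS, hT.induce S⟩
  obtain ⟨x⟩ := hS.nonempty
  obtain ⟨y, z, hyz, _⟩ := hS2 x
  have : Nontrivial S := ⟨y, z, hyz⟩
  obtain ⟨v, hv⟩ := hac.exists_vert_degree_one_of_nontrivial
  obtain ⟨a, b, hab, ha, hb⟩ := hS2 v
  rw [← SimpleGraph.card_neighborFinset_eq_degree, Finset.card_eq_one] at hv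
  obtain ⟨c, hc⟩ := hv
  have h1 : a ∈ ({c} : Finset S) := hc ▸ (SimpleGraph.mem_neighborFinset _ _ _).2 ha
  have h2 : b ∈ ({c} : Finset S) := hc ▸ (SimpleGraph.mem_neighborFinset _ _ _).2 hb
  rw [Finset.mem_singleton] at h1 h2
  exact hab (h1.trans h2.symm)

end Pool.Agent.StrongMax
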