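import Pool.Agent.Lib.StrongMax.Cycle

/-!
# Closed and rigid vertex sets: definitions (helper9)
-/

namespace Pool.Agent.StrongMax

variable {W : Type}

/-- `φ` embeds the subgraph of `H` formed by the edges meeting `C` into `H`, with `C` mapped into
`L` and the other ends mapped outside `L`. -/
structure PEmb (H : SimpleGraph W) (L C : Set W) (φ : W → W) : Prop where
  mem : ∀ a ∈ C, φ a ∈ L
  adj : ∀ a ∈ C, ∀ b, H.Adj a b → H.Adj (φ a) (φ b)
  out : ∀ a ∈ C, ∀ b, H.Adj a b → b ∉ C → φ b ∉ L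
  inj : Set.InjOn φ {x | x ∈ C ∨ ∃ a ∈ C, H.Adj a x}

/-- `L` is closed: the domain of such an embedding into `L` is contained in `L`. -/
def IsClosedSet (H : SimpleGraph W) (L : Set W) : Prop :=
  ∀ C φ, PEmb H L C φ → C ⊆ L

/-- `L` is rigid: the domain of such an embedding into `L` is a union of components of `H[L]`
and the embedding is locally bijective there. -/
structure Rigid (H : SimpleGraph W) (L : Set W) : Prop where
  sub : ∀ C φ, PEmb H L C φ → C ⊆ L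
  closed : ∀ C φ, PEmb H L C φ → ∀ a ∈ C, ∀ b ∈ L, H.Adj a b → b ∈ C
  surj : ∀ C φ, PEmb H L C φ → ∀ a ∈ C, ∀ y, H.Adj (φ a) y → ∃ b, H.Adj a b ∧ φ b = y

theorem Rigid.isClosedSet {H : SimpleGraph W} {L : Set W} (h : Rigid H L) : IsClosedSet H L :=
  h.sub

/-- All edges outside `S` contain `s`. -/
def Star (H : SimpleGraph W) (S : Set W) (s : W) : Prop :=
  ∀ a b, H.Adj a b → a ∉ S → b ∉ S → a = s ∨ b = s

/-- The minimality condition: the complement of each nonempty closed set is a star. -/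
def MC (H : SimpleGraph W) : Prop :=
  ∀ L : Set W, L.Nonempty → IsClosedSet H L → ∃ t, Star H L t

/-- Reachability inside `L`. -/
def Lr (H : SimpleGraph W) (L : Set W) (x y : W) : Prop :=
  Relation.ReflTransGen (fun a b => H.Adj a b ∧ b ∈ L) x y

/-- `z` is a boundary vertex of the component of `x` in `H[L]` (for `x ∈ L`). -/
def bdr (H : SimpleGraph W) (L : Set W) (x z : W) : Prop :=
  ∃ y, Lr H L x y ∧ H.Adj y z ∧ z ∉ L

/-- The vertices of the components of `H[L]` attached to `s` and `n` only. -/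
def SOn (H : SimpleGraph W) (L : Set W) (s n : W) : Set W :=
  {y | y ∈ L ∧ ∀ z, bdr H L y z → z = s ∨ z = n}

/-- The escape condition for the apex host at `s` with terminals `n₁`, `n₂`. -/
def Esc (H : SimpleGraph W) (L : Set W) (s n₁ n₂ : W) : Prop :=
  ∀ (U : Set W) (g : W → W), Set.InjOn g U → s ∈ U → g s = s →
    (∀ x ∈ U, x ∉ SOn H L s n₁ ∧ x ∉ SOn H L s n₂) →
    (∀ x ∈ U, x ∈ L → g x ∈ L ∧ (∀ y, H.Adj x y → y ∈ U ∧ H.Adj (g x) (g y)) ∧
      ∀ b, H.Adj (g x) b → ∃ y, H.Adj x y ∧ g y = b) →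
    (∀ x ∈ U, x ∉ L → x ≠ s → g x ∉ L ∧ g x ≠ s) →
    (∀ x ∈ U, x ∉ L → x ≠ s → x ≠ n₁ → x ≠ n₂ →
      ∀ b, H.Adj (g x) b → ∃ y ∈ U, H.Adj x y ∧ g y = b) →
    (∃ x ∈ U, x ≠ s ∧ x ≠ n₁ ∧ x ≠ n₂) → n₁ ∈ U ∧ n₂ ∈ U

end Pool.Agent.StrongMax
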