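import Pool.Agent.Lib.StrongMax.PagesA
import Pool.Agent.Lib.StrongMax.N2Defs

/-!
# Fragments and atoms of order two: definitions (helper9)
-/

namespace Pool.Agent.StrongMax

variable {W : Type}

/-- A set with at most two boundary vertices which is not everything. -/
structure IsFrag2 (H : SimpleGraph W) (D : Set W) : Prop where
  ne : D.Nonempty
  bd2 : (bd H D).ncard ≤ 2
  out : ∃ z, z ∉ D ∧ z ∉ bd H D

/-- The ordered edges meeting `D`. -/
def marcs (H : SimpleGraph W) (D : Set W) : Set (W × W) :=
  {p | H.Adj p.1 p.2 ∧ (p.1 ∈ D ∨ p.2 ∈ D)}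

/-- A fragment with the minimum number of vertices and, among these, the minimum number of edges
meeting it. -/
structure IsAtom2 (H : SimpleGraph W) (D : Set W) : Prop where
  frag : IsFrag2 H D
  min : ∀ D', IsFrag2 H D' → D.ncard ≤ D'.ncard
  mine : ∀ D', IsFrag2 H D' → D'.ncard = D.ncard → (marcs H D).ncard ≤ (marcs H D').ncard

/-- The union of the atoms. -/
def atomSet (H : SimpleGraph W) : Set W := {x | ∃ D, IsAtom2 H D ∧ x ∈ D}

end Pool.Agent.StrongMax
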