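import Pool.Agent.Lib.StrongMax.PagesA

/-!
# Connected sets (helper18)
-/

namespace Pool.Agent.StrongMax

variable {W : Type} {H : SimpleGraph W}

/-- Reachability inside a set. -/
theorem connIn_of_reach (H : SimpleGraph W) (I : Set W) (t : W) :
    ConnIn H {w | ∃ p : H.Walk t w, ∀ z ∈ p.support, z ∈ I} := by
  have key : ∀ w, w ∈ {w | ∃ p : H.Walk t w, ∀ z ∈ p.support, z ∈ I} → ∃ p : H.Walk t w,
      ∀ z ∈ p.support, z ∈ {w | ∃ p : H.Walk t w, ∀ z ∈ p.support, z ∈ I} := by
    classical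
    rintro w ⟨p, hp⟩
    refine ⟨p, fun z hz => ⟨p.takeUntil z hz, fun z' hz' => hp z' ?_⟩⟩
    exact p.support_takeUntil_subset_support hz hz'
  intro x hx y hy
  obtain ⟨p, hp⟩ := key x hx
  obtain ⟨q, hq⟩ := key y hy
  refine ⟨p.reverse.append q, fun z hz => ?_⟩
  rw [SimpleGraph.Walk.mem_support_append_iff, SimpleGraph.Walk.support_reverse, List.mem_reverse] at hz
  rcases hz with hz | hz
  · exact hp z hz
  · exact hq z hz

theorem ConnIn.closed {E : Set W} (hE : ConnIn H E) {x y : W} (hx : x ∈ E) (hy : y ∈ E) (C : Set W)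
    (hxC : x ∈ C) (hC : ∀ w ∈ C, w ∈ E → ∀ w' ∈ E, H.Adj w w' → w' ∈ C) : y ∈ C := by
  obtain ⟨p, hp⟩ := hE x hx y hy
  clear hy
  induction p with
  | nil => exact hxC
  | @cons a b c hab p ih =>
    have hb : b ∈ E := hp b (by
      rw [SimpleGraph.Walk.support_cons, List.mem_cons]
      exact Or.inr p.start_mem_support)
    exact ih hb (hC a hxC hx b hb hab) (fun z hz => hp z (by
      rw [SimpleGraph.Walk.support_cons, List.mem_cons]
      exact Or.inr hz))

end Pool.Agent.StrongMax
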