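import Pool.Agent.Lib.StrongMax.Apex

/-!
# 3-connected non-complete graphs fail (helper18)
-/

namespace Pool.Agent.StrongMax

open Cardinal

universe v

section Del

variable {W : Type v} (H : SimpleGraph W)

/-- The graph `H` without the edges at `v`. -/
def del (v : W) : SimpleGraph W where
  Adj x y := H.Adj x y ∧ x ≠ v ∧ y ≠ v
  symm := ⟨fun _ _ h => ⟨h.1.symm, h.2.2, h.2.1⟩⟩
  loopless := ⟨fun _ h => h.1.ne rfl⟩

/-- No two vertices separate the graph. -/
def Conn3 : Prop :=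
  ∀ P S : Set W, S.encard ≤ 2 → (P \ S).Nonempty → ((P ∪ S)ᶜ).Nonempty →
    ∃ x ∈ P \ S, ∃ y ∈ (P ∪ S)ᶜ, H.Adj x y

variable {H}

theorem Conn3.del_reachable (h3 : Conn3 H) {v x y : W} (hx : x ≠ v) (hy : y ≠ v) :
    (del H v).Reachable x y := by
  by_contra hn
  obtain ⟨a, ⟨ha, hav⟩, b, hb, hab⟩ := h3 {z | (del H v).Reachable x z} {v}
    (by rw [Set.encard_singleton]; norm_num) ⟨x, SimpleGraph.Reachable.refl _, hx⟩
    ⟨y, by simpa [hy] using hn⟩
  rw [Set.mem_compl_iff, Set.mem_union, not_or] at hb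
  have hadj : (del H v).Adj a b := ⟨hab, hav, hb.2⟩
  exact hb.1 ((show (del H v).Reachable x a from ha).trans hadj.reachable)

/-- A function which is 1-Lipschitz along the edges is 1-Lipschitz. -/
theorem lipschitz_walk {G : SimpleGraph W} {g : W → ℤ} (hg : ∀ x y, G.Adj x y → g y ≤ g x + 1)
    {x y : W} (p : G.Walk x y) : g y ≤ g x + p.length := by
  induction p with
  | nil => simp
  | cons h p ih =>
    have := hg _ _ h
    rw [SimpleGraph.Walk.length_cons]
    push_cast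
    omega

theorem lipschitz_dist {G : SimpleGraph W} {g : W → ℤ} (hg : ∀ x y, G.Adj x y → g y ≤ g x + 1)
    {x y : W} (h : G.Reachable x y) : g y ≤ g x + G.dist x y := by
  obtain ⟨p, hp⟩ := h.exists_walk_length_eq_dist
  have := lipschitz_walk hg p
  rwa [hp] at this

end Del

section ThreeConn

variable {W : Type v} {H : SimpleGraph W} {r b c : W}

theorem apex_adj_p {i j : Idx} {x : W} {a : HV W} (h : (apexHost H r b c).Adj (.p i j x) a) :
    Idx.Rel i j ∧ ∃ y, a = psi r b c i j y := by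
  obtain ⟨hne, k, l, x', y', hkl, hxy, h1, h2⟩ := h
  obtain ⟨h3, h4, h5, -⟩ := psi_eq_p h1.symm
  subst h3; subst h4
  exact ⟨hkl, y', h2⟩

theorem apex_adj_w (hbc : ¬ H.Adj b c) {i : Idx} {a : HV W}
    (h : (apexHost H r b c).Adj (.w i) a) :
    a = .u ∨ ∃ k l z, Idx.Rel k l ∧ (i = k ∨ i = l) ∧ a = .p k l z := by
  obtain ⟨hne, k, l, x', y', hkl, hxy, h1, h2⟩ := h
  rcases hy : psi r b c k l y' with _ | m | ⟨m, n, z⟩
  · exact Or.inl (h2.trans hy)
  · exfalso
    rcases psi_eq_w h1.symm with ⟨h3, h4⟩ | ⟨h3, h4⟩ <;> rcases psi_eq_w hy with ⟨h5, h6⟩ | ⟨h5, h6⟩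
    · exact hxy.ne (h3.trans h5.symm)
    · rw [h3, h5] at hxy; exact hbc hxy
    · rw [h3, h5] at hxy; exact hbc hxy.symm
    · exact hxy.ne (h3.trans h5.symm)
  · right
    obtain ⟨h5, h6, -⟩ := psi_eq_p hy
    refine ⟨m, n, z, h5 ▸ h6 ▸ hkl, ?_, h2.trans hy⟩
    rcases psi_eq_w h1.symm with ⟨h3, h4⟩ | ⟨h3, h4⟩
    · left; rw [h4, h5]
    · right; rw [h4, h6]

theorem encard_preimage_pair_le {V : Type v} {f : W → V} (hf : Function.Injective f) (a a' : V) :
    (f ⁻¹' {a, a'}).encard ≤ 2 := by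
  have h1 : (f ⁻¹' {a, a'}).encard ≤ ({a, a'} : Set V).encard := by
    rw [← hf.encard_image]
    exact Set.encard_le_encard (Set.image_preimage_subset f _)
  refine h1.trans ?_
  by_cases h : a = a'
  · rw [h, Set.pair_eq_singleton, Set.encard_singleton]; norm_num
  · rw [Set.encard_pair h]

theorem psi_ne_p {i j : Idx} {t : W} (ht : t = r ∨ t = b ∨ t = c) {k l : Idx} {y : W} :
    psi r b c i j t ≠ .p k l y := by
  intro h
  obtain ⟨-, -, -, h1, h2, h3⟩ := psi_eq_p h
  tauto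

/-- Both sides of a used piece are joined to every terminal. -/
theorem used_piece (h3 : Conn3 H) {f : W → HV W} (hf : Function.Injective f)
    (hfa : ∀ x y, H.Adj x y → (apexHost H r b c).Adj (f x) (f y)) {i j : Idx}
    {x0 z0 : W} (hx0 : f x0 = psi r b c i j z0) (hx0' : f x0 = .p i j z0)
    {y0 : W} (hy0 : ∀ y, f y0 ≠ psi r b c i j y)
    (t : W) (ht : t = r ∨ t = b ∨ t = c) :
    (∃ x y, H.Adj x y ∧ f x = psi r b c i j t ∧ ∀ z, f y ≠ psi r b c i j z) ∧
    (∃ x y z, H.Adj x y ∧ f x = psi r b c i j t ∧ f y = psi r b c i j z ∧ f y = .p i j z) := by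
  -- the two other terminals
  obtain ⟨t1, t2, ht1, ht2, hall⟩ : ∃ t1 t2 : W, (t1 = r ∨ t1 = b ∨ t1 = c) ∧
      (t2 = r ∨ t2 = b ∨ t2 = c) ∧ ∀ z, z = r ∨ z = b ∨ z = c → z = t ∨ z = t1 ∨ z = t2 := by
    rcases ht with rfl | rfl | rfl
    · exact ⟨b, c, by tauto, by tauto, fun z hz => hz⟩
    · exact ⟨r, c, by tauto, by tauto, fun z hz => by tauto⟩
    · exact ⟨r, b, by tauto, by tauto, fun z hz => by tauto⟩
  have hterm : ∀ z, z ≠ t → z ≠ t1 → z ≠ t2 → psi r b c i j z = .p i j z := by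
    intro z h1 h2 h3
    refine psi_p ?_ ?_ ?_ i j
    all_goals
      intro h
      rcases hall z (by tauto) with h | h | h <;> contradiction
  let S : Set W := f ⁻¹' {psi r b c i j t1, psi r b c i j t2}
  have hS : S.encard ≤ 2 := encard_preimage_pair_le hf _ _
  have hx0S : x0 ∉ S := by
    rintro (h | h)
    · exact psi_ne_p ht1 (h.symm.trans hx0')
    · exact psi_ne_p ht2 (h.symm.trans hx0')
  have hy0S : y0 ∉ S := by
    rintro (h | h)
    · exact hy0 _ h
    · exact hy0 _ h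
  have hS1 : ∀ y, y ∉ S → f y ≠ psi r b c i j t1 := fun y hy h => hy (Or.inl h)
  have hS2 : ∀ y, y ∉ S → f y ≠ psi r b c i j t2 := fun y hy h => hy (Or.inr h)
  have key : ∀ y z, y ∉ S → f y = psi r b c i j z → f y = psi r b c i j t ∨ f y = .p i j z := by
    intro y z hy h
    by_cases h1 : z = t
    · left; rw [h, h1]
    · by_cases h2 : z = t1
      · exact absurd (by rw [h, h2]) (hS1 y hy)
      · by_cases h3 : z = t2
        · exact absurd (by rw [h, h3]) (hS2 y hy)
        · right; rw [h]; exact hterm z h1 h2 h3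
  constructor
  · obtain ⟨x, ⟨⟨z, hx⟩, hxS⟩, y, hy, hxy⟩ := h3 {x | ∃ z, f x = psi r b c i j z} S hS
      ⟨x0, ⟨z0, hx0⟩, hx0S⟩ ⟨y0, by
        rintro (⟨z, h⟩ | h)
        · exact hy0 z h
        · exact hy0S h⟩
    rw [Set.mem_compl_iff, Set.mem_union, not_or] at hy
    have hy1 : ∀ z, f y ≠ psi r b c i j z := fun z h => hy.1 ⟨z, h⟩
    rcases key x z hxS hx with h | h
    · exact ⟨x, y, hxy, h, hy1⟩
    · have := hfa x y hxy
      rw [h] at this
      obtain ⟨-, y', hy'⟩ := apex_adj_p this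
      exact absurd hy' (hy1 y')
  · obtain ⟨x, ⟨⟨⟨z, hx⟩, hxt⟩, hxS⟩, y, hy, hxy⟩ :=
      h3 {x | (∃ z, f x = psi r b c i j z) ∧ f x ≠ psi r b c i j t} S hS
      ⟨x0, ⟨⟨z0, hx0⟩, fun h => psi_ne_p ht (h.symm.trans hx0')⟩, hx0S⟩ ⟨y0, by
        rintro (⟨⟨z, h⟩, -⟩ | h)
        · exact hy0 z h
        · exact hy0S h⟩
    rw [Set.mem_compl_iff, Set.mem_union, not_or] at hy
    rcases key x z hxS hx with h | h
    · exact absurd h hxt
    · have := hfa x y hxy
      rw [h] at this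
      obtain ⟨-, y', hy'⟩ := apex_adj_p this
      refine ⟨y, x, z, hxy.symm, ?_, hx, h⟩
      by_contra hn
      exact hy.1 ⟨⟨y', hy'⟩, hn⟩

theorem dist_step (h3 : Conn3 H) {t x y : W} (ht : t ≠ r) (hxy : (del H r).Adj x y) :
    ((del H r).dist t y : ℤ) ≤ (del H r).dist t x + 1 := by
  obtain ⟨p, hp⟩ := (h3.del_reachable ht hxy.2.1).exists_walk_length_eq_dist
  have := SimpleGraph.dist_le (p.concat hxy)
  rw [SimpleGraph.Walk.length_concat, hp] at this
  exact_mod_cast this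

open Classical in
/-- The potential. -/
noncomputable def pot (H : SimpleGraph W) (r b c : W) (k l k' l' : Idx) : HV W → ℤ
  | .u => 0
  | .w a => if a = k ∨ a = l then 0 else (del H r).dist b c
  | .p a a' x => if a = k ∧ a' = l then -1 else if a = k' ∧ a' = l' then (del H r).dist b c + 1
      else if a = k ∨ a = l then min ((del H r).dist b c) ((del H r).dist b x)
      else if a' = k ∨ a' = l then min ((del H r).dist b c) ((del H r).dist c x)
      else (del H r).dist b c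

theorem pot_lipschitz (h3 : Conn3 H) (hrb : r ≠ b) (hrc : r ≠ c) (hbc : b ≠ c) {k l k' l' : Idx}
    (hkl : Idx.Rel k l) (hkl' : Idx.Rel k' l') (h1 : k ≠ k') (h2 : k ≠ l') (h4 : l ≠ k')
    (h5 : l ≠ l') {a a' : HV W} (ha : a ≠ .u) (ha' : a' ≠ .u)
    (h : (apexHost H r b c).Adj a a') : pot H r b c k l k' l' a' ≤ pot H r b c k l k' l' a + 1 := by
  obtain ⟨hne, i, j, x, y, hij, hxy, rfl, rfl⟩ := h
  have hxr : x ≠ r := fun h => ha (by rw [h, psi_r])
  have hyr : y ≠ r := fun h => ha' (by rw [h, psi_r])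
  have hd : (del H r).Adj x y := ⟨hxy, hxr, hyr⟩
  have hM : (0 : ℤ) ≤ (del H r).dist b c := by positivity
  by_cases c1 : i = k ∧ j = l
  · obtain ⟨rfl, rfl⟩ := c1
    have key : ∀ z, z ≠ r → pot H r b c i j k' l' (psi r b c i j z) = 0 ∨
        pot H r b c i j k' l' (psi r b c i j z) = -1 := by
      intro z hz
      unfold psi
      rw [if_neg hz]
      split_ifs
      · left; simp [pot]
      · left; simp [pot]
      · right; simp [pot]
    rcases key x hxr with h | h <;> rcases key y hyr with h' | h' <;> rw [h, h'] <;> norm_num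
  by_cases c2 : i = k' ∧ j = l'
  · obtain ⟨rfl, rfl⟩ := c2
    have key : ∀ z, z ≠ r → pot H r b c k l i j (psi r b c i j z) = (del H r).dist b c ∨
        pot H r b c k l i j (psi r b c i j z) = (del H r).dist b c + 1 := by
      intro z hz
      unfold psi
      rw [if_neg hz]
      split_ifs
      · left; simp [pot, h1.symm, h4.symm]
      · left; simp [pot, h2.symm, h5.symm]
      · right; simp [pot, h1.symm]
    rcases key x hxr with h | h <;> rcases key y hyr with h' | h' <;> rw [h, h'] <;> omega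
  by_cases c3 : i = k ∨ i = l
  · have hj : ¬ (j = k ∨ j = l) := by
      rintro (rfl | rfl)
      · rcases c3 with rfl | rfl
        · exact hij.ne rfl
        · exact hij.asymm hkl
      · rcases c3 with rfl | rfl
        · exact c1 ⟨rfl, rfl⟩
        · exact hij.ne rfl
    have key : ∀ z, z ≠ r → pot H r b c k l k' l' (psi r b c i j z) =
        min ((del H r).dist b c : ℤ) ((del H r).dist b z) := by
      intro z hz
      unfold psi
      rw [if_neg hz]
      split_ifs with e1 e2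
      · subst e1; simp [pot, c3]
      · subst e2; simp [pot, hj]
      · simp only [pot, if_neg c1, if_neg c2, if_pos c3]
    rw [key x hxr, key y hyr]
    have := dist_step h3 hrb.symm hd
    omega
  by_cases c4 : j = k ∨ j = l
  · have key : ∀ z, z ≠ r → pot H r b c k l k' l' (psi r b c i j z) =
        min ((del H r).dist b c : ℤ) ((del H r).dist c z) := by
      intro z hz
      unfold psi
      rw [if_neg hz]
      split_ifs with e1 e2
      · subst e1; simp [pot, c3, SimpleGraph.dist_comm]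
      · subst e2; simp [pot, c4]
      · simp only [pot, if_neg c1, if_neg c2, if_neg c3, if_pos c4]
    rw [key x hxr, key y hyr]
    have := dist_step h3 hrc.symm hd
    omega
  · have key : ∀ z, z ≠ r → pot H r b c k l k' l' (psi r b c i j z) = (del H r).dist b c := by
      intro z hz
      unfold psi
      rw [if_neg hz]
      split_ifs with e1 e2
      · simp only [pot, if_neg c3]
      · simp only [pot, if_neg c4]
      · simp only [pot, if_neg c1, if_neg c2, if_neg c3, if_neg c4]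
    rw [key x hxr, key y hyr]
    omega

theorem conn3_plan (h3 : Conn3 H) (hcard : ∀ x y : W, ∃ z, z ≠ x ∧ z ≠ y)
    (hrb : H.Adj r b) (hrc : H.Adj r c) (hbc : b ≠ c) (hbc' : ¬ H.Adj b c)
    (hmax : ∀ v y1 y2, H.Adj v y1 → H.Adj v y2 → (del H v).dist y1 y2 ≤ (del H r).dist b c)
    {f : W → HV W} (hf : Function.Injective f)
    (hfa : ∀ x y, H.Adj x y → (apexHost H r b c).Adj (f x) (f y)) :
    ∃ i j, Idx.Rel i j ∧ ∀ x, ∃ y, f x = psi r b c i j y := by
  by_contra hcon
  push Not at hcon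
  -- any used piece leads to two further pieces
  have hfar : ∀ k l, Idx.Rel k l → ∀ k' l', Idx.Rel k' l' → k ≠ k' → k ≠ l' → l ≠ k' → l ≠ l' →
      (∃ x z, f x = psi r b c k l z ∧ f x = .p k l z) →
      (∃ x z, f x = psi r b c k' l' z ∧ f x = .p k' l' z) → False := by
    rintro k l hkl k' l' hkl' g1 g2 g3 g4 ⟨x, z, hx, hx'⟩ ⟨x', z', hx1, hx1'⟩
    obtain ⟨y0, hy0⟩ := hcon k l hkl
    obtain ⟨y0', hy0'⟩ := hcon k' l' hkl'
    obtain ⟨u1, y1, z1, hu1, hu1', -, hy1⟩ :=
      (used_piece h3 hf hfa hx hx' hy0 r (Or.inl rfl)).2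
    obtain ⟨u2, y2, z2, hu2, hu2', -, hy2⟩ :=
      (used_piece h3 hf hfa hx1 hx1' hy0' r (Or.inl rfl)).2
    rw [psi_r] at hu1' hu2'
    have huu : u1 = u2 := hf (hu1'.trans hu2'.symm)
    subst huu
    have hlip := lipschitz_dist (G := del H u1) (g := fun x => pot H r b c k l k' l' (f x))
      (fun x y hxy => pot_lipschitz h3 hrb.ne hrc.ne hbc hkl hkl' g1 g2 g3 g4
        (fun h => hxy.2.1 (hf (h.trans hu1'.symm))) (fun h => hxy.2.2 (hf (h.trans hu1'.symm)))
        (hfa x y hxy.1)) (h3.del_reachable hu1.ne.symm hu2.ne.symm)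
    have hm := hmax u1 y1 y2 hu1 hu2
    simp only [hy1, hy2, pot] at hlip
    rw [if_neg (by rintro ⟨h, -⟩; exact g1 h.symm)] at hlip
    simp only [and_self, if_true] at hlip
    omega
  -- no piece is used
  have hno : ∀ x k l z, Idx.Rel k l → f x = psi r b c k l z → f x = .p k l z → False := by
    intro x i j z hij hx hx'
    obtain ⟨y0, hy0⟩ := hcon i j hij
    obtain ⟨x1, y1, hxy1, hx1, hy1⟩ := (used_piece h3 hf hfa hx hx' hy0 b (Or.inr (Or.inl rfl))).1
    obtain ⟨x2, y2, hxy2, hx2, hy2⟩ := (used_piece h3 hf hfa hx hx' hy0 c (Or.inr (Or.inr rfl))).1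
    rw [psi_b hrb.ne] at hx1
    rw [psi_c hrc.ne hbc] at hx2
    have hnext : ∀ m x1 y1, H.Adj x1 y1 → f x1 = .w m → (∀ z, f y1 ≠ psi r b c i j z) →
        ∃ k l z, Idx.Rel k l ∧ (m = k ∨ m = l) ∧ f y1 = .p k l z ∧ f y1 = psi r b c k l z ∧
          ¬ (k = i ∧ l = j) := by
      intro m x1 y1 hxy1 hx1 hy1
      have h := hfa _ _ hxy1
      rw [hx1] at h
      rcases apex_adj_w hbc' h with h' | ⟨k, l, z, hkl, hm, hz⟩
      · exact absurd (by rw [h', psi_r]) (hy1 r)
      · rw [hz] at h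
        obtain ⟨-, z', hz'⟩ := apex_adj_p h.symm
        obtain ⟨h7, k', l', x', y', hkl', hxy', h8, h9⟩ := h
        obtain ⟨e1, e2, e3, -⟩ := psi_eq_p h9.symm
        subst e1; subst e2; subst e3
        refine ⟨k', l', y', hkl, hm, hz, hz.trans h9, ?_⟩
        rintro ⟨rfl, rfl⟩
        exact hy1 y' (hz.trans h9)
    obtain ⟨k, l, z1, hkl, hm, hp, hp', hne⟩ := hnext i x1 y1 hxy1 hx1 hy1
    obtain ⟨k', l', z2, hkl', hm', hp1, hp1', hne'⟩ := hnext j x2 y2 hxy2 hx2 hy2
    have hij' := hij.ne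
    have hasym := hij.asymm
    refine hfar k l hkl k' l' hkl' ?_ ?_ ?_ ?_ ⟨y1, z1, hp', hp⟩ ⟨y2, z2, hp1', hp1⟩
    all_goals
      rintro rfl
      rcases hm with rfl | rfl <;> rcases hm' with rfl | rfl
      all_goals
        first
        | exact hij' rfl
        | exact hne ⟨rfl, rfl⟩
        | exact hne' ⟨rfl, rfl⟩
        | exact hasym hkl
        | exact hasym hkl'
        | exact Idx.triangle_free hij.conf (Or.inl hkl') (Or.inl hkl)
        | exact Idx.triangle_free hij.conf (Or.inr hkl') (Or.inl hkl)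
        | exact Idx.triangle_free hij.conf (Or.inl hkl') (Or.inr hkl)
        | exact Idx.triangle_free hij.conf (Or.inr hkl') (Or.inr hkl)
  -- all edges contain the apex
  have hstar : ∀ x y, H.Adj x y → f x = .u ∨ f y = .u := by
    intro x y hxy
    obtain ⟨h7, k, l, x', y', hkl, hxy', h8, h9⟩ := hfa x y hxy
    have hw : ∀ x x', f x = psi r b c k l x' → f x = .u ∨ (∃ m, f x = .w m) ∧ (x' = b ∨ x' = c) := by
      intro x x' hx
      rcases hpx : psi r b c k l x' with _ | m | ⟨m, n, z⟩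
      · exact Or.inl (hx.trans hpx)
      · right
        refine ⟨⟨m, hx.trans hpx⟩, ?_⟩
        rcases psi_eq_w hpx with ⟨h, -⟩ | ⟨h, -⟩
        · exact Or.inl h
        · exact Or.inr h
      · obtain ⟨e1, e2, e3, -⟩ := psi_eq_p hpx
        subst e1; subst e2; subst e3
        exact (hno x k l x' hkl hx (hx.trans hpx)).elim
    rcases hw x x' h8 with h | ⟨-, h⟩
    · exact Or.inl h
    · rcases hw y y' h9 with h' | ⟨-, h'⟩
      · exact Or.inr h'
      · exfalso
        rcases h with rfl | rfl <;> rcases h' with rfl | rfl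
        · exact hxy'.ne rfl
        · exact hbc' hxy'
        · exact hbc' hxy'.symm
        · exact hxy'.ne rfl
  obtain ⟨u0, hu0⟩ : ∃ u0, ∀ x, f x = .u → x = u0 := by
    by_cases h : ∃ x, f x = .u
    · obtain ⟨x, hx⟩ := h
      exact ⟨x, fun y hy => hf (hy.trans hx.symm)⟩
    · push Not at h
      exact ⟨r, fun x hx => absurd hx (h x)⟩
  obtain ⟨x1, hx1, -⟩ := hcard u0 u0
  obtain ⟨x2, hx2, hx2'⟩ := hcard u0 x1
  obtain ⟨a, ⟨ha, hau⟩, a', ha', haa⟩ := h3 {x1} {u0} (by rw [Set.encard_singleton]; norm_num)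
    ⟨x1, rfl, hx1⟩ ⟨x2, by
      rintro (h | h)
      · exact hx2' h
      · exact hx2 h⟩
  rw [Set.mem_compl_iff, Set.mem_union, not_or] at ha'
  rcases hstar a a' haa with h | h
  · exact hau (hu0 _ h)
  · exact ha'.2 (hu0 _ h)

/-- **3-connected non-complete graphs fail.** -/
theorem conn3_fails {W : Type v} [Finite W] {H : SimpleGraph W} (h3 : Conn3 H)
    (hcard : ∀ x y : W, ∃ z, z ≠ x ∧ z ≠ y) (hnc : ∃ x y, x ≠ y ∧ ¬ H.Adj x y) :
    Fails.{v} H := by
  classical
  have := Fintype.ofFinite W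
  -- two non-adjacent vertices with a common neighbour
  obtain ⟨v, y1, y2, h1, h2, hne, hna⟩ : ∃ v y1 y2, H.Adj v y1 ∧ H.Adj v y2 ∧ y1 ≠ y2 ∧
      ¬ H.Adj y1 y2 := by
    by_contra hcon
    push Not at hcon
    obtain ⟨x, y, hxy, hn⟩ := hnc
    obtain ⟨z, hzx, hzy⟩ := hcard x y
    obtain ⟨a, ⟨ha, haz⟩, a', ha', haa⟩ := h3 {w | w = x ∨ H.Adj x w} {z}
      (by rw [Set.encard_singleton]; norm_num) ⟨x, Or.inl rfl, hzx.symm⟩ ⟨y, by
        rintro ((h | h) | h)
        · exact hxy h.symm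
        · exact hn h
        · exact hzy h.symm⟩
    rw [Set.mem_compl_iff, Set.mem_union, not_or] at ha'
    have ha'x : a' ≠ x := fun h => ha'.1 (Or.inl h)
    rcases ha with rfl | ha
    · exact ha'.1 (Or.inr haa)
    · exact ha'.1 (Or.inr (hcon a x a' ha.symm haa ha'x.symm))
  let T : Finset (W × W × W) := Finset.univ.filter (fun t => H.Adj t.1 t.2.1 ∧ H.Adj t.1 t.2.2)
  have hT : T.Nonempty := ⟨(v, y1, y2), by simp [T, h1, h2]⟩
  obtain ⟨⟨r, b, c⟩, hrbc, hmax⟩ := T.exists_max_image (fun t => (del H t.1).dist t.2.1 t.2.2) hT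
  simp only [T, Finset.mem_filter, Finset.mem_univ, true_and] at hrbc hmax
  have hmax' : ∀ v y1 y2, H.Adj v y1 → H.Adj v y2 → (del H v).dist y1 y2 ≤ (del H r).dist b c :=
    fun v y1 y2 h1 h2 => hmax (v, y1, y2) ⟨h1, h2⟩
  have h2M : 2 ≤ (del H r).dist b c := by
    refine le_trans ?_ (hmax' v y1 y2 h1 h2)
    have hr : (del H v).Reachable y1 y2 := h3.del_reachable h1.ne.symm h2.ne.symm
    have h0 : (del H v).dist y1 y2 ≠ 0 := by
      rw [Ne, hr.dist_eq_zero_iff]; exact hne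
    have h1' : (del H v).dist y1 y2 ≠ 1 := by
      rw [Ne, SimpleGraph.dist_eq_one_iff_adj]; exact fun h => hna h.1
    omega
  have hbc : b ≠ c := by
    rintro rfl
    simp at h2M
  have hbc' : ¬ H.Adj b c := by
    intro h
    have : (del H r).dist b c = 1 := SimpleGraph.dist_eq_one_iff_adj.2
      ⟨h, hrbc.1.ne.symm, hrbc.2.ne.symm⟩
    omega
  exact ⟨_, apexHost H r b c, apexHost_fails hrbc.1 hrbc.2 hbc (fun f hf hfa =>
    conn3_plan h3 hcard hrbc.1 hrbc.2 hbc hbc' hmax' hf hfa)⟩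

theorem complete_plan (hK : ∀ x y, x ≠ y → H.Adj x y) (hrb : r ≠ b) (hrc : r ≠ c) (hbc : b ≠ c)
    {f : W → HV W} (hf : Function.Injective f)
    (hfa : ∀ x y, H.Adj x y → (apexHost H r b c).Adj (f x) (f y)) :
    ∃ i j, Idx.Rel i j ∧ ∀ x, ∃ y, f x = psi r b c i j y := by
  by_cases hp : ∃ x i j z, f x = .p i j z
  · obtain ⟨x, i, j, z, hx⟩ := hp
    obtain ⟨x', hx'⟩ : ∃ x', x' ≠ x := by
      by_cases h : r = x
      · exact ⟨b, fun h' => hrb (h.trans h'.symm)⟩
      · exact ⟨r, h⟩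
    obtain ⟨hne, k, l, a, a', hkl, haa, h1, h2⟩ := hfa x x' (hK _ _ hx'.symm)
    rw [hx] at h1
    obtain ⟨e1, e2, e3, -⟩ := psi_eq_p h1.symm
    subst e1; subst e2; subst e3
    refine ⟨k, l, hkl, fun y => ?_⟩
    by_cases hy : x = y
    · subst hy
      exact ⟨a, by rw [hx, h1]⟩
    · have h := hfa x y (hK _ _ hy)
      rw [hx] at h
      exact (apex_adj_p h).2
  · push Not at hp
    have hw : ∀ x, f x = .u ∨ ∃ k, f x = .w k := by
      intro x
      rcases hx : f x with _ | k | ⟨i, j, z⟩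
      · exact Or.inl rfl
      · exact Or.inr ⟨k, rfl⟩
      · exact absurd hx (hp x i j z)
    obtain ⟨x0, x1, k, l, h01, hk, hl⟩ : ∃ x0 x1 k l, x0 ≠ x1 ∧ f x0 = .w k ∧ f x1 = .w l := by
      rcases hw r with h1 | ⟨k1, h1⟩ <;> rcases hw b with h2 | ⟨k2, h2⟩ <;>
        rcases hw c with h3 | ⟨k3, h3⟩
      · exact absurd (hf (h1.trans h2.symm)) hrb
      · exact absurd (hf (h1.trans h2.symm)) hrb
      · exact absurd (hf (h1.trans h3.symm)) hrc
      · exact ⟨b, c, k2, k3, hbc, h2, h3⟩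
      · exact absurd (hf (h2.trans h3.symm)) hbc
      · exact ⟨r, c, k1, k3, hrc, h1, h3⟩
      · exact ⟨r, b, k1, k2, hrb, h1, h2⟩
      · exact ⟨r, b, k1, k2, hrb, h1, h2⟩
    have hww : ∀ x y k l, x ≠ y → f x = .w k → f y = .w l → Idx.Conf k l := by
      intro x y k l hxy hx hy
      obtain ⟨hne, i, j, a, a', hij, haa, h1, h2⟩ := hfa x y (hK _ _ hxy)
      rw [hx] at h1
      rw [hy] at h2
      rcases psi_eq_w h1.symm with ⟨h3, h4⟩ | ⟨h3, h4⟩ <;>
        rcases psi_eq_w h2.symm with ⟨h5, h6⟩ | ⟨h5, h6⟩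
      · exact absurd (h3.trans h5.symm) haa.ne
      · rw [h4, h6]; exact Or.inl hij
      · rw [h4, h6]; exact Or.inr hij
      · exact absurd (h3.trans h5.symm) haa.ne
    have hall : ∀ x, f x = .u ∨ f x = .w k ∨ f x = .w l := by
      intro x
      rcases hw x with h | ⟨m, hm⟩
      · exact Or.inl h
      · by_cases hx0 : x = x0
        · subst hx0; exact Or.inr (Or.inl hk)
        · by_cases hx1 : x = x1
          · subst hx1; exact Or.inr (Or.inr hl)
          · exact (Idx.triangle_free (hww x0 x1 k l h01 hk hl) (hww x1 x l m (Ne.symm hx1) hl hm)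
              (hww x0 x k m (Ne.symm hx0) hk hm)).elim
    have hkl := hww x0 x1 k l h01 hk hl
    rcases hkl with hkl | hkl
    · refine ⟨k, l, hkl, fun x => ?_⟩
      rcases hall x with h | h | h
      · exact ⟨r, by rw [h, psi_r]⟩
      · exact ⟨b, by rw [h, psi_b hrb]⟩
      · exact ⟨c, by rw [h, psi_c hrc hbc]⟩
    · refine ⟨l, k, hkl, fun x => ?_⟩
      rcases hall x with h | h | h
      · exact ⟨r, by rw [h, psi_r]⟩
      · exact ⟨c, by rw [h, psi_c hrc hbc]⟩
      · exact ⟨b, by rw [h, psi_b hrb]⟩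

/-- **Complete graphs on at least three vertices fail.** -/
theorem complete_fails {W : Type v} [Finite W] {H : SimpleGraph W}
    (hK : ∀ x y, x ≠ y → H.Adj x y) (hcard : ∃ r b c : W, r ≠ b ∧ r ≠ c ∧ b ≠ c) :
    Fails.{v} H := by
  obtain ⟨r, b, c, hrb, hrc, hbc⟩ := hcard
  exact ⟨_, apexHost H r b c, apexHost_fails (hK _ _ hrb) (hK _ _ hrc) hbc (fun f hf hfa =>
    complete_plan hK hrb hrc hbc hf hfa)⟩

/-- **Graphs with at least three vertices without separating pairs of vertices fail.** -/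
theorem conn3_fails' {W : Type v} [Finite W] {H : SimpleGraph W} (h3 : Conn3 H)
    (hcard : ∃ r b c : W, r ≠ b ∧ r ≠ c ∧ b ≠ c) : Fails.{v} H := by
  by_cases hnc : ∃ x y, x ≠ y ∧ ¬ H.Adj x y
  · refine conn3_fails h3 ?_ hnc
    obtain ⟨r, b, c, hrb, hrc, hbc⟩ := hcard
    intro x y
    by_cases h1 : r ≠ x ∧ r ≠ y
    · exact ⟨r, h1⟩
    · by_cases h2 : b ≠ x ∧ b ≠ y
      · exact ⟨b, h2⟩
      · refine ⟨c, ?_, ?_⟩
        · rintro rfl
          have h3 : r = y := by by_contra h; exact h1 ⟨hrc, h⟩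
          have h4 : b = y := by by_contra h; exact h2 ⟨hbc, h⟩
          exact hrb (h3.trans h4.symm)
        · rintro rfl
          have h3 : r = x := by by_contra h; exact h1 ⟨h, hrc⟩
          have h4 : b = x := by by_contra h; exact h2 ⟨h, hbc⟩
          exact hrb (h3.trans h4.symm)
  · push Not at hnc
    exact complete_fails hnc hcard

end ThreeConn

end Pool.Agent.StrongMax
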