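import Pool.Agent.Lib.StrongMax.AtomDefs
import Pool.Agent.Lib.StrongMax.ConnLem
import Pool.Agent.Lib.StrongMax.ThreeConn

/-!
# Atoms of 2-connected graphs of minimum degree at least three (helper18)
-/

namespace Pool.Agent.StrongMax

section Atoms

variable {W : Type} {H : SimpleGraph W}

theorem frag_of_not_conn3 [Finite W] (hn : ¬ Conn3 H) : ∃ D, IsFrag2 H D := by
  unfold Conn3 at hn
  push Not at hn
  obtain ⟨P, S, hS, hP, ⟨z, hz⟩, hno⟩ := hn
  have hbd : bd H (P \ S) ⊆ S := by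
    rintro y ⟨hy, x, hx, hxy⟩
    by_contra hyS
    exact hno x hx y (fun h => h.elim (fun h => hy ⟨h, hyS⟩) hyS) hxy
  refine ⟨P \ S, hP, ?_, z, fun h => hz (Or.inl h.1), fun h => hz (Or.inr (hbd h))⟩
  have h1 := Set.ncard_le_ncard hbd (Set.toFinite _)
  have h2 : S.ncard ≤ 2 := by
    rw [← (Set.toFinite S).cast_ncard_eq] at hS
    exact_mod_cast hS
  omega

theorem exists_atom [Finite W] (h : ∃ D, IsFrag2 H D) : ∃ D, IsAtom2 H D := by
  obtain ⟨D, hD, h1⟩ := Set.exists_min_image {D | IsFrag2 H D} Set.ncard (Set.toFinite _) h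
  obtain ⟨D', ⟨hD', h2⟩, h3⟩ := Set.exists_min_image {D' | IsFrag2 H D' ∧ D'.ncard = D.ncard}
    (fun D' => (marcs H D').ncard) (Set.toFinite _) ⟨D, hD, rfl⟩
  refine ⟨D', hD', fun D'' h => by rw [h2]; exact h1 D'' h, fun D'' h h' => h3 D'' ⟨h, ?_⟩⟩
  rw [h', h2]

variable [Finite W] (h2 : Conn2 H) (h3 : ∀ x, 3 ≤ (H.neighborSet x).ncard)

include h3 in
theorem exists_nbr (x : W) (F : Finset W) (hF : F.card ≤ 2) : ∃ y, H.Adj x y ∧ y ∉ F := by
  by_contra hcon
  push Not at hcon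
  have h1 : H.neighborSet x ⊆ (F : Set W) := fun y hy => hcon y hy
  have h4 := Set.ncard_le_ncard h1 (Set.toFinite _)
  rw [Set.ncard_coe_finset] at h4
  have := h3 x
  omega

include h2 h3 in
/-- A set with at most one boundary vertex is everything. -/
theorem no_small {D : Set W} (hne : D.Nonempty) {z q : W} (hz : z ∉ D) (hqz : q ≠ z)
    (hbd : ∀ y ∈ bd H D, y = q) : False := by
  obtain ⟨x, hx, hxq⟩ : ∃ x ∈ D, x ≠ q := by
    obtain ⟨x, hx⟩ := hne
    by_cases hxq : x = q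
    · obtain ⟨y, hy, -⟩ := exists_nbr h3 x ∅ (by simp)
      refine ⟨y, ?_, fun h => hy.ne (hxq.trans h.symm)⟩
      by_contra hyD
      exact hy.ne (hxq.trans (hbd y ⟨hyD, x, hx, hy⟩).symm)
    · exact ⟨x, hx, hxq⟩
  obtain ⟨w, hw, w', hw', h4, h5, h6⟩ := h2 D q ⟨x, hx, hxq⟩ ⟨z, hz, hqz.symm⟩
  exact h5 (hbd w' ⟨hw', w, hw, h6⟩)

include h2 h3 in
theorem no_small' {D : Set W} (hne : D.Nonempty) {z : W} (hz : z ∉ D) (hz' : z ∉ bd H D)
    (hbd : (bd H D).ncard ≤ 1) : False := by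
  rcases (bd H D).eq_empty_or_nonempty with h | ⟨q, hq⟩
  · obtain ⟨q, hq, -⟩ := exists_nbr h3 z ∅ (by simp)
    refine no_small h2 h3 hne hz hq.ne.symm (fun y hy => ?_)
    rw [h] at hy
    exact absurd hy (Set.notMem_empty _)
  · refine no_small h2 h3 hne hz (fun h => hz' (h ▸ hq)) (fun y hy => ?_)
    exact (Set.ncard_le_one (Set.toFinite _)).1 hbd y hy q hq

include h2 h3 in
theorem IsFrag2.two {D : Set W} (hD : IsFrag2 H D) : ∃ x y, x ≠ y ∧ bd H D = {x, y} := by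
  obtain ⟨z, hz, hz'⟩ := hD.out
  have h1 : (bd H D).ncard = 2 := by
    have h4 := hD.bd2
    by_contra h5
    exact no_small' h2 h3 hD.ne hz hz' (by omega)
  obtain ⟨x, y, hxy, h⟩ := Set.ncard_eq_two.1 h1
  exact ⟨x, y, hxy, h⟩

include h2 h3 in
theorem IsFrag2.bd_eq {D : Set W} (hD : IsFrag2 H D) : (bd H D).ncard = 2 := by
  obtain ⟨x, y, hxy, h⟩ := hD.two h2 h3
  rw [h, Set.ncard_pair hxy]

include h2 h3 in
theorem IsAtom2.two {D : Set W} (hD : IsAtom2 H D) : ∃ x y, x ≠ y ∧ bd H D = {x, y} :=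
  hD.frag.two h2 h3

include h3 in
theorem IsFrag2.card2 {D : Set W} (hD : IsFrag2 H D) : 2 ≤ D.ncard := by
  by_contra h
  obtain ⟨x, hx⟩ := hD.ne
  have h1 : D.ncard ≤ 1 := by omega
  have h4 : ∀ y ∈ D, y = x := fun y hy => (Set.ncard_le_one (Set.toFinite _)).1 h1 y hy x hx
  have h5 : H.neighborSet x ⊆ bd H D := by
    intro y hy
    exact ⟨fun h => (H.ne_of_adj hy) (h4 y h).symm, x, hx, hy⟩
  have h6 := Set.ncard_le_ncard h5 (Set.toFinite _)
  have := h3 x
  have := hD.bd2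
  omega

include h3 in
theorem IsAtom2.card2 {D : Set W} (hD : IsAtom2 H D) : 2 ≤ D.ncard := hD.frag.card2 h3

omit [Finite W] in
theorem bd_of_adj {D : Set W} {x y : W} (hx : x ∈ D) (hxy : H.Adj x y) : y ∈ D ∨ y ∈ bd H D := by
  by_cases h : y ∈ D
  · exact Or.inl h
  · exact Or.inr ⟨h, x, hx, hxy⟩

theorem IsAtom2.conn {D : Set W} (hD : IsAtom2 H D) : ConnIn H D := by
  obtain ⟨t, ht⟩ := hD.frag.ne
  let E : Set W := {w | ∃ p : H.Walk t w, ∀ z ∈ p.support, z ∈ D}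
  have hED : E ⊆ D := by
    rintro w ⟨p, hp⟩
    exact hp w p.end_mem_support
  have hbd : bd H E ⊆ bd H D := by
    rintro y ⟨hy, x, hx, hxy⟩
    refine ⟨fun h => hy ?_, x, hED hx, hxy⟩
    obtain ⟨p, hp⟩ := hx
    refine ⟨p.concat hxy, fun z hz => ?_⟩
    rw [SimpleGraph.Walk.support_concat, List.mem_append] at hz
    rcases hz with hz | hz
    · exact hp z hz
    · rw [List.mem_singleton] at hz
      rw [hz]; exact h
  have hE : IsFrag2 H E := by
    obtain ⟨z, hz, hz'⟩ := hD.frag.out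
    refine ⟨⟨t, .nil, by simpa using ht⟩, ?_, z, fun h => hz (hED h), fun h => hz' (hbd h)⟩
    exact (Set.ncard_le_ncard hbd (Set.toFinite _)).trans hD.frag.bd2
  have h1 : E = D := Set.eq_of_subset_of_ncard_le hED (hD.min E hE) (Set.toFinite _)
  rw [← h1]
  exact connIn_of_reach H D t

/-- The opposite set. -/
def opp (H : SimpleGraph W) (D : Set W) : Set W := {z | z ∉ D ∧ z ∉ bd H D}

omit [Finite W] in
theorem opp_bd {D : Set W} : bd H (opp H D) ⊆ bd H D := by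
  rintro y ⟨hy, x, ⟨hx, hx'⟩, hxy⟩
  by_contra hyD
  have h1 : y ∈ D := by
    by_contra h
    exact hy ⟨h, hyD⟩
  exact hx' ⟨hx, y, h1, hxy.symm⟩

theorem IsFrag2.opp {D : Set W} (hD : IsFrag2 H D) : IsFrag2 H (opp H D) := by
  obtain ⟨z, hz, hz'⟩ := hD.out
  obtain ⟨x, hx⟩ := hD.ne
  refine ⟨⟨z, hz, hz'⟩, (Set.ncard_le_ncard opp_bd (Set.toFinite _)).trans hD.bd2, x,
    fun h => h.1 hx, fun h => (opp_bd h).1 hx⟩

include h2 h3 in
theorem IsFrag2.opp_bd_eq {D : Set W} (hD : IsFrag2 H D) : bd H (Pool.Agent.StrongMax.opp H D) = bd H D := by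
  refine Set.eq_of_subset_of_ncard_le opp_bd ?_ (Set.toFinite _)
  rw [hD.bd_eq h2 h3, hD.opp.bd_eq h2 h3]

include h2 h3 in
theorem IsFrag2.opp_opp {D : Set W} (hD : IsFrag2 H D) :
    Pool.Agent.StrongMax.opp H (Pool.Agent.StrongMax.opp H D) = D := by
  ext x
  constructor
  · rintro ⟨h1, h4⟩
    rw [hD.opp_bd_eq h2 h3] at h4
    by_contra h
    exact h1 ⟨h, h4⟩
  · intro h
    refine ⟨fun h' => h'.1 h, fun h' => ?_⟩
    rw [hD.opp_bd_eq h2 h3] at h'
    exact h'.1 h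

include h2 h3 in
theorem watkins_L1 {A F : Set W} (hA : IsAtom2 H A) {x : W} (hxA : x ∈ A) (hxF : x ∈ bd H F)
    (hF2 : (bd H F).ncard ≤ 2) (hne : (A ∩ F).Nonempty) : opp H A ∩ opp H F = ∅ := by
  by_contra hcon
  replace hcon := Set.nonempty_iff_ne_empty.2 hcon
  have hxF' : x ∉ F := hxF.1
  have hX1 : bd H (A ∩ F) ⊆ (A ∩ bd H F) ∪ (bd H F ∩ bd H A) ∪ (bd H A ∩ F) := by
    rintro y ⟨hy, a, ⟨haA, haF⟩, hay⟩
    rcases bd_of_adj haA hay with h | h <;> rcases bd_of_adj haF hay with h' | h'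
    · exact absurd ⟨h, h'⟩ hy
    · exact Or.inl (Or.inl ⟨h, h'⟩)
    · exact Or.inr ⟨h, h'⟩
    · exact Or.inl (Or.inr ⟨h', h⟩)
  have hX2 : bd H (opp H A ∩ opp H F) ⊆ (opp H A ∩ bd H F) ∪ (bd H F ∩ bd H A) ∪
      (bd H A ∩ opp H F) := by
    rintro y ⟨hy, a, ⟨haA, haF⟩, hay⟩
    rcases bd_of_adj haA hay with h | h <;> rcases bd_of_adj haF hay with h' | h'
    · exact absurd ⟨h, h'⟩ hy
    · exact Or.inl (Or.inl ⟨h, opp_bd h'⟩)
    · exact Or.inr ⟨opp_bd h, h'⟩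
    · exact Or.inl (Or.inr ⟨opp_bd h', opp_bd h⟩)
  have hcard1 : 3 ≤ (bd H (A ∩ F)).ncard := by
    by_contra hlt
    have hfr : IsFrag2 H (A ∩ F) := by
      obtain ⟨z, hz, hz'⟩ := hA.frag.out
      refine ⟨hne, by omega, z, fun h => hz h.1, fun h => ?_⟩
      rcases hX1 h with (h | h) | h
      · exact hz h.1
      · exact hz' h.2
      · exact hz' h.1
    have h4 := hA.min _ hfr
    have h5 : A ∩ F ⊂ A := ⟨Set.inter_subset_left, fun h => hxF' (h hxA).2⟩
    have h6 := Set.ncard_lt_ncard h5 (Set.toFinite _)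
    omega
  have hsum : ((A ∩ bd H F) ∪ (bd H F ∩ bd H A) ∪ (bd H A ∩ F)).ncard +
      ((opp H A ∩ bd H F) ∪ (bd H F ∩ bd H A) ∪ (bd H A ∩ opp H F)).ncard ≤ 4 := by
    rw [← Set.ncard_union_add_ncard_inter _ _ (Set.toFinite _) (Set.toFinite _)]
    have h4 : ((A ∩ bd H F) ∪ (bd H F ∩ bd H A) ∪ (bd H A ∩ F)) ∪
        ((opp H A ∩ bd H F) ∪ (bd H F ∩ bd H A) ∪ (bd H A ∩ opp H F)) ⊆ bd H F ∪ bd H A := by
      rintro y (((h | h) | h) | ((h | h) | h))
      · exact Or.inl h.2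
      · exact Or.inl h.1
      · exact Or.inr h.1
      · exact Or.inl h.2
      · exact Or.inl h.1
      · exact Or.inr h.1
    have h5 : ((A ∩ bd H F) ∪ (bd H F ∩ bd H A) ∪ (bd H A ∩ F)) ∩
        ((opp H A ∩ bd H F) ∪ (bd H F ∩ bd H A) ∪ (bd H A ∩ opp H F)) ⊆ bd H F ∩ bd H A := by
      rintro y ⟨(h | h) | h, (h' | h') | h'⟩
      · exact absurd h.1 h'.1.1
      · exact h'
      · exact absurd h.1 h'.1.1
      · exact h
      · exact h
      · exact h
      · exact absurd h.2 h'.2.1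
      · exact h'
      · exact absurd h.2 h'.2.1
    have h6 := Set.ncard_le_ncard h4 (Set.toFinite _)
    have h7 := Set.ncard_le_ncard h5 (Set.toFinite _)
    have h8 := Set.ncard_union_add_ncard_inter (bd H F) (bd H A) (Set.toFinite _) (Set.toFinite _)
    have h9 := hA.frag.bd2
    omega
  have h4 := Set.ncard_le_ncard hX1 (Set.toFinite _)
  have h5 := Set.ncard_le_ncard hX2 (Set.toFinite _)
  refine no_small' h2 h3 hcon (z := x) (fun h => h.1.1 hxA) (fun h => ?_) (by omega)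
  rcases hX2 h with (h | h) | h
  · exact h.1.1 hxA
  · exact h.2.1 hxA
  · exact h.1.1 hxA

include h2 h3 in
theorem watkins_L3 {A F : Set W} (hA : IsAtom2 H A) (hF : IsFrag2 H F) {x : W} (hxA : x ∈ A)
    (hxF : x ∈ bd H F) (hne : (A ∩ F).Nonempty) (hemp : A ∩ opp H F = ∅) : False := by
  have h1 := watkins_L1 h2 h3 hA hxA hxF hF.bd2 hne
  have h4 : opp H F ⊆ bd H A := by
    intro y hy
    by_contra hyA
    by_cases h5 : y ∈ A
    · have : y ∈ A ∩ opp H F := ⟨h5, hy⟩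
      rw [hemp] at this
      exact this
    · have : y ∈ opp H A ∩ opp H F := ⟨⟨h5, hyA⟩, hy⟩
      rw [h1] at this
      exact this
  have h5 := hA.min _ hF.opp
  have h6 := hA.card2 h3
  have h7 := hA.frag.bd2
  have h8 : opp H F = bd H A := Set.eq_of_subset_of_ncard_le h4 (by omega) (Set.toFinite _)
  rw [h8] at h5
  obtain ⟨a, haA, haF⟩ := hne
  obtain ⟨y, hy, hyF⟩ := exists_nbr h3 a (Set.toFinite (A \ {a})).toFinset (by
    rw [← Set.ncard_eq_toFinset_card _ (Set.toFinite (A \ {a})), Set.ncard_sdiff_singleton_of_mem haA]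
    omega)
  rw [Set.Finite.mem_toFinset] at hyF
  rcases bd_of_adj haA hy with h9 | h9
  · exact hyF ⟨h9, fun h => hy.ne h.symm⟩
  · rw [← h8] at h9
    rcases bd_of_adj haF hy with h10 | h10
    · exact h9.1 h10
    · exact h9.2 h10

include h2 h3 in
/-- **Watkins.** The boundary of a fragment does not meet an atom. -/
theorem IsAtom2.not_bd {A F : Set W} (hA : IsAtom2 H A) (hF : IsFrag2 H F) : ∀ v ∈ bd H F, v ∉ A := by
  intro x hxF hxA
  have hF'bd := hF.opp_bd_eq h2 h3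
  have hxF' : x ∈ bd H (opp H F) := by rw [hF'bd]; exact hxF
  have hα := hA.card2 h3
  by_cases h1 : (A ∩ F).Nonempty
  · by_cases h4 : (A ∩ opp H F).Nonempty
    · have h5 := watkins_L1 h2 h3 hA hxA hxF hF.bd2 h1
      have h6 := watkins_L1 h2 h3 hA hxA hxF' hF.opp.bd2 h4
      rw [hF.opp_opp h2 h3] at h6
      have h7 : opp H A ⊆ bd H F \ {x} := by
        intro y hy
        refine ⟨?_, fun h => hy.1 (h ▸ hxA)⟩
        by_contra hyF
        by_cases h8 : y ∈ F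
        · have : y ∈ opp H A ∩ F := ⟨hy, h8⟩
          rw [h6] at this; exact this
        · have : y ∈ opp H A ∩ opp H F := ⟨hy, h8, hyF⟩
          rw [h5] at this; exact this
      have h8 := Set.ncard_le_ncard h7 (Set.toFinite _)
      rw [Set.ncard_sdiff_singleton_of_mem hxF] at h8
      have h9 := hA.min _ hA.frag.opp
      have h10 := hF.bd2
      omega
    · exact watkins_L3 h2 h3 hA hF hxA hxF h1 (Set.not_nonempty_iff_eq_empty.1 h4)
  · by_cases h4 : (A ∩ opp H F).Nonempty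
    · refine watkins_L3 h2 h3 hA hF.opp hxA hxF' h4 ?_
      rw [hF.opp_opp h2 h3]
      exact Set.not_nonempty_iff_eq_empty.1 h1
    · have hAT : A ⊆ bd H F := by
        intro y hy
        by_contra hyF
        by_cases h8 : y ∈ F
        · exact h1 ⟨y, hy, h8⟩
        · exact h4 ⟨y, hy, h8, hyF⟩
      have hAeq : A = bd H F := Set.eq_of_subset_of_ncard_le hAT (by have := hF.bd2; omega) (Set.toFinite _)
      obtain ⟨-, p, hpF, hpx⟩ := id hxF
      obtain ⟨-, p', hp'F, hp'x⟩ := id hxF'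
      have hpA : p ∈ bd H A := ⟨fun h => (hAT h).1 hpF, x, hxA, hpx.symm⟩
      have hp'A : p' ∈ bd H A := ⟨fun h => hp'F.2 (hAT h), x, hxA, hp'x.symm⟩
      have hpp' : p ≠ p' := fun h => hp'F.1 (h ▸ hpF)
      have hbdA : ∀ w ∈ bd H A, w = p ∨ w = p' := by
        intro w hw
        by_contra hcon
        push Not at hcon
        have h5 : ({w, p, p'} : Set W) ⊆ bd H A := by
          rintro y (rfl | rfl | rfl)
          · exact hw
          · exact hpA
          · exact hp'A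
        have h6 := Set.ncard_le_ncard h5 (Set.toFinite _)
        have h7 : ({w, p, p'} : Set W).ncard = 3 := by
          rw [Set.ncard_insert_of_notMem, Set.ncard_pair hpp']
          rintro (h | h)
          · exact hcon.1 h
          · exact hcon.2 h
        have := hA.frag.bd2
        omega
      have hFcard := hA.min _ hF
      have hFne : (F \ {p}).Nonempty := by
        rw [← Set.ncard_pos, Set.ncard_sdiff_singleton_of_mem hpF]
        omega
      refine no_small h2 h3 hFne (z := x) (q := p) (fun h => hxF.1 h.1) (fun h => hxF.1 (h ▸ hpF)) ?_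
      rintro y ⟨hy, w, ⟨hwF, hwp⟩, hwy⟩
      rcases bd_of_adj hwF hwy with h5 | h5
      · by_contra h6
        exact hy ⟨h5, h6⟩
      · exfalso
        have h6 : w ∈ bd H A := by
          refine ⟨fun h => (hAT h).1 hwF, y, ?_, hwy.symm⟩
          rw [hAeq]; exact h5
        rcases hbdA w h6 with h7 | h7
        · exact hwp h7
        · exact hp'F.1 (h7 ▸ hwF)

include h2 h3 in
theorem IsAtom2.sub_of_mem {D D' : Set W} (hD : IsAtom2 H D) (hD' : IsAtom2 H D') {x : W}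
    (hx : x ∈ D) (hx' : x ∈ D') : D ⊆ D' := by
  intro y hy
  refine hD.conn.closed hx hy D' hx' ?_
  intro w hw hwD w' hw'D hadj
  rcases bd_of_adj hw hadj with h | h
  · exact h
  · exact absurd hw'D (hD.not_bd h2 h3 hD'.frag w' h)

include h2 h3 in
theorem IsAtom2.eq_of_mem {D D' : Set W} (hD : IsAtom2 H D) (hD' : IsAtom2 H D') {x : W}
    (hx : x ∈ D) (hx' : x ∈ D') : D = D' :=
  Set.Subset.antisymm (hD.sub_of_mem h2 h3 hD' hx hx') (hD'.sub_of_mem h2 h3 hD hx' hx)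

include h2 h3 in
theorem IsAtom2.not_adj {D D' : Set W} (hD : IsAtom2 H D) (hD' : IsAtom2 H D') {a b : W}
    (ha : a ∈ D) (hb : b ∈ D') (hab : H.Adj a b) : D = D' := by
  rcases bd_of_adj ha hab with h | h
  · exact hD.eq_of_mem h2 h3 hD' h hb
  · exact absurd hb (hD'.not_bd h2 h3 hD.frag b h)

include h2 h3 in
/-- A boundary vertex of an atom has two neighbours in the atom. -/
theorem IsAtom2.two_nbr {D : Set W} (hD : IsAtom2 H D) {v : W} (hv : v ∈ bd H D) :
    ∃ a ∈ D, ∃ b ∈ D, a ≠ b ∧ H.Adj v a ∧ H.Adj v b := by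
  obtain ⟨hvD, a, ha, hav⟩ := id hv
  by_contra hcon
  push Not at hcon
  have h1 : ∀ b ∈ D, H.Adj v b → b = a := by
    intro b hb hvb
    by_contra hne
    exact hcon a ha b hb (fun h => hne h.symm) hav.symm hvb
  have hbd : bd H (D \ {a}) ⊆ insert a (bd H D \ {v}) := by
    rintro y ⟨hy, w, ⟨hwD, hwa⟩, hwy⟩
    rcases bd_of_adj hwD hwy with h5 | h5
    · left
      by_contra h6
      exact hy ⟨h5, h6⟩
    · right
      refine ⟨h5, ?_⟩
      rintro rfl
      exact hwa (h1 w hwD hwy.symm)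
  have hbdc := hD.frag.bd_eq h2 h3
  have h4 := Set.ncard_le_ncard hbd (Set.toFinite _)
  have h5 := Set.ncard_insert_le a (bd H D \ {v})
  rw [Set.ncard_sdiff_singleton_of_mem hv] at h5
  have h6 := hD.card2 h3
  have h7 : (D \ {a}).ncard = D.ncard - 1 := Set.ncard_sdiff_singleton_of_mem ha
  have hfr : IsFrag2 H (D \ {a}) := by
    obtain ⟨z, hz, hz'⟩ := hD.frag.out
    refine ⟨?_, by omega, z, fun h => hz h.1, fun h => ?_⟩
    · rw [← Set.ncard_pos]; omega
    · rcases hbd h with h | h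
      · exact hz (h ▸ ha)
      · exact hz' h.1
  have h8 := hD.min _ hfr
  omega

include h2 h3 in
/-- The number of vertices is larger than twice the size of an atom plus one. -/
theorem IsAtom2.card_lt {D : Set W} (hD : IsAtom2 H D) : D.ncard + 2 < Nat.card W := by
  have h1 := hD.min _ hD.frag.opp
  have h4 := hD.card2 h3
  have h5 := hD.frag.bd_eq h2 h3
  have h6 : (D ∪ bd H D ∪ opp H D).ncard ≤ Nat.card W := by
    rw [← Set.ncard_univ]
    exact Set.ncard_le_ncard (Set.subset_univ _) (Set.toFinite _)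
  have h7 : Disjoint D (bd H D) := by
    rw [Set.disjoint_left]
    exact fun x hx h => h.1 hx
  have h8 : Disjoint (D ∪ bd H D) (opp H D) := by
    rw [Set.disjoint_left]
    rintro x (hx | hx) h
    · exact h.1 hx
    · exact h.2 hx
  rw [Set.ncard_union_eq h8, Set.ncard_union_eq h7] at h6
  omega

include h2 h3 in
/-- The situation of an embedding into the union of the atoms. -/
theorem atom_lift {C : Set W} {φ : W → W} (hC : PEmb H (atomSet H) C φ) {a : W} (ha : a ∈ C) :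
    ∃ E D, IsAtom2 H E ∧ IsAtom2 H D ∧ a ∈ E ∧ E ⊆ C ∧ φ a ∈ D ∧
      ∀ e ∈ E, ∀ y, H.Adj (φ e) y → ∃ b, H.Adj e b ∧ φ b = y := by
  obtain ⟨D, hD, haD⟩ := hC.mem a ha
  let E : Set W := {w | ∃ p : H.Walk a w, ∀ z ∈ p.support, z ∈ C}
  have hEC : E ⊆ C := by
    rintro w ⟨p, hp⟩
    exact hp w p.end_mem_support
  have hcl : ∀ w ∈ E, ∀ w' ∈ C, H.Adj w w' → w' ∈ E := by
    rintro w ⟨p, hp⟩ w' hw' hadj
    refine ⟨p.concat hadj, fun z hz => ?_⟩
    rw [SimpleGraph.Walk.support_concat, List.mem_append] at hz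
    rcases hz with hz | hz
    · exact hp z hz
    · rw [List.mem_singleton] at hz
      rw [hz]; exact hw'
  have haE : a ∈ E := ⟨.nil, by simpa using ha⟩
  have hconn : ConnIn H E := connIn_of_reach H C a
  have hED : ∀ w ∈ E, φ w ∈ D := by
    intro w hw
    refine hconn.closed haE hw {w | φ w ∈ D} haD ?_
    intro b hb hbE b' hb'E hadj
    obtain ⟨D', hD', hb'D'⟩ := hC.mem b' (hEC hb'E)
    have h1 : D = D' := hD.not_adj h2 h3 hD' hb hb'D' (hC.adj b (hEC hbE) b' hadj)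
    show φ b' ∈ D
    rw [h1]; exact hb'D'
  have hDL : D ⊆ atomSet H := fun w hw => ⟨D, hD, hw⟩
  have hinj : Set.InjOn φ (E ∪ bd H E) := by
    refine hC.inj.mono ?_
    rintro w (hw | ⟨-, x, hx, hxw⟩)
    · exact Or.inl (hEC hw)
    · exact Or.inr ⟨x, hEC hx, hxw⟩
  have hbd : ∀ w ∈ bd H E, φ w ∈ bd H D := by
    rintro w ⟨hw, x, hx, hxw⟩
    have hwC : w ∉ C := fun h => hw (hcl x hx w h hxw)
    have h1 := hC.out x (hEC hx) w hxw hwC
    exact ⟨fun h => h1 (hDL h), φ x, hED x hx, hC.adj x (hEC hx) w hxw⟩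
  have hcard : E.ncard ≤ D.ncard :=
    Set.ncard_le_ncard_of_injOn φ hED (hinj.mono Set.subset_union_left) (Set.toFinite _)
  have hbdc : (bd H E).ncard ≤ (bd H D).ncard :=
    Set.ncard_le_ncard_of_injOn φ hbd (hinj.mono Set.subset_union_right) (Set.toFinite _)
  have hfrag : IsFrag2 H E := by
    have h1 := hD.card_lt h2 h3
    have h4 := hD.frag.bd2
    refine ⟨⟨a, haE⟩, hbdc.trans h4, ?_⟩
    by_contra hcon
    push Not at hcon
    have h5 : (Set.univ : Set W) ⊆ E ∪ bd H E := by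
      intro w _
      by_cases h : w ∈ E
      · exact Or.inl h
      · exact Or.inr (hcon w h)
    have h6 := Set.ncard_le_ncard h5 (Set.toFinite _)
    rw [Set.ncard_univ] at h6
    have h7 := Set.ncard_union_le E (bd H E)
    omega
  have hceq : E.ncard = D.ncard := le_antisymm hcard (hD.min E hfrag)
  -- the edges
  let Φ : W × W → W × W := fun p => (φ p.1, φ p.2)
  have hΦ : ∀ p ∈ marcs H E, Φ p ∈ marcs H D := by
    rintro ⟨u, v⟩ ⟨huv, h | h⟩
    · exact ⟨hC.adj u (hEC h) v huv, Or.inl (hED u h)⟩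
    · exact ⟨(hC.adj v (hEC h) u huv.symm).symm, Or.inr (hED v h)⟩
  have hmem : ∀ p ∈ marcs H E, p.1 ∈ E ∪ bd H E ∧ p.2 ∈ E ∪ bd H E := by
    rintro ⟨u, v⟩ ⟨huv, h | h⟩
    · exact ⟨Or.inl h, bd_of_adj h huv⟩
    · exact ⟨bd_of_adj h huv.symm, Or.inl h⟩
  have hΦinj : Set.InjOn Φ (marcs H E) := by
    intro p hp q hq h
    obtain ⟨h4, h5⟩ := Prod.mk.inj h
    exact Prod.ext (hinj (hmem p hp).1 (hmem q hq).1 h4) (hinj (hmem p hp).2 (hmem q hq).2 h5)
  have hmarcs : (marcs H E).ncard ≤ (marcs H D).ncard :=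
    Set.ncard_le_ncard_of_injOn Φ hΦ hΦinj (Set.toFinite _)
  have hE : IsAtom2 H E := by
    refine ⟨hfrag, fun D' h => by rw [hceq]; exact hD.min D' h, fun D' h h' => ?_⟩
    exact hmarcs.trans (hD.mine D' h (h'.trans hceq))
  refine ⟨E, D, hE, hD, haE, hEC, haD, ?_⟩
  intro e he y hy
  have h4 : Φ '' marcs H E = marcs H D := by
    refine Set.eq_of_subset_of_ncard_le ?_ ?_ (Set.toFinite _)
    · rintro _ ⟨p, hp, rfl⟩
      exact hΦ p hp
    · rw [hΦinj.ncard_image]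
      exact hD.mine E hfrag hceq
  have h5 : (φ e, y) ∈ Φ '' marcs H E := by
    rw [h4]
    exact ⟨hy, Or.inl (hED e he)⟩
  obtain ⟨⟨u, v⟩, huv, h6⟩ := h5
  obtain ⟨h7, h8⟩ := Prod.mk.inj h6
  have h9 : u = e := hinj (hmem _ huv).1 (Or.inl he) h7
  exact ⟨v, h9 ▸ huv.1, h8⟩

include h2 h3 in
/-- **The union of the atoms is rigid.** -/
theorem atomSet_rigid : Rigid H (atomSet H) where
  sub C φ hC a ha := by
    obtain ⟨E, -, hE, -, haE, -⟩ := atom_lift h2 h3 hC ha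
    exact ⟨E, hE, haE⟩
  closed C φ hC a ha b hb hab := by
    obtain ⟨E, -, hE, -, haE, hEC, -⟩ := atom_lift h2 h3 hC ha
    obtain ⟨D', hD', hbD'⟩ := hb
    have := hE.not_adj h2 h3 hD' haE hbD' hab
    exact hEC (this ▸ hbD')
  surj C φ hC a ha y hy := by
    obtain ⟨E, D, hE, hD, haE, hEC, haD, h⟩ := atom_lift h2 h3 hC ha
    exact h a haE y hy

omit [Finite W] in
/-- Two different edges outside `L` have a common end `s`. -/
theorem star_two {L : Set W} {s : W} (hs : Star H L s) {a b c d : W} (hab : H.Adj a b)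
    (hcd : H.Adj c d) (ha : a ∉ L) (hb : b ∉ L) (hc : c ∉ L) (hd : d ∉ L) (hne : s(a, b) ≠ s(c, d)) :
    s ∉ L ∧ ∃ n₁ n₂, n₁ ≠ n₂ ∧ n₁ ∉ L ∧ n₂ ∉ L ∧ H.Adj s n₁ ∧ H.Adj s n₂ := by
  have key : ∀ a b, H.Adj a b → a ∉ L → b ∉ L → s ∉ L ∧ ∃ n, n ∉ L ∧ H.Adj s n ∧ s(a, b) = s(s, n) := by
    intro a b hab ha hb
    rcases hs a b hab ha hb with rfl | rfl
    · exact ⟨ha, b, hb, hab, rfl⟩
    · exact ⟨hb, a, ha, hab.symm, Sym2.eq_swap⟩
  obtain ⟨hsL, n₁, h1, h4, h5⟩ := key a b hab ha hb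
  obtain ⟨-, n₂, h6, h7, h8⟩ := key c d hcd hc hd
  exact ⟨hsL, n₁, n₂, fun h => hne (by rw [h5, h8, h]), h1, h6, h4, h7⟩

end Atoms

end Pool.Agent.StrongMax
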