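import Pool.Agent.Lib.StrongMax.Frag

/-!
# Attaching copies of a rooted graph at each vertex (helper42)
-/

namespace Pool.Agent.StrongMax

variable {W : Type}

/-- The embedding of the copy `(g, k)` of a graph rooted at `r`. -/
noncomputable def aemb {V₀ K : Type} (r : W) (g : V₀) (k : K) (w : W) : V₀ ⊕ (V₀ × K × W) :=
  open Classical in if w = r then .inl g else .inr (g, k, w)

theorem aemb_root {V₀ K : Type} (r : W) (g : V₀) (k : K) : aemb r g k r = .inl g := if_pos rfl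

theorem aemb_ne {V₀ K : Type} {r : W} (g : V₀) (k : K) {w : W} (h : w ≠ r) :
    aemb r g k w = .inr (g, k, w) := if_neg h

theorem aemb_eq_inl {V₀ K : Type} {r : W} {g : V₀} {k : K} {w : W} {x : V₀}
    (h : aemb r g k w = .inl x) : w = r ∧ x = g := by
  by_cases hw : w = r
  · subst hw
    rw [aemb_root] at h
    exact ⟨rfl, (Sum.inl_injective h).symm⟩
  · rw [aemb_ne g k hw] at h
    exact absurd h (by simp)

theorem aemb_eq_inr {V₀ K : Type} {r : W} {g : V₀} {k : K} {w : W} {p : V₀ × K × W}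
    (h : aemb r g k w = .inr p) : w ≠ r ∧ p = (g, k, w) := by
  by_cases hw : w = r
  · subst hw
    rw [aemb_root] at h
    exact absurd h (by simp)
  · rw [aemb_ne g k hw] at h
    exact ⟨hw, (Sum.inr_injective h).symm⟩

theorem aemb_inj {V₀ K : Type} {r : W} {g : V₀} {k : K} {w w' : W}
    (h : aemb r g k w = aemb r g k w') : w = w' := by
  by_cases hw : w = r
  · subst hw
    rw [aemb_root] at h
    exact (aemb_eq_inl h.symm).1.symm
  · rw [aemb_ne g k hw] at h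
    have h1 := (aemb_eq_inr h.symm).2
    simpa using h1

/-- The edges of all copies with index `k`. -/
def AP (H : SimpleGraph W) (Y : Set W) (r : W) (V₀ K : Type) (k : K) :
    Set (Sym2 (V₀ ⊕ (V₀ × K × W))) :=
  {e | ∃ g w w', H.Adj w w' ∧ w ∈ Y ∧ w' ∈ Y ∧ e = s(aemb r g k w, aemb r g k w')}

theorem AP_left {H : SimpleGraph W} {Y : Set W} {r : W} {V₀ K : Type} {k : K}
    {e : Sym2 (V₀ ⊕ (V₀ × K × W))} (he : e ∈ AP H Y r V₀ K k) (a : Sym2 V₀) :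
    Sym2.map Sum.inl a ≠ e := by
  obtain ⟨g, w, w', h, _, _, rfl⟩ := he
  intro h1
  induction a with
  | _ x y =>
    rw [Sym2.map_mk, Sym2.eq_iff] at h1
    rcases h1 with ⟨h1, h2⟩ | ⟨h1, h2⟩
    · exact h.ne ((aemb_eq_inl h1.symm).1.trans (aemb_eq_inl h2.symm).1.symm)
    · exact h.ne ((aemb_eq_inl h2.symm).1.trans (aemb_eq_inl h1.symm).1.symm)

theorem AP_diag {H : SimpleGraph W} {Y : Set W} {r : W} {V₀ K : Type} {k : K}
    {e : Sym2 (V₀ ⊕ (V₀ × K × W))} (he : e ∈ AP H Y r V₀ K k) : ¬ e.IsDiag := by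
  obtain ⟨g, w, w', h, _, _, rfl⟩ := he
  rw [Sym2.mk_isDiag_iff]
  exact fun h1 => h.ne (aemb_inj h1)

theorem AP_disj {H : SimpleGraph W} {Y : Set W} {r : W} {V₀ K : Type} {k l : K}
    {e : Sym2 (V₀ ⊕ (V₀ × K × W))} (he : e ∈ AP H Y r V₀ K k) (he' : e ∈ AP H Y r V₀ K l) :
    k = l := by
  obtain ⟨g, w, w', h, _, _, rfl⟩ := he
  obtain ⟨g', x, x', h', _, _, he'⟩ := he'
  have key : ∀ (a b : W), aemb r g k a = aemb r g' l b → a ≠ r → k = l := by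
    intro a b hab ha
    rw [aemb_ne g k ha] at hab
    have h1 := (aemb_eq_inr hab.symm).2
    simp only [Prod.mk.injEq] at h1
    exact h1.2.1
  rw [Sym2.eq_iff] at he'
  by_cases hw : w = r
  · have hw' : w' ≠ r := fun h1 => h.ne (hw.trans h1.symm)
    rcases he' with ⟨h1, h2⟩ | ⟨h1, h2⟩
    · exact key _ _ h2 hw'
    · exact key _ _ h2 hw'
  · rcases he' with ⟨h1, h2⟩ | ⟨h1, h2⟩
    · exact key _ _ h1 hw
    · exact key _ _ h1 hw

theorem attach_cases {H : SimpleGraph W} {Y : Set W} {r : W} {V₀ K : Type} {I₀ : Set (Sym2 V₀)}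
    {x y : V₀ ⊕ (V₀ × K × W)}
    (h : s(x, y) ∈ Sym2.map Sum.inl '' I₀ ∪ {e | ∃ k, e ∈ AP H Y r V₀ K k}) :
    (∃ a b, x = .inl a ∧ y = .inl b ∧ s(a, b) ∈ I₀) ∨
    (∃ g k w w', H.Adj w w' ∧ w ∈ Y ∧ w' ∈ Y ∧ x = aemb r g k w ∧ y = aemb r g k w') := by
  rcases h with ⟨a, ha, h⟩ | ⟨k, g, w, w', h, hw, hw', he⟩
  · left
    induction a with
    | _ a b =>
      rw [Sym2.map_mk, Sym2.eq_iff] at h
      rcases h with ⟨h1, h2⟩ | ⟨h1, h2⟩
      · exact ⟨a, b, h1.symm, h2.symm, ha⟩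
      · exact ⟨b, a, h2.symm, h1.symm, by rwa [Sym2.eq_swap]⟩
  · right
    rw [Sym2.eq_iff] at he
    rcases he with ⟨h1, h2⟩ | ⟨h1, h2⟩
    · exact ⟨g, k, w, w', h, hw, hw', h1, h2⟩
    · exact ⟨g, k, w', w, h.symm, hw', hw, h1, h2⟩

/-- Attaching copies of `H` induced on `Y`, rooted at `r`, at each vertex of a host. -/
theorem Fails.of_attach {H : SimpleGraph W} {S : Set W} (Y : Set W) (r : W)
    (hA : Fails.{0} (H.induce S)) (hAe : ∃ a ∈ S, ∃ b ∈ S, H.Adj a b)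
    (h1 : ∀ (V₀ K : Type) (I₀ : Set (Sym2 V₀)), HFree (H.induce S) I₀ →
      ∀ f : W → V₀ ⊕ (V₀ × K × W), Function.Injective f →
      (∀ a b, H.Adj a b → (∃ x y, f a = .inl x ∧ f b = .inl y ∧ s(x, y) ∈ I₀) ∨
        (∃ g k w w', H.Adj w w' ∧ w ∈ Y ∧ w' ∈ Y ∧ f a = aemb r g k w ∧ f b = aemb r g k w')) →
      False)
    (h2 : ∀ (V₀ K : Type) (F₀ : Set (Sym2 V₀)) (Good : Set K), Good.Infinite →
      ∀ f₀ : S → V₀, Function.Injective f₀ → (∀ a b : S, H.Adj a b → s(f₀ a, f₀ b) ∈ F₀) →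
      ∃ f : W → V₀ ⊕ (V₀ × K × W), Function.Injective f ∧
        ∀ a b, H.Adj a b → (∃ x y, f a = .inl x ∧ f b = .inl y ∧ s(x, y) ∈ F₀) ∨
        (∃ g, ∃ k ∈ Good, ∃ w w', H.Adj w w' ∧ w ∈ Y ∧ w' ∈ Y ∧ f a = aemb r g k w ∧
          f b = aemb r g k w')) : Fails.{0} H := by
  refine Fails.of_parts hA ?_ (fun V₀ K => V₀ × K × W) (fun V₀ K => AP H Y r V₀ K)
    (fun V₀ K k e he a => AP_left he a) (fun V₀ K k e he => AP_diag he)
    (fun V₀ K k l e he he' => AP_disj he he') ?_ ?_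
  · obtain ⟨a, ha, b, hb, hab⟩ := hAe
    exact ⟨⟨a, ha⟩, ⟨b, hb⟩, hab⟩
  · intro V₀ K I₀ hI₀
    rw [hFree_iff]
    intro f hf hfa
    exact h1 V₀ K I₀ hI₀ f hf (fun a b hab => attach_cases (hfa a b hab))
  · intro V₀ K F₀ Good hGood hF₀
    rw [not_hFree_iff] at hF₀ ⊢
    obtain ⟨f₀, hf₀, hf₀a⟩ := hF₀
    obtain ⟨f, hf, hfa⟩ := h2 V₀ K F₀ Good hGood f₀ hf₀ (fun a b hab => hf₀a a b hab)
    refine ⟨f, hf, fun a b hab => ?_⟩
    rcases hfa a b hab with ⟨x, y, h3, h4, h5⟩ | ⟨g, k, hk, w, w', h3, h4, h5, h6, h7⟩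
    · left
      exact ⟨s(x, y), h5, by rw [h3, h4]; rfl⟩
    · right
      exact ⟨k, hk, g, w, w', h3, h4, h5, by rw [h6, h7]⟩

end Pool.Agent.StrongMax
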