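import Pool.Agent.Lib.StrongMax.Basic42

/-!
# Trees of radius at most two (helper42)
-/

namespace Pool.Agent.StrongMax

universe u v

/-- `H` is a tree with centre `z` all of whose vertices are at distance at most two from `z`; `π y` is
the parent of a vertex `y` at distance two. -/
structure IsBase {W : Type v} (H : SimpleGraph W) (z : W) (π : W → W) : Prop where
  no_cc : ∀ x y, H.Adj z x → H.Adj z y → ¬ H.Adj x y
  gc1 : ∀ y, y ≠ z → ¬ H.Adj z y → H.Adj z (π y)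
  gc2 : ∀ y, y ≠ z → ¬ H.Adj z y → H.Adj y (π y)
  gc3 : ∀ y, y ≠ z → ¬ H.Adj z y → ∀ x, H.Adj y x → x = π y

section

variable {W : Type v} {H : SimpleGraph W} {z : W} {π : W → W}

/-- The children of the centre. -/
def Ch (H : SimpleGraph W) (z : W) : Set W := {x | H.Adj z x}

/-- The grandchildren of the centre. -/
def Gc (H : SimpleGraph W) (z : W) : Set W := {y | y ≠ z ∧ ¬ H.Adj z y}

theorem IsBase.edge (hH : IsBase H z π) {a b : W} (hab : H.Adj a b) :
    (a = z ∧ b ∈ Ch H z) ∨ (b = z ∧ a ∈ Ch H z) ∨ (a ∈ Gc H z ∧ b = π a) ∨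
      (b ∈ Gc H z ∧ a = π b) := by
  by_cases ha : a = z
  · subst ha; exact Or.inl ⟨rfl, hab⟩
  by_cases hb : b = z
  · subst hb; exact Or.inr (Or.inl ⟨rfl, hab.symm⟩)
  by_cases ha' : H.Adj z a
  · by_cases hb' : H.Adj z b
    · exact absurd hab (hH.no_cc a b ha' hb')
    · exact Or.inr (Or.inr (Or.inr ⟨⟨hb, hb'⟩, hH.gc3 b hb hb' a hab.symm⟩))
  · exact Or.inr (Or.inr (Or.inl ⟨⟨ha, ha'⟩, hH.gc3 a ha ha' b hab⟩))

/-- A function that is constant along the edges of `H` is constant. -/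
theorem IsBase.const (hH : IsBase H z π) {C : Type*} (cl : W → C)
    (h : ∀ a b, H.Adj a b → cl a = cl b) : ∀ x, cl x = cl z := by
  intro x
  by_cases hx : x = z
  · rw [hx]
  by_cases hx' : H.Adj z x
  · exact (h z x hx').symm
  · rw [h x (π x) (hH.gc2 x hx hx')]
    exact (h z (π x) (hH.gc1 x hx hx')).symm

theorem card_eq [Finite W] : Nat.card W = 1 + (Ch H z).ncard + (Gc H z).ncard := by
  classical
  have := Fintype.ofFinite W
  have h1 : (Set.univ : Set W) = {z} ∪ (Ch H z ∪ Gc H z) := by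
    ext x
    simp only [Set.mem_univ, Set.mem_union, Set.mem_singleton_iff, Ch, Gc, Set.mem_ofPred_eq, true_iff]
    tauto
  have h2 : Disjoint ({z} : Set W) (Ch H z ∪ Gc H z) := by
    rw [Set.disjoint_singleton_left]
    rintro (h | h)
    · exact H.irrefl h
    · exact h.1 rfl
  have h3 : Disjoint (Ch H z) (Gc H z) := by
    rw [Set.disjoint_left]
    intro x hx hx'
    exact hx'.2 hx
  rw [← Set.ncard_univ, h1, Set.ncard_union_eq h2, Set.ncard_union_eq h3, Set.ncard_singleton]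
  ring

/-- Embedding a tree of radius two. -/
theorem IsBase.embed [Finite W] (hH : IsBase H z π) {V : Type u} {F : Set (Sym2 V)} (z' : V)
    (g : W → V) (T : W → Set V)
    (hg : Set.InjOn g (Ch H z)) (hz : ∀ x ∈ Ch H z, s(z', g x) ∈ F) (hz' : ∀ x ∈ Ch H z, g x ≠ z')
    (hT1 : ∀ y ∈ Gc H z, ((Gc H z).ncard : ℕ∞) ≤ (T y).encard)
    (hT2 : ∀ y ∈ Gc H z, ∀ v ∈ T y, s(v, g (π y)) ∈ F ∧ v ≠ z' ∧ ∀ x ∈ Ch H z, g x ≠ v) :
    ¬ HFree H F := by
  classical
  obtain ⟨t, ht, htT⟩ := exists_sdr (ι := Gc H z) (fun y => T y.1) (Gc H z).ncard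
    (le_of_eq (Nat.card_coe_set_eq _)) (fun y => hT1 y.1 y.2)
  rw [not_hFree_iff]
  let f : W → V := fun x => if x = z then z' else if h : x ∈ Gc H z then t ⟨x, h⟩ else g x
  have hzG : z ∉ Gc H z := fun h => h.1 rfl
  have hzC : z ∉ Ch H z := fun h => H.irrefl h
  have hf1 : f z = z' := if_pos rfl
  have hne : ∀ x ∈ Ch H z, x ≠ z := fun x hx h => hzC (h ▸ hx)
  have hCG : ∀ x ∈ Ch H z, x ∉ Gc H z := fun x hx h => h.2 hx
  have hf2 : ∀ x ∈ Ch H z, f x = g x := fun x hx => by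
    simp only [f, if_neg (hne x hx), dif_neg (hCG x hx)]
  have hf3 : ∀ x (hx : x ∈ Gc H z), f x = t ⟨x, hx⟩ := fun x hx => by
    have : x ≠ z := hx.1
    simp only [f, if_neg this, dif_pos hx]
  have hcase : ∀ x, x = z ∨ x ∈ Ch H z ∨ x ∈ Gc H z := by
    intro x; simp only [Ch, Gc, Set.mem_ofPred_eq]; tauto
  refine ⟨f, ?_, ?_⟩
  · intro x y hxy
    rcases hcase x with hx | hx | hx <;> rcases hcase y with hy | hy | hy
    · rw [hx, hy]
    · rw [hx, hf1, hf2 y hy] at hxy; exact absurd hxy.symm (hz' y hy)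
    · rw [hx, hf1, hf3 y hy] at hxy; exact absurd hxy.symm (hT2 y hy _ (htT ⟨y, hy⟩)).2.1
    · rw [hy, hf1, hf2 x hx] at hxy; exact absurd hxy (hz' x hx)
    · rw [hf2 x hx, hf2 y hy] at hxy; exact hg hx hy hxy
    · rw [hf2 x hx, hf3 y hy] at hxy; exact absurd hxy ((hT2 y hy _ (htT ⟨y, hy⟩)).2.2 x hx)
    · rw [hy, hf1, hf3 x hx] at hxy; exact absurd hxy (hT2 x hx _ (htT ⟨x, hx⟩)).2.1
    · rw [hf3 x hx, hf2 y hy] at hxy; exact absurd hxy.symm ((hT2 x hx _ (htT ⟨x, hx⟩)).2.2 y hy)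
    · rw [hf3 x hx, hf3 y hy] at hxy; exact congrArg Subtype.val (ht hxy)
  · intro a b hab
    rcases hH.edge hab with ⟨ha, hb⟩ | ⟨hb, ha⟩ | ⟨ha, hb⟩ | ⟨hb, ha⟩
    · rw [ha, hf1, hf2 b hb]; exact hz b hb
    · rw [hb, hf1, hf2 a ha, Sym2.eq_swap]; exact hz a ha
    · have hπ : π a ∈ Ch H z := hH.gc1 a ha.1 ha.2
      rw [hb, hf3 a ha, hf2 _ hπ]
      exact (hT2 a ha _ (htT ⟨a, ha⟩)).1
    · have hπ : π b ∈ Ch H z := hH.gc1 b hb.1 hb.2
      rw [ha, hf3 b hb, hf2 _ hπ, Sym2.eq_swap]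
      exact (hT2 b hb _ (htT ⟨b, hb⟩)).1

/-- `H` does not embed into a bipartite graph one side of which is small. -/
theorem IsBase.no_bip [Finite W] (hH : IsBase H z π) {V : Type u} {r : ℕ}
    (hr1 : r < (Ch H z).ncard) (hr2 : r < 1 + (Gc H z).ncard) (f : W → V)
    (hf : Function.Injective f) (S : Set V) (hS : S.encard ≤ r)
    (h : ∀ a b, H.Adj a b → (f a ∈ S ↔ ¬ f b ∈ S)) : False := by
  classical
  by_cases hz : f z ∈ S
  · -- grandchildren and z
    have h1 : ∀ y ∈ Gc H z, f y ∈ S := by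
      intro y hy
      have hπ : H.Adj z (π y) := hH.gc1 y hy.1 hy.2
      have h2 := (h z (π y) hπ).1 hz
      exact (h y (π y) (hH.gc2 y hy.1 hy.2)).2 h2
    have h2 : f '' (insert z (Gc H z)) ⊆ S := by
      rintro _ ⟨y, rfl | hy, rfl⟩
      · exact hz
      · exact h1 y hy
    have h3 : (insert z (Gc H z)).encard ≤ r := by
      rw [← hf.encard_image]
      exact (Set.encard_le_encard h2).trans hS
    have h4 : z ∉ Gc H z := fun h => h.1 rfl
    rw [Set.encard_insert_of_notMem h4, ← (Set.toFinite (Gc H z)).cast_ncard_eq] at h3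
    have : (Gc H z).ncard + 1 ≤ r := by exact_mod_cast h3
    omega
  · have h1 : ∀ x ∈ Ch H z, f x ∈ S := by
      intro x hx
      by_contra h2
      exact hz ((h z x hx).2 h2)
    have h2 : f '' (Ch H z) ⊆ S := by
      rintro _ ⟨y, hy, rfl⟩
      exact h1 y hy
    have h3 : (Ch H z).encard ≤ r := by
      rw [← hf.encard_image]
      exact (Set.encard_le_encard h2).trans hS
    rw [← (Set.toFinite (Ch H z)).cast_ncard_eq] at h3
    have : (Ch H z).ncard ≤ r := by exact_mod_cast h3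
    omega

end

end Pool.Agent.StrongMax
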