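import Pool.Agent.Lib.StrongMax.Defs

/-!
# Basic lemmas on strongly maximal `H`-free edge sets (helper42)
-/

namespace Pool.Agent.StrongMax

open Cardinal

universe u v

section Basic

variable {W : Type v} {H : SimpleGraph W} {V : Type u}

theorem not_hFree_iff {F : Set (Sym2 V)} :
    ¬ HFree H F ↔ ∃ f : W → V, Function.Injective f ∧ ∀ a b, H.Adj a b → s(f a, f b) ∈ F := by
  unfold HFree SimpleGraph.Free
  rw [not_not]
  constructor
  · rintro ⟨f⟩
    refine ⟨f, f.injective, fun a b hab => ?_⟩
    have := f.toHom.map_adj hab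
    exact ((SimpleGraph.fromEdgeSet_adj _).1 this).1
  · rintro ⟨f, hf, h⟩
    refine ⟨⟨⟨f, fun {a b} hab => ?_⟩, hf⟩⟩
    exact (SimpleGraph.fromEdgeSet_adj _).2 ⟨h a b hab, fun he => hab.ne (hf he)⟩

theorem hFree_iff {F : Set (Sym2 V)} :
    HFree H F ↔ ∀ f : W → V, Function.Injective f → (∀ a b, H.Adj a b → s(f a, f b) ∈ F) → False := by
  rw [← not_iff_not, not_hFree_iff]
  push Not
  simp

theorem HFree.mono {F F' : Set (Sym2 V)} (h : F' ⊆ F) (hF : HFree H F) : HFree H F' := by
  rw [hFree_iff] at *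
  exact fun f hf h1 => hF f hf fun a b hab => h (h1 a b hab)

/-- The exchange lemma: if `F` is strongly maximal, `A ∩ F ⊆ B` and
`(F \ B) ∪ A` is `H`-free, then `A` has at most as many elements as `B`. -/
theorem StronglyMaximal.exchange {G : SimpleGraph V} {F : Set (Sym2 V)}
    (hF : StronglyMaximal H G F) {A B : Set (Sym2 V)} (hA : A ⊆ G.edgeSet)
    (hAB : A ∩ F ⊆ B) (hI : HFree H ((F \ B) ∪ A)) : A.encard ≤ B.encard := by
  have h1 := hF.2.2 ((F \ B) ∪ A) (Set.union_subset (Set.sdiff_subset.trans hF.1) hA) hI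
  have h2 : A \ B ⊆ ((F \ B) ∪ A) \ F := by
    rintro e ⟨he, heB⟩
    exact ⟨Or.inr he, fun heF => heB (hAB ⟨he, heF⟩)⟩
  have h3 : F \ ((F \ B) ∪ A) ⊆ B \ A := by
    rintro e ⟨he, hn⟩
    refine ⟨?_, fun h => hn (Or.inr h)⟩
    by_contra hB'
    exact hn (Or.inl ⟨he, hB'⟩)
  have h4 : #(↥(A \ B)) ≤ #(↥(B \ A)) :=
    (Cardinal.mk_le_mk_of_subset h2).trans (h1.trans (Cardinal.mk_le_mk_of_subset h3))
  have h5 : (A \ B).encard ≤ (B \ A).encard := by
    unfold Set.encard ENat.card
    exact Cardinal.toENat.monotone' h4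
  have h6 : A.encard = (A \ B).encard + (A ∩ B).encard := by
    rw [Set.encard_sdiff_add_encard_inter]
  have h7 : B.encard = (B \ A).encard + (B ∩ A).encard := by
    rw [Set.encard_sdiff_add_encard_inter]
  rw [h6, h7, Set.inter_comm B A]
  gcongr

/-- The exchange lemma for finsets. -/
theorem StronglyMaximal.exchange_fin {G : SimpleGraph V} {F : Set (Sym2 V)}
    (hF : StronglyMaximal H G F) {A B : Finset (Sym2 V)} (hA : ∀ e ∈ A, e ∈ G.edgeSet)
    (hAB : ∀ e ∈ A, e ∈ F → e ∈ B) (hI : HFree H ((F \ ↑B) ∪ ↑A)) : A.card ≤ B.card := by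
  have h := hF.exchange (A := ↑A) (B := ↑B) (fun e he => hA e he)
    (fun e he => hAB e he.1 he.2) hI
  rw [Set.encard_coe_eq_coe_finsetCard, Set.encard_coe_eq_coe_finsetCard] at h
  exact_mod_cast h

/-- A system of distinct representatives for a family of large sets. -/
theorem exists_sdr {ι : Type*} [Finite ι] {α : Type*} (T : ι → Set α) (n : ℕ)
    (hn : Nat.card ι ≤ n) (hT : ∀ i, (n : ℕ∞) ≤ (T i).encard) :
    ∃ g : ι → α, Function.Injective g ∧ ∀ i, g i ∈ T i := by
  classical
  have := Fintype.ofFinite ι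
  have h1 : ∀ i, ∃ S : Finset α, ↑S ⊆ T i ∧ S.card = n := by
    intro i
    obtain ⟨s, hs, hc⟩ := Set.exists_subset_encard_eq (hT i)
    have hfin : s.Finite := Set.finite_of_encard_eq_coe hc
    refine ⟨hfin.toFinset, by simpa using hs, ?_⟩
    have := hfin.encard_eq_coe_toFinset_card
    rw [hc] at this
    exact_mod_cast this.symm
  choose S hS hSc using h1
  have h2 := (Finset.all_card_le_biUnion_card_iff_exists_injective S).1 (by
    intro s
    rcases s.eq_empty_or_nonempty with rfl | ⟨i, hi⟩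
    · simp
    · calc s.card ≤ Fintype.card ι := s.card_le_univ
        _ = Nat.card ι := (Nat.card_eq_fintype_card).symm
        _ ≤ n := hn
        _ = (S i).card := (hSc i).symm
        _ ≤ (s.biUnion S).card := Finset.card_le_card (Finset.subset_biUnion_of_mem S hi))
  obtain ⟨g, hg, hgS⟩ := h2
  exact ⟨g, hg, fun i => hS i (hgS i)⟩

/-- A system of distinct representatives where the members of `X` must be chosen in a smaller set. -/
theorem exists_sdr_two {ι : Type*} [Finite ι] {α : Type*} (X : Set ι) (A B : Set α) (hAB : A ⊆ B)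
    (hA : X.encard ≤ A.encard) (hB : (Nat.card ι : ℕ∞) ≤ B.encard) :
    ∃ g : ι → α, Function.Injective g ∧ (∀ i, g i ∈ B) ∧ ∀ i ∈ X, g i ∈ A := by
  classical
  have := Fintype.ofFinite ι
  have hXf : X.Finite := Set.toFinite X
  obtain ⟨A', hA', hA'c⟩ := Set.exists_subset_encard_eq hA
  have hA'fin : A'.Finite := by
    rw [← Set.encard_ne_top_iff, hA'c]
    exact Set.encard_ne_top_iff.2 hXf
  obtain ⟨B₁, hB₁, hB₁c⟩ := Set.exists_subset_encard_eq hB
  have hB₁fin : B₁.Finite := Set.finite_of_encard_eq_coe hB₁c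
  let SA : Finset α := hA'fin.toFinset
  let SB : Finset α := hB₁fin.toFinset ∪ SA
  have hSB : Nat.card ι ≤ SB.card := by
    have h := hB₁fin.encard_eq_coe_toFinset_card
    rw [hB₁c] at h
    have h' : Nat.card ι = hB₁fin.toFinset.card := by exact_mod_cast h
    rw [h']
    exact Finset.card_le_card Finset.subset_union_left
  have hSA : X.toFinset.card = SA.card := by
    have h := hA'fin.encard_eq_coe_toFinset_card
    rw [hA'c, ← Set.coe_toFinset X, Set.encard_coe_eq_coe_finsetCard] at h
    exact_mod_cast h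
  have h2 := (Finset.all_card_le_biUnion_card_iff_exists_injective
    (fun i => if i ∈ X then SA else SB)).1 (by
    intro s
    by_cases hs : ∀ i ∈ s, i ∈ X
    · rcases s.eq_empty_or_nonempty with rfl | ⟨i, hi⟩
      · simp
      · calc s.card ≤ X.toFinset.card := Finset.card_le_card (fun i hi => by simpa using hs i hi)
          _ = SA.card := hSA
          _ = (if i ∈ X then SA else SB).card := by rw [if_pos (hs i hi)]
          _ ≤ _ := Finset.card_le_card
              (Finset.subset_biUnion_of_mem (fun i => if i ∈ X then SA else SB) hi)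
    · push Not at hs
      obtain ⟨i, hi, hiX⟩ := hs
      calc s.card ≤ Fintype.card ι := s.card_le_univ
        _ = Nat.card ι := (Nat.card_eq_fintype_card).symm
        _ ≤ SB.card := hSB
        _ = (if i ∈ X then SA else SB).card := by rw [if_neg hiX]
        _ ≤ _ := Finset.card_le_card
              (Finset.subset_biUnion_of_mem (fun i => if i ∈ X then SA else SB) hi))
  obtain ⟨g, hg, hgS⟩ := h2
  have hSAA : ∀ a ∈ SA, a ∈ A := fun a ha => hA' (by simpa [SA] using ha)
  refine ⟨g, hg, fun i => ?_, fun i hi => ?_⟩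
  · have h := hgS i
    by_cases hi : i ∈ X
    · rw [if_pos hi] at h; exact hAB (hSAA _ h)
    · rw [if_neg hi] at h
      rcases Finset.mem_union.1 h with h | h
      · exact hB₁ (by simpa using h)
      · exact hAB (hSAA _ h)
  · have h := hgS i
    rw [if_pos hi] at h
    exact hSAA _ h

end Basic

end Pool.Agent.StrongMax
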