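import Pool.Agent.Lib.StrongMax.LG2

/-!
# The large girth relation is bad, conclusion (helper18, construction of helper9)
-/

namespace Pool.Agent.StrongMax

open Finset

namespace LGI

variable {r : ℕ}

theorem node_mem_Clu {l j c t : ℕ} (hj : j < nn l) (hc : c < mm l) (_ht : t ≤ 2 * r + 1) :
    node r l j c t ∈ Clu r l := by
  unfold Clu
  rw [mem_union, mem_union]
  rcases node_cases (r := r) l j c t with ⟨e1, e2⟩ | ⟨e1, e1', e2⟩ | ⟨e1, e2⟩
  · rw [e2]; exact Or.inl (Or.inl (mem_Hub.2 ⟨j, hj, rfl⟩))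
  · rw [e2]
    refine Or.inr (mem_Inn.2 ⟨j, hj, c, hc, t - 1, by omega, ?_⟩)
    rw [Nat.sub_add_cancel e1]
  · rw [e2]; exact Or.inl (Or.inr (mem_Cli.2 ⟨c, hc, rfl⟩))

theorem odd_of_mem_newC {l j c t l' : ℕ} (ht : t ≤ 2 * r + 1) (h : node r l j c t ∈ newC r l') :
    Odd t := by
  unfold newC at h
  rcases node_cases (r := r) l j c t with ⟨e1, e2⟩ | ⟨e1, e1', e2⟩ | ⟨e1, e2⟩
  · rw [e2] at h
    exfalso
    rcases mem_union.1 h with h | h
    · obtain ⟨_, _, h⟩ := mem_Cli.1 h; cases h
    · obtain ⟨_, _, _, _, _, _, h⟩ := mem_Inn.1 h; cases h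
  · rw [e2] at h
    rcases mem_union.1 h with h | h
    · obtain ⟨_, _, h⟩ := mem_Cli.1 h; cases h
    · obtain ⟨_, _, _, _, i, _, h⟩ := mem_Inn.1 h
      injection h with h1 h2 h3 h4
      exact ⟨i, h4⟩
  · exact ⟨r, by omega⟩

theorem even_of_mem_newH {l j c t l' : ℕ} (_ht : t ≤ 2 * r + 1) (h : node r l j c t ∈ newH r l') :
    Even t := by
  unfold newH at h
  rcases node_cases (r := r) l j c t with ⟨e1, e2⟩ | ⟨e1, e1', e2⟩ | ⟨e1, e2⟩
  · exact ⟨0, e1⟩
  · rw [e2] at h
    rcases mem_union.1 h with h | h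
    · obtain ⟨_, _, h⟩ := mem_Hub.1 h; cases h
    · obtain ⟨_, _, _, _, i, _, h⟩ := mem_Inn.1 h
      injection h with h1 h2 h3 h4
      exact ⟨i + 1, by omega⟩
  · rw [e2] at h
    exfalso
    rcases mem_union.1 h with h | h
    · obtain ⟨_, _, h⟩ := mem_Hub.1 h; cases h
    · obtain ⟨_, _, _, _, _, _, h⟩ := mem_Inn.1 h; cases h

theorem hub_notMem_newC {l j l' : ℕ} : LGI.hub l j ∉ newC r l' := by
  intro h
  unfold newC at h
  rcases mem_union.1 h with h | h
  · obtain ⟨_, _, h⟩ := mem_Cli.1 h; cases h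
  · obtain ⟨_, _, _, _, _, _, h⟩ := mem_Inn.1 h; cases h

/-- A child of a hub is a hub of its cluster. -/
theorem child_lt {k p l j : ℕ} (hkl : k < l) (hp : p < nn k) (hj : j / (l + 2) = ss k + p) :
    j < nn l := by
  have h1 := ss_mono (Nat.succ_le_of_lt hkl)
  rw [Nat.succ_eq_add_one, ss_succ] at h1
  have h2 : j / (l + 2) < ss l := by omega
  have h3 : j < ss l * (l + 2) := by
    rwa [Nat.div_lt_iff_lt_mul (by omega)] at h2
  unfold nn mm
  nlinarith

/-- The two kinds of conflicts. -/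
theorem LRel.cases' {a b : LGI} (h : LRel r a b) :
    (∃ k p l j, k < l ∧ p < nn k ∧ j < nn l ∧ j / (l + 2) = ss k + p ∧ a = .hub k p ∧ b = .hub l j) ∨
    (∃ l j c t, j < nn l ∧ c < mm l ∧ t ≤ 2 * r ∧ a = node r l j c t ∧ b = node r l j c (t + 1)) := by
  cases h with
  | par k p l j hkl hp hj => exact Or.inl ⟨k, p, l, j, hkl, hp, child_lt hkl hp hj, hj, rfl, rfl⟩
  | chain l j c i hj hc hi => exact Or.inr ⟨l, j, c, i, hj, hc, hi, rfl, rfl⟩

theorem indep_newC {l l' : ℕ} {b b' : LGI} (hb : b ∈ newC r l) (hb' : b' ∈ newC r l') : ¬ LRel r b b' := by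
  intro h
  rcases h.cases' with ⟨k, p, l'', j, -, -, -, -, rfl, -⟩ | ⟨l'', j, c, t, -, -, ht, rfl, rfl⟩
  · exact hub_notMem_newC hb
  · obtain ⟨i, hi⟩ := odd_of_mem_newC (by omega) hb
    obtain ⟨i', hi'⟩ := odd_of_mem_newC (by omega) hb'
    omega

theorem indep_newH {l : ℕ} {b b' : LGI} (hb : b ∈ newH r l) (hb' : b' ∈ newH r l) : ¬ LRel r b b' := by
  intro h
  rcases h.cases' with ⟨k, p, l'', j, h1, -, -, -, rfl, rfl⟩ | ⟨l'', j, c, t, -, -, ht, rfl, rfl⟩
  · have h2 := mem_Clu_cix (newH_sub l hb)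
    have h3 := mem_Clu_cix (newH_sub l hb')
    simp only [cix] at h2 h3
    omega
  · obtain ⟨i, hi⟩ := even_of_mem_newH (by omega) hb
    obtain ⟨i', hi'⟩ := even_of_mem_newH (by omega) hb'
    omega

/-- Related items of different clusters are hubs. -/
theorem rel_cix {a b : LGI} (h : LRel r a b) (hne : cix a ≠ cix b) :
    ∃ k p l j, p < nn k ∧ j < nn l ∧ a = .hub k p ∧ b = .hub l j := by
  rcases h.cases' with ⟨k, p, l, j, -, h1, h2, -, h3, h4⟩ | ⟨l, j, c, t, h1, h2, h3, rfl, rfl⟩
  · exact ⟨k, p, l, j, h1, h2, h3, h4⟩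
  · exact absurd ((mem_Clu_cix (node_mem_Clu h1 h2 (by omega))).trans
      (mem_Clu_cix (node_mem_Clu h1 h2 (by omega))).symm) hne

/-- Items related to an item which is not a hub are in the same cluster. -/
theorem rel_nonhub {a b : LGI} (h : LRel r a b ∨ LRel r b a) (ha : ∀ l j, a ≠ .hub l j) :
    b ∈ Clu r (cix a) := by
  rcases h with h | h
  · rcases h.cases' with ⟨k, p, l, j, -, -, -, -, rfl, -⟩ | ⟨l, j, c, t, h1, h2, h3, rfl, rfl⟩
    · exact absurd rfl (ha k p)
    · rw [mem_Clu_cix (node_mem_Clu h1 h2 (by omega))]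
      exact node_mem_Clu h1 h2 (by omega)
  · rcases h.cases' with ⟨k, p, l, j, -, -, -, -, -, rfl⟩ | ⟨l, j, c, t, h1, h2, h3, rfl, rfl⟩
    · exact absurd rfl (ha l j)
    · rw [mem_Clu_cix (node_mem_Clu h1 h2 (by omega))]
      exact node_mem_Clu h1 h2 (by omega)

/-- Items related to a hub are in the same cluster or are hubs. -/
theorem rel_hub {l j : ℕ} {b : LGI} (h : LRel r (.hub l j) b ∨ LRel r b (.hub l j)) :
    b ∈ Clu r l ∨ ∃ l' j', l' ≠ l ∧ j' < nn l' ∧ b = .hub l' j' := by
  rcases h with h | h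
  · rcases h.cases' with ⟨k, p, l', j', h1, h2, h3, h4, h5, rfl⟩ | ⟨l', j', c, t, h1, h2, h3, h4, rfl⟩
    · injection h5 with h6 h7
      exact Or.inr ⟨l', j', by omega, h3, rfl⟩
    · left
      have h5 := mem_Clu_cix (node_mem_Clu (t := t) h1 h2 (by omega : t ≤ 2 * r + 1))
      rw [← h4] at h5
      have h6 : l = l' := h5
      rw [h6]
      exact node_mem_Clu h1 h2 (by omega)
  · rcases h.cases' with ⟨k, p, l', j', h1, h2, h3, h4, rfl, h5⟩ | ⟨l', j', c, t, h1, h2, h3, rfl, h4⟩
    · injection h5 with h6 h7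
      exact Or.inr ⟨k, p, by omega, h2, rfl⟩
    · left
      have h5 := mem_Clu_cix (node_mem_Clu (t := t + 1) h1 h2 (by omega : t + 1 ≤ 2 * r + 1))
      rw [← h4] at h5
      have h6 : l = l' := h5
      rw [h6]
      exact node_mem_Clu h1 h2 (by omega)

theorem nonhub_newC {l : ℕ} {b : LGI} (hb : b ∈ newC r l) : ∀ k p, b ≠ .hub k p := by
  rintro k p rfl
  exact hub_notMem_newC hb

theorem node_succ_ne_hub (l j c t k p : ℕ) : node r l j c (t + 1) ≠ .hub k p := by
  rcases node_cases (r := r) l j c (t + 1) with ⟨e1, e2⟩ | ⟨e1, e1', e2⟩ | ⟨e1, e2⟩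
  · omega
  · rw [e2]; intro h; cases h
  · rw [e2]; intro h; cases h

/-- The inequality given by the client mode. -/
theorem client_ineq (hr : 1 ≤ r) {S : Set LGI} (hS : Stable (LRel r) S) (l : ℕ)
    (Cext : Finset (LGI × LGI)) (hC : ∀ c ∈ Cext, LRel r c.1 c.2 ∧ c.1 ∈ S ∧ c.2 ∈ S ∧ c.2 ∈ Hub l) :
    mm l + Cext.card + aa S l * bb S l ≤ aa S l + bb S l := by
  classical
  obtain ⟨C, hC1, hC2⟩ := exists_CC hr S l
  have h1 := hS.exch (Clu r l) (newC r l) (newC_sub l) (fun b hb b' hb' => indep_newC hb hb')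
    (fun b hb i _ h => by
      have := rel_nonhub h (nonhub_newC hb)
      rwa [mem_Clu_cix (newC_sub l hb)] at this) (C ∪ Cext) ?_
  · rw [card_newC, card_union_of_disjoint] at h1
    · omega
    · rw [disjoint_left]
      intro p hp hp'
      obtain ⟨-, -, j, -, c, -, t, -, rfl⟩ := hC1 p hp
      obtain ⟨j', -, h⟩ := mem_Hub.1 (hC _ hp').2.2.2
      exact node_succ_ne_hub _ _ _ _ _ _ h
  · intro p hp
    rcases mem_union.1 hp with hp | hp
    · obtain ⟨h1, h2, j, hj, c, hc, t, ht, rfl⟩ := hC1 p hp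
      refine ⟨LRel.chain l j c t hj hc ht, h1, h2, ?_⟩
      rw [mem_sdiff, mem_sdiff]
      by_cases h3 : node r l j c t ∈ newC r l
      · right
        refine ⟨node_mem_Clu hj hc (by omega), fun h4 => ?_⟩
        obtain ⟨i, hi⟩ := odd_of_mem_newC (by omega) h3
        obtain ⟨i', hi'⟩ := odd_of_mem_newC (by omega) h4
        omega
      · exact Or.inl ⟨node_mem_Clu hj hc (by omega), h3⟩
    · obtain ⟨h1, h2, h3, h4⟩ := hC p hp
      refine ⟨h1, h2, h3, Or.inr ?_⟩
      rw [mem_sdiff]
      obtain ⟨j, hj, h5⟩ := mem_Hub.1 h4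
      refine ⟨?_, h5 ▸ hub_notMem_newC⟩
      unfold Clu
      rw [mem_union, mem_union]
      exact Or.inl (Or.inl h4)

theorem two_le_mm (l : ℕ) : 2 ≤ mm l := by unfold mm; omega

/-- Every cluster is in client mode or active. -/
theorem mode (hr : 1 ≤ r) {S : Set LGI} (hS : Stable (LRel r) S) (l : ℕ) :
    (aa S l = 0 ∧ bb S l = mm l) ∨ (bb S l = 0 ∧ mm l ≤ aa S l) := by
  have h1 := client_ineq hr hS l ∅ (by simp)
  rw [card_empty, add_zero] at h1
  have h2 := bb_le S l
  have h3 := two_le_mm l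
  rcases Nat.eq_zero_or_pos (aa S l) with h4 | h4
  · rw [h4] at h1
    exact Or.inl ⟨h4, by omega⟩
  · rcases Nat.eq_zero_or_pos (bb S l) with h5 | h5
    · rw [h5] at h1
      exact Or.inr ⟨h5, by omega⟩
    · exfalso
      obtain ⟨a, ha⟩ : ∃ a, aa S l = a + 1 := ⟨aa S l - 1, by omega⟩
      obtain ⟨b, hb⟩ : ∃ b, bb S l = b + 1 := ⟨bb S l - 1, by omega⟩
      rw [ha, hb] at h1
      have h6 : (a + 1) * (b + 1) = a * b + a + b + 1 := by ring
      have h7 : 0 ≤ a * b := Nat.zero_le _
      omega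

theorem exists_hub {S : Set LGI} {l : ℕ} (h : aa S l ≠ 0) : ∃ p < nn l, LGI.hub l p ∈ S := by
  classical
  unfold aa at h
  obtain ⟨x, hx⟩ := card_pos.1 (Nat.pos_of_ne_zero h)
  obtain ⟨h1, h2⟩ := mem_filter.1 hx
  obtain ⟨j, hj, rfl⟩ := mem_Hub.1 h1
  exact ⟨j, hj, h2⟩

theorem aa_ne_zero {S : Set LGI} {l p : ℕ} (hp : p < nn l) (h : LGI.hub l p ∈ S) : aa S l ≠ 0 := by
  classical
  unfold aa
  exact (card_pos.2 ⟨_, mem_filter.2 ⟨mem_Hub.2 ⟨p, hp, rfl⟩, h⟩⟩).ne'

/-- Two clusters cannot be active. -/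
theorem not_two_active (hr : 1 ≤ r) {S : Set LGI} (hS : Stable (LRel r) S) {k l : ℕ} (hkl : k < l)
    (hk : aa S k ≠ 0) (hl : aa S l ≠ 0) : False := by
  classical
  obtain ⟨p, hp, hpS⟩ := exists_hub hk
  have hbl : bb S l = 0 := by
    rcases mode hr hS l with h | h
    · exact absurd h.1 hl
    · exact h.1
  have hdiv : ∀ a < l + 2, ((ss k + p) * (l + 2) + a) / (l + 2) = ss k + p := by
    intro a ha
    rw [Nat.div_eq_iff (by omega)]
    constructor
    · omega
    · omega
  let ch : ℕ → LGI := fun a => .hub l ((ss k + p) * (l + 2) + a)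
  have hch : Function.Injective ch := by
    intro a a' h
    injection h with h1 h2
    omega
  have hchH : ∀ a < l + 2, ch a ∈ Hub l := fun a ha =>
    mem_Hub.2 ⟨_, child_lt hkl hp (hdiv a ha), rfl⟩
  have h1 := client_ineq hr hS l (((range (l + 2)).filter (fun a => ch a ∈ S)).image
    (fun a => (LGI.hub k p, ch a))) (by
      intro c hc
      obtain ⟨a, ha, rfl⟩ := mem_image.1 hc
      obtain ⟨ha1, ha2⟩ := mem_filter.1 ha
      have ha3 := mem_range.1 ha1
      exact ⟨LRel.par k p l _ hkl hp (hdiv a ha3), hpS, ha2, hchH a ha3⟩)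
  rw [card_image_of_injective _ (fun a a' h => hch (Prod.mk.inj h).2), hbl, mul_zero, add_zero,
    add_zero] at h1
  have h2 : ((range (l + 2)).filter (fun a => ch a ∉ S)).card + aa S l ≤ nn l := by
    have h3 : (((range (l + 2)).filter (fun a => ch a ∉ S)).image ch).card =
        ((range (l + 2)).filter (fun a => ch a ∉ S)).card := card_image_of_injective _ hch
    have h4 : ((range (l + 2)).filter (fun a => ch a ∉ S)).image ch ⊆
        (Hub l).filter (· ∉ S) := by
      intro x hx
      obtain ⟨a, ha, rfl⟩ := mem_image.1 hx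
      obtain ⟨ha1, ha2⟩ := mem_filter.1 ha
      exact mem_filter.2 ⟨hchH a (mem_range.1 ha1), ha2⟩
    have h5 := card_le_card h4
    have h6 : ((Hub l).filter (· ∈ S)).card + ((Hub l).filter (· ∉ S)).card = (Hub l).card :=
      card_filter_add_card_filter_not _
    rw [card_Hub] at h6
    unfold aa
    omega
  have h3 : ((range (l + 2)).filter (fun a => ch a ∈ S)).card +
      ((range (l + 2)).filter (fun a => ch a ∉ S)).card = (range (l + 2)).card :=
    card_filter_add_card_filter_not _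
  rw [card_range] at h3
  have h4 : nn l = mm l + (l + 1) := rfl
  omega

theorem not_stable (hr : 1 ≤ r) (S : Set LGI) : ¬ Stable (LRel r) S := by
  classical
  intro hS
  by_cases hact : ∃ k, aa S k ≠ 0
  · -- exactly one active cluster
    obtain ⟨k, hk⟩ := hact
    have hother : ∀ l, l ≠ k → aa S l = 0 := by
      intro l hlk
      by_contra h
      rcases lt_or_gt_of_ne hlk with h1 | h1
      · exact not_two_active hr hS h1 h hk
      · exact not_two_active hr hS h1 hk h
    have hbk : bb S k = 0 := by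
      rcases mode hr hS k with h | h
      · exact absurd h.1 hk
      · exact h.1
    have hl0 := hother (k + 1) (by omega)
    obtain ⟨C, hC1, hC2⟩ := exists_CC hr S k
    obtain ⟨C', hC1', hC2'⟩ := exists_CC hr S (k + 1)
    have hdU : Disjoint (Clu r k) (Clu r (k + 1)) := by
      rw [disjoint_left]
      intro x hx hx'
      have h1 := mem_Clu_cix hx
      have h2 := mem_Clu_cix hx'
      omega
    have h1 := hS.exch (Clu r k ∪ Clu r (k + 1)) (newC r k ∪ newH r (k + 1))
      (union_subset_union (newC_sub k) (newH_sub (k + 1))) ?_ ?_ (C ∪ C') ?_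
    · rw [card_union_of_disjoint (hdU.mono (newC_sub k) (newH_sub (k + 1))), card_newC, card_newH,
        filter_union, card_union_of_disjoint (disjoint_filter_filter hdU),
        card_union_of_disjoint] at h1
      · rw [hbk, mul_zero] at hC2
        rw [hl0, zero_mul] at hC2'
        have h2 := aa_le S k
        have h3 := bb_le S (k + 1)
        have h4 : nn k = mm k + (k + 1) := rfl
        have h5 : nn (k + 1) = mm (k + 1) + (k + 1 + 1) := rfl
        omega
      · rw [disjoint_left]
        intro p hp hp'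
        obtain ⟨-, -, j, hj, c, hc, t, ht, rfl⟩ := hC1 p hp
        obtain ⟨-, -, j', hj', c', hc', t', ht', h⟩ := hC1' _ hp'
        obtain ⟨h2, h3⟩ := Prod.mk.inj h
        have := (edge_inj hr ht ht' h2 h3).1
        omega
    · intro b hb b' hb' h
      rcases mem_union.1 hb with hb | hb
      · rcases mem_union.1 hb' with hb' | hb'
        · exact indep_newC hb hb' h
        · have h2 := rel_nonhub (Or.inl h) (nonhub_newC hb)
          rw [mem_Clu_cix (newC_sub k hb)] at h2
          have h3 := mem_Clu_cix h2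
          have h4 := mem_Clu_cix (newH_sub _ hb')
          omega
      · rcases mem_union.1 hb' with hb' | hb'
        · have h2 := rel_nonhub (Or.inr h) (nonhub_newC hb')
          rw [mem_Clu_cix (newC_sub k hb')] at h2
          have h3 := mem_Clu_cix h2
          have h4 := mem_Clu_cix (newH_sub _ hb)
          omega
        · exact indep_newH hb hb' h
    · intro b hb i hi h
      rcases mem_union.1 hb with hb | hb
      · have h2 := rel_nonhub h (nonhub_newC hb)
        rw [mem_Clu_cix (newC_sub k hb)] at h2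
        exact mem_union_left _ h2
      · by_cases hbh : ∃ l j, b = .hub l j
        · obtain ⟨l, j, rfl⟩ := hbh
          have hlk : l = k + 1 := mem_Clu_cix (newH_sub _ hb)
          rcases rel_hub h with h2 | ⟨l', j', h2, h3, rfl⟩
          · rw [hlk] at h2
            exact mem_union_right _ h2
          · have h4 : l' = k := by
              by_contra h5
              exact aa_ne_zero h3 hi (hother l' h5)
            rw [h4] at h3 ⊢
            refine mem_union_left _ ?_
            unfold Clu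
            rw [mem_union, mem_union]
            exact Or.inl (Or.inl (mem_Hub.2 ⟨j', h3, rfl⟩))
        · push Not at hbh
          have h2 := rel_nonhub h hbh
          rw [mem_Clu_cix (newH_sub _ hb)] at h2
          exact mem_union_right _ h2
    · intro p hp
      rcases mem_union.1 hp with hp | hp
      · obtain ⟨h1, h2, j, hj, c, hc, t, ht, rfl⟩ := hC1 p hp
        refine ⟨LRel.chain k j c t hj hc ht, h1, h2, ?_⟩
        have e1 : node r k j c t ∈ Clu r k := node_mem_Clu hj hc (by omega)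
        have e2 : node r k j c (t + 1) ∈ Clu r k := node_mem_Clu hj hc (by omega)
        have e3 : ∀ x ∈ Clu r k, x ∉ newH r (k + 1) := by
          intro x hx hx'
          have h5 := mem_Clu_cix hx
          have h6 := mem_Clu_cix (newH_sub _ hx')
          omega
        rw [mem_sdiff, mem_sdiff, mem_union, mem_union, mem_union, mem_union]
        by_cases h3 : node r k j c t ∈ newC r k
        · right
          refine ⟨Or.inl e2, ?_⟩
          rintro (h4 | h4)
          · obtain ⟨i, hi⟩ := odd_of_mem_newC (by omega) h3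
            obtain ⟨i', hi'⟩ := odd_of_mem_newC (by omega) h4
            omega
          · exact e3 _ e2 h4
        · left
          refine ⟨Or.inl e1, ?_⟩
          rintro (h4 | h4)
          · exact h3 h4
          · exact e3 _ e1 h4
      · obtain ⟨h1, h2, j, hj, c, hc, t, ht, rfl⟩ := hC1' p hp
        refine ⟨LRel.chain (k + 1) j c t hj hc ht, h1, h2, ?_⟩
        have e1 : node r (k + 1) j c t ∈ Clu r (k + 1) := node_mem_Clu hj hc (by omega)
        have e2 : node r (k + 1) j c (t + 1) ∈ Clu r (k + 1) := node_mem_Clu hj hc (by omega)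
        have e3 : ∀ x ∈ Clu r (k + 1), x ∉ newC r k := by
          intro x hx hx'
          have h5 := mem_Clu_cix hx
          have h6 := mem_Clu_cix (newC_sub _ hx')
          omega
        rw [mem_sdiff, mem_sdiff, mem_union, mem_union, mem_union, mem_union]
        by_cases h3 : node r (k + 1) j c t ∈ newH r (k + 1)
        · right
          refine ⟨Or.inr e2, ?_⟩
          rintro (h4 | h4)
          · exact e3 _ e2 h4
          · obtain ⟨i, hi⟩ := even_of_mem_newH (by omega) h3
            obtain ⟨i', hi'⟩ := even_of_mem_newH (by omega) h4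
            omega
        · left
          refine ⟨Or.inr e1, ?_⟩
          rintro (h4 | h4)
          · exact e3 _ e1 h4
          · exact h3 h4
  · -- no active cluster
    push Not at hact
    obtain ⟨C, hC1, hC2⟩ := exists_CC hr S 0
    have h1 := hS.exch (Clu r 0) (newH r 0) (newH_sub 0) (fun b hb b' hb' => indep_newH hb hb') ?_ C ?_
    · rw [card_newH] at h1
      rw [hact 0, zero_mul] at hC2
      have h3 := bb_le S 0
      have h4 : nn 0 = mm 0 + (0 + 1) := rfl
      omega
    · intro b hb i hi h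
      by_cases hbh : ∃ l j, b = .hub l j
      · obtain ⟨l, j, rfl⟩ := hbh
        have hlk : l = 0 := mem_Clu_cix (newH_sub _ hb)
        rcases rel_hub h with h2 | ⟨l', j', h2, h3, rfl⟩
        · rwa [hlk] at h2
        · exact absurd (hact l') (aa_ne_zero h3 hi)
      · push Not at hbh
        have h2 := rel_nonhub h hbh
        rwa [mem_Clu_cix (newH_sub _ hb)] at h2
    · intro p hp
      obtain ⟨h1, h2, j, hj, c, hc, t, ht, rfl⟩ := hC1 p hp
      refine ⟨LRel.chain 0 j c t hj hc ht, h1, h2, ?_⟩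
      rw [mem_sdiff, mem_sdiff]
      by_cases h3 : node r 0 j c t ∈ newH r 0
      · right
        refine ⟨node_mem_Clu hj hc (by omega), fun h4 => ?_⟩
        obtain ⟨i, hi⟩ := even_of_mem_newH (by omega) h3
        obtain ⟨i', hi'⟩ := even_of_mem_newH (by omega) h4
        omega
      · exact Or.inl ⟨node_mem_Clu hj hc (by omega), h3⟩

theorem bad (hr : 1 ≤ r) : Bad (LRel r) := bad_of_stable (not_stable hr)

end LGI

/-! ### Removing isolated items -/

section Restrict

variable {I : Type} (R : I → I → Prop)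

/-- The items which are not isolated. -/
def NonIso : Type := {i : I // ∃ j, R i j ∨ R j i}

/-- The relation on the items which are not isolated. -/
def resR (i j : NonIso R) : Prop := R i.1 j.1

theorem resR_iso (i : NonIso R) : ∃ j, resR R i j ∨ resR R j i := by
  obtain ⟨i, j, h⟩ := i
  exact ⟨⟨j, i, h.symm⟩, h⟩

theorem resR_oriented (h : Oriented R) : Oriented (resR R) :=
  ⟨fun i => h.irrefl i.1, fun i j => h.asymm i.1 j.1⟩

theorem resR_bridge {N : ℕ} (h : Bridge R N) : Bridge (resR R) N := by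
  classical
  intro E hE hER K hK
  have hinj : Function.Injective (fun k : NonIso R × NonIso R => (k.1.1, k.2.1)) := by
    intro k l h
    obtain ⟨h1, h2⟩ := Prod.mk.inj h
    exact Prod.ext (Subtype.ext h1) (Subtype.ext h2)
  obtain ⟨Q, h1, h2, h3⟩ := h (E.image (fun k => (k.1.1, k.2.1))) (card_image_le.trans hE) (by
    intro k hk
    obtain ⟨k', hk', rfl⟩ := mem_image.1 hk
    exact hER k' hk') (K.1.1, K.2.1) (mem_image_of_mem _ hK)
  refine ⟨{i | i.1 ∈ Q}, h1, h2, fun l hl hne => ?_⟩
  exact h3 (l.1.1, l.2.1) (mem_image_of_mem _ hl) (fun h => hne (hinj h))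

theorem resR_bad (h : Bad R) : Bad (resR R) := by
  classical
  intro S
  let N : I → Prop := fun i => ∃ j, R i j ∨ R j i
  obtain ⟨A, B, C, h1, h2, h3, h4, h5, h6⟩ := h {i | ∀ hi : N i, (⟨i, hi⟩ : NonIso R) ∈ S}
  have hB : ∀ b ∈ B, ∃ hb : N b, (⟨b, hb⟩ : NonIso R) ∉ S := by
    intro b hb
    have := h2 b hb
    simpa using this
  have hS : ∀ i, i ∈ {i | ∀ hi : N i, (⟨i, hi⟩ : NonIso R) ∈ S} → ∀ hi : N i, (⟨i, hi⟩ : NonIso R) ∈ S :=
    fun i h => h
  let A' : Finset (NonIso R) := A.subtype N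
  let B' : Finset (NonIso R) := B.subtype N
  let C' : Finset (NonIso R × NonIso R) := (C.preimage (fun k => (k.1.1, k.2.1)) (by
    intro k _ l _ h
    obtain ⟨h1, h2⟩ := Prod.mk.inj h
    exact Prod.ext (Subtype.ext h1) (Subtype.ext h2)))
  have hmA : ∀ i : NonIso R, i ∈ A' ↔ i.1 ∈ A := fun i => mem_subtype
  have hmB : ∀ i : NonIso R, i ∈ B' ↔ i.1 ∈ B := fun i => mem_subtype
  have hmC : ∀ k : NonIso R × NonIso R, k ∈ C' ↔ (k.1.1, k.2.1) ∈ C := fun k => mem_preimage
  have cA : A'.card ≤ A.card := (card_subtype N A).trans_le (card_filter_le _ _)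
  have cB : B'.card = B.card := by
    refine (card_subtype N B).trans ?_
    rw [filter_true_of_mem]
    intro b hb
    exact (hB b hb).1
  have cC : C'.card = C.card := by
    have : C'.image (fun k => (k.1.1, k.2.1)) = C := by
      ext ⟨a, b⟩
      rw [mem_image]
      constructor
      · rintro ⟨k, hk, h⟩
        rw [hmC] at hk
        rw [← h]; exact hk
      · intro hab
        have h7 := (h5 _ hab).1
        exact ⟨(⟨a, b, Or.inl h7⟩, ⟨b, a, Or.inr h7⟩), (hmC _).2 hab, rfl⟩
    rw [← this, card_image_of_injective]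
    intro k l h
    obtain ⟨h1, h2⟩ := Prod.mk.inj h
    exact Prod.ext (Subtype.ext h1) (Subtype.ext h2)
  refine ⟨A', B', C', ?_, ?_, ?_, ?_, ?_, by omega⟩
  · intro a ha
    exact hS _ (h1 a.1 ((hmA a).1 ha)) a.2
  · intro b hb
    exact (hB b.1 ((hmB b).1 hb)).2
  · intro b hb i hi hbi
    rw [hmA]
    exact h3 b.1 ((hmB b).1 hb) i.1 (fun _ => hi) hbi
  · intro b hb b' hb'
    exact h4 b.1 ((hmB b).1 hb) b'.1 ((hmB b').1 hb')
  · intro c hc
    obtain ⟨e1, e2, e3, e4⟩ := h5 _ ((hmC c).1 hc)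
    refine ⟨e1, hS _ e2 c.1.2, hS _ e3 c.2.2, ?_⟩
    rw [hmA, hmA]
    exact e4

end Restrict

/-- There are bad oriented relations of arbitrarily large girth without isolated items. -/
theorem exists_lg (N : ℕ) : ∃ (J : Type) (R : J → J → Prop), Oriented R ∧ Bad R ∧ Bridge R N ∧
    ∀ i, ∃ j, R i j ∨ R j i := by
  refine ⟨NonIso (LGI.LRel (N + 1)), resR _, resR_oriented _ LGI.oriented,
    resR_bad _ (LGI.bad (by omega)), resR_bridge _ ?_, resR_iso _⟩
  intro E hE hER K hK
  exact LGI.bridge (by omega) E (by omega) hER K hK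

end Pool.Agent.StrongMax
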