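import Pool.Agent.Lib.StrongMax.GFails
import Pool.Agent.Lib.StrongMax.LG3

/-!
# Books of triangles fail (helper18)
-/

namespace Pool.Agent.StrongMax

section Book

variable {W : Type} [Finite W] {H : SimpleGraph W} {J : Type} {R : J → J → Prop}

theorem triangle_of_bridge (hbr : Bridge R 3) {i j k : J} (hij : R i j ∨ R j i)
    (hjk : R j k ∨ R k j) (hik : R i k ∨ R k i) (h1 : i ≠ j) (h2 : j ≠ k) (h3 : i ≠ k) : False := by
  classical
  have key : ∀ a b : J, R a b ∨ R b a → ∃ e : J × J, R e.1 e.2 ∧ (e = (a, b) ∨ e = (b, a)) := by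
    rintro a b (h | h)
    · exact ⟨(a, b), h, Or.inl rfl⟩
    · exact ⟨(b, a), h, Or.inr rfl⟩
  obtain ⟨e, he, he'⟩ := key i j hij
  obtain ⟨e₂, he₂, he₂'⟩ := key j k hjk
  obtain ⟨e₃, he₃, he₃'⟩ := key i k hik
  obtain ⟨Q, hQ1, hQ2, hQ3⟩ := hbr {e, e₂, e₃} (Finset.card_le_three) (by
    intro k hk
    simp only [Finset.mem_insert, Finset.mem_singleton] at hk
    rcases hk with rfl | rfl | rfl
    · exact he
    · exact he₂
    · exact he₃) e (by simp)
  have h4 : e₂ ≠ e := by
    rintro rfl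
    rcases he' with rfl | rfl <;> rcases he₂' with h | h
    · exact h1 (Prod.mk.inj h).1
    · exact h3 (Prod.mk.inj h).1
    · exact h3 (Prod.mk.inj h).2
    · exact h1 (Prod.mk.inj h).2
  have h5 : e₃ ≠ e := by
    rintro rfl
    rcases he' with rfl | rfl <;> rcases he₃' with h | h
    · exact h2 (Prod.mk.inj h).2
    · exact h3 (Prod.mk.inj h).1
    · exact h1 (Prod.mk.inj h).1.symm
    · exact h2 (Prod.mk.inj h).1
  have h6 := hQ3 e₂ (by simp) h4
  have h7 := hQ3 e₃ (by simp) h5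
  rcases he' with rfl | rfl <;> rcases he₂' with rfl | rfl <;> rcases he₃' with rfl | rfl <;>
    simp only at hQ1 hQ2 h6 h7 <;> tauto

omit [Finite W] in
/-- The neighbours of a private page. -/
theorem book_adj_p {z s p : W} (hstr : ∀ w, w = s ∨ w = p ∨ Two H w s p) (hzs : z ≠ s)
    (hzp : z ≠ p) (hsp : s ≠ p) {i j : J} {t : W} {a : GV J W}
    (h : (ghost R H z s p).Adj (.p i j t) a) : R i j ∧ (a = .w i ∨ a = .w j) := by
  obtain ⟨h1, h2, h3, h4, t', h5, h6⟩ := ghost_adj_p h
  refine ⟨h1, ?_⟩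
  rcases hstr t with h7 | h7 | h7
  · exact absurd h7 h3
  · exact absurd h7 h4
  · rcases (h7.iff t').1 h5 with rfl | rfl
    · left; rw [h6, gpsi_b hzs]
    · right; rw [h6, gpsi_c hzp hsp]

omit [Finite W] in
theorem book_adj_w {z s p : W} {i j : J} (h : (ghost R H z s p).Adj (.w i) (.w j)) : i ≠ j ∧ (R i j ∨ R j i) := by
  obtain ⟨hne, k, l, x, y, hkl, hxy, h1, h2⟩ := h
  refine ⟨fun h => hne (by rw [h]), ?_⟩
  rcases gpsi_eq_w h1.symm with ⟨h3, h4⟩ | ⟨h3, h4⟩ <;> rcases gpsi_eq_w h2.symm with ⟨h5, h6⟩ | ⟨h5, h6⟩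
  · exact absurd (h3.trans h5.symm) hxy.ne
  · left; rw [h4, h6]; exact hkl
  · right; rw [h4, h6]; exact hkl
  · exact absurd (h3.trans h5.symm) hxy.ne

/-- **Books of triangles fail.** -/
theorem book_fails {z s p : W} (hz : Two H z s p) (hsp : H.Adj s p) (hs3 : s ∉ D2 H)
    (hp3 : p ∉ D2 H) (hstr : ∀ w, w = s ∨ w = p ∨ Two H w s p) (h2 : Conn2 H)
    (hcard : ∃ r b c : W, r ≠ b ∧ r ≠ c ∧ b ≠ c) : Fails.{0} H := by
  classical
  obtain ⟨J, R, hR, hbad, hbr, hiso⟩ := exists_lg 3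
  have hzs := hz.adj_left.ne
  have hzp := hz.adj_right.ne
  have hne := hz.ne
  refine ghost_fails (r := z) (b := s) (c := p) hz.adj_left hz.adj_right hz.ne
    (fun x y hxy => h2.exists_adj hcard x y hxy.ne.symm) hR hbad hiso ?_
  intro f hf hfa i j hij hmem
  -- vertices of large degree are not private
  have hnp : ∀ a, a ∉ D2 H → ∀ i j t, f a ≠ .p i j t := by
    intro a ha i j t h
    obtain ⟨y₁, hy₁, -, -⟩ := exists_third h2 hcard ha a a
    obtain ⟨y₂, hy₂, h12, -⟩ := exists_third h2 hcard ha y₁ a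
    obtain ⟨y₃, hy₃, h13, h23⟩ := exists_third h2 hcard ha y₁ y₂
    have key : ∀ y, H.Adj a y → f y = .w i ∨ f y = .w j := by
      intro y hy
      have := hfa a y hy
      rw [h] at this
      exact (book_adj_p hstr hzs hzp hne this).2
    rcases key y₁ hy₁ with h1 | h1 <;> rcases key y₂ hy₂ with h2 | h2 <;>
      rcases key y₃ hy₃ with h3 | h3 <;>
      first
      | exact h12 (hf (h2.trans h1.symm))
      | exact h13 (hf (h3.trans h1.symm))
      | exact h23 (hf (h3.trans h2.symm))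
  have hT : ∀ t, Two H t s p → (ghost R H z s p).Adj (f t) (f s) ∧ (ghost R H z s p).Adj (f t) (f p) :=
    fun t ht => ⟨hfa t s ht.adj_left, hfa t p ht.adj_right⟩
  have hpu : ∀ i j t, ¬ (ghost R H z s p).Adj (.p i j t) .u := by
    intro i j t h
    rcases (book_adj_p hstr hzs hzp hne h).2 with h1 | h1 <;> cases h1
  -- the edge in the piece
  obtain ⟨x, y, hxy, ⟨x', y', hx'y', hmem⟩, hm1, hm2⟩ := hmem
  have hmem' := gD_cases hx'y' (by rw [← hmem]; exact hm1) (by rw [← hmem]; exact hm2)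
  have hmem'' : (∃ z', f x = .p i j z') ∨ (∃ z', f y = .p i j z') ∨ s(f x, f y) = s(.w i, .w j) := by
    rcases hmem' with ⟨z', h⟩ | ⟨z', h⟩ | h
    · rw [h, Sym2.eq_iff] at hmem
      rcases hmem with ⟨h1, -⟩ | ⟨-, h1⟩
      · exact Or.inl ⟨z', h1⟩
      · exact Or.inr (Or.inl ⟨z', h1⟩)
    · rw [h, Sym2.eq_iff] at hmem
      rcases hmem with ⟨-, h1⟩ | ⟨h1, -⟩
      · exact Or.inr (Or.inl ⟨z', h1⟩)
      · exact Or.inl ⟨z', h1⟩
    · exact Or.inr (Or.inr (hmem.trans h))
  -- the case in which one end of the spine is mapped to the apex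
  have case1 : ∀ a a' : W, (∀ t, Two H t s p → H.Adj a t ∧ H.Adj a' t) → (∀ w, w = a ∨ w = a' ∨ Two H w s p) →
      H.Adj a a' → f a = .u → ∀ i₀, f a' = .w i₀ →
      (∃ x y, H.Adj x y ∧ f x = .u ∧ f y = .w i) ∧ ∃ x y, H.Adj x y ∧ f x = .u ∧ f y = .w j := by
    intro a a' hat hstr' haa' ha i₀ ha'
    have hw : ∀ t, Two H t s p → ∃ k, f t = .w k := by
      intro t ht
      rcases h : f t with _ | k | ⟨k, l, t'⟩
      · exact absurd (hf (h.trans ha.symm)) (hat t ht).1.ne.symm
      · exact ⟨k, rfl⟩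
      · have := hfa t a (hat t ht).1.symm
        rw [h, ha] at this
        exact absurd this (hpu _ _ _)
    have hnp' : ∀ w i j t, f w ≠ .p i j t := by
      intro w i j t h
      rcases hstr' w with rfl | rfl | h1
      · rw [ha] at h; cases h
      · rw [ha'] at h; cases h
      · obtain ⟨k, hk⟩ := hw w h1
        rw [hk] at h; cases h
    have hsp : ∀ w k, f w = .w k → ∃ x y, H.Adj x y ∧ f x = .u ∧ f y = .w k := by
      intro w k h
      rcases hstr' w with rfl | rfl | h1
      · rw [ha] at h; cases h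
      · exact ⟨a, w, haa', ha, h⟩
      · exact ⟨a, w, (hat w h1).1, ha, h⟩
    rcases hmem'' with ⟨z', h⟩ | ⟨z', h⟩ | h
    · exact absurd h (hnp' _ _ _ _)
    · exact absurd h (hnp' _ _ _ _)
    · rw [Sym2.eq_iff] at h
      rcases h with ⟨h1, h2⟩ | ⟨h1, h2⟩
      · exact ⟨hsp x i h1, hsp y j h2⟩
      · exact ⟨hsp y i h2, hsp x j h1⟩
  rcases hfs : f s with _ | i₀ | ⟨k, l, t⟩
  · rcases hfp : f p with _ | j₀ | ⟨k, l, t⟩
    · exact absurd (hf (hfs.trans hfp.symm)) hne
    · exact case1 s p (fun t ht => ⟨ht.adj_left.symm, ht.adj_right.symm⟩) hstr hsp hfs j₀ hfp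
    · exact absurd hfp (hnp p hp3 _ _ _)
  · rcases hfp : f p with _ | j₀ | ⟨k, l, t⟩
    · exact case1 p s (fun t ht => ⟨ht.adj_right.symm, ht.adj_left.symm⟩)
        (fun w => by rcases hstr w with h | h | h <;> tauto) hsp.symm hfp i₀ hfs
    · -- the spine is mapped to the spine of a piece
      have hij₀ := hfa s p hsp
      rw [hfs, hfp] at hij₀
      obtain ⟨hne₀, hR₀⟩ := book_adj_w hij₀
      have hpt : ∀ t, Two H t s p → f t = .u ∨ ∃ k l t', f t = .p k l t' ∧ R k l ∧
          ((k = i₀ ∧ l = j₀) ∨ (k = j₀ ∧ l = i₀)) := by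
        intro t ht
        obtain ⟨h1, h2⟩ := hT t ht
        rw [hfs] at h1
        rw [hfp] at h2
        rcases h : f t with _ | k | ⟨k, l, t'⟩
        · exact Or.inl rfl
        · exfalso
          rw [h] at h1 h2
          obtain ⟨e1, e2⟩ := book_adj_w h1
          obtain ⟨e3, e4⟩ := book_adj_w h2
          exact triangle_of_bridge hbr e2 hR₀ e4 e1 hne₀ e3
        · right
          rw [h] at h1 h2
          obtain ⟨e1, e2⟩ := book_adj_p hstr hzs hzp hne h1
          obtain ⟨-, e3⟩ := book_adj_p hstr hzs hzp hne h2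
          refine ⟨k, l, t', rfl, e1, ?_⟩
          rcases e2 with e2 | e2 <;> injection e2 with e2 <;> rcases e3 with e3 | e3 <;>
            injection e3 with e3
          · exact absurd (e2.trans e3.symm) hne₀
          · exact Or.inl ⟨e2.symm, e3.symm⟩
          · exact Or.inr ⟨e3.symm, e2.symm⟩
          · exact absurd (e2.trans e3.symm) hne₀
      -- some page is mapped to the apex
      obtain ⟨t₁, ht₁, hft₁⟩ : ∃ t, Two H t s p ∧ f t = .u := by
        by_contra hcon
        push Not at hcon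
        have h1 : ∀ t : {t // Two H t s p}, ∃ k l t', f t.1 = .p k l t' ∧ R k l ∧
            ((k = i₀ ∧ l = j₀) ∨ (k = j₀ ∧ l = i₀)) := fun t => (hpt t.1 t.2).resolve_left (hcon t.1 t.2)
        choose k l t' h3 h4 h5 using h1
        have h6 : ∀ t, Two H (t' t) s p ∧ t' t ≠ z := by
          intro t
          have h7 := hfa t.1 s t.2.adj_left
          rw [h3 t] at h7
          obtain ⟨-, h8, h9, h10, -⟩ := ghost_adj_p h7
          exact ⟨((hstr (t' t)).resolve_left h9).resolve_left h10, h8⟩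
        have hkl : ∀ t t₂, k t = k t₂ ∧ l t = l t₂ := by
          intro t t₂
          have e1 := h4 t
          have e2 := h4 t₂
          rcases h5 t with ⟨h7, h8⟩ | ⟨h7, h8⟩ <;> rcases h5 t₂ with ⟨h9, h10⟩ | ⟨h9, h10⟩
          · exact ⟨h7.trans h9.symm, h8.trans h10.symm⟩
          · rw [h7, h8] at e1; rw [h9, h10] at e2; exact absurd e2 (hR.asymm _ _ e1)
          · rw [h7, h8] at e1; rw [h9, h10] at e2; exact absurd e2 (hR.asymm _ _ e1)
          · exact ⟨h7.trans h9.symm, h8.trans h10.symm⟩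
        let g : {t // Two H t s p} → {t // Two H t s p} := fun t => ⟨t' t, (h6 t).1⟩
        have hg : Function.Injective g := by
          intro t t₂ h
          have h7 : t' t = t' t₂ := congrArg Subtype.val h
          refine Subtype.ext (hf ?_)
          rw [h3 t, h3 t₂, h7, (hkl t t₂).1, (hkl t t₂).2]
        obtain ⟨t, ht⟩ := Finite.surjective_of_injective hg ⟨z, hz⟩
        exact (h6 t).2 (congrArg Subtype.val ht)
      have hspoke : ∀ m, m = i₀ ∨ m = j₀ → ∃ x y, H.Adj x y ∧ f x = .u ∧ f y = .w m := by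
        rintro m (rfl | rfl)
        · exact ⟨t₁, s, ht₁.adj_left, hft₁, hfs⟩
        · exact ⟨t₁, p, ht₁.adj_right, hft₁, hfp⟩
      have hpriv : ∀ w z', f w = .p i j z' → (i = i₀ ∨ i = j₀) ∧ (j = i₀ ∨ j = j₀) := by
        intro w z' h
        rcases hstr w with rfl | rfl | h1
        · rw [hfs] at h; cases h
        · rw [hfp] at h; cases h
        · rcases hpt w h1 with h2 | ⟨k, l, t', h2, -, h3⟩
          · rw [h2] at h; cases h
          · rw [h2] at h
            injection h with h4 h5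
            subst h4; subst h5
            rcases h3 with ⟨h3, h4⟩ | ⟨h3, h4⟩
            · exact ⟨Or.inl h3, Or.inr h4⟩
            · exact ⟨Or.inr h3, Or.inl h4⟩
      have hww : ∀ w m, f w = .w m → m = i₀ ∨ m = j₀ := by
        intro w m h
        rcases hstr w with rfl | rfl | h1
        · rw [hfs] at h; injection h with h; exact Or.inl h.symm
        · rw [hfp] at h; injection h with h; exact Or.inr h.symm
        · rcases hpt w h1 with h2 | ⟨k, l, t', h2, -, h3⟩
          · rw [h2] at h; cases h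
          · rw [h2] at h; cases h
      rcases hmem'' with ⟨z', h⟩ | ⟨z', h⟩ | h
      · exact ⟨hspoke i (hpriv x z' h).1, hspoke j (hpriv x z' h).2⟩
      · exact ⟨hspoke i (hpriv y z' h).1, hspoke j (hpriv y z' h).2⟩
      · rw [Sym2.eq_iff] at h
        rcases h with ⟨h1, h2⟩ | ⟨h1, h2⟩
        · exact ⟨hspoke i (hww x i h1), hspoke j (hww y j h2)⟩
        · exact ⟨hspoke i (hww y i h2), hspoke j (hww x j h1)⟩
    · exact absurd hfp (hnp p hp3 _ _ _)
  · exact absurd hfs (hnp s hs3 _ _ _)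

end Book

end Pool.Agent.StrongMax
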