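import Pool.Agent.Lib.StrongMax.N2Defs

/-!
# Hosts built from cells over a rigid set (helper9)

A celled host consists of copies of unions of components of `H[L]` (the cells); the edges between the
other vertices form a star with centre `u`.  For a rigid set `L` every copy of `H` in such a host maps
`L` onto cell vertices, component by component, and the centre of the star to `u`.
-/

namespace Pool.Agent.StrongMax

universe u v

/-- A host with cells. -/
structure Celled {W : Type} (H : SimpleGraph W) (L : Set W) {V : Type u} (G : SimpleGraph V)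
    (K : Type v) where
  /-- the vertices of a cell -/
  hm : K → W → V
  /-- the roles of the vertices near a cell -/
  ρ : K → V → W
  /-- the part of `L` copied in a cell -/
  M : K → Set W
  /-- the centre -/
  u : V
  sub : ∀ k, M k ⊆ L
  nbr : ∀ k, ∀ x ∈ M k, ∀ v, G.Adj (hm k x) v → ∃ y, H.Adj x y ∧ v = hm k y ∧ ρ k v = y
  ρhm : ∀ k, ∀ x ∈ M k, ρ k (hm k x) = x
  clo : ∀ k, ∀ x ∈ M k, ∀ y ∈ L, H.Adj x y → y ∈ M k
  star : ∀ v v', (∀ k, ∀ x ∈ M k, v ≠ hm k x) → (∀ k, ∀ x ∈ M k, v' ≠ hm k x) →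
    G.Adj v v' → v = u ∨ v' = u

namespace Celled

variable {W : Type} {H : SimpleGraph W} {L : Set W} {V : Type u} {G : SimpleGraph V} {K : Type v}
  (c : Celled H L G K) {f : W → V}

theorem pemb (hf : Function.Injective f) (hfa : ∀ a b, H.Adj a b → G.Adj (f a) (f b)) (k : K) :
    PEmb H L {a | ∃ x ∈ c.M k, f a = c.hm k x} (fun a => c.ρ k (f a)) where
  mem := by
    rintro a ⟨x, hx, ha⟩
    show c.ρ k (f a) ∈ L
    rw [ha, c.ρhm k x hx]
    exact c.sub k hx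
  adj := by
    rintro a ⟨x, hx, ha⟩ b hab
    have h := hfa a b hab
    rw [ha] at h
    obtain ⟨y, hxy, hy, hρ⟩ := c.nbr k x hx _ h
    show H.Adj (c.ρ k (f a)) (c.ρ k (f b))
    rw [ha, c.ρhm k x hx, hρ]
    exact hxy
  out := by
    rintro a ⟨x, hx, ha⟩ b hab hb
    have h := hfa a b hab
    rw [ha] at h
    obtain ⟨y, hxy, hy, hρ⟩ := c.nbr k x hx _ h
    show c.ρ k (f b) ∉ L
    rw [hρ]
    exact fun hyL => hb ⟨y, c.clo k x hx y hyL hxy, hy⟩
  inj := by
    have key : ∀ b, (b ∈ {a | ∃ x ∈ c.M k, f a = c.hm k x} ∨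
        ∃ a ∈ {a | ∃ x ∈ c.M k, f a = c.hm k x}, H.Adj a b) → f b = c.hm k (c.ρ k (f b)) := by
      rintro b (⟨x, hx, hb⟩ | ⟨a, ⟨x, hx, ha⟩, hab⟩)
      · rw [hb, c.ρhm k x hx]
      · have h := hfa a b hab
        rw [ha] at h
        obtain ⟨y, hxy, hy, hρ⟩ := c.nbr k x hx _ h
        rw [hρ]; exact hy
    intro b hb b' hb' h
    have h' : c.ρ k (f b) = c.ρ k (f b') := h
    exact hf (by rw [key b hb, key b' hb', h'])

/-- A host vertex in a cell. -/
def T : Set V := {v | ∃ k, ∃ x ∈ c.M k, v = c.hm k x}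

/-- The local structure of a copy at a cell vertex. -/
theorem local_bij (hL : Rigid H L) (hf : Function.Injective f)
    (hfa : ∀ a b, H.Adj a b → G.Adj (f a) (f b)) {k : K} {a x : W} (hx : x ∈ c.M k)
    (ha : f a = c.hm k x) : a ∈ L ∧ (∀ b, H.Adj a b → ∃ y, H.Adj x y ∧ f b = c.hm k y ∧
        (b ∈ L → y ∈ c.M k)) ∧
      (∀ y, H.Adj x y → ∃ b, H.Adj a b ∧ f b = c.hm k y) := by
  have hp := c.pemb hf hfa k
  have haC : a ∈ {a | ∃ x ∈ c.M k, f a = c.hm k x} := ⟨x, hx, ha⟩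
  refine ⟨hL.sub _ _ hp haC, ?_, ?_⟩
  · intro b hab
    have h := hfa a b hab
    rw [ha] at h
    obtain ⟨y, hxy, hy, hρ⟩ := c.nbr k x hx _ h
    refine ⟨y, hxy, hy, fun hb => ?_⟩
    obtain ⟨y', hy', hb'⟩ := hL.closed _ _ hp a haC b hb hab
    have : y = y' := by rw [← hρ, hb', c.ρhm k y' hy']
    rw [this]; exact hy'
  · intro y hxy
    obtain ⟨b, hab, hb⟩ := hL.surj _ _ hp a haC y (by
      show H.Adj (c.ρ k (f a)) y
      rw [ha, c.ρhm k x hx]
      exact hxy)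
    refine ⟨b, hab, ?_⟩
    have h := hfa a b hab
    rw [ha] at h
    obtain ⟨y', hxy', hy', hρ⟩ := c.nbr k x hx _ h
    have : y = y' := by rw [← hρ]; exact hb.symm
    rw [this]; exact hy'

/-- **Cell lemma.** -/
theorem main (hL : Rigid H L) (hf : Function.Injective f)
    (hfa : ∀ a b, H.Adj a b → G.Adj (f a) (f b)) (hδ : ∀ x, ∃ y z, y ≠ z ∧ H.Adj x y ∧ H.Adj x z) {s n₁ n₂ : W}
    (hs : s ∉ L) (hn₁ : n₁ ∉ L) (hn₂ : n₂ ∉ L) (hn : n₁ ≠ n₂)
    (h₁ : H.Adj s n₁) (h₂ : H.Adj s n₂) :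
    f s = c.u ∧ ∀ a, a ∈ L ↔ f a ∈ c.T := by
  have hTL : ∀ a, f a ∈ c.T → a ∈ L := by
    rintro a ⟨k, x, hx, ha⟩
    exact (c.local_bij hL hf hfa hx ha).1
  have hnT : ∀ a, a ∉ L → ∀ k, ∀ x ∈ c.M k, f a ≠ c.hm k x :=
    fun a ha k x hx h => ha (hTL a ⟨k, x, hx, h⟩)
  have hfs : f s = c.u := by
    rcases c.star _ _ (hnT s hs) (hnT n₁ hn₁) (hfa _ _ h₁) with h | h
    · exact h
    · rcases c.star _ _ (hnT s hs) (hnT n₂ hn₂) (hfa _ _ h₂) with h' | h'
      · exact h'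
      · exact absurd (hf (h.trans h'.symm)) hn
  refine ⟨hfs, fun a => ⟨fun ha => ?_, hTL a⟩⟩
  by_contra hT
  have hT' : ∀ k, ∀ x ∈ c.M k, f a ≠ c.hm k x := fun k x hx h => hT ⟨k, x, hx, h⟩
  have has : a ≠ s := fun h => hs (h ▸ ha)
  have key : ∀ b, H.Adj a b → b = s := by
    intro b hab
    by_contra hbs
    have hbT : ∀ k, ∀ x ∈ c.M k, f b ≠ c.hm k x := by
      intro k x hx hb
      obtain ⟨hbL, h1, -⟩ := c.local_bij hL hf hfa hx hb
      obtain ⟨y, -, hy, hyM⟩ := h1 a hab.symm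
      exact hT' k y (hyM ha) hy
    rcases c.star _ _ hT' hbT (hfa _ _ hab) with h | h
    · exact has (hf (h.trans hfs.symm))
    · exact hbs (hf (h.trans hfs.symm))
  obtain ⟨y, z, hyz, hy, hz⟩ := hδ a
  exact hyz ((key y hy).trans (key z hz).symm)

end Celled

end Pool.Agent.StrongMax
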