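import Pool.Agent.Lib.StrongMax.Core
import Pool.Agent.Lib.StrongMax.N2Defs

/-!
# Closed and rigid sets (helper42, after helper9)
-/

namespace Pool.Agent.StrongMax

section Closed

variable {W : Type} {H : SimpleGraph W}

theorem PEmb.nbr_eq {L C : Set W} {φ : W → W} (h : PEmb H L C φ) {a b a' b' : W} (ha : a ∈ C)
    (hb : H.Adj a b) (ha' : a' ∈ C) (hb' : H.Adj a' b') (he : φ b = φ b') : b = b' :=
  h.inj (Or.inr ⟨a, ha, hb⟩) (Or.inr ⟨a', ha', hb'⟩) he

theorem PEmb.deg_le [Finite W] {L C : Set W} {φ : W → W} (h : PEmb H L C φ) {a : W} (ha : a ∈ C) :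
    (H.neighborSet a).ncard ≤ (H.neighborSet (φ a)).ncard :=
  Set.ncard_le_ncard_of_injOn φ (fun b hb => h.adj a ha b hb)
    (fun _ hb _ hb' he => h.nbr_eq ha hb ha hb' he) (Set.toFinite _)

/-- **Closed sets can be removed.** -/
theorem Fails.of_closed [Finite W] {L : Set W} (hL : IsClosedSet H L)
    (hdeg : ∀ x : W, ∃ y, H.Adj x y) (hA : Fails.{0} (H.induce Lᶜ))
    (hAe : ∃ a b : (Lᶜ : Set W), H.Adj a b) : Fails.{0} H := by
  classical
  refine Fails.of_core Lᶜ hA hAe ?_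
  intro V₀ K f hf a ha
  rcases hp : f a with g | ⟨ψ, k, x⟩
  · exact ⟨g, rfl⟩
  exfalso
  obtain ⟨b₀, hb₀⟩ := hdeg a
  have hψ : Function.Injective ψ := hf.inj_of hb₀ hp
  have hxL : x ∈ L := by
    have := hf.notMem hb₀ hp
    rwa [Set.mem_compl_iff, not_not] at this
  let C : Set W := {a | ∃ y ∈ L, f a = .inr (ψ, k, y)}
  -- the role map
  have hrole : ∀ z, ∃ y, (z ∈ C ∨ ∃ e ∈ C, H.Adj e z) → f z = remb Lᶜ ψ k y := by
    intro z
    by_cases hz : z ∈ C ∨ ∃ e ∈ C, H.Adj e z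
    · rcases hz with ⟨y, hy, h⟩ | ⟨e, ⟨y, hy, h⟩, hez⟩
      · refine ⟨y, fun _ => ?_⟩
        rw [remb_notMem ψ k (by rw [Set.mem_compl_iff, not_not]; exact hy)]
        exact h
      · obtain ⟨x', -, h'⟩ := hf.nbr hez h
        exact ⟨x', fun _ => h'⟩
    · exact ⟨z, fun h => absurd h hz⟩
  choose φ hφ using hrole
  have hrinj : Function.Injective (remb Lᶜ ψ k) := by
    intro w w' h
    by_cases hw : w ∈ Lᶜ
    · rw [remb_mem ψ k hw] at h
      have hw' := remb_eq_inl h.symm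
      rw [remb_mem ψ k hw'] at h
      exact congrArg Subtype.val (hψ (Sum.inl_injective h))
    · rw [remb_notMem ψ k hw] at h
      have h1 := (remb_eq_inr h.symm).2
      simp only [Prod.mk.injEq, true_and] at h1
      exact h1
  have hC : ∀ e ∈ C, φ e ∈ L ∧ f e = .inr (ψ, k, φ e) := by
    intro e he
    have h1 := hφ e (Or.inl he)
    obtain ⟨y, hy, h⟩ := he
    rw [h] at h1
    have h2 := (remb_eq_inr h1.symm).2
    simp only [Prod.mk.injEq, true_and] at h2
    rw [← h2]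
    exact ⟨hy, h⟩
  have hemb : PEmb H L C φ := by
    refine ⟨fun e he => (hC e he).1, ?_, ?_, ?_⟩
    · intro e he b heb
      obtain ⟨x', hx', h'⟩ := hf.nbr heb (hC e he).2
      have h2 := hφ b (Or.inr ⟨e, he, heb⟩)
      have h3 : x' = φ b := hrinj (by rw [← h', h2])
      exact h3 ▸ hx'
    · intro e he b heb hb hbL
      have h2 := hφ b (Or.inr ⟨e, he, heb⟩)
      rw [remb_notMem ψ k (by rw [Set.mem_compl_iff, not_not]; exact hbL)] at h2
      exact hb ⟨φ b, hbL, h2⟩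
    · intro u hu v hv h
      exact hf.inj (by rw [hφ u hu, hφ v hv, h])
  exact ha (hL C φ hemb ⟨x, hxL, hp⟩)

/-- **MC** holds if `H` does not fail. -/
theorem mc_of_not_fails [Finite W] (hdeg : ∀ x : W, ∃ y, H.Adj x y)
    (IH : ∀ S : Set W, S ≠ Set.univ → (¬ ∃ z : S, ∀ a b : S, H.Adj a b → a = z ∨ b = z) →
      Fails.{0} (H.induce S)) (hnf : ¬ Fails.{0} H) : MC H := by
  classical
  intro L hne hL
  by_contra hcon
  have h1 : ¬ ∃ z : (Lᶜ : Set W), ∀ a b : (Lᶜ : Set W), H.Adj a b → a = z ∨ b = z := by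
    rintro ⟨z, hz⟩
    refine hcon ⟨z, fun a b hab ha hb => ?_⟩
    rcases hz ⟨a, ha⟩ ⟨b, hb⟩ hab with h | h
    · exact Or.inl (congrArg Subtype.val h)
    · exact Or.inr (congrArg Subtype.val h)
  obtain ⟨x, hx⟩ := hne
  have h2 : Lᶜ ≠ Set.univ := by
    intro h
    have : x ∈ Lᶜ := by rw [h]; trivial
    exact this hx
  refine hnf (Fails.of_closed hL hdeg (IH _ h2 h1) ?_)
  by_contra hno
  push Not at hno
  refine hcon ⟨x, fun a b hab ha hb => ?_⟩
  exact absurd hab (hno ⟨a, ha⟩ ⟨b, hb⟩)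

/-! ### Walking inside a set -/

theorem Lr.refl {M : Set W} (x : W) : Lr H M x x := Relation.ReflTransGen.refl

theorem Lr.trans {M : Set W} {x y z : W} (h : Lr H M x y) (h' : Lr H M y z) : Lr H M x z :=
  Relation.ReflTransGen.trans h h'

theorem Lr.single {M : Set W} {x y : W} (h : H.Adj x y) (hy : y ∈ M) : Lr H M x y :=
  Relation.ReflTransGen.single ⟨h, hy⟩

theorem Lr.tail {M : Set W} {x y z : W} (h : Lr H M x y) (h' : H.Adj y z) (hz : z ∈ M) :
    Lr H M x z := Relation.ReflTransGen.tail h ⟨h', hz⟩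

theorem Lr.mem {M : Set W} {x y : W} (h : Lr H M x y) (hx : x ∈ M) : y ∈ M := by
  cases h with
  | refl => exact hx
  | tail _ h => exact h.2

theorem Lr.symm {M : Set W} {x y : W} (h : Lr H M x y) (hx : x ∈ M) : Lr H M y x := by
  induction h with
  | refl => exact Lr.refl _
  | tail h h' ih => exact (Lr.single h'.1.symm (Lr.mem h hx)).trans ih

theorem Lr.mono {M M' : Set W} (hM : M ⊆ M') {x y : W} (h : Lr H M x y) : Lr H M' x y := by
  induction h with
  | refl => exact Lr.refl _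
  | tail _ h' ih => exact ih.tail h'.1 (hM h'.2)

/-- A set which contains `x` and is closed under steps inside `M` contains all `y` with
`Lr H M x y`. -/
theorem Lr.ind {M S : Set W} {x y : W} (h : Lr H M x y) (hx : x ∈ S)
    (hS : ∀ a ∈ S, ∀ b ∈ M, H.Adj a b → b ∈ S) : y ∈ S := by
  induction h with
  | refl => exact hx
  | tail _ h' ih => exact hS _ ih _ h'.2 h'.1

theorem bdr_congr {L : Set W} {x y z : W} (hx : x ∈ L) (h : Lr H L x y) :
    bdr H L x z ↔ bdr H L y z := by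
  constructor
  · rintro ⟨u, hu, huz, hz⟩
    exact ⟨u, (h.symm hx).trans hu, huz, hz⟩
  · rintro ⟨u, hu, huz, hz⟩
    exact ⟨u, h.trans hu, huz, hz⟩

end Closed

end Pool.Agent.StrongMax
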