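import Pool.Agent.Lib.StrongMax.Basic42

/-!
# A conflict system without strongly maximal sets (helper18)

`Idx` is the index set of a countable family of edges (items); `Idx.Rel` is an orientation of a
triangle-free conflict graph on it.  If every two conflicting items `i, j` come with a private
edge set `D i j` such that the copies of `H` in the host are exactly the sets containing
`D i j ∪ {e i, e j}`, then the host has no strongly maximal `H`-free edge set.
-/

namespace Pool.Agent.StrongMax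

open Cardinal

universe u v

/-- The items. -/
inductive Idx
  | w (k : ℕ) (a : Fin (k + 2))
  | z (k : ℕ) (a : Fin (k + 2))
  | s (k : ℕ) (a : Fin (k + 3))
  deriving DecidableEq

namespace Idx

/-- The oriented conflict relation. -/
def Rel : Idx → Idx → Prop
  | .w k _, .z l _ => k ≠ l
  | .w k _, .s l _ => k = l
  | .z k _, .s l _ => k = l
  | _, _ => False

/-- The symmetric conflict relation. -/
def Conf (i j : Idx) : Prop := Rel i j ∨ Rel j i

theorem Conf.symm {i j : Idx} (h : Conf i j) : Conf j i := Or.symm h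

theorem Rel.conf {i j : Idx} (h : Rel i j) : Conf i j := Or.inl h

theorem Rel.ne {i j : Idx} (h : Rel i j) : i ≠ j := by
  rintro rfl
  cases i <;> exact h

theorem Rel.asymm {i j : Idx} (h : Rel i j) : ¬ Rel j i := by
  intro h'
  cases i <;> cases j <;> first | exact h | exact h'

theorem Conf.ne {i j : Idx} (h : Conf i j) : i ≠ j := by
  rcases h with h | h
  · exact h.ne
  · exact h.ne.symm

theorem triangle_free {i j k : Idx} (hij : Conf i j) (hjk : Conf j k) (hik : Conf i k) : False := by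
  cases i <;> cases j <;> cases k <;> simp_all [Conf, Rel]

theorem exists_conf (i : Idx) : ∃ j, Conf i j := by
  cases i with
  | w k a => exact ⟨.s k 0, Or.inl rfl⟩
  | z k a => exact ⟨.s k 0, Or.inl rfl⟩
  | s k a => exact ⟨.w k 0, Or.inr rfl⟩

/-- The `w`-part of gadget `k`. -/
def Wk (k : ℕ) : Finset Idx := Finset.univ.image (Idx.w k)
/-- The `z`-part of gadget `k`. -/
def Zk (k : ℕ) : Finset Idx := Finset.univ.image (Idx.z k)
/-- The `s`-part of gadget `k`. -/
def Sk (k : ℕ) : Finset Idx := Finset.univ.image (Idx.s k)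

theorem mem_Wk {k : ℕ} {i : Idx} : i ∈ Wk k ↔ ∃ a, i = .w k a := by
  simp [Wk, eq_comm]
theorem mem_Zk {k : ℕ} {i : Idx} : i ∈ Zk k ↔ ∃ a, i = .z k a := by
  simp [Zk, eq_comm]
theorem mem_Sk {k : ℕ} {i : Idx} : i ∈ Sk k ↔ ∃ a, i = .s k a := by
  simp [Sk, eq_comm]

theorem card_Wk (k : ℕ) : (Wk k).card = k + 2 := by
  rw [Wk, Finset.card_image_of_injective _ (fun a b h => by simpa using h), Finset.card_univ,
    Fintype.card_fin]
theorem card_Zk (k : ℕ) : (Zk k).card = k + 2 := by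
  rw [Zk, Finset.card_image_of_injective _ (fun a b h => by simpa using h), Finset.card_univ,
    Fintype.card_fin]
theorem card_Sk (k : ℕ) : (Sk k).card = k + 3 := by
  rw [Sk, Finset.card_image_of_injective _ (fun a b h => by simpa using h), Finset.card_univ,
    Fintype.card_fin]

/-- There is no set of items in which each item has at most one conflict and which admits no
conflict-free exchange. -/
theorem no_soft (S : Set Idx)
    (hdeg : ∀ i j j', i ∈ S → j ∈ S → j' ∈ S → Conf i j → Conf i j' → j = j')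
    (hex : ∀ A B : Finset Idx, (∀ a ∈ A, a ∈ S) → (∀ b ∈ B, b ∉ S) →
      (∀ b ∈ B, ∀ i ∈ S, Conf b i → i ∈ A) → (∀ b ∈ B, ∀ b' ∈ B, ¬ Conf b b') →
      B.card ≤ A.card) : False := by
  classical
  -- gadgets are either default or active
  have step1 : ∀ k x y, x ∈ Sk k → x ∈ S → y ∈ Wk k ∪ Zk k → y ∈ S → False := by
    intro k x y hx hxS hy hyS
    have hWZS : ∀ x ∈ Sk k, ∀ y ∈ Wk k ∪ Zk k, Conf y x := by
      intro x hx y hy
      obtain ⟨a, rfl⟩ := mem_Sk.1 hx
      rcases Finset.mem_union.1 hy with hy | hy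
      · obtain ⟨b, rfl⟩ := mem_Wk.1 hy; exact Or.inl rfl
      · obtain ⟨b, rfl⟩ := mem_Zk.1 hy; exact Or.inl rfl
    have hSnb : ∀ x ∈ Sk k, ∀ i, Conf x i → i ∈ Wk k ∪ Zk k := by
      intro x hx i hi
      obtain ⟨a, rfl⟩ := mem_Sk.1 hx
      cases i with
      | w l b =>
        have : l = k := by simpa [Conf, Rel] using hi
        subst this
        exact Finset.mem_union_left _ (mem_Wk.2 ⟨b, rfl⟩)
      | z l b =>
        have : l = k := by simpa [Conf, Rel] using hi
        subst this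
        exact Finset.mem_union_right _ (mem_Zk.2 ⟨b, rfl⟩)
      | s l b => simp [Conf, Rel] at hi
    have h := hex {y} ((Sk k).erase x) (by simpa using hyS) ?_ ?_ ?_
    · rw [Finset.card_erase_of_mem hx, card_Sk, Finset.card_singleton] at h
      omega
    · intro b hb hbS
      rw [Finset.mem_erase] at hb
      exact hb.1 (hdeg y b x hyS hbS hxS (hWZS b hb.2 y hy) (hWZS x hx y hy))
    · intro b hb i hiS hbi
      rw [Finset.mem_erase] at hb
      rw [Finset.mem_singleton]
      exact hdeg x i y hxS hiS hyS ((hWZS x hx i (hSnb b hb.2 i hbi)).symm) ((hWZS x hx y hy).symm)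
    · intro b hb b' hb' hc
      rw [Finset.mem_erase] at hb hb'
      obtain ⟨a, rfl⟩ := mem_Sk.1 hb.2
      obtain ⟨a', rfl⟩ := mem_Sk.1 hb'.2
      simp [Conf, Rel] at hc
  have hSnb : ∀ k, ∀ x ∈ Sk k, ∀ i, Conf x i → i ∈ Wk k ∪ Zk k := by
    intro k x hx i hi
    obtain ⟨a, rfl⟩ := mem_Sk.1 hx
    cases i with
    | w l b =>
      have : l = k := by simpa [Conf, Rel] using hi
      subst this
      exact Finset.mem_union_left _ (mem_Wk.2 ⟨b, rfl⟩)
    | z l b =>
      have : l = k := by simpa [Conf, Rel] using hi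
      subst this
      exact Finset.mem_union_right _ (mem_Zk.2 ⟨b, rfl⟩)
    | s l b => simp [Conf, Rel] at hi
  have hSS : ∀ k, ∀ x ∈ Sk k, ∀ l, ∀ y ∈ Sk l, ¬ Conf x y := by
    intro k x hx l y hy hc
    obtain ⟨a, rfl⟩ := mem_Sk.1 hx
    obtain ⟨a', rfl⟩ := mem_Sk.1 hy
    simp [Conf, Rel] at hc
  have step2 : ∀ k, (∀ y ∈ Wk k ∪ Zk k, y ∉ S) → ∀ x ∈ Sk k, x ∈ S := by
    intro k hk x hx
    by_contra hxS
    have h := hex ∅ {x} (by simp) (by simpa using hxS) ?_ ?_
    · simp at h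
    · intro b hb i hiS hbi
      rw [Finset.mem_singleton] at hb; subst hb
      exact absurd hiS (hk i (hSnb k b hx i hbi))
    · intro b hb b' hb'
      rw [Finset.mem_singleton] at hb hb'; subst hb; subst hb'
      exact hSS k _ hx k _ hx
  have step3 : ∀ k, (∀ x ∈ Sk k, x ∉ S) → k + 3 ≤ ((Wk k ∪ Zk k).filter (· ∈ S)).card := by
    intro k hk
    rw [← card_Sk k]
    refine hex _ _ (fun a ha => (Finset.mem_filter.1 ha).2) hk ?_ ?_
    · intro b hb i hiS hbi
      exact Finset.mem_filter.2 ⟨hSnb k b hb i hbi, hiS⟩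
    · intro b hb b' hb'
      exact hSS k b hb k b' hb'
  -- active gadgets
  have hact : ∀ k, (∃ y ∈ Wk k ∪ Zk k, y ∈ S) →
      (∀ x ∈ Sk k, x ∉ S) ∧ k + 3 ≤ ((Wk k ∪ Zk k).filter (· ∈ S)).card := by
    rintro k ⟨y, hy, hyS⟩
    have h : ∀ x ∈ Sk k, x ∉ S := fun x hx hxS => step1 k x y hx hxS hy hyS
    exact ⟨h, step3 k h⟩
  have hactW : ∀ k, (∃ y ∈ Wk k ∪ Zk k, y ∈ S) → ∃ y ∈ Wk k, y ∈ S := by
    intro k hk
    by_contra hn
    push Not at hn
    have h1 := (hact k hk).2
    have h2 : (Wk k ∪ Zk k).filter (· ∈ S) ⊆ Zk k := by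
      intro i hi
      rw [Finset.mem_filter, Finset.mem_union] at hi
      rcases hi with ⟨hi | hi, hiS⟩
      · exact absurd hiS (hn i hi)
      · exact hi
    have h3 := Finset.card_le_card h2
    rw [card_Zk] at h3
    omega
  have hactZ : ∀ k, (∃ y ∈ Wk k ∪ Zk k, y ∈ S) → ∃ y ∈ Zk k, y ∈ S := by
    intro k hk
    by_contra hn
    push Not at hn
    have h1 := (hact k hk).2
    have h2 : (Wk k ∪ Zk k).filter (· ∈ S) ⊆ Wk k := by
      intro i hi
      rw [Finset.mem_filter, Finset.mem_union] at hi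
      rcases hi with ⟨hi | hi, hiS⟩
      · exact hi
      · exact absurd hiS (hn i hi)
    have h3 := Finset.card_le_card h2
    rw [card_Wk] at h3
    omega
  have step4 : ∀ k l, k ≠ l → (∃ y ∈ Wk k ∪ Zk k, y ∈ S) → (∃ y ∈ Wk l ∪ Zk l, y ∈ S) → False := by
    intro k l hkl hk hl
    obtain ⟨x, hx, hxS⟩ := hactW k hk
    obtain ⟨y, hy, hyS⟩ := hactZ k hk
    have h1 := (hact l hl).2
    have h2 : ((Wk l).filter (· ∈ S)).card ≤ 1 := by
      rw [Finset.card_le_one]
      intro a ha b hb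
      rw [Finset.mem_filter] at ha hb
      refine hdeg y a b hyS ha.2 hb.2 ?_ ?_
      · obtain ⟨c, rfl⟩ := mem_Zk.1 hy
        obtain ⟨d, rfl⟩ := mem_Wk.1 ha.1
        exact Or.inr hkl.symm
      · obtain ⟨c, rfl⟩ := mem_Zk.1 hy
        obtain ⟨d, rfl⟩ := mem_Wk.1 hb.1
        exact Or.inr hkl.symm
    have h3 : ((Zk l).filter (· ∈ S)).card ≤ 1 := by
      rw [Finset.card_le_one]
      intro a ha b hb
      rw [Finset.mem_filter] at ha hb
      refine hdeg x a b hxS ha.2 hb.2 ?_ ?_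
      · obtain ⟨c, rfl⟩ := mem_Wk.1 hx
        obtain ⟨d, rfl⟩ := mem_Zk.1 ha.1
        exact Or.inl hkl
      · obtain ⟨c, rfl⟩ := mem_Wk.1 hx
        obtain ⟨d, rfl⟩ := mem_Zk.1 hb.1
        exact Or.inl hkl
    rw [Finset.filter_union] at h1
    have h4 := Finset.card_union_le ((Wk l).filter (· ∈ S)) ((Zk l).filter (· ∈ S))
    omega
  have hWnb : ∀ m, ∀ x ∈ Wk m, ∀ i, Conf x i → i ∈ Sk m ∨ ∃ j, j ≠ m ∧ i ∈ Zk j := by
    intro m x hx i hi
    obtain ⟨a, rfl⟩ := mem_Wk.1 hx
    cases i with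
    | w l b => simp [Conf, Rel] at hi
    | z l b =>
      have : m ≠ l := by simpa [Conf, Rel] using hi
      exact Or.inr ⟨l, this.symm, mem_Zk.2 ⟨b, rfl⟩⟩
    | s l b =>
      have : m = l := by simpa [Conf, Rel] using hi
      subst this
      exact Or.inl (mem_Sk.2 ⟨b, rfl⟩)
  have hZnb : ∀ m, ∀ x ∈ Zk m, ∀ i, Conf x i → i ∈ Sk m ∨ ∃ j, j ≠ m ∧ i ∈ Wk j := by
    intro m x hx i hi
    obtain ⟨a, rfl⟩ := mem_Zk.1 hx
    cases i with
    | w l b =>
      have : l ≠ m := by simpa [Conf, Rel] using hi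
      exact Or.inr ⟨l, this, mem_Wk.2 ⟨b, rfl⟩⟩
    | z l b => simp [Conf, Rel] at hi
    | s l b =>
      have : m = l := by simpa [Conf, Rel] using hi
      subst this
      exact Or.inl (mem_Sk.2 ⟨b, rfl⟩)
  have hWW : ∀ m, ∀ x ∈ Wk m ∪ Zk m, ∀ y ∈ Wk m ∪ Zk m, ¬ Conf x y := by
    intro m x hx y hy hc
    rcases Finset.mem_union.1 hx with hx | hx
    · rcases hWnb m x hx y hc with h | ⟨j, hj, h⟩
      · rcases Finset.mem_union.1 hy with hy | hy
        · obtain ⟨a, rfl⟩ := mem_Wk.1 hy; obtain ⟨b, hb⟩ := mem_Sk.1 h; cases hb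
        · obtain ⟨a, rfl⟩ := mem_Zk.1 hy; obtain ⟨b, hb⟩ := mem_Sk.1 h; cases hb
      · rcases Finset.mem_union.1 hy with hy | hy
        · obtain ⟨a, rfl⟩ := mem_Wk.1 hy; obtain ⟨b, hb⟩ := mem_Zk.1 h; cases hb
        · obtain ⟨a, rfl⟩ := mem_Zk.1 hy; obtain ⟨b, hb⟩ := mem_Zk.1 h; cases hb
          exact hj rfl
    · rcases hZnb m x hx y hc with h | ⟨j, hj, h⟩
      · rcases Finset.mem_union.1 hy with hy | hy
        · obtain ⟨a, rfl⟩ := mem_Wk.1 hy; obtain ⟨b, hb⟩ := mem_Sk.1 h; cases hb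
        · obtain ⟨a, rfl⟩ := mem_Zk.1 hy; obtain ⟨b, hb⟩ := mem_Sk.1 h; cases hb
      · rcases Finset.mem_union.1 hy with hy | hy
        · obtain ⟨a, rfl⟩ := mem_Wk.1 hy; obtain ⟨b, hb⟩ := mem_Wk.1 h; cases hb
          exact hj rfl
        · obtain ⟨a, rfl⟩ := mem_Zk.1 hy; obtain ⟨b, hb⟩ := mem_Wk.1 h; cases hb
  have hdisj : ∀ m, Disjoint (Wk m) (Zk m) := by
    intro m
    rw [Finset.disjoint_left]
    intro x hx hx'
    obtain ⟨a, rfl⟩ := mem_Wk.1 hx; obtain ⟨b, hb⟩ := mem_Zk.1 hx'; cases hb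
  have hcardWZ : ∀ m, (Wk m ∪ Zk m).card = 2 * m + 4 := by
    intro m
    rw [Finset.card_union_of_disjoint (hdisj m), card_Wk, card_Zk]; omega
  by_cases hex0 : ∃ k, ∃ y ∈ Wk k ∪ Zk k, y ∈ S
  · obtain ⟨k, hk⟩ := hex0
    have hother : ∀ l, l ≠ k → ∀ y ∈ Wk l ∪ Zk l, y ∉ S :=
      fun l hl y hy hyS => step4 k l hl.symm hk ⟨y, hy, hyS⟩
    let m := k + 1
    have hmk : m ≠ k := by simp [m]
    let A := Sk m ∪ (Wk k ∪ Zk k).filter (· ∈ S)
    let B := (Wk m ∪ Zk m) ∪ Sk k
    have hA : A.card ≤ (m + 3) + (2 * k + 4) := by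
      refine (Finset.card_union_le _ _).trans ?_
      rw [card_Sk]
      have := Finset.card_filter_le (Wk k ∪ Zk k) (· ∈ S)
      rw [hcardWZ] at this
      omega
    have hB : B.card = (2 * m + 4) + (k + 3) := by
      rw [Finset.card_union_of_disjoint, hcardWZ, card_Sk]
      rw [Finset.disjoint_left]
      intro x hx hx'
      obtain ⟨b, rfl⟩ := mem_Sk.1 hx'
      rcases Finset.mem_union.1 hx with hx | hx
      · obtain ⟨a, ha⟩ := mem_Wk.1 hx; cases ha
      · obtain ⟨a, ha⟩ := mem_Zk.1 hx; cases ha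
    have h := hex A B ?_ ?_ ?_ ?_
    · rw [hB] at h
      have : m = k + 1 := rfl
      omega
    · intro a ha
      rcases Finset.mem_union.1 ha with ha | ha
      · exact step2 m (hother m hmk) a ha
      · exact (Finset.mem_filter.1 ha).2
    · intro b hb
      rcases Finset.mem_union.1 hb with hb | hb
      · exact hother m hmk b hb
      · exact (hact k hk).1 b hb
    · intro b hb i hiS hbi
      rcases Finset.mem_union.1 hb with hb | hb
      · have hcase : i ∈ Sk m ∨ ∃ j, j ≠ m ∧ i ∈ Wk j ∪ Zk j := by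
          rcases Finset.mem_union.1 hb with hb | hb
          · rcases hWnb m b hb i hbi with h | ⟨j, hj, h⟩
            · exact Or.inl h
            · exact Or.inr ⟨j, hj, Finset.mem_union_right _ h⟩
          · rcases hZnb m b hb i hbi with h | ⟨j, hj, h⟩
            · exact Or.inl h
            · exact Or.inr ⟨j, hj, Finset.mem_union_left _ h⟩
        rcases hcase with h | ⟨j, hj, h⟩
        · exact Finset.mem_union_left _ h
        · by_cases hjk : j = k
          · subst hjk
            exact Finset.mem_union_right _ (Finset.mem_filter.2 ⟨h, hiS⟩)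
          · exact absurd hiS (hother j hjk i h)
      · exact Finset.mem_union_right _ (Finset.mem_filter.2 ⟨hSnb k b hb i hbi, hiS⟩)
    · intro b hb b' hb' hc
      rcases Finset.mem_union.1 hb with hb | hb <;> rcases Finset.mem_union.1 hb' with hb' | hb'
      · exact hWW m b hb b' hb' hc
      · have h1 := hSnb k b' hb' b hc.symm
        rcases Finset.mem_union.1 hb with hb | hb <;> rcases Finset.mem_union.1 h1 with h1 | h1
        · obtain ⟨a, rfl⟩ := mem_Wk.1 hb; obtain ⟨a', ha'⟩ := mem_Wk.1 h1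
          injection ha' with h2 h3
          exact hmk h2
        · obtain ⟨a, rfl⟩ := mem_Wk.1 hb; obtain ⟨a', ha'⟩ := mem_Zk.1 h1; cases ha'
        · obtain ⟨a, rfl⟩ := mem_Zk.1 hb; obtain ⟨a', ha'⟩ := mem_Wk.1 h1; cases ha'
        · obtain ⟨a, rfl⟩ := mem_Zk.1 hb; obtain ⟨a', ha'⟩ := mem_Zk.1 h1
          injection ha' with h2 h3
          exact hmk h2
      · have h1 := hSnb k b hb b' hc
        rcases Finset.mem_union.1 hb' with hb' | hb' <;> rcases Finset.mem_union.1 h1 with h1 | h1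
        · obtain ⟨a, rfl⟩ := mem_Wk.1 hb'; obtain ⟨a', ha'⟩ := mem_Wk.1 h1
          injection ha' with h2 h3
          exact hmk h2
        · obtain ⟨a, rfl⟩ := mem_Wk.1 hb'; obtain ⟨a', ha'⟩ := mem_Zk.1 h1; cases ha'
        · obtain ⟨a, rfl⟩ := mem_Zk.1 hb'; obtain ⟨a', ha'⟩ := mem_Wk.1 h1; cases ha'
        · obtain ⟨a, rfl⟩ := mem_Zk.1 hb'; obtain ⟨a', ha'⟩ := mem_Zk.1 h1
          injection ha' with h2 h3
          exact hmk h2
      · exact hSS k b hb k b' hb' hc
  · push Not at hex0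
    have h := hex (Sk 0) (Wk 0 ∪ Zk 0) (step2 0 (hex0 0)) (hex0 0) ?_ (hWW 0)
    · rw [hcardWZ, card_Sk] at h
      omega
    · intro b hb i hiS hbi
      rcases Finset.mem_union.1 hb with hb | hb
      · rcases hWnb 0 b hb i hbi with h | ⟨j, hj, h⟩
        · exact h
        · exact absurd hiS (hex0 j i (Finset.mem_union_right _ h))
      · rcases hZnb 0 b hb i hbi with h | ⟨j, hj, h⟩
        · exact h
        · exact absurd hiS (hex0 j i (Finset.mem_union_left _ h))

end Idx

/-- **Soft conflict lemma.** -/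
theorem not_stronglyMaximal_of_conflict {W : Type v} {V : Type u} {H : SimpleGraph W}
    {G : SimpleGraph V} (e : Idx → Sym2 V) (D : Idx → Idx → Set (Sym2 V))
    (he : Function.Injective e) (heG : ∀ i, e i ∈ G.edgeSet)
    (hDG : ∀ i j, Idx.Rel i j → D i j ⊆ G.edgeSet)
    (heD : ∀ i k l, Idx.Rel k l → e i ∉ D k l)
    (hDD : ∀ i j k l x, Idx.Rel i j → Idx.Rel k l → x ∈ D i j → x ∈ D k l → i = k ∧ j = l)
    (hA : ∀ i j, Idx.Rel i j → ¬ HFree H (D i j ∪ {e i, e j}))
    (hB : ∀ F ⊆ G.edgeSet, ¬ HFree H F →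
      ∃ i j, Idx.Rel i j ∧ D i j ⊆ F ∧ e i ∈ F ∧ e j ∈ F) (F : Set (Sym2 V)) :
    ¬ StronglyMaximal H G F := by
  classical
  intro hF
  have hmiss : ∀ i j, Idx.Rel i j → e i ∈ F → e j ∈ F → ∃ x ∈ D i j, x ∉ F := by
    intro i j hij hi hj
    by_contra hn
    push Not at hn
    refine hA i j hij (hF.2.1.mono ?_)
    rintro x (hx | hx)
    · exact hn x hx
    · rcases hx with rfl | rfl
      · exact hi
      · exact hj
  refine Idx.no_soft {i | e i ∈ F} ?_ ?_
  · intro i j j' hi hj hj' hij hij'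
    by_contra hne
    -- missing edges for the two conflicts
    have hm : ∀ j, e j ∈ F → Idx.Conf i j → ∃ k l x, Idx.Rel k l ∧ x ∈ D k l ∧ x ∉ F ∧
        ((k = i ∧ l = j) ∨ (k = j ∧ l = i)) := by
      intro j hj hij
      rcases hij with h | h
      · obtain ⟨x, hx, hxF⟩ := hmiss i j h hi hj
        exact ⟨i, j, x, h, hx, hxF, Or.inl ⟨rfl, rfl⟩⟩
      · obtain ⟨x, hx, hxF⟩ := hmiss j i h hj hi
        exact ⟨j, i, x, h, hx, hxF, Or.inr ⟨rfl, rfl⟩⟩
    obtain ⟨k, l, x, hkl, hx, hxF, hk⟩ := hm j hj hij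
    obtain ⟨k', l', x', hkl', hx', hxF', hk'⟩ := hm j' hj' hij'
    have hxx : x ≠ x' := by
      rintro rfl
      obtain ⟨h1, h2⟩ := hDD k l k' l' x hkl hkl' hx hx'
      rcases hk with ⟨h5, h6⟩ | ⟨h5, h6⟩ <;> rcases hk' with ⟨h3, h4⟩ | ⟨h3, h4⟩
      · exact hne (h6.symm.trans (h2.trans h4))
      · exact hij'.ne (h5.symm.trans (h1.trans h3))
      · exact hij'.ne (h6.symm.trans (h2.trans h4))
      · exact hne (h5.symm.trans (h1.trans h3))
    have h := hF.exchange_fin (A := {x, x'}) (B := {e i}) ?_ ?_ ?_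
    · rw [Finset.card_pair hxx, Finset.card_singleton] at h
      omega
    · intro y hy
      simp only [Finset.mem_insert, Finset.mem_singleton] at hy
      rcases hy with rfl | rfl
      · exact hDG k l hkl hx
      · exact hDG k' l' hkl' hx'
    · intro y hy hyF
      simp only [Finset.mem_insert, Finset.mem_singleton] at hy
      rcases hy with rfl | rfl
      · exact absurd hyF hxF
      · exact absurd hyF hxF'
    · by_contra hcon
      obtain ⟨p, q, hpq, hD, hp, hq⟩ := hB _ (by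
        apply Set.union_subset (Set.sdiff_subset.trans hF.1)
        intro y hy
        simp only [Finset.coe_insert, Finset.coe_singleton, Set.mem_insert_iff,
          Set.mem_singleton_iff] at hy
        rcases hy with rfl | rfl
        · exact hDG k l hkl hx
        · exact hDG k' l' hkl' hx') hcon
      have hmem : ∀ y, y ∈ (F \ ↑({e i} : Finset (Sym2 V))) ∪ ↑({x, x'} : Finset (Sym2 V)) ↔
          (y ∈ F ∧ y ≠ e i) ∨ y = x ∨ y = x' := by
        intro y
        simp only [Finset.coe_singleton, Finset.coe_insert, Set.mem_union, Set.mem_sdiff,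
          Set.mem_singleton_iff, Set.mem_insert_iff]
      rw [hmem] at hp hq
      have hp' : e p ∈ F ∧ e p ≠ e i := by
        rcases hp with h | h | h
        · exact h
        · exact absurd (h ▸ hx) (heD p k l hkl)
        · exact absurd (h ▸ hx') (heD p k' l' hkl')
      have hq' : e q ∈ F ∧ e q ≠ e i := by
        rcases hq with h | h | h
        · exact h
        · exact absurd (h ▸ hx) (heD q k l hkl)
        · exact absurd (h ▸ hx') (heD q k' l' hkl')
      have hpi : p ≠ i := fun h => hp'.2 (congrArg e h)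
      have hqi : q ≠ i := fun h => hq'.2 (congrArg e h)
      obtain ⟨y, hy, hyF⟩ := hmiss p q hpq hp'.1 hq'.1
      rcases (hmem y).1 (hD hy) with h | h | h
      · exact hyF h.1
      · subst h
        obtain ⟨h1, h2⟩ := hDD p q k l y hpq hkl hy hx
        rcases hk with ⟨h3, h4⟩ | ⟨h3, h4⟩
        · exact hpi (h1.trans h3)
        · exact hqi (h2.trans h4)
      · subst h
        obtain ⟨h1, h2⟩ := hDD p q k' l' y hpq hkl' hy hx'
        rcases hk' with ⟨h3, h4⟩ | ⟨h3, h4⟩
        · exact hpi (h1.trans h3)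
        · exact hqi (h2.trans h4)
  · intro A B hAS hBS hnb hind
    have h := hF.exchange_fin (A := B.image e) (B := A.image e) ?_ ?_ ?_
    · rwa [Finset.card_image_of_injective _ he, Finset.card_image_of_injective _ he] at h
    · intro x hx
      obtain ⟨i, -, rfl⟩ := Finset.mem_image.1 hx
      exact heG i
    · intro x hx hxF
      obtain ⟨i, hi, rfl⟩ := Finset.mem_image.1 hx
      exact absurd hxF (hBS i hi)
    · by_contra hcon
      obtain ⟨p, q, hpq, hD, hp, hq⟩ := hB _ (by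
        apply Set.union_subset (Set.sdiff_subset.trans hF.1)
        intro y hy
        obtain ⟨i, -, rfl⟩ := Finset.mem_image.1 (Finset.mem_coe.1 hy)
        exact heG i) hcon
      have hmem : ∀ i, e i ∈ (F \ ↑(A.image e)) ∪ ↑(B.image e) → (e i ∈ F ∧ i ∉ A) ∨ i ∈ B := by
        rintro i (⟨h1, h2⟩ | h)
        · exact Or.inl ⟨h1, fun h => h2 (Finset.mem_coe.2 (Finset.mem_image_of_mem e h))⟩
        · obtain ⟨j, hj, hji⟩ := Finset.mem_image.1 (Finset.mem_coe.1 h)
          exact Or.inr (he hji ▸ hj)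
      rcases hmem p hp with ⟨hpF, hpA⟩ | hpB
      · rcases hmem q hq with ⟨hqF, hqA⟩ | hqB
        · obtain ⟨y, hy, hyF⟩ := hmiss p q hpq hpF hqF
          rcases hD hy with h | h
          · exact hyF h.1
          · obtain ⟨i, -, rfl⟩ := Finset.mem_image.1 (Finset.mem_coe.1 h)
            exact heD i p q hpq hy
        · exact hpA (hnb q hqB p hpF (Or.inr hpq))
      · rcases hmem q hq with ⟨hqF, hqA⟩ | hqB
        · exact hqA (hnb p hpB q hqF (Or.inl hpq))
        · exact hind p hpB q hqB (Or.inl hpq)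

end Pool.Agent.StrongMax
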