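import Pool.Agent.Lib.StrongMax.Basic42

/-!
# The conflict lemma (helper42)
-/

namespace Pool.Agent.StrongMax

open Cardinal

/-- **Conflict lemma.** Suppose that for all types `J`, `K` there are item edges indexed by `J` and
edge sets `P i j k` (`i ≠ j` in `J`, `k : K`), disjoint for distinct `k`, such that two items
together with some `P i j k` contain `H`, and such that for each relation `R` on `J` the items of an
`R`-independent set together with all `P i j k` with `R i j` do not contain `H`. Then `H` fails. -/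
theorem Fails.of_conflict {W : Type} {H : SimpleGraph W} (X : Type → Type → Type)
    (item : (J K : Type) → J → Sym2 (X J K))
    (P : (J K : Type) → J → J → K → Set (Sym2 (X J K)))
    (hinj : ∀ J K, Function.Injective (item J K))
    (hid : ∀ J K j, ¬ (item J K j).IsDiag)
    (hPd : ∀ J K i j k, i ≠ j → ∀ e ∈ P J K i j k, ¬ e.IsDiag)
    (hdisj : ∀ J K i j k l e, i ≠ j → e ∈ P J K i j k → e ∈ P J K i j l → k = l)
    (h1 : ∀ (J K : Type) (R : J → J → Prop) (A : Set J), (∀ i j, R i j → i ≠ j) →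
      (∀ i ∈ A, ∀ j ∈ A, ¬ R i j) →
      HFree H (item J K '' A ∪ {e | ∃ i j k, R i j ∧ e ∈ P J K i j k}))
    (h2 : ∀ (J K : Type) (i j : J) (k : K), i ≠ j →
      ¬ HFree H ({item J K i, item J K j} ∪ P J K i j k)) : Fails.{0} H := by
  classical
  let O : ℕ → Type := fun n => (Cardinal.aleph (n + 1)).out
  have hO : ∀ n, #(O n) = Cardinal.aleph (n + 1) := fun n => Cardinal.mk_out _
  let J : Type := Σ n : ℕ, O n
  let K : Type := Set J
  have hcard : #J < #K := Cardinal.mk_set ▸ Cardinal.cantor _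
  let R : J → J → Prop := fun i j => i.1 < j.1
  have hRne : ∀ i j, R i j → i ≠ j := by
    rintro i j h rfl
    exact lt_irrefl _ h
  let Priv : Set (Sym2 (X J K)) := {e | ∃ i j k, R i j ∧ e ∈ P J K i j k}
  let G : SimpleGraph (X J K) := SimpleGraph.fromEdgeSet (Set.range (item J K) ∪ Priv)
  have hGe : G.edgeSet = Set.range (item J K) ∪ Priv := by
    show (SimpleGraph.fromEdgeSet (Set.range (item J K) ∪ Priv)).edgeSet = _
    rw [SimpleGraph.edgeSet_fromEdgeSet]
    apply sdiff_eq_left.2
    rw [Set.disjoint_left]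
    rintro e (⟨a, rfl⟩ | ⟨i, j, k, hR, he'⟩) he
    · exact hid J K a (by simpa using he)
    · exact hPd J K i j k (hRne i j hR) e he' (by simpa using he)
  refine ⟨_, G, fun F hF => ?_⟩
  obtain ⟨hFG, hFH, hFmax⟩ := hF
  rw [hGe] at hFG
  have hPrivH : HFree H Priv := (h1 J K R ∅ hRne (fun i hi => absurd hi (by simp))).mono
    Set.subset_union_right
  have hitem : ∀ e ∈ F, e ∉ Priv → ∃ j, item J K j = e := by
    intro e he hn
    rcases hFG he with h | h
    · exact h
    · exact absurd h hn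
  have hPF : #(↥(Priv \ F)) ≤ #J := by
    refine (hFmax Priv ?_ hPrivH).trans ?_
    · rw [hGe]; exact Set.subset_union_right
    · have h3 : ∀ e : ↥(F \ Priv), ∃ j, item J K j = e.1 := fun e => hitem e.1 e.2.1 e.2.2
      choose g hg using h3
      exact Cardinal.mk_le_of_injective (f := g)
        (fun a b h => Subtype.ext (by rw [← hg a, ← hg b, h]))
  -- no two items in conflict
  have hind : ∀ i j, item J K i ∈ F → item J K j ∈ F → ¬ R i j := by
    intro i j hi hj hR
    have hij := hRne i j hR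
    let Bad : Set K := {k | ∃ e ∈ P J K i j k, e ∉ F}
    have hBad : #(↥Bad) < #K := by
      refine lt_of_le_of_lt (le_trans ?_ hPF) hcard
      have h3 : ∀ k : ↥Bad, ∃ e, e ∈ P J K i j k.1 ∧ e ∉ F := fun k => k.2
      choose g hg hgF using h3
      refine Cardinal.mk_le_of_injective (f := fun k => ⟨g k, ⟨i, j, k.1, hR, hg k⟩, hgF k⟩) ?_
      intro k l h
      have h4 : g k = g l := congrArg Subtype.val h
      exact Subtype.ext (hdisj J K i j k.1 l.1 (g k) hij (hg k) (h4 ▸ hg l))
    obtain ⟨k, hk⟩ : ∃ k, k ∉ Bad := by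
      by_contra hcon
      push Not at hcon
      have h3 : Bad = Set.univ := Set.eq_univ_of_forall hcon
      rw [h3, Cardinal.mk_univ] at hBad
      exact lt_irrefl _ hBad
    refine h2 J K i j k hij (hFH.mono ?_)
    rintro e ((rfl | rfl) | he)
    · exact hi
    · exact hj
    · by_contra h
      exact hk ⟨e, he, h⟩
  -- the items lie in one class
  obtain ⟨n, hn⟩ : ∃ n, ∀ j, item J K j ∈ F → j.1 = n := by
    by_cases hex : ∃ j, item J K j ∈ F
    · obtain ⟨j₀, hj₀⟩ := hex
      refine ⟨j₀.1, fun j hj => ?_⟩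
      have h3 := hind j j₀ hj hj₀
      have h4 := hind j₀ j hj₀ hj
      simp only [R] at h3 h4
      omega
    · exact ⟨0, fun j hj => absurd ⟨j, hj⟩ hex⟩
  let I : Set (Sym2 (X J K)) := item J K '' {j | j.1 = n + 1} ∪ Priv
  have hI : HFree H I := by
    refine h1 J K R {j | j.1 = n + 1} hRne ?_
    intro i hi j hj hR
    have h3 : i.1 = n + 1 := hi
    have h4 : j.1 = n + 1 := hj
    have h5 : i.1 < j.1 := hR
    omega
  have h3 := hFmax I (by
    rw [hGe]
    rintro e (⟨j, -, rfl⟩ | h)
    · exact Or.inl ⟨j, rfl⟩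
    · exact Or.inr h) hI
  have h4 : #(O (n + 1)) ≤ #(↥(I \ F)) := by
    refine Cardinal.mk_le_of_injective (f := fun x : O (n + 1) =>
      (⟨item J K ⟨n + 1, x⟩, Or.inl ⟨⟨n + 1, x⟩, rfl, rfl⟩, fun h => ?_⟩ : ↥(I \ F))) ?_
    · have h5 : n + 1 = n := hn _ h
      omega
    · intro x y h
      have h5 : item J K ⟨n + 1, x⟩ = item J K ⟨n + 1, y⟩ := congrArg Subtype.val h
      have h6 := hinj J K h5
      exact eq_of_heq (Sigma.mk.inj_iff.1 h6).2
  have h5 : #(↥(F \ I)) ≤ #(O n) := by
    have h6 : ∀ e : ↥(F \ I), ∃ x : O n, item J K ⟨n, x⟩ = e.1 := by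
      rintro ⟨e, he, heI⟩
      obtain ⟨j, rfl⟩ := hitem e he (fun h => heI (Or.inr h))
      obtain ⟨m, x⟩ := j
      have h7 : m = n := hn _ he
      subst h7
      exact ⟨x, rfl⟩
    choose g hg using h6
    exact Cardinal.mk_le_of_injective (f := g)
      (fun a b h => Subtype.ext (by rw [← hg a, ← hg b, h]))
  have h6 := h4.trans (h3.trans h5)
  rw [hO, hO] at h6
  have h7 := Cardinal.aleph_le_aleph.1 h6
  have h8 : ((n : Ordinal) + 1) < ((n + 1 : ℕ) : Ordinal) + 1 := by
    push_cast
    exact lt_add_one _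
  exact absurd h7 (not_le.2 h8)

end Pool.Agent.StrongMax
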