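import Pool.Agent.Lib.StrongMax.Conn1d

/-!
# Graphs with a cut vertex (helper42)
-/

namespace Pool.Agent.StrongMax

variable {W : Type} {H : SimpleGraph W}

theorem thick_of_atom (hδ : ∀ x, x ∈ coreSet H) {D : Set W} {c : W} (h : IsAtom1 H D c) {S : Set W}
    (hS : insert c D ⊆ S) : ¬ ∃ z : S, ∀ a b : S, H.Adj a b → a = z ∨ b = z := by
  rintro ⟨z, hz⟩
  refine h.thick hδ ⟨z, fun a ha b hb hab => ?_⟩
  rcases hz ⟨a, hS ha⟩ ⟨b, hS hb⟩ hab with h1 | h1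
  · exact Or.inl (congrArg Subtype.val h1)
  · exact Or.inr (congrArg Subtype.val h1)

theorem exists_min_atom [Finite W] (hfr : ∃ D c, Frag H D c) :
    ∃ D₀ c₀, IsAtom1 H D₀ c₀ ∧ ∀ D c, IsAtom1 H D c → REmb H D c D₀ c₀ → REmb H D₀ c₀ D c := by
  obtain ⟨D, c, hD⟩ := exists_atom1 hfr
  obtain ⟨⟨D₀, c₀⟩, h1, h2⟩ := Set.exists_min_image {p : Set W × W | IsAtom1 H p.1 p.2}
    (fun p => ({q : Set W × W | IsAtom1 H q.1 q.2 ∧ REmb H q.1 q.2 p.1 p.2}).ncard)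
    (Set.toFinite _) ⟨(D, c), hD⟩
  refine ⟨D₀, c₀, h1, fun D c hDc hR => ?_⟩
  have h3 := h2 (D, c) hDc
  have h4 : {q : Set W × W | IsAtom1 H q.1 q.2 ∧ REmb H q.1 q.2 D c} ⊆
      {q : Set W × W | IsAtom1 H q.1 q.2 ∧ REmb H q.1 q.2 D₀ c₀} :=
    fun q hq => ⟨hq.1, hq.2.trans hR⟩
  have h5 := Set.eq_of_subset_of_ncard_le h4 h3 (Set.toFinite _)
  have h6 : (D₀, c₀) ∈ {q : Set W × W | IsAtom1 H q.1 q.2 ∧ REmb H q.1 q.2 D₀ c₀} :=
    ⟨h1, REmb.refl _ _⟩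
  rw [← h5] at h6
  exact h6.2

theorem mem_pet_of_adj [Finite W] {D₀ : Set W} {c₀ : W} {l x : W}
    (hl : l ∉ atomUnion H D₀ c₀) (hx : x ∈ atomUnion H D₀ c₀) (h : H.Adj l x) :
    x ∈ ⋃₀ Pet H D₀ c₀ l := by
  obtain ⟨D, r, hD, hR, hxD⟩ := hx
  rcases hD.1.2.2.2 x hxD l h.symm with h1 | h1
  · exact absurd ⟨D, r, hD, hR, h1⟩ hl
  · subst h1
    exact ⟨D, ⟨hD, hR⟩, hxD⟩

theorem star_adj [Finite W] (hc : H.Connected) {D₀ : Set W} {c₀ : W} {z : W}
    (hz : z ∉ atomUnion H D₀ c₀)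
    (hst : ∀ a ∉ atomUnion H D₀ c₀, ∀ b ∉ atomUnion H D₀ c₀, H.Adj a b → a = z ∨ b = z) :
    ∀ l ∉ atomUnion H D₀ c₀, l ≠ z → H.Adj z l := by
  intro l hl hlz
  by_contra hcon
  have h1 := closed_univ (S := insert l (⋃₀ Pet H D₀ c₀ l)) hc (fun a ha b hab => by
    rcases ha with rfl | ⟨D, hD, ha⟩
    · by_cases hb : b ∈ atomUnion H D₀ c₀
      · exact Or.inr (mem_pet_of_adj hl hb hab)
      · rcases hst a hl b hb hab with h1 | h1
        · exact absurd h1 hlz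
        · exact absurd (h1 ▸ hab.symm) hcon
    · rcases hD.1.1.2.2.2 a ha b hab with h1 | h1
      · exact Or.inr ⟨D, hD, h1⟩
      · exact Or.inl h1) ⟨l, Or.inl rfl⟩ z
  rcases h1 with h1 | ⟨D, hD, h1⟩
  · exact hlz h1.symm
  · exact hz ⟨D, l, hD.1, hD.2, h1⟩

theorem star_pos [Finite W] (hδ : ∀ x, x ∈ coreSet H) {D₀ : Set W} {c₀ : W} {z : W}
    (hst : ∀ a ∉ atomUnion H D₀ c₀, ∀ b ∉ atomUnion H D₀ c₀, H.Adj a b → a = z ∨ b = z) :
    ∀ l ∉ atomUnion H D₀ c₀, l ≠ z → (Pet H D₀ c₀ l).Nonempty := by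
  intro l hl hlz
  obtain ⟨x, hx, hlx⟩ : ∃ x, x ≠ z ∧ H.Adj l x := by
    obtain ⟨x, y, hxy, hx, hy⟩ := hδ l
    by_cases h : x = z
    · exact ⟨y, fun h' => hxy (h.trans h'.symm), hy⟩
    · exact ⟨x, h, hx⟩
  by_cases hxU : x ∈ atomUnion H D₀ c₀
  · obtain ⟨D, hD, _⟩ := mem_pet_of_adj hl hxU hlx
    exact ⟨D, hD⟩
  · rcases hst l hl x hxU hlx with h | h
    · exact absurd h hlz
    · exact absurd h hx

/-- **Graphs with a cut vertex.** -/
theorem conn1 [Finite W] (hc : H.Connected) (hδ : ∀ x, x ∈ coreSet H)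
    (hfr : ∃ D c, Frag H D c)
    (IH : ∀ S : Set W, S ≠ Set.univ → (¬ ∃ z : S, ∀ a b : S, H.Adj a b → a = z ∨ b = z) →
      Fails.{0} (H.induce S)) : Fails.{0} H := by
  classical
  obtain ⟨D₀, c₀, h₀, hmin⟩ := exists_min_atom hfr
  have hc₀ : c₀ ∉ atomUnion H D₀ c₀ := root_notMem_atomUnion hc h₀
  have hD₀U : ∀ x ∈ D₀, x ∈ atomUnion H D₀ c₀ := fun x hx => ⟨D₀, c₀, h₀, REmb.refl _ _, hx⟩
  by_cases hthick : ∃ z : ↥(atomUnion H D₀ c₀)ᶜ, ∀ a b : ↥(atomUnion H D₀ c₀)ᶜ,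
      H.Adj a b → a = z ∨ b = z
  swap
  · refine conn1_step1 hc h₀ (IH _ ?_ hthick) ?_
    · intro h
      obtain ⟨x, hx⟩ := h₀.1.1
      have : x ∈ (atomUnion H D₀ c₀)ᶜ := by rw [h]; trivial
      exact this (hD₀U x hx)
    · by_contra hcon
      push Not at hcon
      exact hthick ⟨⟨c₀, hc₀⟩, fun a b hab => absurd hab (hcon a a.2 b b.2)⟩
  obtain ⟨⟨z, hz⟩, hst'⟩ := hthick
  have hst : ∀ a ∉ atomUnion H D₀ c₀, ∀ b ∉ atomUnion H D₀ c₀, H.Adj a b → a = z ∨ b = z := by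
    intro a ha b hb hab
    rcases hst' ⟨a, ha⟩ ⟨b, hb⟩ hab with h | h
    · exact Or.inl (congrArg Subtype.val h)
    · exact Or.inr (congrArg Subtype.val h)
  clear hst'
  by_cases hS : ∀ l ∉ atomUnion H D₀ c₀, l = z
  · -- all petals at one vertex
    have hcz : c₀ = z := hS c₀ hc₀
    subst hcz
    have hcov : ∀ x, x ≠ c₀ → ∃ D ∈ Pet H D₀ c₀ c₀, x ∈ D := by
      intro x hx
      by_cases hxU : x ∈ atomUnion H D₀ c₀
      · obtain ⟨D, r, hD, hR, hxD⟩ := hxU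
        have hr : r = c₀ := hS r (root_notMem_atomUnion hc hD)
        subst hr
        exact ⟨D, ⟨hD, hR⟩, hxD⟩
      · exact absurd (hS x hxU) hx
    by_cases hw : ∃ w₀ ∈ D₀, ¬ H.Adj c₀ w₀
    · obtain ⟨w₀, hw₀, hw₀z⟩ := hw
      refine conn1_books hc hδ h₀ hmin hcov hw₀ hw₀z (IH _ ?_ (thick_of_atom hδ h₀ subset_rfl))
      obtain ⟨x, hx, hxc⟩ := h₀.1.2.2.1
      intro h
      have : x ∈ insert c₀ D₀ := by rw [h]; trivial
      rcases this with h1 | h1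
      · exact hxc h1
      · exact hx h1
    · push Not at hw
      obtain ⟨x, hx, hxc⟩ := h₀.1.2.2.1
      obtain ⟨D₁, hD₁, hxD₁⟩ := hcov x hxc
      let D : Bool → Set W := fun c => if c then D₁ else D₀
      have hD : ∀ c, IsAtom1 H (D c) c₀ := by
        intro c
        cases c
        · exact h₀
        · exact hD₁.1
      have hedge : ∀ c, ∃ a b, a ∈ D c ∧ b ∈ D c ∧ H.Adj a b := by
        intro c
        have h1 := (hD c).thick hδ
        push Not at h1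
        obtain ⟨a, ha, b, hb, hab, h2, h3⟩ := h1 c₀
        rcases ha with ha | ha
        · exact absurd ha h2
        · rcases hb with hb | hb
          · exact absurd hb h3
          · exact ⟨a, b, ha, hb, hab⟩
      choose a b ha hb hab using hedge
      refine conn1_direct hc hD ?_ ?_ ?_ (t := fun c β => if β then b c else a c) ?_ ?_
      · show D₀ ≠ D₁
        intro h
        exact hx (h ▸ hxD₁)
      · intro x hx
        obtain ⟨D, hD, hxD⟩ := hcov x hx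
        exact ⟨D, hD.1, hxD⟩
      · intro x hx
        obtain ⟨D, hD, hxD⟩ := hcov x hx
        obtain ⟨ψ, h1, h2, h3, h4⟩ := hmin D c₀ hD.1 hD.2
        have h5 : ψ '' D₀ = D := by
          refine Set.eq_of_subset_of_ncard_le ?_ ?_ (Set.toFinite _)
          · rintro _ ⟨y, hy, rfl⟩
            exact h3 y hy
          · rw [(h1.mono (Set.subset_insert _ _)).ncard_image, hD.1.ncard_eq h₀]
        rw [← h5] at hxD
        obtain ⟨y, hy, rfl⟩ := hxD
        have h6 := h4 c₀ (Or.inl rfl) y (Or.inr hy) (hw y hy)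
        rwa [h2] at h6
      · intro c β
        cases β
        · exact ha c
        · exact hb c
      · intro c
        exact hab c
  · -- there are leaves
    push Not at hS
    obtain ⟨l₀, hl₀, hl₀z⟩ := hS
    obtain ⟨l₁, ⟨hl₁, hl₁z⟩, hl₁min⟩ := Set.exists_min_image
      {l : W | l ∉ atomUnion H D₀ c₀ ∧ l ≠ z} (fun l => (Pet H D₀ c₀ l).ncard) (Set.toFinite _)
      ⟨l₀, hl₀, hl₀z⟩
    have hfail : ∀ l y, l ∉ atomUnion H D₀ c₀ → y ∉ atomUnion H D₀ c₀ → y ≠ l →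
        (Pet H D₀ c₀ l).Nonempty → Fails.{0} (H.induce (insert l (⋃₀ Pet H D₀ c₀ l))) := by
      intro l y hl hy hyl hne
      obtain ⟨D, hD⟩ := hne
      refine IH _ ?_ (thick_of_atom hδ hD.1 ?_)
      · intro h
        have : y ∈ insert l (⋃₀ Pet H D₀ c₀ l) := by rw [h]; trivial
        rcases this with h1 | ⟨D', hD', h1⟩
        · exact hyl h1
        · exact hy ⟨D', l, hD'.1, hD'.2, h1⟩
      · rintro x (rfl | hx)
        · exact Or.inl rfl
        · exact Or.inr ⟨D, hD, hx⟩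
    by_cases hsw : (∀ l ∉ atomUnion H D₀ c₀, l = z ∨ l = l₁) ∧
        (Pet H D₀ c₀ z).ncard < (Pet H D₀ c₀ l₁).ncard
    · -- exchange the roles of `z` and `l₁`
      obtain ⟨hS2, hlt⟩ := hsw
      have hst2 : ∀ a ∉ atomUnion H D₀ c₀, ∀ b ∉ atomUnion H D₀ c₀, H.Adj a b →
          a = l₁ ∨ b = l₁ := by
        intro a ha b hb hab
        rcases hS2 a ha with h1 | h1
        · rcases hS2 b hb with h2 | h2
          · exact absurd (h1.trans h2.symm) hab.ne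
          · exact Or.inr h2
        · exact Or.inl h1
      have hpos2 := star_pos hδ hst2
      refine conn1_step2 hc hδ hmin hst2 hz hl₁z.symm (star_adj hc hl₁ hst2) hpos2 ?_ ?_
        (hfail z l₁ hz hl₁ hl₁z (hpos2 z hz hl₁z.symm))
      · intro l hl hll
        rcases hS2 l hl with h1 | h1
        · rw [h1]
        · exact absurd h1 hll
      · intro _
        exact hlt.le
    · have hpos := star_pos hδ hst
      refine conn1_step2 hc hδ hmin hst hl₁ hl₁z (star_adj hc hz hst) hpos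
        (fun l hl hlz => hl₁min l ⟨hl, hlz⟩) ?_ (hfail l₁ z hl₁ hz hl₁z.symm (hpos l₁ hl₁ hl₁z))
      intro h
      by_contra hcon
      exact hsw ⟨h, not_le.1 hcon⟩

end Pool.Agent.StrongMax
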