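import Pool.Agent.Lib.StrongMax.Attach

/-!
# Connectivity one: removing all atoms of one type (helper42)
-/

namespace Pool.Agent.StrongMax

variable {W : Type} {H : SimpleGraph W}

/-- The union of the atoms which embed in the atom `D₀` with root `c₀`. -/
def atomUnion (H : SimpleGraph W) (D₀ : Set W) (c₀ : W) : Set W :=
  {x | ∃ D c, IsAtom1 H D c ∧ REmb H D c D₀ c₀ ∧ x ∈ D}

theorem root_notMem_atomUnion [Finite W] (hc : H.Connected) {D₀ : Set W} {c₀ : W} {D : Set W}
    {c : W} (h : IsAtom1 H D c) : c ∉ atomUnion H D₀ c₀ := by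
  rintro ⟨D', c', h', -, hc'⟩
  exact h'.root_notMem hc h hc'

theorem conn1_step1 [Finite W] (hc : H.Connected) {D₀ : Set W} {c₀ : W} (h₀ : IsAtom1 H D₀ c₀)
    (hfail : Fails.{0} (H.induce (atomUnion H D₀ c₀)ᶜ))
    (hSe : ∃ a ∈ (atomUnion H D₀ c₀)ᶜ, ∃ b ∈ (atomUnion H D₀ c₀)ᶜ, H.Adj a b) : Fails.{0} H := by
  classical
  refine Fails.of_attach (insert c₀ D₀) c₀ hfail hSe ?_ ?_
  · intro V₀ K I₀ hI₀ f hf hfa
    -- every vertex has a neighbour
    have hnbr : ∀ x, ∃ y, H.Adj x y := by
      intro x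
      by_contra hcon
      push Not at hcon
      have h1 := closed_univ (S := {x}) hc (fun a ha b hab => by
        rw [Set.mem_singleton_iff] at ha
        exact absurd (ha ▸ hab) (hcon b)) ⟨x, rfl⟩
      obtain ⟨a, ha⟩ := h₀.1.1
      have h2 := h1 a
      have h3 := h1 c₀
      rw [Set.mem_singleton_iff] at h2 h3
      exact h₀.1.2.1 (h3.trans h2.symm ▸ ha)
    have hleft : ∀ x ∈ (atomUnion H D₀ c₀)ᶜ, ∃ v, f x = .inl v := by
      intro x hxU
      by_contra hcon
      push Not at hcon
      obtain ⟨g, k, w, hfx⟩ : ∃ g k w, f x = .inr (g, k, w) := by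
        cases h : f x with
        | inl v => exact absurd h (hcon v)
        | inr p => exact ⟨p.1, p.2.1, p.2.2, rfl⟩
      let Y : Set W := {h | ∃ w, f h = .inr (g, k, w)}
      have hxY : x ∈ Y := ⟨w, hfx⟩
      have hYw : ∀ h ∈ Y, ∃ w ∈ D₀, f h = .inr (g, k, w) := by
        rintro h ⟨w, hw⟩
        obtain ⟨y, hy⟩ := hnbr h
        rcases hfa h y hy with ⟨a, b, h1, h2, _⟩ | ⟨g', k', w₁, w₂, h1, h2, h3, h4, h5⟩
        · rw [hw] at h1; exact absurd h1 (by simp)
        · rw [hw] at h4
          have h6 := aemb_eq_inr h4.symm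
          rw [Prod.mk.injEq, Prod.mk.injEq] at h6
          rcases h2 with h2 | h2
          · exact absurd h2 h6.1
          · exact ⟨w, h6.2.2.2 ▸ h2, hw⟩
      have hYcl : ∀ a ∈ Y, ∀ b, H.Adj a b → b ∈ Y ∨ f b = .inl g := by
        rintro a ⟨w, hw⟩ b hab
        rcases hfa a b hab with ⟨x, y, h1, h2, _⟩ | ⟨g', k', w₁, w₂, h1, h2, h3, h4, h5⟩
        · rw [hw] at h1; exact absurd h1 (by simp)
        · rw [hw] at h4
          have h6 := aemb_eq_inr h4.symm
          rw [Prod.mk.injEq, Prod.mk.injEq] at h6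
          obtain ⟨-, rfl, rfl, rfl⟩ := h6
          by_cases hw₂ : w₂ = c₀
          · right; rw [h5, hw₂, aemb_root]
          · left; exact ⟨w₂, by rw [h5, aemb_ne _ _ hw₂]⟩
      choose! φ hφD hφ using hYw
      have hφinj : Set.InjOn φ Y := fun a ha b hb hab => hf (by rw [hφ a ha, hφ b hb, hab])
      have hYle : Y.ncard ≤ D₀.ncard :=
        Set.ncard_le_ncard_of_injOn φ hφD hφinj (Set.toFinite _)
      have hWlt : Y.ncard + 1 < (Set.univ : Set W).ncard := by
        obtain ⟨z, hz, hzc⟩ := h₀.1.2.2.1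
        have h1 : (insert z (insert c₀ D₀)).ncard ≤ (Set.univ : Set W).ncard :=
          Set.ncard_le_ncard (Set.subset_univ _) (Set.toFinite _)
        rw [Set.ncard_insert_of_notMem (by rintro (h | h); exact hzc h; exact hz h) (Set.toFinite _),
          Set.ncard_insert_of_notMem h₀.1.2.1 (Set.toFinite _)] at h1
        omega
      by_cases hb : ∃ b, f b = .inl g
      · obtain ⟨b₀, hb₀⟩ := hb
        have hb₀Y : b₀ ∉ Y := by
          rintro ⟨w, hw⟩
          rw [hb₀] at hw; exact absurd hw (by simp)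
        have hfr : Frag H Y b₀ := by
          refine ⟨⟨x, hxY⟩, hb₀Y, ?_, ?_⟩
          · by_contra hcon2
            push Not at hcon2
            have h1 : (Set.univ : Set W) ⊆ insert b₀ Y := by
              intro y _
              by_cases hy : y ∈ Y
              · exact Or.inr hy
              · exact Or.inl (hcon2 y hy)
            have h2 := Set.ncard_le_ncard h1 (Set.toFinite _)
            have h3 := Set.ncard_insert_le b₀ Y
            omega
          · intro a ha b hab
            rcases hYcl a ha b hab with h1 | h1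
            · exact Or.inl h1
            · exact Or.inr (hf (h1.trans hb₀.symm))
        have hat : IsAtom1 H Y b₀ :=
          ⟨hfr, fun D' c' h' => hYle.trans (h₀.2 D' c' h')⟩
        refine hxU ⟨Y, b₀, hat, ?_, hxY⟩
        refine ⟨fun a => if a = b₀ then c₀ else φ a, ?_, if_pos rfl, ?_, ?_⟩
        · have h1 : ∀ a ∈ Y, a ≠ b₀ := fun a ha h => hb₀Y (h ▸ ha)
          rintro a (rfl | ha) b (rfl | hb) hab
          · rfl
          · simp only [if_true, if_neg (h1 b hb)] at hab
            exact absurd (hab ▸ hφD b hb) h₀.1.2.1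
          · simp only [if_true, if_neg (h1 a ha)] at hab
            exact absurd (hab ▸ hφD a ha) h₀.1.2.1
          · simp only [if_neg (h1 a ha), if_neg (h1 b hb)] at hab
            exact hφinj ha hb hab
        · intro a ha
          have h1 : a ≠ b₀ := fun h => hb₀Y (h ▸ ha)
          simp only [if_neg h1]
          exact hφD a ha
        · have h1 : ∀ a ∈ Y, a ≠ b₀ := fun a ha h => hb₀Y (h ▸ ha)
          have key : ∀ a ∈ Y, ∀ b, b ∈ insert b₀ Y → H.Adj a b →
              H.Adj (φ a) (if b = b₀ then c₀ else φ b) := by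
            intro a ha b hb hab
            rcases hfa a b hab with ⟨x, y, h3, h4, _⟩ | ⟨g', k', w₁, w₂, h3, _, _, h4, h5⟩
            · rw [hφ a ha] at h3; exact absurd h3 (by simp)
            · rw [hφ a ha] at h4
              have h6 := aemb_eq_inr h4.symm
              rw [Prod.mk.injEq, Prod.mk.injEq] at h6
              obtain ⟨-, rfl, rfl, h6⟩ := h6
              rcases hb with rfl | hb
              · rw [if_pos rfl]
                rw [hb₀] at h5
                rw [h6, ← (aemb_eq_inl h5.symm).1]; exact h3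
              · rw [if_neg (h1 b hb)]
                rw [hφ b hb] at h5
                have h7 := aemb_eq_inr h5.symm
                rw [Prod.mk.injEq, Prod.mk.injEq] at h7
                rw [h6, h7.2.2.2]; exact h3
          intro a ha b hb hab
          show H.Adj (if a = b₀ then c₀ else φ a) (if b = b₀ then c₀ else φ b)
          by_cases hab₀ : a = b₀
          · have hb' : b ∈ Y := by
              rcases hb with hb | hb
              · exact absurd (hab₀.trans hb.symm) hab.ne
              · exact hb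
            have h2 := key b hb' a ha hab.symm
            rw [if_neg (h1 b hb')]
            exact h2.symm
          · have ha' : a ∈ Y := by
              rcases ha with ha | ha
              · exact absurd ha hab₀
              · exact ha
            rw [if_neg hab₀]
            exact key a ha' b hb hab
      · have := closed_univ (S := Y) hc (fun a ha b hab => by
          rcases hYcl a ha b hab with h1 | h1
          · exact h1
          · exact absurd ⟨b, h1⟩ hb) ⟨x, hxY⟩
        have h1 : (Set.univ : Set W) ⊆ Y := fun y _ => this y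
        have h2 := Set.ncard_le_ncard h1 (Set.toFinite _)
        omega
    have hV₀ : Nonempty V₀ := by
      obtain ⟨a, ha, _⟩ := hSe
      obtain ⟨v, _⟩ := hleft a ha
      exact ⟨v⟩
    choose! φ hφ using hleft
    refine hFree_iff.1 hI₀ (fun a => φ a) ?_ ?_
    · intro a b hab
      apply Subtype.ext
      apply hf
      rw [hφ a a.2, hφ b b.2]
      exact congrArg Sum.inl hab
    · intro a b hab
      have hab' : H.Adj a.1 b.1 := hab
      rcases hfa a b hab' with ⟨x, y, h3, h4, h5⟩ | ⟨g', k', w₁, w₂, h3, _, _, h4, h5⟩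
      · rw [hφ a a.2] at h3; rw [hφ b b.2] at h4
        rw [Sum.inl_injective h3, Sum.inl_injective h4]; exact h5
      · rw [hφ a a.2] at h4; rw [hφ b b.2] at h5
        exact absurd ((aemb_eq_inl h4.symm).1.trans (aemb_eq_inl h5.symm).1.symm) h3.ne
  · intro V₀ K F₀ Good hGood f₀ hf₀ hf₀a
    -- choose the atoms
    have hat : ∀ x ∈ atomUnion H D₀ c₀, ∃ D c, IsAtom1 H D c ∧ REmb H D c D₀ c₀ ∧ x ∈ D :=
      fun x hx => hx
    choose! D c hD hR hxD using hat
    have hψ : ∀ (D : Set W) (c : W), REmb H D c D₀ c₀ → ∃ ψ : W → W, Set.InjOn ψ (insert c D) ∧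
        ψ c = c₀ ∧ (∀ a ∈ D, ψ a ∈ D₀) ∧
        ∀ a ∈ insert c D, ∀ b ∈ insert c D, H.Adj a b → H.Adj (ψ a) (ψ b) := fun D c h => h
    choose! ψ hψ1 hψ2 hψ3 hψ4 using hψ
    obtain ⟨κ, hκ, hκG⟩ : ∃ κ : Set W → K, Function.Injective κ ∧ ∀ x, κ x ∈ Good := by
      have : Infinite Good := Set.infinite_coe_iff.2 hGood
      let e : Set W ↪ Good :=
        ((Finite.equivFin (Set W)).toEmbedding.trans Fin.valEmbedding).trans
          (Infinite.natEmbedding Good)
      exact ⟨fun x => (e x).1, fun x y h => e.injective (Subtype.ext h), fun x => (e x).2⟩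
    have hcS : ∀ x ∈ atomUnion H D₀ c₀, c x ∉ atomUnion H D₀ c₀ := fun x hx =>
      root_notMem_atomUnion hc (hD x hx)
    let f : W → V₀ ⊕ (V₀ × K × W) := fun x =>
      if hx : x ∈ atomUnion H D₀ c₀ then
        .inr (f₀ ⟨c x, hcS x hx⟩, κ (D x), ψ (D x) (c x) x)
      else .inl (f₀ ⟨x, hx⟩)
    have hf1 : ∀ x (hx : x ∈ atomUnion H D₀ c₀),
        f x = .inr (f₀ ⟨c x, hcS x hx⟩, κ (D x), ψ (D x) (c x) x) := fun x hx => dif_pos hx
    have hf2 : ∀ x (hx : x ∉ atomUnion H D₀ c₀), f x = .inl (f₀ ⟨x, hx⟩) := fun x hx => dif_neg hx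
    refine ⟨f, ?_, ?_⟩
    · intro a b hab
      by_cases ha : a ∈ atomUnion H D₀ c₀ <;> by_cases hb : b ∈ atomUnion H D₀ c₀
      · rw [hf1 a ha, hf1 b hb] at hab
        have h1 := Sum.inr_injective hab
        rw [Prod.mk.injEq, Prod.mk.injEq] at h1
        have h2 := hκ h1.2.1
        have h3 : c a = c b := ((hD a ha).eq_of_mem hc (hD b hb) (hxD a ha) (h2 ▸ hxD a ha)).2
        have h4 := h1.2.2
        rw [← h2, ← h3] at h4
        exact hψ1 _ _ (hR a ha) (Or.inr (hxD a ha)) (Or.inr (h2 ▸ hxD b hb)) h4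
      · rw [hf1 a ha, hf2 b hb] at hab; exact absurd hab (by simp)
      · rw [hf2 a ha, hf1 b hb] at hab; exact absurd hab (by simp)
      · rw [hf2 a ha, hf2 b hb] at hab
        exact congrArg Subtype.val (hf₀ (Sum.inl_injective hab))
    · -- the edges
      have key : ∀ a b, H.Adj a b → a ∈ atomUnion H D₀ c₀ →
          ∃ g, ∃ k ∈ Good, ∃ w w', H.Adj w w' ∧ w ∈ insert c₀ D₀ ∧ w' ∈ insert c₀ D₀ ∧
            f a = aemb c₀ g k w ∧ f b = aemb c₀ g k w' := by
        intro a b hab ha
        have hne : ∀ x ∈ D₀, x ≠ c₀ := fun x hx h => h₀.1.2.1 (h ▸ hx)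
        have haD := hxD a ha
        rcases (hD a ha).1.2.2.2 a haD b hab with hb | hb
        · have hbU : b ∈ atomUnion H D₀ c₀ := ⟨D a, c a, hD a ha, hR a ha, hb⟩
          obtain ⟨h1, h2⟩ := (hD a ha).eq_of_mem hc (hD b hbU) hb (hxD b hbU)
          refine ⟨f₀ ⟨c a, hcS a ha⟩, κ (D a), hκG _, ψ (D a) (c a) a, ψ (D a) (c a) b,
            hψ4 _ _ (hR a ha) a (Or.inr haD) b (Or.inr hb) hab, Or.inr (hψ3 _ _ (hR a ha) a haD),
            Or.inr (hψ3 _ _ (hR a ha) b hb), ?_, ?_⟩
          · rw [hf1 a ha, aemb_ne _ _ (hne _ (hψ3 _ _ (hR a ha) a haD))]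
          · rw [hf1 b hbU, aemb_ne _ _ (hne _ (hψ3 _ _ (hR a ha) b hb))]
            rw [Sum.inr.injEq, Prod.mk.injEq, Prod.mk.injEq]
            have h5 : (⟨c b, hcS b hbU⟩ : ↥(atomUnion H D₀ c₀)ᶜ) = ⟨c a, hcS a ha⟩ :=
              Subtype.ext h2.symm
            exact ⟨congrArg f₀ h5, by rw [h1], by rw [h1, h2]⟩
        · subst hb
          have hbU := hcS a ha
          refine ⟨f₀ ⟨c a, hcS a ha⟩, κ (D a), hκG _, ψ (D a) (c a) a, c₀, ?_,
            Or.inr (hψ3 _ _ (hR a ha) a haD), Or.inl rfl, ?_, ?_⟩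
          · have h1 := hψ4 _ _ (hR a ha) a (Or.inr haD) (c a) (Or.inl rfl) hab
            rwa [hψ2 _ _ (hR a ha)] at h1
          · rw [hf1 a ha, aemb_ne _ _ (hne _ (hψ3 _ _ (hR a ha) a haD))]
          · rw [hf2 _ hbU, aemb_root]
      intro a b hab
      by_cases ha : a ∈ atomUnion H D₀ c₀
      · exact Or.inr (key a b hab ha)
      · by_cases hb : b ∈ atomUnion H D₀ c₀
        · obtain ⟨g, k, hk, w, w', h1, h2, h3, h4, h5⟩ := key b a hab.symm hb
          exact Or.inr ⟨g, k, hk, w', w, h1.symm, h3, h2, h5, h4⟩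
        · exact Or.inl ⟨_, _, hf2 a ha, hf2 b hb, hf₀a ⟨a, ha⟩ ⟨b, hb⟩ hab⟩

end Pool.Agent.StrongMax
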