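import Pool.Agent.Lib.StrongMax.Conn1a

/-!
# Connectivity one: the case where the remaining part is a star (helper42)
-/

namespace Pool.Agent.StrongMax

variable {W : Type} {H : SimpleGraph W}

/-- The petals at `c`: atoms of the given type with root `c`. -/
def Pet (H : SimpleGraph W) (D₀ : Set W) (c₀ c : W) : Set (Set W) :=
  {D | IsAtom1 H D c ∧ REmb H D c D₀ c₀}

theorem aemb_pair {V₀ K : Type} {r : W} {g g' : V₀} {k k' : K} {u v u' v' : W}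
    (h1 : aemb r g k u = aemb r g' k' u') (h2 : aemb r g k v = aemb r g' k' v') (huv : u ≠ v) :
    g = g' ∧ k = k' ∧ u = u' ∧ v = v' := by
  by_cases hu : u = r
  · have hv : v ≠ r := fun h => huv (hu.trans h.symm)
    rw [aemb_ne g k hv] at h2
    have h3 := aemb_eq_inr h2.symm
    rw [Prod.mk.injEq, Prod.mk.injEq] at h3
    rw [hu, aemb_root] at h1
    have h4 := aemb_eq_inl h1.symm
    exact ⟨h3.2.1, h3.2.2.1, hu.trans h4.1.symm, h3.2.2.2⟩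
  · rw [aemb_ne g k hu] at h1
    have h3 := aemb_eq_inr h1.symm
    rw [Prod.mk.injEq, Prod.mk.injEq] at h3
    obtain ⟨-, rfl, rfl, rfl⟩ := h3
    exact ⟨rfl, rfl, rfl, aemb_inj h2⟩

theorem Frag.exists_out {D : Set W} {c : W} (hc : H.Connected) (h : Frag H D c) :
    ∃ y, y ∉ insert c D ∧ H.Adj c y := by
  by_contra hcon
  push Not at hcon
  obtain ⟨x, hx, hxc⟩ := h.2.2.1
  have h1 := closed_univ (S := insert c D) hc (fun a ha b hab => by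
    rcases ha with rfl | ha
    · by_contra hb
      exact hcon b hb hab
    · rcases h.2.2.2 a ha b hab with h1 | h1
      · exact Or.inr h1
      · exact Or.inl h1) ⟨c, Or.inl rfl⟩ x
  rcases h1 with h1 | h1
  · exact hxc h1
  · exact hx h1

theorem petal_cases [Finite W] (hc : H.Connected) (hδ : ∀ x, x ∈ coreSet H) {D₀ : Set W} {c₀ : W}
    {z : W} (hst : ∀ a ∉ atomUnion H D₀ c₀, ∀ b ∉ atomUnion H D₀ c₀, H.Adj a b → a = z ∨ b = z)
    {l₁ : W} (hl₁ : l₁ ∉ atomUnion H D₀ c₀)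
    {V₀ K : Type} {I₀ : Set (Sym2 V₀)} {f : W → V₀ ⊕ (V₀ × K × W)}
    (hf : Function.Injective f)
    (hfa : ∀ a b, H.Adj a b → (∃ x y, f a = .inl x ∧ f b = .inl y ∧ s(x, y) ∈ I₀) ∨
        (∃ g k w w', H.Adj w w' ∧ w ∈ (⋃₀ Pet H D₀ c₀ l₁)ᶜ ∧ w' ∈ (⋃₀ Pet H D₀ c₀ l₁)ᶜ ∧
          f a = aemb l₁ g k w ∧ f b = aemb l₁ g k w'))
    {D : Set W} {c : W} (hD : IsAtom1 H D c) :
    (∀ a ∈ insert c D, ∃ x, f a = .inl x) ∨
    ∃ g k D' c', D' ∈ Pet H D₀ c₀ c' ∧ c' ≠ l₁ ∧ f c = .inr (g, k, c') ∧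
      ∀ a ∈ D, ∃ w ∈ D', f a = .inr (g, k, w) := by
  classical
  by_cases hall : ∀ a ∈ insert c D, ∃ x, f a = .inl x
  · exact Or.inl hall
  right
  push Not at hall
  obtain ⟨a₀, ha₀, hfa₀⟩ := hall
  obtain ⟨g, k, w₀, hw₀⟩ : ∃ g k w, f a₀ = .inr (g, k, w) := by
    cases h : f a₀ with
    | inl v => exact absurd h (hfa₀ v)
    | inr p => exact ⟨p.1, p.2.1, p.2.2, rfl⟩
  -- the image lies in one copy
  let M : Set (V₀ ⊕ (V₀ × K × W)) := {x | ∃ w, x = .inr (g, k, w)}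
  let E : (V₀ ⊕ (V₀ × K × W)) → (V₀ ⊕ (V₀ × K × W)) → Prop := fun x y =>
    (∃ u v, x = .inl u ∧ y = .inl v) ∨ (∃ g k w w', x = aemb l₁ g k w ∧ y = aemb l₁ g k w')
  have hMaux : ∀ x ∈ M, ∀ y, E x y → y ∈ M ∨ y = .inl g := by
    rintro x ⟨w, rfl⟩ y (⟨u, v, h1, _⟩ | ⟨g', k', w₁, w₂, h1, h2⟩)
    · exact absurd h1 (by simp)
    · have h3 := aemb_eq_inr h1.symm
      rw [Prod.mk.injEq, Prod.mk.injEq] at h3
      obtain ⟨-, rfl, rfl, rfl⟩ := h3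
      by_cases hw₂ : w₂ = l₁
      · right; rw [h2, hw₂, aemb_root]
      · left; exact ⟨w₂, by rw [h2, aemb_ne _ _ hw₂]⟩
  have hEsymm : ∀ x y, E x y → E y x := by
    rintro x y (⟨u, v, h1, h2⟩ | ⟨g', k', w₁, w₂, h1, h2⟩)
    · exact Or.inl ⟨v, u, h2, h1⟩
    · exact Or.inr ⟨g', k', w₂, w₁, h2, h1⟩
  have hloc := hD.loc hc (f := f) hf.injOn (E := E) (M := M) (t := .inl g)
    (fun a _ b _ hab => by
      rcases hfa a b hab with ⟨x, y, h1, h2, _⟩ | ⟨g', k', w, w', _, _, _, h1, h2⟩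
      · exact Or.inl ⟨x, y, h1, h2⟩
      · exact Or.inr ⟨g', k', w, w', h1, h2⟩)
    (fun x hx y hxy => by
      rcases hxy with h1 | h1
      · exact hMaux x hx y h1
      · exact hMaux x hx y (hEsymm _ _ h1))
  have hM : ∀ a ∈ insert c D, f a ∈ M ∨ f a = .inl g := by
    rcases hloc with h1 | h1
    · exact h1
    · exact absurd ⟨w₀, hw₀⟩ (h1 a₀ ha₀)
  have hl₁Y : l₁ ∈ (⋃₀ Pet H D₀ c₀ l₁)ᶜ := by
    rintro ⟨D', hD', h⟩
    exact hD'.1.1.2.1 h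
  have hψ : ∀ a ∈ insert c D, ∃ w, w ∈ (⋃₀ Pet H D₀ c₀ l₁)ᶜ ∧ f a = aemb l₁ g k w := by
    intro a ha
    rcases hM a ha with ⟨w, h1⟩ | h1
    · obtain ⟨y, _, _, hy, _⟩ := hδ a
      rcases hfa a y hy with ⟨x, y, h2, _⟩ | ⟨g', k', w, w', _, h2, _, h3, _⟩
      · rw [h1] at h2; exact absurd h2 (by simp)
      · rw [h1] at h3
        have h4 := aemb_eq_inr h3.symm
        rw [Prod.mk.injEq, Prod.mk.injEq] at h4
        obtain ⟨h5, rfl, rfl, rfl⟩ := h4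
        exact ⟨_, h2, by rw [h1, h3]⟩
    · exact ⟨l₁, hl₁Y, by rw [h1, aemb_root]⟩
  choose! ψ hψY hψ using hψ
  have hψinj : Set.InjOn ψ (insert c D) := fun a ha b hb hab =>
    hf (by rw [hψ a ha, hψ b hb, hab])
  have hψadj : ∀ a ∈ insert c D, ∀ b ∈ insert c D, H.Adj a b → H.Adj (ψ a) (ψ b) := by
    intro a ha b hb hab
    have hne : ψ a ≠ ψ b := fun h => hab.ne (hψinj ha hb h)
    rcases hfa a b hab with ⟨x, y, h1, h2, _⟩ | ⟨g', k', w, w', h, _, _, h1, h2⟩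
    · rw [hψ a ha] at h1
      rw [hψ b hb] at h2
      exact absurd ((aemb_eq_inl h1).1.trans (aemb_eq_inl h2).1.symm) hne
    · rw [hψ a ha] at h1
      rw [hψ b hb] at h2
      obtain ⟨-, -, h3, h4⟩ := aemb_pair h1 h2 hne
      rw [h3, h4]; exact h
  -- some vertex is mapped into a petal
  obtain ⟨a₁, ha₁, ha₁U⟩ : ∃ a₁ ∈ insert c D, ψ a₁ ∈ atomUnion H D₀ c₀ := by
    by_contra hcon
    push Not at hcon
    refine hD.thick hδ ?_
    by_cases hex : ∃ a ∈ insert c D, ψ a = z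
    · obtain ⟨a', ha', hz⟩ := hex
      refine ⟨a', fun a ha b hb hab => ?_⟩
      rcases hst _ (hcon a ha) _ (hcon b hb) (hψadj a ha b hb hab) with h1 | h1
      · exact Or.inl (hψinj ha ha' (h1.trans hz.symm))
      · exact Or.inr (hψinj hb ha' (h1.trans hz.symm))
    · refine ⟨c, fun a ha b hb hab => ?_⟩
      rcases hst _ (hcon a ha) _ (hcon b hb) (hψadj a ha b hb hab) with h1 | h1
      · exact absurd ⟨a, ha, h1⟩ hex
      · exact absurd ⟨b, hb, h1⟩ hex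
  obtain ⟨D', c', hD', hR', ha₁D'⟩ := ha₁U
  have hc'l : c' ≠ l₁ := by
    rintro rfl
    exact hψY a₁ ha₁ ⟨D', ⟨hD', hR'⟩, ha₁D'⟩
  have hl₁D' : l₁ ∉ D' := fun h => hl₁ ⟨D', c', hD', hR', h⟩
  have hin : ∀ a ∈ insert c D, ψ a ∈ D' ∨ ψ a = c' := by
    rcases hD.loc hc (f := ψ) hψinj (E := H.Adj) hψadj (M := D') (t := c')
      (fun x hx y hxy => by
        rcases hxy with h1 | h1
        · exact hD'.1.2.2.2 x hx y h1
        · exact hD'.1.2.2.2 x hx y h1.symm) with h1 | h1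
    · exact h1
    · exact absurd ha₁D' (h1 a₁ ha₁)
  have himg : ψ '' (insert c D) = insert c' D' := by
    refine Set.eq_of_subset_of_ncard_le ?_ ?_ (Set.toFinite _)
    · rintro _ ⟨a, ha, rfl⟩
      rcases hin a ha with h1 | h1
      · exact Or.inr h1
      · exact Or.inl h1
    · rw [hψinj.ncard_image, Set.ncard_insert_of_notMem hD.1.2.1 (Set.toFinite _),
        Set.ncard_insert_of_notMem hD'.1.2.1 (Set.toFinite _), hD.ncard_eq hD']
  have hψc : ψ c = c' := by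
    rcases hin c (Or.inl rfl) with h1 | h1
    · exfalso
      obtain ⟨y, hy, hcy⟩ := hD.1.exists_out hc
      have hne : ψ c ≠ l₁ := fun h => hl₁D' (h ▸ h1)
      rcases hfa c y hcy with ⟨x, y', h2, _⟩ | ⟨g', k', w, w', h, _, _, h2, h3⟩
      · rw [hψ c (Or.inl rfl)] at h2
        exact hne (aemb_eq_inl h2).1
      · rw [hψ c (Or.inl rfl), aemb_ne _ _ hne] at h2
        have h4 := aemb_eq_inr h2.symm
        rw [Prod.mk.injEq, Prod.mk.injEq] at h4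
        obtain ⟨-, rfl, rfl, h5⟩ := h4
        have h6 : w' ∈ insert c' D' := by
          rcases hD'.1.2.2.2 w (h5 ▸ h1) w' h with h7 | h7
          · exact Or.inr h7
          · exact Or.inl h7
        rw [← himg] at h6
        obtain ⟨b, hb, hb'⟩ := h6
        have h7 : f b = f y := by rw [hψ b hb, h3, hb']
        exact hy (hf h7 ▸ hb)
    · exact h1
  refine ⟨g, k, D', c', ⟨hD', hR'⟩, hc'l, ?_, ?_⟩
  · rw [hψ c (Or.inl rfl), hψc, aemb_ne _ _ hc'l]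
  · intro a ha
    have h1 : ψ a ∈ D' := by
      rcases hin a (Or.inr ha) with h1 | h1
      · exact h1
      · have h2 : a = c := hψinj (Or.inr ha) (Or.inl rfl) (h1.trans hψc.symm)
        exact absurd (h2 ▸ ha) hD.1.2.1
    have h2 : ψ a ≠ l₁ := fun h => hl₁D' (h ▸ h1)
    exact ⟨ψ a, h1, by rw [hψ a (Or.inr ha), aemb_ne _ _ h2]⟩

theorem petals_embed [Finite W] (hc : H.Connected) {D₀ : Set W} {c₀ : W}
    (hmin : ∀ D c, IsAtom1 H D c → REmb H D c D₀ c₀ → REmb H D₀ c₀ D c) {l₁ c : W}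
    (hle : (Pet H D₀ c₀ l₁).ncard ≤ (Pet H D₀ c₀ c).ncard) :
    ∃ φ : W → W, Set.InjOn φ (insert l₁ (⋃₀ Pet H D₀ c₀ l₁)) ∧ φ l₁ = c ∧
      (∀ a ∈ ⋃₀ Pet H D₀ c₀ l₁, φ a ∈ ⋃₀ Pet H D₀ c₀ c) ∧
      ∀ a ∈ insert l₁ (⋃₀ Pet H D₀ c₀ l₁), ∀ b ∈ insert l₁ (⋃₀ Pet H D₀ c₀ l₁), H.Adj a b →
        H.Adj (φ a) (φ b) := by
  classical
  have := Fintype.ofFinite ↥(Pet H D₀ c₀ l₁)
  have := Fintype.ofFinite ↥(Pet H D₀ c₀ c)
  obtain ⟨e⟩ := Function.Embedding.nonempty_of_card_le (α := ↥(Pet H D₀ c₀ l₁))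
    (β := ↥(Pet H D₀ c₀ c)) (by
      rwa [← Nat.card_eq_fintype_card, ← Nat.card_eq_fintype_card, Nat.card_coe_set_eq,
        Nat.card_coe_set_eq])
  have hemb : ∀ D : ↥(Pet H D₀ c₀ l₁), ∃ ψ : W → W, Set.InjOn ψ (insert l₁ D.1) ∧ ψ l₁ = c ∧
      (∀ a ∈ D.1, ψ a ∈ (e D).1) ∧
      ∀ a ∈ insert l₁ D.1, ∀ b ∈ insert l₁ D.1, H.Adj a b → H.Adj (ψ a) (ψ b) := fun D =>
    D.2.2.trans (hmin _ _ (e D).2.1 (e D).2.2)
  choose ψ hψ1 hψ2 hψ3 hψ4 using hemb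
  let φ : W → W := fun x =>
    if h : ∃ D : ↥(Pet H D₀ c₀ l₁), x ∈ D.1 then ψ h.choose x else c
  have hφ : ∀ (D : ↥(Pet H D₀ c₀ l₁)) (x : W), x ∈ D.1 → φ x = ψ D x := by
    intro D x hx
    have h : ∃ D : ↥(Pet H D₀ c₀ l₁), x ∈ D.1 := ⟨D, hx⟩
    have h1 : h.choose = D :=
      Subtype.ext (h.choose.2.1.eq_of_mem hc D.2.1 h.choose_spec hx).1
    show (if h : ∃ D : ↥(Pet H D₀ c₀ l₁), x ∈ D.1 then ψ h.choose x else c) = _
    rw [dif_pos h, h1]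
  have hφl : φ l₁ = c := dif_neg (by rintro ⟨D, hD⟩; exact D.2.1.1.2.1 hD)
  have hφc : ∀ (D : ↥(Pet H D₀ c₀ l₁)) (x : W), x ∈ insert l₁ D.1 → φ x = ψ D x := by
    rintro D x (rfl | hx)
    · rw [hφl, hψ2]
    · exact hφ D x hx
  refine ⟨φ, ?_, hφl, ?_, ?_⟩
  · have hne : ∀ b ∈ ⋃₀ Pet H D₀ c₀ l₁, φ b ≠ c := by
      rintro b ⟨D, hD, hb⟩ h
      rw [hφ ⟨D, hD⟩ b hb] at h
      have h1 := hψ3 ⟨D, hD⟩ b hb
      rw [h] at h1
      exact (e ⟨D, hD⟩).2.1.1.2.1 h1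
    rintro a (rfl | ha) b (rfl | hb) hab
    · rfl
    · rw [hφl] at hab; exact absurd hab.symm (hne b hb)
    · rw [hφl] at hab; exact absurd hab (hne a ha)
    · obtain ⟨D, hD, ha⟩ := ha
      obtain ⟨D', hD', hb⟩ := hb
      have h1 := hψ3 ⟨D, hD⟩ a ha
      have h2 := hψ3 ⟨D', hD'⟩ b hb
      rw [hφ ⟨D, hD⟩ a ha, hφ ⟨D', hD'⟩ b hb] at hab
      rw [← hab] at h2
      have h3 := ((e ⟨D, hD⟩).2.1.eq_of_mem hc (e ⟨D', hD'⟩).2.1 h1 h2).1
      have h4 : (⟨D, hD⟩ : ↥(Pet H D₀ c₀ l₁)) = ⟨D', hD'⟩ := e.injective (Subtype.ext h3)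
      have h5 : D = D' := congrArg Subtype.val h4
      subst h5
      exact hψ1 ⟨D, hD⟩ (Or.inr ha) (Or.inr hb) hab
  · rintro a ⟨D, hD, ha⟩
    rw [hφ ⟨D, hD⟩ a ha]
    exact ⟨(e ⟨D, hD⟩).1, (e ⟨D, hD⟩).2, hψ3 ⟨D, hD⟩ a ha⟩
  · have key : ∀ a ∈ ⋃₀ Pet H D₀ c₀ l₁, ∀ b, H.Adj a b → H.Adj (φ a) (φ b) := by
      rintro a ⟨D, hD, ha⟩ b hab
      have hb : b ∈ insert l₁ D := by
        rcases hD.1.1.2.2.2 a ha b hab with h1 | h1
        · exact Or.inr h1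
        · exact Or.inl h1
      rw [hφ ⟨D, hD⟩ a ha, hφc ⟨D, hD⟩ b hb]
      exact hψ4 ⟨D, hD⟩ a (Or.inr ha) b hb hab
    rintro a ha b hb hab
    rcases ha with rfl | ha
    · rcases hb with rfl | hb
      · exact absurd rfl hab.ne
      · exact (key b hb a hab.symm).symm
    · exact key a ha b hab

theorem root_cases [Finite W] (hc : H.Connected) (hδ : ∀ x, x ∈ coreSet H) {D₀ : Set W} {c₀ : W}
    (hmin : ∀ D c, IsAtom1 H D c → REmb H D c D₀ c₀ → REmb H D₀ c₀ D c)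
    {z : W} (hst : ∀ a ∉ atomUnion H D₀ c₀, ∀ b ∉ atomUnion H D₀ c₀, H.Adj a b → a = z ∨ b = z)
    {l₁ : W} (hl₁ : l₁ ∉ atomUnion H D₀ c₀)
    {V₀ K : Type} {I₀ : Set (Sym2 V₀)}
    (hI₀ : HFree (H.induce (insert l₁ (⋃₀ Pet H D₀ c₀ l₁))) I₀)
    {f : W → V₀ ⊕ (V₀ × K × W)}
    (hf : Function.Injective f)
    (hfa : ∀ a b, H.Adj a b → (∃ x y, f a = .inl x ∧ f b = .inl y ∧ s(x, y) ∈ I₀) ∨
        (∃ g k w w', H.Adj w w' ∧ w ∈ (⋃₀ Pet H D₀ c₀ l₁)ᶜ ∧ w' ∈ (⋃₀ Pet H D₀ c₀ l₁)ᶜ ∧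
          f a = aemb l₁ g k w ∧ f b = aemb l₁ g k w'))
    {c : W} (hle : (Pet H D₀ c₀ l₁).ncard ≤ (Pet H D₀ c₀ c).ncard)
    (hne : (Pet H D₀ c₀ c).Nonempty) :
    ∃ g k c', c' ∉ atomUnion H D₀ c₀ ∧ c' ≠ l₁ ∧ f c = .inr (g, k, c') ∧
      (Pet H D₀ c₀ c).ncard ≤ (Pet H D₀ c₀ c').ncard := by
  classical
  by_cases hall : ∀ D ∈ Pet H D₀ c₀ c, ∀ a ∈ insert c D, ∃ x, f a = .inl x
  · exfalso
    obtain ⟨φ, hφ1, hφ2, hφ3, hφ4⟩ := petals_embed hc hmin hle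
    have h1 : ∀ a ∈ insert l₁ (⋃₀ Pet H D₀ c₀ l₁), ∃ x, f (φ a) = .inl x := by
      rintro a (rfl | ha)
      · obtain ⟨D, hD⟩ := hne
        rw [hφ2]
        exact hall D hD c (Or.inl rfl)
      · obtain ⟨D', hD', h⟩ := hφ3 a ha
        exact hall D' hD' _ (Or.inr h)
    have h2 : ∀ a : ↥(insert l₁ (⋃₀ Pet H D₀ c₀ l₁)), ∃ x, f (φ a) = .inl x := fun a => h1 a a.2
    choose f₀ hf₀ using h2
    refine hFree_iff.1 hI₀ f₀ ?_ ?_
    · intro a b hab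
      apply Subtype.ext
      apply hφ1 a.2 b.2
      apply hf
      rw [hf₀ a, hf₀ b, hab]
    · intro a b hab
      have hab' : H.Adj (φ a) (φ b) := hφ4 a a.2 b b.2 hab
      rcases hfa _ _ hab' with ⟨x, y, h3, h4, h5⟩ | ⟨g, k, w, w', h, _, _, h3, h4⟩
      · rw [hf₀ a] at h3
        rw [hf₀ b] at h4
        rw [Sum.inl_injective h3, Sum.inl_injective h4]; exact h5
      · rw [hf₀ a] at h3
        rw [hf₀ b] at h4
        exact absurd ((aemb_eq_inl h3.symm).1.trans (aemb_eq_inl h4.symm).1.symm) h.ne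
  · push Not at hall
    obtain ⟨D, hD, a, ha, hna⟩ := hall
    rcases petal_cases hc hδ hst hl₁ hf hfa hD.1 with h1 | ⟨g, k, D', c', hD', hc', hfc, hfD⟩
    · obtain ⟨x, hx⟩ := h1 a ha
      exact absurd hx (hna x)
    · refine ⟨g, k, c', root_notMem_atomUnion hc hD'.1, hc', hfc, ?_⟩
      have h2 : ∀ D ∈ Pet H D₀ c₀ c, ∃ D' ∈ Pet H D₀ c₀ c', ∀ a ∈ D, ∃ w ∈ D',
          f a = .inr (g, k, w) := by
        intro D hD
        rcases petal_cases hc hδ hst hl₁ hf hfa hD.1 with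
          h1 | ⟨g', k', D'', c'', hD'', hc'', hfc'', hfD''⟩
        · obtain ⟨x, hx⟩ := h1 c (Or.inl rfl)
          rw [hfc] at hx
          exact absurd hx (by simp)
        · rw [hfc] at hfc''
          have h3 := Sum.inr_injective hfc''
          rw [Prod.mk.injEq, Prod.mk.injEq] at h3
          obtain ⟨rfl, rfl, rfl⟩ := h3
          exact ⟨D'', hD'', hfD''⟩
      choose! π hπ1 hπ2 using h2
      refine Set.ncard_le_ncard_of_injOn π hπ1 ?_ (Set.toFinite _)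
      intro D₁ hD₁ D₂ hD₂ h12
      have h3 : ∀ a ∈ D₁ ∪ D₂, ∃ w ∈ π D₁, f a = .inr (g, k, w) := by
        rintro a (ha | ha)
        · exact hπ2 D₁ hD₁ a ha
        · rw [h12]; exact hπ2 D₂ hD₂ a ha
      choose! χ hχ1 hχ2 using h3
      have h4 : (D₁ ∪ D₂).ncard ≤ (π D₁).ncard := by
        refine Set.ncard_le_ncard_of_injOn χ hχ1 ?_ (Set.toFinite _)
        intro a ha b hb hab
        exact hf (by rw [hχ2 a ha, hχ2 b hb, hab])
      have h5 := hD₁.1.ncard_eq (hπ1 D₁ hD₁).1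
      have h6 : D₁ = D₁ ∪ D₂ := Set.eq_of_subset_of_ncard_le Set.subset_union_left
        (by omega) (Set.toFinite _)
      have h7 : D₂ ⊆ D₁ := by rw [h6]; exact Set.subset_union_right
      exact (Set.eq_of_subset_of_ncard_le h7 (by rw [hD₁.1.ncard_eq hD₂.1]) (Set.toFinite _)).symm

/-- The case where the part outside of the petals is a star with at least one leaf. -/
theorem conn1_step2 [Finite W] (hc : H.Connected) (hδ : ∀ x, x ∈ coreSet H) {D₀ : Set W} {c₀ : W}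
    (hmin : ∀ D c, IsAtom1 H D c → REmb H D c D₀ c₀ → REmb H D₀ c₀ D c)
    {z : W}
    (hst : ∀ a ∉ atomUnion H D₀ c₀, ∀ b ∉ atomUnion H D₀ c₀, H.Adj a b → a = z ∨ b = z)
    {l₁ : W} (hl₁ : l₁ ∉ atomUnion H D₀ c₀) (hl₁z : l₁ ≠ z)
    (hadj : ∀ l ∉ atomUnion H D₀ c₀, l ≠ z → H.Adj z l)
    (hpos : ∀ l ∉ atomUnion H D₀ c₀, l ≠ z → (Pet H D₀ c₀ l).Nonempty)
    (hle : ∀ l ∉ atomUnion H D₀ c₀, l ≠ z →
      (Pet H D₀ c₀ l₁).ncard ≤ (Pet H D₀ c₀ l).ncard)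
    (hle2 : (∀ l ∉ atomUnion H D₀ c₀, l = z ∨ l = l₁) →
      (Pet H D₀ c₀ l₁).ncard ≤ (Pet H D₀ c₀ z).ncard)
    (hfail : Fails.{0} (H.induce (insert l₁ (⋃₀ Pet H D₀ c₀ l₁)))) : Fails.{0} H := by
  classical
  have hl₁P : l₁ ∉ ⋃₀ Pet H D₀ c₀ l₁ := by
    rintro ⟨D, hD, h⟩
    exact hD.1.1.2.1 h
  have hcl : ∀ a ∈ ⋃₀ Pet H D₀ c₀ l₁, ∀ b, H.Adj a b → b ∈ insert l₁ (⋃₀ Pet H D₀ c₀ l₁) := by
    rintro a ⟨D, hD, ha⟩ b hab
    rcases hD.1.1.2.2.2 a ha b hab with h1 | h1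
    · exact Or.inr ⟨D, hD, h1⟩
    · exact Or.inl h1
  refine Fails.of_attach (⋃₀ Pet H D₀ c₀ l₁)ᶜ l₁ hfail ?_ ?_ ?_
  · obtain ⟨D, hD⟩ := hpos l₁ hl₁ hl₁z
    obtain ⟨a, ha, hal⟩ := hD.1.1.adj hc
    exact ⟨a, Or.inr ⟨D, hD, ha⟩, l₁, Or.inl rfl, hal⟩
  · intro V₀ K I₀ hI₀ f hf hfa
    have hroot : ∀ c, (Pet H D₀ c₀ l₁).ncard ≤ (Pet H D₀ c₀ c).ncard →
        ∃ g k c', c' ∉ atomUnion H D₀ c₀ ∧ c' ≠ l₁ ∧ f c = .inr (g, k, c') ∧
          (Pet H D₀ c₀ c).ncard ≤ (Pet H D₀ c₀ c').ncard := by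
      intro c hle'
      refine root_cases hc hδ hmin hst hl₁ hI₀ hf hfa hle' ?_
      have h1 : 0 < (Pet H D₀ c₀ l₁).ncard :=
        (Set.ncard_pos (Set.toFinite _)).2 (hpos l₁ hl₁ hl₁z)
      exact (Set.ncard_pos (Set.toFinite _)).1 (lt_of_lt_of_le h1 hle')
    -- the images of the leaves
    have hleaf : ∀ l, l ∉ atomUnion H D₀ c₀ ∧ l ≠ z → ∃ g k c', c' ∉ atomUnion H D₀ c₀ ∧ c' ≠ l₁ ∧
        f l = .inr (g, k, c') ∧ (Pet H D₀ c₀ l).ncard ≤ (Pet H D₀ c₀ c').ncard :=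
      fun l hl => hroot l (hle l hl.1 hl.2)
    choose! G κ c' hc'U hc'l hfc hcle using hleaf
    have hL : l₁ ∉ atomUnion H D₀ c₀ ∧ l₁ ≠ z := ⟨hl₁, hl₁z⟩
    cases hfz : f z with
    | inl g₀ =>
      -- then `c' l₁ = z`
      have h1 : c' l₁ = z := by
        rcases hfa z l₁ (hadj l₁ hl₁ hl₁z) with ⟨x, y, h2, h3, _⟩ | ⟨g, k, w, w', h, _, _, h2, h3⟩
        · rw [hfc l₁ hL] at h3; exact absurd h3 (by simp)
        · rw [hfz] at h2
          rw [hfc l₁ hL] at h3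
          have h4 := (aemb_eq_inl h2.symm).1
          have h5 := (aemb_eq_inr h3.symm).2
          rw [Prod.mk.injEq, Prod.mk.injEq] at h5
          rw [h4, ← h5.2.2] at h
          rcases hst l₁ hl₁ (c' l₁) (hc'U l₁ hL) h with h6 | h6
          · exact absurd h6 hl₁z
          · exact h6
      obtain ⟨g, k, c'', _, _, h2, _⟩ := hroot z (h1 ▸ hcle l₁ hL)
      rw [hfz] at h2
      exact absurd h2 (by simp)
    | inr p =>
      obtain ⟨g, k, w⟩ := p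
      have hl : ∀ l, l ∉ atomUnion H D₀ c₀ ∧ l ≠ z → f l = .inr (g, k, c' l) ∧ H.Adj w (c' l) := by
        intro l hl
        rcases hfa z l (hadj l hl.1 hl.2) with ⟨x, y, h2, h3, _⟩ | ⟨g', k', u, u', h, _, _, h2, h3⟩
        · rw [hfz] at h2; exact absurd h2 (by simp)
        · rw [hfz] at h2
          rw [hfc l hl] at h3
          have h4 := (aemb_eq_inr h2.symm).2
          have h5 := (aemb_eq_inr h3.symm).2
          rw [Prod.mk.injEq, Prod.mk.injEq] at h4 h5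
          obtain ⟨rfl, rfl, rfl⟩ := h4
          obtain ⟨h6, h7, rfl⟩ := h5
          exact ⟨by rw [hfc l hl, h6, h7], h⟩
      have hc'inj : ∀ l l', l ∉ atomUnion H D₀ c₀ ∧ l ≠ z → l' ∉ atomUnion H D₀ c₀ ∧ l' ≠ z →
          c' l = c' l' → l = l' := by
        intro l l' h1 h2 h3
        exact hf (by rw [(hl l h1).1, (hl l' h2).1, h3])
      by_cases hwz : w = z
      · -- counting
        let L : Set W := {l | l ∉ atomUnion H D₀ c₀ ∧ l ≠ z}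
        have h1 : L.ncard ≤ (L \ {l₁}).ncard := by
          refine Set.ncard_le_ncard_of_injOn c' ?_ ?_ (Set.toFinite _)
          · intro l hlL
            refine ⟨⟨hc'U l hlL, ?_⟩, hc'l l hlL⟩
            have := (hl l hlL).2
            rw [hwz] at this
            exact this.ne.symm
          · exact fun a ha b hb hab => hc'inj a b ha hb hab
        have h2 : (L \ {l₁}).ncard < L.ncard :=
          Set.ncard_sdiff_singleton_lt_of_mem hL (Set.toFinite _)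
        omega
      · -- all `c' l` are equal
        have hl₁z' : c' l₁ = z := by
          by_contra hne
          by_cases hwU : w ∈ atomUnion H D₀ c₀
          · obtain ⟨D', r, hD', hR', hwD'⟩ := hwU
            have h1 : ∀ l, l ∉ atomUnion H D₀ c₀ ∧ l ≠ z → c' l = r := by
              intro l hlL
              rcases hD'.1.2.2.2 w hwD' _ (hl l hlL).2 with h1 | h1
              · exact absurd ⟨D', r, hD', hR', h1⟩ (hc'U l hlL)
              · exact h1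
            have h2 : c' l₁ = l₁ := hc'inj _ _ ⟨hc'U l₁ hL, hne⟩ hL
              ((h1 _ ⟨hc'U l₁ hL, hne⟩).trans (h1 l₁ hL).symm)
            exact hc'l l₁ hL h2
          · rcases hst w hwU _ (hc'U l₁ hL) (hl l₁ hL).2 with h1 | h1
            · exact hwz h1
            · exact hne h1
        have hall : ∀ l, l ∉ atomUnion H D₀ c₀ ∧ l ≠ z → l = l₁ := by
          intro l hlL
          refine hc'inj l l₁ hlL hL ?_
          rw [hl₁z']
          by_contra hne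
          by_cases hwU : w ∈ atomUnion H D₀ c₀
          · obtain ⟨D', r, hD', hR', hwD'⟩ := hwU
            have h1 : ∀ l, l ∉ atomUnion H D₀ c₀ ∧ l ≠ z → c' l = r := by
              intro l hlL
              rcases hD'.1.2.2.2 w hwD' _ (hl l hlL).2 with h1 | h1
              · exact absurd ⟨D', r, hD', hR', h1⟩ (hc'U l hlL)
              · exact h1
            exact hne ((h1 l hlL).trans ((h1 l₁ hL).symm.trans hl₁z'))
          · rcases hst w hwU _ (hc'U l hlL) (hl l hlL).2 with h1 | h1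
            · exact hwz h1
            · exact hne h1
        have hS : ∀ l ∉ atomUnion H D₀ c₀, l = z ∨ l = l₁ := by
          intro l hlU
          by_cases hlz : l = z
          · exact Or.inl hlz
          · exact Or.inr (hall l ⟨hlU, hlz⟩)
        obtain ⟨g'', k'', c'', hc''U, hc''l, h2, _⟩ := hroot z (hle2 hS)
        rw [hfz] at h2
        have h3 := Sum.inr_injective h2
        rw [Prod.mk.injEq, Prod.mk.injEq] at h3
        rcases hS c'' hc''U with h4 | h4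
        · exact hwz (h3.2.2.trans h4)
        · exact hc''l h4
  · intro V₀ K F₀ Good hGood f₀ hf₀ hf₀a
    obtain ⟨k, hk⟩ := hGood.nonempty
    let g : V₀ := f₀ ⟨l₁, Or.inl rfl⟩
    let f : W → V₀ ⊕ (V₀ × K × W) := fun w =>
      if h : w ∈ insert l₁ (⋃₀ Pet H D₀ c₀ l₁) then .inl (f₀ ⟨w, h⟩) else .inr (g, k, w)
    have hf1 : ∀ w (h : w ∈ insert l₁ (⋃₀ Pet H D₀ c₀ l₁)), f w = .inl (f₀ ⟨w, h⟩) :=
      fun w h => dif_pos h
    have hf2 : ∀ w (_ : w ∉ insert l₁ (⋃₀ Pet H D₀ c₀ l₁)), f w = .inr (g, k, w) :=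
      fun w h => dif_neg h
    have hf3 : ∀ w ∈ (⋃₀ Pet H D₀ c₀ l₁)ᶜ, f w = aemb l₁ g k w := by
      intro w hw
      by_cases hwl : w = l₁
      · subst hwl
        rw [hf1 w (Or.inl rfl), aemb_root]
      · rw [hf2 w (by rintro (h | h); exact hwl h; exact hw h), aemb_ne _ _ hwl]
    refine ⟨f, ?_, ?_⟩
    · intro a b hab
      by_cases ha : a ∈ insert l₁ (⋃₀ Pet H D₀ c₀ l₁) <;>
        by_cases hb : b ∈ insert l₁ (⋃₀ Pet H D₀ c₀ l₁)
      · rw [hf1 a ha, hf1 b hb] at hab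
        exact congrArg Subtype.val (hf₀ (Sum.inl_injective hab))
      · rw [hf1 a ha, hf2 b hb] at hab; exact absurd hab (by simp)
      · rw [hf2 a ha, hf1 b hb] at hab; exact absurd hab (by simp)
      · rw [hf2 a ha, hf2 b hb] at hab
        have := Sum.inr_injective hab
        rw [Prod.mk.injEq, Prod.mk.injEq] at this
        exact this.2.2
    · intro a b hab
      by_cases ha : a ∈ ⋃₀ Pet H D₀ c₀ l₁
      · left
        have hb := hcl a ha b hab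
        exact ⟨_, _, hf1 a (Or.inr ha), hf1 b hb, hf₀a ⟨a, Or.inr ha⟩ ⟨b, hb⟩ hab⟩
      · by_cases hb : b ∈ ⋃₀ Pet H D₀ c₀ l₁
        · left
          have ha := hcl b hb a hab.symm
          exact ⟨_, _, hf1 a ha, hf1 b (Or.inr hb), hf₀a ⟨a, ha⟩ ⟨b, Or.inr hb⟩ hab⟩
        · exact Or.inr ⟨g, k, hk, a, b, hab, ha, hb, hf3 a ha, hf3 b hb⟩

end Pool.Agent.StrongMax
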