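import Pool.Agent.Lib.StrongMax.Conn1b

/-!
# Connectivity one: all petals at one vertex, books (helper42)
-/

namespace Pool.Agent.StrongMax

variable {W : Type} {H : SimpleGraph W}

/-- The embedding of the page `k` of the book `(g, B)`. -/
noncomputable def bemb {V₀ K : Type} (z w₀ : W) (g : V₀) (B : Set W) (k : K) (w : W) :
    V₀ ⊕ (V₀ × Set W × Option K × W) :=
  open Classical in if w = z then .inl g else if w = w₀ then .inr (g, B, none, w₀)
    else .inr (g, B, some k, w)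

section

variable {V₀ K : Type} {z w₀ : W}

theorem bemb_root (g : V₀) (B : Set W) (k : K) : bemb z w₀ g B k z = .inl g := if_pos rfl

theorem bemb_hinge (h : w₀ ≠ z) (g : V₀) (B : Set W) (k : K) :
    bemb z w₀ g B k w₀ = .inr (g, B, none, w₀) := by
  unfold bemb
  rw [if_neg h, if_pos rfl]

theorem bemb_page (g : V₀) (B : Set W) (k : K) {w : W} (h : w ≠ z) (h' : w ≠ w₀) :
    bemb z w₀ g B k w = .inr (g, B, some k, w) := by
  unfold bemb
  rw [if_neg h, if_neg h']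

theorem bemb_of_ne (g : V₀) (B : Set W) (k : K) {w : W} (h : w ≠ z) :
    ∃ o, bemb z w₀ g B k w = .inr (g, B, o, w) := by
  by_cases h' : w = w₀
  · subst h'
    exact ⟨none, bemb_hinge h g B k⟩
  · exact ⟨some k, bemb_page g B k h h'⟩

theorem bemb_eq_inl {g g' : V₀} {B : Set W} {k : K} {w : W} (h : bemb z w₀ g B k w = .inl g') :
    w = z ∧ g = g' := by
  by_cases hw : w = z
  · subst hw
    rw [bemb_root] at h
    exact ⟨rfl, Sum.inl_injective h⟩
  · obtain ⟨o, ho⟩ := bemb_of_ne (w₀ := w₀) g B k hw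
    rw [ho] at h
    exact absurd h (by simp)

theorem bemb_eq_inr {g g' : V₀} {B B' : Set W} {k : K} {o : Option K} {w w' : W}
    (h : bemb z w₀ g B k w = .inr (g', B', o, w')) : w ≠ z ∧ g = g' ∧ B = B' ∧ w = w' := by
  by_cases hw : w = z
  · subst hw
    rw [bemb_root] at h
    exact absurd h (by simp)
  · obtain ⟨o, ho⟩ := bemb_of_ne (w₀ := w₀) g B k hw
    rw [ho] at h
    have h1 := Sum.inr_injective h
    rw [Prod.mk.injEq, Prod.mk.injEq, Prod.mk.injEq] at h1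
    exact ⟨hw, h1.1, h1.2.1, h1.2.2.2⟩

theorem bemb_eq_some {g g' : V₀} {B B' : Set W} {k l : K} {w w' : W}
    (h : bemb z w₀ g B k w = .inr (g', B', some l, w')) : w ≠ w₀ ∧ k = l := by
  obtain ⟨h1, h2, h3, h4⟩ := bemb_eq_inr h
  have hw : w ≠ w₀ := by
    rintro rfl
    rw [bemb_hinge h1] at h
    have h5 := Sum.inr_injective h
    rw [Prod.mk.injEq, Prod.mk.injEq, Prod.mk.injEq] at h5
    exact absurd h5.2.2.1 (by simp)
  rw [bemb_page g B k h1 hw] at h
  have h5 := Sum.inr_injective h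
  rw [Prod.mk.injEq, Prod.mk.injEq, Prod.mk.injEq] at h5
  exact ⟨hw, Option.some_injective _ h5.2.2.1⟩

theorem bemb_inj {g : V₀} {B : Set W} {k : K} {w w' : W}
    (h : bemb z w₀ g B k w = bemb z w₀ g B k w') : w = w' := by
  by_cases hw : w' = z
  · subst hw
    rw [bemb_root] at h
    exact (bemb_eq_inl h).1
  · obtain ⟨o, ho⟩ := bemb_of_ne (w₀ := w₀) g B k hw
    rw [ho] at h
    exact (bemb_eq_inr h).2.2.2

/-- Two points of one page determine everything. -/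
theorem bemb_pair {g g' : V₀} {B B' : Set W} {k k' : K} {u v u' v' : W}
    (h1 : bemb z w₀ g B k u = bemb z w₀ g' B' k' u')
    (h2 : bemb z w₀ g B k v = bemb z w₀ g' B' k' v') (huv : u ≠ v) :
    g = g' ∧ B = B' ∧ u = u' ∧ v = v' := by
  have key : ∀ u u' : W, bemb z w₀ g B k u = bemb z w₀ g' B' k' u' → u ≠ z →
      g = g' ∧ B = B' ∧ u = u' := by
    intro u u' h hu
    obtain ⟨o, ho⟩ := bemb_of_ne (w₀ := w₀) g B k hu
    rw [ho] at h
    obtain ⟨-, h3, h4, h5⟩ := bemb_eq_inr h.symm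
    exact ⟨h3.symm, h4.symm, h5.symm⟩
  have key2 : ∀ u u' : W, bemb z w₀ g B k u = bemb z w₀ g' B' k' u' → u = z → u = u' := by
    intro u u' h hu
    subst hu
    rw [bemb_root] at h
    exact (bemb_eq_inl h.symm).1.symm
  by_cases hu : u = z
  · have hv : v ≠ z := fun h => huv (hu.trans h.symm)
    obtain ⟨h3, h4, h5⟩ := key v v' h2 hv
    exact ⟨h3, h4, key2 u u' h1 hu, h5⟩
  · obtain ⟨h3, h4, h5⟩ := key u u' h1 hu
    refine ⟨h3, h4, h5, ?_⟩
    by_cases hv : v = z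
    · exact key2 v v' h2 hv
    · exact (key v v' h2 hv).2.2

end

/-- The edges of the pages with index `k`. -/
def BP (H : SimpleGraph W) (D₀ : Set W) (z w₀ : W) (V₀ K : Type) (k : K) :
    Set (Sym2 (V₀ ⊕ (V₀ × Set W × Option K × W))) :=
  {e | ∃ g, ∃ B ∈ Pet H D₀ z z \ {D₀}, ∃ w w', H.Adj w w' ∧ w ∈ insert z D₀ ∧ w' ∈ insert z D₀ ∧
    e = s(bemb z w₀ g B k w, bemb z w₀ g B k w')}

theorem book_cases {D₀ : Set W} {z w₀ : W} {V₀ K : Type} {I₀ : Set (Sym2 V₀)}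
    {x y : V₀ ⊕ (V₀ × Set W × Option K × W)}
    (h : s(x, y) ∈ Sym2.map Sum.inl '' I₀ ∪ {e | ∃ k, e ∈ BP H D₀ z w₀ V₀ K k}) :
    (∃ a b, x = .inl a ∧ y = .inl b ∧ s(a, b) ∈ I₀) ∨
    (∃ g, ∃ B ∈ Pet H D₀ z z \ {D₀}, ∃ k w w', H.Adj w w' ∧ w ∈ insert z D₀ ∧
      w' ∈ insert z D₀ ∧ x = bemb z w₀ g B k w ∧ y = bemb z w₀ g B k w') := by
  rcases h with ⟨a, ha, h⟩ | ⟨k, g, B, hB, w, w', h, hw, hw', he⟩
  · left
    induction a with
    | _ a b =>
      rw [Sym2.map_mk, Sym2.eq_iff] at h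
      rcases h with ⟨h1, h2⟩ | ⟨h1, h2⟩
      · exact ⟨a, b, h1.symm, h2.symm, ha⟩
      · exact ⟨b, a, h2.symm, h1.symm, by rwa [Sym2.eq_swap]⟩
  · right
    rw [Sym2.eq_iff] at he
    rcases he with ⟨h1, h2⟩ | ⟨h1, h2⟩
    · exact ⟨g, B, hB, k, w, w', h, hw, hw', h1, h2⟩
    · exact ⟨g, B, hB, k, w', w, h.symm, hw', hw, h1, h2⟩

/-- A petal in a book contains both vertices of the spine. -/
theorem book_mem [Finite W] (hc : H.Connected) (hδ : ∀ x, x ∈ coreSet H) {D₀ : Set W} {z w₀ : W} (h₀ : IsAtom1 H D₀ z)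
    (hw₀ : w₀ ∈ D₀) {V₀ K : Type} {f : W → V₀ ⊕ (V₀ × Set W × Option K × W)}
    (hf : Function.Injective f) {D : Set W} (hD : IsAtom1 H D z) {g : V₀} {B : Set W}
    (hfa : ∀ a ∈ insert z D, ∀ b ∈ insert z D, H.Adj a b →
      ∃ k w w', w ∈ insert z D₀ ∧ w' ∈ insert z D₀ ∧ f a = bemb z w₀ g B k w ∧
        f b = bemb z w₀ g B k w')
    {u v : W} (huv : (u = z ∧ v = w₀) ∨ (u = w₀ ∧ v = z))
    {T T' : V₀ ⊕ (V₀ × Set W × Option K × W)}
    (hT : ∀ k, bemb z w₀ g B k u = T) (hT' : ∀ k, bemb z w₀ g B k v = T') :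
    ∃ a ∈ insert z D, f a = T := by
  classical
  by_contra hcon
  push Not at hcon
  have hw₀z : w₀ ≠ z := fun h => h₀.1.2.1 (h ▸ hw₀)
  have himg : ∀ a ∈ insert z D, ∃ k w, w ∈ insert z D₀ ∧ w ≠ u ∧ f a = bemb z w₀ g B k w := by
    intro a ha
    obtain ⟨b, hb, hab⟩ : ∃ b ∈ insert z D, H.Adj a b := by
      rcases ha with rfl | ha
      · obtain ⟨b, hb, hbz⟩ := hD.1.adj hc
        exact ⟨b, Or.inr hb, hbz.symm⟩
      · obtain ⟨x, _, _, hx, _⟩ := hδ a
        rcases hD.1.2.2.2 a ha x hx with h1 | h1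
        · exact ⟨x, Or.inr h1, hx⟩
        · exact ⟨x, Or.inl h1, hx⟩
    obtain ⟨k, w, w', h1, h2, h3, h4⟩ := hfa a ha b hb hab
    refine ⟨k, w, h1, ?_, h3⟩
    rintro rfl
    exact hcon a ha (h3.trans (hT k))
  have huv' : u ≠ v := by
    rcases huv with ⟨rfl, rfl⟩ | ⟨rfl, rfl⟩
    · exact hw₀z.symm
    · exact hw₀z
  have hu : u ∈ insert z D₀ := by
    rcases huv with ⟨rfl, rfl⟩ | ⟨rfl, rfl⟩
    · exact Or.inl rfl
    · exact Or.inr hw₀
  have hcov : ∀ w, w ≠ u → w ≠ v → w ≠ z ∧ w ≠ w₀ := by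
    intro w h1 h2
    rcases huv with ⟨rfl, rfl⟩ | ⟨rfl, rfl⟩
    · exact ⟨h1, h2⟩
    · exact ⟨h2, h1⟩
  -- a vertex not mapped to the spine
  obtain ⟨a₀, ha₀, k₀, w₁, hw₁, hw₁u, hw₁v, hfa₀⟩ : ∃ a₀ ∈ insert z D, ∃ k w, w ∈ insert z D₀ ∧ w ≠ u ∧
      w ≠ v ∧ f a₀ = bemb z w₀ g B k w := by
    obtain ⟨b, hb⟩ := hD.1.1
    have hbz : b ≠ z := fun h => hD.1.2.1 (h ▸ hb)
    obtain ⟨k, w, h1, h2, h3⟩ := himg b (Or.inr hb)
    obtain ⟨k', w', h1', h2', h3'⟩ := himg z (Or.inl rfl)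
    by_cases hwv : w = v
    · by_cases hwv' : w' = v
      · exfalso
        rw [hwv, hT'] at h3
        rw [hwv', hT'] at h3'
        exact hbz (hf (h3.trans h3'.symm))
      · exact ⟨z, Or.inl rfl, k', w', h1', h2', hwv', h3'⟩
    · exact ⟨b, Or.inr hb, k, w, h1, h2, hwv, h3⟩
  let M : Set (V₀ ⊕ (V₀ × Set W × Option K × W)) :=
    {x | ∃ w ∈ insert z D₀, w ≠ u ∧ w ≠ v ∧ x = bemb z w₀ g B k₀ w}
  let E : (V₀ ⊕ (V₀ × Set W × Option K × W)) → (V₀ ⊕ (V₀ × Set W × Option K × W)) → Prop :=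
    fun x y => ∃ k w w', w ∈ insert z D₀ ∧ w' ∈ insert z D₀ ∧ w ≠ u ∧ w' ≠ u ∧
      x = bemb z w₀ g B k w ∧ y = bemb z w₀ g B k w'
  have hEsymm : ∀ x y, E x y → E y x := by
    rintro x y ⟨k, w, w', h1, h2, h3, h4, h5, h6⟩
    exact ⟨k, w', w, h2, h1, h4, h3, h6, h5⟩
  have hMaux : ∀ x ∈ M, ∀ y, E x y → y ∈ M ∨ y = T' := by
    rintro x ⟨w, hw, hwu, hwv, rfl⟩ y ⟨k, w₂, w₃, h1, h2, h3, h4, h5, h6⟩
    obtain ⟨hwz, hww₀⟩ := hcov w hwu hwv
    rw [bemb_page g B k₀ hwz hww₀] at h5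
    obtain ⟨-, rfl⟩ := bemb_eq_some h5.symm
    by_cases h7 : w₃ = v
    · right; rw [h6, h7, hT']
    · left; exact ⟨w₃, h2, h4, h7, h6⟩
  have hfa' : ∀ a ∈ insert z D, ∀ b ∈ insert z D, H.Adj a b → E (f a) (f b) := by
    intro a ha b hb hab
    obtain ⟨k, w, w', h1, h2, h3, h4⟩ := hfa a ha b hb hab
    refine ⟨k, w, w', h1, h2, ?_, ?_, h3, h4⟩
    · rintro rfl; exact hcon a ha (h3.trans (hT k))
    · rintro rfl; exact hcon b hb (h4.trans (hT k))
  have hM : ∀ a ∈ insert z D, f a ∈ M ∨ f a = T' := by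
    rcases hD.loc hc hf.injOn hfa' (M := M) (t := T') (fun x hx y hxy => by
      rcases hxy with h1 | h1
      · exact hMaux x hx y h1
      · exact hMaux x hx y (hEsymm _ _ h1)) with h1 | h1
    · exact h1
    · exact absurd ⟨w₁, hw₁, hw₁u, hw₁v, hfa₀⟩ (h1 a₀ ha₀)
  have hχ : ∀ a ∈ insert z D, ∃ w ∈ insert z D₀ \ {u}, f a = bemb z w₀ g B k₀ w := by
    intro a ha
    rcases hM a ha with ⟨w, h1, h2, h3, h4⟩ | h1
    · exact ⟨w, ⟨h1, h2⟩, h4⟩
    · refine ⟨v, ⟨?_, huv'.symm⟩, by rw [hT', h1]⟩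
      rcases huv with ⟨rfl, rfl⟩ | ⟨rfl, rfl⟩
      · exact Or.inr hw₀
      · exact Or.inl rfl
  choose! χ hχ1 hχ2 using hχ
  have h1 : (insert z D).ncard ≤ (insert z D₀ \ {u}).ncard := by
    refine Set.ncard_le_ncard_of_injOn χ hχ1 ?_ (Set.toFinite _)
    intro a ha b hb hab
    exact hf (by rw [hχ2 a ha, hχ2 b hb, hab])
  have h2 : (insert z D₀ \ {u}).ncard < (insert z D₀).ncard :=
    Set.ncard_sdiff_singleton_lt_of_mem hu (Set.toFinite _)
  rw [Set.ncard_insert_of_notMem hD.1.2.1 (Set.toFinite _), hD.ncard_eq h₀] at h1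
  rw [Set.ncard_insert_of_notMem h₀.1.2.1 (Set.toFinite _)] at h2
  omega

theorem conn1_books [Finite W] (hc : H.Connected) (hδ : ∀ x, x ∈ coreSet H) {D₀ : Set W} {z : W}
    (h₀ : IsAtom1 H D₀ z)
    (hmin : ∀ D c, IsAtom1 H D c → REmb H D c D₀ z → REmb H D₀ z D c)
    (hcov : ∀ x, x ≠ z → ∃ D ∈ Pet H D₀ z z, x ∈ D) {w₀ : W} (hw₀ : w₀ ∈ D₀)
    (hw₀z : ¬ H.Adj z w₀) (hfail : Fails.{0} (H.induce (insert z D₀))) : Fails.{0} H := by
  classical
  have hne : w₀ ≠ z := fun h => h₀.1.2.1 (h ▸ hw₀)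
  have hD₀P : D₀ ∈ Pet H D₀ z z := ⟨h₀, REmb.refl _ _⟩
  -- an edge is not the pair `z, w₀`
  have hpage : ∀ w w', H.Adj w w' → (w ≠ z ∧ w ≠ w₀) ∨ (w' ≠ z ∧ w' ≠ w₀) := by
    intro w w' h
    by_contra hcon
    push Not at hcon
    obtain ⟨h1, h2⟩ := hcon
    by_cases hw : w = z
    · have hw' : w' ≠ z := fun h' => h.ne (hw.trans h'.symm)
      exact hw₀z ((hw ▸ h2 hw' ▸ h : H.Adj z w₀))
    · have hw2 := h1 hw
      by_cases hw' : w' = z
      · exact hw₀z ((hw' ▸ hw2 ▸ h : H.Adj w₀ z)).symm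
      · exact h.ne (hw2.trans (h2 hw').symm)
  refine Fails.of_parts hfail ?_ (fun V₀ K => V₀ × Set W × Option K × W)
    (fun V₀ K => BP H D₀ z w₀ V₀ K) ?_ ?_ ?_ ?_ ?_
  · obtain ⟨a, ha, haz⟩ := h₀.1.adj hc
    exact ⟨⟨a, Or.inr ha⟩, ⟨z, Or.inl rfl⟩, haz⟩
  · rintro V₀ K k e ⟨g, B, hB, w, w', h, hw, hw', rfl⟩ a he
    induction a with
    | _ x y =>
      rw [Sym2.map_mk, Sym2.eq_iff] at he
      rcases he with ⟨h1, h2⟩ | ⟨h1, h2⟩
      · exact h.ne ((bemb_eq_inl h1.symm).1.trans (bemb_eq_inl h2.symm).1.symm)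
      · exact h.ne ((bemb_eq_inl h2.symm).1.trans (bemb_eq_inl h1.symm).1.symm)
  · rintro V₀ K k e ⟨g, B, hB, w, w', h, hw, hw', rfl⟩ he
    rw [Sym2.mk_isDiag_iff] at he
    exact h.ne (bemb_inj he)
  · rintro V₀ K k l e ⟨g, B, hB, w, w', h, hw, hw', rfl⟩ ⟨g', B', hB', v, v', h', hv, hv', he⟩
    have key : ∀ x y, bemb z w₀ g B k x = bemb z w₀ g' B' l y → x ≠ z ∧ x ≠ w₀ → k = l := by
      rintro x y h1 ⟨h2, h3⟩
      rw [bemb_page g B k h2 h3] at h1
      exact (bemb_eq_some h1.symm).2.symm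
    rw [Sym2.eq_iff] at he
    rcases hpage w w' h with h1 | h1 <;> rcases he with ⟨h2, h3⟩ | ⟨h2, h3⟩
    · exact key _ _ h2 h1
    · exact key _ _ h2 h1
    · exact key _ _ h3 h1
    · exact key _ _ h3 h1
  · intro V₀ K I₀ hI₀
    rw [hFree_iff]
    intro f hf hfa'
    have hfa := fun a b hab => book_cases (hfa' a b hab)
    clear hfa'
    have hEbase : ∀ a b, H.Adj a b → (∃ u v, f a = .inl u ∧ f b = .inl v) ∨
        (∃ g, ∃ B ∈ Pet H D₀ z z \ {D₀}, ∃ k w w', w ∈ insert z D₀ ∧ w' ∈ insert z D₀ ∧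
          f a = bemb z w₀ g B k w ∧ f b = bemb z w₀ g B k w') := by
      intro a b hab
      rcases hfa a b hab with ⟨x, y, h1, h2, _⟩ | ⟨g, B, hB, k, w, w', _, h2, h3, h4, h5⟩
      · exact Or.inl ⟨x, y, h1, h2⟩
      · exact Or.inr ⟨g, B, hB, k, w, w', h2, h3, h4, h5⟩
    -- every petal is mapped into a book
    have hbook : ∀ D ∈ Pet H D₀ z z, ∃ g : V₀, ∃ B ∈ Pet H D₀ z z \ {D₀},
        ∀ a ∈ insert z D, f a = .inl g ∨ ∃ o w, f a = .inr (g, B, o, w) := by
      intro D hD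
      by_cases hall : ∀ a ∈ insert z D, ∃ x, f a = .inl x
      · exfalso
        obtain ⟨ψ, h1, h2, h3, h4⟩ := hmin D z hD.1 hD.2
        have h5 : ∀ a : ↥(insert z D₀), ∃ x, f (ψ a) = .inl x := by
          rintro ⟨a, ha | ha⟩
          · exact hall _ (by
              show ψ a ∈ insert z D
              rw [ha, h2]; exact Or.inl rfl)
          · exact hall _ (Or.inr (h3 _ ha))
        choose φ hφ using h5
        refine hFree_iff.1 hI₀ φ ?_ ?_
        · intro a b hab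
          apply Subtype.ext
          apply h1 a.2 b.2
          apply hf
          rw [hφ a, hφ b, hab]
        · intro a b hab
          rcases hfa _ _ (h4 a a.2 b b.2 hab) with
            ⟨x, y, h5, h6, h7⟩ | ⟨g, B, hB, k, w, w', h, _, _, h5, h6⟩
          · rw [hφ a] at h5
            rw [hφ b] at h6
            rw [Sum.inl_injective h5, Sum.inl_injective h6]; exact h7
          · rw [hφ a] at h5
            rw [hφ b] at h6
            exact absurd ((bemb_eq_inl h5.symm).1.trans (bemb_eq_inl h6.symm).1.symm) h.ne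
      · push Not at hall
        obtain ⟨a₀, ha₀, hna⟩ := hall
        obtain ⟨g, B, o, w, hw⟩ : ∃ g B o w, f a₀ = .inr (g, B, o, w) := by
          cases h : f a₀ with
          | inl v => exact absurd h (hna v)
          | inr p => exact ⟨p.1, p.2.1, p.2.2.1, p.2.2.2, rfl⟩
        have hB : B ∈ Pet H D₀ z z \ {D₀} := by
          obtain ⟨y, _, _, hy, _⟩ := hδ a₀
          rcases hEbase a₀ y hy with ⟨x, y, h1, _⟩ | ⟨g', B', hB', k, w₁, w₂, _, _, h1, _⟩
          · rw [hw] at h1; exact absurd h1 (by simp)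
          · rw [hw] at h1
            obtain ⟨-, -, h2, -⟩ := bemb_eq_inr h1.symm
            exact h2 ▸ hB'
        let M : Set (V₀ ⊕ (V₀ × Set W × Option K × W)) := {x | ∃ o w, x = .inr (g, B, o, w)}
        let E : (V₀ ⊕ (V₀ × Set W × Option K × W)) → (V₀ ⊕ (V₀ × Set W × Option K × W)) → Prop :=
          fun x y => (∃ u v, x = .inl u ∧ y = .inl v) ∨
            (∃ g, ∃ B ∈ Pet H D₀ z z \ {D₀}, ∃ k w w', w ∈ insert z D₀ ∧ w' ∈ insert z D₀ ∧
              x = bemb z w₀ g B k w ∧ y = bemb z w₀ g B k w')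
        have hEsymm : ∀ x y, E x y → E y x := by
          rintro x y (⟨u, v, h1, h2⟩ | ⟨g', B', hB', k', w₁, w₂, h3, h4, h1, h2⟩)
          · exact Or.inl ⟨v, u, h2, h1⟩
          · exact Or.inr ⟨g', B', hB', k', w₂, w₁, h4, h3, h2, h1⟩
        have hMaux : ∀ x ∈ M, ∀ y, E x y → y ∈ M ∨ y = .inl g := by
          rintro x ⟨o, w, rfl⟩ y (⟨u, v, h1, _⟩ | ⟨g', B', hB', k', w₁, w₂, _, _, h1, h2⟩)
          · exact absurd h1 (by simp)
          · obtain ⟨-, rfl, rfl, -⟩ := bemb_eq_inr h1.symm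
            by_cases hw₂ : w₂ = z
            · right; rw [h2, hw₂, bemb_root]
            · left
              obtain ⟨o', ho'⟩ := bemb_of_ne (w₀ := w₀) g' B' k' hw₂
              exact ⟨o', w₂, by rw [h2, ho']⟩
        refine ⟨g, B, hB, fun a ha => ?_⟩
        rcases hD.1.loc hc hf.injOn (E := E) (fun a _ b _ hab => hEbase a b hab) (M := M)
          (t := .inl g) (fun x hx y hxy => by
            rcases hxy with h1 | h1
            · exact hMaux x hx y h1
            · exact hMaux x hx y (hEsymm _ _ h1)) with h1 | h1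
        · rcases h1 a ha with h2 | h2
          · exact Or.inr h2
          · exact Or.inl h2
        · exact absurd ⟨o, w, hw⟩ (h1 a₀ ha₀)
    have hbedge : ∀ D ∈ Pet H D₀ z z, ∀ (g : V₀) (B : Set W),
        (∀ a ∈ insert z D, f a = .inl g ∨ ∃ o w, f a = .inr (g, B, o, w)) →
        ∀ a ∈ insert z D, ∀ b ∈ insert z D, H.Adj a b →
          ∃ k w w', w ∈ insert z D₀ ∧ w' ∈ insert z D₀ ∧ f a = bemb z w₀ g B k w ∧
          f b = bemb z w₀ g B k w' := by
      intro D hD g B hin a ha b hb hab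
      rcases hfa a b hab with ⟨x, y, h1, h2, _⟩ | ⟨g', B', hB', k, w, w', h, h1, h2, h3, h4⟩
      · exfalso
        have h3 : f a = .inl g := by
          rcases hin a ha with h | ⟨o, w, h⟩
          · exact h
          · rw [h] at h1; exact absurd h1 (by simp)
        have h4 : f b = .inl g := by
          rcases hin b hb with h | ⟨o, w, h⟩
          · exact h
          · rw [h] at h2; exact absurd h2 (by simp)
        exact hab.ne (hf (h3.trans h4.symm))
      · have key : ∀ x ∈ insert z D, ∀ v, f x = bemb z w₀ g' B' k v → v ≠ z → g' = g ∧ B' = B := by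
          intro x hx v h5 h6
          obtain ⟨o, ho⟩ := bemb_of_ne (w₀ := w₀) g' B' k h6
          rw [ho] at h5
          rcases hin x hx with h | ⟨o', w, h⟩
          · rw [h] at h5; exact absurd h5 (by simp)
          · rw [h] at h5
            have h7 := Sum.inr_injective h5
            rw [Prod.mk.injEq, Prod.mk.injEq, Prod.mk.injEq] at h7
            exact ⟨h7.1.symm, h7.2.1.symm⟩
        obtain ⟨rfl, rfl⟩ : g' = g ∧ B' = B := by
          by_cases hw : w = z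
          · exact key b hb w' h4 (fun h' => h.ne (hw.trans h'.symm))
          · exact key a ha w h3 hw
        exact ⟨k, w, w', h1, h2, h3, h4⟩
    -- two petals cannot be mapped into the same book
    have htwo : ∀ D ∈ Pet H D₀ z z, ∀ D' ∈ Pet H D₀ z z, D ≠ D' → ∀ (g : V₀) (B : Set W),
        (∀ a ∈ insert z D, f a = .inl g ∨ ∃ o w, f a = .inr (g, B, o, w)) →
        (∀ a ∈ insert z D', f a = .inl g ∨ ∃ o w, f a = .inr (g, B, o, w)) → False := by
      intro D hD D' hD' hDD' g B h1 h2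
      have key : ∀ T, (∃ a ∈ insert z D, f a = T) → (∃ a ∈ insert z D', f a = T) → f z = T := by
        rintro T ⟨a, ha, haT⟩ ⟨a', ha', haT'⟩
        have h3 : a = a' := hf (haT.trans haT'.symm)
        subst h3
        rcases ha with rfl | ha
        · exact haT
        · rcases ha' with rfl | ha'
          · exact haT
          · exact absurd (hD.1.eq_of_mem hc hD'.1 ha ha').1 hDD'
      have h3 := key (.inl g)
        (book_mem hc hδ h₀ hw₀ hf hD.1 (hbedge D hD g B h1) (Or.inl ⟨rfl, rfl⟩)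
          (fun k => bemb_root g B k) (fun k => bemb_hinge hne g B k))
        (book_mem hc hδ h₀ hw₀ hf hD'.1 (hbedge D' hD' g B h2) (Or.inl ⟨rfl, rfl⟩)
          (fun k => bemb_root g B k) (fun k => bemb_hinge hne g B k))
      have h4 := key (.inr (g, B, none, w₀))
        (book_mem hc hδ h₀ hw₀ hf hD.1 (hbedge D hD g B h1) (Or.inr ⟨rfl, rfl⟩)
          (fun k => bemb_hinge hne g B k) (fun k => bemb_root g B k))
        (book_mem hc hδ h₀ hw₀ hf hD'.1 (hbedge D' hD' g B h2) (Or.inr ⟨rfl, rfl⟩)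
          (fun k => bemb_hinge hne g B k) (fun k => bemb_root g B k))
      rw [h3] at h4
      exact absurd h4 (by simp)
    cases hfz : f z with
    | inl g₀ =>
      have hbook' : ∀ D ∈ Pet H D₀ z z, ∃ B ∈ Pet H D₀ z z \ {D₀},
          ∀ a ∈ insert z D, f a = .inl g₀ ∨ ∃ o w, f a = .inr (g₀, B, o, w) := by
        intro D hD
        obtain ⟨g, B, hB, h⟩ := hbook D hD
        have h1 : g = g₀ := by
          rcases h z (Or.inl rfl) with h2 | ⟨o, w, h2⟩
          · rw [hfz] at h2; exact (Sum.inl_injective h2).symm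
          · rw [hfz] at h2; exact absurd h2 (by simp)
        subst h1
        exact ⟨B, hB, h⟩
      choose! Bk hBk hin using hbook'
      have hlt : (Pet H D₀ z z \ {D₀}).ncard < (Pet H D₀ z z).ncard :=
        Set.ncard_sdiff_singleton_lt_of_mem hD₀P (Set.toFinite _)
      obtain ⟨D, hD, D', hD', hDD', hBB⟩ :=
        Set.exists_ne_map_eq_of_ncard_lt_of_maps_to hlt hBk (Set.toFinite _)
      exact htwo D hD D' hD' hDD' g₀ (Bk D) (hin D hD) (hBB ▸ hin D' hD')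
    | inr p =>
      obtain ⟨g₀, B₀, o₀, w₁⟩ := p
      have hbook' : ∀ D ∈ Pet H D₀ z z,
          ∀ a ∈ insert z D, f a = .inl g₀ ∨ ∃ o w, f a = .inr (g₀, B₀, o, w) := by
        intro D hD
        obtain ⟨g, B, hB, h⟩ := hbook D hD
        have h1 : g₀ = g ∧ B₀ = B := by
          rcases h z (Or.inl rfl) with h2 | ⟨o, w, h2⟩
          · rw [hfz] at h2; exact absurd h2 (by simp)
          · rw [hfz] at h2
            have h3 := Sum.inr_injective h2
            rw [Prod.mk.injEq, Prod.mk.injEq, Prod.mk.injEq] at h3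
            exact ⟨h3.1, h3.2.1⟩
        obtain ⟨rfl, rfl⟩ := h1
        exact h
      obtain ⟨x, hx, hxz⟩ := h₀.1.2.2.1
      obtain ⟨D, hD, hxD⟩ := hcov x hxz
      have hne' : D₀ ≠ D := fun h => hx (h ▸ hxD)
      exact htwo D₀ hD₀P D hD hne' g₀ B₀ (hbook' D₀ hD₀P) (hbook' D hD)
  · intro V₀ K F₀ Good hGood hF₀
    rw [not_hFree_iff] at hF₀ ⊢
    obtain ⟨f₀, hf₀, hf₀a⟩ := hF₀
    obtain ⟨k, hk⟩ := hGood.nonempty
    have hW : Nonempty W := ⟨z⟩
    choose! D hDP hxD using hcov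
    have hψ : ∀ (D : Set W), D ∈ Pet H D₀ z z → ∃ ψ : W → W, Set.InjOn ψ (insert z D) ∧
        ψ z = z ∧ (∀ a ∈ D, ψ a ∈ D₀) ∧
        ∀ a ∈ insert z D, ∀ b ∈ insert z D, H.Adj a b → H.Adj (ψ a) (ψ b) := fun D h => h.2
    choose! ψ hψ1 hψ2 hψ3 hψ4 using hψ
    let g : V₀ := f₀ ⟨z, Or.inl rfl⟩
    let f : W → V₀ ⊕ (V₀ × Set W × Option K × W) := fun x =>
      if h : x ∈ insert z D₀ then .inl (f₀ ⟨x, h⟩) else bemb z w₀ g (D x) k (ψ (D x) x)
    have hf1 : ∀ x (h : x ∈ insert z D₀), f x = .inl (f₀ ⟨x, h⟩) := fun x h => dif_pos h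
    have hf2 : ∀ x (_ : x ∉ insert z D₀), f x = bemb z w₀ g (D x) k (ψ (D x) x) :=
      fun x h => dif_neg h
    have hz : ∀ x, x ∉ insert z D₀ → x ≠ z := fun x hx h => hx (h ▸ Or.inl rfl)
    have hDne : ∀ x, x ∉ insert z D₀ → D x ≠ D₀ := fun x hx h =>
      hx (Or.inr (h ▸ hxD x (hz x hx)))
    refine ⟨f, ?_, ?_⟩
    · intro a b hab
      by_cases ha : a ∈ insert z D₀ <;> by_cases hb : b ∈ insert z D₀
      · rw [hf1 a ha, hf1 b hb] at hab
        exact congrArg Subtype.val (hf₀ (Sum.inl_injective hab))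
      · rw [hf1 a ha, hf2 b hb] at hab
        have h1 := (bemb_eq_inl hab.symm).1
        have h2 := hψ3 _ (hDP b (hz b hb)) b (hxD b (hz b hb))
        exact absurd (h1 ▸ h2) h₀.1.2.1
      · rw [hf2 a ha, hf1 b hb] at hab
        have h1 := (bemb_eq_inl hab).1
        have h2 := hψ3 _ (hDP a (hz a ha)) a (hxD a (hz a ha))
        exact absurd (h1 ▸ h2) h₀.1.2.1
      · rw [hf2 a ha, hf2 b hb] at hab
        have h2 := hψ3 _ (hDP b (hz b hb)) b (hxD b (hz b hb))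
        have h3 : ψ (D b) b ≠ z := fun h => h₀.1.2.1 (h ▸ h2)
        obtain ⟨o, ho⟩ := bemb_of_ne (w₀ := w₀) g (D b) k h3
        rw [ho] at hab
        obtain ⟨-, -, h4, h5⟩ := bemb_eq_inr hab
        rw [h4] at h5
        exact hψ1 _ (hDP b (hz b hb)) (Or.inr (h4 ▸ hxD a (hz a ha))) (Or.inr (hxD b (hz b hb))) h5
    · have key : ∀ a b, H.Adj a b → a ∉ insert z D₀ →
          s(f a, f b) ∈ BP H D₀ z w₀ V₀ K k := by
        intro a b hab ha
        have haz := hz a ha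
        have hP := hDP a haz
        refine ⟨g, D a, ⟨hP, hDne a ha⟩, ψ (D a) a, ψ (D a) b, ?_, ?_, ?_, ?_⟩
        · refine hψ4 _ hP a (Or.inr (hxD a haz)) b ?_ hab
          rcases hP.1.1.2.2.2 a (hxD a haz) b hab with h1 | h1
          · exact Or.inr h1
          · exact Or.inl h1
        · exact Or.inr (hψ3 _ hP a (hxD a haz))
        · rcases hP.1.1.2.2.2 a (hxD a haz) b hab with h1 | h1
          · exact Or.inr (hψ3 _ hP b h1)
          · rw [h1, hψ2 _ hP]; exact Or.inl rfl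
        · have hb : f b = bemb z w₀ g (D a) k (ψ (D a) b) := by
            rcases hP.1.1.2.2.2 a (hxD a haz) b hab with h1 | h1
            · have hbz : b ≠ z := fun h => hP.1.1.2.1 (h ▸ h1)
              have h2 : D b = D a :=
                ((hDP b hbz).1.eq_of_mem hc hP.1 (hxD b hbz) h1).1
              have hb' : b ∉ insert z D₀ := by
                rintro (h | h)
                · exact hbz h
                · exact hDne a ha (hP.1.eq_of_mem hc h₀ h1 h).1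
              rw [hf2 b hb', h2]
            · rw [h1, hψ2 _ hP, bemb_root, hf1 z (Or.inl rfl)]
          rw [hf2 a ha, hb]
      intro a b hab
      by_cases ha : a ∈ insert z D₀
      · by_cases hb : b ∈ insert z D₀
        · left
          exact ⟨s(f₀ ⟨a, ha⟩, f₀ ⟨b, hb⟩), hf₀a ⟨a, ha⟩ ⟨b, hb⟩ hab, by rw [hf1 a ha, hf1 b hb]; rfl⟩
        · right
          refine ⟨k, hk, ?_⟩
          rw [Sym2.eq_swap]
          exact key b a hab.symm hb
      · exact Or.inr ⟨k, hk, key a b hab ha⟩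

end Pool.Agent.StrongMax
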