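import Pool.Agent.Lib.StrongMax.Conn1c
import Pool.Agent.Lib.StrongMax.Conflict42

/-!
# Connectivity one: a vertex joined to disjoint copies of a connected graph (helper42)
-/

namespace Pool.Agent.StrongMax

variable {W : Type} {H : SimpleGraph W}

/-- The embedding of a copy of `H` at the items `i` and `j`. -/
noncomputable def cemb {J K : Type} (t : Bool → Bool → W) (i j : J) (k : K) (w : W) :
    (J × Bool) ⊕ (J × J × K × W) :=
  open Classical in if h : ∃ p : Bool × Bool, w = t p.1 p.2 then
    .inl (if h.choose.1 then j else i, h.choose.2) else .inr (i, j, k, w)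

section

variable {J K : Type} {t : Bool → Bool → W}
  (ht : ∀ c β c' β', t c β = t c' β' → c = c' ∧ β = β')

include ht in
theorem cemb_t (i j : J) (k : K) (c β : Bool) :
    cemb t i j k (t c β) = .inl (if c then j else i, β) := by
  have h : ∃ p : Bool × Bool, t c β = t p.1 p.2 := ⟨(c, β), rfl⟩
  unfold cemb
  rw [dif_pos h]
  obtain ⟨h1, h2⟩ := ht _ _ _ _ h.choose_spec
  rw [← h1, ← h2]

theorem cemb_ne (i j : J) (k : K) {w : W} (h : ∀ c β, w ≠ t c β) :
    cemb t i j k w = .inr (i, j, k, w) :=
  dif_neg (by rintro ⟨p, hp⟩; exact h _ _ hp)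

include ht in
theorem cemb_eq_inl {i j : J} {k : K} {w : W} {p : J × Bool} (h : cemb t i j k w = .inl p) :
    ∃ c, w = t c p.2 ∧ p.1 = if c then j else i := by
  by_cases hw : ∃ c β, w = t c β
  · obtain ⟨c, β, rfl⟩ := hw
    rw [cemb_t ht] at h
    have h1 := Sum.inl_injective h
    subst h1
    exact ⟨c, rfl, rfl⟩
  · push Not at hw
    rw [cemb_ne i j k hw] at h
    exact absurd h (by simp)

include ht in
theorem cemb_eq_inr {i j : J} {k : K} {w : W} {p : J × J × K × W}
    (h : cemb t i j k w = .inr p) : (∀ c β, w ≠ t c β) ∧ p = (i, j, k, w) := by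
  by_cases hw : ∃ c β, w = t c β
  · obtain ⟨c, β, rfl⟩ := hw
    rw [cemb_t ht] at h
    exact absurd h (by simp)
  · push Not at hw
    rw [cemb_ne i j k hw] at h
    exact ⟨hw, (Sum.inr_injective h).symm⟩

theorem ite_bool_inj {i j : J} (hij : i ≠ j) {c c' : Bool}
    (h : (if c then j else i) = (if c' then j else i)) : c = c' := by
  cases c <;> cases c' <;> simp_all

include ht in
theorem cemb_inj {i j : J} (hij : i ≠ j) {k : K} {w w' : W}
    (h : cemb t i j k w = cemb t i j k w') : w = w' := by
  by_cases hw : ∃ c β, w = t c β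
  · obtain ⟨c, β, rfl⟩ := hw
    rw [cemb_t ht] at h
    obtain ⟨c', h1, h2⟩ := cemb_eq_inl ht h.symm
    rw [h1, ite_bool_inj hij h2]
  · push Not at hw
    rw [cemb_ne i j k hw] at h
    have h1 := (cemb_eq_inr ht h.symm).2
    simpa using h1

end

/-- The edges of the copy `k` at the items `i` and `j`. -/
def CP (H : SimpleGraph W) (t : Bool → Bool → W) (J K : Type) (i j : J) (k : K) :
    Set (Sym2 ((J × Bool) ⊕ (J × J × K × W))) :=
  {e | ∃ w w', H.Adj w w' ∧ (∀ c, s(w, w') ≠ s(t c false, t c true)) ∧
    e = s(cemb t i j k w, cemb t i j k w')}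

/-- The items. -/
def citem (W : Type) (J K : Type) (j : J) : Sym2 ((J × Bool) ⊕ (J × J × K × W)) :=
  s(.inl (j, false), .inl (j, true))

theorem conn1_direct [Finite W] (hc : H.Connected) {z : W} {D : Bool → Set W}
    (hD : ∀ c, IsAtom1 H (D c) z) (hDne : D false ≠ D true)
    (hcov : ∀ x, x ≠ z → ∃ D, IsAtom1 H D z ∧ x ∈ D) (hz : ∀ x, x ≠ z → H.Adj z x)
    {t : Bool → Bool → W} (htD : ∀ c β, t c β ∈ D c) (hadj : ∀ c, H.Adj (t c false) (t c true)) :
    Fails.{0} H := by
  classical
  have hdis : ∀ c c' x, x ∈ D c → x ∈ D c' → c = c' := by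
    intro c c' x hx hx'
    have h := ((hD c).eq_of_mem hc (hD c') hx hx').1
    cases c <;> cases c' <;> simp_all
  have ht : ∀ c β c' β', t c β = t c' β' → c = c' ∧ β = β' := by
    intro c β c' β' h
    have h1 : c = c' := hdis _ _ (t c β) (htD c β) (h ▸ htD c' β')
    subst h1
    refine ⟨rfl, ?_⟩
    have h2 := (hadj c).ne
    cases β <;> cases β' <;> simp_all
  -- no edge between interface vertices except the two chosen ones
  have hint : ∀ c β c' β', H.Adj (t c β) (t c' β') → c = c' ∧ β' = !β := by
    intro c β c' β' h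
    have h1 : c = c' := by
      rcases (hD c).1.2.2.2 _ (htD c β) _ h with h2 | h2
      · exact hdis _ _ _ h2 (htD c' β')
      · exact absurd (h2 ▸ htD c' β') (hD c').1.2.1
    subst h1
    refine ⟨rfl, ?_⟩
    have h2 := h.ne
    cases β <;> cases β' <;> simp_all
  have hint2 : ∀ c β c' β', H.Adj (t c β) (t c' β') →
      s(t c β, t c' β') = s(t c false, t c true) := by
    intro c β c' β' h
    obtain ⟨rfl, rfl⟩ := hint _ _ _ _ h
    cases β
    · rfl
    · exact Sym2.eq_swap
  refine Fails.of_conflict (fun J K => (J × Bool) ⊕ (J × J × K × W)) (fun J K j => citem W J K j)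
    (fun J K i j k => CP H t J K i j k) ?_ ?_ ?_ ?_ ?_ ?_
  · intro J K i j h
    have h1 : s((Sum.inl (i, false) : (J × Bool) ⊕ (J × J × K × W)), .inl (i, true)) =
      s(.inl (j, false), .inl (j, true)) := h
    rw [Sym2.eq_iff] at h1
    rcases h1 with ⟨h2, _⟩ | ⟨h2, _⟩
    · have := Sum.inl_injective h2
      exact congrArg Prod.fst this
    · have := Sum.inl_injective h2
      exact congrArg Prod.fst this
  · intro J K j h
    have h1 : (s((Sum.inl (j, false) : (J × Bool) ⊕ (J × J × K × W)), .inl (j, true))).IsDiag := h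
    rw [Sym2.mk_isDiag_iff] at h1
    have := Sum.inl_injective h1
    exact absurd (congrArg Prod.snd this) (by simp)
  · rintro J K i j k hij e ⟨w, w', h, _, rfl⟩ he
    rw [Sym2.mk_isDiag_iff] at he
    exact h.ne (cemb_inj ht hij he)
  · rintro J K i j k l e hij ⟨w, w', h, hn, rfl⟩ ⟨v, v', h', hn', he⟩
    have key : ∀ x y, cemb t i j k x = cemb t i j l y → (∀ c β, x ≠ t c β) → k = l := by
      intro x y h1 h2
      rw [cemb_ne i j k h2] at h1
      have h3 := (cemb_eq_inr ht h1.symm).2
      rw [Prod.mk.injEq, Prod.mk.injEq, Prod.mk.injEq] at h3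
      exact h3.2.2.1
    have hor : (∀ c β, w ≠ t c β) ∨ (∀ c β, w' ≠ t c β) := by
      by_contra hcon
      push Not at hcon
      obtain ⟨⟨c, β, rfl⟩, ⟨c', β', rfl⟩⟩ := hcon
      exact hn c (hint2 _ _ _ _ h)
    rw [Sym2.eq_iff] at he
    rcases hor with h1 | h1 <;> rcases he with ⟨h2, h3⟩ | ⟨h2, h3⟩
    · exact key _ _ h2 h1
    · exact key _ _ h2 h1
    · exact key _ _ h3 h1
    · exact key _ _ h3 h1
  · intro J K R A hR hA
    rw [hFree_iff]
    intro f hf hfa'
    have hfa : ∀ a b, H.Adj a b →
        (∃ j ∈ A, ∃ β, f a = .inl (j, β) ∧ f b = .inl (j, !β)) ∨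
        (∃ i j k, R i j ∧ ∃ w w', H.Adj w w' ∧ (∀ c, s(w, w') ≠ s(t c false, t c true)) ∧
          f a = cemb t i j k w ∧ f b = cemb t i j k w') := by
      intro a b hab
      rcases hfa' a b hab with ⟨j, hj, h⟩ | ⟨i, j, k, hRij, w, w', h, hn, he⟩
      · left
        have h1 : s((Sum.inl (j, false) : (J × Bool) ⊕ (J × J × K × W)), .inl (j, true)) =
          s(f a, f b) := h
        rw [Sym2.eq_iff] at h1
        rcases h1 with ⟨h2, h3⟩ | ⟨h2, h3⟩
        · exact ⟨j, hj, false, h2.symm, h3.symm⟩
        · exact ⟨j, hj, true, h3.symm, h2.symm⟩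
      · right
        rw [Sym2.eq_iff] at he
        rcases he with ⟨h2, h3⟩ | ⟨h2, h3⟩
        · exact ⟨i, j, k, hRij, w, w', h, hn, h2, h3⟩
        · exact ⟨i, j, k, hRij, w', w, h.symm, fun c => by rw [Sym2.eq_swap]; exact hn c, h2, h3⟩
    clear hfa'
    have hpriv : ∀ w w', H.Adj w w' → (∀ c, s(w, w') ≠ s(t c false, t c true)) →
        (∃ c β, w = t c β) → ∀ c β, w' ≠ t c β := by
      rintro w w' h hn ⟨c, β, rfl⟩ c' β' rfl
      exact hn c (hint2 _ _ _ _ h)
    cases hfz : f z with
    | inr p =>
      obtain ⟨i, j, k, w⟩ := p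
      have hcopy : ∀ x, x ≠ z → R i j ∧ (∀ c β, w ≠ t c β) ∧
          ∃ w', H.Adj w w' ∧ f x = cemb t i j k w' := by
        intro x hx
        rcases hfa z x (hz x hx) with ⟨j', _, β, h1, _⟩ | ⟨i', j', k', hR', w₁, w', h, _, h1, h2⟩
        · rw [hfz] at h1; exact absurd h1 (by simp)
        · rw [hfz] at h1
          obtain ⟨h3, h4⟩ := cemb_eq_inr ht h1.symm
          rw [Prod.mk.injEq, Prod.mk.injEq, Prod.mk.injEq] at h4
          obtain ⟨rfl, rfl, rfl, rfl⟩ := h4
          exact ⟨hR', h3, w', h, h2⟩
      have hx₀ : t false false ≠ z := fun h => (hD false).1.2.1 (h ▸ htD false false)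
      obtain ⟨hRij, hwt, -⟩ := hcopy _ hx₀
      have hij := hR i j hRij
      by_cases hwz : w = z
      · -- the planned copy
        have hπ : ∀ x, ∃ w', f x = cemb t i j k w' := by
          intro x
          by_cases hx : x = z
          · exact ⟨w, by rw [hx, hfz, cemb_ne _ _ _ hwt]⟩
          · obtain ⟨_, _, w', _, h⟩ := hcopy x hx
            exact ⟨w', h⟩
        choose π hπ using hπ
        have hπinj : Function.Injective π := fun a b hab => hf (by rw [hπ a, hπ b, hab])
        have hπadj : ∀ a b, H.Adj a b → H.Adj (π a) (π b) := by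
          intro a b hab
          rcases hfa a b hab with ⟨j', _, β, h1, h2⟩ | ⟨i', j', k', hR', w₁, w₂, h, hn, h1, h2⟩
          · rw [hπ a] at h1
            rw [hπ b] at h2
            obtain ⟨c, h3, h4⟩ := cemb_eq_inl ht h1
            obtain ⟨c', h5, h6⟩ := cemb_eq_inl ht h2
            have h4' : j' = if c then j else i := h4
            have h6' : j' = if c' then j else i := h6
            have hcc : c = c' := ite_bool_inj hij (h4'.symm.trans h6')
            subst hcc
            rw [h3, h5]
            cases β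
            · exact hadj c
            · exact (hadj c).symm
          · rw [hπ a] at h1
            rw [hπ b] at h2
            have hne : ∀ x y, cemb t i j k x = cemb t i' j' k' y → (∀ c β, y ≠ t c β) →
                i = i' ∧ j = j' ∧ k = k' ∧ x = y := by
              intro x y h3 h4
              rw [cemb_ne i' j' k' h4] at h3
              have h5 := (cemb_eq_inr ht h3).2
              rw [Prod.mk.injEq, Prod.mk.injEq, Prod.mk.injEq] at h5
              exact ⟨h5.1.symm, h5.2.1.symm, h5.2.2.1.symm, h5.2.2.2.symm⟩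
            by_cases hw₁ : ∃ c β, w₁ = t c β
            · have hw₂ := hpriv _ _ h hn hw₁
              obtain ⟨rfl, rfl, rfl, h3⟩ := hne _ _ h2 hw₂
              have h4 := cemb_inj ht hij h1
              rw [h4, h3]; exact h
            · push Not at hw₁
              obtain ⟨rfl, rfl, rfl, h3⟩ := hne _ _ h1 hw₁
              have h4 := cemb_inj ht hij h2
              rw [h3, h4]; exact h
        -- `π` is surjective on edges
        have hΦe : ∀ e : Sym2 W, e ∈ H.edgeSet → Sym2.map π e ∈ H.edgeSet := by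
          intro e he
          induction e with
          | _ a b => exact hπadj a b he
        let Φ : H.edgeSet → H.edgeSet := fun e => ⟨Sym2.map π e.1, hΦe e.1 e.2⟩
        have hΦinj : Function.Injective Φ := fun a b hab =>
          Subtype.ext (Sym2.map.injective hπinj (congrArg Subtype.val hab))
        have hΦ := Finite.surjective_of_injective hΦinj
        have hin : ∀ c : Bool, (if c then j else i) ∈ A := by
          intro c
          obtain ⟨⟨e, he⟩, hee⟩ := hΦ ⟨s(t c false, t c true), hadj c⟩
          have h1 : Sym2.map π e = s(t c false, t c true) := congrArg Subtype.val hee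
          clear hee
          induction e with
          | _ a b =>
            have hab : H.Adj a b := he
            rw [Sym2.map_mk, Sym2.eq_iff] at h1
            have h1' : ∃ β₁ β₂, π a = t c β₁ ∧ π b = t c β₂ := by
              rcases h1 with ⟨h2, h3⟩ | ⟨h2, h3⟩
              · exact ⟨_, _, h2, h3⟩
              · exact ⟨_, _, h2, h3⟩
            obtain ⟨β₁, β₂, ha, hb⟩ := h1'
            rcases hfa a b hab with ⟨j', hj', β, h2, h3⟩ | ⟨i', j', k', hR', w₁, w₂, h, hn, h2, h3⟩
            · rw [hπ a, ha, cemb_t ht] at h2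
              have h4 := Sum.inl_injective h2
              rw [Prod.mk.injEq] at h4
              rw [h4.1]; exact hj'
            · exfalso
              rw [hπ a, ha, cemb_t ht] at h2
              rw [hπ b, hb, cemb_t ht] at h3
              obtain ⟨c₁, h4, _⟩ := cemb_eq_inl ht h2.symm
              obtain ⟨c₂, h5, _⟩ := cemb_eq_inl ht h3.symm
              exact hpriv _ _ h hn ⟨c₁, _, h4⟩ _ _ h5
        exact hA i (hin false) j (hin true) hRij
      · -- a private vertex different from the centre has small degree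
        obtain ⟨D', hD', hwD'⟩ := hcov w hwz
        have h1 : ∀ x ∈ ({z}ᶜ : Set W), ∃ w' ∈ insert z D' \ {w}, f x = cemb t i j k w' := by
          intro x hx
          obtain ⟨_, _, w', h, h2⟩ := hcopy x hx
          refine ⟨w', ⟨?_, h.ne.symm⟩, h2⟩
          rcases hD'.1.2.2.2 w hwD' w' h with h3 | h3
          · exact Or.inr h3
          · exact Or.inl h3
        choose! χ hχ1 hχ2 using h1
        have h2 : ({z}ᶜ : Set W).ncard ≤ (insert z D' \ {w}).ncard := by
          refine Set.ncard_le_ncard_of_injOn χ hχ1 ?_ (Set.toFinite _)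
          intro a ha b hb hab
          exact hf (by rw [hχ2 a ha, hχ2 b hb, hab])
        have h3 : (insert z D' \ {w}).ncard < (insert z D').ncard :=
          Set.ncard_sdiff_singleton_lt_of_mem (Or.inr hwD') (Set.toFinite _)
        have h4 : (insert z D').ncard = D'.ncard + 1 :=
          Set.ncard_insert_of_notMem hD'.1.2.1 (Set.toFinite _)
        have h5 : (D false ∪ D true).ncard ≤ ({z}ᶜ : Set W).ncard := by
          refine Set.ncard_le_ncard ?_ (Set.toFinite _)
          rintro x (hx | hx) hxz
          · exact (hD false).1.2.1 (hxz ▸ hx)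
          · exact (hD true).1.2.1 (hxz ▸ hx)
        have h6 : Disjoint (D false) (D true) := by
          rw [Set.disjoint_left]
          intro x hx hx'
          exact absurd (hdis _ _ x hx hx') (by simp)
        rw [Set.ncard_union_eq h6 (Set.toFinite _) (Set.toFinite _)] at h5
        have h7 := (hD false).ncard_eq hD'
        have h8 := (hD true).ncard_eq hD'
        have h9 : 0 < D'.ncard := (Set.ncard_pos (Set.toFinite _)).2 hD'.1.1
        omega
    | inl p =>
      obtain ⟨j₀, β₀⟩ := p
      obtain ⟨c', hc'⟩ : ∃ c', ∀ x ∈ D c', f x ≠ .inl (j₀, !β₀) := by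
        by_contra hcon
        push Not at hcon
        obtain ⟨x, hx, hfx⟩ := hcon false
        obtain ⟨y, hy, hfy⟩ := hcon true
        have hxy : x = y := hf (hfx.trans hfy.symm)
        exact absurd (hdis _ _ x hx (hxy ▸ hy)) (by simp)
      have himg : ∀ x ∈ D c', ∃ i j k c w, R i j ∧ (j₀ = if c then j else i) ∧
          H.Adj (t c β₀) w ∧ (∀ c β, w ≠ t c β) ∧ f x = .inr (i, j, k, w) := by
        intro x hx
        have hxz : x ≠ z := fun h => (hD c').1.2.1 (h ▸ hx)
        rcases hfa z x (hz x hxz) with ⟨j', _, β, h1, h2⟩ | ⟨i, j, k, hRij, w₁, w, h, hn, h1, h2⟩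
        · rw [hfz] at h1
          have h3 := Sum.inl_injective h1
          rw [Prod.mk.injEq] at h3
          obtain ⟨rfl, rfl⟩ := h3
          exact absurd h2 (hc' x hx)
        · rw [hfz] at h1
          obtain ⟨c, h3, h4⟩ := cemb_eq_inl ht h1.symm
          have h5 : ∀ c β, w ≠ t c β := hpriv _ _ h hn ⟨c, _, h3⟩
          exact ⟨i, j, k, c, w, hRij, h4, h3 ▸ h, h5, by rw [h2, cemb_ne _ _ _ h5]⟩
      obtain ⟨x₀, hx₀⟩ := (hD c').1.1
      obtain ⟨i, j, k, c, w₀, hRij, hj₀, _, _, hfx₀⟩ := himg x₀ hx₀
      have hall : {x | x ∈ D c' ∧ ∃ w, f x = .inr (i, j, k, w)} = D c' := by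
        refine (hD c').conn (fun x hx => hx.1) ⟨x₀, hx₀, w₀, hfx₀⟩ ?_
        rintro a ⟨ha, w, hfa₁⟩ b hb hab
        refine ⟨hb, ?_⟩
        obtain ⟨i', j', k', c'', w', _, _, _, _, hfb⟩ := himg b hb
        rcases hfa a b hab with ⟨j', _, β, h1, h2⟩ | ⟨i₁, j₁, k₁, _, w₁, w₂, _, _, h1, h2⟩
        · rw [hfa₁] at h1; exact absurd h1 (by simp)
        · rw [hfa₁] at h1
          rw [hfb] at h2
          have h3 := (cemb_eq_inr ht h1.symm).2
          have h4 := (cemb_eq_inr ht h2.symm).2
          rw [Prod.mk.injEq, Prod.mk.injEq, Prod.mk.injEq] at h3 h4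
          refine ⟨w', ?_⟩
          rw [hfb, h4.1, h4.2.1, h4.2.2.1, ← h3.1, ← h3.2.1, ← h3.2.2.1]
      have hχ : ∀ x ∈ D c', ∃ w ∈ insert z (D c) \ {t c false, t c true},
          f x = .inr (i, j, k, w) := by
        intro x hx
        have h1 : x ∈ {x | x ∈ D c' ∧ ∃ w, f x = .inr (i, j, k, w)} := by rw [hall]; exact hx
        obtain ⟨_, w, hw⟩ := h1
        obtain ⟨i', j', k', c'', w', hR', hj', hadj', hnt, hfx⟩ := himg x hx
        rw [hw] at hfx
        have h2 := Sum.inr_injective hfx
        rw [Prod.mk.injEq, Prod.mk.injEq, Prod.mk.injEq] at h2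
        obtain ⟨rfl, rfl, rfl, rfl⟩ := h2
        have hcc : c = c'' := ite_bool_inj (hR _ _ hRij) (hj₀.symm.trans hj')
        subst hcc
        refine ⟨w, ⟨?_, ?_⟩, hw⟩
        · rcases (hD c).1.2.2.2 _ (htD c β₀) w hadj' with h | h
          · exact Or.inr h
          · exact Or.inl h
        · rintro (h | h)
          · exact hnt _ _ h
          · exact hnt _ _ h
      have hW : Nonempty W := ⟨z⟩
      choose! χ hχ1 hχ2 using hχ
      have h1 : (D c').ncard ≤ (insert z (D c) \ {t c false, t c true}).ncard := by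
        refine Set.ncard_le_ncard_of_injOn χ hχ1 ?_ (Set.toFinite _)
        intro a ha b hb hab
        exact hf (by rw [hχ2 a ha, hχ2 b hb, hab])
      have h2 : (insert z (D c) \ {t c false, t c true}).ncard +
          ({t c false, t c true} : Set W).ncard = (insert z (D c)).ncard := by
        refine Set.ncard_sdiff_add_ncard_of_subset ?_ (Set.toFinite _)
        rintro x (rfl | rfl)
        · exact Or.inr (htD _ _)
        · exact Or.inr (htD _ _)
      rw [Set.ncard_pair (hadj c).ne, Set.ncard_insert_of_notMem (hD c).1.2.1 (Set.toFinite _)] at h2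
      have h3 := (hD c').ncard_eq (hD c)
      omega
  · intro J K i j k hij
    rw [not_hFree_iff]
    refine ⟨cemb t i j k, fun a b hab => cemb_inj ht hij hab, fun a b hab => ?_⟩
    by_cases h : ∃ c, s(a, b) = s(t c false, t c true)
    · obtain ⟨c, hcc⟩ := h
      left
      have h1 : s(cemb t i j k a, cemb t i j k b) = citem W J K (if c then j else i) := by
        have h2 : Sym2.map (cemb t i j k) s(a, b) = Sym2.map (cemb t i j k) s(t c false, t c true) :=
          congrArg _ hcc
        rw [Sym2.map_mk, Sym2.map_mk, cemb_t ht, cemb_t ht] at h2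
        exact h2
      rw [h1]
      cases c
      · exact Or.inl rfl
      · exact Or.inr rfl
    · push Not at h
      exact Or.inr ⟨a, b, hab, h, rfl⟩

end Pool.Agent.StrongMax
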