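import Pool.Agent.Lib.StrongMax.GHost

/-!
# Copies in the apex host at a vertex of degree two (helper18)
-/

namespace Pool.Agent.StrongMax

universe u v

section Copy

variable {J : Type u} {W : Type v} {R : J → J → Prop} {H : SimpleGraph W} {z x y : W}

/-- The piece `k` is used. -/
def Used (f : W → GV J W) (k : J × J) : Prop := ∃ a t, f a = .p k.1 k.2 t

/-- The bridge property: small sets of oriented conflicts form forests. -/
def Bridge (R : J → J → Prop) (N : ℕ) : Prop :=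
  ∀ E : Finset (J × J), E.card ≤ N → (∀ k ∈ E, R k.1 k.2) → ∀ k ∈ E,
    ∃ Q : Set J, k.1 ∈ Q ∧ k.2 ∉ Q ∧ ∀ l ∈ E, l ≠ k → (l.1 ∈ Q ↔ l.2 ∈ Q)

/-- A copy of `H` in the host. -/
structure Copy (R : J → J → Prop) (H : SimpleGraph W) (z x y : W) (f : W → GV J W) : Prop where
  hR : Oriented R
  h2 : Conn2 H
  hcard : ∃ r b c : W, r ≠ b ∧ r ≠ c ∧ b ≠ c
  two : Two H z x y
  hxy : ¬ H.Adj x y
  inj : Function.Injective f
  adj : ∀ a b, H.Adj a b → (ghost R H z x y).Adj (f a) (f b)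
  bridge : Bridge R (Nat.card W)

namespace Copy

variable {f : W → GV J W} (C : Copy R H z x y f)

include C

theorem priv {a : W} {i j : J} {t : W} (h : f a = .p i j t) :
    R i j ∧ t ≠ z ∧ t ≠ x ∧ t ≠ y ∧ f a = gpsi z x y i j t := by
  obtain ⟨b, -, hb, -, -⟩ := C.h2.two_nbrs C.hcard a
  have h1 := C.adj a b hb
  rw [h] at h1
  obtain ⟨h2, h3, h4, h5, -⟩ := ghost_adj_p h1
  exact ⟨h2, h3, h4, h5, h.trans (gpsi_p h3 h4 h5 i j).symm⟩

theorem rel {k : J × J} (h : Used f k) : R k.1 k.2 := by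
  obtain ⟨a, t, h⟩ := h
  exact (C.priv h).1

omit C in
theorem exists_inj (f : W → GV J W) : ∃ g : {k : J × J // Used f k} → W, Function.Injective g := by
  have h1 : ∀ k : {k : J × J // Used f k}, ∃ a, ∃ t, f a = .p k.1.1 k.1.2 t := fun k => k.2
  choose g hg using h1
  refine ⟨g, ?_⟩
  intro k l h
  obtain ⟨t, ht⟩ := hg k
  obtain ⟨t', ht'⟩ := hg l
  rw [h, ht'] at ht
  injection ht with h1 h2
  exact Subtype.ext (Prod.ext h1.symm h2.symm)

theorem exists_side [Finite W] {k : J × J} (hk : Used f k) :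
    ∃ Q : Set J, k.1 ∈ Q ∧ k.2 ∉ Q ∧ ∀ l, Used f l → l ≠ k → (l.1 ∈ Q ↔ l.2 ∈ Q) := by
  classical
  obtain ⟨g, hg⟩ := exists_inj f
  have hfin : {k : J × J | Used f k}.Finite := Finite.of_injective g hg
  have hcard : hfin.toFinset.card ≤ Nat.card W := by
    have h2 := Nat.card_le_card_of_injective g hg
    have h3 : hfin.toFinset.card = Nat.card {k : J × J // Used f k} := by
      rw [← Set.ncard_eq_toFinset_card _ hfin]
      rfl
    omega
  obtain ⟨Q, h1, h2, h3⟩ := C.bridge hfin.toFinset hcard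
    (fun k hk => C.rel (hfin.mem_toFinset.1 hk)) k (hfin.mem_toFinset.2 hk)
  exact ⟨Q, h1, h2, fun l hl => h3 l (hfin.mem_toFinset.2 hl)⟩

/-- The indices on the side of the first end of `k`. -/
noncomputable def side [Finite W] {k : J × J} (hk : Used f k) : Set J := (C.exists_side hk).choose

theorem side_fst [Finite W] {k : J × J} (hk : Used f k) : k.1 ∈ C.side hk :=
  (C.exists_side hk).choose_spec.1

theorem side_snd [Finite W] {k : J × J} (hk : Used f k) : k.2 ∉ C.side hk :=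
  (C.exists_side hk).choose_spec.2.1

theorem side_iff [Finite W] {k l : J × J} (hk : Used f k) (hl : Used f l) (hkl : l ≠ k) :
    l.1 ∈ C.side hk ↔ l.2 ∈ C.side hk :=
  (C.exists_side hk).choose_spec.2.2 l hl hkl

/-- The vertices on the side of the first terminal. -/
def Aset [Finite W] {k : J × J} (hk : Used f k) : Set W :=
  {a | (∃ i, f a = .w i ∧ i ∈ C.side hk) ∨ (∃ i j t, f a = .p i j t ∧ (i, j) ≠ k ∧ i ∈ C.side hk)}

/-- The position of a vertex of another piece. -/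
theorem mem_Aset [Finite W] {k l : J × J} (hk : Used f k) (hl : Used f l) (hkl : l ≠ k) {a t : W}
    (h : f a = gpsi z x y l.1 l.2 t) (hu : f a ≠ .u) : a ∈ C.Aset hk ↔ l.1 ∈ C.side hk := by
  rcases h' : gpsi z x y l.1 l.2 t with _ | m | ⟨m, n, s⟩
  · exact absurd (h.trans h') hu
  · have h1 : f a = .w m := h.trans h'
    have h2 : m ∈ C.side hk ↔ l.1 ∈ C.side hk := by
      rcases gpsi_eq_w h' with ⟨-, h2⟩ | ⟨-, h2⟩
      · rw [h2]
      · rw [h2]; exact (C.side_iff hk hl hkl).symm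
    rw [← h2]
    constructor
    · rintro (⟨i, h3, h4⟩ | ⟨i, j, t, h3, -⟩)
      · rw [h1] at h3
        injection h3 with h3
        exact h3 ▸ h4
      · rw [h1] at h3
        injection h3
    · exact fun h => Or.inl ⟨m, h1, h⟩
  · have h1 : f a = .p m n s := h.trans h'
    obtain ⟨h2, h3, h4, -⟩ := gpsi_eq_p h'
    rw [h2]
    constructor
    · rintro (⟨i, h3, h4⟩ | ⟨i, j, t, h3, -, h4⟩)
      · rw [h1] at h3
        injection h3
      · rw [h1] at h3
        injection h3 with h3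
        exact h3 ▸ h4
    · refine fun h => Or.inr ⟨m, n, s, h1, fun h5 => hkl ?_, h⟩
      rw [← h5, ← h2, ← h3]

/-- Edges not at the apex lie in used pieces. -/
theorem edge {a b : W} (hab : H.Adj a b) (ha : f a ≠ .u) (hb : f b ≠ .u) :
    ∃ k : J × J, Used f k ∧ ∃ s t, f a = gpsi z x y k.1 k.2 s ∧ f b = gpsi z x y k.1 k.2 t ∧
      (f a = .p k.1 k.2 s ∨ f b = .p k.1 k.2 t) := by
  obtain ⟨i, j, s, t, hij, hst, h1, h2, h3⟩ := ghost_adj C.hxy (C.adj a b hab) ha hb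
  refine ⟨(i, j), ?_, s, t, h1, h2, h3⟩
  rcases h3 with h3 | h3
  · exact ⟨a, s, h3⟩
  · exact ⟨b, t, h3⟩

theorem A_edge [Finite W] {k : J × J} (hk : Used f k) {a b : W} (ha : a ∈ C.Aset hk)
    (hb : b ∉ C.Aset hk) (hbu : f b ≠ .u) (hab : H.Adj a b) :
    f a = .w k.1 ∧ ∃ t, f b = .p k.1 k.2 t := by
  have hau : f a ≠ .u := by
    rintro h
    rcases ha with ⟨i, h1, -⟩ | ⟨i, j, t, h1, -⟩
    · rw [h] at h1; injection h1
    · rw [h] at h1; injection h1
  obtain ⟨l, hl, s, t, h1, h2, h3⟩ := C.edge hab hau hbu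
  by_cases hlk : l = k
  · subst hlk
    have hfa : f a = .w l.1 := by
      rcases ha with ⟨i, h4, h5⟩ | ⟨i, j, t', h4, h5, -⟩
      · rw [h4] at h1
        rcases gpsi_eq_w h1.symm with ⟨-, h6⟩ | ⟨-, h6⟩
        · rw [h4, h6]
        · exact absurd (h6 ▸ h5) (C.side_snd hl)
      · rw [h4] at h1
        obtain ⟨h6, h7, -⟩ := gpsi_eq_p h1.symm
        exact absurd (by rw [← h6, ← h7]) h5
    refine ⟨hfa, t, ?_⟩
    rcases h3 with h3 | h3
    · rw [hfa] at h3; injection h3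
    · exact h3
  · exact absurd ((C.mem_Aset hk hl hlk h2 hbu).2 ((C.mem_Aset hk hl hlk h1 hau).1 ha)) hb

theorem notMem_Aset [Finite W] {k : J × J} (hk : Used f k) {a t : W} (h : f a = .p k.1 k.2 t) :
    a ∉ C.Aset hk := by
  rintro (⟨i, h1, -⟩ | ⟨i, j, s, h1, h2, -⟩)
  · rw [h] at h1; injection h1
  · rw [h] at h1
    injection h1 with h3 h4
    exact h2 (by rw [← h3, ← h4])

theorem exists_avoid (a b : W) (w : GV J W) (ha : f a ≠ w) (hb : f b ≠ w) :
    ∃ q, a ≠ q ∧ b ≠ q ∧ ∀ a, f a = w → a = q := by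
  by_cases h : ∃ q, f q = w
  · obtain ⟨q, hq⟩ := h
    exact ⟨q, by rintro rfl; exact ha hq, by rintro rfl; exact hb hq,
      fun a h => C.inj (h.trans hq.symm)⟩
  · push Not at h
    obtain ⟨r, s, t, hrs, hrt, hst⟩ := C.hcard
    by_cases h1 : a ≠ r ∧ b ≠ r
    · exact ⟨r, h1.1, h1.2, fun a h' => absurd h' (h a)⟩
    by_cases h2 : a ≠ s ∧ b ≠ s
    · exact ⟨s, h2.1, h2.2, fun a h' => absurd h' (h a)⟩
    refine ⟨t, ?_, ?_, fun a h' => absurd h' (h a)⟩
    · rintro rfl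
      exact h1 ⟨hrt.symm, fun h3 => h2 ⟨hst.symm, fun h4 => hrs (h3.symm.trans h4)⟩⟩
    · rintro rfl
      exact h1 ⟨fun h3 => h2 ⟨fun h4 => hrs (h3.symm.trans h4), hst.symm⟩, hrt.symm⟩

/-- The apex is used. -/
theorem exists_apex [Finite W] {k : J × J} (hk : Used f k) : ∃ v, f v = .u := by
  by_contra hcon
  push Not at hcon
  obtain ⟨x₀, t₀, h₀⟩ := id hk
  by_cases hall : ∀ a, ∃ t, f a = gpsi z x y k.1 k.2 t
  · choose σ hσ using hall
    have hinj : Function.Injective σ := fun a b h => C.inj (by rw [hσ, hσ, h])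
    obtain ⟨a, ha⟩ := Finite.surjective_of_injective hinj z
    exact hcon a (by rw [hσ, ha, gpsi_r])
  push Not at hall
  obtain ⟨y₀, hy₀⟩ := hall
  have hx₀w : ∀ i, f x₀ ≠ .w i := by
    intro i h
    rw [h₀] at h; injection h
  have hw₁ : (GV.w k.1 : GV J W) = gpsi z x y k.1 k.2 x := (gpsi_b C.two.adj_left.ne _ _).symm
  have hw₂ : (GV.w k.2 : GV J W) = gpsi z x y k.1 k.2 y :=
    (gpsi_c C.two.adj_right.ne C.two.ne _ _).symm
  by_cases hy : y₀ ∈ C.Aset hk
  · obtain ⟨q, hq1, hq2, hq3⟩ := C.exists_avoid y₀ x₀ (.w k.1) (fun h => hy₀ x (h.trans hw₁))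
      (hx₀w k.1)
    obtain ⟨a, ha, b, hb, h1, h2, h3⟩ := C.h2 (C.Aset hk) q ⟨y₀, hy, hq1⟩ ⟨x₀, C.notMem_Aset hk h₀, hq2⟩
    exact h1 (hq3 a (C.A_edge hk ha hb (hcon b) h3).1)
  · obtain ⟨q, hq1, hq2, hq3⟩ := C.exists_avoid y₀ x₀ (.w k.2) (fun h => hy₀ y (h.trans hw₂))
      (hx₀w k.2)
    obtain ⟨a, ha, b, hb, h1, h2, h3⟩ := C.h2 {a | a ∉ C.Aset hk ∧ ∀ t, f a ≠ .p k.1 k.2 t} q
      ⟨y₀, ⟨hy, fun t h => hy₀ t (C.priv h).2.2.2.2.symm.symm⟩, hq1⟩ ⟨x₀, fun h => h.2 t₀ h₀, hq2⟩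
    by_cases hbA : b ∈ C.Aset hk
    · obtain ⟨-, t, h4⟩ := C.A_edge hk hbA ha.1 (hcon a) h3.symm
      exact ha.2 t h4
    · have h4 : ∃ t, f b = .p k.1 k.2 t := by
        by_contra h4
        push Not at h4
        exact hb ⟨hbA, h4⟩
      obtain ⟨t, h4⟩ := h4
      have h5 := C.adj b a h3.symm
      rw [h4] at h5
      obtain ⟨-, -, -, -, s, -, h6⟩ := ghost_adj_p h5
      rcases h7 : gpsi z x y k.1 k.2 s with _ | m | ⟨m, n, s'⟩
      · exact hcon a (h6.trans h7)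
      · rcases gpsi_eq_w h7 with ⟨-, h8⟩ | ⟨-, h8⟩
        · exact ha.1 (Or.inl ⟨m, h6.trans h7, h8 ▸ C.side_fst hk⟩)
        · exact h1 (hq3 a (by rw [h6, h7, h8]))
      · obtain ⟨h8, h9, -⟩ := gpsi_eq_p h7
        exact ha.2 s' (by rw [h6, h7, h8, h9])

/-- Both ends of a used piece are used. -/
theorem exists_w {k : J × J} (hk : Used f k) {v : W} (hv : f v = .u) {m m' : J}
    (hm : ∀ i, i = k.1 ∨ i = k.2 → i = m ∨ i = m') : ∃ a, f a = .w m := by
  by_contra hcon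
  push Not at hcon
  obtain ⟨x₀, t₀, h₀⟩ := id hk
  obtain ⟨q, hq1, hq2, hq3⟩ := C.exists_avoid x₀ v (.w m') (by rw [h₀]; intro h; injection h)
    (by rw [hv]; intro h; injection h)
  obtain ⟨a, ⟨t, ha⟩, b, hb, h1, h2, h3⟩ := C.h2 {a | ∃ t, f a = .p k.1 k.2 t} q
    ⟨x₀, ⟨t₀, h₀⟩, hq1⟩ ⟨v, fun ⟨t, h⟩ => by rw [hv] at h; injection h, hq2⟩
  have h4 := C.adj a b h3
  rw [ha] at h4
  obtain ⟨-, -, htx, hty, s, hts, h5⟩ := ghost_adj_p h4
  rcases h6 : gpsi z x y k.1 k.2 s with _ | n | ⟨n, n', s'⟩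
  · have h7 := gpsi_eq_u h6
    rw [h7] at hts
    rcases (C.two.iff t).1 hts.symm with h8 | h8
    · exact htx h8
    · exact hty h8
  · have h7 : n = k.1 ∨ n = k.2 := by
      rcases gpsi_eq_w h6 with ⟨-, h⟩ | ⟨-, h⟩
      · exact Or.inl h
      · exact Or.inr h
    rcases hm n h7 with h8 | h8
    · exact hcon b (by rw [h5, h6, h8])
    · exact h2 (hq3 b (by rw [h5, h6, h8]))
  · obtain ⟨h8, h9, -⟩ := gpsi_eq_p h6
    exact hb ⟨s', by rw [h5, h6, h8, h9]⟩

theorem exists_w₁ {k : J × J} (hk : Used f k) {v : W} (hv : f v = .u) : ∃ a, f a = .w k.1 :=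
  C.exists_w hk hv (m := k.1) (m' := k.2) (fun _ h => h)

theorem exists_w₂ {k : J × J} (hk : Used f k) {v : W} (hv : f v = .u) : ∃ a, f a = .w k.2 :=
  C.exists_w hk hv (m := k.2) (m' := k.1) (fun _ h => h.symm)

open Classical in
omit C in
/-- The embedding of a part. -/
noncomputable def thet (z x y : W) (f : W → GV J W) (k : J × J) (a : W) : W :=
  if h : ∃ t, f a = gpsi z x y k.1 k.2 t then h.choose else a

theorem thet_eq {k : J × J} (hk : Used f k) {a t : W} (h : f a = gpsi z x y k.1 k.2 t) :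
    thet z x y f k a = t := by
  have h' : ∃ t, f a = gpsi z x y k.1 k.2 t := ⟨t, h⟩
  unfold thet
  rw [dif_pos h']
  exact gpsi_injective (C.hR.ne (C.rel hk)) (h'.choose_spec.symm.trans h)

/-- The first terminal. -/
noncomputable def t₁ {v : W} (hv : f v = .u) (k : {k : J × J // Used f k}) : W :=
  (C.exists_w₁ k.2 hv).choose

/-- The second terminal. -/
noncomputable def t₂ {v : W} (hv : f v = .u) (k : {k : J × J // Used f k}) : W :=
  (C.exists_w₂ k.2 hv).choose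

theorem t₁_spec {v : W} (hv : f v = .u) (k : {k : J × J // Used f k}) :
    f (C.t₁ hv k) = .w k.1.1 := (C.exists_w₁ k.2 hv).choose_spec

theorem t₂_spec {v : W} (hv : f v = .u) (k : {k : J × J // Used f k}) :
    f (C.t₂ hv k) = .w k.1.2 := (C.exists_w₂ k.2 hv).choose_spec

/-- The decomposition belonging to a copy. -/
noncomputable def dec [Finite W] {v : W} (hv : f v = .u) :
    Dec H z x y v {k : J × J // Used f k} := by
  have hva : ∀ a, a ≠ v → f a ≠ .u := fun a h h' => h (C.inj (h'.trans hv.symm))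
  have hzx := C.two.adj_left.ne
  have hzy := C.two.adj_right.ne
  have hA₁ := C.t₁_spec hv
  have hA₂ := C.t₂_spec hv
  have hP : ∀ (k : {k : J × J // Used f k}) (w : W), w ≠ v →
      (∃ t, f w = gpsi z x y k.1.1 k.1.2 t) →
      ((∃ t, f w = .p k.1.1 k.1.2 t) ∨ w = C.t₁ hv k ∨ w = C.t₂ hv k) := by
    rintro k w hw ⟨t, ht⟩
    rcases h : gpsi z x y k.1.1 k.1.2 t with _ | m | ⟨m, n, s⟩
    · exact absurd (ht.trans h) (hva w hw)
    · rcases gpsi_eq_w h with ⟨-, h1⟩ | ⟨-, h1⟩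
      · exact Or.inr (Or.inl (C.inj (by rw [hA₁, ht, h, h1])))
      · exact Or.inr (Or.inr (C.inj (by rw [hA₂, ht, h, h1])))
    · obtain ⟨h1, h2, -⟩ := gpsi_eq_p h
      exact Or.inl ⟨s, by rw [ht, h, h1, h2]⟩
  have hP' : ∀ (k : {k : J × J // Used f k}) (w : W),
      ((∃ t, f w = .p k.1.1 k.1.2 t) ∨ w = C.t₁ hv k ∨ w = C.t₂ hv k) →
      ∃ t, f w = gpsi z x y k.1.1 k.1.2 t ∧ t ≠ z := by
    rintro k w (⟨t, ht⟩ | rfl | rfl)
    · obtain ⟨-, h1, -, -, h2⟩ := C.priv ht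
      exact ⟨t, h2, h1⟩
    · exact ⟨x, by rw [hA₁, gpsi_b hzx], hzx.symm⟩
    · exact ⟨y, by rw [hA₂, gpsi_c hzy C.two.ne], hzy.symm⟩
  have hA₁v : ∀ k, C.t₁ hv k ≠ v := fun k h => by
    have := hA₁ k
    rw [h, hv] at this; injection this
  have hA₂v : ∀ k, C.t₂ hv k ≠ v := fun k h => by
    have := hA₂ k
    rw [h, hv] at this; injection this
  exact
  { I := fun k => {w | ∃ t, f w = .p k.1.1 k.1.2 t}
    P := fun k => {w | (∃ t, f w = .p k.1.1 k.1.2 t) ∨ w = C.t₁ hv k ∨ w = C.t₂ hv k}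
    a := C.t₁ hv
    b := C.t₂ hv
    θ := fun k => thet z x y f k.1
    A := fun k => C.Aset k.2
    mem_P := fun k w => Iff.rfl
    I_ne := fun k => k.2
    I_v := fun k ⟨t, h⟩ => by rw [hv] at h; injection h
    a_v := hA₁v
    b_v := hA₂v
    ab := fun k h => by
      have h1 := hA₁ k
      rw [h, hA₂] at h1
      injection h1 with h2
      exact C.hR.ne (C.rel k.2) h2.symm
    a_I := fun k l ⟨t, h⟩ => by rw [hA₁] at h; injection h
    b_I := fun k l ⟨t, h⟩ => by rw [hA₂] at h; injection h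
    I_disj := fun k l w ⟨t, h⟩ ⟨t', h'⟩ => by
      rw [h] at h'
      injection h' with h1 h2
      exact Subtype.ext (Prod.ext h1 h2)
    edge := fun w w' hadj hw hw' => by
      obtain ⟨k, hk, s, t, h1, h2, -⟩ := C.edge hadj (hva w hw) (hva w' hw')
      exact ⟨⟨k, hk⟩, hP ⟨k, hk⟩ w hw ⟨s, h1⟩, hP ⟨k, hk⟩ w' hw' ⟨t, h2⟩⟩
    I_adj := fun k w w' ⟨t, ht⟩ hadj => by
      have h1 := C.adj w w' hadj
      rw [ht] at h1
      obtain ⟨-, -, htx, hty, s, hts, h2⟩ := ghost_adj_p h1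
      refine hP k w' ?_ ⟨s, h2⟩
      rintro rfl
      rw [hv] at h2
      rw [gpsi_eq_u h2.symm] at hts
      rcases (C.two.iff t).1 hts.symm with h3 | h3
      · exact htx h3
      · exact hty h3
    v_adj := fun w hadj => by
      have h1 := C.adj v w hadj
      rw [hv] at h1
      obtain ⟨i, hi⟩ := ghost_adj_u C.two h1
      obtain ⟨w', hw', hne⟩ := C.h2.exists_adj C.hcard w v hadj.ne
      obtain ⟨k, hk, s, t, h2, -, -⟩ := C.edge hw' (hva w hadj.ne.symm) (hva w' hne)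
      refine ⟨⟨k, hk⟩, ?_⟩
      rcases hP ⟨k, hk⟩ w hadj.ne.symm ⟨s, h2⟩ with ⟨t', h3⟩ | h3
      · rw [hi] at h3; injection h3
      · exact h3
    θa := fun k => C.thet_eq k.2 (by rw [hA₁, gpsi_b hzx])
    θb := fun k => C.thet_eq k.2 (by rw [hA₂, gpsi_c hzy C.two.ne])
    θ_inj := fun k w hw w' hw' h => by
      obtain ⟨t, ht, -⟩ := hP' k w hw
      obtain ⟨t', ht', -⟩ := hP' k w' hw'
      have h : thet z x y f k.1 w = thet z x y f k.1 w' := h
      rw [C.thet_eq k.2 ht, C.thet_eq k.2 ht'] at h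
      exact C.inj (by rw [ht, ht', h])
    θ_adj := fun k w w' hw hw' hadj => by
      obtain ⟨t, ht, -⟩ := hP' k w hw
      obtain ⟨t', ht', -⟩ := hP' k w' hw'
      rw [C.thet_eq k.2 ht, C.thet_eq k.2 ht']
      have h1 := C.adj w w' hadj
      rw [ht, ht'] at h1
      exact (gpsi_adj_iff C.hR C.two.adj_left C.two.adj_right (C.rel k.2)).1 h1
    θ_z := fun k w hw => by
      obtain ⟨t, ht, htz⟩ := hP' k w hw
      rw [C.thet_eq k.2 ht]
      exact htz
    A_a := fun k => Or.inl ⟨k.1.1, hA₁ k, C.side_fst k.2⟩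
    A_b := fun k => by
      rintro (⟨i, h1, h2⟩ | ⟨i, j, t, h1, -⟩)
      · rw [hA₂] at h1
        injection h1 with h1
        exact C.side_snd k.2 (h1 ▸ h2)
      · rw [hA₂] at h1; injection h1
    A_v := fun k => by
      rintro (⟨i, h1, -⟩ | ⟨i, j, t, h1, -⟩)
      · rw [hv] at h1; injection h1
      · rw [hv] at h1; injection h1
    A_I := fun k w hw ⟨t, ht⟩ => C.notMem_Aset k.2 ht hw
    A_edge := fun k w w' hw hw' hv' hadj => by
      obtain ⟨h1, h2⟩ := C.A_edge k.2 hw hw' (hva w' hv') hadj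
      exact ⟨C.inj (h1.trans (hA₁ k).symm), h2⟩
    A_other := fun k l hlk => by
      have hne : l.1 ≠ k.1 := fun h => hlk (Subtype.ext h)
      have h1 : ∀ w, ((∃ t, f w = .p l.1.1 l.1.2 t) ∨ w = C.t₁ hv l ∨ w = C.t₂ hv l) →
          (w ∈ C.Aset k.2 ↔ l.1.1 ∈ C.side k.2) := by
        intro w hw
        obtain ⟨t, ht, htz⟩ := hP' l w hw
        refine C.mem_Aset k.2 l.2 hne ht ?_
        intro h
        exact htz (gpsi_eq_u (ht.symm.trans h))
      by_cases h2 : l.1.1 ∈ C.side k.2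
      · left
        intro w hw
        exact (h1 w hw).2 h2
      · right
        rw [Set.disjoint_left]
        intro w hw hw'
        exact h2 ((h1 w hw).1 hw') }

theorem dec_a [Finite W] {v : W} (hv : f v = .u) (k : {k : J × J // Used f k}) :
    (C.dec hv).a k = C.t₁ hv k := rfl

theorem dec_b [Finite W] {v : W} (hv : f v = .u) (k : {k : J × J // Used f k}) :
    (C.dec hv).b k = C.t₂ hv k := rfl

/-- A copy which uses a private vertex of a piece but does not contain both spokes of it gives a bad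
decomposition. -/
theorem exists_bad [Finite W] {i j : J} (hk : Used f (i, j))
    (hbad : ¬ ((∃ a b, H.Adj a b ∧ f a = .u ∧ f b = .w i) ∧ (∃ a b, H.Adj a b ∧ f a = .u ∧ f b = .w j))) :
    ∃ v, ∃ D : Dec H z x y v {k : J × J // Used f k}, ∃ k, D.Inner k := by
  obtain ⟨v, hv⟩ := C.exists_apex hk
  refine ⟨v, C.dec hv, ⟨(i, j), hk⟩, fun h => hbad ⟨?_, ?_⟩⟩
  · exact ⟨v, _, h.1, hv, C.t₁_spec hv _⟩
  · exact ⟨v, _, h.2, hv, C.t₂_spec hv _⟩

end Copy

end Copy

end Pool.Agent.StrongMax
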