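import Pool.Agent.Lib.StrongMax.Degree

/-!
# The core lemma (helper42)

If `H[S]` fails and every copy of `H` in a host with private copies of `H - S` attached along all
injective maps `S → V₀` has its `S`-part in the old host, then `H` fails.
-/

namespace Pool.Agent.StrongMax

open Cardinal

section Core

variable {W : Type} {H : SimpleGraph W}

/-- `f` is a copy of `H` in the old host `V₀` (a complete graph) with private copies of `H - S`
attached along all injective maps `S → V₀`. -/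
structure CoreCopy (H : SimpleGraph W) (S : Set W) {V₀ K : Type}
    (f : W → V₀ ⊕ ((S → V₀) × K × W)) : Prop where
  inj : Function.Injective f
  adj : ∀ a b, H.Adj a b → (∃ x y, f a = .inl x ∧ f b = .inl y) ∨
    ∃ (φ : S → V₀) (k : K) (w w' : W), Function.Injective φ ∧ H.Adj w w' ∧
      f a = remb S φ k w ∧ f b = remb S φ k w'

theorem CoreCopy.nbr {S : Set W} {V₀ K : Type} {f : W → V₀ ⊕ ((S → V₀) × K × W)}
    (hf : CoreCopy H S f) {a b : W} (hab : H.Adj a b) {φ : S → V₀} {k : K} {x : W}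
    (hx : f a = .inr (φ, k, x)) : ∃ x', H.Adj x x' ∧ f b = remb S φ k x' := by
  rcases hf.adj a b hab with ⟨y, y', h, -⟩ | ⟨φ', k', w, w', hφ, hww, h1, h2⟩
  · rw [hx] at h
    exact absurd h (by simp)
  · rw [hx] at h1
    obtain ⟨-, h4⟩ := remb_eq_inr h1.symm
    simp only [Prod.mk.injEq] at h4
    obtain ⟨rfl, rfl, rfl⟩ := h4
    exact ⟨w', hww, h2⟩

/-- Private vertices have index outside `S` as soon as the vertex has a neighbour. -/
theorem CoreCopy.notMem {S : Set W} {V₀ K : Type} {f : W → V₀ ⊕ ((S → V₀) × K × W)}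
    (hf : CoreCopy H S f) {a b : W} (hab : H.Adj a b) {φ : S → V₀} {k : K} {x : W}
    (hx : f a = .inr (φ, k, x)) : x ∉ S := by
  rcases hf.adj a b hab with ⟨y, y', h, -⟩ | ⟨φ', k', w, w', hφ, hww, h1, h2⟩
  · rw [hx] at h
    exact absurd h (by simp)
  · rw [hx] at h1
    obtain ⟨h3, h4⟩ := remb_eq_inr h1.symm
    simp only [Prod.mk.injEq] at h4
    obtain ⟨rfl, rfl, rfl⟩ := h4
    exact h3

theorem CoreCopy.inj_of {S : Set W} {V₀ K : Type} {f : W → V₀ ⊕ ((S → V₀) × K × W)}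
    (hf : CoreCopy H S f) {a b : W} (hab : H.Adj a b) {φ : S → V₀} {k : K} {x : W}
    (hx : f a = .inr (φ, k, x)) : Function.Injective φ := by
  rcases hf.adj a b hab with ⟨y, y', h, -⟩ | ⟨φ', k', w, w', hφ, hww, h1, h2⟩
  · rw [hx] at h
    exact absurd h (by simp)
  · rw [hx] at h1
    obtain ⟨h3, h4⟩ := remb_eq_inr h1.symm
    simp only [Prod.mk.injEq] at h4
    obtain ⟨rfl, rfl, rfl⟩ := h4
    exact hφ

/-- The map on neighbours induced at a private vertex is injective, so degrees do not drop. -/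
theorem CoreCopy.ncard_le [Finite W] {S : Set W} {V₀ K : Type}
    {f : W → V₀ ⊕ ((S → V₀) × K × W)} (hf : CoreCopy H S f) {a : W} {φ : S → V₀} {k : K} {x : W}
    (hx : f a = .inr (φ, k, x)) : (H.neighborSet a).ncard ≤ (H.neighborSet x).ncard := by
  classical
  have hW : Nonempty W := ⟨a⟩
  have h5 : ∀ b, H.Adj a b → ∃ x', H.Adj x x' ∧ f b = remb S φ k x' := fun b hb => hf.nbr hb hx
  choose! σ hσ hσ' using h5
  refine Set.ncard_le_ncard_of_injOn σ (fun b hb => hσ b hb) ?_ (Set.toFinite _)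
  intro b hb b' hb' h
  exact hf.inj (by rw [hσ' b hb, hσ' b' hb', h])

/-- **The core lemma.** -/
theorem Fails.of_core [Finite W] (S : Set W) (hA : Fails.{0} (H.induce S))
    (hAe : ∃ a b : S, H.Adj a b)
    (hcore : ∀ (V₀ K : Type) (f : W → V₀ ⊕ ((S → V₀) × K × W)), CoreCopy H S f →
      ∀ a ∈ S, ∃ g, f a = .inl g) : Fails.{0} H := by
  classical
  refine Fails.of_parts (A := H.induce S) hA hAe (fun V₀ K => (S → V₀) × K × W)
    (fun V₀ K k => {e | ∃ (φ : S → V₀) (w w' : W), Function.Injective φ ∧ H.Adj w w' ∧ w ∉ S ∧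
      e = s(remb S φ k w, remb S φ k w')}) ?_ ?_ ?_ ?_ ?_
  · rintro V₀ K k e ⟨φ, w, w', hφ, hww, hw, rfl⟩ a h
    induction a with
    | _ x y =>
      rw [Sym2.map_mk, Sym2.eq_iff] at h
      rcases h with ⟨h1, h2⟩ | ⟨h1, h2⟩
      · exact hw (remb_eq_inl h1.symm)
      · exact hw (remb_eq_inl h2.symm)
  · rintro V₀ K k e ⟨φ, w, w', hφ, hww, hw, rfl⟩ h
    rw [Sym2.mk_isDiag_iff] at h
    rw [remb_notMem φ k hw] at h
    obtain ⟨-, h2⟩ := remb_eq_inr h.symm
    simp only [Prod.mk.injEq, true_and] at h2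
    exact hww.ne h2
  · rintro V₀ K k l e ⟨φ, w, w', hφ, hww, hw, rfl⟩ ⟨φ', x, x', hφ', hxx, hx, h⟩
    rw [remb_notMem φ k hw, Sym2.eq_iff] at h
    rcases h with ⟨h1, h2⟩ | ⟨h1, h2⟩
    · obtain ⟨-, h3⟩ := remb_eq_inr h1.symm
      simp only [Prod.mk.injEq] at h3
      exact h3.2.1
    · obtain ⟨-, h3⟩ := remb_eq_inr h1.symm
      simp only [Prod.mk.injEq] at h3
      exact h3.2.1
  · intro V₀ K I₀ hI₀
    rw [hFree_iff]
    intro f hf hfa
    have hcc : CoreCopy H S f := by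
      refine ⟨hf, fun a b hab => ?_⟩
      rcases hfa a b hab with ⟨e, he, h⟩ | ⟨k, φ, w, w', hφ, hww, hw, h⟩
      · left
        induction e with
        | _ x y =>
          rw [Sym2.map_mk, Sym2.eq_iff] at h
          rcases h with ⟨h1, h2⟩ | ⟨h1, h2⟩
          · exact ⟨x, y, h1.symm, h2.symm⟩
          · exact ⟨y, x, h2.symm, h1.symm⟩
      · right
        rw [Sym2.eq_iff] at h
        rcases h with ⟨h1, h2⟩ | ⟨h1, h2⟩
        · exact ⟨φ, k, w, w', hφ, hww, h1, h2⟩
        · exact ⟨φ, k, w', w, hφ, hww.symm, h1, h2⟩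
    have hS : ∀ a : S, ∃ g : V₀, f a = .inl g := fun a => hcore V₀ K f hcc a a.2
    choose g hg using hS
    rw [hFree_iff] at hI₀
    refine hI₀ g ?_ ?_
    · intro a b h
      exact Subtype.ext (hf (by rw [hg, hg, h]))
    · intro a b hab
      have hab' : H.Adj a b := hab
      rcases hfa a b hab' with ⟨e, he, h⟩ | ⟨k, φ, w, w', hφ, hww, hw, h⟩
      · rw [hg, hg] at h
        have h1 : e = s(g a, g b) := Sym2.map.injective Sum.inl_injective (by rw [h]; rfl)
        exact h1 ▸ he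
      · exfalso
        rw [hg, hg, Sym2.eq_iff] at h
        rcases h with ⟨h1, h2⟩ | ⟨h1, h2⟩
        · exact hw (remb_eq_inl h1.symm)
        · exact hw (remb_eq_inl h2.symm)
  · intro V₀ K F₀ Good hGood hF₀
    rw [not_hFree_iff] at hF₀ ⊢
    obtain ⟨f₀, hf₀, hf₀a⟩ := hF₀
    obtain ⟨k, hk⟩ := hGood.nonempty
    refine ⟨remb S f₀ k, ?_, ?_⟩
    · intro w w' h
      by_cases hw : w ∈ S
      · rw [remb_mem f₀ k hw] at h
        have hw' := remb_eq_inl h.symm
        rw [remb_mem f₀ k hw'] at h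
        exact congrArg Subtype.val (hf₀ (Sum.inl_injective h))
      · rw [remb_notMem f₀ k hw] at h
        have h1 := (remb_eq_inr h.symm).2
        simp only [Prod.mk.injEq, true_and] at h1
        exact h1
    · intro a b hab
      by_cases ha : a ∈ S
      · by_cases hb : b ∈ S
        · left
          exact ⟨s(f₀ ⟨a, ha⟩, f₀ ⟨b, hb⟩), hf₀a ⟨a, ha⟩ ⟨b, hb⟩ hab, by
            rw [remb_mem f₀ k ha, remb_mem f₀ k hb]; rfl⟩
        · right
          exact ⟨k, hk, f₀, b, a, hf₀, hab.symm, hb, Sym2.eq_swap⟩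
      · right
        exact ⟨k, hk, f₀, a, b, hf₀, hab, ha, rfl⟩

end Core

end Pool.Agent.StrongMax
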