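import Pool.Agent.Lib.StrongMax.ThreeConn

/-!
# Cycles fail (helper18)
-/

namespace Pool.Agent.StrongMax

open Cardinal

universe v

/-- The graph has no cut vertex. -/
def Conn2 {W : Type v} (H : SimpleGraph W) : Prop :=
  ∀ (P : Set W) (q : W), (∃ x ∈ P, x ≠ q) → (∃ y ∉ P, y ≠ q) →
    ∃ x ∈ P, ∃ y ∉ P, x ≠ q ∧ y ≠ q ∧ H.Adj x y

section Cycle

variable {W : Type v} {H : SimpleGraph W} {r b c : W}

theorem Conn2.exists_adj (h2 : Conn2 H) (hcard : ∃ r b c : W, r ≠ b ∧ r ≠ c ∧ b ≠ c) (x q : W)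
    (hq : q ≠ x) : ∃ y, H.Adj x y ∧ y ≠ q := by
  obtain ⟨y, hyx, hyq⟩ : ∃ y, y ≠ x ∧ y ≠ q := by
    obtain ⟨r, b, c, hrb, hrc, hbc⟩ := hcard
    by_contra hn
    push Not at hn
    have h1 : ∀ y, y = x ∨ y = q := fun y => by
      by_cases h : y = x
      · exact Or.inl h
      · exact Or.inr (hn y h)
    rcases h1 r with h | h <;> rcases h1 b with h' | h' <;> rcases h1 c with h'' | h'' <;>
      first
      | exact hrb (h.trans h'.symm)
      | exact hrc (h.trans h''.symm)
      | exact hbc (h'.trans h''.symm)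
  obtain ⟨a, ha, a', ha', haq, haq', h⟩ := h2 {x} q ⟨x, rfl, hq.symm⟩ ⟨y, hyx, hyq⟩
  rw [Set.mem_singleton_iff] at ha
  subst ha
  exact ⟨a', h, haq'⟩

theorem Conn2.two_nbrs (h2 : Conn2 H) (hcard : ∃ r b c : W, r ≠ b ∧ r ≠ c ∧ b ≠ c) (x : W) :
    ∃ y y', H.Adj x y ∧ H.Adj x y' ∧ y ≠ y' := by
  obtain ⟨q, hq⟩ : ∃ q, q ≠ x := by
    obtain ⟨r, b, c, hrb, hrc, hbc⟩ := hcard
    by_cases h : r = x
    · exact ⟨b, fun h' => hrb (h.trans h'.symm)⟩
    · exact ⟨r, h⟩
  obtain ⟨y, hy, -⟩ := h2.exists_adj hcard x q hq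
  obtain ⟨y', hy', hne⟩ := h2.exists_adj hcard x y hy.ne.symm
  exact ⟨y', y, hy', hy, hne⟩

theorem cycle_plan [Finite W] (h2 : Conn2 H) (hcard : ∃ r b c : W, r ≠ b ∧ r ≠ c ∧ b ≠ c)
    (hdeg : ∀ x y1 y2 y3, H.Adj x y1 → H.Adj x y2 → H.Adj x y3 → y1 = y2 ∨ y1 = y3 ∨ y2 = y3)
    (hrb : H.Adj r b) (hrc : H.Adj r c) (hbc : b ≠ c) (hbc' : ¬ H.Adj b c)
    {f : W → HV W} (hf : Function.Injective f)
    (hfa : ∀ x y, H.Adj x y → (apexHost H r b c).Adj (f x) (f y)) :
    ∃ i j, Idx.Rel i j ∧ ∀ x, ∃ y, f x = psi r b c i j y := by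
  by_contra hcon
  push Not at hcon
  have hno : ∀ x k l z, Idx.Rel k l → f x = psi r b c k l z → f x = .p k l z → False := by
    intro x i j z hij hx hx'
    have hz : z ≠ r ∧ z ≠ b ∧ z ≠ c := (psi_eq_p (hx.symm.trans hx')).2.2.2
    -- the neighbours of a used private vertex are used
    have hnb : ∀ z, z ≠ r → z ≠ b → z ≠ c → (∃ x, f x = psi r b c i j z) → ∀ z', H.Adj z z' →
        ∃ x, f x = psi r b c i j z' := by
      rintro z hzr hzb hzc ⟨x, hx⟩ z' hzz'
      obtain ⟨y1, y2, hy1, hy2, hne⟩ := h2.two_nbrs hcard x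
      have h1 := hfa x y1 hy1
      have h2 := hfa x y2 hy2
      rw [hx] at h1 h2
      have hp := psi_p hzr hzb hzc i j
      obtain ⟨-, z1, hz1⟩ := apex_adj_p (hp ▸ h1)
      obtain ⟨-, z2, hz2⟩ := apex_adj_p (hp ▸ h2)
      rw [hz1, psi_adj_iff hrb hrc hbc hij] at h1
      rw [hz2, psi_adj_iff hrb hrc hbc hij] at h2
      rcases hdeg z z' z1 z2 hzz' h1 h2 with h | h | h
      · exact ⟨y1, by rw [hz1, h]⟩
      · exact ⟨y2, by rw [hz2, h]⟩
      · exact absurd (hf (by rw [hz1, hz2, h])) hne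
    -- all vertices of the piece except possibly the apex are used
    have hall : ∀ y, y ≠ r → ∃ x, f x = psi r b c i j y := by
      by_contra hn
      push Not at hn
      obtain ⟨y0, hy0r, hy0⟩ := hn
      let S : Set W := {z | z ≠ r ∧ z ≠ b ∧ z ≠ c ∧ ∃ x, f x = psi r b c i j z}
      let P : Set W := {z | z ∈ S ∨ (z ≠ r ∧ ∃ s ∈ S, H.Adj s z)}
      have hPu : ∀ z ∈ P, ∃ x, f x = psi r b c i j z := by
        rintro z (h | ⟨hzr, s, hs, hsz⟩)
        · exact h.2.2.2
        · exact hnb s hs.1 hs.2.1 hs.2.2.1 hs.2.2.2 z hsz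
      obtain ⟨a, ha, a', ha', har, har', haa⟩ := h2 P r
        ⟨z, Or.inl ⟨hz.1, hz.2.1, hz.2.2, x, hx⟩, hz.1⟩
        ⟨y0, fun h => by obtain ⟨x, hx⟩ := hPu y0 h; exact hy0 x hx, hy0r⟩
      have haS : a ∉ S := fun h => ha' (Or.inr ⟨har', a, h, haa⟩)
      rcases ha with ha | ⟨-, s, hs, hsa⟩
      · exact haS ha
      · have hab : a = b ∨ a = c := by
          by_contra hn
          push Not at hn
          exact haS ⟨har, hn.1, hn.2, hPu a (Or.inr ⟨har, s, hs, hsa⟩)⟩
        have har2 : H.Adj a r := by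
          rcases hab with rfl | rfl
          · exact hrb.symm
          · exact hrc.symm
        rcases hdeg a r s a' har2 hsa.symm haa with h | h | h
        · exact hs.1 h.symm
        · exact har' h.symm
        · exact ha' (h ▸ Or.inl hs)
    obtain ⟨y0, hy0⟩ := hcon i j hij
    -- `y0` is the only vertex whose image is outside
    have hy0' : ∀ y, y ≠ y0 → ∃ z, z ≠ r ∧ f y = psi r b c i j z := by
      classical
      choose! σ hσ using hall
      let τ : W → W := fun y => if y = r then y0 else σ y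
      have hτ : Function.Injective τ := by
        intro y y' h
        simp only [τ] at h
        split_ifs at h with h1 h2 h2
        · rw [h1, h2]
        · exact absurd (by rw [h, hσ y' h2]) (hy0 y')
        · exact absurd (by rw [← h, hσ y h1]) (hy0 y)
        · have h3 : psi r b c i j y = psi r b c i j y' := by rw [← hσ y h1, ← hσ y' h2, h]
          exact psi_injective hij.ne h3
      intro y hy
      obtain ⟨z, hz⟩ := Finite.surjective_of_injective hτ y
      simp only [τ] at hz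
      split_ifs at hz with h1
      · exact absurd hz.symm hy
      · exact ⟨z, h1, by rw [← hσ z h1, hz]⟩
    have hnbw : ∀ y, H.Adj y0 y → f y = .w i ∨ f y = .w j := by
      intro y hy
      obtain ⟨z, hzr, hz⟩ := hy0' y hy.ne.symm
      by_cases hzb : z = b
      · left; rw [hz, hzb, psi_b hrb.ne]
      · by_cases hzc : z = c
        · right; rw [hz, hzc, psi_c hrc.ne hbc]
        · exfalso
          have h := hfa _ _ hy.symm
          rw [hz, psi_p hzr hzb hzc] at h
          obtain ⟨-, y', hy'⟩ := apex_adj_p h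
          exact hy0 y' hy'
    obtain ⟨y1, y2, hy1, hy2, hne⟩ := h2.two_nbrs hcard y0
    have hwi : (apexHost H r b c).Adj (.w i) (f y0) ∧ (apexHost H r b c).Adj (.w j) (f y0) := by
      have g1 := hfa _ _ hy1.symm
      have g2 := hfa _ _ hy2.symm
      rcases hnbw y1 hy1 with h1 | h1 <;> rcases hnbw y2 hy2 with h2 | h2
      · exact absurd (hf (h1.trans h2.symm)) hne
      · rw [h1] at g1; rw [h2] at g2; exact ⟨g1, g2⟩
      · rw [h1] at g1; rw [h2] at g2; exact ⟨g2, g1⟩
      · exact absurd (hf (h1.trans h2.symm)) hne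
    rcases apex_adj_w hbc' hwi.1 with h | ⟨k, l, z', hkl, hi, hp⟩
    · exact hy0 r (by rw [h, psi_r])
    · rcases apex_adj_w hbc' hwi.2 with h | ⟨k', l', z'', hkl', hj, hp'⟩
      · exact hy0 r (by rw [h, psi_r])
      · rw [hp] at hp'
        injection hp' with e1 e2 e3
        subst e1; subst e2; subst e3
        have hwi1 := hwi.1.symm
        rw [hp] at hwi1
        obtain ⟨h7, k', l', x', y', hkl', hxy', h8, h9⟩ := hwi1
        obtain ⟨e1, e2, e3, -⟩ := psi_eq_p h8.symm
        subst e1; subst e2; subst e3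
        rcases hi with rfl | rfl <;> rcases hj with rfl | rfl
        · exact hij.ne rfl
        · exact hy0 x' (hp.trans h8)
        · exact hij.asymm hkl
        · exact hij.ne rfl
  -- all edges contain the apex
  have hstar : ∀ x y, H.Adj x y → f x = .u ∨ f y = .u := by
    intro x y hxy
    obtain ⟨h7, k, l, x', y', hkl, hxy', h8, h9⟩ := hfa x y hxy
    have hw : ∀ x x', f x = psi r b c k l x' → f x = .u ∨ (∃ m, f x = .w m) ∧ (x' = b ∨ x' = c) := by
      intro x x' hx
      rcases hpx : psi r b c k l x' with _ | m | ⟨m, n, z⟩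
      · exact Or.inl (hx.trans hpx)
      · right
        refine ⟨⟨m, hx.trans hpx⟩, ?_⟩
        rcases psi_eq_w hpx with ⟨h, -⟩ | ⟨h, -⟩
        · exact Or.inl h
        · exact Or.inr h
      · obtain ⟨e1, e2, e3, -⟩ := psi_eq_p hpx
        subst e1; subst e2; subst e3
        exact (hno x k l x' hkl hx (hx.trans hpx)).elim
    rcases hw x x' h8 with h | ⟨-, h⟩
    · exact Or.inl h
    · rcases hw y y' h9 with h' | ⟨-, h'⟩
      · exact Or.inr h'
      · exfalso
        rcases h with rfl | rfl <;> rcases h' with rfl | rfl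
        · exact hxy'.ne rfl
        · exact hbc' hxy'
        · exact hbc' hxy'.symm
        · exact hxy'.ne rfl
  obtain ⟨x, hx⟩ : ∃ x, f x ≠ .u := by
    by_contra hn
    push Not at hn
    exact hbc (hf ((hn b).trans (hn c).symm))
  obtain ⟨y1, y2, hy1, hy2, hne⟩ := h2.two_nbrs hcard x
  rcases hstar x y1 hy1 with h | h
  · exact hx h
  · rcases hstar x y2 hy2 with h' | h'
    · exact hx h'
    · exact hne (hf (h.trans h'.symm))

/-- **Cycles fail.** -/
theorem cycle_fails {W : Type v} [Finite W] {H : SimpleGraph W} (h2 : Conn2 H)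
    (hcard : ∃ r b c : W, r ≠ b ∧ r ≠ c ∧ b ≠ c)
    (hdeg : ∀ x y1 y2 y3, H.Adj x y1 → H.Adj x y2 → H.Adj x y3 → y1 = y2 ∨ y1 = y3 ∨ y2 = y3) :
    Fails.{v} H := by
  by_cases hK : ∀ x y, x ≠ y → H.Adj x y
  · exact complete_fails hK hcard
  have hcard' := hcard
  obtain ⟨r, -⟩ := hcard'
  obtain ⟨b, c, hrb, hrc, hbc⟩ := h2.two_nbrs hcard r
  have hbc' : ¬ H.Adj b c := by
    intro hbc'
    refine hK ?_
    -- the triangle is everything
    have hall : ∀ x, x = r ∨ x = b ∨ x = c := by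
      by_contra hn
      push Not at hn
      obtain ⟨x, h1, h2', h3⟩ := hn
      obtain ⟨a, ha, a', ha', har, har', haa⟩ := h2 {r, b, c} r ⟨b, by simp, hrb.ne.symm⟩
        ⟨x, by simp [h1, h2', h3], h1⟩
      simp only [Set.mem_insert_iff, Set.mem_singleton_iff, not_or] at ha ha'
      rcases ha with rfl | rfl | rfl
      · exact har rfl
      · rcases hdeg a r c a' hrb.symm hbc' haa with h | h | h
        · exact hrc.ne h
        · exact har' h.symm
        · exact ha'.2.2 h.symm
      · rcases hdeg a r b a' hrc.symm hbc'.symm haa with h | h | h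
        · exact hrb.ne h
        · exact har' h.symm
        · exact ha'.2.1 h.symm
    intro x y hxy
    rcases hall x with rfl | rfl | rfl <;> rcases hall y with rfl | rfl | rfl
    all_goals
      first
      | exact absurd rfl hxy
      | assumption
      | (apply SimpleGraph.Adj.symm; assumption)
  exact ⟨_, apexHost H r b c, apexHost_fails hrb hrc hbc (fun f hf hfa =>
    cycle_plan h2 hcard hdeg hrb hrc hbc hbc' hf hfa)⟩

end Cycle

end Pool.Agent.StrongMax
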