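import Pool.Agent.Lib.StrongMax.Dle

/-!
# Decompositions of a graph into pieces (helper18)

The structure of a copy of `H` in the apex host at a vertex `z` of degree two.
-/

namespace Pool.Agent.StrongMax

universe v w

/-- The decomposition of `H - v` into the parts lying in the pieces of the host. `z` is a vertex of
degree two with neighbours `x` and `y`. -/
structure Dec {W : Type v} (H : SimpleGraph W) (z x y v : W) (K : Type w) where
  /-- interior of a part -/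
  I : K → Set W
  /-- the part -/
  P : K → Set W
  /-- first terminal -/
  a : K → W
  /-- second terminal -/
  b : K → W
  /-- embedding of the part -/
  θ : K → W → W
  /-- the side of the first terminal -/
  A : K → Set W
  mem_P : ∀ k w, w ∈ P k ↔ w ∈ I k ∨ w = a k ∨ w = b k
  I_ne : ∀ k, (I k).Nonempty
  I_v : ∀ k, v ∉ I k
  a_v : ∀ k, a k ≠ v
  b_v : ∀ k, b k ≠ v
  ab : ∀ k, a k ≠ b k
  a_I : ∀ k l, a k ∉ I l
  b_I : ∀ k l, b k ∉ I l
  I_disj : ∀ k l w, w ∈ I k → w ∈ I l → k = l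
  edge : ∀ w w', H.Adj w w' → w ≠ v → w' ≠ v → ∃ k, w ∈ P k ∧ w' ∈ P k
  I_adj : ∀ k w w', w ∈ I k → H.Adj w w' → w' ∈ P k
  v_adj : ∀ w, H.Adj v w → ∃ k, w = a k ∨ w = b k
  θa : ∀ k, θ k (a k) = x
  θb : ∀ k, θ k (b k) = y
  θ_inj : ∀ k, Set.InjOn (θ k) (P k)
  θ_adj : ∀ k w w', w ∈ P k → w' ∈ P k → H.Adj w w' → H.Adj (θ k w) (θ k w')
  θ_z : ∀ k w, w ∈ P k → θ k w ≠ z
  A_a : ∀ k, a k ∈ A k
  A_b : ∀ k, b k ∉ A k
  A_v : ∀ k, v ∉ A k
  A_I : ∀ k w, w ∈ A k → w ∉ I k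
  A_edge : ∀ k w w', w ∈ A k → w' ∉ A k → w' ≠ v → H.Adj w w' → w = a k ∧ w' ∈ I k
  A_other : ∀ k l, l ≠ k → P l ⊆ A k ∨ Disjoint (P l) (A k)

namespace Dec

section

variable {W : Type v} {H : SimpleGraph W} {z x y v : W} {K : Type w} (D : Dec H z x y v K)

/-- The side of the second terminal. -/
def B (k : K) : Set W := {w | w ∉ D.A k ∧ w ∉ D.I k ∧ w ≠ v}

theorem B_def {k : K} {w : W} : w ∈ D.B k ↔ w ∉ D.A k ∧ w ∉ D.I k ∧ w ≠ v := Iff.rfl

theorem B_b (k : K) : D.b k ∈ D.B k := ⟨D.A_b k, D.b_I k k, D.b_v k⟩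

theorem P_v (k : K) {w : W} (h : w ∈ D.P k) : w ≠ v := by
  rcases (D.mem_P k w).1 h with h | rfl | rfl
  · rintro rfl; exact D.I_v k h
  · exact D.a_v k
  · exact D.b_v k

theorem I_P {k : K} {w : W} (h : w ∈ D.I k) : w ∈ D.P k := (D.mem_P k w).2 (Or.inl h)

theorem a_P (k : K) : D.a k ∈ D.P k := (D.mem_P k _).2 (Or.inr (Or.inl rfl))

theorem b_P (k : K) : D.b k ∈ D.P k := (D.mem_P k _).2 (Or.inr (Or.inr rfl))

/-- The same decomposition with the terminals exchanged. -/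
def flip : Dec H z y x v K where
  I := D.I
  P := D.P
  a := D.b
  b := D.a
  θ := D.θ
  A := D.B
  mem_P k w := by rw [D.mem_P k w]; tauto
  I_ne := D.I_ne
  I_v := D.I_v
  a_v := D.b_v
  b_v := D.a_v
  ab k := (D.ab k).symm
  a_I := D.b_I
  b_I := D.a_I
  I_disj := D.I_disj
  edge := D.edge
  I_adj := D.I_adj
  v_adj w h := by
    obtain ⟨k, h | h⟩ := D.v_adj w h
    · exact ⟨k, Or.inr h⟩
    · exact ⟨k, Or.inl h⟩
  θa := D.θb
  θb := D.θa
  θ_inj := D.θ_inj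
  θ_adj := D.θ_adj
  θ_z := D.θ_z
  A_a := D.B_b
  A_b k h := h.1 (D.A_a k)
  A_v k h := h.2.2 rfl
  A_I k w h := h.2.1
  A_edge k w w' hw hw' hv hadj := by
    by_cases h1 : w' ∈ D.I k
    · refine ⟨?_, h1⟩
      rcases (D.mem_P k w).1 (D.I_adj k w' w h1 hadj.symm) with h | h | h
      · exact absurd h hw.2.1
      · exact absurd (h ▸ D.A_a k) hw.1
      · exact h
    · have h2 : w' ∈ D.A k := by
        by_contra h
        exact hw' ⟨h, h1, hv⟩
      obtain ⟨-, h⟩ := D.A_edge k w' w h2 hw.1 hw.2.2 hadj.symm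
      exact absurd h hw.2.1
  A_other k l hl := by
    rcases D.A_other k l hl with h | h
    · right
      rw [Set.disjoint_left]
      intro w hw hw'
      exact hw'.1 (h hw)
    · left
      intro w hw
      refine ⟨fun h' => Set.disjoint_left.1 h hw h', fun h' => ?_, D.P_v l hw⟩
      rcases (D.mem_P l w).1 hw with h1 | rfl | rfl
      · exact hl (D.I_disj l k w h1 h')
      · exact D.a_I l k h'
      · exact D.b_I l k h'

theorem flip_B_eq (k : K) : D.flip.B k = D.A k := by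
  ext w
  constructor
  · rintro ⟨h1, h2, h3⟩
    by_contra h
    exact h1 ⟨h, h2, h3⟩
  · intro h
    exact ⟨fun h' => h'.1 h, D.A_I k w h, fun h' => D.A_v k (h' ▸ h)⟩

theorem mem_flip_B {k : K} {w : W} : w ∈ D.flip.B k ↔ w ∈ D.A k := by rw [flip_B_eq]

theorem cases (k : K) {w : W} (hw : w ≠ v) : w ∈ D.A k ∨ w ∈ D.I k ∨ w ∈ D.B k := by
  by_cases h1 : w ∈ D.A k
  · exact Or.inl h1
  · by_cases h2 : w ∈ D.I k
    · exact Or.inr (Or.inl h2)
    · exact Or.inr (Or.inr ⟨h1, h2, hw⟩)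

/-- Edges at the second side. -/
theorem B_edge (k : K) {w w' : W} (hw : w ∈ D.B k) (hw' : w' ∉ D.B k) (hv : w' ≠ v)
    (h : H.Adj w w') : w = D.b k ∧ w' ∈ D.I k := D.flip.A_edge k w w' hw hw' hv h

/-- A vertex on the first side lying in the part is the terminal. -/
theorem A_P {k : K} {w : W} (h : w ∈ D.A k) (h' : w ∈ D.P k) : w = D.a k := by
  rcases (D.mem_P k w).1 h' with h1 | h1 | h1
  · exact absurd h1 (D.A_I k w h)
  · exact h1
  · exact absurd (h1 ▸ h) (D.A_b k)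

theorem B_P {k : K} {w : W} (h : w ∈ D.B k) (h' : w ∈ D.P k) : w = D.b k := D.flip.A_P h h'

/-- `w` is a terminal. -/
def Term (w : W) : Prop := ∃ k, w = D.a k ∨ w = D.b k

theorem Term.not_I {w : W} (h : D.Term w) (k : K) : w ∉ D.I k := by
  obtain ⟨l, rfl | rfl⟩ := h
  · exact D.a_I l k
  · exact D.b_I l k

theorem Term.ne_v {w : W} (h : D.Term w) : w ≠ v := by
  obtain ⟨l, rfl | rfl⟩ := h
  · exact D.a_v l
  · exact D.b_v l

theorem term_of_adj {w : W} (h : H.Adj v w) : D.Term w := D.v_adj w h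

theorem term_a (k : K) : D.Term (D.a k) := ⟨k, Or.inl rfl⟩

theorem term_b (k : K) : D.Term (D.b k) := ⟨k, Or.inr rfl⟩

theorem term_flip {w : W} : D.flip.Term w ↔ D.Term w :=
  ⟨fun ⟨k, h⟩ => ⟨k, h.symm⟩, fun ⟨k, h⟩ => ⟨k, h.symm⟩⟩

/-- The pieces are determined by their terminals. -/
theorem eq_of_term {k l : K} (ha : D.a k ∈ D.P l) (hb : D.b k ∈ D.P l) : k = l := by
  by_contra hne
  rcases D.A_other k l (fun h => hne h.symm) with h | h
  · exact D.A_b k (h hb)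
  · exact Set.disjoint_left.1 h ha (D.A_a k)

/-! ### Consequences of 2-connectivity -/

/-- The first side contains a neighbour of `v`. -/
theorem exists_adj_A (h2 : Conn2 H) (k : K) : ∃ w ∈ D.A k, H.Adj v w := by
  obtain ⟨w, hw, w', hw', h1, h2, h3⟩ := h2 (D.A k ∪ D.I k) (D.b k) ⟨D.a k, Or.inl (D.A_a k), D.ab k⟩
    ⟨v, by rintro (h | h); exacts [D.A_v k h, D.I_v k h], (D.b_v k).symm⟩
  rcases hw with hw | hw
  · by_cases hv : w' = v
    · subst hv
      exact ⟨w, hw, h3.symm⟩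
    · exact absurd (Or.inr (D.A_edge k w w' hw (fun h => hw' (Or.inl h)) hv h3).2) hw'
  · rcases (D.mem_P k w').1 (D.I_adj k w w' hw h3) with h | h | h
    · exact absurd (Or.inr h) hw'
    · exact absurd (Or.inl (h ▸ D.A_a k)) hw'
    · exact absurd h h2

theorem exists_adj_B (h2 : Conn2 H) (k : K) : ∃ w ∈ D.B k, H.Adj v w := D.flip.exists_adj_A h2 k

/-- The terminals have neighbours in the interior. -/
theorem exists_adj_I (h2 : Conn2 H) (k : K) : ∃ w ∈ D.I k, H.Adj (D.a k) w := by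
  obtain ⟨w₀, hw₀⟩ := D.I_ne k
  obtain ⟨w, hw, w', hw', h1, h2, h3⟩ := h2 (D.I k) (D.b k) ⟨w₀, hw₀, fun h => D.b_I k k (h ▸ hw₀)⟩
    ⟨v, D.I_v k, (D.b_v k).symm⟩
  rcases (D.mem_P k w').1 (D.I_adj k w w' hw h3) with h | h | h
  · exact absurd h hw'
  · exact ⟨w, hw, h ▸ h3.symm⟩
  · exact absurd h h2

/-- If the side of `a k` is not a single vertex then `a k` has a neighbour there. -/
theorem exists_adj_A' (h2 : Conn2 H) (k : K) {w₀ : W} (hw₀ : w₀ ∈ D.A k) (hne : w₀ ≠ D.a k) :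
    ∃ w ∈ D.A k, H.Adj (D.a k) w := by
  obtain ⟨w, hw, w', hw', h1, h2, h3⟩ := h2 (D.A k \ {D.a k}) v
    ⟨w₀, ⟨hw₀, hne⟩, fun h => D.A_v k (h ▸ hw₀)⟩ ⟨D.a k, fun h => h.2 rfl, D.a_v k⟩
  by_cases h : w' ∈ D.A k
  · have h4 : w' = D.a k := by
      by_contra h5
      exact hw' ⟨h, h5⟩
    exact ⟨w, hw.1, h4 ▸ h3.symm⟩
  · exact absurd (D.A_edge k w w' hw.1 h h2 h3).1 hw.2

/-- Every vertex different from `v` and from the terminal `q` is behind `q` in some piece. -/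
theorem sep (h2 : Conn2 H) {q w : W} (hq : D.Term q) (hw : w ≠ v) (hwq : w ≠ q) :
    ∃ k, (q = D.a k ∧ (w ∈ D.I k ∨ w ∈ D.B k)) ∨ (q = D.b k ∧ (w ∈ D.I k ∨ w ∈ D.A k)) := by
  let C : Set W := {w | ∃ k, (q = D.a k ∧ (w ∈ D.I k ∨ w ∈ D.B k)) ∨
    (q = D.b k ∧ (w ∈ D.I k ∨ w ∈ D.A k))}
  have hP : ∀ k w', w' ∈ D.P k → q ∈ D.P k → w' = q ∨ w' ∈ C := by
    intro k w' hw' hqk
    rcases (D.mem_P k q).1 hqk with h | h | h
    · exact absurd h (Term.not_I D hq k)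
    · rcases (D.mem_P k w').1 hw' with h' | h' | h'
      · exact Or.inr ⟨k, Or.inl ⟨h, Or.inl h'⟩⟩
      · exact Or.inl (h'.trans h.symm)
      · exact Or.inr ⟨k, Or.inl ⟨h, Or.inr (h' ▸ D.B_b k)⟩⟩
    · rcases (D.mem_P k w').1 hw' with h' | h' | h'
      · exact Or.inr ⟨k, Or.inr ⟨h, Or.inl h'⟩⟩
      · exact Or.inr ⟨k, Or.inr ⟨h, Or.inr (h' ▸ D.A_a k)⟩⟩
      · exact Or.inl (h'.trans h.symm)
  have hcl : ∀ w ∈ {w | w = q ∨ w ∈ C}, ∀ w', (del H v).Adj w w' → w' ∈ {w | w = q ∨ w ∈ C} := by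
    rintro w hw w' ⟨hadj, hv, hv'⟩
    rcases hw with rfl | ⟨k, ⟨hk, h | h⟩ | ⟨hk, h | h⟩⟩
    · obtain ⟨k, h1, h2⟩ := D.edge w w' hadj hv hv'
      exact hP k w' h2 h1
    · exact hP k w' (D.I_adj k w w' h hadj) (hk ▸ D.a_P k)
    · by_cases h3 : w' ∈ D.B k
      · exact Or.inr ⟨k, Or.inl ⟨hk, Or.inr h3⟩⟩
      · exact Or.inr ⟨k, Or.inl ⟨hk, Or.inl (D.B_edge k h h3 hv' hadj).2⟩⟩
    · exact hP k w' (D.I_adj k w w' h hadj) (hk ▸ D.b_P k)
    · by_cases h3 : w' ∈ D.A k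
      · exact Or.inr ⟨k, Or.inr ⟨hk, Or.inr h3⟩⟩
      · exact Or.inr ⟨k, Or.inr ⟨hk, Or.inl (D.A_edge k w w' h h3 hv' hadj).2⟩⟩
  rcases (Dle.of_reachable (h2.del_reachable (Term.ne_v D hq) hw)).closed hcl (Or.inl rfl) with h | h
  · exact absurd h hwq
  · exact h

/-! ### Potentials -/

/-- The potential of the piece `k`. -/
noncomputable def pot (M : ℕ) (k : K) (w : W) : ℤ := by
  classical
  exact if w ∈ D.P k then min (M : ℤ) ((del H z).dist x (D.θ k w)) else if w ∈ D.A k then -1 else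
    (M : ℤ) + 1

theorem pot_P (M : ℕ) {k : K} {w : W} (h : w ∈ D.P k) :
    D.pot M k w = min (M : ℤ) ((del H z).dist x (D.θ k w)) := if_pos h

theorem pot_A (M : ℕ) {k : K} {w : W} (h : w ∈ D.A k) (h' : w ≠ D.a k) : D.pot M k w = -1 := by
  have h1 : w ∉ D.P k := fun h1 => h' (D.A_P h h1)
  unfold pot
  rw [if_neg h1, if_pos h]

theorem pot_B (M : ℕ) {k : K} {w : W} (h : w ∈ D.B k) (h' : w ≠ D.b k) : D.pot M k w = M + 1 := by
  have h1 : w ∉ D.P k := fun h1 => h' (D.B_P h h1)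
  unfold pot
  rw [if_neg h1, if_neg h.1]

theorem pot_a (M : ℕ) (k : K) : D.pot M k (D.a k) = 0 := by
  rw [pot_P D M (D.a_P k), D.θa, SimpleGraph.dist_self]
  simp

theorem pot_b {M : ℕ} (hM : M ≤ (del H z).dist x y) (k : K) : D.pot M k (D.b k) = M := by
  rw [pot_P D M (D.b_P k), D.θb]
  have : (M : ℤ) ≤ (del H z).dist x y := by exact_mod_cast hM
  exact min_eq_left this

theorem pot_lip (h2 : Conn2 H) (hxz : x ≠ z) {M : ℕ} (hM : M ≤ (del H z).dist x y) (k : K) :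
    ∀ w w', (del H v).Adj w w' → D.pot M k w' ≤ D.pot M k w + 1 := by
  rintro w w' ⟨hadj, hv, hv'⟩
  have hM0 : (0 : ℤ) ≤ M := by positivity
  have ha := D.pot_a M k
  have hb := D.pot_b hM k
  by_cases h : w ∈ D.P k
  · by_cases h' : w' ∈ D.P k
    · rw [pot_P D M h, pot_P D M h']
      have := h2.dist_step (r := z) (t := x) (x := D.θ k w) (y := D.θ k w') hxz
        ⟨D.θ_adj k w w' h h' hadj, D.θ_z k w h, D.θ_z k w' h'⟩
      omega
    · rcases D.cases k hv' with h1 | h1 | h1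
      · rw [pot_A D M h1 (fun h2 => h' (h2 ▸ D.a_P k)), pot_P D M h]
        have h0 : (0 : ℤ) ≤ min (M : ℤ) ((del H z).dist x (D.θ k w)) := le_min hM0 (by positivity)
        omega
      · exact absurd (D.I_P h1) h'
      · have h3 : w = D.b k := by
          rcases (D.mem_P k w).1 h with h4 | h4 | h4
          · exact absurd (D.I_adj k w w' h4 hadj) h'
          · exfalso
            by_cases h5 : w ∈ D.B k
            · exact h5.1 (h4 ▸ D.A_a k)
            · exact D.I_P (D.A_edge k w w' (h4 ▸ D.A_a k) h1.1 hv' hadj).2 |> h'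
          · exact h4
        rw [h3, hb, pot_B D M h1 (fun h2 => h' (h2 ▸ D.b_P k))]
  · by_cases h' : w' ∈ D.P k
    · rcases D.cases k hv with h1 | h1 | h1
      · have h3 : w' = D.a k := by
          by_contra h4
          have h5 : w' ∉ D.A k := fun h5 => h4 (D.A_P h5 h')
          exact h ((D.A_edge k w w' h1 h5 hv' hadj).1 ▸ D.a_P k)
        rw [h3, ha, pot_A D M h1 (fun h2 => h (h2 ▸ D.a_P k))]
        norm_num
      · exact absurd (D.I_P h1) h
      · rw [pot_B D M h1 (fun h2 => h (h2 ▸ D.b_P k)), pot_P D M h']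
        have := min_le_left (M : ℤ) ((del H z).dist x (D.θ k w') : ℤ)
        omega
    · rcases D.cases k hv with h1 | h1 | h1
      · have h3 : w' ∈ D.A k := by
          by_contra h4
          exact h' (D.I_P (D.A_edge k w w' h1 h4 hv' hadj).2)
        rw [pot_A D M h1 (fun h2 => h (h2 ▸ D.a_P k)), pot_A D M h3 (fun h2 => h' (h2 ▸ D.a_P k))]
        norm_num
      · exact absurd (D.I_P h1) h
      · have h3 : w' ∈ D.B k := by
          by_contra h4
          exact h' (D.I_P (D.B_edge k h1 h4 hv' hadj).2)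
        rw [pot_B D M h1 (fun h2 => h (h2 ▸ D.b_P k)), pot_B D M h3 (fun h2 => h' (h2 ▸ D.b_P k))]
        norm_num

end

end Dec

end Pool.Agent.StrongMax
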