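import Pool.Agent.Lib.StrongMax.Dec

/-!
# Copies which are not planned (helper18)
-/

namespace Pool.Agent.StrongMax

universe v w

/-- The standing assumptions. -/
structure Ctx {W : Type v} (H : SimpleGraph W) (z x y : W) (M : ℕ) : Prop where
  h2 : Conn2 H
  hcard : ∃ r b c : W, r ≠ b ∧ r ≠ c ∧ b ≠ c
  two : Two H z x y
  hM : M ≤ (del H z).dist x y
  hmax : ∀ t n₁ n₂, Two H t n₁ n₂ → Dle (del H t) M n₁ n₂

theorem Ctx.flip {W : Type v} {H : SimpleGraph W} {z x y : W} {M : ℕ} (h : Ctx H z x y M) :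
    Ctx H z y x M :=
  ⟨h.h2, h.hcard, h.two.symm, by rw [SimpleGraph.dist_comm]; exact h.hM, h.hmax⟩

namespace Dec

section

variable {W : Type v} {H : SimpleGraph W} {z x y v : W} {K : Type w} (D : Dec H z x y v K)
  {M : ℕ}

theorem lip (c : Ctx H z x y M) (k : K) {n : ℕ} {p q : W} (h : Dle (del H v) n p q) :
    D.pot M k q ≤ D.pot M k p + n :=
  h.lip (D.pot_lip c.h2 c.two.adj_left.ne.symm c.hM k)

/-- Terminals are far apart. -/
theorem far (c : Ctx H z x y M) {p q : W} (hp : D.Term p) (hq : D.Term q) (hpq : p ≠ q) {n : ℕ}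
    (h : Dle (del H v) n p q) :
    M ≤ n ∧ (n ≤ M → ∃ k, (p = D.a k ∧ q = D.b k) ∨ (p = D.b k ∧ q = D.a k)) := by
  obtain ⟨k, ⟨hk, h1⟩ | ⟨hk, h1⟩⟩ := D.sep c.h2 hp (Term.ne_v D hq) hpq.symm
  · have h2 : q ∈ D.B k := h1.resolve_left (Term.not_I D hq k)
    have h3 := D.lip c k h
    rw [hk, D.pot_a M k] at h3
    by_cases h4 : q = D.b k
    · rw [h4, D.pot_b c.hM] at h3
      exact ⟨by omega, fun _ => ⟨k, Or.inl ⟨hk, h4⟩⟩⟩
    · rw [D.pot_B M h2 h4] at h3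
      exact ⟨by omega, fun h5 => by omega⟩
  · have h2 : q ∈ D.A k := h1.resolve_left (Term.not_I D hq k)
    have h3 := D.lip c k h.symm
    rw [hk, D.pot_b c.hM] at h3
    by_cases h4 : q = D.a k
    · rw [h4, D.pot_a M k] at h3
      exact ⟨by omega, fun _ => ⟨k, Or.inr ⟨hk, h4⟩⟩⟩
    · rw [D.pot_A M h2 h4] at h3
      exact ⟨by omega, fun h5 => by omega⟩

theorem exists_adj_I' (h2 : Conn2 H) {k : K} {q : W} (hq : q = D.a k ∨ q = D.b k) :
    ∃ w ∈ D.I k, H.Adj q w := by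
  rcases hq with rfl | rfl
  · exact D.exists_adj_I h2 k
  · exact D.flip.exists_adj_I h2 k

/-- The short path of an interior vertex of degree two. -/
theorem short_I (c : Ctx H z x y M) {k : K} {t n₁ n₂ : W} (ht : t ∈ D.I k) (h : Two H t n₁ n₂) :
    Dle (del (del H t) v) M n₁ n₂ ∨
      (H.Adj v (D.a k) ∧ H.Adj v (D.b k) ∧ Dle (del H v) M (D.a k) (D.b k)) := by
  have h1 : n₁ ≠ v := D.P_v k (D.I_adj k t n₁ ht h.adj_left)
  have h2 : n₂ ≠ v := D.P_v k (D.I_adj k t n₂ ht h.adj_right)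
  have htv : t ≠ v := fun h => D.I_v k (h ▸ ht)
  rcases (c.hmax t n₁ n₂ h).split h1 h2 with h3 | ⟨p, q, l₁, l₂, hpq, hp, hq, hl₁, hl₂, hl⟩
  · exact Or.inl h3
  right
  have hsub : ∀ a b, (del (del H t) v).Adj a b → (del H v).Adj a b :=
    fun a b h => ⟨h.1.1, h.2.1, h.2.2⟩
  have h3 : Dle (del H v) (l₁ + 1) t p :=
    Dle.cons (G := del H v) ⟨h.adj_left, htv, h1⟩ (hl₁.mono_graph hsub)
  have h4 : Dle (del H v) (l₂ + 1) t q :=
    Dle.cons (G := del H v) ⟨h.adj_right, htv, h2⟩ (hl₂.symm.mono_graph hsub)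
  have h5 : Dle (del H v) M p q := (h3.symm.trans h4).mono (by omega)
  obtain ⟨-, h6⟩ := D.far c (D.term_of_adj hp.1) (D.term_of_adj hq.1) hpq h5
  obtain ⟨k', h7⟩ := h6 le_rfl
  have hkk : k' = k := by
    by_contra hne
    have h8 : t ∉ D.I k' := fun h9 => hne (D.I_disj k' k t h9 ht)
    have hta : t ≠ D.a k' := fun h => D.a_I k' k (h ▸ ht)
    have htb : t ≠ D.b k' := fun h => D.b_I k' k (h ▸ ht)
    have e1 := D.lip c k' h3
    have e2 := D.lip c k' h4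
    have e3 := D.lip c k' h3.symm
    have e4 := D.lip c k' h4.symm
    rcases D.cases k' htv with h9 | h9 | h9
    · rw [D.pot_A M h9 hta] at e1 e2
      rcases h7 with ⟨h10, h11⟩ | ⟨h10, h11⟩
      · rw [h11, D.pot_b c.hM] at e2; push_cast at e2; omega
      · rw [h10, D.pot_b c.hM] at e1; push_cast at e1; omega
    · exact h8 h9
    · rw [D.pot_B M h9 htb] at e3 e4
      rcases h7 with ⟨h10, h11⟩ | ⟨h10, h11⟩
      · rw [h10, D.pot_a] at e3; push_cast at e3; omega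
      · rw [h11, D.pot_a] at e4; push_cast at e4; omega
  subst hkk
  rcases h7 with ⟨h8, h9⟩ | ⟨h8, h9⟩
  · exact ⟨h8 ▸ hp.1, h9 ▸ hq.1, h8 ▸ h9 ▸ h5⟩
  · exact ⟨h9 ▸ hq.1, h8 ▸ hp.1, h8 ▸ h9 ▸ h5.symm⟩

/-- The short path of a neighbour of `v` of degree two. -/
theorem short_v (c : Ctx H z x y M) {t : W} (ht : t ∈ D2 H) (hvt : H.Adj v t) :
    ∃ p k, p ≠ t ∧ H.Adj v p ∧ ((p = D.a k ∧ t = D.b k) ∨ (p = D.b k ∧ t = D.a k)) ∧
      Dle (del H v) M p t := by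
  obtain ⟨k₀, hk₀⟩ := D.v_adj t hvt
  obtain ⟨n, hn, hn'⟩ := D.exists_adj_I' c.h2 hk₀
  have hnv : n ≠ v := fun h => D.I_v k₀ (h ▸ hn)
  have h2 : Two H t v n := two_of_mem ht hvt.symm hn' hnv.symm
  obtain ⟨q, l, h3, h4, h5⟩ := (c.hmax t v n h2).from hnv
  have h6 : Dle (del H v) (l + 1) q t :=
    Dle.snoc (h4.mono_graph (fun a b h => ⟨h.1.1, h.2.1, h.2.2⟩))
      ⟨hn'.symm, hnv, hvt.ne.symm⟩
  have h7 : Dle (del H v) M q t := h6.mono h5
  obtain ⟨-, h8⟩ := D.far c (D.term_of_adj h3.1) (D.term_of_adj hvt) h3.2.2 h7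
  obtain ⟨k, h9⟩ := h8 le_rfl
  exact ⟨q, k, h3.2.2, h3.1, h9, h7⟩

/-- A neighbour of `v` of degree two is a terminal of only one piece. -/
theorem uniq (h2 : Conn2 H) {t : W} (ht : t ∈ D2 H) (hvt : H.Adj v t) {k l : K}
    (hk : t = D.a k ∨ t = D.b k) (hl : t = D.a l ∨ t = D.b l) : k = l := by
  obtain ⟨w, hw, hw'⟩ := D.exists_adj_I' h2 hk
  obtain ⟨w₁, hw₁, hw₁'⟩ := D.exists_adj_I' h2 hl
  by_contra hne
  refine D2_three ht hvt.symm hw' hw₁' ?_ ?_ ?_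
  · rintro rfl; exact D.I_v k hw
  · rintro rfl; exact D.I_v l hw₁
  · rintro rfl; exact hne (D.I_disj k l _ hw hw₁)

/-- The side of a terminal of degree two adjacent to `v`. -/
theorem A_eq (h2 : Conn2 H) {k : K} (ht : D.a k ∈ D2 H) (hvt : H.Adj v (D.a k)) {w : W}
    (hw : w ∈ D.A k) : w = D.a k := by
  by_contra hne
  obtain ⟨w₁, h1, h2'⟩ := D.exists_adj_A' h2 k hw hne
  obtain ⟨w₂, h3, h4⟩ := D.exists_adj_I h2 k
  refine D2_three ht hvt.symm h2' h4 ?_ ?_ ?_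
  · rintro rfl; exact D.A_v k h1
  · rintro rfl; exact D.I_v k h3
  · rintro rfl; exact D.A_I k _ h1 h3

theorem closed_IB (k : K) {n : ℕ} {p q : W} (hp : p ∈ D.I k ∨ p ∈ D.B k)
    (h : Dle (del (del H (D.a k)) v) n p q) : q ∈ D.I k ∨ q ∈ D.B k := by
  refine h.closed (C := {w | w ∈ D.I k ∨ w ∈ D.B k}) ?_ hp
  rintro w hw w' ⟨⟨hadj, h1, h2⟩, h3, h4⟩
  rcases hw with hw | hw
  · rcases (D.mem_P k w').1 (D.I_adj k w w' hw hadj) with h5 | h5 | h5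
    · exact Or.inl h5
    · exact absurd h5 h2
    · exact Or.inr (h5 ▸ D.B_b k)
  · by_cases h5 : w' ∈ D.B k
    · exact Or.inr h5
    · exact Or.inl (D.B_edge k hw h5 h4 hadj).2

theorem closed_A (k : K) {n : ℕ} {p q : W} (hp : p ∈ D.A k) (hp' : p ≠ D.a k)
    (h : Dle (del (del H (D.a k)) v) n p q) : q ∈ D.A k ∧ q ≠ D.a k := by
  refine h.closed (C := {w | w ∈ D.A k ∧ w ≠ D.a k}) ?_ ⟨hp, hp'⟩
  rintro w ⟨hw, hw'⟩ w' ⟨⟨hadj, h1, h2⟩, h3, h4⟩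
  refine ⟨?_, h2⟩
  by_contra h5
  exact hw' (D.A_edge k w w' hw h5 h4 hadj).1

/-- A terminal of degree two is adjacent to `v`. -/
theorem term_a_D2 (c : Ctx H z x y M) {k : K} (ht : D.a k ∈ D2 H) : H.Adj v (D.a k) := by
  by_contra hcon
  obtain ⟨n₁, h1, h2⟩ := D.exists_adj_I c.h2 k
  obtain ⟨w₀, h3, h4⟩ := D.exists_adj_A c.h2 k
  have h5 : w₀ ≠ D.a k := by rintro rfl; exact hcon h4
  obtain ⟨n₂, h6, h7⟩ := D.exists_adj_A' c.h2 k h3 h5
  have hne : n₁ ≠ n₂ := by rintro rfl; exact D.A_I k _ h6 h1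
  have hn₁v : n₁ ≠ v := fun h => D.I_v k (h ▸ h1)
  have hn₂v : n₂ ≠ v := fun h => D.A_v k (h ▸ h6)
  have htwo := two_of_mem ht h2 h7 hne
  rcases (c.hmax _ _ _ htwo).split hn₁v hn₂v with h8 | ⟨p, q, l₁, l₂, hpq, hp, hq, hl₁, hl₂, hl⟩
  · rcases D.closed_IB k (Or.inl h1) h8 with h9 | h9
    · exact D.A_I k _ h6 h9
    · exact h9.1 h6
  · have h9 : p ∈ D.B k := by
      rcases D.closed_IB k (Or.inl h1) hl₁ with h9 | h9
      · exact absurd h9 (Term.not_I D (D.term_of_adj hp.1) k)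
      · exact h9
    obtain ⟨h10, h11⟩ := D.closed_A k h6 h7.ne.symm hl₂.symm
    have hsub : ∀ a b, (del (del H (D.a k)) v).Adj a b → (del H v).Adj a b :=
      fun a b h => ⟨h.1.1, h.2.1, h.2.2⟩
    have h12 : Dle (del H v) (l₂ + 1) q (D.a k) :=
      (hl₂.mono_graph hsub).snoc (z := D.a k) ⟨h7.symm, hn₂v, D.a_v k⟩
    have h13 : Dle (del H v) (l₁ + 1) (D.a k) p :=
      Dle.cons (G := del H v) ⟨h2, D.a_v k, hn₁v⟩ (hl₁.mono_graph hsub)
    have h14 := D.lip c k (h12.trans h13)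
    rw [D.pot_A M h10 h11] at h14
    have h15 : (M : ℤ) ≤ D.pot M k p := by
      by_cases h16 : p = D.b k
      · rw [h16, D.pot_b c.hM]
      · rw [D.pot_B M h9 h16]; omega
    push_cast at h14
    omega

theorem term_D2 (c : Ctx H z x y M) {t : W} (hT : D.Term t) (ht : t ∈ D2 H) : H.Adj v t := by
  obtain ⟨k, rfl | rfl⟩ := hT
  · exact D.term_a_D2 c ht
  · exact D.flip.term_a_D2 c.flip ht

/-- A piece one of whose terminals is not adjacent to `v`. -/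
def Inner (k : K) : Prop := ¬ (H.Adj v (D.a k) ∧ H.Adj v (D.b k))

theorem Inner.flip {k : K} (h : D.Inner k) : D.flip.Inner k := fun h' => h ⟨h'.2, h'.1⟩

theorem Inner.a_D2 (c : Ctx H z x y M) {k : K} (hk : D.Inner k) : D.a k ∉ D2 H := by
  intro ht
  have h1 := D.term_a_D2 c ht
  obtain ⟨p, l, h2, h3, h4, -⟩ := D.short_v c ht h1
  have h5 : k = l := D.uniq c.h2 ht h1 (Or.inl rfl) (by tauto)
  subst h5
  rcases h4 with ⟨h6, h7⟩ | ⟨h6, h7⟩
  · exact h2 (h6.trans rfl)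
  · exact hk ⟨h1, h6 ▸ h3⟩

theorem Inner.b_D2 (c : Ctx H z x y M) {k : K} (hk : D.Inner k) : D.b k ∉ D2 H :=
  Inner.a_D2 D.flip c.flip (Inner.flip D hk)

theorem Inner.short (c : Ctx H z x y M) {k : K} (hk : D.Inner k) {t n₁ n₂ : W} (ht : t ∈ D.I k)
    (h : Two H t n₁ n₂) : Dle (del (del H t) v) M n₁ n₂ := by
  rcases D.short_I c ht h with h1 | ⟨h1, h2, -⟩
  · exact h1
  · exact absurd ⟨h1, h2⟩ hk

/-! ### The retraction -/

/-- The retraction onto a part, followed by its embedding. -/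
noncomputable def rho (k : K) (w : W) : W := by
  classical
  exact if w ∈ D.P k then D.θ k w else if w ∈ D.A k then x else y

theorem rho_P {k : K} {w : W} (h : w ∈ D.P k) : D.rho k w = D.θ k w := if_pos h

theorem rho_A {k : K} {w : W} (h : w ∈ D.A k) : D.rho k w = x := by
  by_cases h' : w ∈ D.P k
  · rw [rho_P D h', D.A_P h h', D.θa]
  · unfold rho
    rw [if_neg h', if_pos h]

theorem rho_B {k : K} {w : W} (h : w ∈ D.B k) : D.rho k w = y := by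
  by_cases h' : w ∈ D.P k
  · rw [rho_P D h', D.B_P h h', D.θb]
  · unfold rho
    rw [if_neg h', if_neg h.1]

theorem rho_step {k : K} {w w' : W} (h : H.Adj w w') (hw : w ≠ v) (hw' : w' ≠ v) :
    D.rho k w = D.rho k w' ∨ (w ∈ D.P k ∧ w' ∈ D.P k) := by
  by_cases h1 : w ∈ D.I k
  · exact Or.inr ⟨D.I_P h1, D.I_adj k w w' h1 h⟩
  by_cases h2 : w' ∈ D.I k
  · exact Or.inr ⟨D.I_adj k w' w h2 h.symm, D.I_P h2⟩
  left
  rcases D.cases k hw with h3 | h3 | h3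
  · have h4 : w' ∈ D.A k := by
      by_contra h5
      exact h2 (D.A_edge k w w' h3 h5 hw' h).2
    rw [rho_A D h3, rho_A D h4]
  · exact absurd h3 h1
  · have h4 : w' ∈ D.B k := by
      by_contra h5
      exact h2 (D.B_edge k h3 h5 hw' h).2
    rw [rho_B D h3, rho_B D h4]

theorem rho_eq {k : K} {t w : W} (ht : t ∈ D.I k) (h : D.rho k w = D.θ k t) : w = t := by
  by_cases h1 : w ∈ D.P k
  · rw [rho_P D h1] at h
    exact D.θ_inj k h1 (D.I_P ht) h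
  · exfalso
    unfold rho at h
    rw [if_neg h1] at h
    split_ifs at h with h2
    · exact D.a_I k k (D.θ_inj k (D.a_P k) (D.I_P ht) ((D.θa k).trans h) ▸ ht)
    · exact D.b_I k k (D.θ_inj k (D.b_P k) (D.I_P ht) ((D.θb k).trans h) ▸ ht)

theorem rho_map {k : K} {t : W} (ht : t ∈ D.I k) {n : ℕ} {p q : W}
    (h : Dle (del (del H t) v) n p q) :
    Dle (del (del H z) (D.θ k t)) n (D.rho k p) (D.rho k q) := by
  refine h.map (D.rho k) ?_
  rintro w w' ⟨⟨hadj, h1, h2⟩, h3, h4⟩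
  rcases D.rho_step hadj h3 h4 with h5 | ⟨h5, h6⟩
  · exact Or.inl h5
  · right
    refine ⟨⟨?_, ?_, ?_⟩, ?_, ?_⟩
    · rw [rho_P D h5, rho_P D h6]; exact D.θ_adj k w w' h5 h6 hadj
    · rw [rho_P D h5]; exact D.θ_z k w h5
    · rw [rho_P D h6]; exact D.θ_z k w' h6
    · exact fun h => h1 (D.rho_eq ht h)
    · exact fun h => h2 (D.rho_eq ht h)

/-! ### Bad copies -/

/-- The vertex `v` of a bad copy does not have degree two. -/
theorem v_D2 (c : Ctx H z x y M) {k : K} (hk : D.Inner k) : v ∉ D2 H := by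
  rintro ⟨p, q, hpq⟩
  obtain ⟨-, h1⟩ := D.far c (D.term_of_adj hpq.adj_left) (D.term_of_adj hpq.adj_right) hpq.ne
    (c.hmax v p q hpq)
  obtain ⟨k₀, h2⟩ := h1 le_rfl
  have h3 : ∀ w, H.Adj v w → w ∈ D.P k₀ := by
    intro w hw
    rcases (hpq.iff w).1 hw with rfl | rfl
    · rcases h2 with ⟨h, -⟩ | ⟨h, -⟩
      · rw [h]; exact D.a_P k₀
      · rw [h]; exact D.b_P k₀
    · rcases h2 with ⟨-, h⟩ | ⟨-, h⟩
      · rw [h]; exact D.b_P k₀
      · rw [h]; exact D.a_P k₀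
  have h4 : k₀ = k := by
    by_contra hne
    obtain ⟨w, h5, h6⟩ := D.exists_adj_A c.h2 k
    obtain ⟨w', h7, h8⟩ := D.exists_adj_B c.h2 k
    rcases D.A_other k k₀ hne with h9 | h9
    · exact h7.1 (h9 (h3 w' h8))
    · exact Set.disjoint_left.1 h9 (h3 w h6) h5
  subst h4
  apply hk
  rcases h2 with ⟨h5, h6⟩ | ⟨h5, h6⟩
  · exact ⟨h5 ▸ hpq.adj_left, h6 ▸ hpq.adj_right⟩
  · exact ⟨h6 ▸ hpq.adj_right, h5 ▸ hpq.adj_left⟩

/-- The partner of a neighbour of `v` of degree two. -/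
theorem partner (c : Ctx H z x y M) (hv : v ∉ D2 H) {t : W} (ht : t ∈ D2 H) (hvt : H.Adj v t) :
    ∃ p k, p ≠ t ∧ p ∉ D2 H ∧ H.Adj v p ∧ ((p = D.a k ∧ t = D.b k) ∨ (p = D.b k ∧ t = D.a k)) ∧
      Dle (del H v) M p t := by
  obtain ⟨p, k, h1, h2, h3, h4⟩ := D.short_v c ht hvt
  refine ⟨p, k, h1, fun hp => ?_, h2, h3, h4⟩
  obtain ⟨τ, h5, h6, h7⟩ := exists_third c.h2 c.hcard hv p t
  have hT := D.term_of_adj h5
  have hA : ∀ w ∈ D.A k, w = D.a k := fun w hw => by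
    rcases h3 with ⟨h8, h9⟩ | ⟨h8, h9⟩
    · exact D.A_eq c.h2 (h8 ▸ hp) (h8 ▸ h2) hw
    · exact D.A_eq c.h2 (h9 ▸ ht) (h9 ▸ hvt) hw
  have hB : ∀ w ∈ D.B k, w = D.b k := fun w hw => by
    have hb : D.b k ∈ D2 H ∧ H.Adj v (D.b k) := by
      rcases h3 with ⟨h8, h9⟩ | ⟨h8, h9⟩
      · rw [← h9]; exact ⟨ht, hvt⟩
      · rw [← h8]; exact ⟨hp, h2⟩
    exact D.flip.A_eq (k := k) c.h2 hb.1 hb.2 hw
  rcases D.cases k (Term.ne_v D hT) with h8 | h8 | h8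
  · have h9 := hA τ h8
    rcases h3 with ⟨h10, h11⟩ | ⟨h10, h11⟩
    · exact h6 (h9.trans h10.symm)
    · exact h7 (h9.trans h11.symm)
  · exact Term.not_I D hT k h8
  · have h9 := hB τ h8
    rcases h3 with ⟨h10, h11⟩ | ⟨h10, h11⟩
    · exact h7 (h9.trans h11.symm)
    · exact h6 (h9.trans h10.symm)

/-- `F` is the part of the graph behind the terminal `j` of the piece `k`. -/
def Br (k : K) (j : W) (F : Set W) : Prop := (j = D.a k ∧ F = D.B k) ∨ (j = D.b k ∧ F = D.A k)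

theorem Br.edge {k : K} {j : W} {F : Set W} (h : D.Br k j F) {w w' : W} (hw : w ∈ F) (hw' : w' ∉ F)
    (hv : w' ≠ v) (hadj : H.Adj w w') : w' ∈ D.I k := by
  rcases h with ⟨-, rfl⟩ | ⟨-, rfl⟩
  · exact (D.B_edge k hw hw' hv hadj).2
  · exact (D.A_edge k w w' hw hw' hv hadj).2

theorem Br.ne_v {k : K} {j : W} {F : Set W} (h : D.Br k j F) {w : W} (hw : w ∈ F) : w ≠ v := by
  rcases h with ⟨-, rfl⟩ | ⟨-, rfl⟩
  · exact hw.2.2
  · rintro rfl; exact D.A_v k hw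

theorem Br.j_notMem {k : K} {j : W} {F : Set W} (h : D.Br k j F) : j ∉ F := by
  rcases h with ⟨rfl, rfl⟩ | ⟨rfl, rfl⟩
  · exact fun h => h.1 (D.A_a k)
  · exact D.A_b k

theorem Br.j_P {k : K} {j : W} {F : Set W} (h : D.Br k j F) : j ∈ D.P k := by
  rcases h with ⟨rfl, rfl⟩ | ⟨rfl, rfl⟩
  · exact D.a_P k
  · exact D.b_P k

theorem Br.term {k : K} {j : W} {F : Set W} (h : D.Br k j F) : D.Term j := by
  rcases h with ⟨rfl, rfl⟩ | ⟨rfl, rfl⟩
  · exact D.term_a k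
  · exact D.term_b k

theorem Br.other {k l : K} {j : W} {F : Set W} (h : D.Br k j F) (hl : l ≠ k) :
    D.P l ⊆ F ∨ Disjoint (D.P l) F := by
  rcases h with ⟨-, rfl⟩ | ⟨-, rfl⟩
  · exact D.flip.A_other k l hl
  · exact D.A_other k l hl

theorem Br.exists_adj (h2 : Conn2 H) {k : K} {j : W} {F : Set W} (h : D.Br k j F) :
    ∃ w ∈ F, H.Adj v w := by
  rcases h with ⟨-, rfl⟩ | ⟨-, rfl⟩
  · exact D.exists_adj_B h2 k
  · exact D.exists_adj_A h2 k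

theorem Br.disj (h2 : Conn2 H) {k l : K} {j : W} {F F' : Set W} (h : D.Br k j F) (h' : D.Br l j F')
    (hkl : k ≠ l) : Disjoint F F' := by
  rw [Set.disjoint_left]
  intro w hw hw'
  have e1 : Disjoint (D.P l) F := by
    rcases Br.other D h hkl.symm with h3 | h3
    · exact absurd (h3 (Br.j_P D h')) (Br.j_notMem D h)
    · exact h3
  have e2 : Disjoint (D.P k) F' := by
    rcases Br.other D h' hkl with h3 | h3
    · exact absurd (h3 (Br.j_P D h)) (Br.j_notMem D h')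
    · exact h3
  have hcl : ∀ w ∈ F ∩ F', ∀ w', (del H v).Adj w w' → w' ∈ F ∩ F' := by
    rintro w ⟨h3, h4⟩ w' ⟨hadj, h5, h6⟩
    have h7 : w' ∈ D.I k → w' ∉ F' := fun h8 => Set.disjoint_left.1 e2 (D.I_P h8)
    have h8 : w' ∈ D.I l → w' ∉ F := fun h8 => Set.disjoint_left.1 e1 (D.I_P h8)
    have h9 : w' ∈ F := by
      by_contra h10
      have h11 := Br.edge D h h3 h10 h6 hadj
      exact hkl (D.I_disj k l w' h11 (Br.edge D h' h4 (h7 h11) h6 hadj))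
    have h10 : w' ∈ F' := by
      by_contra h10
      exact h8 (Br.edge D h' h4 h10 h6 hadj) h9
    exact ⟨h9, h10⟩
  have h3 := (Dle.of_reachable (h2.del_reachable (Br.ne_v D h hw) (Term.ne_v D (Br.term D h)))).closed
    hcl ⟨hw, hw'⟩
  exact Br.j_notMem D h h3.1

/-- A terminal which is not adjacent to `v` lies in two pieces. -/
theorem two_br (h2 : Conn2 H) {k : K} (hj : ¬ H.Adj v (D.a k)) :
    ∃ l F, l ≠ k ∧ D.Br l (D.a k) F := by
  obtain ⟨w₀, h3, h4⟩ := D.exists_adj_A h2 k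
  have h5 : w₀ ≠ D.a k := by rintro rfl; exact hj h4
  obtain ⟨l, ⟨h6, h7⟩ | ⟨h6, h7⟩⟩ := D.sep h2 (D.term_a k) h4.ne.symm h5
  · refine ⟨l, _, ?_, Or.inl ⟨h6, rfl⟩⟩
    rintro rfl
    rcases h7 with h7 | h7
    · exact D.A_I _ _ h3 h7
    · exact h7.1 h3
  · refine ⟨l, _, ?_, Or.inr ⟨h6, rfl⟩⟩
    rintro rfl
    exact D.ab _ h6

/-- In a bad copy `v` has two neighbours of degree at least three. -/
theorem two_short_aux (c : Ctx H z x y M) {k : K} (hk : ¬ H.Adj v (D.a k)) :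
    ∃ y₁ y₂, y₁ ≠ y₂ ∧ y₁ ∉ D2 H ∧ y₂ ∉ D2 H ∧ H.Adj v y₁ ∧ H.Adj v y₂ := by
  by_contra hcon
  push Not at hcon
  have hv : v ∉ D2 H := D.v_D2 c (k := k) (fun h => hk h.1)
  obtain ⟨l, F', hl, hF'⟩ := D.two_br c.h2 hk
  have hF : D.Br k (D.a k) (D.B k) := Or.inl ⟨rfl, rfl⟩
  have hdisj := Br.disj D c.h2 hF hF' hl.symm
  obtain ⟨m, F, hF1, hF2⟩ : ∃ m F, D.Br m (D.a k) F ∧ ∀ p ∈ F, H.Adj v p → p ∈ D2 H := by
    by_cases h : ∀ p ∈ D.B k, H.Adj v p → p ∈ D2 H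
    · exact ⟨k, _, hF, h⟩
    · push Not at h
      obtain ⟨p, hp, hp', hp''⟩ := h
      refine ⟨l, F', hF', fun q hq hq' => ?_⟩
      by_contra hq''
      exact hcon p q (by rintro rfl; exact Set.disjoint_left.1 hdisj hp hq) hp'' hq'' hp' hq'
  obtain ⟨w, hw, hvw⟩ := Br.exists_adj D c.h2 hF1
  obtain ⟨p, m', h1, h2, h3, h4, -⟩ := D.partner c hv (hF2 w hw hvw) hvw
  have h5 : p ∉ F := fun h => h2 (hF2 p h h3)
  have hpP : p ∈ D.P m' := by
    rcases h4 with ⟨h, -⟩ | ⟨h, -⟩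
    · exact h ▸ D.a_P m'
    · exact h ▸ D.b_P m'
  have hwP : w ∈ D.P m' := by
    rcases h4 with ⟨-, h⟩ | ⟨-, h⟩
    · exact h ▸ D.b_P m'
    · exact h ▸ D.a_P m'
  have h6 : m' = m := by
    by_contra hne
    rcases Br.other D hF1 hne with h6 | h6
    · exact h5 (h6 hpP)
    · exact Set.disjoint_left.1 h6 hwP hw
  subst h6
  have hjF := Br.j_notMem D hF1
  have h7 : D.a k = p := by
    rcases hF1 with ⟨h7, h8⟩ | ⟨h7, h8⟩ <;> rcases h4 with ⟨h9, h10⟩ | ⟨h9, h10⟩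
    · exact h7.trans h9.symm
    · exact absurd (h7.trans h10.symm ▸ hw) hjF
    · exact absurd (h7.trans h10.symm ▸ hw) hjF
    · exact h7.trans h9.symm
  exact hk (h7 ▸ h3)

/-- In a bad copy `v` has two neighbours of degree at least three. -/
theorem two_short (c : Ctx H z x y M) {k : K} (hk : D.Inner k) :
    ∃ y₁ y₂, y₁ ≠ y₂ ∧ y₁ ∉ D2 H ∧ y₂ ∉ D2 H ∧ H.Adj v y₁ ∧ H.Adj v y₂ := by
  by_cases h : H.Adj v (D.a k)
  · exact D.flip.two_short_aux c.flip (k := k) (fun h' => hk ⟨h, h'⟩)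
  · exact D.two_short_aux c h

/-- An inner part has an interior vertex of degree two adjacent to the first terminal. -/
theorem Inner.exists_D2 (c : Ctx H z x y M)
    (hs : ∀ a b, a ∉ D2 H → b ∉ D2 H → H.Adj a b → a = v ∨ b = v) {k : K} (hk : D.Inner k) :
    ∃ t ∈ D.I k, t ∈ D2 H ∧ H.Adj (D.a k) t := by
  obtain ⟨t, ht, ht'⟩ := D.exists_adj_I c.h2 k
  refine ⟨t, ht, ?_, ht'⟩
  by_contra h
  rcases hs _ _ (Inner.a_D2 D c hk) h ht' with h1 | h1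
  · exact D.a_v k h1
  · exact D.I_v k (h1 ▸ ht)

/-- If there is a bad copy then the neighbours of `z` have degree at least three. -/
theorem Inner.x_D2 (c : Ctx H z x y M)
    (hs : ∀ a b, a ∉ D2 H → b ∉ D2 H → H.Adj a b → a = v ∨ b = v) {k : K} (hk : D.Inner k) :
    x ∉ D2 H := by
  obtain ⟨t, ht, ⟨e, f, hef⟩, ht'⟩ := Inner.exists_D2 D c hs hk
  obtain ⟨n₂, htwo⟩ : ∃ n₂, Two H t (D.a k) n₂ := by
    rcases (hef.iff _).1 ht'.symm with h | h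
    · exact ⟨f, h ▸ hef⟩
    · exact ⟨e, h ▸ hef.symm⟩
  have h1 := D.rho_map ht (Inner.short D c hk ht htwo)
  rw [rho_P D (D.a_P k), D.θa] at h1
  have hn₂ : n₂ ∈ D.P k := D.I_adj k t n₂ ht htwo.adj_right
  rw [rho_P D hn₂] at h1
  have h2 : x ≠ D.θ k n₂ :=
    fun h => htwo.ne (D.θ_inj k (D.a_P k) hn₂ ((D.θa k).trans h))
  obtain ⟨w, ⟨hw, hw1, hw2⟩, hw3, hw4⟩ := h1.exists_adj h2
  intro hx
  have h3 : H.Adj x (D.θ k t) := by
    have := D.θ_adj k _ _ (D.a_P k) (D.I_P ht) ht'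
    rwa [D.θa k] at this
  exact D2_three hx c.two.adj_left.symm h3 hw (D.θ_z k t (D.I_P ht)).symm hw2.symm hw4.symm

theorem Inner.y_D2 (c : Ctx H z x y M)
    (hs : ∀ a b, a ∉ D2 H → b ∉ D2 H → H.Adj a b → a = v ∨ b = v) {k : K} (hk : D.Inner k) :
    y ∉ D2 H := Inner.x_D2 D.flip c.flip hs (Inner.flip D hk)

end

end Dec

end Pool.Agent.StrongMax
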