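import Pool.Agent.Lib.StrongMax.Dec2

/-!
# Bad copies in graphs all of whose threads have one inner vertex (helper18)
-/

namespace Pool.Agent.StrongMax

universe v w w'

namespace Dec

section

variable {W : Type v} {H : SimpleGraph W} {z x y v : W} {K : Type w} (D : Dec H z x y v K)
  {M : ℕ}

theorem Inner.x_ne (c : Ctx H z x y M) (hM1 : 1 ≤ M)
    (hs : ∀ a b, a ∉ D2 H → b ∉ D2 H → H.Adj a b → a = v ∨ b = v)
    (hL : ∀ a b, a ∈ D2 H → b ∈ D2 H → ¬ H.Adj a b) {k : K} (hk : D.Inner k) : x ≠ v := by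
  intro hxv
  have hv : v ∉ D2 H := D.v_D2 c hk
  have hvz : H.Adj v z := hxv ▸ c.two.adj_left.symm
  have hcol : ∀ a b, (del H v).Adj a b → (a ∈ D2 H ↔ ¬ b ∈ D2 H) := by
    rintro a b ⟨hab, ha, hb⟩
    constructor
    · exact fun h h' => hL a b h h' hab
    · intro h
      by_contra h'
      rcases hs a b h' h hab with h1 | h1
      · exact ha h1
      · exact hb h1
  -- `M` is odd
  obtain ⟨p, -, h1, h2, h3, -, h4⟩ := D.partner c hv c.two.mem hvz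
  have hodd : Odd M := h4.parity_odd hcol (fun h => h2 (h.2 c.two.mem))
    (fun m hm => (D.far c (D.term_of_adj h3) (D.term_of_adj hvz) h1 hm).1)
  obtain ⟨t, ht, htD, hat⟩ := Inner.exists_D2 D c hs hk
  obtain ⟨n₂, htwo⟩ : ∃ n₂, Two H t (D.a k) n₂ := by
    obtain ⟨e, f, hef⟩ := htD
    rcases (hef.iff _).1 hat.symm with h | h
    · exact ⟨f, h ▸ hef⟩
    · exact ⟨e, h ▸ hef.symm⟩
  have ha : D.a k ∉ D2 H := Inner.a_D2 D c hk
  have hn₂D : n₂ ∉ D2 H := fun h => hL t n₂ htD h htwo.adj_right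
  have hn₂ : n₂ ∈ D.P k := D.I_adj k t n₂ ht htwo.adj_right
  have h5 : Dle (del (del H t) v) (M - 1) (D.a k) n₂ := by
    refine (Inner.short D c hk ht htwo).parity_same (col := fun w => w ∈ D2 H) ?_ ?_ hodd
    · rintro a b ⟨⟨hab, -, -⟩, h3, h4⟩
      exact hcol a b ⟨hab, h3, h4⟩
    · exact ⟨fun h => absurd h ha, fun h => absurd h hn₂D⟩
  have h6 := D.rho_map ht h5
  rw [rho_P D (D.a_P k), rho_P D hn₂] at h6
  have hθa : D.θ k (D.a k) = v := (D.θa k).trans hxv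
  have h7 : D.θ k n₂ ≠ v := fun h => htwo.ne (D.θ_inj k (D.a_P k) hn₂ (hθa.trans h.symm))
  rw [hθa] at h6
  obtain ⟨σ, l, h8, h9, h10⟩ := h6.from h7
  have h11 : H.Adj v (D.θ k t) := by
    have := D.θ_adj k _ _ (D.a_P k) (D.I_P ht) hat
    rwa [hθa] at this
  have h12 : Dle (del H v) (l + 1) σ (D.θ k t) := by
    refine Dle.snoc (h9.mono_graph (fun a b h => ⟨h.1.1.1, h.2.1, h.2.2⟩)) ⟨?_, h7, h11.ne.symm⟩
    exact (D.θ_adj k _ _ (D.I_P ht) hn₂ htwo.adj_right).symm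
  have h13 := (D.far c (D.term_of_adj h8.1.1) (D.term_of_adj h11) h8.2.2 h12).1
  omega

theorem Inner.y_ne (c : Ctx H z x y M) (hM1 : 1 ≤ M)
    (hs : ∀ a b, a ∉ D2 H → b ∉ D2 H → H.Adj a b → a = v ∨ b = v)
    (hL : ∀ a b, a ∈ D2 H → b ∈ D2 H → ¬ H.Adj a b) {k : K} (hk : D.Inner k) : y ≠ v :=
  Inner.x_ne D.flip c.flip hM1 hs hL (Inner.flip D hk)

/-- The graph induced on a part, without the vertex `c₀`. -/
def part (k : K) (c₀ : W) : SimpleGraph W where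
  Adj w w' := H.Adj w w' ∧ (w ∈ D.P k ∧ w ≠ c₀) ∧ (w' ∈ D.P k ∧ w' ≠ c₀)
  symm := ⟨fun _ _ h => ⟨h.1.symm, h.2.2, h.2.1⟩⟩
  loopless := ⟨fun _ h => h.1.ne rfl⟩

/-- Every vertex of a part is joined to a terminal, avoiding a given vertex. -/
theorem exit (h2 : Conn2 H) {k : K} {w₀ c₀ : W} (hw₀ : w₀ ∈ D.P k) (hne : w₀ ≠ c₀) (hcv : c₀ ≠ v) :
    ∃ e n, (e = D.a k ∨ e = D.b k) ∧ e ≠ c₀ ∧ Dle (D.part k c₀) n w₀ e := by
  by_contra hcon
  push Not at hcon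
  have hC : ∀ w, (D.part k c₀).Reachable w₀ w → w ∈ D.P k ∧ w ≠ c₀ := by
    intro w hw
    refine (Dle.of_reachable hw).closed (C := {w | w ∈ D.P k ∧ w ≠ c₀}) ?_ ⟨hw₀, hne⟩
    rintro a - b ⟨-, -, h⟩
    exact h
  obtain ⟨w, hw, w', hw', h1, h2, h3⟩ := h2 {w | (D.part k c₀).Reachable w₀ w} c₀
    ⟨w₀, SimpleGraph.Reachable.refl _, hne⟩ ⟨v, fun h => D.P_v k (hC v h).1 rfl, hcv.symm⟩
  obtain ⟨h4, -⟩ := hC w hw
  have h5 : w ∈ D.I k := by
    rcases (D.mem_P k w).1 h4 with h | h | h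
    · exact h
    · exact absurd (Dle.of_reachable hw) (hcon w _ (Or.inl h) h1)
    · exact absurd (Dle.of_reachable hw) (hcon w _ (Or.inr h) h1)
  have h6 : (D.part k c₀).Adj w w' := ⟨h3, ⟨h4, h1⟩, ⟨D.I_adj k w w' h5 h3, h2⟩⟩
  exact hw' ((show (D.part k c₀).Reachable w₀ w from hw).trans h6.reachable)

theorem θ_term {k : K} {e : W} (h : e = D.a k ∨ e = D.b k) (c : Ctx H z x y M) :
    H.Adj (D.θ k e) z := by
  rcases h with rfl | rfl
  · rw [D.θa]; exact c.two.adj_left.symm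
  · rw [D.θb]; exact c.two.adj_right.symm

/-- If the image of a part avoids `v`, then its vertices are joined to `z` avoiding any vertex. -/
theorem exit_image (c : Ctx H z x y M) (hzv : z ≠ v) {k : K} (hθ : ∀ w ∈ D.P k, D.θ k w ≠ v) {w₀ c₁ : W}
    (hw₀ : w₀ ∈ D.P k) (hcz : c₁ ≠ z) (hcw : D.θ k w₀ ≠ c₁) :
    ∃ n, Dle (del (del H c₁) v) n (D.θ k w₀) z := by
  obtain ⟨c₀, hc₀, hc₀v, hc₀'⟩ : ∃ c₀, w₀ ≠ c₀ ∧ c₀ ≠ v ∧ ∀ w ∈ D.P k, D.θ k w = c₁ → w = c₀ := by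
    by_cases h : ∃ c₀ ∈ D.P k, D.θ k c₀ = c₁
    · obtain ⟨c₀, h1, h2⟩ := h
      exact ⟨c₀, by rintro rfl; exact hcw h2, D.P_v k h1,
        fun w hw hw' => D.θ_inj k hw h1 (hw'.trans h2.symm)⟩
    · push Not at h
      by_cases h1 : w₀ = D.a k
      · exact ⟨D.b k, fun h2 => D.ab k (h1.symm.trans h2), D.b_v k, fun w hw hw' => absurd hw' (h w hw)⟩
      · exact ⟨D.a k, h1, D.a_v k, fun w hw hw' => absurd hw' (h w hw)⟩
  obtain ⟨e, n, he, hec, h1⟩ := D.exit c.h2 hw₀ hc₀ hc₀v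
  have hne : ∀ w, w ∈ D.P k → w ≠ c₀ → D.θ k w ≠ c₁ := fun w hw hw' h => hw' (hc₀' w hw h)
  have heP : e ∈ D.P k := by
    rcases he with rfl | rfl
    · exact D.a_P k
    · exact D.b_P k
  refine ⟨n + 1, Dle.snoc (G := del (del H c₁) v) (h1.map (D.θ k) ?_)
    ⟨⟨D.θ_term he c, hne e heP hec, hcz.symm⟩, hθ e heP, hzv⟩⟩
  rintro w w' ⟨h2, ⟨h3, h4⟩, h5, h6⟩
  exact Or.inr ⟨⟨D.θ_adj k w w' h3 h5 h2, hne w h3 h4, hne w' h5 h6⟩, hθ w h3, hθ w' h5⟩

/-- The position of `z` with respect to a bad copy. -/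
theorem Inner.E2 [Finite W] (c : Ctx H z x y M)
    (hs : ∀ a b, a ∉ D2 H → b ∉ D2 H → H.Adj a b → a = v ∨ b = v)
    (hL : ∀ a b, a ∈ D2 H → b ∈ D2 H → ¬ H.Adj a b) (hN : ∀ w, H.Adj v w → w ∉ D2 H)
    {k₀ : K} (hk : D.Inner k₀) :
    ∃ k, z ∈ D.I k ∧ H.Adj v (D.a k) ∧ H.Adj v (D.b k) ∧ Dle (del H v) M (D.a k) (D.b k) := by
  have hv : v ∉ D2 H := D.v_D2 c hk
  have hzD : z ∈ D2 H := c.two.mem
  have hzv : z ≠ v := fun h => hv (h ▸ hzD)
  have hxv : x ≠ v := fun h => hN z (h ▸ c.two.adj_left.symm) hzD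
  have hyv : y ≠ v := fun h => hN z (h ▸ c.two.adj_right.symm) hzD
  have hxD : x ∉ D2 H := fun h => hL z x hzD h c.two.adj_left
  have hyD : y ∉ D2 H := fun h => hL z y hzD h c.two.adj_right
  have hzT : ¬ D.Term z := fun h => hN z (D.term_D2 c h hzD) hzD
  obtain ⟨k, hzP, -⟩ := D.edge z x c.two.adj_left hzv hxv
  have hzI : z ∈ D.I k := by
    rcases (D.mem_P k z).1 hzP with h | h | h
    · exact h
    · exact absurd ⟨k, Or.inl h⟩ hzT
    · exact absurd ⟨k, Or.inr h⟩ hzT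
  have hTD : ∀ w, D.Term w → w ∉ D2 H := fun w hw h => hN w (D.term_D2 c hw h) h
  refine ⟨k, hzI, ?_⟩
  by_cases hθ : ∀ w ∈ D.P k, D.θ k w ≠ v
  · -- the image avoids `v`
    exfalso
    have hmaps : ∀ w ∈ D.P k, D.θ k w ∈ D.P k := by
      intro w hw
      rcases D.cases k (hθ w hw) with h | h | h
      · by_cases h1 : D.θ k w = D.a k
        · rw [h1]; exact D.a_P k
        · exfalso
          obtain ⟨n, hn⟩ := D.exit_image c hzv hθ hw
            (fun h2 => hzT ⟨k, Or.inl h2.symm⟩) h1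
          exact D.A_I k z (D.closed_A k h h1 hn).1 hzI
      · exact D.I_P h
      · by_cases h1 : D.θ k w = D.b k
        · rw [h1]; exact D.b_P k
        · exfalso
          obtain ⟨n, hn⟩ := D.exit_image c hzv hθ hw
            (fun h2 => hzT ⟨k, Or.inr h2.symm⟩) h1
          exact (D.flip.closed_A k h h1 hn).1.2.1 hzI
    let f : D.P k → D.P k := fun w => ⟨D.θ k w.1, hmaps w.1 w.2⟩
    have hf : Function.Injective f := fun w w' h =>
      Subtype.ext (D.θ_inj k w.2 w'.2 (congrArg Subtype.val h))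
    obtain ⟨w, hw⟩ := Finite.surjective_of_injective hf ⟨z, hzP⟩
    exact D.θ_z k w.1 w.2 (congrArg Subtype.val hw)
  push Not at hθ
  obtain ⟨q, hqP, hqv⟩ := hθ
  have hqI : q ∈ D.I k := by
    rcases (D.mem_P k q).1 hqP with h | h | h
    · exact h
    · exact absurd ((D.θa k).symm.trans ((congrArg (D.θ k) h.symm).trans hqv)) hxv
    · exact absurd ((D.θb k).symm.trans ((congrArg (D.θ k) h.symm).trans hqv)) hyv
  have hqne : q ≠ v := D.P_v k hqP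
  -- the colouring
  obtain ⟨col, hcoldef⟩ : ∃ col : W → Prop, ∀ w, col w ↔ (w ∈ D2 H ∨ w = v) := ⟨_, fun w => Iff.rfl⟩
  have hcol : ∀ a b, H.Adj a b → (col a ↔ ¬ col b) := by
    intro a b hab
    rw [hcoldef a, hcoldef b]
    constructor
    · intro h h'
      rcases h with h | h
      · rcases h' with h' | h'
        · exact hL a b h h' hab
        · rw [h'] at hab; exact hN a hab.symm h
      · rcases h' with h' | h'
        · rw [h] at hab; exact hN b hab h'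
        · exact hab.ne (h.trans h'.symm)
    · intro h
      rw [not_or] at h
      by_contra h'
      rw [not_or] at h'
      rcases hs a b h'.1 h.1 hab with h1 | h1
      · exact h'.2 h1
      · exact h.2 h1
  have hqD : q ∈ D2 H := by
    obtain ⟨e, n, he, hec, h1⟩ := D.exit (c₀ := D.a k) c.h2 hqP (fun h => D.a_I k k (h ▸ hqI)) (D.a_v k)
    have heb : e = D.b k := he.resolve_left hec
    have h2 : q ∈ {w | (col w ↔ col (D.θ k w))} := by
      refine h1.symm.closed ?_ ?_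
      · rintro w hw w' ⟨h2, ⟨h3, -⟩, h4, -⟩
        have e1 := hcol _ _ h2
        have e2 := hcol _ _ (D.θ_adj k w w' h3 h4 h2)
        have e3 : col w ↔ col (D.θ k w) := hw
        show col w' ↔ col (D.θ k w')
        rw [e1, e2] at e3
        exact not_iff_not.1 e3
      · show col e ↔ col (D.θ k e)
        rw [heb, D.θb, hcoldef, hcoldef]
        constructor
        · intro h
          rcases h with h | h
          · exact absurd h (hTD _ (D.term_b k))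
          · exact absurd h (D.b_v k)
        · intro h
          rcases h with h | h
          · exact absurd h hyD
          · exact absurd h hyv
    have h3 : col q ↔ col (D.θ k q) := h2
    rw [hqv, hcoldef, hcoldef] at h3
    rcases h3.2 (Or.inr rfl) with h | h
    · exact h
    · exact absurd h hqne
  obtain ⟨q₁, q₂, hq⟩ := hqD
  have hq₁ : q₁ ∈ D.P k := D.I_adj k q q₁ hqI hq.adj_left
  have hq₂ : q₂ ∈ D.P k := D.I_adj k q q₂ hqI hq.adj_right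
  rcases D.short_I c hqI hq with h1 | h1
  swap
  · exact h1
  have h2 := D.rho_map hqI h1
  rw [rho_P D hq₁, rho_P D hq₂, hqv] at h2
  have h3 : H.Adj v (D.θ k q₁) := by
    have := D.θ_adj k _ _ hqP hq₁ hq.adj_left
    rwa [hqv] at this
  have h4 : H.Adj v (D.θ k q₂) := by
    have := D.θ_adj k _ _ hqP hq₂ hq.adj_right
    rwa [hqv] at this
  have h5 : D.θ k q₁ ≠ D.θ k q₂ := fun h => hq.ne (D.θ_inj k hq₁ hq₂ h)
  have h6 : Dle (del H v) M (D.θ k q₁) (D.θ k q₂) := h2.mono_graph (fun a b h => ⟨h.1.1, h.2.1, h.2.2⟩)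
  obtain ⟨m, h7⟩ := (D.far c (D.term_of_adj h3) (D.term_of_adj h4) h5 h6).2 le_rfl
  -- walks to `z`
  have key : ∀ q' q'', Two H q q' q'' → q' ∈ D.P k → q'' ∈ D.P k →
      ∃ n, Dle (del (del H (D.θ k q')) v) n (D.θ k q'') z := by
    intro q' q'' hq' hq'P hq''P
    obtain ⟨e, n, he, hec, h8⟩ := D.exit c.h2 hq''P hq'.ne.symm (D.P_v k hq'P)
    have heT : D.Term e := ⟨k, he⟩
    have heP : e ∈ D.P k := (D.mem_P k e).2 (Or.inr he)
    have h9 : Dle (del (D.part k q') q) n q'' e := by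
      rcases h8.split hq'.adj_right.ne.symm (fun h => Term.not_I D heT k (h ▸ hqI)) with
        h9 | ⟨p, p', l₁, l₂, h10, h11, h12, -⟩
      · exact h9
      · exfalso
        have e1 : p = q'' := ((hq'.iff p).1 h11.1).resolve_left h11.2.2.2
        have e2 : p' = q'' := ((hq'.iff p').1 h12.1).resolve_left h12.2.2.2
        exact h10 (e1.trans e2.symm)
    have hinj : ∀ w w', w ∈ D.P k → w' ∈ D.P k → w ≠ w' → D.θ k w ≠ D.θ k w' :=
      fun w w' hw hw' hne h => hne (D.θ_inj k hw hw' h)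
    refine ⟨n + 1, Dle.snoc (G := del (del H (D.θ k q')) v) (h9.map (D.θ k) ?_) ?_⟩
    · rintro w w' ⟨⟨h10, ⟨h11, h12⟩, h13, h14⟩, h15, h16⟩
      exact Or.inr ⟨⟨D.θ_adj k w w' h11 h13 h10, hinj _ _ h11 hq'P h12, hinj _ _ h13 hq'P h14⟩,
        fun h => hinj _ _ h11 hqP h15 (h.trans hqv.symm),
        fun h => hinj _ _ h13 hqP h16 (h.trans hqv.symm)⟩
    · exact ⟨⟨D.θ_term he c, hinj _ _ heP hq'P hec, (D.θ_z k q' hq'P).symm⟩,
        fun h => hinj _ _ heP hqP (fun h => Term.not_I D heT k (h ▸ hqI)) (h.trans hqv.symm), hzv⟩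
  have hmk : m = k := by
    by_contra hne
    obtain ⟨n₁, hn₁⟩ := key q₁ q₂ hq hq₁ hq₂
    obtain ⟨n₂, hn₂⟩ := key q₂ q₁ hq.symm hq₂ hq₁
    have hza : z ≠ D.a m := fun h => hzT ⟨m, Or.inl h⟩
    have hzb : z ≠ D.b m := fun h => hzT ⟨m, Or.inr h⟩
    rcases D.cases m hzv with h8 | h8 | h8
    · rcases h7 with ⟨h9, h10⟩ | ⟨h9, h10⟩
      · rw [h9, h10] at hn₁
        exact D.A_b m (D.closed_A m h8 hza hn₁.symm).1
      · rw [h9, h10] at hn₂
        exact D.A_b m (D.closed_A m h8 hza hn₂.symm).1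
    · exact hne (D.I_disj m k z h8 hzI)
    · rcases h7 with ⟨h9, h10⟩ | ⟨h9, h10⟩
      · rw [h9, h10] at hn₂
        exact (D.flip.closed_A m h8 hzb hn₂.symm).1.1 (D.A_a m)
      · rw [h9, h10] at hn₁
        exact (D.flip.closed_A m h8 hzb hn₁.symm).1.1 (D.A_a m)
  subst hmk
  rcases h7 with ⟨h9, h10⟩ | ⟨h9, h10⟩
  · exact ⟨h9 ▸ h3, h10 ▸ h4, h9 ▸ h10 ▸ h6⟩
  · exact ⟨h10 ▸ h4, h9 ▸ h3, h9 ▸ h10 ▸ h6.symm⟩

theorem contra_aux {z' x' y' : W} {K' : Type w'} (D' : Dec H z' x' y' v K') (h2 : Conn2 H)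
    {m : K} {t : W} (htA : t ∈ D.A m) (hta : t ≠ D.a m) {l' : K'} (htI : t ∈ D'.I l')
    (h : (D'.a l' = D.a m ∧ D'.b l' = D.b m) ∨ (D'.a l' = D.b m ∧ D'.b l' = D.a m)) : False := by
  let C : Set W := {w | ∃ n, Dle (del (del H (D.a m)) v) n t w}
  have hCA : ∀ w ∈ C, w ∈ D.A m ∧ w ≠ D.a m := by
    rintro w ⟨n, hn⟩
    exact D.closed_A m htA hta hn
  have hCI : ∀ w ∈ C, w ∈ D'.I l' ∧ w ∈ D.A m ∧ w ≠ D.a m := by
    rintro w ⟨n, hn⟩
    refine hn.closed (C := {w | w ∈ D'.I l' ∧ w ∈ D.A m ∧ w ≠ D.a m}) ?_ ⟨htI, htA, hta⟩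
    rintro w ⟨h3, h4, h5⟩ w' h6
    obtain ⟨h7, h8⟩ := D.closed_A m h4 h5 (Dle.of_adj h6)
    refine ⟨?_, h7, h8⟩
    rcases (D'.mem_P l' w').1 (D'.I_adj l' w w' h3 h6.1.1) with h9 | h9 | h9
    · exact h9
    · exfalso
      rcases h with ⟨h10, -⟩ | ⟨h10, -⟩
      · exact h8 (h9.trans h10)
      · exact D.A_b m (h10 ▸ h9 ▸ h7)
    · exfalso
      rcases h with ⟨-, h10⟩ | ⟨-, h10⟩
      · exact D.A_b m (h10 ▸ h9 ▸ h7)
      · exact h8 (h9.trans h10)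
  obtain ⟨w, hw, w', hw', h3, h4, h5⟩ := h2 C (D.a m) ⟨t, ⟨0, Dle.refl _ _ _⟩, hta⟩
    ⟨v, fun hv => D'.I_v l' (hCI v hv).1, (D.a_v m).symm⟩
  by_cases hv : w' = v
  · subst hv
    exact D'.P_v l' (D'.I_adj l' w w' (hCI w hw).1 h5) rfl
  · obtain ⟨n, hn⟩ := hw
    have hwv : w ≠ v := by
      rintro rfl
      exact D'.I_v l' (hCI w ⟨n, hn⟩).1
    exact hw' ⟨n + 1, hn.snoc ⟨⟨h5, h3, h4⟩, hwv, hv⟩⟩

/-- The final contradiction. -/
theorem Inner.contra {z' x' y' : W} {K' : Type w'} (D' : Dec H z' x' y' v K') (c : Ctx H z x y M)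
    {k : K} (hk : D.Inner k) {t : W} (ht : t ∈ D.I k) {l' : K'} (hz' : z' ∈ D'.I l')
    (ha : H.Adj v (D'.a l')) (hb : H.Adj v (D'.b l'))
    (hd : Dle (del H v) M (D'.a l') (D'.b l')) {E : Set W}
    (hE : ∀ C : Set W, z' ∈ C → (∀ w ∈ C, w ∈ E → ∀ w' ∈ E, H.Adj w w' → w' ∈ C) → t ∈ C)
    (hEN : ∀ w ∈ E, ¬ H.Adj v w) : False := by
  obtain ⟨m, hm⟩ := (D.far c (D.term_of_adj ha) (D.term_of_adj hb) (D'.ab l') hd).2 le_rfl
  have hmk : m ≠ k := by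
    rintro rfl
    apply hk
    rcases hm with ⟨h1, h2⟩ | ⟨h1, h2⟩
    · exact ⟨h1 ▸ ha, h2 ▸ hb⟩
    · exact ⟨h2 ▸ hb, h1 ▸ ha⟩
  have htI : t ∈ D'.I l' := by
    refine hE (D'.I l') hz' ?_
    intro w hw hwE w' hwE' hadj
    rcases (D'.mem_P l' w').1 (D'.I_adj l' w w' hw hadj) with h9 | h9 | h9
    · exact h9
    · exact absurd (h9 ▸ ha) (hEN w' hwE')
    · exact absurd (h9 ▸ hb) (hEN w' hwE')
  have htv : t ≠ v := fun h => D.I_v k (h ▸ ht)
  rcases D.cases m htv with h1 | h1 | h1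
  · exact D.contra_aux D' c.h2 h1 (fun h => D.a_I m k (h ▸ ht)) htI hm
  · exact hmk (D.I_disj m k t h1 ht)
  · refine D.flip.contra_aux D' c.h2 (m := m) h1 (fun h => ?_) htI hm.symm
    have h' : t = D.b m := h
    exact D.b_I m k (h' ▸ ht)

end

end Dec

end Pool.Agent.StrongMax
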