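import Mathlib

/-!
# Strongly maximal `H`-free edge sets

Common definitions for the problem MP_fc2b6d_co.
-/

namespace Pool.Agent.StrongMax

open Cardinal

universe u v

/-- An edge set `F` on the vertex set `V` is `H`-free: the spanning subgraph `(V, F)` contains no
subgraph isomorphic to `H`. -/
def HFree {W : Type v} (H : SimpleGraph W) {V : Type u} (F : Set (Sym2 V)) : Prop :=
  H.Free (SimpleGraph.fromEdgeSet F)

/-- `F` is a strongly maximal `H`-free edge set of `G`. -/
def StronglyMaximal {W : Type v} (H : SimpleGraph W) {V : Type u} (G : SimpleGraph V)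
    (F : Set (Sym2 V)) : Prop :=
  F ⊆ G.edgeSet ∧ HFree H F ∧
    ∀ I : Set (Sym2 V), I ⊆ G.edgeSet → HFree H I → #(↥(I \ F)) ≤ #(↥(F \ I))

/-- `H` fails (in the universe `u`): some host graph `G` has no strongly maximal `H`-free edge
set. -/
def Fails.{a, b} {W : Type b} (H : SimpleGraph W) : Prop :=
  ∃ (V : Type a) (G : SimpleGraph V), ∀ F : Set (Sym2 V), ¬ StronglyMaximal H G F

end Pool.Agent.StrongMax
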