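import Pool.Agent.Lib.StrongMax.Parts

/-!
# Reduction to the vertices of large degree (helper18)
-/

namespace Pool.Agent.StrongMax

open Cardinal

section Degree

variable {W : Type} (H : SimpleGraph W)

/-- The vertices of degree larger than `d`. -/
def highSet (d : ℕ) : Set W := {x | d < (H.neighborSet x).ncard}

open Classical in
/-- The embedding of the copy of `H` with index `k` attached along `φ`. -/
noncomputable def remb (S : Set W) {V₀ K : Type} (φ : S → V₀) (k : K) (w : W) :
    V₀ ⊕ ((S → V₀) × K × W) :=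
  if h : w ∈ S then .inl (φ ⟨w, h⟩) else .inr (φ, k, w)

variable {H}

theorem remb_mem {S : Set W} {V₀ K : Type} (φ : S → V₀) (k : K) {w : W} (h : w ∈ S) :
    remb S φ k w = .inl (φ ⟨w, h⟩) := dif_pos h

theorem remb_notMem {S : Set W} {V₀ K : Type} (φ : S → V₀) (k : K) {w : W} (h : w ∉ S) :
    remb S φ k w = .inr (φ, k, w) := dif_neg h

theorem remb_eq_inr {S : Set W} {V₀ K : Type} {φ : S → V₀} {k : K} {w : W}
    {p : (S → V₀) × K × W} (h : remb S φ k w = .inr p) : w ∉ S ∧ p = (φ, k, w) := by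
  by_cases hw : w ∈ S
  · rw [remb_mem φ k hw] at h
    exact absurd h (by simp)
  · rw [remb_notMem φ k hw] at h
    exact ⟨hw, (Sum.inr_injective h).symm⟩

theorem remb_eq_inl {S : Set W} {V₀ K : Type} {φ : S → V₀} {k : K} {w : W}
    {x : V₀} (h : remb S φ k w = .inl x) : w ∈ S := by
  by_contra hw
  rw [remb_notMem φ k hw] at h
  exact absurd h (by simp)

/-- If the subgraph induced by the vertices of degree larger than `d` fails then so does the whole
graph. -/
theorem Fails.of_high [Finite W] (d : ℕ) (hA : Fails.{0} (H.induce (highSet H d)))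
    (hAe : ∃ a b : highSet H d, H.Adj a b) : Fails.{0} H := by
  classical
  let S : Set W := highSet H d
  refine Fails.of_parts (A := H.induce S) hA hAe (fun V₀ K => (S → V₀) × K × W)
    (fun V₀ K k => {e | ∃ (φ : S → V₀) (w w' : W), H.Adj w w' ∧ w ∉ S ∧
      e = s(remb S φ k w, remb S φ k w')}) ?_ ?_ ?_ ?_ ?_
  · rintro V₀ K k e ⟨φ, w, w', hww, hw, rfl⟩ a h
    induction a with
    | _ x y =>
      rw [Sym2.map_mk, Sym2.eq_iff] at h
      rcases h with ⟨h1, h2⟩ | ⟨h1, h2⟩
      · exact hw (remb_eq_inl h1.symm)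
      · exact hw (remb_eq_inl h2.symm)
  · rintro V₀ K k e ⟨φ, w, w', hww, hw, rfl⟩ h
    rw [Sym2.mk_isDiag_iff] at h
    rw [remb_notMem φ k hw] at h
    obtain ⟨-, h2⟩ := remb_eq_inr h.symm
    simp only [Prod.mk.injEq, true_and] at h2
    exact hww.ne h2
  · rintro V₀ K k l e ⟨φ, w, w', hww, hw, rfl⟩ ⟨φ', x, x', hxx, hx, h⟩
    rw [remb_notMem φ k hw, Sym2.eq_iff] at h
    rcases h with ⟨h1, h2⟩ | ⟨h1, h2⟩
    · obtain ⟨-, h3⟩ := remb_eq_inr h1.symm
      simp only [Prod.mk.injEq] at h3
      exact h3.2.1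
    · obtain ⟨-, h3⟩ := remb_eq_inr h1.symm
      simp only [Prod.mk.injEq] at h3
      exact h3.2.1
  · intro V₀ K I₀ hI₀
    rw [hFree_iff]
    intro f hf hfa
    have hcases : ∀ a b, H.Adj a b → ∀ p, f a = .inr p → ∃ (φ : S → V₀) (k : K) (w w' : W),
        H.Adj w w' ∧ f a = remb S φ k w ∧ f b = remb S φ k w' := by
      intro a b hab p hp
      rcases hfa a b hab with ⟨e, he, h⟩ | ⟨k, φ, w, w', hww, hw, h⟩
      · exfalso
        induction e with
        | _ x y =>
          rw [Sym2.map_mk, Sym2.eq_iff] at h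
          rcases h with ⟨h1, h2⟩ | ⟨h1, h2⟩
          · rw [hp] at h1; exact absurd h1 (by simp)
          · rw [hp] at h2; exact absurd h2 (by simp)
      · rw [Sym2.eq_iff] at h
        rcases h with ⟨h1, h2⟩ | ⟨h1, h2⟩
        · exact ⟨φ, k, w, w', hww, h1, h2⟩
        · exact ⟨φ, k, w', w, hww.symm, h1, h2⟩
    -- vertices of large degree are mapped to the old host
    have hS : ∀ a : S, ∃ g : V₀, f a = .inl g := by
      rintro ⟨a, ha⟩
      rcases hp : f a with g | ⟨φ, k, x⟩
      · exact ⟨g, rfl⟩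
      · exfalso
        have hx : ∀ b, H.Adj a b → x ∉ S ∧ ∃ x', H.Adj x x' ∧ f b = remb S φ k x' := by
          intro b hab
          obtain ⟨φ', k', w, w', hww, h1, h2⟩ := hcases a b hab _ hp
          rw [hp] at h1
          obtain ⟨h3, h4⟩ := remb_eq_inr h1.symm
          simp only [Prod.mk.injEq] at h4
          obtain ⟨rfl, rfl, rfl⟩ := h4
          exact ⟨h3, w', hww, h2⟩
        have ha' : d < (H.neighborSet a).ncard := ha
        have hne : (H.neighborSet a).Nonempty := by
          rw [← Set.ncard_pos]; omega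
        obtain ⟨b, hb⟩ := hne
        have hxS : x ∉ S := (hx b hb).1
        have hxd : (H.neighborSet x).ncard ≤ d := not_lt.1 hxS
        have h5 : ∀ b, H.Adj a b → ∃ x', H.Adj x x' ∧ f b = remb S φ k x' := fun b hb => (hx b hb).2
        choose! σ hσ hσ' using h5
        have h6 : (H.neighborSet a).ncard ≤ (H.neighborSet x).ncard := by
          refine Set.ncard_le_ncard_of_injOn σ (fun b hb => hσ b hb) ?_ (Set.toFinite _)
          intro b hb b' hb' h
          exact hf (by rw [hσ' b hb, hσ' b' hb', h])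
        omega
    choose g hg using hS
    rw [hFree_iff] at hI₀
    refine hI₀ g ?_ ?_
    · intro a b h
      exact Subtype.ext (hf (by rw [hg, hg, h]))
    · intro a b hab
      have hab' : H.Adj a b := hab
      rcases hfa a b hab' with ⟨e, he, h⟩ | ⟨k, φ, w, w', hww, hw, h⟩
      · rw [hg, hg] at h
        have h1 : e = s(g a, g b) := Sym2.map.injective Sum.inl_injective (by rw [h]; rfl)
        exact h1 ▸ he
      · exfalso
        rw [hg, hg, Sym2.eq_iff] at h
        rcases h with ⟨h1, h2⟩ | ⟨h1, h2⟩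
        · exact hw (remb_eq_inl h1.symm)
        · exact hw (remb_eq_inl h2.symm)
  · intro V₀ K F₀ Good hGood hF₀
    rw [not_hFree_iff] at hF₀ ⊢
    obtain ⟨f₀, hf₀, hf₀a⟩ := hF₀
    obtain ⟨k, hk⟩ := hGood.nonempty
    refine ⟨remb S f₀ k, ?_, ?_⟩
    · intro w w' h
      by_cases hw : w ∈ S
      · rw [remb_mem f₀ k hw] at h
        have hw' := remb_eq_inl h.symm
        rw [remb_mem f₀ k hw'] at h
        exact congrArg Subtype.val (hf₀ (Sum.inl_injective h))
      · rw [remb_notMem f₀ k hw] at h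
        have h1 := (remb_eq_inr h.symm).2
        simp only [Prod.mk.injEq, true_and] at h1
        exact h1
    · intro a b hab
      by_cases ha : a ∈ S
      · by_cases hb : b ∈ S
        · left
          exact ⟨s(f₀ ⟨a, ha⟩, f₀ ⟨b, hb⟩), hf₀a ⟨a, ha⟩ ⟨b, hb⟩ hab, by
            rw [remb_mem f₀ k ha, remb_mem f₀ k hb]; rfl⟩
        · right
          exact ⟨k, hk, f₀, b, a, hab.symm, hb, Sym2.eq_swap⟩
      · right
        exact ⟨k, hk, f₀, a, b, hab, ha, rfl⟩

end Degree

end Pool.Agent.StrongMax
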