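import Pool.Agent.Lib.StrongMax.PagesB

/-!
# The page reduction (helper42)
-/

namespace Pool.Agent.StrongMax

section Pages

variable {W : Type} {H : SimpleGraph W} [Finite W] {s : W}

/-- The boundary of a page of maximal width is independent. -/
theorem IsPage.bd_indep (hc : PageCtx H s) {D : Set W} (hD : IsPage H s D) {m : ℕ}
    (hm : Wide H D m) (hmax : ∀ D', IsPage H s D' → ¬ Wide H D' (m + 1)) :
    ∀ g ∈ bd H D, ∀ g' ∈ bd H D, ¬ H.Adj g g' := by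
  intro g hg g' hg' h
  have h1 := hD.bd_deg hc hm hmax hg
  have h2 := hD.bd_deg hc hm hmax hg'
  rcases hc.hZ g g' h h1 h2 with h3 | h3
  · subst h3
    obtain ⟨-, x, hx, hxg⟩ := hg
    exact hD.nbr x hx hxg.symm
  · subst h3
    obtain ⟨-, x, hx, hxg⟩ := hg'
    exact hD.nbr x hx hxg.symm

/-- `σ` maps a page-like set `E` into the page `D`: then `E` is a page. -/
theorem Transfer.isPage (hc : PageCtx H s) {E D : Set W} {σ : W → W} (hσ : Transfer H E D σ)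
    (hD : IsPage H s D) {m : ℕ} (hm : Wide H D m)
    (hmax : ∀ D', IsPage H s D' → ¬ Wide H D' (m + 1)) (hne : E.Nonempty) (hE : ConnIn H E)
    (hdeg : ∀ e ∈ E, (H.neighborSet e).ncard ≤ (H.neighborSet (σ e)).ncard) : IsPage H s E := by
  have hs : s ∉ E := by
    intro hsE
    have h1 : H.neighborSet s ⊆ bd H E := by
      intro y hy
      have hsy : H.Adj s y := hy
      refine ⟨fun hyE => ?_, s, hsE, hy⟩
      have h1 := hc.hN y hsy
      have h2 := hdeg y hyE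
      have h3 := hdeg s hsE
      have h4 := hc.hs
      rcases hc.hZ (σ s) (σ y) (hσ.adj s hsE y hsy) (by omega) (by omega) with h | h
      · exact hD.notMem (h ▸ hσ.mem s hsE)
      · exact hD.notMem (h ▸ hσ.mem y hyE)
    have h2 := Set.ncard_le_ncard h1 (Set.toFinite _)
    have h3 := hσ.bd_le
    have h4 := hD.bd2
    have h5 := hc.hs
    omega
  refine ⟨hne, hE, hs, ?_, hσ.bd_le.trans hD.bd2⟩
  intro y hy hsy
  have hsb : s ∈ bd H E := ⟨hs, y, hy, hsy.symm⟩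
  have h1 := hD.bd_deg hc hm hmax (hσ.bdm s hsb)
  have h2 := hc.hN y hsy
  have h3 := hdeg y hy
  rcases hc.hZ (σ y) (σ s) (hσ.adj y hy s hsy.symm) (by omega) h1 with h | h
  · exact hD.notMem (h ▸ hσ.mem y hy)
  · have h4 := hσ.adj y hy s hsy.symm
    rw [h] at h4
    exact hD.nbr _ (hσ.mem y hy) h4.symm

/-- The M-vertices in `D`. -/
def mvs (H : SimpleGraph W) (M : ℕ) (D : Set W) : Set W := {t | t ∈ D ∧ IsMV H M t}

/-- The transfer map of a component of the preimage of a private copy of a page. -/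
theorem CoreCopy.transfer (hc : PageCtx H s) {S : Set W} {V₀ K : Type}
    {f : W → V₀ ⊕ ((S → V₀) × K × W)} (hf : CoreCopy H S f) {D : Set W} (hD : IsPage H s D)
    (hDS : ∀ y ∈ D, y ∉ S) (hbS : ∀ y ∈ bd H D, y ∈ S) {a : W} {φ : S → V₀} {k : K} {x : W}
    (hx : f a = .inr (φ, k, x)) (hxD : x ∈ D) :
    ∃ (E : Set W) (σ : W → W), a ∈ E ∧ ConnIn H E ∧ Transfer H E D σ ∧
      ∀ e ∈ E, (H.neighborSet e).ncard ≤ (H.neighborSet (σ e)).ncard := by
  classical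
  let C : Set W := {e | ∃ x' ∈ D, f e = .inr (φ, k, x')}
  let E : Set W := {e | ∃ p : H.Walk a e, ∀ z ∈ p.support, z ∈ C}
  have haC : a ∈ C := ⟨x, hxD, hx⟩
  have haE : a ∈ E := ⟨.nil, fun z hz => by
    rw [SimpleGraph.Walk.support_nil, List.mem_singleton] at hz
    exact hz ▸ haC⟩
  have hEC : ∀ e ∈ E, e ∈ C := by
    rintro e ⟨p, hp⟩
    exact hp e p.end_mem_support
  have hstep : ∀ e ∈ E, ∀ b ∈ C, H.Adj e b → b ∈ E := by
    rintro e ⟨p, hp⟩ b hb heb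
    refine ⟨p.append (.cons heb .nil), fun z hz => ?_⟩
    rw [SimpleGraph.Walk.mem_support_append_iff] at hz
    rcases hz with hz | hz
    · exact hp z hz
    · rw [SimpleGraph.Walk.support_cons, SimpleGraph.Walk.support_nil, List.mem_cons,
        List.mem_singleton] at hz
      rcases hz with rfl | rfl
      · exact hp _ p.end_mem_support
      · exact hb
  have hpre : ∀ e (p : H.Walk a e), (∀ z ∈ p.support, z ∈ C) → ∀ z ∈ p.support, z ∈ E := by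
    intro e p hp z hz
    exact ⟨p.takeUntil z hz, fun w hw => hp w (p.support_takeUntil_subset hz hw)⟩
  have hconn : ConnIn H E := by
    rintro u ⟨p, hp⟩ v ⟨q, hq⟩
    refine ⟨p.reverse.append q, fun z hz => ?_⟩
    rw [SimpleGraph.Walk.mem_support_append_iff] at hz
    rcases hz with hz | hz
    · rw [SimpleGraph.Walk.support_reverse, List.mem_reverse] at hz
      exact hpre u p hp z hz
    · exact hpre v q hq z hz
  have hbdE : ∀ b ∈ bd H E, ∃ y ∈ bd H D, f b = remb S φ k y := by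
    rintro b ⟨hb, e, he, heb⟩
    obtain ⟨x', hx', hfe⟩ := hEC e he
    obtain ⟨x'', hxx, hfb⟩ := hf.nbr heb hfe
    refine ⟨x'', ⟨?_, x', hx', hxx⟩, hfb⟩
    intro hx''
    rw [remb_notMem φ k (hDS x'' hx'')] at hfb
    exact hb (hstep e he b ⟨x'', hx'', hfb⟩ heb)
  -- sizes
  have hEle : E.ncard ≤ D.ncard := by
    have h1 : ∀ e, ∃ y, e ∈ E → y ∈ D ∧ f e = .inr (φ, k, y) := by
      intro e
      by_cases he : e ∈ E
      · obtain ⟨y, hy, h⟩ := hEC e he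
        exact ⟨y, fun _ => ⟨hy, h⟩⟩
      · exact ⟨e, fun h => absurd h he⟩
    choose τ hτ using h1
    refine Set.ncard_le_ncard_of_injOn τ (fun e he => (hτ e he).1) ?_ (Set.toFinite _)
    intro e he e' he' h
    exact hf.inj (by rw [(hτ e he).2, (hτ e' he').2, h])
  have hout : ∀ u v : W, ∃ y ∉ E, y ≠ u ∧ y ≠ v := by
    intro u v
    by_contra hcon
    push Not at hcon
    have h1 : Eᶜ ⊆ {u, v} := by
      intro y hy
      by_cases hyu : y = u
      · exact Or.inl hyu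
      · exact Or.inr (hcon y hy hyu)
    have h2 := Set.ncard_le_ncard h1 (Set.toFinite _)
    have h3 := Set.ncard_insert_le u {v}
    rw [Set.ncard_singleton] at h3
    have h4 : H.neighborSet s ⊆ Dᶜ := fun y hy h => hD.nbr y h hy
    have h5 := Set.ncard_le_ncard h4 (Set.toFinite _)
    have h6 := Set.ncard_add_ncard_compl E
    have h7 := Set.ncard_add_ncard_compl D
    have h8 := hc.hs
    omega
  obtain ⟨b₁, hb₁, b₂, hb₂, hb⟩ := two_bd hc.h2 ⟨a, haE⟩ hout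
  obtain ⟨y₁, hy₁, hfb₁⟩ := hbdE b₁ hb₁
  obtain ⟨y₂, hy₂, hfb₂⟩ := hbdE b₂ hb₂
  have hrne : remb S φ k y₁ ≠ remb S φ k y₂ := by
    intro h
    exact hb (hf.inj (by rw [hfb₁, hfb₂, h]))
  have hyne : y₁ ≠ y₂ := fun h => hrne (by rw [h])
  have hbdD : ∀ y ∈ bd H D, y = y₁ ∨ y = y₂ := by
    intro y hy
    by_contra hcon
    push Not at hcon
    exact hyne (hD.bd_eq hy₁ hy₂ hy hcon.1.symm hcon.2.symm)
  have hφ : ∀ y ∈ bd H D, ∀ y' ∈ bd H D, remb S φ k y = remb S φ k y' → y = y' := by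
    intro y hy y' hy' h
    rcases hbdD y hy with h1 | h1 <;> rcases hbdD y' hy' with h2 | h2
    · rw [h1, h2]
    · rw [h1, h2] at h; exact absurd h hrne
    · rw [h1, h2] at h; exact absurd h.symm hrne
    · rw [h1, h2]
  have hinj : ∀ y ∈ D ∪ bd H D, ∀ y' ∈ D ∪ bd H D, remb S φ k y = remb S φ k y' → y = y' := by
    intro y hy y' hy' h
    rcases hy with hy | hy
    · rw [remb_notMem φ k (hDS y hy)] at h
      have h1 := (remb_eq_inr h.symm).2
      simp only [Prod.mk.injEq, true_and] at h1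
      exact h1
    · rcases hy' with hy' | hy'
      · rw [remb_notMem φ k (hDS y' hy')] at h
        have h1 := (remb_eq_inr h).2
        simp only [Prod.mk.injEq, true_and] at h1
        exact h1.symm
      · exact hφ y hy y' hy' h
  have hσ : ∀ z, ∃ y, (z ∈ E → y ∈ D ∧ f z = remb S φ k y) ∧
      (z ∈ bd H E → y ∈ bd H D ∧ f z = remb S φ k y) := by
    intro z
    by_cases hz : z ∈ E
    · obtain ⟨y, hy, h⟩ := hEC z hz
      refine ⟨y, fun _ => ⟨hy, ?_⟩, fun h' => absurd hz h'.1⟩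
      rw [remb_notMem φ k (hDS y hy)]
      exact h
    · by_cases hz' : z ∈ bd H E
      · obtain ⟨y, hy, h⟩ := hbdE z hz'
        exact ⟨y, fun h' => absurd h' hz, fun _ => ⟨hy, h⟩⟩
      · exact ⟨z, fun h' => absurd h' hz, fun h' => absurd h' hz'⟩
  choose σ hσ1 hσ2 using hσ
  have hσf : ∀ z ∈ E ∪ bd H E, σ z ∈ D ∪ bd H D ∧ f z = remb S φ k (σ z) := by
    rintro z (hz | hz)
    · exact ⟨Or.inl (hσ1 z hz).1, (hσ1 z hz).2⟩
    · exact ⟨Or.inr (hσ2 z hz).1, (hσ2 z hz).2⟩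
  have hEf : ∀ e ∈ E, f e = .inr (φ, k, σ e) := by
    intro e he
    rw [(hσ1 e he).2, remb_notMem φ k (hDS _ (hσ1 e he).1)]
  refine ⟨E, σ, haE, hconn, ⟨fun e he => (hσ1 e he).1, fun b hb => (hσ2 b hb).1, ?_, ?_⟩, ?_⟩
  · intro u hu v hv h
    exact hf.inj (by rw [(hσf u hu).2, (hσf v hv).2, h])
  · intro e he b heb
    obtain ⟨x'', hxx, hfb⟩ := hf.nbr heb (hEf e he)
    have h1 : x'' ∈ D ∪ bd H D := nbr_mem (hσ1 e he).1 hxx
    have h2 := hσf b (nbr_mem he heb)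
    have h3 : x'' = σ b := hinj x'' h1 (σ b) h2.1 (by rw [← hfb, h2.2])
    exact h3 ▸ hxx
  · intro e he
    exact hf.ncard_le (hEf e he)

/-- **The page reduction.** -/
theorem pages (hc : PageCtx H s)
    (IH : ∀ S : Set W, S ≠ Set.univ → (¬ ∃ z : S, ∀ a b : S, H.Adj a b → a = z ∨ b = z) →
      Fails.{0} (H.induce S))
    (hnf : ¬ Fails.{0} H) {M : ℕ} (hD : ∃ D, IsPage H s D ∧ Wide H D M)
    (hM : ∃ t, IsMV H M t) (t : W) (ht : (H.neighborSet t).ncard = 2) :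
    ∃ E, IsPage H s E ∧ t ∈ E ∧ ∃ m ∈ E, IsMV H M m := by
  classical
  -- the maximal width
  obtain ⟨D₀, hD₀, hD₀M⟩ := hD
  have hfin : {m | ∃ D, IsPage H s D ∧ Wide H D m}.Finite := by
    refine (Set.finite_Iic (Nat.card W + 2)).subset ?_
    rintro m ⟨D, hD, hm⟩
    exact hD.wide_le hc hm
  obtain ⟨m, ⟨D₁, hD₁, hD₁m⟩, hmax'⟩ :=
    Set.exists_max_image _ id hfin ⟨M, D₀, hD₀, hD₀M⟩
  have hmax : ∀ D', IsPage H s D' → ¬ Wide H D' (m + 1) := by
    intro D' hD' h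
    have : m + 1 ≤ m := hmax' (m + 1) ⟨D', hD', h⟩
    omega
  have hMm : M ≤ m := hmax' M ⟨D₀, hD₀, hD₀M⟩
  have hmin : ∀ (P : Set W → Prop) (g : Set W → ℕ), (∃ D, P D) →
      ∃ D, P D ∧ ∀ D', P D' → g D ≤ g D' := by
    intro P g hP
    have h1 : {D | P D}.Finite := Set.toFinite _
    obtain ⟨D, hD, h⟩ := Set.exists_min_image {D | P D} g h1 hP
    exact ⟨D, hD, fun D' hD' => h D' hD'⟩
  obtain ⟨D₂, hD₂, hk1⟩ := hmin (fun D => IsPage H s D ∧ Wide H D m) Set.ncard ⟨D₁, hD₁, hD₁m⟩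
  obtain ⟨D₃, hD₃, hk2⟩ := hmin (fun D => (IsPage H s D ∧ Wide H D m) ∧ D.ncard = D₂.ncard)
    (fun D => (arcs H D).ncard) ⟨D₂, hD₂, rfl⟩
  obtain ⟨D₄, hD₄, hk3⟩ := hmin (fun D => ((IsPage H s D ∧ Wide H D m) ∧ D.ncard = D₂.ncard) ∧
    (arcs H D).ncard = (arcs H D₃).ncard) (fun D => (mvs H M D).ncard) ⟨D₃, hD₃, rfl⟩
  -- the family
  let F : Set (Set W) := {D | (((IsPage H s D ∧ Wide H D m) ∧ D.ncard = D₂.ncard) ∧
    (arcs H D).ncard = (arcs H D₃).ncard) ∧ (mvs H M D).ncard = (mvs H M D₄).ncard}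
  have hF₄ : D₄ ∈ F := ⟨hD₄, rfl⟩
  have hbF : ∀ D ∈ F, ∀ y ∈ bd H D, y ∉ ⋃₀ F := by
    rintro D hD y hy ⟨D', hD', hyD'⟩
    by_cases hne : D = D'
    · exact hy.1 (hne ▸ hyD')
    · exact (IsPage.separate hD.1.1.1.1 hD'.1.1.1.1 hD.1.1.1.2 hD'.1.1.1.2 hmax
        (hD.1.1.2.trans hD'.1.1.2.symm) hne y hyD').2 hy
  have hcore : ∀ (V₀ K : Type) (f : W → V₀ ⊕ ((↥(⋃₀ F)ᶜ → V₀) × K × W)), CoreCopy H (⋃₀ F)ᶜ f →
      ∀ a ∈ (⋃₀ F)ᶜ, ∃ g, f a = .inl g := by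
    intro V₀ K f hf a ha
    rcases hp : f a with g | ⟨φ, k, x⟩
    · exact ⟨g, rfl⟩
    exfalso
    apply ha
    obtain ⟨b, hb⟩ : (H.neighborSet a).Nonempty := by
      rw [← Set.ncard_pos]
      have := hc.hδ a
      omega
    have hx : x ∈ ⋃₀ F := by
      have := hf.notMem hb hp
      rwa [Set.mem_compl_iff, not_not] at this
    obtain ⟨D, hDF, hxD⟩ := hx
    have hD := hDF.1.1.1.1
    have hm := hDF.1.1.1.2
    obtain ⟨E, σ, haE, hconn, hσ, hdeg⟩ := hf.transfer hc hD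
      (fun y hy h => h ⟨D, hDF, hy⟩) (fun y hy => hbF D hDF y hy) hp hxD
    have hE : IsPage H s E := hσ.isPage hc hD hm hmax ⟨a, haE⟩ hconn hdeg
    have hEm : Wide H E m := hσ.wide hm
    have h1 : E.ncard = D₂.ncard := by
      have h2 := hσ.ncard_le
      have h3 := hk1 E ⟨hE, hEm⟩
      have h4 := hDF.1.1.2
      omega
    have h2 : (arcs H E).ncard = (arcs H D₃).ncard := by
      have h3 := hσ.arcs_le
      have h4 := hk2 E ⟨⟨hE, hEm⟩, h1⟩
      have h5 := hDF.1.2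
      omega
    have h3 : (mvs H M E).ncard = (mvs H M D₄).ncard := by
      have h4 := hk3 E ⟨⟨⟨hE, hEm⟩, h1⟩, h2⟩
      have h5 := hDF.2
      have h6 : (mvs H M E).ncard ≤ (mvs H M D).ncard := by
        refine Set.ncard_le_ncard_of_injOn σ ?_ ?_ (Set.toFinite _)
        · rintro e ⟨he, heM⟩
          refine ⟨hσ.mem e he, hσ.isMV ?_ (hD.bd_indep hc hm hmax) hMm hm he heM⟩
          intro x hx y hxy
          exact hσ.pull (by rw [hDF.1.2, h2]) hx hxy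
        · rintro e ⟨he, -⟩ e' ⟨he', -⟩ h
          exact hσ.inj e (Or.inl he) e' (Or.inl he') h
      omega
    exact ⟨E, ⟨⟨⟨⟨hE, hEm⟩, h1⟩, h2⟩, h3⟩, haE⟩
  have hsF : s ∈ (⋃₀ F)ᶜ := by
    rintro ⟨D, hD, hsD⟩
    exact hD.1.1.1.1.notMem hsD
  have hNF : ∀ y, H.Adj s y → y ∈ (⋃₀ F)ᶜ := by
    rintro y hy ⟨D, hD, hyD⟩
    exact hD.1.1.1.1.nbr y hyD hy
  -- every degree-two vertex is in a member of `F`
  have hcov : ∀ t, (H.neighborSet t).ncard = 2 → t ∈ ⋃₀ F := by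
    intro t ht
    by_contra htF
    have htn : ∀ n, H.Adj t n → n ∈ (⋃₀ F)ᶜ := by
      rintro n hn ⟨D, hD, hnD⟩
      have h1 : t ∈ bd H D := ⟨fun h => htF ⟨D, hD, h⟩, n, hnD, hn.symm⟩
      have := hD.1.1.1.1.bd_deg hc hD.1.1.1.2 hmax h1
      omega
    obtain ⟨y₁, hy₁, y₂, hy₂, hy⟩ : ∃ y₁, H.Adj s y₁ ∧ ∃ y₂, H.Adj s y₂ ∧ y₁ ≠ y₂ := by
      have h1 : 1 < (H.neighborSet s).ncard := by
        have := hc.hs
        omega
      obtain ⟨y₁, hy₁, y₂, hy₂, hy⟩ := (Set.one_lt_ncard (Set.toFinite _)).1 h1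
      exact ⟨y₁, hy₁, y₂, hy₂, hy⟩
    obtain ⟨n, hn⟩ : (H.neighborSet t).Nonempty := by
      rw [← Set.ncard_pos]
      omega
    have htn' : H.Adj t n := hn
    refine hnf (Fails.of_core (⋃₀ F)ᶜ (IH _ ?_ ?_) ⟨⟨s, hsF⟩, ⟨y₁, hNF y₁ hy₁⟩, hy₁⟩ hcore)
    · intro h
      obtain ⟨x, hx⟩ := hD₄.1.1.1.ne
      have : x ∈ (⋃₀ F)ᶜ := by rw [h]; trivial
      exact this ⟨D₄, hF₄, hx⟩
    · rintro ⟨z, hz⟩
      have h1 := hz ⟨s, hsF⟩ ⟨y₁, hNF y₁ hy₁⟩ hy₁
      have h2 := hz ⟨s, hsF⟩ ⟨y₂, hNF y₂ hy₂⟩ hy₂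
      have h3 := hz ⟨t, htF⟩ ⟨n, htn n htn'⟩ htn'
      have hzs : z = ⟨s, hsF⟩ := by
        rcases h1 with h1 | h1
        · exact h1.symm
        · rcases h2 with h2 | h2
          · exact h2.symm
          · exact absurd (congrArg Subtype.val (h1.trans h2.symm)) hy
      rw [hzs] at h3
      rcases h3 with h3 | h3
      · have h4 : t = s := congrArg Subtype.val h3
        have := hc.hs
        rw [← h4] at this
        omega
      · have h4 : n = s := congrArg Subtype.val h3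
        have h5 := hc.hN t (h4 ▸ htn'.symm)
        omega
  obtain ⟨m₀, hm₀⟩ := hM
  obtain ⟨D₅, hD₅, hm₀D⟩ := hcov m₀ hm₀.1
  have hpos : 0 < (mvs H M D₄).ncard := by
    rw [← hD₅.2, Set.ncard_pos]
    exact ⟨m₀, hm₀D, hm₀⟩
  obtain ⟨D, hD, htD⟩ := hcov t ht
  have h1 : (mvs H M D).Nonempty := by
    rw [← Set.ncard_pos, hD.2]
    exact hpos
  obtain ⟨m', hm', hMm'⟩ := h1
  exact ⟨D, hD.1.1.1.1, htD, m', hm', hMm'⟩

end Pages

end Pool.Agent.StrongMax
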