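import Pool.Agent.Lib.StrongMax.Core

/-!
# Removing the degree-two vertices which have a degree-two neighbour (helper42)
-/

namespace Pool.Agent.StrongMax

open Cardinal

section RC

variable {W : Type} {H : SimpleGraph W}

/-- At a private vertex of the same degree, every neighbour is used. -/
theorem CoreCopy.surj [Finite W] {S : Set W} {V₀ K : Type}
    {f : W → V₀ ⊕ ((S → V₀) × K × W)} (hf : CoreCopy H S f) {a : W} {φ : S → V₀} {k : K} {x : W}
    (hx : f a = .inr (φ, k, x)) (hd : (H.neighborSet x).ncard ≤ (H.neighborSet a).ncard) {y : W}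
    (hy : H.Adj x y) : ∃ b, H.Adj a b ∧ f b = remb S φ k y := by
  classical
  have hW : Nonempty W := ⟨a⟩
  have h5 : ∀ b, H.Adj a b → ∃ x', H.Adj x x' ∧ f b = remb S φ k x' := fun b hb => hf.nbr hb hx
  choose! σ hσ hσ' using h5
  have hinj : Set.InjOn σ (H.neighborSet a) := by
    intro b hb b' hb' h
    exact hf.inj (by rw [hσ' b hb, hσ' b' hb', h])
  have h1 : σ '' H.neighborSet a = H.neighborSet x := by
    refine Set.eq_of_subset_of_ncard_le ?_ ?_ (Set.toFinite _)
    · rintro _ ⟨b, hb, rfl⟩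
      exact hσ b hb
    · rw [hinj.ncard_image]; exact hd
  have h2 : y ∈ σ '' H.neighborSet a := by rw [h1]; exact hy
  obtain ⟨b, hb, rfl⟩ := h2
  exact ⟨b, hb, hσ' b hb⟩

/-- The degree-two vertices which have a degree-two neighbour. -/
def chainSet (H : SimpleGraph W) : Set W :=
  {x | (H.neighborSet x).ncard = 2 ∧ ∃ y, H.Adj x y ∧ (H.neighborSet y).ncard = 2}

theorem Fails.of_chain [Finite W] (hδ : ∀ x, 2 ≤ (H.neighborSet x).ncard)
    (hA : Fails.{0} (H.induce (chainSet H)ᶜ))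
    (hAe : ∃ a b : ((chainSet H)ᶜ : Set W), H.Adj a b) : Fails.{0} H := by
  refine Fails.of_core _ hA hAe ?_
  intro V₀ K f hf a ha
  rcases hp : f a with g | ⟨φ, k, x⟩
  · exact ⟨g, rfl⟩
  exfalso
  have hne : (H.neighborSet a).Nonempty := by
    rw [← Set.ncard_pos]
    have := hδ a
    omega
  obtain ⟨b, hb⟩ := hne
  have hx : x ∈ chainSet H := by
    have := hf.notMem hb hp
    rwa [Set.mem_compl_iff, not_not] at this
  obtain ⟨hx2, y, hxy, hy2⟩ := hx
  have hle := hf.ncard_le hp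
  have ha2 := hδ a
  obtain ⟨c, hac, hc⟩ := hf.surj hp (by omega) hxy
  have hy : y ∉ ((chainSet H)ᶜ : Set W) := by
    rw [Set.mem_compl_iff, not_not]
    exact ⟨hy2, x, hxy.symm, hx2⟩
  rw [remb_notMem φ k hy] at hc
  have hle' := hf.ncard_le hc
  have hc2 := hδ c
  exact ha ⟨by omega, c, hac, by omega⟩

/-- If there is an edge between two vertices of degree at least three, and `H` does not fail, then
either all degree-two vertices have a degree-two neighbour or none has. -/
theorem chain_dichotomy [Finite W] (hδ : ∀ x, 2 ≤ (H.neighborSet x).ncard)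
    (IH : ∀ S : Set W, S ≠ Set.univ → (¬ ∃ z : S, ∀ a b : S, H.Adj a b → a = z ∨ b = z) →
      Fails.{0} (H.induce S))
    (hnf : ¬ Fails.{0} H) {s y : W} (hsy : H.Adj s y) (hs : 3 ≤ (H.neighborSet s).ncard)
    (hy : 3 ≤ (H.neighborSet y).ncard) (hB : ∃ x, x ∈ chainSet H) :
    ∀ t, (H.neighborSet t).ncard = 2 → t ∈ chainSet H := by
  intro t ht
  by_contra htB
  have hns : ∀ x, 3 ≤ (H.neighborSet x).ncard → x ∈ ((chainSet H)ᶜ : Set W) :=
    fun x hx h => by have := h.1; omega
  obtain ⟨n1, n2, hn, hnt⟩ := Set.ncard_eq_two.1 ht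
  have htn1 : H.Adj t n1 := by
    have : n1 ∈ H.neighborSet t := by rw [hnt]; exact Or.inl rfl
    exact this
  have htn2 : H.Adj t n2 := by
    have : n2 ∈ H.neighborSet t := by rw [hnt]; exact Or.inr rfl
    exact this
  have hnb : ∀ x, H.Adj t x → x ∈ ((chainSet H)ᶜ : Set W) := by
    intro x hx h
    exact htB ⟨ht, x, hx, h.1⟩
  refine hnf (Fails.of_chain hδ (IH _ ?_ ?_) ⟨⟨s, hns s hs⟩, ⟨y, hns y hy⟩, hsy⟩)
  · intro h
    obtain ⟨x, hx⟩ := hB
    have : x ∈ ((chainSet H)ᶜ : Set W) := by rw [h]; trivial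
    exact this hx
  · rintro ⟨z, hz⟩
    have h1 := hz ⟨t, htB⟩ ⟨n1, hnb n1 htn1⟩ htn1
    have h2 := hz ⟨t, htB⟩ ⟨n2, hnb n2 htn2⟩ htn2
    have h3 := hz ⟨s, hns s hs⟩ ⟨y, hns y hy⟩ hsy
    have hzt : z = ⟨t, htB⟩ := by
      rcases h1 with h1 | h1
      · exact h1.symm
      · rcases h2 with h2 | h2
        · exact h2.symm
        · exact absurd (congrArg Subtype.val (h1.trans h2.symm)) hn
    rw [hzt] at h3
    rcases h3 with h3 | h3
    · have : s = t := congrArg Subtype.val h3
      rw [this] at hs; omega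
    · have : y = t := congrArg Subtype.val h3
      rw [this] at hy; omega

end RC

end Pool.Agent.StrongMax
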