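import Pool.Agent.Lib.StrongMax.Book
import Pool.Agent.Lib.StrongMax.Pages
import Pool.Agent.Lib.StrongMax.RC
import Pool.Agent.Lib.StrongMax.ConnLem

/-!
# 2-connected graphs with a vertex of degree two fail (helper18, page reduction by helper42)
-/

namespace Pool.Agent.StrongMax

section Delta2

variable {W : Type} {H : SimpleGraph W}

theorem deg_eq_two_iff {t : W} : (H.neighborSet t).ncard = 2 ↔ t ∈ D2 H := by
  rw [Set.ncard_eq_two]
  constructor
  · rintro ⟨a, b, hab, h⟩
    refine ⟨a, b, hab, fun c => ?_⟩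
    have : c ∈ H.neighborSet t ↔ c ∈ ({a, b} : Set W) := by rw [h]
    exact this
  · rintro ⟨a, b, h⟩
    refine ⟨a, b, h.ne, ?_⟩
    ext c
    exact h.iff c

theorem two_le_deg [Finite W] (h2 : Conn2 H) (hcard : ∃ r b c : W, r ≠ b ∧ r ≠ c ∧ b ≠ c) (x : W) :
    2 ≤ (H.neighborSet x).ncard := by
  obtain ⟨y, y', hy, hy', hne⟩ := h2.two_nbrs hcard x
  have h1 : ({y, y'} : Set W) ⊆ H.neighborSet x := by
    rintro z (rfl | rfl)
    · exact hy
    · exact hy'
  have h3 := Set.ncard_le_ncard h1 (Set.toFinite _)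
  rwa [Set.ncard_pair hne] at h3

theorem three_le_deg_iff [Finite W] (h2 : Conn2 H) (hcard : ∃ r b c : W, r ≠ b ∧ r ≠ c ∧ b ≠ c)
    {x : W} : 3 ≤ (H.neighborSet x).ncard ↔ x ∉ D2 H := by
  have h1 := two_le_deg h2 hcard x
  rw [← deg_eq_two_iff]
  omega

/-- Walks in `del H t` avoid `t`. -/
theorem notMem_support_del {t a b : W} (ha : a ≠ t) (p : (del H t).Walk a b) : t ∉ p.support := by
  induction p with
  | nil => simpa using ha.symm
  | @cons a b c hab p ih =>
    rw [SimpleGraph.Walk.support_cons, List.mem_cons, not_or]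
    exact ⟨ha.symm, ih hab.2.2⟩

theorem del_le (H : SimpleGraph W) (t : W) : del H t ≤ H := fun _ _ h => h.1

theorem shortAt_of_dle {t a b : W} (h : Two H t a b) {n : ℕ} (hd : Dle (del H t) n a b) :
    ShortAt H t n := by
  obtain ⟨p, hp⟩ := hd
  refine ⟨a, b, p.mapLe (del_le H t), h.adj_left, h.adj_right, h.ne, ?_, ?_⟩
  · have h1 := notMem_support_del h.adj_left.ne.symm p
    have h2 : (p.mapLe (del_le H t)).support = p.support := by
      show (p.map (SimpleGraph.Hom.ofLE (del_le H t))).support = p.support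
      rw [SimpleGraph.Walk.support_map]
      exact List.map_id _
    rw [h2]
    exact h1
  · rw [SimpleGraph.Walk.length_map]; exact hp

/-- A vertex of degree two with adjacent neighbours: the graph is a book. -/
theorem book_structure (h2 : Conn2 H) (hcard : ∃ r b c : W, r ≠ b ∧ r ≠ c ∧ b ≠ c) {s : W}
    (hsD : s ∉ D2 H) (hs : ∀ a b, a ∉ D2 H → b ∉ D2 H → H.Adj a b → a = s ∨ b = s)
    (hadj : ∀ t a b, Two H t a b → H.Adj a b) (hd : ∃ t, t ∈ D2 H) :
    ∃ z p, Two H z s p ∧ H.Adj s p ∧ p ∉ D2 H ∧ ∀ w, w = s ∨ w = p ∨ Two H w s p := by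
  have h1 : ∀ t a b, Two H t a b → a ∉ D2 H := by
    intro t a b h ha
    have h3 := hadj t a b h
    have h4 : Two H a t b := two_of_mem ha h.adj_left.symm h3 h.adj_right.ne
    obtain ⟨y, hy1, hy2, hy3⟩ : ∃ y, y ≠ t ∧ y ≠ a ∧ y ≠ b := by
      by_cases hsb : s = b
      · obtain ⟨y, hy, hyt, hya⟩ := exists_third h2 hcard hsD t a
        exact ⟨y, hyt, hya, fun h' => hy.ne (hsb.trans h'.symm)⟩
      · exact ⟨s, fun h' => hsD (h' ▸ h.mem), fun h' => hsD (h' ▸ ha), hsb⟩
    obtain ⟨w, hw, w', hw', hwb, hwb', hadj'⟩ := h2 {t, a} b ⟨t, Or.inl rfl, h.adj_right.ne⟩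
      ⟨y, by rintro (h' | h'); exacts [hy1 h', hy2 h'], hy3⟩
    rcases hw with rfl | rfl
    · rcases (h.iff w').1 hadj' with h5 | h5
      · exact hw' (Or.inr h5)
      · exact hwb' h5
    · rcases (h4.iff w').1 hadj' with h5 | h5
      · exact hw' (Or.inl h5)
      · exact hwb' h5
  have h3 : ∀ t ∈ D2 H, ∃ p, Two H t s p ∧ p ∉ D2 H ∧ H.Adj s p := by
    rintro t ⟨a, b, h⟩
    have ha := h1 t a b h
    have hb := h1 t b a h.symm
    rcases hs a b ha hb (hadj t a b h) with rfl | rfl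
    · exact ⟨b, h, hb, hadj _ _ _ h⟩
    · exact ⟨a, h.symm, ha, hadj _ _ _ h.symm⟩
  obtain ⟨z, hz⟩ := hd
  obtain ⟨p, hp, hpD, hsp⟩ := h3 z hz
  refine ⟨z, p, hp, hsp, hpD, ?_⟩
  by_contra hcon
  push Not at hcon
  obtain ⟨y, hy1, hy2, hy3⟩ := hcon
  obtain ⟨w, hw, w', hw', hws, hws', hadj'⟩ := h2 {w | w = p ∨ Two H w s p} s
    ⟨p, Or.inl rfl, hsp.ne.symm⟩ ⟨y, by rintro (h | h); exacts [hy2 h, hy3 h], hy1⟩
  rcases hw with rfl | hw
  · by_cases h4 : w' ∈ D2 H
    · obtain ⟨q, hq, -, -⟩ := h3 w' h4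
      rcases (hq.iff w).1 hadj'.symm with h5 | h5
      · exact hws h5
      · exact hw' (Or.inr (h5 ▸ hq))
    · rcases hs w w' hpD h4 hadj' with h5 | h5
      · exact hws h5
      · exact hws' h5
  · rcases (hw.iff w').1 hadj' with h5 | h5
    · exact hws' h5
    · exact hw' (Or.inl h5)

/-- The interior of an inner part contains a wide page. -/
theorem exists_page [Finite W] {z x y s : W} {K : Type} (D : Dec H z x y s K) {M : ℕ} (c : Ctx H z x y M)
    (k : K) : ∃ E, IsPage H s E ∧ Wide H E M := by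
  obtain ⟨t, ht⟩ := D.I_ne k
  let E : Set W := {w | ∃ p : H.Walk t w, ∀ z ∈ p.support, z ∈ D.I k}
  have hEI : ∀ w ∈ E, w ∈ D.I k := by
    rintro w ⟨p, hp⟩
    exact hp w p.end_mem_support
  have hbd : ∀ w ∈ E, ∀ w' ∉ E, H.Adj w w' → w' = D.a k ∨ w' = D.b k := by
    rintro w hw w' hw' hadj
    rcases (D.mem_P k w').1 (D.I_adj k w w' (hEI w hw) hadj) with h | h
    · exfalso
      obtain ⟨p, hp⟩ := hw
      refine hw' ⟨p.concat hadj, fun z hz => ?_⟩
      rw [SimpleGraph.Walk.support_concat, List.mem_append] at hz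
      rcases hz with hz | hz
      · exact hp z hz
      · rw [List.mem_singleton] at hz
        rw [hz]; exact h
    · exact h
  refine ⟨E, ⟨⟨t, .nil, by simpa using ht⟩, connIn_of_reach H (D.I k) t, ?_, ?_, ?_⟩, ?_⟩
  · intro h; exact D.I_v k (hEI s h)
  · intro w hw hadj
    exact Dec.Term.not_I D (D.term_of_adj hadj) k (hEI w hw)
  · have h1 : bd H E ⊆ {D.a k, D.b k} := by
      rintro w ⟨hw, w', hw', hadj⟩
      exact hbd w' hw' w hw hadj
    refine (Set.ncard_le_ncard h1 (Set.toFinite _)).trans ?_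
    exact (Set.ncard_insert_le _ _).trans (by rw [Set.ncard_singleton])
  · intro a b ha hb hab w w' p hp haw hw'b
    have h1 := hbd w (hp w p.start_mem_support) a ha haw.symm
    have h2 := hbd w' (hp w' p.end_mem_support) b hb hw'b
    have hTa : D.Term a := ⟨k, h1⟩
    have hTb : D.Term b := ⟨k, h2⟩
    have h3 : Dle (del H s) p.length w w' := by
      have h4 : ∀ {w w' : W} (p : H.Walk w w'), (∀ z ∈ p.support, z ∈ E) →
          Dle (del H s) p.length w w' := by
        intro w w' p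
        induction p with
        | nil => intro _; exact Dle.refl _ _ _
        | @cons a b c hab p ih =>
          intro hp
          rw [SimpleGraph.Walk.length_cons]
          have ha' : a ∈ E := hp a (by rw [SimpleGraph.Walk.support_cons]; exact List.mem_cons_self)
          have hb' : b ∈ E := hp b (by
            rw [SimpleGraph.Walk.support_cons, List.mem_cons]
            exact Or.inr p.start_mem_support)
          refine Dle.cons (G := del H s) ⟨hab, ?_, ?_⟩ (ih (fun z hz => hp z (by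
            rw [SimpleGraph.Walk.support_cons, List.mem_cons]
            exact Or.inr hz)))
          · rintro rfl; exact D.I_v k (hEI _ ha')
          · rintro rfl; exact D.I_v k (hEI _ hb')
      exact h4 p hp
    have hwv : w ≠ s := fun h => D.I_v k (h ▸ hEI w (hp w p.start_mem_support))
    have hw'v : w' ≠ s := fun h => D.I_v k (h ▸ hEI w' (hp w' p.end_mem_support))
    have h5 : Dle (del H s) (p.length + 2) a b := by
      have h6 : Dle (del H s) (p.length + 1) a w' :=
        Dle.cons (G := del H s) ⟨haw, Dec.Term.ne_v D hTa, hwv⟩ h3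
      exact h6.snoc ⟨hw'b, hw'v, Dec.Term.ne_v D hTb⟩
    exact (D.far c hTa hTb hab h5).1

/-- **2-connected graphs with a vertex of degree two which are not cycles fail.** -/
theorem delta2_fails [Finite W] (h2 : Conn2 H) (hcard : ∃ r b c : W, r ≠ b ∧ r ≠ c ∧ b ≠ c)
    (hd : ∃ t, t ∈ D2 H) (hnc : ∃ w, w ∉ D2 H)
    (IH : ∀ S : Set W, S ≠ Set.univ → (¬ ∃ z : S, ∀ a b : S, H.Adj a b → a = z ∨ b = z) →
      Fails.{0} (H.induce S)) : Fails.{0} H := by
  classical
  by_contra hnf
  have hδ := two_le_deg h2 hcard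
  -- the edges between vertices of degree at least three have a common vertex
  obtain ⟨s, hsD, hs⟩ : ∃ s, s ∉ D2 H ∧ ∀ a b, a ∉ D2 H → b ∉ D2 H → H.Adj a b → a = s ∨ b = s := by
    have hhigh : ∀ x, x ∈ highSet H 2 ↔ x ∉ D2 H := by
      intro x
      rw [← three_le_deg_iff h2 hcard]
      exact Iff.rfl
    by_contra hcon
    push Not at hcon
    obtain ⟨w₀, hw₀⟩ := hnc
    obtain ⟨a, b, ha, hb, hab, -, -⟩ := hcon w₀ hw₀
    refine hnf (Fails.of_high 2 (IH _ ?_ ?_) ⟨⟨a, (hhigh a).2 ha⟩, ⟨b, (hhigh b).2 hb⟩, hab⟩)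
    · intro h
      obtain ⟨t, ht⟩ := hd
      exact (hhigh t).1 (by rw [h]; trivial) ht
    · rintro ⟨s, hs⟩
      obtain ⟨a, b, ha, hb, hab, h3, h4⟩ := hcon s.1 ((hhigh _).1 s.2)
      rcases hs ⟨a, (hhigh a).2 ha⟩ ⟨b, (hhigh b).2 hb⟩ hab with h5 | h5
      · exact h3 (congrArg Subtype.val h5)
      · exact h4 (congrArg Subtype.val h5)
  -- the maximal cycle condition
  obtain ⟨⟨z, x, y⟩, hz, hmax'⟩ := Set.exists_max_image {q : W × W × W | Two H q.1 q.2.1 q.2.2}
    (fun q => (del H q.1).dist q.2.1 q.2.2) (Set.toFinite _) (by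
      obtain ⟨t, a, b, h⟩ := hd
      exact ⟨(t, a, b), h⟩)
  have hz : Two H z x y := hz
  obtain ⟨M, hMdef⟩ : ∃ M, M = (del H z).dist x y := ⟨_, rfl⟩
  have hreach : ∀ t a b, Two H t a b → (del H t).Reachable a b := fun t a b h =>
    h2.del_reachable h.adj_left.ne.symm h.adj_right.ne.symm
  have hmax : ∀ t a b, Two H t a b → Dle (del H t) M a b := by
    intro t a b h
    refine (Dle.of_reachable (hreach t a b h)).mono ?_
    rw [hMdef]
    exact hmax' (t, a, b) h
  have hM1 : 1 ≤ M := by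
    by_contra h
    have h3 : M = 0 := by omega
    have h4 := hmax z x y hz
    rw [h3] at h4
    exact hz.ne h4.eq_of_zero
  by_cases hM2 : M = 1
  · -- books
    have hadj : ∀ t a b, Two H t a b → H.Adj a b := by
      intro t a b h
      have h3 := hmax t a b h
      rw [hM2] at h3
      obtain ⟨p, hp⟩ := h3
      cases p with
      | nil => exact absurd rfl h.ne
      | @cons _ b' _ hab p =>
        rw [SimpleGraph.Walk.length_cons] at hp
        have := SimpleGraph.Walk.eq_of_length_eq_zero (p := p) (by omega)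
        subst this
        exact hab.1
    obtain ⟨z', p, h3, h4, h5, h6⟩ := book_structure h2 hcard hsD hs hadj hd
    exact hnf (book_fails h3 h4 hsD h5 h6 h2 hcard)
  have hnadj : ∀ t a b, Two H t a b → M ≤ (del H t).dist a b → ¬ H.Adj a b := by
    intro t a b h h3 h4
    have h5 : Dle (del H t) 1 a b := Dle.of_adj ⟨h4, h.adj_left.ne.symm, h.adj_right.ne.symm⟩
    have := h5.dist_le
    omega
  have hctx : ∀ t a b, Two H t a b → M ≤ (del H t).dist a b → Ctx H t a b M :=
    fun t a b h h3 => ⟨h2, hcard, h, h3, hmax⟩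
  -- every maximal vertex has a bad copy
  have hbad : ∀ t a b, Two H t a b → M ≤ (del H t).dist a b →
      ∃ (K : Type) (D : Dec H t a b s K) (k : K), D.Inner k := by
    intro t a b h h3
    by_contra hno
    apply hnf
    obtain ⟨J, R, hR, hbadR, hbr, hiso⟩ := exists_lg (Nat.card W)
    refine ghost_fails (r := t) (b := a) (c := b) h.adj_left h.adj_right h.ne
      (fun x y hxy => h2.exists_adj hcard x y hxy.ne.symm) hR hbadR hiso ?_
    rintro f hf hfa i j hij ⟨e, e', hee, ⟨x', y', hx'y', hmem⟩, hm1, hm2⟩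
    by_contra hsp
    have hC : Copy R H t a b f := ⟨hR, h2, hcard, h, hnadj t a b h h3, hf, hfa, hbr⟩
    have hused : Used f (i, j) := by
      rcases gD_cases hx'y' (by rw [← hmem]; exact hm1) (by rw [← hmem]; exact hm2) with
        ⟨z', h4⟩ | ⟨z', h4⟩ | h4
      · rw [h4, Sym2.eq_iff] at hmem
        rcases hmem with ⟨h5, -⟩ | ⟨-, h5⟩
        · exact ⟨e, z', h5⟩
        · exact ⟨e', z', h5⟩
      · rw [h4, Sym2.eq_iff] at hmem
        rcases hmem with ⟨-, h5⟩ | ⟨h5, -⟩
        · exact ⟨e', z', h5⟩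
        · exact ⟨e, z', h5⟩
      · exfalso
        rw [Sym2.eq_iff] at h4
        rcases h4 with ⟨h5, h6⟩ | ⟨h5, h6⟩
        · rcases gpsi_eq_w h5 with ⟨h7, h8⟩ | ⟨h7, h8⟩ <;>
            rcases gpsi_eq_w h6 with ⟨h9, h10⟩ | ⟨h9, h10⟩
          · exact hx'y'.ne (h7.trans h9.symm)
          · rw [h7, h9] at hx'y'; exact hnadj t a b h h3 hx'y'
          · rw [h7, h9] at hx'y'; exact hnadj t a b h h3 hx'y'.symm
          · exact hx'y'.ne (h7.trans h9.symm)
        · rcases gpsi_eq_w h5 with ⟨h7, h8⟩ | ⟨h7, h8⟩ <;>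
            rcases gpsi_eq_w h6 with ⟨h9, h10⟩ | ⟨h9, h10⟩
          · exact hx'y'.ne (h7.trans h9.symm)
          · rw [h7, h9] at hx'y'; exact hnadj t a b h h3 hx'y'
          · rw [h7, h9] at hx'y'; exact hnadj t a b h h3 hx'y'.symm
          · exact hx'y'.ne (h7.trans h9.symm)
    obtain ⟨v, D, k, hk⟩ := hC.exists_bad hused hsp
    obtain ⟨y₁, y₂, h4, h5, h6, h7, h8⟩ := D.two_short (hctx t a b h h3) hk
    have hv := D.v_D2 (hctx t a b h h3) hk
    have hvs : v = s := by
      rcases hs v y₁ hv h5 h7 with h9 | h9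
      · exact h9
      · rcases hs v y₂ hv h6 h8 with h10 | h10
        · exact h10
        · exact absurd (h9.trans h10.symm) h4
    subst hvs
    exact hno ⟨_, D, k, hk⟩
  obtain ⟨K₀, D₀, k₀, hk₀⟩ := hbad z x y hz hMdef.le
  have c₀ := hctx z x y hz hMdef.le
  obtain ⟨y₁, y₂, hy12, hy₁, hy₂, hsy₁, hsy₂⟩ := D₀.two_short c₀ hk₀
  have hxD := Dec.Inner.x_D2 D₀ c₀ hs hk₀
  have hyD := Dec.Inner.y_D2 D₀ c₀ hs hk₀
  have h3iff : ∀ w, 3 ≤ (H.neighborSet w).ncard ↔ w ∉ D2 H := fun w => three_le_deg_iff h2 hcard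
  -- no two vertices of degree two are adjacent
  have hL : ∀ a b, a ∈ D2 H → b ∈ D2 H → ¬ H.Adj a b := by
    intro a b ha hb hab
    have h3 := chain_dichotomy hδ IH hnf hsy₁ ((h3iff s).2 hsD) ((h3iff y₁).2 hy₁)
      ⟨a, deg_eq_two_iff.2 ha, b, hab, deg_eq_two_iff.2 hb⟩ z (deg_eq_two_iff.2 hz.mem)
    obtain ⟨-, w, hw, hw2⟩ := h3
    rcases (hz.iff w).1 hw with rfl | rfl
    · exact hxD (deg_eq_two_iff.1 hw2)
    · exact hyD (deg_eq_two_iff.1 hw2)
  -- the neighbours of `s` have degree at least three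
  have hN : ∀ w, H.Adj s w → w ∉ D2 H := by
    intro t hst ht
    obtain ⟨n, htn, hns⟩ := h2.exists_adj hcard t s hst.ne
    have htwo : Two H t s n := two_of_mem ht hst.symm htn hns.symm
    have hdist : M ≤ (del H t).dist s n := by
      obtain ⟨q, l, h3, h4, h5⟩ := (Dle.of_reachable (hreach t s n htwo)).from hns
      have h6 : Dle (del H s) (l + 1) q t :=
        Dle.snoc (G := del H s) (h4.mono_graph (fun a b h => ⟨h.1.1, h.2.1, h.2.2⟩))
          ⟨htn.symm, hns, hst.ne.symm⟩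
      have h7 := (D₀.far c₀ (D₀.term_of_adj h3.1) (D₀.term_of_adj hst) h3.2.2 h6).1
      omega
    obtain ⟨K, D, k, hk⟩ := hbad t s n htwo hdist
    exact Dec.Inner.x_ne D (hctx t s n htwo hdist) hM1 hs hL hk rfl
  have hpc : PageCtx H s := by
    refine ⟨h2, hδ, (h3iff s).2 hsD, fun w hw => (h3iff w).2 (hN w hw), ?_, ?_⟩
    · intro a b hab ha hb
      exact hs a b ((h3iff a).1 ha) ((h3iff b).1 hb) hab
    · intro a b hab ha
      exact (h3iff b).2 (fun hb => hL a b (deg_eq_two_iff.1 ha) hb hab)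
  have hMV : ∀ t a b, Two H t a b → (IsMV H M t ↔ M ≤ (del H t).dist a b) := by
    intro t a b h
    constructor
    · rintro ⟨-, h3⟩
      exact h3 _ (shortAt_of_dle h (Dle.of_reachable (hreach t a b h)))
    · intro h3
      refine ⟨deg_eq_two_iff.2 h.mem, ?_⟩
      rintro k ⟨a', b', p, ha', hb', hne, hp, hpk⟩
      have h4 : Dle (del H t) k a' b' := by
        have h5 : ∀ {a b : W} (p : H.Walk a b), t ∉ p.support → Dle (del H t) p.length a b := by
          intro a b p
          induction p with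
          | nil => intro _; exact Dle.refl _ _ _
          | @cons a b c hab p ih =>
            intro hp
            rw [SimpleGraph.Walk.support_cons, List.mem_cons, not_or] at hp
            rw [SimpleGraph.Walk.length_cons]
            refine Dle.cons (G := del H t) ⟨hab, fun h => hp.1 h.symm, ?_⟩ (ih hp.2)
            rintro rfl
            exact hp.2 p.start_mem_support
        exact (h5 p hp).mono hpk
      have h5 : Dle (del H t) k a b := by
        rcases (h.iff a').1 ha' with rfl | rfl <;> rcases (h.iff b').1 hb' with rfl | rfl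
        · exact absurd rfl hne
        · exact h4
        · exact h4.symm
        · exact absurd rfl hne
      exact h3.trans h5.dist_le
  have hpages := pages hpc IH hnf (exists_page D₀ c₀ k₀) ⟨z, (hMV z x y hz).2 hMdef.le⟩
  obtain ⟨t, htI, htD, -⟩ := Dec.Inner.exists_D2 D₀ c₀ hs hk₀
  obtain ⟨E, hE, htE, m, hmE, hm⟩ := hpages t (deg_eq_two_iff.2 htD)
  obtain ⟨a, b, hmab⟩ := deg_eq_two_iff.1 hm.1
  have hmd := (hMV m a b hmab).1 hm
  obtain ⟨K', D', k', hk'⟩ := hbad m a b hmab hmd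
  obtain ⟨l', h4, h5, h6, h7⟩ := Dec.Inner.E2 D' (hctx m a b hmab hmd) hs hL hN hk'
  exact Dec.Inner.contra D₀ D' c₀ hk₀ htI h4 h5 h6 h7
    (fun C h8 h9 => hE.conn.closed hmE htE C h8 h9) (fun w hw => hE.nbr w hw)

end Delta2

end Pool.Agent.StrongMax
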