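import Pool.Agent.Lib.StrongMax.Cycle

/-!
# Bounded reachability (helper18)
-/

namespace Pool.Agent.StrongMax

universe v w

section Dle

variable {W : Type v} {G G' : SimpleGraph W} {m n : ℕ} {x y z v : W}

/-- There is a walk of length at most `n` from `x` to `y`. -/
def Dle (G : SimpleGraph W) (n : ℕ) (x y : W) : Prop := ∃ p : G.Walk x y, p.length ≤ n

theorem Dle.refl (G : SimpleGraph W) (n : ℕ) (x : W) : Dle G n x x := ⟨.nil, by simp⟩

theorem Dle.mono (h : Dle G m x y) (hmn : m ≤ n) : Dle G n x y := by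
  obtain ⟨p, hp⟩ := h
  exact ⟨p, hp.trans hmn⟩

theorem Dle.cons (h : G.Adj x y) (h' : Dle G n y z) : Dle G (n + 1) x z := by
  obtain ⟨p, hp⟩ := h'
  exact ⟨.cons h p, by rw [SimpleGraph.Walk.length_cons]; omega⟩

theorem Dle.of_adj (h : G.Adj x y) : Dle G 1 x y := Dle.cons h (Dle.refl G 0 y)

theorem Dle.trans (h : Dle G m x y) (h' : Dle G n y z) : Dle G (m + n) x z := by
  obtain ⟨p, hp⟩ := h
  obtain ⟨q, hq⟩ := h'
  exact ⟨p.append q, by rw [SimpleGraph.Walk.length_append]; omega⟩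

theorem Dle.symm (h : Dle G n x y) : Dle G n y x := by
  obtain ⟨p, hp⟩ := h
  exact ⟨p.reverse, by rw [SimpleGraph.Walk.length_reverse]; exact hp⟩

theorem Dle.snoc (h' : Dle G n x y) (h : G.Adj y z) : Dle G (n + 1) x z := by
  exact h'.trans (Dle.of_adj h)

theorem Dle.lip {g : W → ℤ} (hg : ∀ x y, G.Adj x y → g y ≤ g x + 1) (h : Dle G n x y) :
    g y ≤ g x + n := by
  obtain ⟨p, hp⟩ := h
  have := lipschitz_walk hg p
  have h2 : (p.length : ℤ) ≤ n := by exact_mod_cast hp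
  omega

theorem Dle.map {W' : Type w} {G' : SimpleGraph W'} (ρ : W → W')
    (hρ : ∀ x y, G.Adj x y → ρ x = ρ y ∨ G'.Adj (ρ x) (ρ y)) (h : Dle G n x y) :
    Dle G' n (ρ x) (ρ y) := by
  obtain ⟨p, hp⟩ := h
  induction p generalizing n with
  | nil => exact Dle.refl _ _ _
  | @cons a b c hab p ih =>
    rw [SimpleGraph.Walk.length_cons] at hp
    have h1 : Dle G' (n - 1) (ρ b) (ρ c) := ih (by omega)
    rcases hρ a b hab with h | h
    · rw [h]; exact h1.mono (by omega)
    · exact (Dle.cons h h1).mono (by omega)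

theorem Dle.mono_graph (h : Dle G n x y) (hG : ∀ x y, G.Adj x y → G'.Adj x y) : Dle G' n x y :=
  Dle.map (G' := G') id (fun x y h => Or.inr (hG x y h)) h

theorem Dle.closed {C : Set W} (hC : ∀ x ∈ C, ∀ y, G.Adj x y → y ∈ C) (h : Dle G n x y)
    (hx : x ∈ C) : y ∈ C := by
  obtain ⟨p, hp⟩ := h
  clear hp
  induction p with
  | nil => exact hx
  | @cons a b c hab p ih => exact ih (hC a hx b hab)

theorem Dle.eq_of_zero (h : Dle G 0 x y) : x = y := by
  obtain ⟨p, hp⟩ := h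
  exact SimpleGraph.Walk.eq_of_length_eq_zero (Nat.le_zero.1 hp)

theorem Dle.exists_adj (h : Dle G n x y) (hxy : x ≠ y) : ∃ x', G.Adj x x' := by
  obtain ⟨p, hp⟩ := h
  cases p with
  | nil => exact absurd rfl hxy
  | @cons a b c hab p => exact ⟨b, hab⟩

theorem Dle.of_reachable (h : G.Reachable x y) : Dle G (G.dist x y) x y := by
  obtain ⟨p, hp⟩ := h.exists_walk_length_eq_dist
  exact ⟨p, hp.le⟩

theorem Dle.reachable (h : Dle G n x y) : G.Reachable x y := by
  obtain ⟨p, hp⟩ := h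
  exact p.reachable

theorem Dle.dist_le (h : Dle G n x y) : G.dist x y ≤ n := by
  obtain ⟨p, hp⟩ := h
  exact (SimpleGraph.dist_le p).trans hp

theorem Dle.from_aux (hy : y ≠ v) (p : G.Walk x y) :
    (x ≠ v ∧ Dle (del G v) p.length x y) ∨
      ∃ q l, G.Adj v q ∧ Dle (del G v) l q y ∧ l + 1 ≤ p.length := by
  induction p with
  | nil => exact Or.inl ⟨hy, Dle.refl _ _ _⟩
  | @cons a b c hab p ih =>
    rw [SimpleGraph.Walk.length_cons]
    rcases ih hy with ⟨h1, h2⟩ | ⟨q, l, h1, h2, h3⟩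
    · by_cases ha : a = v
      · subst ha
        exact Or.inr ⟨b, p.length, hab, h2, le_rfl⟩
      · exact Or.inl ⟨ha, Dle.cons (G := del G v) ⟨hab, ha, h1⟩ h2⟩
    · exact Or.inr ⟨q, l, h1, h2, by omega⟩

theorem Dle.from (h : Dle G n v y) (hy : y ≠ v) :
    ∃ q l, G.Adj v q ∧ Dle (del G v) l q y ∧ l + 1 ≤ n := by
  obtain ⟨p, hp⟩ := h
  rcases Dle.from_aux hy p with ⟨h1, h2⟩ | ⟨q, l, h1, h2, h3⟩
  · exact absurd rfl h1
  · exact ⟨q, l, h1, h2, by omega⟩

theorem Dle.split (h : Dle G n x y) (hx : x ≠ v) (hy : y ≠ v) : Dle (del G v) n x y ∨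
    ∃ p q l₁ l₂, p ≠ q ∧ G.Adj v p ∧ G.Adj v q ∧ Dle (del G v) l₁ x p ∧ Dle (del G v) l₂ q y ∧
      l₁ + l₂ + 2 ≤ n := by
  obtain ⟨p, hp⟩ := h
  induction p generalizing n with
  | nil => exact Or.inl (Dle.refl _ _ _)
  | @cons a b c hab p ih =>
    rw [SimpleGraph.Walk.length_cons] at hp
    by_cases hb : b = v
    · subst hb
      obtain ⟨q, l, h1, h2, h3⟩ := Dle.from (v := b) (n := p.length) ⟨p, le_rfl⟩ hy
      by_cases hqa : q = a
      · subst hqa
        exact Or.inl (h2.mono (by omega))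
      · exact Or.inr ⟨a, q, 0, l, fun h => hqa h.symm, hab.symm, h1, Dle.refl _ _ _, h2, by omega⟩
    · rcases ih (n := n - 1) hb hy (by omega) with h | ⟨p', q, l₁, l₂, h1, h2, h3, h4, h5, h6⟩
      · exact Or.inl ((Dle.cons (G := del G v) ⟨hab, hx, hb⟩ h).mono (by omega))
      · exact Or.inr ⟨p', q, l₁ + 1, l₂, h1, h2, h3, Dle.cons (G := del G v) ⟨hab, hx, hb⟩ h4, h5,
          by omega⟩

theorem parity_walk {col : W → Prop} (hcol : ∀ x y, G.Adj x y → (col x ↔ ¬ col y))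
    (p : G.Walk x y) : (col x ↔ col y) ↔ Even p.length := by
  induction p with
  | nil => simp
  | @cons a b c hab p ih =>
    rw [SimpleGraph.Walk.length_cons, Nat.even_add_one, ← ih, hcol a b hab]
    tauto

theorem Dle.parity_same {col : W → Prop} (hcol : ∀ x y, G.Adj x y → (col x ↔ ¬ col y))
    (h : Dle G n x y) (hxy : col x ↔ col y) (hn : Odd n) : Dle G (n - 1) x y := by
  obtain ⟨p, hp⟩ := h
  have h1 : Even p.length := (parity_walk hcol p).1 hxy
  have h2 : p.length ≠ n := by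
    rintro rfl
    exact (Nat.not_even_iff_odd.2 hn) h1
  exact ⟨p, by omega⟩

theorem Dle.parity_odd {col : W → Prop} (hcol : ∀ x y, G.Adj x y → (col x ↔ ¬ col y))
    (h : Dle G n x y) (hxy : ¬ (col x ↔ col y)) (hmin : ∀ m, Dle G m x y → n ≤ m) : Odd n := by
  obtain ⟨p, hp⟩ := h
  have h1 : ¬ Even p.length := fun h => hxy ((parity_walk hcol p).2 h)
  have h2 : n = p.length := le_antisymm (hmin _ ⟨p, le_rfl⟩) hp
  rw [h2]
  exact Nat.not_even_iff_odd.1 h1

end Dle

section Two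

variable {W : Type v} {H : SimpleGraph W}

/-- `a` and `b` are the only neighbours of `t`. -/
structure Two (H : SimpleGraph W) (t a b : W) : Prop where
  ne : a ≠ b
  iff : ∀ c, H.Adj t c ↔ c = a ∨ c = b

/-- The vertices of degree two. -/
def D2 (H : SimpleGraph W) : Set W := {t | ∃ a b, Two H t a b}

theorem Two.symm {t a b : W} (h : Two H t a b) : Two H t b a :=
  ⟨h.ne.symm, fun c => by rw [h.iff c]; tauto⟩

theorem Two.adj_left {t a b : W} (h : Two H t a b) : H.Adj t a := (h.iff a).2 (Or.inl rfl)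

theorem Two.adj_right {t a b : W} (h : Two H t a b) : H.Adj t b := (h.iff b).2 (Or.inr rfl)

theorem Two.mem {t a b : W} (h : Two H t a b) : t ∈ D2 H := ⟨a, b, h⟩

/-- Two distinct neighbours of a vertex of degree two are all its neighbours. -/
theorem two_of_mem {t a b : W} (ht : t ∈ D2 H) (ha : H.Adj t a) (hb : H.Adj t b) (hab : a ≠ b) :
    Two H t a b := by
  obtain ⟨c, d, hcd, h⟩ := ht
  refine ⟨hab, fun e => ?_⟩
  rw [h e]
  rcases (h a).1 ha with rfl | rfl <;> rcases (h b).1 hb with rfl | rfl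
  · exact absurd rfl hab
  · rfl
  · tauto
  · exact absurd rfl hab

theorem D2_three {t a b c : W} (ht : t ∈ D2 H) (ha : H.Adj t a) (hb : H.Adj t b) (hc : H.Adj t c)
    (hab : a ≠ b) (hac : a ≠ c) (hbc : b ≠ c) : False := by
  rcases ((two_of_mem ht ha hb hab).iff c).1 hc with rfl | rfl
  · exact hac rfl
  · exact hbc rfl

theorem exists_third (h2 : Conn2 H) (hcard : ∃ r b c : W, r ≠ b ∧ r ≠ c ∧ b ≠ c) {x : W}
    (hx : x ∉ D2 H) (y₁ y₂ : W) : ∃ y, H.Adj x y ∧ y ≠ y₁ ∧ y ≠ y₂ := by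
  by_contra hcon
  push Not at hcon
  obtain ⟨a, b, ha, hb, hab⟩ := h2.two_nbrs hcard x
  refine hx ⟨a, b, hab, fun c => ⟨fun hc => ?_, ?_⟩⟩
  · by_contra hn
    push Not at hn
    by_cases h1 : a = y₁
    · have h2 : b = y₂ := hcon b hb (fun h => hab (h1.trans h.symm))
      have h3 : c = y₂ := hcon c hc (fun h => hn.1 (h.trans h1.symm))
      exact hn.2 (h3.trans h2.symm)
    · have h2 : a = y₂ := hcon a ha h1
      have h3 : b = y₁ := by
        by_contra h
        exact hab (h2.trans (hcon b hb h).symm)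
      have h4 : c = y₂ := hcon c hc (fun h => hn.2 (h.trans h3.symm))
      exact hn.1 (h4.trans h2.symm)
  · rintro (rfl | rfl)
    · exact ha
    · exact hb

theorem Conn2.del_reachable (h2 : Conn2 H) {v x y : W} (hx : x ≠ v) (hy : y ≠ v) :
    (del H v).Reachable x y := by
  by_contra hn
  obtain ⟨a, ha, b, hb, hav, hbv, hab⟩ := h2 {z | (del H v).Reachable x z} v
    ⟨x, SimpleGraph.Reachable.refl _, hx⟩ ⟨y, hn, hy⟩
  have hadj : (del H v).Adj a b := ⟨hab, hav, hbv⟩
  exact hb ((show (del H v).Reachable x a from ha).trans hadj.reachable)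

theorem Conn2.dist_step (h2 : Conn2 H) {r t x y : W} (ht : t ≠ r) (hxy : (del H r).Adj x y) :
    ((del H r).dist t y : ℤ) ≤ (del H r).dist t x + 1 := by
  obtain ⟨p, hp⟩ := (h2.del_reachable ht hxy.2.1).exists_walk_length_eq_dist
  have := SimpleGraph.dist_le (p.concat hxy)
  rw [SimpleGraph.Walk.length_concat, hp] at this
  exact_mod_cast this

end Two

end Pool.Agent.StrongMax
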