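import Pool.Agent.Lib.StrongMax.Conflict

/-!
# The soft exchange theorems (helper9)

`Bad Rel` says that no set of items is stable under the soft exchanges.  We show that a host whose
copies of `H` are controlled by such a relation has no strongly maximal `H`-free edge set.
-/

namespace Pool.Agent.StrongMax

universe u v w

/-- No set of items is stable under the soft exchanges. -/
def Bad {I : Type w} (Rel : I → I → Prop) : Prop :=
  ∀ S : Set I, ∃ (A B : Finset I) (C : Finset (I × I)),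
    (∀ a ∈ A, a ∈ S) ∧ (∀ b ∈ B, b ∉ S) ∧
    (∀ b ∈ B, ∀ i ∈ S, (Rel b i ∨ Rel i b) → i ∈ A) ∧ (∀ b ∈ B, ∀ b' ∈ B, ¬ Rel b b') ∧
    (∀ c ∈ C, Rel c.1 c.2 ∧ c.1 ∈ S ∧ c.2 ∈ S ∧ (c.1 ∈ A ∨ c.2 ∈ A)) ∧
    A.card < B.card + C.card

theorem bad_idx : Bad Idx.Rel := by
  classical
  intro S
  by_cases hdeg : ∀ i j j', i ∈ S → j ∈ S → j' ∈ S → Idx.Conf i j → Idx.Conf i j' → j = j'
  · by_contra hcon
    refine Idx.no_soft S hdeg ?_
    intro A B hA hB hnb hind
    by_contra hlt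
    refine hcon ⟨A, B, ∅, hA, hB, fun b hb i hi h => hnb b hb i hi h,
      fun b hb b' hb' h => hind b hb b' hb' (Or.inl h), by simp, ?_⟩
    simpa using hlt
  · push Not at hdeg
    obtain ⟨i, j, j', hi, hj, hj', hij, hij', hne⟩ := hdeg
    have key : ∀ j, j ∈ S → Idx.Conf i j → ∃ c : Idx × Idx, (Idx.Rel c.1 c.2 ∧ c.1 ∈ S ∧ c.2 ∈ S ∧
        (c.1 = i ∨ c.2 = i)) ∧ ((c.1 = i ∧ c.2 = j) ∨ (c.1 = j ∧ c.2 = i)) := by
      intro j hj h
      rcases h with h | h
      · exact ⟨(i, j), ⟨h, hi, hj, Or.inl rfl⟩, Or.inl ⟨rfl, rfl⟩⟩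
      · exact ⟨(j, i), ⟨h, hj, hi, Or.inr rfl⟩, Or.inr ⟨rfl, rfl⟩⟩
    obtain ⟨c, hc, hcj⟩ := key j hj hij
    obtain ⟨c', hc', hcj'⟩ := key j' hj' hij'
    have hcc : c ≠ c' := by
      rintro rfl
      rcases hcj with ⟨h1, h2⟩ | ⟨h1, h2⟩ <;> rcases hcj' with ⟨h3, h4⟩ | ⟨h3, h4⟩
      · exact hne (h2.symm.trans h4)
      · exact hij'.ne (h1.symm.trans h3)
      · exact hij'.ne (h2.symm.trans h4)
      · exact hne (h1.symm.trans h3)
    refine ⟨{i}, ∅, {c, c'}, by simpa using hi, by simp, by simp, by simp, ?_, ?_⟩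
    · intro d hd
      simp only [Finset.mem_insert, Finset.mem_singleton] at hd
      rcases hd with rfl | rfl
      · simpa using hc
      · simpa using hc'
    · rw [Finset.card_pair hcc]; simp

/-- **Soft exchange theorem with pools.** -/
theorem not_stronglyMaximal_of_soft {W : Type v} {V : Type u} {H : SimpleGraph W}
    {G : SimpleGraph V} {I : Type w} {Rel : I → I → Prop} (hbad : Bad Rel)
    (e : I → Sym2 V) (D : I → I → Set (Sym2 V)) (Q : I → Bool → Set (Sym2 V))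
    (he : Function.Injective e) (heG : ∀ i, e i ∈ G.edgeSet)
    (hDG : ∀ i j, Rel i j → D i j ⊆ G.edgeSet) (hQG : ∀ i t, Q i t ⊆ G.edgeSet)
    (heD : ∀ i k l, Rel k l → e i ∉ D k l) (heQ : ∀ i k t, e i ∉ Q k t)
    (hDD : ∀ i j k l x, Rel i j → Rel k l → x ∈ D i j → x ∈ D k l → i = k ∧ j = l)
    (hQQ : ∀ i x, x ∈ Q i true → x ∉ Q i false)
    (hA : ∀ i j, Rel i j → ∀ t t', ¬ HFree H (D i j ∪ {e i, e j} ∪ Q i t ∪ Q j t'))
    (hX3 : ∀ f : W → V, Function.Injective f → (∀ a b, H.Adj a b → G.Adj (f a) (f b)) →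
      ∀ i j, Rel i j → (∃ a b, H.Adj a b ∧ s(f a, f b) ∈ D i j) →
        (∃ a b, H.Adj a b ∧ s(f a, f b) = e i) ∧ ∃ a b, H.Adj a b ∧ s(f a, f b) = e j)
    (hX2 : ∀ f : W → V, Function.Injective f → (∀ a b, H.Adj a b → G.Adj (f a) (f b)) →
      ∀ i t, (∃ a b, H.Adj a b ∧ s(f a, f b) ∈ Q i t) → ∃ a b, H.Adj a b ∧ s(f a, f b) = e i)
    (hX1 : ∀ f : W → V, Function.Injective f → (∀ a b, H.Adj a b → G.Adj (f a) (f b)) →
      ∀ i, (∃ a b, H.Adj a b ∧ s(f a, f b) = e i) →
        ∃ j k, Rel j k ∧ (j = i ∨ k = i) ∧ ∃ a b, H.Adj a b ∧ s(f a, f b) ∈ D j k)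
    (F : Set (Sym2 V)) : ¬ StronglyMaximal H G F := by
  classical
  intro hF
  -- an item in `F` has an intact pool
  have hpool : ∀ i, e i ∈ F → ∃ t, Q i t ⊆ F := by
    intro i hi
    by_contra hcon
    push Not at hcon
    have h1 := hcon true
    have h2 := hcon false
    rw [Set.not_subset] at h1 h2
    obtain ⟨x, hx, hxF⟩ := h1
    obtain ⟨y, hy, hyF⟩ := h2
    have hxy : x ≠ y := fun h => hQQ i x hx (h ▸ hy)
    have h := hF.exchange_fin (A := {x, y}) (B := {e i}) ?_ ?_ ?_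
    · rw [Finset.card_pair hxy, Finset.card_singleton] at h
      omega
    · intro z hz
      simp only [Finset.mem_insert, Finset.mem_singleton] at hz
      rcases hz with rfl | rfl
      · exact hQG i true hx
      · exact hQG i false hy
    · intro z hz hzF
      simp only [Finset.mem_insert, Finset.mem_singleton] at hz
      rcases hz with rfl | rfl
      · exact absurd hzF hxF
      · exact absurd hzF hyF
    · by_contra hcon
      obtain ⟨f, hf, hfF⟩ := not_hFree_iff.1 hcon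
      have hsub : (F \ ↑({e i} : Finset (Sym2 V))) ∪ ↑({x, y} : Finset (Sym2 V)) ⊆ G.edgeSet := by
        apply Set.union_subset (Set.sdiff_subset.trans hF.1)
        intro z hz
        simp only [Finset.coe_insert, Finset.coe_singleton, Set.mem_insert_iff,
          Set.mem_singleton_iff] at hz
        rcases hz with rfl | rfl
        · exact hQG i true hx
        · exact hQG i false hy
      have hfG : ∀ a b, H.Adj a b → G.Adj (f a) (f b) := fun a b hab => hsub (hfF a b hab)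
      have hno : ∀ a b, H.Adj a b → s(f a, f b) ≠ e i := by
        intro a b hab heq
        have := hfF a b hab
        rw [heq] at this
        rcases this with h | h
        · exact h.2 (by simp)
        · simp only [Finset.coe_insert, Finset.coe_singleton, Set.mem_insert_iff,
            Set.mem_singleton_iff] at h
          rcases h with h | h
          · exact heQ i i true (h ▸ hx)
          · exact heQ i i false (h ▸ hy)
      refine (hFree_iff.1 hF.2.1) f hf (fun a b hab => ?_)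
      rcases hfF a b hab with h | h
      · exact h.1
      · exfalso
        simp only [Finset.coe_insert, Finset.coe_singleton, Set.mem_insert_iff,
          Set.mem_singleton_iff] at h
        rcases h with h | h
        · obtain ⟨c, d, hcd, h'⟩ := hX2 f hf hfG i true ⟨a, b, hab, h ▸ hx⟩
          exact hno c d hcd h'
        · obtain ⟨c, d, hcd, h'⟩ := hX2 f hf hfG i false ⟨a, b, hab, h ▸ hy⟩
          exact hno c d hcd h'
  -- each conflict inside is damaged
  have hmiss : ∀ i j, Rel i j → e i ∈ F → e j ∈ F → ∃ x ∈ D i j, x ∉ F := by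
    intro i j hij hi hj
    by_contra hn
    push Not at hn
    obtain ⟨t, ht⟩ := hpool i hi
    obtain ⟨t', ht'⟩ := hpool j hj
    refine hA i j hij t t' (hF.2.1.mono ?_)
    rintro x (((hx | hx) | hx) | hx)
    · exact hn x hx
    · rcases hx with rfl | rfl
      · exact hi
      · exact hj
    · exact ht hx
    · exact ht' hx
  obtain ⟨A, B, C, hAS, hBS, hnb, hind, hC, hlt⟩ := hbad {i | e i ∈ F}
  have hC' : ∀ c : I × I, ∃ x, c ∈ C → x ∈ D c.1 c.2 ∧ x ∉ F := by
    intro c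
    by_cases hc : c ∈ C
    · obtain ⟨x, hx, hxF⟩ := hmiss c.1 c.2 (hC c hc).1 (hC c hc).2.1 (hC c hc).2.2.1
      exact ⟨x, fun _ => ⟨hx, hxF⟩⟩
    · exact ⟨e c.1, fun h => absurd h hc⟩
  choose m hm using hC'
  have hminj : Set.InjOn m ↑C := by
    intro c hc d hd hcd
    obtain ⟨h1, h2⟩ := hDD c.1 c.2 d.1 d.2 (m c) (hC c hc).1 (hC d hd).1 (hm c hc).1
      (hcd ▸ (hm d hd).1)
    exact Prod.ext h1 h2
  have hdisj : Disjoint (B.image e) (C.image m) := by
    rw [Finset.disjoint_left]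
    intro x hx hx'
    obtain ⟨i, hi, rfl⟩ := Finset.mem_image.1 hx
    obtain ⟨c, hc, h⟩ := Finset.mem_image.1 hx'
    exact heD i c.1 c.2 (hC c hc).1 (h ▸ (hm c hc).1)
  have h := hF.exchange_fin (A := B.image e ∪ C.image m) (B := A.image e) ?_ ?_ ?_
  · rw [Finset.card_union_of_disjoint hdisj, Finset.card_image_of_injective _ he,
      Finset.card_image_of_injective _ he, Finset.card_image_of_injOn hminj] at h
    omega
  · intro x hx
    rcases Finset.mem_union.1 hx with hx | hx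
    · obtain ⟨i, -, rfl⟩ := Finset.mem_image.1 hx
      exact heG i
    · obtain ⟨c, hc, rfl⟩ := Finset.mem_image.1 hx
      exact hDG _ _ (hC c hc).1 (hm c hc).1
  · intro x hx hxF
    rcases Finset.mem_union.1 hx with hx | hx
    · obtain ⟨i, hi, rfl⟩ := Finset.mem_image.1 hx
      exact absurd hxF (hBS i hi)
    · obtain ⟨c, hc, rfl⟩ := Finset.mem_image.1 hx
      exact absurd hxF (hm c hc).2
  · by_contra hcon
    obtain ⟨f, hf, hfF⟩ := not_hFree_iff.1 hcon
    have hsub : (F \ ↑(A.image e)) ∪ ↑(B.image e ∪ C.image m) ⊆ G.edgeSet := by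
      apply Set.union_subset (Set.sdiff_subset.trans hF.1)
      intro x hx
      rcases Finset.mem_union.1 (Finset.mem_coe.1 hx) with hx | hx
      · obtain ⟨i, -, rfl⟩ := Finset.mem_image.1 hx
        exact heG i
      · obtain ⟨c, hc, rfl⟩ := Finset.mem_image.1 hx
        exact hDG _ _ (hC c hc).1 (hm c hc).1
    have hfG : ∀ a b, H.Adj a b → G.Adj (f a) (f b) := fun a b hab => hsub (hfF a b hab)
    have hmem : ∀ i, e i ∈ (F \ ↑(A.image e)) ∪ ↑(B.image e ∪ C.image m) →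
        (e i ∈ F ∧ i ∉ A) ∨ i ∈ B := by
      rintro i (⟨h1, h2⟩ | h)
      · exact Or.inl ⟨h1, fun h => h2 (Finset.mem_coe.2 (Finset.mem_image_of_mem e h))⟩
      · rcases Finset.mem_union.1 (Finset.mem_coe.1 h) with h | h
        · obtain ⟨j, hj, hji⟩ := Finset.mem_image.1 h
          exact Or.inr (he hji ▸ hj)
        · obtain ⟨c, hc, h⟩ := Finset.mem_image.1 h
          exact absurd (h ▸ (hm c hc).1) (heD i _ _ (hC c hc).1)
    have hused : ∀ i, (∃ a b, H.Adj a b ∧ s(f a, f b) = e i) → (e i ∈ F ∧ i ∉ A) ∨ i ∈ B := by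
      rintro i ⟨a, b, hab, h⟩
      exact hmem i (h ▸ hfF a b hab)
    -- no item of `B` is used
    have hnoB : ∀ i ∈ B, ¬ ∃ a b, H.Adj a b ∧ s(f a, f b) = e i := by
      intro i hi hui
      obtain ⟨j, k, hjk, hor, hD⟩ := hX1 f hf hfG i hui
      obtain ⟨h1, h2⟩ := hX3 f hf hfG j k hjk hD
      rcases hor with rfl | rfl
      · rcases hused k h2 with ⟨h3, h4⟩ | h3
        · exact h4 (hnb j hi k h3 (Or.inl hjk))
        · exact hind j hi k h3 hjk
      · rcases hused j h1 with ⟨h3, h4⟩ | h3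
        · exact h4 (hnb k hi j h3 (Or.inr hjk))
        · exact hind j h3 k hi hjk
    have hused' : ∀ i, (∃ a b, H.Adj a b ∧ s(f a, f b) = e i) → e i ∈ F ∧ i ∉ A := by
      intro i hi
      rcases hused i hi with h | h
      · exact h
      · exact absurd hi (hnoB i h)
    -- all edges are in `F`
    refine (hFree_iff.1 hF.2.1) f hf (fun a b hab => ?_)
    rcases hfF a b hab with h | h
    · exact h.1
    · exfalso
      rcases Finset.mem_union.1 (Finset.mem_coe.1 h) with h | h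
      · obtain ⟨i, hi, h'⟩ := Finset.mem_image.1 h
        exact hnoB i hi ⟨a, b, hab, h'.symm⟩
      · obtain ⟨c, hc, h'⟩ := Finset.mem_image.1 h
        obtain ⟨h1, h2⟩ := hX3 f hf hfG c.1 c.2 (hC c hc).1 ⟨a, b, hab, h' ▸ (hm c hc).1⟩
        rcases (hC c hc).2.2.2 with h3 | h3
        · exact (hused' _ h1).2 h3
        · exact (hused' _ h2).2 h3

/-- **Soft exchange theorem for stars.** -/
theorem not_stronglyMaximal_of_star {W : Type v} {V : Type u} {H : SimpleGraph W}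
    {G : SimpleGraph V} {I : Type w} {Rel : I → I → Prop} (hbad : Bad Rel)
    (hasymm : ∀ i j, Rel i j → ¬ Rel j i) (k : ℕ)
    (e : I → Sym2 V) (Leg : I → Fin k → Set (Sym2 V)) (D : I → I → Set (Sym2 V))
    (he : Function.Injective e) (heG : ∀ i, e i ∈ G.edgeSet)
    (hDG : ∀ i j, (Rel i j ∨ Rel j i) → D i j ⊆ G.edgeSet) (hLG : ∀ i l, Leg i l ⊆ G.edgeSet)
    (heD : ∀ i k l, (Rel k l ∨ Rel l k) → e i ∉ D k l) (heL : ∀ i j l, e i ∉ Leg j l)
    (hDD : ∀ i j k l x, (Rel i j ∨ Rel j i) → (Rel k l ∨ Rel l k) → x ∈ D i j → x ∈ D k l →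
      i = k ∧ j = l)
    (hDL : ∀ i j k l x, (Rel i j ∨ Rel j i) → x ∈ D i j → x ∉ Leg k l)
    (hLL : ∀ i l j m x, x ∈ Leg i l → x ∈ Leg j m → i = j ∧ l = m)
    (hA : ∀ i (J : Finset I) (M : Finset (Fin k)), (∀ j ∈ J, Rel i j ∨ Rel j i) →
      k + 1 ≤ J.card + M.card →
      ¬ HFree H {x | x = e i ∨ (∃ l ∈ M, x ∈ Leg i l) ∨ ∃ j ∈ J, x = e j ∨ x ∈ D i j})
    (hB : ∀ f : W → V, Function.Injective f → (∀ a b, H.Adj a b → G.Adj (f a) (f b)) →
      ∃ i, (∃ a b, H.Adj a b ∧ s(f a, f b) = e i) ∧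
        (∃ j, (Rel i j ∨ Rel j i) ∧ ∃ a b, H.Adj a b ∧ s(f a, f b) = e j) ∧
        ∀ a b, H.Adj a b → s(f a, f b) = e i ∨ (∃ l, s(f a, f b) ∈ Leg i l) ∨
          ∃ j, (Rel i j ∨ Rel j i) ∧ (∃ c d, H.Adj c d ∧ s(f c, f d) = e j) ∧
            (s(f a, f b) = e j ∨ s(f a, f b) ∈ D i j ∨ s(f a, f b) ∈ D j i))
    (F : Set (Sym2 V)) : ¬ StronglyMaximal H G F := by
  classical
  intro hF
  obtain ⟨A, B, C, hAS, hBS, hnb, hind, hC, hlt⟩ := hbad {i | e i ∈ F}
  -- the intact cells at an item are at most as many as its damaged legs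
  have hcount : ∀ i, e i ∈ F → ∀ J : Finset I,
      (∀ j ∈ J, (Rel i j ∨ Rel j i) ∧ e j ∈ F ∧ D i j ⊆ F) →
      J.card ≤ (Finset.univ.filter (fun l => ¬ Leg i l ⊆ F)).card := by
    intro i hi J hJ
    by_contra hcon
    push Not at hcon
    refine hA i J (Finset.univ.filter (fun l => Leg i l ⊆ F)) (fun j hj => (hJ j hj).1) ?_
      (hF.2.1.mono ?_)
    · have h1 := Finset.card_filter_add_card_filter_not (s := (Finset.univ : Finset (Fin k)))
        (fun l => Leg i l ⊆ F)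
      rw [Finset.card_univ, Fintype.card_fin] at h1
      omega
    · rintro x (rfl | ⟨l, hl, hx⟩ | ⟨j, hj, rfl | hx⟩)
      · exact hi
      · exact (Finset.mem_filter.1 hl).2 hx
      · exact (hJ j hj).2.1
      · exact (hJ j hj).2.2 hx
  -- orientation of the conflicts at `A`
  let o : I × I → I × I := fun c => if c.1 ∈ A then c else (c.2, c.1)
  have ho : ∀ c ∈ C, (o c).1 ∈ A ∧ (Rel (o c).1 (o c).2 ∨ Rel (o c).2 (o c).1) ∧
      e (o c).1 ∈ F ∧ e (o c).2 ∈ F := by
    intro c hc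
    obtain ⟨h1, h2, h3, h4⟩ := hC c hc
    by_cases h : c.1 ∈ A
    · simp only [o, if_pos h]; exact ⟨h, Or.inl h1, h2, h3⟩
    · simp only [o, if_neg h]
      exact ⟨h4.resolve_left h, Or.inr h1, h3, h2⟩
  have hoinj : Set.InjOn o ↑C := by
    intro c hc d hd hcd
    have hc1 := (hC c hc).1
    have hd1 := (hC d hd).1
    simp only [o] at hcd
    split_ifs at hcd with h1 h2 h2
    · exact hcd
    · exfalso
      subst hcd
      exact hasymm _ _ hc1 hd1
    · exfalso
      subst hcd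
      exact hasymm _ _ hc1 hd1
    · exact Prod.ext (congrArg Prod.snd hcd) (congrArg Prod.fst hcd)
  -- for each item, an injection of the intact cells into the damaged legs
  have hσ : ∀ i, ∃ σ : I → Option (Fin k), e i ∈ F →
      (∀ j, ((Rel i j ∨ Rel j i) ∧ e j ∈ F ∧ D i j ⊆ F ∧ (∃ c ∈ C, o c = (i, j))) →
        ∃ l, σ j = some l ∧ ¬ Leg i l ⊆ F) ∧
      (∀ j j', ((Rel i j ∨ Rel j i) ∧ e j ∈ F ∧ D i j ⊆ F ∧ (∃ c ∈ C, o c = (i, j))) →
        ((Rel i j' ∨ Rel j' i) ∧ e j' ∈ F ∧ D i j' ⊆ F ∧ (∃ c ∈ C, o c = (i, j'))) →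
        σ j = σ j' → j = j') := by
    intro i
    by_cases hi : e i ∈ F
    · let J : Finset I := ((C.image o).image Prod.snd).filter
        (fun j => (Rel i j ∨ Rel j i) ∧ e j ∈ F ∧ D i j ⊆ F)
      have hJ := hcount i hi J (fun j hj => (Finset.mem_filter.1 hj).2)
      obtain ⟨σ⟩ : Nonempty ({j // j ∈ J} ↪
          {l // l ∈ Finset.univ.filter (fun l => ¬ Leg i l ⊆ F)}) := by
        apply Function.Embedding.nonempty_of_card_le
        rw [Fintype.card_coe, Fintype.card_coe]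
        exact hJ
      have hJm : ∀ j, ((Rel i j ∨ Rel j i) ∧ e j ∈ F ∧ D i j ⊆ F ∧ (∃ c ∈ C, o c = (i, j))) →
          j ∈ J := by
        rintro j ⟨h1, h2, h3, c, hc, h4⟩
        refine Finset.mem_filter.2 ⟨Finset.mem_image.2 ⟨o c, Finset.mem_image_of_mem o hc, ?_⟩,
          h1, h2, h3⟩
        rw [h4]
      refine ⟨fun j => if h : j ∈ J then some (σ ⟨j, h⟩).1 else none, fun _ => ⟨?_, ?_⟩⟩
      · intro j hj
        have h := hJm j hj
        refine ⟨(σ ⟨j, h⟩).1, ?_, (Finset.mem_filter.1 (σ ⟨j, h⟩).2).2⟩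
        simp only [dif_pos h]
      · intro j j' hj hj' hjj
        have h := hJm j hj
        have h' := hJm j' hj'
        simp only [dif_pos h, dif_pos h', Option.some.injEq] at hjj
        have := σ.injective (Subtype.ext hjj)
        exact congrArg Subtype.val this
    · exact ⟨fun _ => none, fun h => absurd h hi⟩
  choose σ hσ using hσ
  -- the restored edges
  have hm : ∀ c : I × I, ∃ x, c ∈ C → x ∉ F ∧ (x ∈ D (o c).1 (o c).2 ∨
      (D (o c).1 (o c).2 ⊆ F ∧ ∃ l, σ (o c).1 (o c).2 = some l ∧ x ∈ Leg (o c).1 l)) := by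
    intro c
    by_cases hc : c ∈ C
    · obtain ⟨h1, h2, h3, h4⟩ := ho c hc
      by_cases hD : D (o c).1 (o c).2 ⊆ F
      · obtain ⟨l, hl, hlF⟩ := (hσ (o c).1 h3).1 (o c).2 ⟨h2, h4, hD, c, hc, rfl⟩
        rw [Set.not_subset] at hlF
        obtain ⟨x, hx, hxF⟩ := hlF
        exact ⟨x, fun _ => ⟨hxF, Or.inr ⟨hD, l, hl, hx⟩⟩⟩
      · rw [Set.not_subset] at hD
        obtain ⟨x, hx, hxF⟩ := hD
        exact ⟨x, fun _ => ⟨hxF, Or.inl hx⟩⟩
    · exact ⟨e c.1, fun h => absurd h hc⟩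
  choose m hm using hm
  have hminj : Set.InjOn m ↑C := by
    intro c hc d hd hcd
    obtain ⟨c1, c2, c3, c4⟩ := ho c hc
    obtain ⟨d1, d2, d3, d4⟩ := ho d hd
    refine hoinj hc hd ?_
    rcases (hm c hc).2 with h1 | ⟨h1, l, hl, hx⟩ <;> rcases (hm d hd).2 with h2 | ⟨h2, l', hl', hx'⟩
    · obtain ⟨h3, h4⟩ := hDD _ _ _ _ _ c2 d2 h1 (hcd ▸ h2)
      exact Prod.ext h3 h4
    · exact absurd (hcd ▸ hx') (hDL _ _ _ _ _ c2 h1)
    · exact absurd (hcd ▸ hx) (hDL _ _ _ _ _ d2 h2)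
    · obtain ⟨h3, h4⟩ := hLL _ _ _ _ _ hx (hcd ▸ hx')
      have h5 : (o c).2 = (o d).2 := by
        refine (hσ (o c).1 c3).2 (o c).2 (o d).2 ⟨c2, c4, h1, c, hc, rfl⟩ ?_ ?_
        · rw [h3]; exact ⟨d2, d4, h2, d, hd, rfl⟩
        · rw [hl, h3, hl', h4]
      exact Prod.ext h3 h5
  have hmD : ∀ c ∈ C, m c ∈ G.edgeSet ∧ ∀ i, e i ≠ m c := by
    intro c hc
    obtain ⟨c1, c2, c3, c4⟩ := ho c hc
    rcases (hm c hc).2 with h1 | ⟨h1, l, hl, hx⟩
    · exact ⟨hDG _ _ c2 h1, fun i h => heD i _ _ c2 (h ▸ h1)⟩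
    · exact ⟨hLG _ _ hx, fun i h => heL i _ _ (h ▸ hx)⟩
  have hdisj : Disjoint (B.image e) (C.image m) := by
    rw [Finset.disjoint_left]
    intro x hx hx'
    obtain ⟨i, hi, rfl⟩ := Finset.mem_image.1 hx
    obtain ⟨c, hc, h⟩ := Finset.mem_image.1 hx'
    exact (hmD c hc).2 i h.symm
  have h := hF.exchange_fin (A := B.image e ∪ C.image m) (B := A.image e) ?_ ?_ ?_
  · rw [Finset.card_union_of_disjoint hdisj, Finset.card_image_of_injective _ he,
      Finset.card_image_of_injective _ he, Finset.card_image_of_injOn hminj] at h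
    omega
  · intro x hx
    rcases Finset.mem_union.1 hx with hx | hx
    · obtain ⟨i, -, rfl⟩ := Finset.mem_image.1 hx
      exact heG i
    · obtain ⟨c, hc, rfl⟩ := Finset.mem_image.1 hx
      exact (hmD c hc).1
  · intro x hx hxF
    rcases Finset.mem_union.1 hx with hx | hx
    · obtain ⟨i, hi, rfl⟩ := Finset.mem_image.1 hx
      exact absurd hxF (hBS i hi)
    · obtain ⟨c, hc, rfl⟩ := Finset.mem_image.1 hx
      exact absurd hxF (hm c hc).1
  · by_contra hcon
    obtain ⟨f, hf, hfF⟩ := not_hFree_iff.1 hcon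
    have hsub : (F \ ↑(A.image e)) ∪ ↑(B.image e ∪ C.image m) ⊆ G.edgeSet := by
      apply Set.union_subset (Set.sdiff_subset.trans hF.1)
      intro x hx
      rcases Finset.mem_union.1 (Finset.mem_coe.1 hx) with hx | hx
      · obtain ⟨i, -, rfl⟩ := Finset.mem_image.1 hx
        exact heG i
      · obtain ⟨c, hc, rfl⟩ := Finset.mem_image.1 hx
        exact (hmD c hc).1
    have hfG : ∀ a b, H.Adj a b → G.Adj (f a) (f b) := fun a b hab => hsub (hfF a b hab)
    have hmem : ∀ i, e i ∈ (F \ ↑(A.image e)) ∪ ↑(B.image e ∪ C.image m) →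
        (e i ∈ F ∧ i ∉ A) ∨ i ∈ B := by
      rintro i (⟨h1, h2⟩ | h)
      · exact Or.inl ⟨h1, fun h => h2 (Finset.mem_coe.2 (Finset.mem_image_of_mem e h))⟩
      · rcases Finset.mem_union.1 (Finset.mem_coe.1 h) with h | h
        · obtain ⟨j, hj, hji⟩ := Finset.mem_image.1 h
          exact Or.inr (he hji ▸ hj)
        · obtain ⟨c, hc, h⟩ := Finset.mem_image.1 h
          exact absurd h.symm ((hmD c hc).2 i)
    have hused : ∀ i, (∃ a b, H.Adj a b ∧ s(f a, f b) = e i) → (e i ∈ F ∧ i ∉ A) ∨ i ∈ B := by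
      rintro i ⟨a, b, hab, h⟩
      exact hmem i (h ▸ hfF a b hab)
    obtain ⟨i, hi, ⟨j, hij, hj⟩, hall⟩ := hB f hf hfG
    -- the centre is not in `B`
    have hiF : e i ∈ F ∧ i ∉ A := by
      rcases hused i hi with h | h
      · exact h
      · exfalso
        rcases hused j hj with ⟨h3, h4⟩ | h3
        · exact h4 (hnb i h j h3 hij)
        · rcases hij with h5 | h5
          · exact hind i h j h3 h5
          · exact hind j h3 i h h5
    have hjF : ∀ j, (Rel i j ∨ Rel j i) → (∃ a b, H.Adj a b ∧ s(f a, f b) = e j) →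
        e j ∈ F ∧ j ∉ A := by
      intro j hij hj
      rcases hused j hj with h | h
      · exact h
      · exact absurd (hnb j h i hiF.1 hij.symm) hiF.2
    refine (hFree_iff.1 hF.2.1) f hf (fun a b hab => ?_)
    rcases hall a b hab with h | ⟨l, h⟩ | ⟨j, hij, hj, h⟩
    · rw [h]; exact hiF.1
    · rcases hfF a b hab with h' | h'
      · exact h'.1
      · exfalso
        rcases Finset.mem_union.1 (Finset.mem_coe.1 h') with h' | h'
        · obtain ⟨i', -, h''⟩ := Finset.mem_image.1 h'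
          exact heL i' i l (h''.symm ▸ h)
        · obtain ⟨c, hc, h''⟩ := Finset.mem_image.1 h'
          obtain ⟨c1, c2, c3, c4⟩ := ho c hc
          rcases (hm c hc).2 with h1 | ⟨h1, l', hl', hx⟩
          · exact hDL _ _ _ _ _ c2 h1 (h''.symm ▸ h)
          · obtain ⟨h3, -⟩ := hLL _ _ _ _ _ hx (h''.symm ▸ h)
            exact hiF.2 (h3 ▸ c1)
    · have hjA := hjF j hij hj
      rcases h with h | h
      · rw [h]; exact hjA.1
      · rcases hfF a b hab with h' | h'
        · exact h'.1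
        · exfalso
          have hD : ∃ p q, (Rel p q ∨ Rel q p) ∧ s(f a, f b) ∈ D p q ∧ p ∉ A ∧ q ∉ A := by
            rcases h with h | h
            · exact ⟨i, j, hij, h, hiF.2, hjA.2⟩
            · exact ⟨j, i, hij.symm, h, hjA.2, hiF.2⟩
          obtain ⟨p, q, hpq, hD, hp, hq⟩ := hD
          rcases Finset.mem_union.1 (Finset.mem_coe.1 h') with h' | h'
          · obtain ⟨i', -, h''⟩ := Finset.mem_image.1 h'
            exact heD i' p q hpq (h''.symm ▸ hD)
          · obtain ⟨c, hc, h''⟩ := Finset.mem_image.1 h'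
            obtain ⟨c1, c2, c3, c4⟩ := ho c hc
            rcases (hm c hc).2 with h1 | ⟨h1, l', hl', hx⟩
            · obtain ⟨h3, -⟩ := hDD _ _ _ _ _ c2 hpq h1 (h''.symm ▸ hD)
              exact hp (h3 ▸ c1)
            · exact hDL _ _ _ _ _ hpq (h''.symm ▸ hD) hx

end Pool.Agent.StrongMax
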