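import Pool.Agent.Lib.StrongMax.GHost
import Pool.Agent.Lib.StrongMax.Soft

/-!
# The apex host over a bad conflict graph has no strongly maximal set (helper18)
-/

namespace Pool.Agent.StrongMax

section

variable {W : Type} {H : SimpleGraph W} {r b c : W} {J : Type}

/-- The private edges of a piece. -/
def gD (H : SimpleGraph W) (r b c : W) (i j : J) : Set (Sym2 (GV J W)) :=
  {t | (∃ x y, H.Adj x y ∧ t = s(gpsi r b c i j x, gpsi r b c i j y)) ∧
    t ≠ s(.u, .w i) ∧ t ≠ s(.u, .w j)}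

/-- A private edge contains a private vertex or joins the two terminals. -/
theorem gD_cases {i j : J} {x y : W} (hxy : H.Adj x y)
    (h1 : s(gpsi r b c i j x, gpsi r b c i j y) ≠ s(.u, .w i))
    (h2 : s(gpsi r b c i j x, gpsi r b c i j y) ≠ s(.u, .w j)) :
    (∃ z, gpsi r b c i j x = .p i j z) ∨ (∃ z, gpsi r b c i j y = .p i j z) ∨
      (s(gpsi r b c i j x, gpsi r b c i j y) = s(.w i, .w j)) := by
  rcases hx : gpsi r b c i j x with _ | m | ⟨m, n, z⟩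
  · rcases hy : gpsi r b c i j y with _ | m | ⟨m, n, z⟩
    · exact absurd ((gpsi_eq_u hx).trans (gpsi_eq_u hy).symm) hxy.ne
    · rcases gpsi_eq_w hy with ⟨-, h4⟩ | ⟨-, h4⟩
      · exact absurd (by rw [hx, hy, h4]) h1
      · exact absurd (by rw [hx, hy, h4]) h2
    · obtain ⟨h5, h6, -⟩ := gpsi_eq_p hy
      exact Or.inr (Or.inl ⟨z, by rw [h5, h6]⟩)
  · rcases hy : gpsi r b c i j y with _ | m' | ⟨m', n, z⟩
    · rcases gpsi_eq_w hx with ⟨-, h4⟩ | ⟨-, h4⟩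
      · exact absurd (by rw [hx, hy, h4]; exact Sym2.eq_swap) h1
      · exact absurd (by rw [hx, hy, h4]; exact Sym2.eq_swap) h2
    · right; right
      rcases gpsi_eq_w hx with ⟨h3, h4⟩ | ⟨h3, h4⟩ <;>
        rcases gpsi_eq_w hy with ⟨h5, h6⟩ | ⟨h5, h6⟩
      · exact absurd (h3.trans h5.symm) hxy.ne
      · rw [h4, h6]
      · rw [h4, h6]; exact Sym2.eq_swap
      · exact absurd (h3.trans h5.symm) hxy.ne
    · obtain ⟨h5, h6, -⟩ := gpsi_eq_p hy
      exact Or.inr (Or.inl ⟨z, by rw [h5, h6]⟩)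
  · obtain ⟨h5, h6, -⟩ := gpsi_eq_p hx
    exact Or.inl ⟨z, by rw [h5, h6]⟩

theorem gD_spoke {i j k : J} {x y : W} (h : s(gpsi r b c i j x, gpsi r b c i j y) = s(.u, .w k)) :
    k = i ∨ k = j := by
  rw [Sym2.eq_iff] at h
  rcases h with ⟨-, h⟩ | ⟨h, -⟩
  · rcases gpsi_eq_w h with ⟨-, h⟩ | ⟨-, h⟩
    · exact Or.inl h
    · exact Or.inr h
  · rcases gpsi_eq_w h with ⟨-, h⟩ | ⟨-, h⟩
    · exact Or.inl h
    · exact Or.inr h

/-- **The apex host.** If every copy of `H` in the host which contains a private edge of a piece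
contains both spokes of the piece, then `H` fails. -/
theorem ghost_fails (hrb : H.Adj r b) (hrc : H.Adj r c) (hbc : b ≠ c)
    (hdeg : ∀ x y, H.Adj x y → ∃ z, H.Adj x z ∧ z ≠ y) {R : J → J → Prop} (hR : Oriented R)
    (hbad : Bad R) (hiso : ∀ i, ∃ j, R i j ∨ R j i)
    (hN : ∀ f : W → GV J W, Function.Injective f →
      (∀ x y, H.Adj x y → (ghost R H r b c).Adj (f x) (f y)) →
      ∀ i j, R i j → (∃ x y, H.Adj x y ∧ s(f x, f y) ∈ gD H r b c i j) →
        (∃ x y, H.Adj x y ∧ f x = .u ∧ f y = .w i) ∧ ∃ x y, H.Adj x y ∧ f x = .u ∧ f y = .w j) :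
    Fails.{0} H := by
  classical
  refine ⟨GV J W, ghost R H r b c, fun F => ?_⟩
  have heG1 : ∀ i j, (s(.u, .w i) : Sym2 (GV J W)) = s(gpsi r b c i j r, gpsi r b c i j b) := by
    intro i j
    rw [gpsi_r, gpsi_b hrb.ne]
  have heG2 : ∀ i j, (s(.u, .w j) : Sym2 (GV J W)) = s(gpsi r b c i j r, gpsi r b c i j c) := by
    intro i j
    rw [gpsi_r, gpsi_c hrc.ne hbc]
  refine not_stronglyMaximal_of_soft hbad (fun i => s(.u, .w i)) (gD H r b c) (fun _ _ => ∅)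
    ?_ ?_ ?_ ?_ ?_ ?_ ?_ ?_ ?_ ?_ ?_ ?_ F
  · intro i j h
    simp only [Sym2.eq_iff] at h
    rcases h with ⟨-, h⟩ | ⟨h, -⟩
    · injection h
    · cases h
  · intro i
    obtain ⟨j, hj | hj⟩ := hiso i
    · rw [heG1 i j]; exact gpsi_adj hR hj hrb
    · rw [heG2 j i]; exact gpsi_adj hR hj hrc
  · rintro i j hij t ⟨⟨x, y, hxy, rfl⟩, -⟩
    exact gpsi_adj hR hij hxy
  · intro i t; exact Set.empty_subset _
  · rintro i k l hkl ⟨⟨x, y, hxy, h⟩, h1, h2⟩
    rcases gD_spoke h.symm with rfl | rfl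
    · exact h1 rfl
    · exact h2 rfl
  · intro i k t h; exact h
  · rintro i j k l t hij hkl ⟨⟨x, y, hxy, rfl⟩, h1, h2⟩ ⟨⟨x', y', hxy', h⟩, h3, h4⟩
    -- the private vertices determine the conflict
    rcases gD_cases hxy h1 h2 with ⟨z, hz⟩ | ⟨z, hz⟩ | hz
    · rw [hz, Sym2.eq_iff] at h
      rcases h with ⟨h, -⟩ | ⟨h, -⟩
      · obtain ⟨h5, h6, -⟩ := gpsi_eq_p h.symm
        exact ⟨h5.symm, h6.symm⟩
      · obtain ⟨h5, h6, -⟩ := gpsi_eq_p h.symm
        exact ⟨h5.symm, h6.symm⟩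
    · rw [hz, Sym2.eq_iff] at h
      rcases h with ⟨-, h⟩ | ⟨-, h⟩
      · obtain ⟨h5, h6, -⟩ := gpsi_eq_p h.symm
        exact ⟨h5.symm, h6.symm⟩
      · obtain ⟨h5, h6, -⟩ := gpsi_eq_p h.symm
        exact ⟨h5.symm, h6.symm⟩
    · rw [hz] at h
      rw [Sym2.eq_iff] at h
      have hij' := hR.ne hij
      rcases h with ⟨h5, h6⟩ | ⟨h5, h6⟩
      · rcases gpsi_eq_w h5.symm with ⟨h7, h8⟩ | ⟨h7, h8⟩ <;>
          rcases gpsi_eq_w h6.symm with ⟨h9, h10⟩ | ⟨h9, h10⟩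
        · exact absurd (h8.trans h10.symm) hij'
        · exact ⟨h8, h10⟩
        · rw [h8, h10] at hij
          exact absurd hij (hR.asymm _ _ hkl)
        · exact absurd (h8.trans h10.symm) hij'
      · rcases gpsi_eq_w h5.symm with ⟨h7, h8⟩ | ⟨h7, h8⟩ <;>
          rcases gpsi_eq_w h6.symm with ⟨h9, h10⟩ | ⟨h9, h10⟩
        · exact absurd (h8.trans h10.symm) hij'
        · exact ⟨h8, h10⟩
        · rw [h8, h10] at hij
          exact absurd hij (hR.asymm _ _ hkl)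
        · exact absurd (h8.trans h10.symm) hij'
  · intro i x h; exact absurd h (Set.notMem_empty x)
  · intro i j hij t t'
    rw [not_hFree_iff]
    refine ⟨gpsi r b c i j, gpsi_injective (hR.ne hij), fun x y hxy => ?_⟩
    left; left
    by_cases h1 : s(gpsi r b c i j x, gpsi r b c i j y) = s(.u, .w i)
    · right; left; exact h1
    · by_cases h2 : s(gpsi r b c i j x, gpsi r b c i j y) = s(.u, .w j)
      · right; right; exact h2
      · left; exact ⟨⟨x, y, hxy, rfl⟩, h1, h2⟩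
  · intro f hf hfa i j hij h
    obtain ⟨⟨x, y, h1, h2, h3⟩, x', y', h4, h5, h6⟩ := hN f hf hfa i j hij h
    exact ⟨⟨x, y, h1, by rw [h2, h3]⟩, x', y', h4, by rw [h5, h6]⟩
  · rintro f hf hfa i t ⟨x, y, -, h⟩
    exact absurd h (Set.notMem_empty _)
  · rintro f hf hfa i ⟨x, y, hxy, h⟩
    obtain ⟨v, w, hvw, hv, hw⟩ : ∃ v w, H.Adj v w ∧ f v = .u ∧ f w = .w i := by
      rw [Sym2.eq_iff] at h
      rcases h with ⟨h1, h2⟩ | ⟨h1, h2⟩
      · exact ⟨x, y, hxy, h1, h2⟩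
      · exact ⟨y, x, hxy.symm, h2, h1⟩
    obtain ⟨w', hw', hne⟩ := hdeg w v hvw.symm
    obtain ⟨hne', j, k, x', y', hjk, hxy', h1, h2⟩ := hfa w w' hw'
    have h3 : i = j ∨ i = k := by
      rw [hw] at h1
      rcases gpsi_eq_w h1.symm with ⟨-, h⟩ | ⟨-, h⟩
      · exact Or.inl h
      · exact Or.inr h
    have hnu : ∀ m, s(f w, f w') ≠ s(.u, .w m) := by
      intro m h
      rw [hw, Sym2.eq_iff] at h
      rcases h with ⟨h, -⟩ | ⟨-, h⟩
      · injection h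
      · exact hne (hf (h.trans hv.symm))
    refine ⟨j, k, hjk, h3.imp Eq.symm Eq.symm, w, w', hw', ⟨x', y', hxy', by rw [h1, h2]⟩, hnu j, hnu k⟩

end

end Pool.Agent.StrongMax
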