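import Pool.Agent.Lib.StrongMax.LemC2
import Pool.Agent.Lib.StrongMax.GFails
import Pool.Agent.Lib.StrongMax.LG3

/-!
# At most one edge outside the atoms (helper9)
-/

namespace Pool.Agent.StrongMax

section

variable {J W : Type} {R : J → J → Prop} {H : SimpleGraph W} {r b x : W} {f : W → GV J W}
  {I₀ : Set W} {y v : W} {C : LCtx R H I₀ r b x y f v} {I₁ : Set W} {k : J × J} {t : W}

/-- Counting the edges. -/
theorem LAt.count [Finite W] (A : LAt C I₁ k t) : H.Adj x y ∧ ∃ κ, (κ = b ∨ κ = x) ∧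
    role r b x f k t = κ ∧ ∀ p q, p ∈ Jp I₀ x y → q ∈ Jp I₀ x y → H.Adj p q →
      ¬ (p = r ∧ q = κ) → ¬ (p = κ ∧ q = r) →
      ∃ a a', H.Adj a a' ∧ f a = gpsi r b x k.1 k.2 p ∧ f a' = gpsi r b x k.1 k.2 q := by
  classical
  obtain ⟨κ, hκ, hgt, himg⟩ := A.res
  have hrκ : H.Adj r κ := by
    rcases hκ with rfl | rfl
    · exact C.hrb
    · exact C.hrx
  have hκJ : κ ∈ Jp I₀ x y := by
    rcases hκ with rfl | rfl
    · exact Or.inl C.hbI
    · exact Or.inr (Or.inl rfl)
  have hrJ : r ∈ Jp I₀ x y := Or.inl C.hrI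
  have hvI : v ∉ I₁ := C.v_notMem A.hI₁
  have htI : t ∉ I₁ := by
    have : t ∈ bd H I₁ := by rw [A.hbd₁]; exact Or.inr rfl
    exact this.1
  let EJ : Set (W × W) := {p | H.Adj p.1 p.2 ∧ p.1 ∈ Jp I₀ x y ∧ p.2 ∈ Jp I₀ x y}
  let E' : Set (W × W) := EJ \ {(r, κ), (κ, r)}
  let G : W × W → W × W := fun p => (role r b x f k p.1, role r b x f k p.2)
  have hgJ : ∀ a ∈ I₁, role r b x f k a ∈ Jp I₀ x y := by
    intro a ha
    have h : role r b x f k a ∈ (fun a => role r b x f k a) '' I₁ := ⟨a, ha, rfl⟩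
    rw [himg] at h
    exact h.1
  -- vertices near the atom
  have hZ : ∀ p ∈ marcs H I₁, (f p.1 = gpsi r b x k.1 k.2 (role r b x f k p.1) ∧
      role r b x f k p.1 ∈ Jp I₀ x y) ∧ (f p.2 = gpsi r b x k.1 k.2 (role r b x f k p.2) ∧
      role r b x f k p.2 ∈ Jp I₀ x y) := by
    have key : ∀ a a', a ∈ I₁ → H.Adj a a' → (f a' = gpsi r b x k.1 k.2 (role r b x f k a') ∧
      role r b x f k a' ∈ Jp I₀ x y) := by
      intro a a' ha haa
      by_cases ha' : a' ∈ I₁
      · exact ⟨A.inZ ha', hgJ a' ha'⟩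
      · have h : a' ∈ bd H I₁ := ⟨ha', a, ha, haa⟩
        rw [A.hbd₁] at h
        rcases h with h | h
        · rw [h]
          exact ⟨C.vZ k, by rw [C.gv k]; exact hrJ⟩
        · rw [h]
          exact ⟨A.tZ, by rw [hgt]; exact hκJ⟩
    rintro ⟨a, a'⟩ ⟨haa, ha | ha⟩
    · exact ⟨⟨A.inZ ha, hgJ a ha⟩, key a a' ha haa⟩
    · exact ⟨key a' a ha haa.symm, ⟨A.inZ ha, hgJ a' ha⟩⟩
  have hmap : ∀ p ∈ marcs H I₁, G p ∈ E' := by
    intro p hp
    obtain ⟨⟨h1, h2⟩, h3, h4⟩ := hZ p hp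
    refine ⟨⟨A.g_adj h1 h3 hp.1, h2, h4⟩, ?_⟩
    have hend : ∀ a, f a = gpsi r b x k.1 k.2 (role r b x f k a) →
        (role r b x f k a = r ∨ role r b x f k a = κ) → a ∉ I₁ := by
      intro a ha h haI
      rcases h with h | h
      · have h' : role r b x f k a = role r b x f k v := by rw [C.gv k]; exact h
        exact hvI (A.g_inj ha (C.vZ k) h' ▸ haI)
      · have h' : role r b x f k a = role r b x f k t := by rw [hgt]; exact h
        exact htI (A.g_inj ha A.tZ h' ▸ haI)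
    rintro (h | h)
    · have h5 : role r b x f k p.1 = r := congrArg Prod.fst h
      have h6 : role r b x f k p.2 = κ := congrArg Prod.snd h
      rcases hp.2 with h7 | h7
      · exact hend p.1 h1 (Or.inl h5) h7
      · exact hend p.2 h3 (Or.inr h6) h7
    · have h5 : role r b x f k p.1 = κ := congrArg Prod.fst h
      have h6 : role r b x f k p.2 = r := congrArg Prod.snd h
      rcases hp.2 with h7 | h7
      · exact hend p.1 h1 (Or.inr h5) h7
      · exact hend p.2 h3 (Or.inl h6) h7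
  have hinj : Set.InjOn G (marcs H I₁) := by
    intro p hp q hq h
    obtain ⟨⟨h1, -⟩, h2, -⟩ := hZ p hp
    obtain ⟨⟨h3, -⟩, h4, -⟩ := hZ q hq
    exact Prod.ext (A.g_inj h1 h3 (congrArg Prod.fst h)) (A.g_inj h2 h4 (congrArg Prod.snd h))
  have hle1 : (marcs H I₁).ncard ≤ E'.ncard :=
    Set.ncard_le_ncard_of_injOn G hmap hinj (Set.toFinite _)
  have hpair : ((r, κ) : W × W) ≠ (κ, r) := fun h => hrκ.ne (congrArg Prod.fst h)
  have hE' : E'.ncard + 2 = EJ.ncard := by
    have h1 : ({(r, κ), (κ, r)} : Set (W × W)) ⊆ EJ := by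
      rintro p (rfl | rfl)
      · exact ⟨hrκ, hrJ, hκJ⟩
      · exact ⟨hrκ.symm, hκJ, hrJ⟩
    have h2 : E'.ncard = EJ.ncard - ({(r, κ), (κ, r)} : Set (W × W)).ncard :=
      Set.ncard_sdiff h1 (Set.toFinite _)
    have h3 := Set.ncard_le_ncard h1 (Set.toFinite _)
    rw [Set.ncard_pair hpair] at h2 h3
    omega
  have hmin : (marcs H I₀).ncard ≤ (marcs H I₁).ncard := C.hI.mine _ A.hI₁.frag A.ncard_eq
  have hadj : H.Adj x y := by
    by_contra hxy
    have h1 : EJ ⊆ marcs H I₀ := by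
      rintro ⟨p, q⟩ ⟨hpq, hp, hq⟩
      refine ⟨hpq, ?_⟩
      rcases hp with hp | hp | hp
      · exact Or.inl hp
      · rcases hq with hq | hq | hq
        · exact Or.inr hq
        · exact absurd (hp.trans hq.symm) hpq.ne
        · exfalso
          have hp' : p = x := hp
          have hq' : q = y := hq
          have hpq' : H.Adj p q := hpq
          rw [hp', hq'] at hpq'
          exact hxy hpq'
      · rcases hq with hq | hq | hq
        · exact Or.inr hq
        · exfalso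
          have hp' : p = y := hp
          have hq' : q = x := hq
          have hpq' : H.Adj p q := hpq
          rw [hp', hq'] at hpq'
          exact hxy hpq'.symm
        · exact absurd (hp.trans hq.symm) hpq.ne
    have h2 := Set.ncard_le_ncard h1 (Set.toFinite _)
    omega
  refine ⟨hadj, κ, hκ, hgt, ?_⟩
  have h1 : EJ ⊆ marcs H I₀ ∪ {(x, y), (y, x)} := by
    rintro ⟨p, q⟩ ⟨hpq, hp, hq⟩
    have hne : p ≠ q := hpq.ne
    rcases hp with hp | hp | hp
    · exact Or.inl ⟨hpq, Or.inl hp⟩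
    · rcases hq with hq | hq | hq
      · exact Or.inl ⟨hpq, Or.inr hq⟩
      · exact absurd (hp.trans hq.symm) hne
      · exact Or.inr (Or.inl (Prod.ext hp hq))
    · rcases hq with hq | hq | hq
      · exact Or.inl ⟨hpq, Or.inr hq⟩
      · exact Or.inr (Or.inr (Prod.ext hp hq))
      · exact absurd (hp.trans hq.symm) hne
  have h2 := Set.ncard_le_ncard h1 (Set.toFinite _)
  have h3 := Set.ncard_union_le (marcs H I₀) {(x, y), (y, x)}
  have h4 : ({(x, y), (y, x)} : Set (W × W)).ncard ≤ 2 := by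
    refine (Set.ncard_insert_le _ _).trans ?_
    rw [Set.ncard_singleton]
  have himgE : G '' (marcs H I₁) = E' := by
    apply Set.eq_of_subset_of_ncard_le
    · rintro _ ⟨p, hp, rfl⟩
      exact hmap p hp
    · rw [hinj.ncard_image]
      omega
    · exact Set.toFinite _
  intro p q hp hq hpq hn1 hn2
  have h5 : ((p, q) : W × W) ∈ E' := by
    refine ⟨⟨hpq, hp, hq⟩, ?_⟩
    rintro (h | h)
    · exact hn1 ⟨congrArg Prod.fst h, congrArg Prod.snd h⟩
    · exact hn2 ⟨congrArg Prod.fst h, congrArg Prod.snd h⟩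
  rw [← himgE] at h5
  obtain ⟨⟨a, a'⟩, haa, h6⟩ := h5
  obtain ⟨⟨h7, -⟩, h8, -⟩ := hZ _ haa
  refine ⟨a, a', haa.1, ?_, ?_⟩
  · rw [h7, ← show role r b x f k a = p from congrArg Prod.fst h6]
  · rw [h8, ← show role r b x f k a' = q from congrArg Prod.snd h6]

end

section

variable {J W : Type} {R : J → J → Prop} {H : SimpleGraph W} {r b x : W} {f : W → GV J W}

/-- A planned copy contains both spokes. -/
theorem PCopy.planned [Finite W] (C : PCopy R H r b x f) {k : J × J} (hk : R k.1 k.2)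
    (hall : ∀ a, ∃ s, f a = gpsi r b x k.1 k.2 s) {p q : W} (hpq : H.Adj p q) :
    ∃ a a', H.Adj a a' ∧ f a = gpsi r b x k.1 k.2 p ∧ f a' = gpsi r b x k.1 k.2 q := by
  choose σ hσ using hall
  have hσi : Function.Injective σ := fun a a' h => C.inj (by rw [hσ, hσ, h])
  have hσa : ∀ a a', H.Adj a a' → H.Adj (σ a) (σ a') := by
    intro a a' h
    rw [← gpsi_adj_iff C.hR C.hrb C.hrx hk, ← hσ, ← hσ]
    exact C.adj a a' h
  let τ : {p : W × W // H.Adj p.1 p.2} → {p : W × W // H.Adj p.1 p.2} :=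
    fun p => ⟨(σ p.1.1, σ p.1.2), hσa _ _ p.2⟩
  have hτ : Function.Injective τ := by
    intro p q h
    have h' : ((σ p.1.1, σ p.1.2) : W × W) = (σ q.1.1, σ q.1.2) := congrArg Subtype.val h
    exact Subtype.ext (Prod.ext (hσi (congrArg Prod.fst h')) (hσi (congrArg Prod.snd h')))
  obtain ⟨⟨⟨a, a'⟩, haa⟩, h⟩ := Finite.surjective_of_injective hτ ⟨(p, q), hpq⟩
  have h' : ((σ a, σ a') : W × W) = (p, q) := congrArg Subtype.val h
  refine ⟨a, a', haa, ?_, ?_⟩
  · rw [hσ, show σ a = p from congrArg Prod.fst h']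
  · rw [hσ, show σ a' = q from congrArg Prod.snd h']

/-- **Lemma C.** -/
theorem lemC [Finite W] (h2 : Conn2 H) (hdeg : ∀ z p q : W, ∃ w, H.Adj z w ∧ w ≠ p ∧ w ≠ q)
    (api : AtomAPI H) (hex : ∃ D, IsAtom2 H D)
    (hone : ∀ a b a' b', H.Adj a b → H.Adj a' b' → a ∉ atomSet H → b ∉ atomSet H →
      a' ∉ atomSet H → b' ∉ atomSet H → s(a, b) = s(a', b')) : Fails.{0} H := by
  classical
  -- the choice of the atom
  obtain ⟨I₀, x, y, hI, hbd, hxy, hch⟩ : ∃ I₀ x y, IsAtom2 H I₀ ∧ bd H I₀ = {x, y} ∧ x ≠ y ∧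
      (H.Adj x y → ∀ D, IsAtom2 H D → ∀ x' y', bd H D = {x', y'} → x' ≠ y' → H.Adj x' y') := by
    by_cases h : ∃ D x y, IsAtom2 H D ∧ bd H D = {x, y} ∧ x ≠ y ∧ ¬ H.Adj x y
    · obtain ⟨D, x, y, h1, h2, h3, h4⟩ := h
      exact ⟨D, x, y, h1, h2, h3, fun h => absurd h h4⟩
    · push Not at h
      obtain ⟨D, hD⟩ := hex
      obtain ⟨x, y, hxy, hb⟩ := api.two D hD.frag
      exact ⟨D, x, y, hD, hb, hxy, fun _ D' hD' x' y' hb' hne => h D' x' y' hD' hb' hne⟩
  have hxI : x ∉ I₀ := by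
    have : x ∈ bd H I₀ := by rw [hbd]; exact Or.inl rfl
    exact this.1
  obtain ⟨-, r, hrI, hrx⟩ : x ∈ bd H I₀ := by rw [hbd]; exact Or.inl rfl
  obtain ⟨b, hrb, hbx, hby⟩ := hdeg r x y
  have hbI : b ∈ I₀ := by
    by_contra h
    have : b ∈ bd H I₀ := ⟨h, r, hrI, hrb⟩
    rw [hbd] at this
    rcases this with h | h
    · exact hbx h
    · exact hby h
  obtain ⟨J, R, hR, hbad, hbridge, hiso⟩ := exists_lg (Nat.card (W × W))
  refine ghost_fails hrb hrx hbx (fun p q _ => ?_) hR hbad hiso ?_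
  · obtain ⟨w, h1, h2, -⟩ := hdeg p q q
    exact ⟨w, h1, h2⟩
  intro f hf hfa i j hij hD
  have P : PCopy R H r b x f := ⟨hR, h2, hdeg, api.two, hrb, hrx, hbx, hbridge, hf, hfa⟩
  obtain ⟨v, hv⟩ := P.exists_u r
  -- the used private edge
  obtain ⟨a, a', haa, hDa⟩ := hD
  have hspoke : ∀ m, s(f a, f a') ≠ s(.u, .w m) := by
    intro m h
    rw [h] at hDa
    obtain ⟨⟨p, q, hpq, h1⟩, h3, h4⟩ := hDa
    rcases gD_spoke h1.symm with rfl | rfl
    · exact h3 rfl
    · exact h4 rfl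
  have hEP : EP R H r b x f a a' (i, j) := by
    obtain ⟨⟨p, q, hpq, h1⟩, -, -⟩ := hDa
    rw [Sym2.eq_iff] at h1
    rcases h1 with ⟨h1, h3⟩ | ⟨h1, h3⟩
    · exact ⟨hij, p, q, hpq, h1, h3⟩
    · exact ⟨hij, q, p, hpq.symm, h1, h3⟩
  have hgb : ∀ i j, gpsi r b x i j b = GV.w (J := J) i := gpsi_b hrb.ne
  have hgx : ∀ i j, gpsi r b x i j x = GV.w (J := J) j := gpsi_c hrx.ne hbx
  by_cases hcr : ∃ c, Cross R H r b x f c
  · -- a copy which is not contained in a piece
    have C : LCtx R H I₀ r b x y f v := ⟨P, api, hI, hbd, hxy, hrI, hbI, hv, hone, hcr⟩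
    obtain ⟨c, hc⟩ := hcr
    obtain ⟨F, hF, hbdF⟩ := P.cut hv hc
    have hvA : v ∉ atomSet H := by
      rintro ⟨D, hD, h⟩
      exact C.v_notMem hD h
    have hLAt : ∀ D, IsAtom2 H D → v ∈ bd H D → ∃ k t, LAt C D k t := by
      intro D hD hvD
      obtain ⟨k, hk, hk'⟩ := C.piece hD
      obtain ⟨p, q, hpq, hpqD⟩ := api.two D hD.frag
      rw [hpqD] at hvD
      rcases hvD with rfl | hvD
      · exact ⟨k, q, hD, hk, hk', hpqD, hpq⟩
      · have hvD' : v = q := hvD
        subst hvD'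
        exact ⟨k, p, hD, hk, hk', by rw [hpqD]; exact Set.pair_comm _ _, hpq.symm⟩
    -- an atom at `v`
    obtain ⟨w1, hw1, -, -⟩ := hdeg v v v
    obtain ⟨w2, hw2, hw21, -⟩ := hdeg v w1 w1
    have hatom : ∃ D, IsAtom2 H D ∧ v ∈ bd H D := by
      have key : ∀ w, H.Adj v w → w ∈ atomSet H → ∃ D, IsAtom2 H D ∧ v ∈ bd H D := by
        rintro w hw ⟨D, hD, hwD⟩
        exact ⟨D, hD, fun h => C.v_notMem hD h, w, hwD, hw.symm⟩
      by_cases h1 : w1 ∈ atomSet H
      · exact key w1 hw1 h1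
      · by_cases h3 : w2 ∈ atomSet H
        · exact key w2 hw2 h3
        · exfalso
          have := hone v w1 v w2 hw1 hw2 hvA h1 hvA h3
          rw [Sym2.eq_iff] at this
          rcases this with ⟨-, h⟩ | ⟨h, -⟩
          · exact hw21 h.symm
          · exact hw2.ne h
    obtain ⟨I₁, hI₁, hvI₁⟩ := hatom
    obtain ⟨k₁, t₁, A₁⟩ := hLAt I₁ hI₁ hvI₁
    obtain ⟨hadj, -⟩ := A₁.count
    -- all atoms have the same boundary
    have hnotA : ∀ D, IsAtom2 H D → ∀ z ∈ bd H D, z ∉ atomSet H := by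
      rintro D hD z hz ⟨D', hD', hzD'⟩
      exact api.not_bd D' D hD' hD.frag z hz hzD'
    have hsame : ∀ D, IsAtom2 H D → bd H D = {x, y} := by
      intro D hD
      obtain ⟨x', y', hxy', hb'⟩ := api.two D hD.frag
      have h1 := hch hadj D hD x' y' hb' hxy'
      have h3 := hone x' y' x y h1 hadj (hnotA D hD x' (by rw [hb']; exact Or.inl rfl))
        (hnotA D hD y' (by rw [hb']; exact Or.inr rfl))
        (hnotA I₀ hI x (by rw [hbd]; exact Or.inl rfl))
        (hnotA I₀ hI y (by rw [hbd]; exact Or.inr rfl))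
      rw [hb']
      rw [Sym2.eq_iff] at h3
      rcases h3 with ⟨h4, h5⟩ | ⟨h4, h5⟩
      · rw [h4, h5]
      · rw [h4, h5]; exact Set.pair_comm _ _
    have hvxy : v = x ∨ v = y := by
      rw [hsame I₁ hI₁] at hvI₁
      exact hvI₁
    -- the main step
    have main : ∀ a a', H.Adj a a' → EP R H r b x f a a' (i, j) →
        (∀ m, s(f a, f a') ≠ s(.u, .w m)) → ∀ D, IsAtom2 H D → a ∈ D →
        (∃ x y, H.Adj x y ∧ f x = .u ∧ f y = .w i) ∧ ∃ x y, H.Adj x y ∧ f x = .u ∧ f y = .w j := by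
      intro a a' haa hEP hspoke D hD haD
      have hvD : v ∈ bd H D := by
        rw [hsame D hD]; exact hvxy
      obtain ⟨k, t, A⟩ := hLAt D hD hvD
      obtain ⟨-, κ, hκ, hgt, hE⟩ := A.count
      have hau : f a ≠ .u := C.ne_u (fun h => C.v_notMem hD (h ▸ haD))
      -- the piece of the edge
      have hkij : k = (i, j) := by
        by_cases ha'v : a' = v
        · rcases hfa' : f a with _ | m | ⟨i', j', z⟩
          · exact absurd hfa' hau
          · exact absurd (by rw [hfa', ha'v, hv]; exact Sym2.eq_swap) (hspoke m)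
          · have h1 := A.inZ haD
            rw [hfa'] at h1
            obtain ⟨h3, h4, -⟩ := gpsi_eq_p h1.symm
            rw [hEP.priv hfa']
            exact Prod.ext h3 h4
        · exact P.uniq haa.ne (A.hk a haD a' haa ha'v) hEP hau (C.ne_u ha'v)
      have hvt : H.Adj v t := by
        have h1 := A.hbd₁
        rw [hsame D hD] at h1
        have h3 : t = x ∨ t = y := by
          have : t ∈ ({x, y} : Set W) := by rw [h1]; exact Or.inr rfl
          exact this
        rcases hvxy with rfl | rfl <;> rcases h3 with rfl | rfl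
        · exact absurd rfl A.hvt
        · exact hadj
        · exact hadj.symm
        · exact absurd rfl A.hvt
      have hft : f t = gpsi r b x i j κ := by
        have := A.tZ
        rw [hgt, hkij] at this
        exact this
      have hspk : ∀ κ', (κ' = b ∨ κ' = x) → ∃ p q, H.Adj p q ∧ f p = .u ∧
          f q = gpsi r b x i j κ' := by
        intro κ' hκ'
        by_cases hκκ : κ' = κ
        · exact ⟨v, t, hvt, hv, by rw [hκκ]; exact hft⟩
        · have hrκ : H.Adj r κ' := by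
            rcases hκ' with rfl | rfl
            · exact hrb
            · exact hrx
          have hκJ : κ' ∈ Jp I₀ x y := by
            rcases hκ' with rfl | rfl
            · exact Or.inl hbI
            · exact Or.inr (Or.inl rfl)
          obtain ⟨p, q, hpq, h1, h3⟩ := hE r κ' (Or.inl hrI) hκJ hrκ (fun h => hκκ h.2)
            (fun h => hrκ.ne h.2.symm)
          rw [hkij] at h1 h3
          rw [gpsi_r] at h1
          exact ⟨p, q, hpq, h1, h3⟩
      obtain ⟨p, q, h1, h3, h4⟩ := hspk b (Or.inl rfl)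
      obtain ⟨p', q', h1', h3', h4'⟩ := hspk x (Or.inr rfl)
      exact ⟨⟨p, q, h1, h3, by rw [h4, hgb]⟩, ⟨p', q', h1', h3', by rw [h4', hgx]⟩⟩
    by_cases haA : a ∈ atomSet H
    · obtain ⟨D, hD, haD⟩ := haA
      exact main a a' haa hEP hspoke D hD haD
    by_cases haA' : a' ∈ atomSet H
    · obtain ⟨D, hD, haD⟩ := haA'
      exact main a' a haa.symm hEP.symm (fun m h => hspoke m (by rw [← h]; exact Sym2.eq_swap)) D hD haD
    exfalso
    -- the edge is `x y`
    have h3 := hone a a' x y haa hadj haA haA'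
      (hnotA I₀ hI x (by rw [hbd]; exact Or.inl rfl)) (hnotA I₀ hI y (by rw [hbd]; exact Or.inr rfl))
    have hvt : s(a, a') = s(v, t₁) := by
      have h1 := A₁.hbd₁
      rw [hsame I₁ hI₁] at h1
      have h4 : t₁ = x ∨ t₁ = y := by
        have : t₁ ∈ ({x, y} : Set W) := by rw [h1]; exact Or.inr rfl
        exact this
      rw [h3]
      rcases hvxy with h5 | h5 <;> rcases h4 with h6 | h6
      · exact absurd (h5.trans h6.symm) A₁.hvt
      · rw [h5, h6]
      · rw [h5, h6]; exact Sym2.eq_swap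
      · exact absurd (h5.trans h6.symm) A₁.hvt
    obtain ⟨-, κ, hκ, hgt, -⟩ := A₁.count
    obtain ⟨m, hm⟩ : ∃ m, f t₁ = .w m := by
      have h4 := A₁.tZ
      rw [hgt] at h4
      rcases hκ with rfl | rfl
      · exact ⟨_, h4.trans (hgb _ _)⟩
      · exact ⟨_, h4.trans (hgx _ _)⟩
    have h5 : s(f a, f a') = s(f v, f t₁) := by
      have := congrArg (Sym2.map f) hvt
      rwa [Sym2.map_mk, Sym2.map_mk] at this
    exact hspoke m (by rw [h5, hv, hm])
  · -- a planned copy
    push Not at hcr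
    have hu : ∀ z, z ≠ v → f z ≠ .u := fun z hz h => hz (hf (h.trans hv.symm))
    obtain ⟨w0, hw0, -, -⟩ := hdeg v v v
    obtain ⟨w1, hw1, hw1v, -⟩ := hdeg w0 v v
    obtain ⟨k, hk⟩ := P.ep hw1
    have hall := P.all_in (k := k) ⟨w0, hu w0 hw0.ne.symm, w1, hw1, hu w1 hw1v, hk⟩
      (fun c _ => hcr c)
    have hall' : ∀ z, ∃ t, f z = gpsi r b x k.1 k.2 t := by
      intro z
      by_cases hz : z = v
      · exact ⟨r, by rw [hz, hv, gpsi_r]⟩
      · obtain ⟨-, a', -, -, -, s, t, -, h, -⟩ := hall z (hu z hz)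
        exact ⟨s, h⟩
    -- the piece of the private edge
    have hkij : k = (i, j) := by
      have hpriv : ∀ z i' j' t, f z = .p i' j' t → k = (i', j') := by
        intro z i' j' t h
        obtain ⟨t', ht'⟩ := hall' z
        rw [h] at ht'
        obtain ⟨h1, h3, -⟩ := gpsi_eq_p ht'.symm
        exact Prod.ext h1 h3
      rcases hfa1 : f a with _ | m | ⟨i', j', z⟩
      · rcases hfa2 : f a' with _ | m | ⟨i', j', z⟩
        · exact absurd (hf (hfa1.trans hfa2.symm)) haa.ne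
        · exact absurd (by rw [hfa1, hfa2]) (hspoke m)
        · rw [hpriv a' i' j' z hfa2, hEP.symm.priv hfa2]
      · rcases hfa2 : f a' with _ | m' | ⟨i', j', z⟩
        · exact absurd (by rw [hfa1, hfa2]; exact Sym2.eq_swap) (hspoke m)
        · -- both are terminals
          have hau : f a ≠ .u := by rw [hfa1]; intro h; injection h
          have hau' : f a' ≠ .u := by rw [hfa2]; intro h; injection h
          obtain ⟨l, hl⟩ := P.ep haa
          have h1 := P.uniq haa.ne hl hEP hau hau'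
          -- the piece of the edge is `k`
          have h3 := hall a hau
          by_contra hne
          refine hcr a ⟨k, (i, j), hne, h3, hau, a', haa, hau', hEP⟩
        · rw [hpriv a' i' j' z hfa2, hEP.symm.priv hfa2]
      · rw [hpriv a i' j' z hfa1, hEP.priv hfa1]
    obtain ⟨p, q, h1, h3, h4⟩ := P.planned hk.1 hall' hrb
    obtain ⟨p', q', h1', h3', h4'⟩ := P.planned hk.1 hall' hrx
    rw [hkij] at h3 h4 h3' h4'
    rw [gpsi_r] at h3 h3'
    exact ⟨⟨p, q, h1, h3, by rw [h4]; exact hgb i j⟩, ⟨p', q', h1', h3', by rw [h4']; exact hgx i j⟩⟩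

end

end Pool.Agent.StrongMax
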