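import Pool.Agent.Lib.StrongMax.N2

/-!
# Theorem N2: the components case and the final statement (helper42, after helper9)
-/

namespace Pool.Agent.StrongMax

section N2Final

variable {W : Type} {H : SimpleGraph W} [Finite W] {L : Set W} {s c : W}

/-- Case R23 with `q = 1` and `|X| ≥ 2`. -/
theorem R23.small (h : R23 H L s c)
    (hq : ∀ x x', x ∉ L → x' ∉ L → x ≠ s → x ≠ c → Lr H {z | z ≠ s ∧ z ≠ c} x x' → x = x')
    (hX : ∀ x, ∃ x', x' ∉ L ∧ x' ≠ s ∧ x' ≠ c ∧ x' ≠ x) : Fails.{0} H := by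
  classical
  let M : Set W := {z | z ≠ s ∧ z ≠ c}
  let X : Set W := {x | x ∉ L ∧ x ≠ s ∧ x ≠ c}
  have hLM : L ⊆ M := fun z hz => h.LM hz
  -- the representative of a component
  have hr : ∀ z, ∃ x, z ∈ M → x ∈ X ∧ Lr H M x z := by
    intro z
    by_cases hz : z ∈ M
    · by_cases hzL : z ∈ L
      · obtain ⟨x, hx, hxs, hxc, y, hy, hyx, -⟩ := h.f0 hzL
        refine ⟨x, fun _ => ⟨⟨hx, hxs, hxc⟩, ?_⟩⟩
        have h1 : Lr H M z x := (hy.mono hLM).tail hyx ⟨hxs, hxc⟩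
        exact h1.symm hz
      · exact ⟨z, fun _ => ⟨⟨hzL, hz.1, hz.2⟩, Lr.refl z⟩⟩
    · exact ⟨z, fun h' => absurd h' hz⟩
  choose r hr using hr
  have huniq : ∀ z ∈ M, ∀ x ∈ X, Lr H M x z → x = r z := by
    intro z hz x hx hxz
    obtain ⟨h1, h2⟩ := hr z hz
    have h3 : Lr H M x (r z) := hxz.trans (h2.symm ⟨h1.2.1, h1.2.2⟩)
    exact hq x (r z) hx.1 h1.1 hx.2.1 hx.2.2 h3
  obtain ⟨x₀, hx₀, hx₀s, hx₀c⟩ := h.exists_X
  have hne : Nonempty X := ⟨⟨x₀, hx₀, hx₀s, hx₀c⟩⟩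
  have hcard : Nat.card X ≠ 0 := Nat.card_ne_zero.2 ⟨hne, Set.toFinite _⟩
  obtain ⟨k, hk⟩ : ∃ k, Nat.card X = k + 1 := ⟨Nat.card X - 1, by omega⟩
  let e : X ≃ Fin (k + 1) := Finite.equivFinOfCardEq hk
  let xx : Fin (k + 1) → W := fun l => (e.symm l).1
  have hxx : ∀ l, xx l ∈ X := fun l => (e.symm l).2
  have hxxM : ∀ l, xx l ∈ M := fun l => (hxx l).2
  have hcm : ∀ z, ∃ l, z ∈ M → xx l = r z := by
    intro z
    by_cases hz : z ∈ M
    · refine ⟨e ⟨r z, (hr z hz).1⟩, fun _ => ?_⟩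
      show (e.symm (e ⟨r z, (hr z hz).1⟩)).1 = r z
      rw [e.symm_apply_apply]
    · exact ⟨0, fun h' => absurd h' hz⟩
  choose cm hcm using hcm
  have hxxinj : Function.Injective xx := by
    intro l l' hl
    exact e.symm.injective (Subtype.ext hl)
  have hrxx : ∀ l, r (xx l) = xx l := fun l =>
    (huniq (xx l) (hxxM l) (xx l) (hxx l) (Lr.refl _)).symm
  have hcomp : ∀ l, cm (xx l) = l := fun l =>
    hxxinj ((hcm (xx l) (hxxM l)).trans (hrxx l))
  have hcm' : ∀ z ∈ M, ∀ l, Lr H M (xx l) z → cm z = l := by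
    intro z hz l hl
    exact hxxinj ((hcm z hz).trans (huniq z hz (xx l) (hxx l) hl).symm)
  have hLr : ∀ z ∈ M, Lr H M (xx (cm z)) z := by
    intro z hz
    rw [hcm z hz]
    exact (hr z hz).2
  have hfk : ∀ l, KEmb H s c (xx 0) (xx l) := fun l =>
    h.fk hq (hxx 0).1 (hxx 0).2.1 (hxx 0).2.2 (hxx l).1 (hxx l).2.1 (hxx l).2.2
  choose β hβs hβc hβx hβi hβm hβa using hfk
  refine KCtx.fails (L := L) (s := s) (c := c) (k := k) (comp := cm) (xx := xx) (β := β)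
    { hδ := h.toN2Ctx.two_nbrs
      hL := h.rig
      hs := h.sL
      hc := h.cL
      hcs := h.cs
      hst := h.star
      hN := fun n hn hns => (h.all n hn hns).symm
      hxL := fun l => (hxx l).1
      hxs := fun l => (hxx l).2.1
      hxc := fun l => (hxx l).2.2
      hxcomp := hcomp
      hout := ?_
      hadj := ?_
      hbc := ?_
      hbx := ?_
      hdeg := h.lt _ (hxx 0).1 (hxx 0).2.1 (hxx 0).2.2
      βs := hβs
      βc := hβc
      βx := hβx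
      βinj := ?_
      βmem := ?_
      βadj := ?_ }
  · intro n hn hns hnc
    have hnM : n ∈ M := ⟨hns, hnc⟩
    rw [hcm n hnM]
    exact huniq n hnM n ⟨hn, hns, hnc⟩ (Lr.refl n)
  · intro a b hab has hac hbs hbc
    have haM : a ∈ M := ⟨has, hac⟩
    have hbM : b ∈ M := ⟨hbs, hbc⟩
    exact (hcm' b hbM (cm a) ((hLr a haM).tail hab hbM)).symm
  · intro y hy
    obtain ⟨m, hm, hms, hmr⟩ := h.f1' hX hy (r y)
    have hmL := bdr_notMem hm
    by_cases hmc : m = c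
    · exact hmc ▸ hm
    · exfalso
      obtain ⟨z, hz, hzm, -⟩ := hm
      have h1 : Lr H M y m := (hz.mono hLM).tail hzm ⟨hms, hmc⟩
      exact hmr (huniq y (hLM hy) m ⟨hmL, hms, hmc⟩ (h1.symm (hLM hy)))
  · intro y hy
    obtain ⟨x, hx, hxs, hxc, hyx⟩ := h.f0 hy
    have hyM := hLM hy
    rw [hcm y hyM]
    obtain ⟨z, hz, hzx, -⟩ := id hyx
    have h1 : Lr H M y x := (hz.mono hLM).tail hzx ⟨hxs, hxc⟩
    rw [← huniq y hyM x ⟨hx, hxs, hxc⟩ (h1.symm hyM)]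
    exact hyx
  · intro l a b has hac hbs hbc hal hbl he
    have haM : a ∈ M := ⟨has, hac⟩
    have hbM : b ∈ M := ⟨hbs, hbc⟩
    refine hβi l (Or.inr (Or.inr ?_)) (Or.inr (Or.inr ?_)) he
    · show Lr H M (xx l) a
      rw [← hal]; exact hLr a haM
    · show Lr H M (xx l) b
      rw [← hbl]; exact hLr b hbM
  · intro l a has hac hal
    have haM : a ∈ M := ⟨has, hac⟩
    have h1 : Lr H M (xx 0) (β l a) := hβm l a (by
      show Lr H M (xx l) a
      rw [← hal]; exact hLr a haM)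
    have h2 : β l a ∈ M := h1.mem (hxxM 0)
    exact ⟨h2.1, h2.2, hcm' _ h2 0 h1⟩
  · intro l a b hab ha hb
    have hmem : ∀ z, (z = s ∨ z = c ∨ cm z = l) → z ∈ insert s (insert c (comp H M (xx l))) := by
      rintro z (hz | hz | hz)
      · exact Or.inl hz
      · exact Or.inr (Or.inl hz)
      · by_cases hzM : z ∈ M
        · right; right
          show Lr H M (xx l) z
          rw [← hz]; exact hLr z hzM
        · by_cases hzs : z = s
          · exact Or.inl hzs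
          · right; left
            by_contra hzc
            exact hzM ⟨hzs, hzc⟩
    exact hβa l a (hmem a ha) b (hmem b hb) hab

/-- **Theorem N2.** -/
theorem n2_fails (h2 : Conn2 H) (hδ : ∀ x, 2 ≤ (H.neighborSet x).ncard) (hMC : MC H)
    (hL : Rigid H L) (hs : s ∉ L) (hst : Star H L s)
    (hn : ∃ n₁ n₂, n₁ ≠ n₂ ∧ n₁ ∉ L ∧ n₂ ∉ L ∧ H.Adj s n₁ ∧ H.Adj s n₂) : Fails.{0} H := by
  refine N2Ctx.cases (H := H) (s := s) ?_ ?_ _ L le_rfl ⟨h2, hδ, hMC, hL, hs, hst, hn⟩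
  · intro L h heq
    exact h.r1 heq
  · intro L c hend hc hcs hlt heq hrig hcnt
    have h : R23 H L s c := ⟨hend, hc, hcs, hlt, heq, hrig, hcnt⟩
    by_cases hq : ∃ x x', x ≠ x' ∧ x ∉ L ∧ x' ∉ L ∧ x ≠ s ∧ x ≠ c ∧
        Lr H {z | z ≠ s ∧ z ≠ c} x x'
    · obtain ⟨x, x', hne, hx, hx', hxs, hxc, hr⟩ := hq
      refine h.big ?_
      intro y hy hys hyc
      have h1 := h.cnt x y hxs hxc hys hyc
      have hx'M : x' ≠ s ∧ x' ≠ c := hr.mem (M := {z | z ≠ s ∧ z ≠ c}) ⟨hxs, hxc⟩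
      have h3 : 1 < (comp H {z | z ≠ s ∧ z ≠ c} x ∩ {z | z ∉ L ∧ z ≠ s ∧ z ≠ c}).ncard := by
        rw [Set.one_lt_ncard (Set.toFinite _)]
        exact ⟨x, ⟨Lr.refl x, hx, hxs, hxc⟩, x', ⟨hr, hx', hx'M.1, hx'M.2⟩, hne⟩
      rw [h1, Set.one_lt_ncard (Set.toFinite _)] at h3
      obtain ⟨a, ha, b, hb, hab⟩ := h3
      by_cases hay : a = y
      · exact ⟨b, hb.2.1, fun h' => hab (hay.trans h'.symm), hb.1⟩
      · exact ⟨a, ha.2.1, hay, ha.1⟩
    · have hq' : ∀ x x', x ∉ L → x' ∉ L → x ≠ s → x ≠ c →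
          Lr H {z | z ≠ s ∧ z ≠ c} x x' → x = x' := by
        intro x x' hx hx' hxs hxc hr
        by_contra hne
        exact hq ⟨x, x', hne, hx, hx', hxs, hxc, hr⟩
      obtain ⟨x, hx, hxs, hxc⟩ := h.exists_X
      by_cases hX : ∃ x', x' ∉ L ∧ x' ≠ s ∧ x' ≠ c ∧ x' ≠ x
      · refine h.small hq' ?_
        intro y
        obtain ⟨x', hx', hx's, hx'c, hne⟩ := hX
        by_cases hxy : x = y
        · exact ⟨x', hx', hx's, hx'c, hxy ▸ hne⟩
        · exact ⟨x, hx, hxs, hxc, hxy⟩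
      · push Not at hX
        exact h.single hx hxs hxc hX

end N2Final

end Pool.Agent.StrongMax
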