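import Pool.Agent.Lib.StrongMax.Delta2
import Pool.Agent.Lib.StrongMax.LemC3
import Pool.Agent.Lib.StrongMax.Atoms
import Pool.Agent.Lib.StrongMax.N2Final
import Pool.Agent.Lib.StrongMax.Conn1

/-!
# Finite graphs whose edges have no common vertex fail
-/

namespace Pool.Agent.StrongMax

section

variable {W : Type} {H : SimpleGraph W}

theorem atomAPI_of [Finite W] (h2 : Conn2 H) (h3 : ∀ x, 3 ≤ (H.neighborSet x).ncard) :
    AtomAPI H :=
  ⟨fun _ hD => hD.conn, fun _ hD => hD.two h2 h3, fun _ _ hD hF v hv => hD.not_bd h2 h3 hF v hv,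
    fun _ _ hD hv => hD.two_nbr h2 h3 hv⟩

theorem conn2_of_no_frag (hno : ¬ ∃ D c, Frag H D c) : Conn2 H := by
  intro P q hP hP'
  by_contra hcon
  push Not at hcon
  obtain ⟨x, hx, hxq⟩ := hP
  obtain ⟨y, hy, hyq⟩ := hP'
  refine hno ⟨{z | z ∈ P ∧ z ≠ q}, q, ⟨x, hx, hxq⟩, fun h => h.2 rfl, ⟨y, fun h => hy h.1, hyq⟩, ?_⟩
  rintro a ⟨ha, haq⟩ b hab
  by_cases hbq : b = q
  · exact Or.inr hbq
  · left
    refine ⟨?_, hbq⟩
    by_contra hb
    exact hcon a ha b hb haq hbq hab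

/-- Minimum degree at least three and no separating vertex. -/
theorem delta3_fails [Finite W] (h2 : Conn2 H) (h3 : ∀ x, 3 ≤ (H.neighborSet x).ncard)
    (hnc : ¬ Conn3 H)
    (IH : ∀ S : Set W, S ≠ Set.univ → (¬ ∃ z : S, ∀ a b : S, H.Adj a b → a = z ∨ b = z) →
      Fails.{0} (H.induce S)) : Fails.{0} H := by
  classical
  by_contra hnf
  have hdeg : ∀ z p q : W, ∃ w, H.Adj z w ∧ w ≠ p ∧ w ≠ q := by
    intro z p q
    by_contra hcon
    push Not at hcon
    have h1 : H.neighborSet z ⊆ {p, q} := by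
      intro w hw
      by_cases hwp : w = p
      · exact Or.inl hwp
      · exact Or.inr (hcon w hw hwp)
    have h4 := Set.ncard_le_ncard h1 (Set.toFinite _)
    have h5 : ({p, q} : Set W).ncard ≤ 2 := by
      refine (Set.ncard_insert_le p {q}).trans ?_
      rw [Set.ncard_singleton]
    have := h3 z
    omega
  have hδ : ∀ x, ∃ y z, y ≠ z ∧ H.Adj x y ∧ H.Adj x z := by
    intro x
    obtain ⟨y, hy, -, -⟩ := hdeg x x x
    obtain ⟨z, hz, hzy, -⟩ := hdeg x y y
    exact ⟨y, z, hzy.symm, hy, hz⟩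
  have hex := exists_atom (frag_of_not_conn3 hnc)
  have api := atomAPI_of h2 h3
  have hrig := atomSet_rigid h2 h3
  have hMC : MC H := mc_of_not_fails (fun x => by
    obtain ⟨y, -, -, hy, -⟩ := hδ x
    exact ⟨y, hy⟩) IH hnf
  obtain ⟨s, hs⟩ : ∃ s, Star H (atomSet H) s := by
    refine hMC _ ?_ hrig.isClosedSet
    obtain ⟨D, hD⟩ := hex
    obtain ⟨a, ha⟩ := hD.frag.ne
    exact ⟨a, D, hD, ha⟩
  by_cases hone : ∀ a b a' b', H.Adj a b → H.Adj a' b' → a ∉ atomSet H → b ∉ atomSet H →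
      a' ∉ atomSet H → b' ∉ atomSet H → s(a, b) = s(a', b')
  · exact hnf (lemC h2 hdeg api hex hone)
  push Not at hone
  obtain ⟨a, b, a', b', hab, hab', ha, hb, ha', hb', hne⟩ := hone
  -- both edges contain `s`
  obtain ⟨n₁, hsA, hn₁, h₁, he₁⟩ : ∃ n, s ∉ atomSet H ∧ n ∉ atomSet H ∧ H.Adj s n ∧
      s(a, b) = s(s, n) := by
    rcases hs a b hab ha hb with rfl | rfl
    · exact ⟨b, ha, hb, hab, rfl⟩
    · exact ⟨a, hb, ha, hab.symm, Sym2.eq_swap⟩
  obtain ⟨n₂, -, hn₂, h₂, he₂⟩ : ∃ n, s ∉ atomSet H ∧ n ∉ atomSet H ∧ H.Adj s n ∧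
      s(a', b') = s(s, n) := by
    rcases hs a' b' hab' ha' hb' with rfl | rfl
    · exact ⟨b', ha', hb', hab', rfl⟩
    · exact ⟨a', hb', ha', hab'.symm, Sym2.eq_swap⟩
  have hn : n₁ ≠ n₂ := by
    rintro rfl
    exact hne (he₁.trans he₂.symm)
  exact hnf (n2_fails h2 (fun x => le_trans (by norm_num) (h3 x)) hMC hrig hsA hs
    ⟨n₁, n₂, hn, hn₁, hn₂, h₁, h₂⟩)

/-- Connected graphs of minimum degree at least two. -/
theorem cyc_fails [Finite W] (hc : H.Connected) (hδ : ∀ x, x ∈ coreSet H)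
    (IH : ∀ S : Set W, S ≠ Set.univ → (¬ ∃ z : S, ∀ a b : S, H.Adj a b → a = z ∨ b = z) →
      Fails.{0} (H.induce S)) : Fails.{0} H := by
  classical
  by_cases hfr : ∃ D c, Frag H D c
  · exact conn1 hc hδ hfr IH
  have h2 := conn2_of_no_frag hfr
  have hcard : ∃ r b c : W, r ≠ b ∧ r ≠ c ∧ b ≠ c := by
    obtain ⟨x⟩ := hc.nonempty
    obtain ⟨y, z, hyz, hy, hz⟩ := hδ x
    exact ⟨x, y, z, hy.ne, hz.ne, hyz⟩
  by_cases h3 : Conn3 H
  · exact conn3_fails' h3 hcard
  by_cases hd : ∃ t, t ∈ D2 H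
  · by_cases hnc : ∃ w, w ∉ D2 H
    · exact delta2_fails h2 hcard hd hnc IH
    · push Not at hnc
      refine cycle_fails h2 hcard ?_
      intro x y1 y2 y3 h1 h2 h3
      by_contra hcon
      push Not at hcon
      exact D2_three (hnc x) h1 h2 h3 hcon.1 hcon.2.1 hcon.2.2
  · push Not at hd
    refine delta3_fails h2 ?_ h3 IH
    intro x
    obtain ⟨y, z, hyz, hy, hz⟩ := hδ x
    obtain ⟨w, hw, hwy, hwz⟩ := exists_third h2 hcard (hd x) y z
    have h1 : ({y, z, w} : Set W) ⊆ H.neighborSet x := by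
      rintro u (rfl | rfl | rfl)
      · exact hy
      · exact hz
      · exact hw
    have h4 := Set.ncard_le_ncard h1 (Set.toFinite _)
    have h5 : ({y, z, w} : Set W).ncard = 3 := by
      rw [Set.ncard_eq_three]
      exact ⟨y, z, w, hyz, hwy.symm, hwz.symm, rfl⟩
    omega

theorem finite_fails_aux (n : ℕ) : ∀ (W : Type) [Finite W] (H : SimpleGraph W), Nat.card W ≤ n →
    (¬ ∃ z, ∀ a b, H.Adj a b → a = z ∨ b = z) → Fails.{0} H := by
  induction n with
  | zero =>
    intro W _ H hW hstar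
    refine fails_of_cyclic hstar (fun S hS _ => ?_)
    exfalso
    obtain ⟨x⟩ := hS.nonempty
    have : Nat.card W = 0 := by omega
    rw [Nat.card_eq_zero] at this
    rcases this with h | h
    · exact h.false x.1
    · exact not_finite W
  | succ n ih =>
    intro W _ H hW hstar
    refine fails_of_cyclic hstar (fun S hS hS2 => ?_)
    refine cyc_fails hS hS2 ?_
    intro T hT hTstar
    refine ih T _ ?_ hTstar
    have h1 : T.ncard < (Set.univ : Set S).ncard :=
      Set.ncard_lt_ncard ⟨Set.subset_univ _, fun h => hT (Set.Subset.antisymm (Set.subset_univ _) h)⟩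
        (Set.toFinite _)
    rw [Set.ncard_univ] at h1
    have h2 : Nat.card T = T.ncard := rfl
    have h3 : Nat.card S ≤ Nat.card W := Nat.card_le_card_of_injective _ Subtype.val_injective
    omega

end

/-- **Theorem.** Every finite graph whose edges have no common vertex fails. -/
theorem finite_fails {W : Type*} [Finite W] (H : SimpleGraph W)
    (hstar : ¬ ∃ z, ∀ a b, H.Adj a b → a = z ∨ b = z) : Fails.{0} H := by
  obtain ⟨H', ⟨e⟩⟩ := overFin_iso H
  refine Fails.of_iso e.symm (finite_fails_aux _ _ H' le_rfl ?_)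
  rintro ⟨z, hz⟩
  refine hstar ⟨e.symm z, fun a b hab => ?_⟩
  rcases hz (e a) (e b) (e.map_adj_iff.2 hab) with h | h
  · left; rw [← h]; exact (e.symm_apply_apply a).symm
  · right; rw [← h]; exact (e.symm_apply_apply b).symm

end Pool.Agent.StrongMax
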