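import Pool.Agent.Lib.StrongMax.Parts

/-!
# Fragments and atoms with respect to cut vertices (helper42)
-/

namespace Pool.Agent.StrongMax

variable {W : Type}

/-- `D` is a fragment with respect to the cut vertex `c`. -/
def Frag (H : SimpleGraph W) (D : Set W) (c : W) : Prop :=
  D.Nonempty ∧ c ∉ D ∧ (∃ x, x ∉ D ∧ x ≠ c) ∧ ∀ a ∈ D, ∀ b, H.Adj a b → b ∈ D ∨ b = c

/-- A fragment of minimum size. -/
def IsAtom1 (H : SimpleGraph W) (D : Set W) (c : W) : Prop :=
  Frag H D c ∧ ∀ D' c', Frag H D' c' → D.ncard ≤ D'.ncard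

variable {H : SimpleGraph W}

theorem Frag.adj {D : Set W} {c : W} (hc : H.Connected) (h : Frag H D c) : ∃ a ∈ D, H.Adj a c := by
  by_contra hcon
  push Not at hcon
  have := closed_univ (S := D) hc (fun a ha b hab => by
    rcases h.2.2.2 a ha b hab with h' | h'
    · exact h'
    · exact absurd (h' ▸ hab) (hcon a ha)) h.1 c
  exact h.2.1 this

theorem exists_atom1 [Finite W] (h : ∃ D c, Frag H D c) : ∃ D c, IsAtom1 H D c := by
  obtain ⟨D, c, h⟩ := h
  obtain ⟨⟨D₀, c₀⟩, h1, h2⟩ := Set.exists_min_image {p : Set W × W | Frag H p.1 p.2}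
    (fun p => p.1.ncard) (Set.toFinite _) ⟨(D, c), h⟩
  exact ⟨D₀, c₀, h1, fun D' c' h' => h2 (D', c') h'⟩

theorem IsAtom1.conn [Finite W] {D : Set W} {c : W} (h : IsAtom1 H D c) {X : Set W} (hX : X ⊆ D)
    (hne : X.Nonempty) (hcl : ∀ a ∈ X, ∀ b ∈ D, H.Adj a b → b ∈ X) : X = D := by
  have h1 : Frag H X c := by
    refine ⟨hne, fun hc => h.1.2.1 (hX hc), ?_, ?_⟩
    · obtain ⟨x, hx, hxc⟩ := h.1.2.2.1
      exact ⟨x, fun hx' => hx (hX hx'), hxc⟩
    · intro a ha b hab
      rcases h.1.2.2.2 a (hX ha) b hab with h' | h'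
      · exact Or.inl (hcl a ha b h' hab)
      · exact Or.inr h'
  exact Set.eq_of_subset_of_ncard_le hX (h.2 X c h1) (Set.toFinite _)

theorem IsAtom1.conn' [Finite W] {D : Set W} {c : W} (h : IsAtom1 H D c) {X : Set W} (hX : X ⊆ D)
    (hne : X.Nonempty) {x : W} (hx : x ∈ D) (hxX : x ∉ X)
    (hcl : ∀ a ∈ X, ∀ b, H.Adj a b → b ∈ X ∨ b = x) : False := by
  have h1 : Frag H X x := by
    refine ⟨hne, hxX, ⟨c, fun hc => h.1.2.1 (hX hc), fun hc => h.1.2.1 (hc ▸ hx)⟩, hcl⟩
  have h2 := h.2 X x h1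
  have h3 : X.ncard < D.ncard :=
    Set.ncard_lt_ncard ⟨hX, fun h' => hxX (h' hx)⟩ (Set.toFinite _)
  omega

theorem IsAtom1.root_notMem [Finite W] (hc : H.Connected) {D D' : Set W} {c c' : W}
    (h : IsAtom1 H D c) (h' : IsAtom1 H D' c') : c' ∉ D := by
  intro hc'
  by_cases hcD : c ∈ D'
  · -- the complement of `D ∪ {c}` together with `c` is contained in `D'`
    have hcc' : c ≠ c' := fun he => h.1.2.1 (he ▸ hc')
    let E : Set W := {x | x ∉ D ∧ x ≠ c}
    have hE : Frag H E c := by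
      refine ⟨h.1.2.2.1, fun hcE => hcE.2 rfl, ⟨c', fun hE => hE.1 hc', hcc'.symm⟩, ?_⟩
      intro a ha b hab
      by_cases hb : b = c
      · exact Or.inr hb
      · refine Or.inl ⟨fun hbD => ?_, hb⟩
        rcases h.1.2.2.2 b hbD a hab.symm with h1 | h1
        · exact ha.1 h1
        · exact ha.2 h1
    have hEc : insert c E ⊆ D' := by
      intro x hx
      rcases hx with rfl | hx
      · exact hcD
      · by_contra hxD'
        -- the part of `E` outside `D'` is closed
        have := closed_univ (S := {y | y ∈ E ∧ y ∉ D'}) hc (fun a ha b hab => by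
          have hbE : b ∈ E := by
            refine ⟨fun hbD => ?_, fun hbc => ?_⟩
            · rcases h.1.2.2.2 b hbD a hab.symm with h1 | h1
              · exact ha.1.1 h1
              · exact ha.1.2 h1
            · subst hbc
              rcases h'.1.2.2.2 b hcD a hab.symm with h1 | h1
              · exact ha.2 h1
              · exact ha.1.1 (h1 ▸ hc')
          refine ⟨hbE, fun hbD' => ?_⟩
          rcases h'.1.2.2.2 b hbD' a hab.symm with h1 | h1
          · exact ha.2 h1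
          · exact ha.1.1 (h1 ▸ hc')) ⟨x, hx, hxD'⟩ c
        exact this.1.2 rfl
    have h1 : (insert c E).ncard ≤ D'.ncard := Set.ncard_le_ncard hEc (Set.toFinite _)
    rw [Set.ncard_insert_of_notMem (fun hcE : c ∈ E => hcE.2 rfl) (Set.toFinite _)] at h1
    have h2 := h.2 D' c' h'.1
    have h3 := h'.2 E c hE
    omega
  · -- `D'` is contained in `D`
    obtain ⟨a, ha, hac⟩ := h'.1.adj hc
    have haD : a ∈ D := by
      rcases h.1.2.2.2 c' hc' a hac.symm with h1 | h1
      · exact h1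
      · exact absurd (h1 ▸ ha) hcD
    have h1 : {y | y ∈ D' ∧ y ∈ D} = D' := by
      refine h'.conn (fun y hy => hy.1) ⟨a, ha, haD⟩ ?_
      intro y hy b hb hyb
      refine ⟨hb, ?_⟩
      rcases h.1.2.2.2 y hy.2 b hyb with h1 | h1
      · exact h1
      · exact absurd (h1 ▸ hb) hcD
    have h2 : D' ⊆ D := fun y hy => (h1.symm ▸ hy : y ∈ {y | y ∈ D' ∧ y ∈ D}).2
    have h3 : D'.ncard < D.ncard := Set.ncard_lt_ncard ⟨h2, fun h4 => h'.1.2.1 (h4 hc')⟩ (Set.toFinite _)
    have h4 := h.2 D' c' h'.1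
    omega

theorem IsAtom1.eq_of_mem [Finite W] (hc : H.Connected) {D D' : Set W} {c c' : W}
    (h : IsAtom1 H D c) (h' : IsAtom1 H D' c') {x : W} (hx : x ∈ D) (hx' : x ∈ D') :
    D = D' ∧ c = c' := by
  have key : ∀ {D D' : Set W} {c c' : W}, IsAtom1 H D c → IsAtom1 H D' c' → x ∈ D → x ∈ D' →
      D ⊆ D' := by
    intro D D' c c' h h' hx hx'
    have h1 : {y | y ∈ D ∧ y ∈ D'} = D := by
      refine h.conn (fun y hy => hy.1) ⟨x, hx, hx'⟩ ?_
      intro y hy b hb hyb
      refine ⟨hb, ?_⟩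
      rcases h'.1.2.2.2 y hy.2 b hyb with h1 | h1
      · exact h1
      · exact absurd (h1 ▸ hb) (h.root_notMem hc h')
    exact fun y hy => (h1.symm ▸ hy : y ∈ {y | y ∈ D ∧ y ∈ D'}).2
  have hDD : D = D' := Set.Subset.antisymm (key h h' hx hx') (key h' h hx' hx)
  refine ⟨hDD, ?_⟩
  subst hDD
  obtain ⟨a, ha, hac⟩ := h.1.adj hc
  rcases h'.1.2.2.2 a ha c hac with h1 | h1
  · exact absurd h1 h.1.2.1
  · exact h1

/-- The image of an atom together with its root is not separated by a vertex of the host. -/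
theorem IsAtom1.loc [Finite W] (hc : H.Connected) {D : Set W} {c : W} (h : IsAtom1 H D c)
    {V : Type*} {f : W → V} (hf : Set.InjOn f (insert c D)) {E : V → V → Prop}
    (hE : ∀ a ∈ insert c D, ∀ b ∈ insert c D, H.Adj a b → E (f a) (f b)) {M : Set V} {t : V}
    (hM : ∀ x ∈ M, ∀ y, (E x y ∨ E y x) → y ∈ M ∨ y = t) :
    (∀ a ∈ insert c D, f a ∈ M ∨ f a = t) ∨ (∀ a ∈ insert c D, f a ∉ M) := by
  by_contra hcon
  push Not at hcon
  obtain ⟨⟨y, hy, hyM, hyt⟩, ⟨x, hx, hxM⟩⟩ := hcon
  have hDc : ∀ a ∈ D, a ∈ insert c D := fun a ha => Or.inr ha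
  have hcD : ∀ a ∈ D, ∀ b, H.Adj a b → b ∈ insert c D := fun a ha b hab => by
    rcases h.1.2.2.2 a ha b hab with h1 | h1
    · exact Or.inr h1
    · exact Or.inl h1
  by_cases hct : f c = t
  · -- then `D` splits
    have hne : ∀ a ∈ D, f a ≠ t := fun a ha hat => by
      have : a = c := hf (hDc a ha) (Or.inl rfl) (hat.trans hct.symm)
      exact h.1.2.1 (this ▸ ha)
    have hyD : y ∈ D := by
      rcases hy with rfl | hy
      · exact absurd hct hyt
      · exact hy
    by_cases hxc : x = c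
    · subst hxc
      -- `t ∈ M`
      have htM : t ∈ M := hct ▸ hxM
      obtain ⟨a, ha, hac⟩ := h.1.adj hc
      have haM : f a ∈ M := by
        rcases hM _ hxM (f a) (Or.inr (hE a (hDc a ha) x (Or.inl rfl) hac)) with h1 | h1
        · exact h1
        · exact absurd h1 (hne a ha)
      have h1 : {a | a ∈ D ∧ f a ∈ M} = D := by
        refine h.conn (fun a ha => ha.1) ⟨a, ha, haM⟩ ?_
        intro a ha b hb hab
        refine ⟨hb, ?_⟩
        rcases hM _ ha.2 (f b) (Or.inl (hE a (hDc a ha.1) b (hDc b hb) hab)) with h1 | h1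
        · exact h1
        · exact absurd h1 (hne b hb)
      exact hyM (h1.symm ▸ hyD : y ∈ {a | a ∈ D ∧ f a ∈ M}).2
    · have hxD : x ∈ D := by
        rcases hx with hx | hx
        · exact absurd hx hxc
        · exact hx
      have h1 : {a | a ∈ D ∧ f a ∈ M} = D := by
        refine h.conn (fun a ha => ha.1) ⟨x, hxD, hxM⟩ ?_
        intro a ha b hb hab
        refine ⟨hb, ?_⟩
        rcases hM _ ha.2 (f b) (Or.inl (hE a (hDc a ha.1) b (hDc b hb) hab)) with h1 | h1
        · exact h1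
        · exact absurd h1 (hne b hb)
      exact hyM (h1.symm ▸ hyD : y ∈ {a | a ∈ D ∧ f a ∈ M}).2
  · by_cases hcM : f c ∈ M
    · -- the part outside `M`
      let Y : Set W := {a | a ∈ D ∧ f a ∉ M ∧ f a ≠ t}
      have hyD : y ∈ D := by
        rcases hy with rfl | hy
        · exact absurd hcM hyM
        · exact hy
      have hYne : Y.Nonempty := ⟨y, hyD, hyM, hyt⟩
      have hYcl : ∀ a ∈ Y, ∀ b, H.Adj a b → b ∈ Y ∨ (b ∈ D ∧ f b = t) := by
        intro a ha b hab
        have hb := hcD a ha.1 b hab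
        have hbM : f b ∉ M := fun hbM => by
          rcases hM _ hbM (f a) (Or.inr (hE a (hDc a ha.1) b hb hab)) with h1 | h1
          · exact ha.2.1 h1
          · exact ha.2.2 h1
        have hbD : b ∈ D := by
          rcases hb with rfl | hb
          · exact absurd hcM hbM
          · exact hb
        by_cases hbt : f b = t
        · exact Or.inr ⟨hbD, hbt⟩
        · exact Or.inl ⟨hbD, hbM, hbt⟩
      by_cases ht : ∃ b ∈ D, f b = t
      · obtain ⟨b₀, hb₀, hb₀t⟩ := ht
        refine h.conn' (X := Y) (fun a ha => ha.1) hYne hb₀ (fun h' => h'.2.2 hb₀t) ?_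
        intro a ha b hab
        rcases hYcl a ha b hab with h1 | h1
        · exact Or.inl h1
        · exact Or.inr (hf (hDc b h1.1) (hDc b₀ hb₀) (h1.2.trans hb₀t.symm))
      · have := closed_univ (S := Y) hc (fun a ha b hab => by
          rcases hYcl a ha b hab with h1 | h1
          · exact h1
          · exact absurd ⟨b, h1⟩ ht) hYne c
        exact h.1.2.1 this.1
    · -- the part inside `M`
      let Y : Set W := {a | a ∈ D ∧ f a ∈ M ∧ f a ≠ t}
      have hxD : x ∈ D := by
        rcases hx with rfl | hx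
        · exact absurd hxM hcM
        · exact hx
      have hYcl : ∀ a ∈ D, f a ∈ M → ∀ b, H.Adj a b → (b ∈ D ∧ f b ∈ M) ∨ (b ∈ D ∧ f b = t) := by
        intro a ha haM b hab
        have hb := hcD a ha b hab
        rcases hM _ haM (f b) (Or.inl (hE a (hDc a ha) b hb hab)) with h1 | h1
        · refine Or.inl ⟨?_, h1⟩
          rcases hb with rfl | hb
          · exact absurd h1 hcM
          · exact hb
        · refine Or.inr ⟨?_, h1⟩
          rcases hb with rfl | hb
          · exact absurd h1 hct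
          · exact hb
      by_cases ht : ∃ b ∈ D, f b = t ∧ t ∉ M
      · obtain ⟨b₀, hb₀, hb₀t, htM⟩ := ht
        refine h.conn' (X := {a | a ∈ D ∧ f a ∈ M}) (fun a ha => ha.1) ⟨x, hxD, hxM⟩ hb₀
          (fun h' => htM (hb₀t ▸ h'.2)) ?_
        intro a ha b hab
        rcases hYcl a ha.1 ha.2 b hab with h1 | h1
        · exact Or.inl h1
        · exact Or.inr (hf (hDc b h1.1) (hDc b₀ hb₀) (h1.2.trans hb₀t.symm))
      · have := closed_univ (S := {a | a ∈ D ∧ f a ∈ M}) hc (fun a ha b hab => by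
          rcases hYcl a ha.1 ha.2 b hab with h1 | h1
          · exact h1
          · refine ⟨h1.1, ?_⟩
            by_contra h2
            exact ht ⟨b, h1.1, h1.2, h1.2 ▸ h2⟩) ⟨x, hxD, hxM⟩ c
        exact h.1.2.1 this.1

/-- Rooted embeddings between fragments. -/
def REmb (H : SimpleGraph W) (D : Set W) (c : W) (D' : Set W) (c' : W) : Prop :=
  ∃ ψ : W → W, Set.InjOn ψ (insert c D) ∧ ψ c = c' ∧ (∀ a ∈ D, ψ a ∈ D') ∧
    ∀ a ∈ insert c D, ∀ b ∈ insert c D, H.Adj a b → H.Adj (ψ a) (ψ b)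

theorem REmb.refl (D : Set W) (c : W) : REmb H D c D c :=
  ⟨id, Function.injective_id.injOn, rfl, fun _ h => h, fun _ _ _ _ h => h⟩

theorem REmb.trans {D D' D'' : Set W} {c c' c'' : W} (h : REmb H D c D' c')
    (h' : REmb H D' c' D'' c'') : REmb H D c D'' c'' := by
  obtain ⟨ψ, h1, h2, h3, h4⟩ := h
  obtain ⟨φ, g1, g2, g3, g4⟩ := h'
  have hmem : ∀ a ∈ insert c D, ψ a ∈ insert c' D' := by
    rintro a (rfl | ha)
    · exact Or.inl h2
    · exact Or.inr (h3 a ha)
  refine ⟨φ ∘ ψ, ?_, ?_, ?_, ?_⟩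
  · intro a ha b hb hab
    exact h1 ha hb (g1 (hmem a ha) (hmem b hb) hab)
  · show φ (ψ c) = c''
    rw [h2, g2]
  · exact fun a ha => g3 _ (h3 a ha)
  · exact fun a ha b hb hab => g4 _ (hmem a ha) _ (hmem b hb) (h4 a ha b hb hab)

theorem IsAtom1.ncard_eq {D D' : Set W} {c c' : W} (h : IsAtom1 H D c) (h' : IsAtom1 H D' c') :
    D.ncard = D'.ncard := le_antisymm (h.2 _ _ h'.1) (h'.2 _ _ h.1)

/-- Each vertex of an atom has two neighbours in the atom with its root if all degrees are at least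
two; in particular the edges there have no common vertex. -/
theorem IsAtom1.thick (hδ : ∀ x, x ∈ coreSet H) {D : Set W} {c : W} (h : IsAtom1 H D c) :
    ¬ ∃ z, ∀ a ∈ insert c D, ∀ b ∈ insert c D, H.Adj a b → a = z ∨ b = z := by
  rintro ⟨z, hz⟩
  have h1 : ∀ a ∈ D, a = z := by
    intro a ha
    by_contra hne
    obtain ⟨x, y, hxy, hx, hy⟩ := hδ a
    have hmem : ∀ b, H.Adj a b → b ∈ insert c D := fun b hb => by
      rcases h.1.2.2.2 a ha b hb with h1 | h1
      · exact Or.inr h1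
      · exact Or.inl h1
    have hx' : x = z := by
      rcases hz a (Or.inr ha) x (hmem x hx) hx with h1 | h1
      · exact absurd h1 hne
      · exact h1
    have hy' : y = z := by
      rcases hz a (Or.inr ha) y (hmem y hy) hy with h1 | h1
      · exact absurd h1 hne
      · exact h1
    exact hxy (hx'.trans hy'.symm)
  obtain ⟨a, ha⟩ := h.1.1
  obtain ⟨x, y, hxy, hx, hy⟩ := hδ a
  have hmem : ∀ b, H.Adj a b → b = c := fun b hb => by
    rcases h.1.2.2.2 a ha b hb with h2 | h2
    · exact absurd ((h1 a ha).trans (h1 b h2).symm) hb.ne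
    · exact h2
  exact hxy ((hmem x hx).trans (hmem y hy).symm)

end Pool.Agent.StrongMax
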