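import Pool.Agent.Lib.StrongMax.Dec3

/-!
# The apex host over an arbitrary conflict graph (helper18)

`r` is a vertex of `H` with two neighbours `b ≠ c`.  The host has an apex `u`, a vertex `w i` for each
item `i`, and for each oriented conflict `i → j` a copy of `H` with `r, b, c` glued to `u, w i, w j`,
all other vertices of this copy being private.
-/

namespace Pool.Agent.StrongMax

universe u v

/-- Vertices of the apex host. -/
inductive GV (J : Type u) (W : Type v) : Type (max u v)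
  | u
  | w (i : J)
  | p (i j : J) (x : W)

/-- The orientation `R` of the conflict graph. -/
structure Oriented {J : Type u} (R : J → J → Prop) : Prop where
  irrefl : ∀ i, ¬ R i i
  asymm : ∀ i j, R i j → ¬ R j i

theorem Oriented.ne {J : Type u} {R : J → J → Prop} (h : Oriented R) {i j : J} (hij : R i j) :
    i ≠ j := by
  rintro rfl
  exact h.irrefl _ hij

section GHost

variable {J : Type u} {W : Type v} (R : J → J → Prop) (H : SimpleGraph W) (r b c : W)

open Classical in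
/-- The copy of `H` belonging to the conflict `i → j`. -/
noncomputable def gpsi (i j : J) (x : W) : GV J W :=
  if x = r then .u else if x = b then .w i else if x = c then .w j else .p i j x

/-- The apex host. -/
def ghost : SimpleGraph (GV J W) where
  Adj a a' := a ≠ a' ∧ ∃ i j x y, R i j ∧ H.Adj x y ∧ a = gpsi r b c i j x ∧ a' = gpsi r b c i j y
  symm := ⟨by
    rintro a a' ⟨hne, i, j, x, y, hij, hxy, h1, h2⟩
    exact ⟨hne.symm, i, j, y, x, hij, hxy.symm, h2, h1⟩⟩
  loopless := ⟨fun a h => h.1 rfl⟩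

variable {R H r b c}

@[simp] theorem gpsi_r (i j : J) : gpsi r b c i j r = .u := by simp [gpsi]

theorem gpsi_b (hrb : r ≠ b) (i j : J) : gpsi r b c i j b = .w i := by simp [gpsi, hrb.symm]

theorem gpsi_c (hrc : r ≠ c) (hbc : b ≠ c) (i j : J) : gpsi r b c i j c = .w j := by
  simp [gpsi, hrc.symm, hbc.symm]

theorem gpsi_p {x : W} (hr : x ≠ r) (hb : x ≠ b) (hc : x ≠ c) (i j : J) :
    gpsi r b c i j x = .p i j x := by
  simp [gpsi, hr, hb, hc]

theorem gpsi_eq_u {i j : J} {x : W} (h : gpsi r b c i j x = .u) : x = r := by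
  unfold gpsi at h
  split_ifs at h with h1
  exact h1

theorem gpsi_eq_w {i j k : J} {x : W} (h : gpsi r b c i j x = .w k) :
    (x = b ∧ k = i) ∨ (x = c ∧ k = j) := by
  unfold gpsi at h
  split_ifs at h with h1 h2 h3
  · injection h with h4; exact Or.inl ⟨h2, h4.symm⟩
  · injection h with h4; exact Or.inr ⟨h3, h4.symm⟩

theorem gpsi_eq_p {i j k l : J} {x y : W} (h : gpsi r b c i j x = .p k l y) :
    i = k ∧ j = l ∧ x = y ∧ x ≠ r ∧ x ≠ b ∧ x ≠ c := by
  unfold gpsi at h
  split_ifs at h with h1 h2 h3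
  injection h with h4 h5 h6
  exact ⟨h4, h5, h6, h1, h2, h3⟩

theorem gpsi_injective {i j : J} (hij : i ≠ j) : Function.Injective (gpsi r b c i j) := by
  intro x y h
  rcases hx : gpsi r b c i j x with _ | k | ⟨k, l, z⟩
  · rw [hx] at h
    rw [gpsi_eq_u hx, gpsi_eq_u h.symm]
  · rw [hx] at h
    rcases gpsi_eq_w hx with ⟨h1, h2⟩ | ⟨h1, h2⟩ <;> rcases gpsi_eq_w h.symm with ⟨h3, h4⟩ | ⟨h3, h4⟩
    · rw [h1, h3]
    · exact absurd (h2.symm.trans h4) hij
    · exact absurd (h4.symm.trans h2) hij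
    · rw [h1, h3]
  · rw [hx] at h
    rw [(gpsi_eq_p hx).2.2.1, (gpsi_eq_p h.symm).2.2.1]

theorem gpsi_adj (hR : Oriented R) {i j : J} (hij : R i j) {x y : W} (hxy : H.Adj x y) :
    (ghost R H r b c).Adj (gpsi r b c i j x) (gpsi r b c i j y) :=
  ⟨fun h => hxy.ne (gpsi_injective (hR.ne hij) h), i, j, x, y, hij, hxy, rfl, rfl⟩

/-- The copies of `H` are induced subgraphs of the host. -/
theorem gpsi_adj_iff (hR : Oriented R) (hrb : H.Adj r b) (hrc : H.Adj r c) {i j : J}
    (hij : R i j) {x y : W} :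
    (ghost R H r b c).Adj (gpsi r b c i j x) (gpsi r b c i j y) ↔ H.Adj x y := by
  refine ⟨?_, gpsi_adj hR hij⟩
  rintro ⟨hne, k, l, x', y', hkl, hxy, h1, h2⟩
  rcases hx : gpsi r b c i j x with _ | m | ⟨m, n, z⟩
  · have hxr := gpsi_eq_u hx
    rw [hx] at h1
    have hx'r := gpsi_eq_u h1.symm
    rw [hxr]
    rw [hx'r] at hxy
    rcases hy : gpsi r b c i j y with _ | m | ⟨m, n, z⟩
    · exact absurd (hx.trans hy.symm) hne
    · rcases gpsi_eq_w hy with ⟨h3, h4⟩ | ⟨h3, h4⟩
      · rw [h3]; exact hrb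
      · rw [h3]; exact hrc
    · rw [hy] at h2
      rw [(gpsi_eq_p hy).2.2.1, ← (gpsi_eq_p h2.symm).2.2.1]
      exact hxy
  · rw [hx] at h1
    rcases hy : gpsi r b c i j y with _ | m' | ⟨m', n, z⟩
    · have hyr := gpsi_eq_u hy
      rw [hyr]
      rcases gpsi_eq_w hx with ⟨h3, h4⟩ | ⟨h3, h4⟩
      · rw [h3]; exact hrb.symm
      · rw [h3]; exact hrc.symm
    · rw [hy] at h2
      have hne' : x ≠ y := fun h => hne (by rw [h])
      have hne2 : x' ≠ y' := hxy.ne
      rcases gpsi_eq_w hx with ⟨h3, h4⟩ | ⟨h3, h4⟩ <;> rcases gpsi_eq_w hy with ⟨h5, h6⟩ | ⟨h5, h6⟩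
      · exact absurd (h3.trans h5.symm) hne'
      · rcases gpsi_eq_w h1.symm with ⟨h7, h8⟩ | ⟨h7, h8⟩ <;>
          rcases gpsi_eq_w h2.symm with ⟨h9, h10⟩ | ⟨h9, h10⟩
        · exact absurd (h7.trans h9.symm) hne2
        · rw [h3, h5, ← h7, ← h9]; exact hxy
        · rw [h3, h5, ← h7, ← h9]; exact hxy.symm
        · exact absurd (h7.trans h9.symm) hne2
      · rcases gpsi_eq_w h1.symm with ⟨h7, h8⟩ | ⟨h7, h8⟩ <;>
          rcases gpsi_eq_w h2.symm with ⟨h9, h10⟩ | ⟨h9, h10⟩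
        · exact absurd (h7.trans h9.symm) hne2
        · rw [h3, h5, ← h7, ← h9]; exact hxy.symm
        · rw [h3, h5, ← h7, ← h9]; exact hxy
        · exact absurd (h7.trans h9.symm) hne2
      · exact absurd (h3.trans h5.symm) hne'
    · rw [hy] at h2
      obtain ⟨h3, h4, h5, -⟩ := gpsi_eq_p h2.symm
      obtain ⟨h6, h7, h8, -⟩ := gpsi_eq_p hy
      subst h3; subst h4; subst h6; subst h7
      have : x = x' := gpsi_injective (hR.ne hij) (by rw [hx, ← h1])
      rw [this, h8, ← h5]; exact hxy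
  · rw [hx] at h1
    obtain ⟨h3, h4, h5, -⟩ := gpsi_eq_p h1.symm
    obtain ⟨h6, h7, h8, -⟩ := gpsi_eq_p hx
    subst h3; subst h4; subst h6; subst h7
    have : y = y' := gpsi_injective (hR.ne hij) h2
    rw [this, h8, ← h5]; exact hxy

theorem ghost_adj_p {i j : J} {x : W} {a : GV J W} (h : (ghost R H r b c).Adj (.p i j x) a) :
    R i j ∧ x ≠ r ∧ x ≠ b ∧ x ≠ c ∧ ∃ y, H.Adj x y ∧ a = gpsi r b c i j y := by
  obtain ⟨hne, k, l, x', y', hkl, hxy, h1, h2⟩ := h
  obtain ⟨h3, h4, h5, h6⟩ := gpsi_eq_p h1.symm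
  subst h3; subst h4; subst h5
  exact ⟨hkl, h6.1, h6.2.1, h6.2.2, y', hxy, h2⟩

/-- Two vertices of the host different from the apex which are adjacent lie in a piece, and one of
them is private. -/
theorem ghost_adj (hbc : ¬ H.Adj b c) {a a' : GV J W} (h : (ghost R H r b c).Adj a a')
    (ha : a ≠ .u) (ha' : a' ≠ .u) : ∃ i j x y, R i j ∧ H.Adj x y ∧ a = gpsi r b c i j x ∧
      a' = gpsi r b c i j y ∧ (a = .p i j x ∨ a' = .p i j y) := by
  obtain ⟨hne, i, j, x, y, hij, hxy, h1, h2⟩ := h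
  refine ⟨i, j, x, y, hij, hxy, h1, h2, ?_⟩
  have hxr : x ≠ r := by rintro rfl; exact ha (h1.trans (gpsi_r _ _))
  have hyr : y ≠ r := by rintro rfl; exact ha' (h2.trans (gpsi_r _ _))
  by_cases hx : x = b ∨ x = c
  · by_cases hy : y = b ∨ y = c
    · exfalso
      rcases hx with rfl | rfl <;> rcases hy with rfl | rfl
      · exact hxy.ne rfl
      · exact hbc hxy
      · exact hbc hxy.symm
      · exact hxy.ne rfl
    · right
      rw [h2]
      exact gpsi_p hyr (fun h => hy (Or.inl h)) (fun h => hy (Or.inr h)) i j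
  · left
    rw [h1]
    exact gpsi_p hxr (fun h => hx (Or.inl h)) (fun h => hx (Or.inr h)) i j

/-- The neighbours of the apex, if `r` has degree two. -/
theorem ghost_adj_u (hr : Two H r b c) {a : GV J W} (h : (ghost R H r b c).Adj .u a) :
    ∃ i, a = .w i := by
  obtain ⟨hne, i, j, x, y, hij, hxy, h1, h2⟩ := h
  have hxr : x = r := gpsi_eq_u h1.symm
  rw [hxr] at hxy
  rcases (hr.iff y).1 hxy with rfl | rfl
  · exact ⟨i, h2.trans (gpsi_b hr.adj_left.ne i j)⟩
  · exact ⟨j, h2.trans (gpsi_c hr.adj_right.ne hr.ne i j)⟩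

/-- The symmetrised conflict graph. -/
def RG (R : J → J → Prop) : SimpleGraph J where
  Adj i j := i ≠ j ∧ (R i j ∨ R j i)
  symm := ⟨fun _ _ h => ⟨h.1.symm, h.2.symm⟩⟩
  loopless := ⟨fun _ h => h.1 rfl⟩

end GHost

end Pool.Agent.StrongMax
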