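import Pool.Agent.Lib.StrongMax.Basic42

/-!
# Hosts with many private gadgets

The host consists of a graph `G0` on the vertices of `H` (the thin vertices) and, for every index
`i`, of many private copies of `H[D i]`, attached to the thin vertices by the relation `P i`.
-/

namespace Pool.Agent.StrongMax

open Cardinal

universe u

section Gadget

variable {W : Type u} (H G0 : SimpleGraph W) {ι : Type u} (D : ι → Set W)
  (P : ι → W → W → Prop) (Λ : Type u)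

/-- The adjacency relation of the host. -/
def gAdj : W ⊕ (ι × Λ × W) → W ⊕ (ι × Λ × W) → Prop
  | .inl x, .inl y => G0.Adj x y
  | .inr a, .inr b => a.1 = b.1 ∧ a.2.1 = b.2.1 ∧ a.2.2 ∈ D a.1 ∧ b.2.2 ∈ D a.1 ∧
      H.Adj a.2.2 b.2.2
  | .inl w, .inr a => a.2.2 ∈ D a.1 ∧ P a.1 a.2.2 w
  | .inr a, .inl w => a.2.2 ∈ D a.1 ∧ P a.1 a.2.2 w

/-- The host. -/
def gHost : SimpleGraph (W ⊕ (ι × Λ × W)) where
  Adj := gAdj H G0 D P Λ
  symm := ⟨by
    rintro (x | ⟨i, α, d⟩) (y | ⟨j, β, e⟩) h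
    · exact SimpleGraph.Adj.symm (G := G0) h
    · exact h
    · exact h
    · obtain ⟨h1, h2, h3, h4, h5⟩ := h
      simp only at h1 h2 h3 h4 h5
      subst h1
      subst h2
      exact ⟨rfl, rfl, h4, h3, h5.symm⟩⟩
  loopless := ⟨by
    rintro (x | ⟨i, α, d⟩) h
    · exact G0.irrefl h
    · exact H.irrefl h.2.2.2.2⟩

variable {H G0 D P Λ}

theorem gHost_inl_inl {x y : W} : (gHost H G0 D P Λ).Adj (.inl x) (.inl y) ↔ G0.Adj x y := Iff.rfl

theorem gHost_inl_inr {x : W} {a : ι × Λ × W} :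
    (gHost H G0 D P Λ).Adj (.inl x) (.inr a) ↔ a.2.2 ∈ D a.1 ∧ P a.1 a.2.2 x := Iff.rfl

theorem gHost_inr_inl {x : W} {a : ι × Λ × W} :
    (gHost H G0 D P Λ).Adj (.inr a) (.inl x) ↔ a.2.2 ∈ D a.1 ∧ P a.1 a.2.2 x := Iff.rfl

theorem gHost_inr_inr {a b : ι × Λ × W} :
    (gHost H G0 D P Λ).Adj (.inr a) (.inr b) ↔ a.1 = b.1 ∧ a.2.1 = b.2.1 ∧ a.2.2 ∈ D a.1 ∧
      b.2.2 ∈ D a.1 ∧ H.Adj a.2.2 b.2.2 := Iff.rfl

/-- Removing the thin edges. -/
theorem gHost_bot_of {v w : W ⊕ (ι × Λ × W)} (h : (gHost H G0 D P Λ).Adj v w)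
    (hv : ¬ ∃ x y, v = .inl x ∧ w = .inl y) : (gHost H ⊥ D P Λ).Adj v w := by
  rcases v with x | a <;> rcases w with y | b
  · exact absurd ⟨x, y, rfl, rfl⟩ hv
  · exact h
  · exact h
  · exact h

theorem gHost_of_bot {v w : W ⊕ (ι × Λ × W)} (h : (gHost H ⊥ D P Λ).Adj v w) :
    (gHost H G0 D P Λ).Adj v w := by
  rcases v with x | a <;> rcases w with y | b
  · exact absurd h (by simp [gHost_inl_inl])
  · exact h
  · exact h
  · exact h

variable (H G0 D P)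

/-- **The gadget theorem.** -/
theorem fails_of_gadgets_aux (Λ : Type u) (hΛ : #(Sym2 W ⊕ W) < #Λ) (hG0 : H ≤ G0)
    (h1 : ∀ φ : W → W ⊕ (ι × Λ × W), Function.Injective φ →
      (∀ a b, H.Adj a b → (gHost H ⊥ D P Λ).Adj (φ a) (φ b)) → False)
    (h2 : ∀ φ : W → W ⊕ (ι × Λ × W), Function.Injective φ →
      (∀ a b, H.Adj a b → (gHost H G0 D P Λ).Adj (φ a) (φ b)) →
      ∀ p q x y, H.Adj p q → φ p = .inl x → φ q = .inl y →
      ∃ i, (p ∈ D i ∨ q ∈ D i) ∧ ∀ z, z ∉ D i → ∀ d ∈ D i, H.Adj d z →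
        ∃ w, φ z = .inl w ∧ P i d w) : Fails.{u} H := by
  classical
  refine ⟨_, gHost H G0 D P Λ, fun F hF => ?_⟩
  obtain ⟨hFG, hFH, hmax⟩ := hF
  rw [hFree_iff] at hFH
  have hFG' : ∀ v w, s(v, w) ∈ F → (gHost H G0 D P Λ).Adj v w := fun v w h =>
    (SimpleGraph.mem_edgeSet _).1 (hFG h)
  -- the gadget edges
  let R : Set (Sym2 (W ⊕ (ι × Λ × W))) := (gHost H ⊥ D P Λ).edgeSet
  have hR : ∀ v w, s(v, w) ∈ R ↔ (gHost H ⊥ D P Λ).Adj v w := fun v w => Iff.rfl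
  have hRG : R ⊆ (gHost H G0 D P Λ).edgeSet := by
    intro e he
    induction e with
    | _ v w => exact gHost_of_bot he
  have hRH : HFree H R := by
    rw [hFree_iff]
    intro φ hφ hφa
    exact h1 φ hφ hφa
  have hR1 : #(↥(R \ F)) ≤ #(Sym2 W) := by
    refine (hmax R hRG hRH).trans ?_
    have hsub : F \ R ⊆ Set.range (Sym2.map (Sum.inl : W → W ⊕ (ι × Λ × W))) := by
      rintro e ⟨he, heR⟩
      induction e with
      | _ v w =>
        by_cases hvw : ∃ x y, v = .inl x ∧ w = .inl y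
        · obtain ⟨x, y, rfl, rfl⟩ := hvw
          exact ⟨s(x, y), rfl⟩
        · exact absurd (gHost_bot_of (hFG' _ _ he) hvw) heR
    exact (Cardinal.mk_le_mk_of_subset hsub).trans Cardinal.mk_range_le
  -- a missing thin edge
  obtain ⟨a, b, hab, hg⟩ : ∃ a b, H.Adj a b ∧ s((.inl a : W ⊕ (ι × Λ × W)), .inl b) ∉ F := by
    by_contra hcon
    push Not at hcon
    exact hFH _ Sum.inl_injective (fun a b hab => hcon a b hab)
  set g : Sym2 (W ⊕ (ι × Λ × W)) := s(.inl a, .inl b) with hgdef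
  have hgG : g ∈ (gHost H G0 D P Λ).edgeSet := hG0 hab
  obtain ⟨φ, hφ, hφa⟩ : ∃ φ : W → W ⊕ (ι × Λ × W), Function.Injective φ ∧
      ∀ a b, H.Adj a b → s(φ a, φ b) ∈ insert g F := by
    rw [← not_hFree_iff]
    intro hfree
    have h3 := hmax (insert g F) (Set.insert_subset hgG hFG) hfree
    have h4 : F \ insert g F = ∅ := by
      rw [Set.sdiff_eq_empty]
      exact Set.subset_insert g F
    have h6 : IsEmpty ↥(F \ insert g F) := by rw [h4]; exact Set.isEmpty_coe_sort.2 rfl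
    have h7 : #(↥(F \ insert g F)) = 0 := Cardinal.mk_eq_zero_iff.2 h6
    have h5 : IsEmpty ↥(insert g F \ F) :=
      Cardinal.mk_eq_zero_iff.1 (nonpos_iff_eq_zero.1 (h3.trans h7.le))
    exact h5.false ⟨g, Set.mem_insert g F, hg⟩
  have hφH : ∀ a b, H.Adj a b → (gHost H G0 D P Λ).Adj (φ a) (φ b) := by
    intro c d hcd
    rcases hφa c d hcd with h | h
    · have : s(φ c, φ d) ∈ (gHost H G0 D P Λ).edgeSet := by rw [h]; exact hgG
      exact this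
    · exact hFG' _ _ h
  -- the edge `g` is used
  obtain ⟨p, q, hpq, hpqg⟩ : ∃ p q, H.Adj p q ∧ s(φ p, φ q) = g := by
    by_contra hcon
    push Not at hcon
    exact hFH φ hφ (fun c d hcd => (hφa c d hcd).resolve_left (hcon c d hcd))
  have hpq' : ∃ x y, φ p = .inl x ∧ φ q = .inl y := by
    rw [hgdef, Sym2.eq_iff] at hpqg
    rcases hpqg with ⟨h3, h4⟩ | ⟨h3, h4⟩
    · exact ⟨a, b, h3, h4⟩
    · exact ⟨b, a, h3, h4⟩
  obtain ⟨x, y, hpx, hqy⟩ := hpq'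
  obtain ⟨i, hpqi, hiz⟩ := h2 φ hφ hφH p q x y hpq hpx hqy
  -- a good `α`
  let B1 : Set Λ := {α | ∃ d v, (gHost H ⊥ D P Λ).Adj (.inr (i, α, d)) v ∧
    s(.inr (i, α, d), v) ∉ F}
  let B2 : Set Λ := {α | ∃ z d, φ z = .inr (i, α, d)}
  have hB1 : #B1 ≤ #(Sym2 W) := by
    refine le_trans ?_ hR1
    have hch : ∀ α : B1, ∃ e : ↥(R \ F), ∃ d v, e.1 = s(.inr (i, α.1, d), v) := by
      rintro ⟨α, d, v, h3, h4⟩
      exact ⟨⟨s(.inr (i, α, d), v), h3, h4⟩, d, v, rfl⟩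
    choose E dd vv hE using hch
    refine Cardinal.mk_le_of_injective (f := E) (fun α β hαβ => ?_)
    have h3 : s((.inr (i, α.1, dd α) : W ⊕ (ι × Λ × W)), vv α) = s(.inr (i, β.1, dd β), vv β) := by
      rw [← hE α, ← hE β, hαβ]
    rw [Sym2.eq_iff] at h3
    rcases h3 with ⟨h4, -⟩ | ⟨h4, h5⟩
    · have := Sum.inr_injective h4
      exact Subtype.ext (congrArg (fun t => t.2.1) this)
    · have h6 : (gHost H ⊥ D P Λ).Adj (.inr (i, α.1, dd α)) (vv α) := by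
        have := (E α).2.1
        rw [hE α] at this
        exact this
      rw [h5, gHost_inr_inr] at h6
      exact Subtype.ext h6.2.1
  have hB2 : #B2 ≤ #W := by
    have hch : ∀ α : B2, ∃ z d, φ z = .inr (i, α.1, d) := fun α => α.2
    choose zz dd hzd using hch
    refine Cardinal.mk_le_of_injective (f := zz) (fun α β hαβ => ?_)
    have h3 : (.inr (i, α.1, dd α) : W ⊕ (ι × Λ × W)) = .inr (i, β.1, dd β) := by
      rw [← hzd α, ← hzd β, hαβ]
    have := Sum.inr_injective h3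
    exact Subtype.ext (congrArg (fun t => t.2.1) this)
  obtain ⟨α, hα⟩ : ∃ α : Λ, α ∉ B1 ∪ B2 := by
    by_contra hcon
    push Not at hcon
    have h3 : #Λ ≤ #(Sym2 W ⊕ W) := by
      calc #Λ = #(Set.univ : Set Λ) := by rw [Cardinal.mk_univ]
        _ ≤ #(↥(B1 ∪ B2)) := Cardinal.mk_le_mk_of_subset (fun α _ => hcon α)
        _ ≤ #B1 + #B2 := Cardinal.mk_union_le _ _
        _ ≤ #(Sym2 W) + #W := add_le_add hB1 hB2
        _ = #(Sym2 W ⊕ W) := by simp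
    exact absurd h3 (not_le.2 hΛ)
  have hα1 : ∀ d v, (gHost H ⊥ D P Λ).Adj (.inr (i, α, d)) v → s(.inr (i, α, d), v) ∈ F := by
    intro d v h
    by_contra hcon
    exact hα (Or.inl ⟨d, v, h, hcon⟩)
  have hα2 : ∀ z d, φ z ≠ .inr (i, α, d) := fun z d h => hα (Or.inr ⟨z, d, h⟩)
  -- the new copy
  let ψ : W → W ⊕ (ι × Λ × W) := fun z => if z ∈ D i then .inr (i, α, z) else φ z
  have hψ1 : ∀ z ∈ D i, ψ z = .inr (i, α, z) := fun z hz => if_pos hz
  have hψ2 : ∀ z, z ∉ D i → ψ z = φ z := fun z hz => if_neg hz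
  refine hFH ψ ?_ ?_
  · intro z z' hzz
    by_cases hz : z ∈ D i <;> by_cases hz' : z' ∈ D i
    · rw [hψ1 z hz, hψ1 z' hz'] at hzz
      have := Sum.inr_injective hzz
      exact congrArg (fun t => t.2.2) this
    · rw [hψ1 z hz, hψ2 z' hz'] at hzz
      exact absurd hzz.symm (hα2 z' z)
    · rw [hψ2 z hz, hψ1 z' hz'] at hzz
      exact absurd hzz (hα2 z z')
    · rw [hψ2 z hz, hψ2 z' hz'] at hzz
      exact hφ hzz
  · intro z z' hzz
    by_cases hz : z ∈ D i <;> by_cases hz' : z' ∈ D i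
    · rw [hψ1 z hz, hψ1 z' hz']
      exact hα1 _ _ (gHost_inr_inr.2 ⟨rfl, rfl, hz, hz', hzz⟩)
    · rw [hψ1 z hz, hψ2 z' hz']
      obtain ⟨w, hw, hPw⟩ := hiz z' hz' z hz hzz
      rw [hw]
      exact hα1 _ _ (gHost_inr_inl.2 ⟨hz, hPw⟩)
    · rw [hψ2 z hz, hψ1 z' hz']
      obtain ⟨w, hw, hPw⟩ := hiz z hz z' hz' hzz.symm
      rw [hw, Sym2.eq_swap]
      exact hα1 _ _ (gHost_inr_inl.2 ⟨hz', hPw⟩)
    · rw [hψ2 z hz, hψ2 z' hz']
      refine (hφa z z' hzz).resolve_left (fun h => ?_)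
      rw [← hpqg, Sym2.eq_iff] at h
      rcases h with ⟨h3, h4⟩ | ⟨h3, h4⟩
      · rcases hpqi with h5 | h5
        · exact hz (hφ h3 ▸ h5)
        · exact hz' (hφ h4 ▸ h5)
      · rcases hpqi with h5 | h5
        · exact hz' (hφ h4 ▸ h5)
        · exact hz (hφ h3 ▸ h5)

/-- **The gadget theorem.** -/
theorem fails_of_gadgets (hG0 : H ≤ G0)
    (h1 : ∀ (Λ : Type u) (φ : W → W ⊕ (ι × Λ × W)), Function.Injective φ →
      (∀ a b, H.Adj a b → (gHost H ⊥ D P Λ).Adj (φ a) (φ b)) → False)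
    (h2 : ∀ (Λ : Type u) (φ : W → W ⊕ (ι × Λ × W)), Function.Injective φ →
      (∀ a b, H.Adj a b → (gHost H G0 D P Λ).Adj (φ a) (φ b)) →
      ∀ p q x y, H.Adj p q → φ p = .inl x → φ q = .inl y →
      ∃ i, (p ∈ D i ∨ q ∈ D i) ∧ ∀ z, z ∉ D i → ∀ d ∈ D i, H.Adj d z →
        ∃ w, φ z = .inl w ∧ P i d w) : Fails.{u} H :=
  fails_of_gadgets_aux H G0 D P (Set (Sym2 W ⊕ W)) (by
    rw [Cardinal.mk_set]
    exact Cardinal.cantor _) hG0 (h1 _) (h2 _)

end Gadget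

end Pool.Agent.StrongMax
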