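import Pool.Agent.Lib.StrongMax.Base

/-!
# First host graph for trees of radius two (helper42)
-/

namespace Pool.Agent.StrongMax

universe u v

theorem finite_of_count_le {P : ℕ → Prop} (C : ℕ) (h : ∀ t, ∀ s : Finset ℕ, s ⊆ Finset.range t →
    (∀ i ∈ s, P i) → s.card ≤ C) : {i | P i}.Finite := by
  classical
  by_contra hinf
  obtain ⟨s, hs, hc⟩ := Set.Infinite.exists_subset_card_eq hinf (C + 1)
  have h1 := h (s.sup id + 1) s (fun i hi => by
    rw [Finset.mem_range]
    have : id i ≤ s.sup id := Finset.le_sup hi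
    simp only [id] at this
    omega) (fun i hi => hs hi)
  omega

namespace Host1

/-- Vertices of the host: gadgets `inl (i, a)` and clients `inr m`. -/
abbrev V (N : ℕ) := (ℕ × Fin (N + 1)) ⊕ ℕ

/-- The host: each gadget is complete, and the client `m` is joined to the vertex `0` of the gadget
`i` whenever `m ≤ i`. -/
def G (N : ℕ) : SimpleGraph (V N) where
  Adj a b := match a, b with
    | .inl x, .inl y => x.1 = y.1 ∧ x.2 ≠ y.2
    | .inl x, .inr m => x.2 = 0 ∧ m ≤ x.1
    | .inr m, .inl x => x.2 = 0 ∧ m ≤ x.1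
    | .inr _, .inr _ => False
  symm := ⟨by
    rintro (x | m) (y | n) h
    · exact ⟨h.1.symm, h.2.symm⟩
    · exact h
    · exact h
    · exact h⟩
  loopless := ⟨by
    rintro (x | m) h
    · exact h.2 rfl
    · exact h⟩

/-- The edge from the client `m` to the gadget `i`. -/
def ep (N m i : ℕ) : Sym2 (V N) := s(Sum.inr m, Sum.inl (i, 0))

/-- The edges of the gadget `i`. -/
def E (N i : ℕ) : Finset (Sym2 (V N)) :=
  (⊤ : SimpleGraph (Fin (N + 1))).edgeFinset.image (Sym2.map (fun a => Sum.inl (i, a)))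

theorem inl_inj (N i : ℕ) : Function.Injective (fun a : Fin (N + 1) => (Sum.inl (i, a) : V N)) := by
  intro a b h
  simpa using h

theorem card_E (N i : ℕ) : (E N i).card = (⊤ : SimpleGraph (Fin (N + 1))).edgeFinset.card :=
  Finset.card_image_of_injective _ (Sym2.map.injective (inl_inj N i))

theorem mem_E {N i : ℕ} {e : Sym2 (V N)} :
    e ∈ E N i ↔ ∃ a b : Fin (N + 1), a ≠ b ∧ e = s(Sum.inl (i, a), Sum.inl (i, b)) := by
  unfold E
  rw [Finset.mem_image]
  constructor
  · rintro ⟨e', he', rfl⟩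
    induction e' with
    | _ a b =>
      rw [SimpleGraph.mem_edgeFinset, SimpleGraph.mem_edgeSet, SimpleGraph.top_adj] at he'
      exact ⟨a, b, he', rfl⟩
  · rintro ⟨a, b, hab, rfl⟩
    exact ⟨s(a, b), by rwa [SimpleGraph.mem_edgeFinset, SimpleGraph.mem_edgeSet, SimpleGraph.top_adj], rfl⟩

theorem ep_inj {N m i m' i' : ℕ} (h : ep N m i = ep N m' i') : m = m' ∧ i = i' := by
  simp only [ep, Sym2.eq_iff] at h
  rcases h with ⟨h1, h2⟩ | ⟨h1, _⟩
  · simp only [Sum.inr.injEq] at h1
    simp only [Sum.inl.injEq, Prod.mk.injEq, and_true] at h2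
    exact ⟨h1, h2⟩
  · exact absurd h1 (by simp)

theorem ep_notMem_E {N m i j : ℕ} : ep N m i ∉ E N j := by
  rw [mem_E]
  rintro ⟨a, b, _, h⟩
  simp only [ep, Sym2.eq_iff] at h
  rcases h with ⟨h1, _⟩ | ⟨h1, _⟩ <;> exact absurd h1 (by simp)

theorem E_disj {N i j : ℕ} {e : Sym2 (V N)} (hi : e ∈ E N i) (hj : e ∈ E N j) : i = j := by
  rw [mem_E] at hi hj
  obtain ⟨a, b, _, rfl⟩ := hi
  obtain ⟨c, d, _, h⟩ := hj
  simp only [Sym2.eq_iff, Sum.inl.injEq, Prod.mk.injEq] at h
  rcases h with ⟨h, _⟩ | ⟨h, _⟩ <;> exact h.1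

theorem mem_edgeSet {N : ℕ} {e : Sym2 (V N)} :
    e ∈ (G N).edgeSet ↔ (∃ i, e ∈ E N i) ∨ ∃ m i, m ≤ i ∧ e = ep N m i := by
  constructor
  · intro he
    induction e with
    | _ a b =>
      rw [SimpleGraph.mem_edgeSet] at he
      rcases a with x | m <;> rcases b with y | n
      · left
        obtain ⟨h1, h2⟩ : x.1 = y.1 ∧ x.2 ≠ y.2 := he
        refine ⟨x.1, mem_E.2 ⟨x.2, y.2, h2, ?_⟩⟩
        rw [show ((x.1, y.2) : ℕ × Fin (N + 1)) = y from Prod.ext h1 rfl]
      · right
        obtain ⟨h1, h2⟩ : x.2 = 0 ∧ n ≤ x.1 := he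
        refine ⟨n, x.1, h2, ?_⟩
        unfold ep
        rw [Sym2.eq_swap, ← h1]
      · right
        obtain ⟨h1, h2⟩ : y.2 = 0 ∧ m ≤ y.1 := he
        refine ⟨m, y.1, h2, ?_⟩
        unfold ep
        rw [← h1]
      · exact absurd he id
  · rintro (⟨i, he⟩ | ⟨m, i, hmi, rfl⟩)
    · obtain ⟨a, b, hab, rfl⟩ := mem_E.1 he
      exact ⟨rfl, hab⟩
    · exact ⟨rfl, hmi⟩

section

variable {W : Type v} {H : SimpleGraph W} {z : W} {π : W → W}

open Classical in
/-- Closing the gadget `i`. -/
theorem close (hH : IsBase H z π) {N : ℕ} (hN : N + 2 = Nat.card W) {F : Set (Sym2 (V N))}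
    (hF : StronglyMaximal H (G N) F) (i : ℕ) :
    (E N i).card ≤ ((E N i).filter (fun e => e ∈ F)).card +
      ((Finset.range (i + 1)).filter (fun m => ep N m i ∈ F)).card := by
  set P := (Finset.range (i + 1)).filter (fun m => ep N m i ∈ F) with hP
  set B : Finset (Sym2 (V N)) := (E N i).filter (fun e => e ∈ F) ∪ P.image (fun m => ep N m i) with hB
  have h1 : (E N i).card ≤ B.card := by
    apply hF.exchange_fin
    · intro e he; exact mem_edgeSet.2 (Or.inl ⟨i, he⟩)
    · intro e he heF
      exact Finset.mem_union_left _ (Finset.mem_filter.2 ⟨he, heF⟩)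
    · rw [hFree_iff]
      intro f hf hfI
      have key : ∀ v w : V N, s(v, w) ∈ F \ ↑B ∪ ↑(E N i) →
          ((∃ a, v = Sum.inl (i, a)) ∧ (∃ a, w = Sum.inl (i, a))) ∨
          ((¬ ∃ a, v = Sum.inl (i, a)) ∧ (¬ ∃ a, w = Sum.inl (i, a)) ∧ s(v, w) ∈ F) := by
        rintro v w (⟨hF1, hB1⟩ | h)
        · right
          rcases mem_edgeSet.1 (hF.1 hF1) with ⟨j, hj⟩ | ⟨m, j, hmj, hj⟩
          · have hij : j ≠ i := by
              rintro rfl
              exact hB1 (Finset.mem_coe.2 (Finset.mem_union_left _ (Finset.mem_filter.2 ⟨hj, hF1⟩)))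
            obtain ⟨a, b, _, hab⟩ := mem_E.1 hj
            simp only [Sym2.eq_iff] at hab
            rcases hab with ⟨rfl, rfl⟩ | ⟨rfl, rfl⟩
            · refine ⟨?_, ?_, hF1⟩ <;> rintro ⟨c, hc⟩ <;>
                simp only [Sum.inl.injEq, Prod.mk.injEq] at hc <;> exact hij hc.1
            · refine ⟨?_, ?_, hF1⟩ <;> rintro ⟨c, hc⟩ <;>
                simp only [Sum.inl.injEq, Prod.mk.injEq] at hc <;> exact hij hc.1
          · have hij : j ≠ i := by
              rintro rfl
              apply hB1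
              refine Finset.mem_coe.2 (Finset.mem_union_right _ (Finset.mem_image.2 ⟨m, ?_, hj.symm⟩))
              rw [hP, Finset.mem_filter, Finset.mem_range]
              exact ⟨by omega, by rw [← hj]; exact hF1⟩
            simp only [ep, Sym2.eq_iff] at hj
            rcases hj with ⟨rfl, rfl⟩ | ⟨rfl, rfl⟩
            · refine ⟨?_, ?_, hF1⟩ <;> rintro ⟨c, hc⟩
              · exact absurd hc (by simp)
              · simp only [Sum.inl.injEq, Prod.mk.injEq] at hc; exact hij hc.1
            · refine ⟨?_, ?_, hF1⟩ <;> rintro ⟨c, hc⟩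
              · simp only [Sum.inl.injEq, Prod.mk.injEq] at hc; exact hij hc.1
              · exact absurd hc (by simp)
        · left
          obtain ⟨a, b, _, hab⟩ := mem_E.1 (Finset.mem_coe.1 h)
          simp only [Sym2.eq_iff] at hab
          rcases hab with ⟨rfl, rfl⟩ | ⟨rfl, rfl⟩
          · exact ⟨⟨_, rfl⟩, ⟨_, rfl⟩⟩
          · exact ⟨⟨_, rfl⟩, ⟨_, rfl⟩⟩
      have hconst := hH.const (fun x => ∃ a, f x = Sum.inl (i, a)) (fun a b hab => by
        rcases key _ _ (hfI a b hab) with ⟨h1, h2⟩ | ⟨h1, h2, _⟩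
        · exact propext ⟨fun _ => h2, fun _ => h1⟩
        · exact propext ⟨fun h => absurd h h1, fun h => absurd h h2⟩)
      by_cases hz : ∃ a, f z = Sum.inl (i, a)
      · have hall : ∀ x, ∃ a, f x = Sum.inl (i, a) := fun x => by
          have := hconst x
          rw [this]; exact hz
        choose g hg using hall
        have hgi : Function.Injective g := by
          intro x y hxy
          exact hf (by rw [hg x, hg y, hxy])
        have := Nat.card_le_card_of_injective g hgi
        rw [Nat.card_fin] at this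
        omega
      · refine hFree_iff.1 hF.2.1 f hf (fun a b hab => ?_)
        rcases key _ _ (hfI a b hab) with ⟨h1, _⟩ | ⟨_, _, h⟩
        · have := hconst a
          rw [this] at h1
          exact absurd h1 hz
        · exact h
  refine h1.trans ((Finset.card_union_le _ _).trans ?_)
  gcongr
  exact Finset.card_image_le

/-- A neighbour of a hub in `F` is not a hub. -/
theorem ne_hub {N : ℕ} {F : Set (Sym2 (V N))} (hFG : F ⊆ (G N).edgeSet) {v : V N} {i : ℕ}
    (h : s(v, Sum.inl (i, 0)) ∈ F) (j : ℕ) : (Sum.inl (j, 0) : V N) ≠ v := by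
  rintro rfl
  have h1 := hFG h
  rw [SimpleGraph.mem_edgeSet] at h1
  exact h1.2 rfl

/-- Degree of the hubs. -/
theorem deg_hub (hH : IsBase H z π) {N : ℕ} (hN : N + 2 = Nat.card W) {F : Set (Sym2 (V N))}
    (hF : StronglyMaximal H (G N) F) (i : ℕ) :
    (N : ℕ∞) ≤ {v : V N | s(v, Sum.inl (i, 0)) ∈ F}.encard := by
  classical
  have h1 := close hH hN hF i
  set P := (Finset.range (i + 1)).filter (fun m => ep N m i ∈ F) with hP
  have h2 : ((E N i).filter (fun e => e ∈ F)).card + ((E N i).filter (fun e => ¬ e ∈ F)).card =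
      (E N i).card := Finset.card_filter_add_card_filter_not _
  let I₀ : Finset (Fin (N + 1)) := Finset.univ.filter (fun a => a ≠ 0 ∧ s(Sum.inl (i, a), Sum.inl (i, 0)) ∈ F)
  let M₀ : Finset (Fin (N + 1)) := Finset.univ.filter (fun a => a ≠ 0 ∧ ¬ s(Sum.inl (i, a), Sum.inl (i, 0)) ∈ F)
  have h3 : I₀.card + M₀.card = N := by
    have e1 : I₀ = (Finset.univ.filter (fun a : Fin (N + 1) => a ≠ 0)).filter
        (fun a => s(Sum.inl (i, a), Sum.inl (i, 0)) ∈ F) := by
      rw [Finset.filter_filter]
    have e2 : M₀ = (Finset.univ.filter (fun a : Fin (N + 1) => a ≠ 0)).filter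
        (fun a => ¬ s(Sum.inl (i, a), Sum.inl (i, 0)) ∈ F) := by
      rw [Finset.filter_filter]
    rw [e1, e2, Finset.card_filter_add_card_filter_not, Finset.filter_ne', Finset.card_erase_of_mem (Finset.mem_univ _)]
    simp
  have h4 : M₀.card ≤ ((E N i).filter (fun e => ¬ e ∈ F)).card := by
    refine Finset.card_le_card_of_injOn (fun a => s(Sum.inl (i, a), Sum.inl (i, 0))) ?_ ?_
    · intro a ha
      have ha' := (Finset.mem_filter.1 ha).2
      exact Finset.mem_coe.2 (Finset.mem_filter.2 ⟨mem_E.2 ⟨a, 0, ha'.1, rfl⟩, ha'.2⟩)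
    · intro a ha b hb hab
      have ha' := (Finset.mem_filter.1 (Finset.mem_coe.1 ha)).2.1
      simp only [Sym2.eq_iff, Sum.inl.injEq, Prod.mk.injEq, true_and] at hab
      rcases hab with h | h
      · exact h.1
      · exact absurd h.1 ha'
  let S : Finset (V N) := I₀.image (fun a => Sum.inl (i, a)) ∪ P.image Sum.inr
  have h5 : S.card = I₀.card + P.card := by
    rw [Finset.card_union_of_disjoint, Finset.card_image_of_injective _ (inl_inj N i),
      Finset.card_image_of_injective _ Sum.inr_injective]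
    rw [Finset.disjoint_left]
    intro x hx hx'
    obtain ⟨a, _, rfl⟩ := Finset.mem_image.1 hx
    obtain ⟨b, _, hb⟩ := Finset.mem_image.1 hx'
    exact absurd hb (by simp)
  have h6 : (↑S : Set (V N)) ⊆ {v : V N | s(v, Sum.inl (i, 0)) ∈ F} := by
    intro x hx
    rcases Finset.mem_union.1 (Finset.mem_coe.1 hx) with h | h
    · obtain ⟨a, ha, rfl⟩ := Finset.mem_image.1 h
      exact (Finset.mem_filter.1 ha).2.2
    · obtain ⟨m, hm, rfl⟩ := Finset.mem_image.1 h
      exact (Finset.mem_filter.1 hm).2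
  calc (N : ℕ∞) ≤ (S.card : ℕ∞) := by
        have : N ≤ S.card := by omega
        exact_mod_cast this
    _ = (↑S : Set (V N)).encard := (Set.encard_coe_eq_coe_finsetCard S).symm
    _ ≤ _ := Set.encard_le_encard h6

/-- Degree of the clients. -/
theorem deg_client [Finite W] (hH : IsBase H z π) {N : ℕ} (hN : N + 2 = Nat.card W)
    (hk : 2 ≤ (Ch H z).ncard) {F : Set (Sym2 (V N))} (hF : StronglyMaximal H (G N) F) (m : ℕ) :
    {i | ep N m i ∈ F}.encard < ((Ch H z).ncard : ℕ∞) := by
  classical
  by_contra hcon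
  rw [not_lt] at hcon
  obtain ⟨g₀, hg₀, hg₀F⟩ := exists_sdr (ι := Ch H z) (fun _ => {i | ep N m i ∈ F}) (Ch H z).ncard
    (le_of_eq (Nat.card_coe_set_eq _)) (fun _ => hcon)
  let g : W → V N := fun x => if h : x ∈ Ch H z then Sum.inl (g₀ ⟨x, h⟩, 0) else Sum.inr m
  have hg : ∀ x (h : x ∈ Ch H z), g x = Sum.inl (g₀ ⟨x, h⟩, 0) := fun x h => dif_pos h
  refine hH.embed (F := F) (Sum.inr m) g
    (fun y => {v | s(v, g (π y)) ∈ F ∧ v ≠ Sum.inr m}) ?_ ?_ ?_ ?_ ?_ hF.2.1
  · intro x hx y hy hxy
    rw [hg x hx, hg y hy] at hxy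
    simp only [Sum.inl.injEq, Prod.mk.injEq, and_true] at hxy
    exact congrArg Subtype.val (hg₀ hxy)
  · intro x hx
    rw [hg x hx]
    exact hg₀F ⟨x, hx⟩
  · intro x hx
    rw [hg x hx]; simp
  · intro y hy
    have hπ : π y ∈ Ch H z := hH.gc1 y hy.1 hy.2
    have h1 := deg_hub hH hN hF (g₀ ⟨π y, hπ⟩)
    have h2 : {v : V N | s(v, Sum.inl (g₀ ⟨π y, hπ⟩, 0)) ∈ F} ⊆
        insert (Sum.inr m) {v | s(v, g (π y)) ∈ F ∧ v ≠ Sum.inr m} := by
      intro v hv
      by_cases hvm : v = Sum.inr m
      · exact Or.inl hvm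
      · exact Or.inr ⟨by rw [hg _ hπ]; exact hv, hvm⟩
    have h3 := h1.trans ((Set.encard_le_encard h2).trans (Set.encard_insert_le _ _))
    have hc := card_eq (H := H) (z := z)
    have h4 : (Gc H z).ncard + 1 ≤ N := by omega
    have h5 : (((Gc H z).ncard + 1 : ℕ) : ℕ∞) ≤
        {v | s(v, g (π y)) ∈ F ∧ v ≠ Sum.inr m}.encard + 1 := le_trans (by exact_mod_cast h4) h3
    push_cast at h5
    exact (ENat.add_le_add_iff_right (by simp)).1 h5
  · intro y hy v hv
    refine ⟨hv.1, hv.2, fun x hx => ?_⟩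
    have hπ : π y ∈ Ch H z := hH.gc1 y hy.1 hy.2
    have h1 := hv.1
    rw [hg _ hπ] at h1
    rw [hg x hx]
    exact ne_hub hF.1 h1 _

open Classical in
/-- An open gadget is not complete. -/
theorem open_gadget [Finite W] (hH : IsBase H z π) {N : ℕ} (hN : N + 2 = Nat.card W)
    (hσ : (Gc H z).Nonempty) {F : Set (Sym2 (V N))} (hF : HFree H F) {m i : ℕ}
    (hmi : ep N m i ∈ F) : ((E N i).filter (fun e => e ∈ F)).card + 1 ≤ (E N i).card := by
  by_contra hcon
  have hle : ((E N i).filter (fun e => e ∈ F)).card ≤ (E N i).card := Finset.card_filter_le _ _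
  have heq : (E N i).filter (fun e => e ∈ F) = E N i :=
    Finset.eq_of_subset_of_card_le (Finset.filter_subset _ _) (by omega)
  have hall : ∀ e ∈ E N i, e ∈ F := fun e he => by
    rw [← heq] at he; exact (Finset.mem_filter.1 he).2
  obtain ⟨y₀, hy₀⟩ := hσ
  have hπ : π y₀ ∈ Ch H z := hH.gc1 y₀ hy₀.1 hy₀.2
  have hxy : π y₀ ≠ y₀ := fun h => hy₀.2 (h ▸ hπ)
  have := Fintype.ofFinite W
  have hcard : Fintype.card {x : W // x ≠ y₀ ∧ x ≠ π y₀} = N := by
    rw [Fintype.card_subtype]
    have : (Finset.univ.filter (fun x : W => x ≠ y₀ ∧ x ≠ π y₀)) =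
        (Finset.univ.erase y₀).erase (π y₀) := by
      ext x; simp [and_comm]
    rw [this, Finset.card_erase_of_mem, Finset.card_erase_of_mem (Finset.mem_univ _),
      Finset.card_univ, ← Nat.card_eq_fintype_card]
    · omega
    · rw [Finset.mem_erase]; exact ⟨hxy, Finset.mem_univ _⟩
  let g₁ : {x : W // x ≠ y₀ ∧ x ≠ π y₀} ≃ Fin N := Fintype.equivFinOfCardEq hcard
  let f : W → V N := fun x => if h : x = y₀ then Sum.inr m else
    if h' : x = π y₀ then Sum.inl (i, 0) else Sum.inl (i, (g₁ ⟨x, h, h'⟩).succ)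
  have hf1 : f y₀ = Sum.inr m := dif_pos rfl
  have hf2 : f (π y₀) = Sum.inl (i, 0) := by simp only [f, dif_neg hxy, dif_pos]
  have hf3 : ∀ x (h : x ≠ y₀) (h' : x ≠ π y₀), f x = Sum.inl (i, (g₁ ⟨x, h, h'⟩).succ) := by
    intro x h h'; simp only [f, dif_neg h, dif_neg h']
  have hf4 : ∀ x, x ≠ y₀ → ∃ a, f x = Sum.inl (i, a) := by
    intro x h
    by_cases h' : x = π y₀
    · rw [h', hf2]; exact ⟨_, rfl⟩
    · rw [hf3 x h h']; exact ⟨_, rfl⟩
  have hfi : Function.Injective f := by
    intro x y h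
    by_cases hx : x = y₀ <;> by_cases hy : y = y₀
    · rw [hx, hy]
    · obtain ⟨a, ha⟩ := hf4 y hy
      rw [hx, hf1, ha] at h; exact absurd h (by simp)
    · obtain ⟨a, ha⟩ := hf4 x hx
      rw [hy, hf1, ha] at h; exact absurd h (by simp)
    · by_cases hx' : x = π y₀ <;> by_cases hy' : y = π y₀
      · rw [hx', hy']
      · rw [hx', hf2, hf3 y hy hy'] at h
        simp only [Sum.inl.injEq, Prod.mk.injEq, true_and] at h
        exact absurd h.symm (Fin.succ_ne_zero _)
      · rw [hy', hf2, hf3 x hx hx'] at h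
        simp only [Sum.inl.injEq, Prod.mk.injEq, true_and] at h
        exact absurd h (Fin.succ_ne_zero _)
      · rw [hf3 x hx hx', hf3 y hy hy'] at h
        simp only [Sum.inl.injEq, Prod.mk.injEq, true_and] at h
        exact congrArg Subtype.val (g₁.injective (Fin.succ_injective _ h))
  refine hFree_iff.1 hF f hfi (fun a b hab => ?_)
  by_cases ha : a = y₀
  · have hb : b = π y₀ := hH.gc3 y₀ hy₀.1 hy₀.2 b (ha ▸ hab)
    rw [ha, hb, hf1, hf2]; exact hmi
  by_cases hb : b = y₀
  · have ha' : a = π y₀ := hH.gc3 y₀ hy₀.1 hy₀.2 a (hb ▸ hab.symm)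
    rw [hb, ha', hf1, hf2, Sym2.eq_swap]; exact hmi
  · obtain ⟨c, hc⟩ := hf4 a ha
    obtain ⟨d, hd⟩ := hf4 b hb
    rw [hc, hd]
    refine hall _ (mem_E.2 ⟨c, d, ?_, rfl⟩)
    rintro rfl
    exact hab.ne (hfi (hc.trans hd.symm))

/-- The main exchange. -/
theorem main_ineq [Finite W] (hH : IsBase H z π) {N : ℕ} (hN : N + 2 = Nat.card W)
    (hk : 2 ≤ (Ch H z).ncard) (hkσ : (Ch H z).ncard ≤ (Gc H z).ncard + 1)
    {F : Set (Sym2 (V N))} (hF : StronglyMaximal H (G N) F) :
    ∃ C : ℕ, ∀ t, ∀ s₁ ⊆ Finset.range t, ∀ s₂ ⊆ Finset.range t,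
      (∀ i ∈ s₁, ∃ m, ep N m i ∈ F) → (∀ m ∈ s₂, ∀ i, ep N m i ∉ F) → s₁.card + s₂.card ≤ C := by
  classical
  obtain ⟨r, hr⟩ : ∃ r, (Ch H z).ncard = r + 1 := ⟨(Ch H z).ncard - 1, by omega⟩
  have hσ : (Gc H z).Nonempty := by
    rw [← Set.ncard_pos (Set.toFinite _)]; omega
  have hr1 : 1 ≤ r := by omega
  -- the neighbours of the clients
  have hD : ∀ m, {i | ep N m i ∈ F}.encard ≤ (r : ℕ∞) := by
    intro m
    have h := deg_client hH hN hk hF m
    rw [hr] at h
    push_cast at h
    exact ENat.lt_natCast_add_one_iff.1 h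
  have hDfin : ∀ m, {i | ep N m i ∈ F}.Finite := fun m =>
    Set.encard_ne_top_iff.1 (ne_top_of_le_ne_top (ENat.natCast_ne_top r) (hD m))
  let Df : ℕ → Finset ℕ := fun m => (hDfin m).toFinset
  have hDf : ∀ m i, i ∈ Df m ↔ ep N m i ∈ F := fun m i => by simp [Df]
  have hDc : ∀ m, (Df m).card ≤ r := by
    intro m
    have h := hD m
    rw [(hDfin m).encard_eq_coe_toFinset_card] at h
    exact_mod_cast h
  set e₀ := (⊤ : SimpleGraph (Fin (N + 1))).edgeFinset.card with he₀
  refine ⟨r * e₀ + r * r, fun t s₁ hs₁ s₂ hs₂ ho hc => ?_⟩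
  let A : Finset (Sym2 (V N)) := (Finset.range t).biUnion (E N) ∪
    ((Finset.range t) ×ˢ (Finset.Ico t (t + r))).image (fun p => ep N p.1 p.2)
  let B : Finset (Sym2 (V N)) := (Finset.range t).biUnion (fun i => (E N i).filter (fun e => e ∈ F)) ∪
    ((Finset.range t).biUnion (fun m => (Df m).image (ep N m)) ∪
      ((Finset.Ico t (t + r)).biUnion (E N) ∪
        ((Finset.Ico t (t + r)) ×ˢ (Finset.Ico t (t + r))).image (fun p => ep N p.1 p.2)))
  -- the exchange inequality
  have hAB : A.card ≤ B.card := by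
    apply hF.exchange_fin
    · intro e he
      rcases Finset.mem_union.1 he with h | h
      · obtain ⟨i, _, hi⟩ := Finset.mem_biUnion.1 h
        exact mem_edgeSet.2 (Or.inl ⟨i, hi⟩)
      · obtain ⟨p, hp, rfl⟩ := Finset.mem_image.1 h
        rw [Finset.mem_product, Finset.mem_range, Finset.mem_Ico] at hp
        exact mem_edgeSet.2 (Or.inr ⟨p.1, p.2, by omega, rfl⟩)
    · intro e he heF
      rcases Finset.mem_union.1 he with h | h
      · obtain ⟨i, hi, hie⟩ := Finset.mem_biUnion.1 h
        exact Finset.mem_union_left _ (Finset.mem_biUnion.2 ⟨i, hi, Finset.mem_filter.2 ⟨hie, heF⟩⟩)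
      · obtain ⟨p, hp, rfl⟩ := Finset.mem_image.1 h
        rw [Finset.mem_product] at hp
        refine Finset.mem_union_right _ (Finset.mem_union_left _ (Finset.mem_biUnion.2
          ⟨p.1, hp.1, Finset.mem_image.2 ⟨p.2, (hDf _ _).2 heF, rfl⟩⟩))
    · rw [hFree_iff]
      intro f hf hfI
      let Rest : V N → Prop := fun v => match v with
        | .inl x => t + r ≤ x.1
        | .inr m => t ≤ m
      have key : ∀ v w : V N, s(v, w) ∈ F \ ↑B ∪ ↑A →
          (∃ i, i < t ∧ (∃ a, v = Sum.inl (i, a)) ∧ (∃ b, w = Sum.inl (i, b))) ∨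
          (∃ m i, m < t ∧ t ≤ i ∧ i < t + r ∧
            ((v = Sum.inr m ∧ w = Sum.inl (i, 0)) ∨ (v = Sum.inl (i, 0) ∧ w = Sum.inr m))) ∨
          (Rest v ∧ Rest w ∧ s(v, w) ∈ F) := by
        rintro v w (⟨hF1, hB1⟩ | h)
        · right; right
          rcases mem_edgeSet.1 (hF.1 hF1) with ⟨j, hj⟩ | ⟨m, j, hmj, hj⟩
          · have hjt : t + r ≤ j := by
              by_contra hlt
              apply hB1
              rcases lt_or_ge j t with h | h
              · exact Finset.mem_coe.2 (Finset.mem_union_left _ (Finset.mem_biUnion.2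
                  ⟨j, Finset.mem_range.2 h, Finset.mem_filter.2 ⟨hj, hF1⟩⟩))
              · exact Finset.mem_coe.2 (Finset.mem_union_right _ (Finset.mem_union_right _
                  (Finset.mem_union_left _ (Finset.mem_biUnion.2
                  ⟨j, Finset.mem_Ico.2 ⟨h, by omega⟩, hj⟩))))
            obtain ⟨a, b, _, hab⟩ := mem_E.1 hj
            simp only [Sym2.eq_iff] at hab
            rcases hab with ⟨rfl, rfl⟩ | ⟨rfl, rfl⟩ <;> exact ⟨hjt, hjt, hF1⟩
          · have hmt : t ≤ m := by
              by_contra hlt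
              apply hB1
              refine Finset.mem_coe.2 (Finset.mem_union_right _ (Finset.mem_union_left _
                (Finset.mem_biUnion.2 ⟨m, Finset.mem_range.2 (by omega), Finset.mem_image.2
                ⟨j, (hDf _ _).2 (hj ▸ hF1), hj.symm⟩⟩)))
            have hjt : t + r ≤ j := by
              by_contra hlt
              apply hB1
              refine Finset.mem_coe.2 (Finset.mem_union_right _ (Finset.mem_union_right _
                (Finset.mem_union_right _ (Finset.mem_image.2 ⟨(m, j), ?_, hj.symm⟩))))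
              rw [Finset.mem_product, Finset.mem_Ico, Finset.mem_Ico]
              simp only
              omega
            simp only [ep, Sym2.eq_iff] at hj
            rcases hj with ⟨rfl, rfl⟩ | ⟨rfl, rfl⟩
            · exact ⟨hmt, hjt, hF1⟩
            · exact ⟨hjt, hmt, hF1⟩
        · rcases Finset.mem_union.1 (Finset.mem_coe.1 h) with h | h
          · left
            obtain ⟨i, hi, hie⟩ := Finset.mem_biUnion.1 h
            obtain ⟨a, b, _, hab⟩ := mem_E.1 hie
            simp only [Sym2.eq_iff] at hab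
            refine ⟨i, Finset.mem_range.1 hi, ?_⟩
            rcases hab with ⟨rfl, rfl⟩ | ⟨rfl, rfl⟩ <;> exact ⟨⟨_, rfl⟩, ⟨_, rfl⟩⟩
          · right; left
            obtain ⟨p, hp, hpe⟩ := Finset.mem_image.1 h
            rw [Finset.mem_product, Finset.mem_range, Finset.mem_Ico] at hp
            simp only [ep, Sym2.eq_iff] at hpe
            refine ⟨p.1, p.2, hp.1, hp.2.1, hp.2.2, ?_⟩
            rcases hpe with ⟨h1, h2⟩ | ⟨h1, h2⟩
            · exact Or.inl ⟨h1.symm, h2.symm⟩
            · exact Or.inr ⟨h2.symm, h1.symm⟩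
      let cl : V N → ℕ ⊕ Bool := fun v => match v with
        | .inl x => if x.1 < t then .inl x.1 else if x.1 < t + r then .inr true else .inr false
        | .inr m => if m < t then .inr true else .inr false
      have hclR : ∀ v, Rest v → cl v = .inr false := by
        rintro (x | m) h
        · have h' : t + r ≤ x.1 := h
          simp only [cl]
          rw [if_neg (by omega), if_neg (by omega)]
        · have h' : t ≤ m := h
          simp only [cl]
          rw [if_neg (by omega)]
      have hclQ : ∀ i (a : Fin (N + 1)), i < t → cl (Sum.inl (i, a)) = .inl i := by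
        intro i a h
        simp only [cl]
        rw [if_pos h]
      have hclB1 : ∀ i (a : Fin (N + 1)), t ≤ i → i < t + r → cl (Sum.inl (i, a)) = .inr true := by
        intro i a h h'
        simp only [cl]
        rw [if_neg (by omega), if_pos h']
      have hclB2 : ∀ m, m < t → cl (Sum.inr m) = .inr true := by
        intro m h
        simp only [cl]
        rw [if_pos h]
      have hconst := hH.const (fun x => cl (f x)) (fun a b hab => by
        rcases key _ _ (hfI a b hab) with ⟨i, hi, ⟨c, hc⟩, ⟨d, hd⟩⟩ | ⟨m, i, hm, hi1, hi2, h⟩ | ⟨h1, h2, _⟩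
        · exact ((congrArg cl hc).trans (hclQ i c hi)).trans
            ((congrArg cl hd).trans (hclQ i d hi)).symm
        · rcases h with ⟨h1, h2⟩ | ⟨h1, h2⟩
          · exact ((congrArg cl h1).trans (hclB2 m hm)).trans
              ((congrArg cl h2).trans (hclB1 i 0 hi1 hi2)).symm
          · exact ((congrArg cl h1).trans (hclB1 i 0 hi1 hi2)).trans
              ((congrArg cl h2).trans (hclB2 m hm)).symm
        · exact (hclR _ h1).trans (hclR _ h2).symm)
      -- find the class by looking at an edge at z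
      obtain ⟨y₀, hy₀⟩ := hσ
      have hπ : π y₀ ∈ Ch H z := hH.gc1 y₀ hy₀.1 hy₀.2
      rcases key _ _ (hfI z (π y₀) hπ) with ⟨i, hi, ⟨c, hc⟩, _⟩ | ⟨m, i, hm, hi1, hi2, h⟩ | ⟨h1, _, _⟩
      · -- inside a closed gadget
        have hz : cl (f z) = .inl i := by rw [hc]; exact hclQ i c hi
        have hall : ∀ x, ∃ a, f x = Sum.inl (i, a) := fun x => by
          have h1 : cl (f x) = .inl i := (hconst x).trans hz
          rcases hfx : f x with y | n
          · rw [hfx] at h1
            simp only [cl] at h1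
            split at h1
            · simp only [Sum.inl.injEq] at h1
              exact ⟨y.2, by rw [← h1]⟩
            · split at h1 <;> exact absurd h1 (by simp)
          · rw [hfx] at h1
            simp only [cl] at h1
            split at h1 <;> exact absurd h1 (by simp)
        choose g hg using hall
        have hgi : Function.Injective g := by
          intro x y hxy
          exact hf (by rw [hg x, hg y, hxy])
        have := Nat.card_le_card_of_injective g hgi
        rw [Nat.card_fin] at this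
        omega
      · -- inside the block
        have hz : cl (f z) = .inr true := by
          rcases h with ⟨h1, _⟩ | ⟨h1, _⟩
          · rw [h1]; exact hclB2 m hm
          · rw [h1]; exact hclB1 i 0 hi1 hi2
        refine hH.no_bip (r := r) (by omega) (by omega) f hf
          (↑((Finset.Ico t (t + r)).image (fun i => (Sum.inl (i, 0) : V N)))) ?_ ?_
        · rw [Set.encard_coe_eq_coe_finsetCard]
          have : ((Finset.Ico t (t + r)).image (fun i => (Sum.inl (i, 0) : V N))).card ≤ r :=
            Finset.card_image_le.trans (by simp)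
          exact_mod_cast this
        · intro a b hab
          have hcl : cl (f a) = .inr true := (hconst a).trans hz
          rcases key _ _ (hfI a b hab) with ⟨i, hi, ⟨c, hc⟩, _⟩ | ⟨m, i, hm, hi1, hi2, h⟩ | ⟨h1, _, _⟩
          · rw [hc, hclQ i c hi] at hcl; exact absurd hcl (by simp)
          · rcases h with ⟨h1, h2⟩ | ⟨h1, h2⟩
            · rw [h1, h2]
              simp only [Finset.coe_image, Set.mem_image, Finset.coe_Ico, Set.mem_Ico, Sum.inl.injEq,
                Prod.mk.injEq, and_true, exists_eq_right, reduceCtorEq, and_false, exists_false,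
                false_iff, not_not]
              exact ⟨hi1, hi2⟩
            · rw [h1, h2]
              simp only [Finset.coe_image, Set.mem_image, Finset.coe_Ico, Set.mem_Ico, Sum.inl.injEq,
                Prod.mk.injEq, and_true, exists_eq_right, reduceCtorEq, and_false, exists_false,
                not_false_iff, iff_true]
              exact ⟨hi1, hi2⟩
          · rw [hclR _ h1] at hcl; exact absurd hcl (by simp)
      · -- in the rest
        have hz : cl (f z) = .inr false := hclR _ h1
        refine hFree_iff.1 hF.2.1 f hf (fun a b hab => ?_)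
        have hcl : cl (f a) = .inr false := (hconst a).trans hz
        rcases key _ _ (hfI a b hab) with ⟨i, hi, ⟨c, hc⟩, _⟩ | ⟨m, i, hm, hi1, hi2, h⟩ | ⟨_, _, h⟩
        · rw [hc, hclQ i c hi] at hcl; exact absurd hcl (by simp)
        · rcases h with ⟨h1, _⟩ | ⟨h1, _⟩
          · rw [h1, hclB2 m hm] at hcl; exact absurd hcl (by simp)
          · rw [h1, hclB1 i 0 hi1 hi2] at hcl; exact absurd hcl (by simp)
        · exact h
  -- the cardinality of A
  have hA : A.card = t * e₀ + t * r := by
    rw [Finset.card_union_of_disjoint, Finset.card_biUnion, Finset.sum_congr rfl (fun i _ => card_E N i),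
      Finset.sum_const, Finset.card_range, smul_eq_mul, Finset.card_image_of_injective,
      Finset.card_product, Finset.card_range, Nat.card_Ico]
    · simp only [Nat.add_sub_cancel_left]; rfl
    · rintro ⟨a, b⟩ ⟨c, d⟩ h
      obtain ⟨h1, h2⟩ := ep_inj h
      simp only at h1 h2
      rw [h1, h2]
    · intro i _ j _ hij
      refine Finset.disjoint_left.2 fun e he he' => hij (E_disj he he')
    · rw [Finset.disjoint_left]
      intro e he he'
      obtain ⟨i, _, hi⟩ := Finset.mem_biUnion.1 he
      obtain ⟨p, _, rfl⟩ := Finset.mem_image.1 he'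
      exact ep_notMem_E hi
  have hB : B.card ≤ (∑ i ∈ Finset.range t, ((E N i).filter (fun e => e ∈ F)).card) +
      ((∑ m ∈ Finset.range t, (Df m).card) + (r * e₀ + r * r)) := by
    refine (Finset.card_union_le _ _).trans ?_
    gcongr
    · exact Finset.card_biUnion_le
    · refine (Finset.card_union_le _ _).trans ?_
      gcongr
      · refine Finset.card_biUnion_le.trans ?_
        gcongr
        exact Finset.card_image_le
      · refine (Finset.card_union_le _ _).trans ?_
        gcongr
        · refine Finset.card_biUnion_le.trans ?_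
          rw [Finset.sum_congr rfl (fun i _ => card_E N i), Finset.sum_const, Nat.card_Ico, smul_eq_mul]
          simp [he₀]
        · refine Finset.card_image_le.trans ?_
          rw [Finset.card_product, Nat.card_Ico]
          simp
  -- individual gains
  have h1 : (∑ i ∈ Finset.range t, ((E N i).filter (fun e => e ∈ F)).card) + s₁.card ≤ t * e₀ := by
    have e1 : s₁.card = ∑ i ∈ Finset.range t, if i ∈ s₁ then 1 else 0 := by
      rw [Finset.sum_ite_mem, Finset.inter_eq_right.2 hs₁, Finset.sum_const, smul_eq_mul, mul_one]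
    have e2 : t * e₀ = ∑ i ∈ Finset.range t, e₀ := by
      rw [Finset.sum_const, Finset.card_range, smul_eq_mul]
    rw [e1, e2, ← Finset.sum_add_distrib]
    refine Finset.sum_le_sum fun i _ => ?_
    rw [he₀, ← card_E N i]
    split
    · rename_i hi
      obtain ⟨m, hm⟩ := ho i hi
      exact open_gadget hH hN hσ hF.2.1 hm
    · rw [add_zero]; exact Finset.card_filter_le _ _
  have h2 : (∑ m ∈ Finset.range t, (Df m).card) + s₂.card ≤ t * r := by
    have e1 : s₂.card = ∑ i ∈ Finset.range t, if i ∈ s₂ then 1 else 0 := by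
      rw [Finset.sum_ite_mem, Finset.inter_eq_right.2 hs₂, Finset.sum_const, smul_eq_mul, mul_one]
    have e2 : t * r = ∑ i ∈ Finset.range t, r := by
      rw [Finset.sum_const, Finset.card_range, smul_eq_mul]
    rw [e1, e2, ← Finset.sum_add_distrib]
    refine Finset.sum_le_sum fun m _ => ?_
    split
    · rename_i hm
      have : Df m = ∅ := by
        rw [Finset.eq_empty_iff_forall_notMem]
        intro i hi
        exact hc m hm i ((hDf m i).1 hi)
      rw [this]; simpa using hr1
    · rw [add_zero]; exact hDc m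
  omega

/-- Trees of radius two whose centre has at most `σ + 1` children, where `σ` is the number of
grandchildren, fail. -/
theorem fails [Finite W] (hH : IsBase H z π) (hk : 2 ≤ (Ch H z).ncard)
    (hkσ : (Ch H z).ncard ≤ (Gc H z).ncard + 1) : Fails.{0} H := by
  have hcard := card_eq (H := H) (z := z)
  obtain ⟨N, hN⟩ : ∃ N, N + 2 = Nat.card W := ⟨Nat.card W - 2, by omega⟩
  refine ⟨V N, G N, fun F hF => ?_⟩
  obtain ⟨C, hC⟩ := main_ineq hH hN hk hkσ hF
  have hO : {i | ∃ m, ep N m i ∈ F}.Finite := finite_of_count_le C (fun t s hs hsO => by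
    have := hC t s hs ∅ (Finset.empty_subset _) hsO (by simp)
    simpa using this)
  have hZ : {m | ∀ i, ep N m i ∉ F}.Finite := finite_of_count_le C (fun t s hs hsO => by
    have := hC t ∅ (Finset.empty_subset _) s hs (by simp) hsO
    simpa using this)
  obtain ⟨b₁, hb₁⟩ := hO.bddAbove
  obtain ⟨b₂, hb₂⟩ := hZ.bddAbove
  -- the client b₁ + b₂ + 1
  have h1 : ¬ ∀ i, ep N (b₁ + b₂ + 1) i ∉ F := fun h => by
    have : b₁ + b₂ + 1 ≤ b₂ := hb₂ h
    omega
  push Not at h1
  obtain ⟨i, hi⟩ := h1
  have h2 : i ≤ b₁ := hb₁ ⟨_, hi⟩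
  rcases mem_edgeSet.1 (hF.1 hi) with ⟨j, hj⟩ | ⟨m, j, hmj, hj⟩
  · exact ep_notMem_E hj
  · obtain ⟨h3, h4⟩ := ep_inj hj
    omega

end

end Host1

end Pool.Agent.StrongMax
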