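import Pool.Agent.Lib.StrongMax.Host1

/-!
# Second host graph for trees of radius two (helper42)
-/

namespace Pool.Agent.StrongMax

universe u v

namespace Host2

/-- Vertices of the second host. -/
inductive V (K : ℕ) : Type
  | hub (i : ℕ)
  | cli (m : ℕ)
  | rich (i : ℕ) (j : Fin K)
  | leaf (i : ℕ) (j : Fin K) (α : Set ℕ)

open V

/-- The second host: the hub `i` is joined to `K` rich vertices, each with uncountably many leaves,
and to the clients `m ≤ i`. -/
def G (K : ℕ) : SimpleGraph (V K) where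
  Adj a b := match a, b with
    | hub i, cli m => m ≤ i
    | cli m, hub i => m ≤ i
    | hub i, rich i' _ => i = i'
    | rich i' _, hub i => i = i'
    | rich i j, leaf i' j' _ => i = i' ∧ j = j'
    | leaf i' j' _, rich i j => i = i' ∧ j = j'
    | _, _ => False
  symm := ⟨by
    intro a b h
    cases a <;> cases b <;> exact h⟩
  loopless := ⟨by
    intro a h
    cases a <;> exact h⟩

variable {K : ℕ}

/-- client edge -/
def ep (m i : ℕ) : Sym2 (V K) := s(cli m, hub i)
/-- rich edge -/
def er (i : ℕ) (j : Fin K) : Sym2 (V K) := s(hub i, rich i j)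
/-- leaf edge -/
def el (i : ℕ) (j : Fin K) (α : Set ℕ) : Sym2 (V K) := s(rich i j, leaf i j α)

theorem mem_edgeSet {e : Sym2 (V K)} : e ∈ (G K).edgeSet ↔
    (∃ m i, m ≤ i ∧ e = ep m i) ∨ (∃ i j, e = er i j) ∨ (∃ i j α, e = el i j α) := by
  constructor
  · intro he
    induction e with
    | _ a b =>
      rw [SimpleGraph.mem_edgeSet] at he
      cases a <;> cases b <;> first | exact absurd he id | skip
      · rename_i i m; exact Or.inl ⟨m, i, he, Sym2.eq_swap⟩
      · rename_i i i' j
        have h : i = i' := he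
        subst h; exact Or.inr (Or.inl ⟨i, j, rfl⟩)
      · rename_i m i; exact Or.inl ⟨m, i, he, rfl⟩
      · rename_i i' j i
        have h : i = i' := he
        subst h; exact Or.inr (Or.inl ⟨i, j, Sym2.eq_swap⟩)
      · rename_i i j i' j' α
        have h : i = i' ∧ j = j' := he
        obtain ⟨rfl, rfl⟩ := h
        exact Or.inr (Or.inr ⟨i, j, α, rfl⟩)
      · rename_i i' j' α i j
        have h : i = i' ∧ j = j' := he
        obtain ⟨rfl, rfl⟩ := h
        exact Or.inr (Or.inr ⟨i, j, α, Sym2.eq_swap⟩)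
  · rintro (⟨m, i, h, rfl⟩ | ⟨i, j, rfl⟩ | ⟨i, j, α, rfl⟩)
    · exact h
    · exact rfl
    · exact ⟨rfl, rfl⟩

theorem ep_inj {m i m' i' : ℕ} (h : (ep m i : Sym2 (V K)) = ep m' i') : m = m' ∧ i = i' := by
  simp only [ep, Sym2.eq_iff, cli.injEq, hub.injEq, reduceCtorEq, and_self, or_false] at h
  exact h

theorem er_inj {i i' : ℕ} {j j' : Fin K} (h : er i j = er i' j') : i = i' ∧ j = j' := by
  simp only [er, Sym2.eq_iff, rich.injEq, hub.injEq, reduceCtorEq, and_self, or_false] at h
  exact h.2

theorem el_inj {i i' : ℕ} {j j' : Fin K} {α α' : Set ℕ} (h : el i j α = el i' j' α') :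
    i = i' ∧ j = j' ∧ α = α' := by
  simp only [el, Sym2.eq_iff, rich.injEq, leaf.injEq, reduceCtorEq, and_self, or_false] at h
  exact h.2

theorem ep_ne_er {m i i' : ℕ} {j : Fin K} : (ep m i : Sym2 (V K)) ≠ er i' j := by
  simp [ep, er]

theorem ep_ne_el {m i i' : ℕ} {j : Fin K} {α : Set ℕ} : (ep m i : Sym2 (V K)) ≠ el i' j α := by
  simp [ep, el]

theorem er_ne_el {i i' : ℕ} {j j' : Fin K} {α : Set ℕ} : (er i j : Sym2 (V K)) ≠ el i' j' α := by
  simp [er, el]

section

variable {W : Type v} {H : SimpleGraph W} {z : W} {π : W → W}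

/-- The children of the centre that have a grandchild. -/
def X (H : SimpleGraph W) (z : W) (π : W → W) : Set W := {x | ∃ y ∈ Gc H z, π y = x}

/-- `H` does not embed using rich and leaf edges only. -/
theorem no_closed [Finite W] (hH : IsBase H z π) (hk : K < (Ch H z).ncard) (hX : 2 ≤ (X H z π).ncard)
    (f : W → V K) (hf : Function.Injective f)
    (h : ∀ a b, H.Adj a b → (∃ i j, s(f a, f b) = er i j) ∨ (∃ i j α, s(f a, f b) = el i j α)) :
    False := by
  classical
  obtain ⟨x₁, hx₁, x₂, hx₂, hx⟩ := (Set.one_lt_ncard (Set.toFinite _)).1 (show 1 < (X H z π).ncard by omega)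
  obtain ⟨y₁, hy₁, rfl⟩ := hx₁
  obtain ⟨y₂, hy₂, rfl⟩ := hx₂
  have hz1 : H.Adj z (π y₁) := hH.gc1 y₁ hy₁.1 hy₁.2
  have hz2 : H.Adj z (π y₂) := hH.gc1 y₂ hy₂.1 hy₂.2
  have hxy1 : H.Adj (π y₁) y₁ := (hH.gc2 y₁ hy₁.1 hy₁.2).symm
  have hxy2 : H.Adj (π y₂) y₂ := (hH.gc2 y₂ hy₂.1 hy₂.2).symm
  -- a leaf has only one neighbour
  have hleaf : ∀ a b i j α, H.Adj a b → f a = leaf i j α → f b = rich i j := by
    intro a b i j α hab ha
    rcases h a b hab with ⟨i', j', h'⟩ | ⟨i', j', α', h'⟩
    · rw [ha] at h'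
      simp [er] at h'
    · rw [ha] at h'
      simp only [el, Sym2.eq_iff, reduceCtorEq, false_and, leaf.injEq, false_or] at h'
      rw [h'.1.1, h'.1.2.1]; exact h'.2
  have key : ∀ y, H.Adj z (π y) → H.Adj (π y) y → y ≠ z → ∀ i j α, f (π y) ≠ leaf i j α := by
    intro y h1 h2 h3 i j α h4
    exact h3 (hf ((hleaf _ _ _ _ _ h2 h4).trans (hleaf _ _ _ _ _ h1.symm h4).symm))
  rcases hfz : f z with i | m | ⟨i, j⟩ | ⟨i, j, α⟩
  · -- the centre at a hub
    have h1 : ∀ x : Ch H z, ∃ j, f x = rich i j := by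
      rintro ⟨x, hx⟩
      rcases h z x hx with ⟨i', j', h'⟩ | ⟨i', j', α', h'⟩
      · rw [hfz] at h'
        simp only [er, Sym2.eq_iff, reduceCtorEq, false_and, hub.injEq, or_false] at h'
        rw [h'.1]; exact ⟨j', h'.2⟩
      · rw [hfz] at h'
        simp [el] at h'
    choose g hg using h1
    have hgi : Function.Injective g := by
      intro x y hxy
      exact Subtype.ext (hf (by rw [hg x, hg y, hxy]))
    have := Nat.card_le_card_of_injective g hgi
    rw [Nat.card_fin, Nat.card_coe_set_eq] at this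
    omega
  · -- the centre at a client
    rcases h z _ hz1 with ⟨i', j', h'⟩ | ⟨i', j', α', h'⟩
    · rw [hfz] at h'
      simp [er] at h'
    · rw [hfz] at h'
      simp [el] at h'
  · -- the centre at a rich vertex
    have h1 : ∀ y, H.Adj z (π y) → H.Adj (π y) y → y ≠ z → f (π y) = hub i := by
      intro y h1 h2 h3
      rcases h z _ h1 with ⟨i', j', h'⟩ | ⟨i', j', α', h'⟩
      · rw [hfz] at h'
        simp only [er, Sym2.eq_iff, reduceCtorEq, false_and, rich.injEq, false_or] at h'
        rw [h'.1.1]; exact h'.2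
      · rw [hfz] at h'
        simp only [el, Sym2.eq_iff, reduceCtorEq, false_and, or_false] at h'
        exact absurd h'.2 (key y h1 h2 h3 _ _ _)
    exact hx (hf ((h1 y₁ hz1 hxy1 hy₁.1).trans (h1 y₂ hz2 hxy2 hy₂.1).symm))
  · -- the centre at a leaf
    exact hx (hf ((hleaf _ _ _ _ _ hz1 hfz).trans (hleaf _ _ _ _ _ hz2 hfz).symm))

open Cardinal in
/-- Each rich vertex has infinitely many leaves in `F`. -/
theorem leaves_infinite [Finite W] (hH : IsBase H z π) (hk : K < (Ch H z).ncard)
    (hX : 2 ≤ (X H z π).ncard) {F : Set (Sym2 (V K))} (hF : StronglyMaximal H (G K) F)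
    (i : ℕ) (j : Fin K) : {α | el i j α ∈ F}.Infinite := by
  intro hfin
  let L : Set (Sym2 (V K)) := {e | ∃ i j α, e = el i j α}
  have hLG : L ⊆ (G K).edgeSet := by
    rintro e ⟨i, j, α, rfl⟩; exact mem_edgeSet.2 (Or.inr (Or.inr ⟨i, j, α, rfl⟩))
  have hLfree : HFree H L := by
    rw [hFree_iff]
    intro f hf hfL
    exact no_closed hH hk hX f hf (fun a b hab => Or.inr (hfL a b hab))
  have h1 := hF.2.2 L hLG hLfree
  have h2 : #(↥({α | el i j α ∈ F}ᶜ : Set (Set ℕ))) = #(Set ℕ) := Cardinal.mk_compl_of_infinite _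
    (lt_of_lt_of_le (Cardinal.lt_aleph0_iff_set_finite.2 hfin) (Cardinal.aleph0_le_mk _))
  have h3 : #(Set ℕ) ≤ #(↥(L \ F)) := by
    rw [← h2]
    refine Cardinal.mk_le_of_injective (f := fun α => ⟨el i j α.1, ⟨⟨i, j, α.1, rfl⟩, α.2⟩⟩) ?_
    intro s t h
    exact Subtype.ext (el_inj (congrArg Subtype.val h)).2.2
  have h4 : #(↥(F \ L)) ≤ #((ℕ × ℕ) ⊕ (ℕ × Fin K)) := by
    have : ∀ e : ↥(F \ L), ∃ x : (ℕ × ℕ) ⊕ (ℕ × Fin K),
        e.1 = Sum.elim (fun p => ep p.1 p.2) (fun p => er p.1 p.2) x := by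
      rintro ⟨e, heF, heL⟩
      rcases mem_edgeSet.1 (hF.1 heF) with ⟨m, i, _, h⟩ | ⟨i, j, h⟩ | h
      · exact ⟨Sum.inl (m, i), h⟩
      · exact ⟨Sum.inr (i, j), h⟩
      · exact absurd h heL
    choose g hg using this
    refine Cardinal.mk_le_of_injective (f := g) ?_
    intro a b h
    exact Subtype.ext (by rw [hg a, hg b, h])
  have h5 : #((ℕ × ℕ) ⊕ (ℕ × Fin K)) ≤ ℵ₀ := Cardinal.mk_le_aleph0
  have h6 : ℵ₀ < #(Set ℕ) := by
    rw [Cardinal.mk_set, Cardinal.mk_nat]
    exact Cardinal.cantor _
  exact absurd (h3.trans (h1.trans (h4.trans h5))) (not_le.2 h6)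

open Classical in
/-- The rich edges at the hub `i`. -/
noncomputable def E (K i : ℕ) : Finset (Sym2 (V K)) := Finset.univ.image (fun j : Fin K => er i j)

theorem card_E (i : ℕ) : (E K i).card = K := by
  classical
  unfold E
  rw [Finset.card_image_of_injective _ (fun j j' h => (er_inj h).2), Finset.card_univ,
    Fintype.card_fin]

theorem mem_E {i : ℕ} {e : Sym2 (V K)} : e ∈ E K i ↔ ∃ j, e = er i j := by
  classical
  unfold E
  rw [Finset.mem_image]
  constructor
  · rintro ⟨j, _, rfl⟩; exact ⟨j, rfl⟩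
  · rintro ⟨j, rfl⟩; exact ⟨j, Finset.mem_univ _, rfl⟩

open Classical in
/-- The number of rich edges of `F` at the hub `i`. -/
noncomputable def aa (F : Set (Sym2 (V K))) (i : ℕ) : ℕ := ((E K i).filter (fun e => e ∈ F)).card

open Classical in
/-- The clients attached to the hub `i`. -/
noncomputable def P (F : Set (Sym2 (V K))) (i : ℕ) : Finset ℕ :=
  (Finset.range (i + 1)).filter (fun m => ep m i ∈ F)

theorem mem_P {F : Set (Sym2 (V K))} (hFG : F ⊆ (G K).edgeSet) {i m : ℕ} :
    m ∈ P F i ↔ ep m i ∈ F := by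
  classical
  unfold P
  rw [Finset.mem_filter, Finset.mem_range]
  refine ⟨fun h => h.2, fun h => ⟨?_, h⟩⟩
  rcases mem_edgeSet.1 (hFG h) with ⟨m', i', h1, h2⟩ | ⟨i', j, h2⟩ | ⟨i', j, α, h2⟩
  · obtain ⟨rfl, rfl⟩ := ep_inj h2; omega
  · exact absurd h2 ep_ne_er
  · exact absurd h2 ep_ne_el

/-- The class of the hub `i`. -/
def inHub (i : ℕ) : V K → Prop
  | hub i' => i' = i
  | cli _ => False
  | rich i' _ => i' = i
  | leaf i' _ _ => i' = i

/-- Closing the hub `i`. -/
theorem close [Finite W] (hH : IsBase H z π) (hk : K < (Ch H z).ncard) (hX : 2 ≤ (X H z π).ncard)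
    {F : Set (Sym2 (V K))} (hF : StronglyMaximal H (G K) F) (i : ℕ) :
    K ≤ aa F i + (P F i).card := by
  classical
  set B : Finset (Sym2 (V K)) := (E K i).filter (fun e => e ∈ F) ∪ (P F i).image (fun m => ep m i) with hB
  have h1 : (E K i).card ≤ B.card := by
    apply hF.exchange_fin
    · intro e he
      obtain ⟨j, rfl⟩ := mem_E.1 he
      exact mem_edgeSet.2 (Or.inr (Or.inl ⟨i, j, rfl⟩))
    · intro e he heF
      exact Finset.mem_union_left _ (Finset.mem_filter.2 ⟨he, heF⟩)
    · rw [hFree_iff]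
      intro f hf hfI
      have key : ∀ v w : V K, s(v, w) ∈ F \ ↑B ∪ ↑(E K i) →
          (inHub i v ∧ inHub i w ∧ ((∃ i j, s(v, w) = er i j) ∨ (∃ i j α, s(v, w) = el i j α))) ∨
          (¬ inHub i v ∧ ¬ inHub i w ∧ s(v, w) ∈ F) := by
        rintro v w (⟨hF1, hB1⟩ | h)
        · rcases mem_edgeSet.1 (hF.1 hF1) with ⟨m, i', _, h2⟩ | ⟨i', j, h2⟩ | ⟨i', j, α, h2⟩
          · right
            have hne : i' ≠ i := by
              rintro rfl
              exact hB1 (Finset.mem_coe.2 (Finset.mem_union_right _ (Finset.mem_image.2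
                ⟨m, (mem_P hF.1).2 (h2 ▸ hF1), h2.symm⟩)))
            simp only [ep, Sym2.eq_iff] at h2
            rcases h2 with ⟨rfl, rfl⟩ | ⟨rfl, rfl⟩
            · exact ⟨fun h => h, hne, hF1⟩
            · exact ⟨hne, fun h => h, hF1⟩
          · right
            have hne : i' ≠ i := by
              rintro rfl
              exact hB1 (Finset.mem_coe.2 (Finset.mem_union_left _ (Finset.mem_filter.2
                ⟨mem_E.2 ⟨j, h2⟩, hF1⟩)))
            simp only [er, Sym2.eq_iff] at h2
            rcases h2 with ⟨rfl, rfl⟩ | ⟨rfl, rfl⟩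
            · exact ⟨hne, hne, hF1⟩
            · exact ⟨hne, hne, hF1⟩
          · have h3 := h2
            simp only [el, Sym2.eq_iff] at h2
            by_cases hi : i' = i
            · left
              rcases h2 with ⟨rfl, rfl⟩ | ⟨rfl, rfl⟩
              · exact ⟨hi, hi, Or.inr ⟨i', j, α, h3⟩⟩
              · exact ⟨hi, hi, Or.inr ⟨i', j, α, h3⟩⟩
            · right
              rcases h2 with ⟨rfl, rfl⟩ | ⟨rfl, rfl⟩
              · exact ⟨hi, hi, hF1⟩
              · exact ⟨hi, hi, hF1⟩
        · left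
          obtain ⟨j, h2⟩ := mem_E.1 (Finset.mem_coe.1 h)
          have h3 := h2
          simp only [er, Sym2.eq_iff] at h2
          rcases h2 with ⟨rfl, rfl⟩ | ⟨rfl, rfl⟩
          · exact ⟨rfl, rfl, Or.inl ⟨i, j, h3⟩⟩
          · exact ⟨rfl, rfl, Or.inl ⟨i, j, h3⟩⟩
      have hconst := hH.const (fun x => inHub i (f x)) (fun a b hab => by
        rcases key _ _ (hfI a b hab) with ⟨h1, h2, _⟩ | ⟨h1, h2, _⟩
        · exact propext ⟨fun _ => h2, fun _ => h1⟩
        · exact propext ⟨fun h => absurd h h1, fun h => absurd h h2⟩)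
      by_cases hz : inHub i (f z)
      · refine no_closed hH hk hX f hf (fun a b hab => ?_)
        rcases key _ _ (hfI a b hab) with ⟨_, _, h⟩ | ⟨h1, _, _⟩
        · exact h
        · have := hconst a
          exact absurd (this ▸ hz) h1
      · refine hFree_iff.1 hF.2.1 f hf (fun a b hab => ?_)
        rcases key _ _ (hfI a b hab) with ⟨h1, _⟩ | ⟨_, _, h⟩
        · have := hconst a
          exact absurd (this ▸ h1) hz
        · exact h
  rw [card_E] at h1
  refine h1.trans ((Finset.card_union_le _ _).trans ?_)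
  unfold aa
  gcongr
  exact Finset.card_image_le

/-- The number of `F`-neighbours of a hub. -/
theorem deg_hub {F : Set (Sym2 (V K))} (i : ℕ) :
    ((aa F i + (P F i).card : ℕ) : ℕ∞) ≤ {v : V K | s(v, hub i) ∈ F}.encard := by
  classical
  let J : Finset (Fin K) := Finset.univ.filter (fun j => er i j ∈ F)
  have h1 : aa F i = J.card := by
    have : (E K i).filter (fun e => e ∈ F) = J.image (fun j => er i j) := by
      ext e
      rw [Finset.mem_filter, mem_E, Finset.mem_image]
      constructor
      · rintro ⟨⟨j, rfl⟩, h⟩; exact ⟨j, Finset.mem_filter.2 ⟨Finset.mem_univ _, h⟩, rfl⟩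
      · rintro ⟨j, hj, rfl⟩; exact ⟨⟨j, rfl⟩, (Finset.mem_filter.1 hj).2⟩
    unfold aa
    rw [this, Finset.card_image_of_injective _ (fun j j' h => (er_inj h).2)]
  let S : Finset (V K) := J.image (fun j => rich i j) ∪ (P F i).image cli
  have h5 : S.card = aa F i + (P F i).card := by
    rw [Finset.card_union_of_disjoint, Finset.card_image_of_injective,
      Finset.card_image_of_injective, h1]
    · intro a b h; exact cli.inj h
    · intro a b h; exact (rich.inj h).2
    · rw [Finset.disjoint_left]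
      intro x hx hx'
      obtain ⟨a, _, rfl⟩ := Finset.mem_image.1 hx
      obtain ⟨b, _, hb⟩ := Finset.mem_image.1 hx'
      exact absurd hb (by simp)
  have h6 : (↑S : Set (V K)) ⊆ {v : V K | s(v, hub i) ∈ F} := by
    intro x hx
    rcases Finset.mem_union.1 (Finset.mem_coe.1 hx) with h | h
    · obtain ⟨a, ha, rfl⟩ := Finset.mem_image.1 h
      show s(rich i a, hub i) ∈ F
      rw [Sym2.eq_swap]
      exact (Finset.mem_filter.1 ha).2
    · obtain ⟨m, hm, rfl⟩ := Finset.mem_image.1 h
      exact (Finset.mem_filter.1 hm).2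
  rw [← h5, ← Set.encard_coe_eq_coe_finsetCard]
  exact Set.encard_le_encard h6

/-- A neighbour of a hub is not a hub. -/
theorem ne_hub {F : Set (Sym2 (V K))} (hFG : F ⊆ (G K).edgeSet) {v : V K} {i : ℕ}
    (h : s(v, hub i) ∈ F) (j : ℕ) : (hub j : V K) ≠ v := by
  rintro rfl
  have h1 := hFG h
  rw [SimpleGraph.mem_edgeSet] at h1
  exact h1

/-- Degree of the clients. -/
theorem deg_client [Finite W] (hH : IsBase H z π) (hk : K < (Ch H z).ncard)
    (hX : 2 ≤ (X H z π).ncard) (hσ : (Gc H z).ncard < K) {F : Set (Sym2 (V K))}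
    (hF : StronglyMaximal H (G K) F) (m : ℕ) :
    {i | ep m i ∈ F}.encard < ((Ch H z).ncard : ℕ∞) := by
  classical
  by_contra hcon
  rw [not_lt] at hcon
  obtain ⟨g₀, hg₀, hg₀F⟩ := exists_sdr (ι := Ch H z) (fun _ => {i | ep m i ∈ F}) (Ch H z).ncard
    (le_of_eq (Nat.card_coe_set_eq _)) (fun _ => hcon)
  let g : W → V K := fun x => if h : x ∈ Ch H z then hub (g₀ ⟨x, h⟩) else cli m
  have hg : ∀ x (h : x ∈ Ch H z), g x = hub (g₀ ⟨x, h⟩) := fun x h => dif_pos h
  refine hH.embed (F := F) (cli m) g
    (fun y => {v | s(v, g (π y)) ∈ F ∧ v ≠ cli m}) ?_ ?_ ?_ ?_ ?_ hF.2.1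
  · intro x hx y hy hxy
    rw [hg x hx, hg y hy] at hxy
    exact congrArg Subtype.val (hg₀ (hub.inj hxy))
  · intro x hx
    rw [hg x hx]
    exact hg₀F ⟨x, hx⟩
  · intro x hx
    rw [hg x hx]; simp
  · intro y hy
    have hπ : π y ∈ Ch H z := hH.gc1 y hy.1 hy.2
    have h1 := deg_hub (F := F) (g₀ ⟨π y, hπ⟩)
    have h0 := close hH hk hX hF (g₀ ⟨π y, hπ⟩)
    have h2 : {v : V K | s(v, hub (g₀ ⟨π y, hπ⟩)) ∈ F} ⊆
        insert (cli m) {v | s(v, g (π y)) ∈ F ∧ v ≠ cli m} := by
      intro v hv
      by_cases hvm : v = cli m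
      · exact Or.inl hvm
      · exact Or.inr ⟨by rw [hg _ hπ]; exact hv, hvm⟩
    have h3 := h1.trans ((Set.encard_le_encard h2).trans (Set.encard_insert_le _ _))
    have h5 : (((Gc H z).ncard + 1 : ℕ) : ℕ∞) ≤
        {v | s(v, g (π y)) ∈ F ∧ v ≠ cli m}.encard + 1 := by
      refine le_trans ?_ h3
      have : (Gc H z).ncard + 1 ≤ aa F (g₀ ⟨π y, hπ⟩) + (P F (g₀ ⟨π y, hπ⟩)).card := by omega
      exact_mod_cast this
    push_cast at h5
    exact (ENat.add_le_add_iff_right (by simp)).1 h5
  · intro y hy v hv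
    refine ⟨hv.1, hv.2, fun x hx => ?_⟩
    have hπ : π y ∈ Ch H z := hH.gc1 y hy.1 hy.2
    have h1 := hv.1
    rw [hg _ hπ] at h1
    rw [hg x hx]
    exact ne_hub hF.1 h1 _

/-- A client with more than `s` neighbours in `F`. -/
def hv (F : Set (Sym2 (V K))) (s : ℕ) (m : ℕ) : Prop := (s : ℕ∞) < {i | ep m i ∈ F}.encard

open Classical in
/-- The number of heavy clients at a hub. -/
noncomputable def sh (F : Set (Sym2 (V K))) (s i : ℕ) : ℕ := ((P F i).filter (fun m => hv F s m)).card

/-- The heavy neighbours of a hub. -/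
theorem heavy_count {F : Set (Sym2 (V K))} (s i : ℕ) :
    ((aa F i + sh F s i : ℕ) : ℕ∞) ≤ {v : V K | (∃ j, v = rich i j ∧ er i j ∈ F) ∨
      (∃ m, v = cli m ∧ ep m i ∈ F ∧ hv F s m)}.encard := by
  classical
  let J : Finset (Fin K) := Finset.univ.filter (fun j => er i j ∈ F)
  have h1 : aa F i = J.card := by
    have : (E K i).filter (fun e => e ∈ F) = J.image (fun j => er i j) := by
      ext e
      rw [Finset.mem_filter, mem_E, Finset.mem_image]
      constructor
      · rintro ⟨⟨j, rfl⟩, h⟩; exact ⟨j, Finset.mem_filter.2 ⟨Finset.mem_univ _, h⟩, rfl⟩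
      · rintro ⟨j, hj, rfl⟩; exact ⟨⟨j, rfl⟩, (Finset.mem_filter.1 hj).2⟩
    unfold aa
    rw [this, Finset.card_image_of_injective _ (fun j j' h => (er_inj h).2)]
  let S : Finset (V K) := J.image (fun j => rich i j) ∪ ((P F i).filter (fun m => hv F s m)).image cli
  have h5 : S.card = aa F i + sh F s i := by
    rw [Finset.card_union_of_disjoint, Finset.card_image_of_injective,
      Finset.card_image_of_injective, h1]
    · rfl
    · intro a b h; exact cli.inj h
    · intro a b h; exact (rich.inj h).2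
    · rw [Finset.disjoint_left]
      intro x hx hx'
      obtain ⟨a, _, rfl⟩ := Finset.mem_image.1 hx
      obtain ⟨b, _, hb⟩ := Finset.mem_image.1 hx'
      exact absurd hb (by simp)
  have h6 : (↑S : Set (V K)) ⊆ {v : V K | (∃ j, v = rich i j ∧ er i j ∈ F) ∨
      (∃ m, v = cli m ∧ ep m i ∈ F ∧ hv F s m)} := by
    intro x hx
    rcases Finset.mem_union.1 (Finset.mem_coe.1 hx) with h | h
    · obtain ⟨a, ha, rfl⟩ := Finset.mem_image.1 h
      exact Or.inl ⟨a, rfl, (Finset.mem_filter.1 ha).2⟩
    · obtain ⟨m, hm, rfl⟩ := Finset.mem_image.1 h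
      have hm' := Finset.mem_filter.1 hm
      exact Or.inr ⟨m, rfl, (Finset.mem_filter.1 hm'.1).2, hm'.2⟩
  rw [← h5, ← Set.encard_coe_eq_coe_finsetCard]
  exact Set.encard_le_encard h6

/-- A hub of large degree has few heavy neighbours. -/
theorem heavy [Finite W] (hH : IsBase H z π) (hk : K < (Ch H z).ncard) (hX : 2 ≤ (X H z π).ncard)
    {F : Set (Sym2 (V K))} (hF : StronglyMaximal H (G K) F) (i : ℕ)
    (hdeg : (Ch H z).ncard ≤ aa F i + (P F i).card) :
    aa F i + sh F (Gc H z).ncard i < (X H z π).ncard := by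
  classical
  by_contra hcon
  rw [not_lt] at hcon
  set s := (Gc H z).ncard with hs
  let HV : Set (V K) := {v : V K | (∃ j, v = rich i j ∧ er i j ∈ F) ∨
      (∃ m, v = cli m ∧ ep m i ∈ F ∧ hv F s m)}
  let NB : Set (V K) := {v : V K | s(v, hub i) ∈ F}
  have hHN : HV ⊆ NB := by
    rintro v (⟨j, rfl, h⟩ | ⟨m, rfl, h, _⟩)
    · show s(rich i j, hub i) ∈ F
      rw [Sym2.eq_swap]; exact h
    · exact h
  let X' : Set (Ch H z) := {x | x.1 ∈ X H z π}
  have hX' : X'.encard ≤ HV.encard := by
    have h1 : X'.encard ≤ (X H z π).encard := by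
      rw [← Subtype.val_injective.encard_image]
      apply Set.encard_le_encard
      rintro _ ⟨x, hx, rfl⟩
      exact hx
    rw [← (Set.toFinite (X H z π)).cast_ncard_eq] at h1
    refine h1.trans (le_trans ?_ (heavy_count s i))
    exact_mod_cast hcon
  have hNB : (Nat.card (Ch H z) : ℕ∞) ≤ NB.encard := by
    rw [Nat.card_coe_set_eq]
    refine le_trans ?_ (deg_hub i)
    exact_mod_cast hdeg
  obtain ⟨g₀, hg₀, hg₀N, hg₀H⟩ := exists_sdr_two X' HV NB hHN hX' hNB
  let g : W → V K := fun x => if h : x ∈ Ch H z then g₀ ⟨x, h⟩ else hub i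
  have hg : ∀ x (h : x ∈ Ch H z), g x = g₀ ⟨x, h⟩ := fun x h => dif_pos h
  have hgN : ∀ x ∈ Ch H z, s(g x, hub i) ∈ F := fun x hx => by rw [hg x hx]; exact hg₀N _
  refine hH.embed (F := F) (hub i) g
    (fun y => {v | s(v, g (π y)) ∈ F ∧ v ≠ hub i ∧ ∀ x ∈ Ch H z, g x ≠ v}) ?_ ?_ ?_ ?_ ?_ hF.2.1
  · intro x hx y hy hxy
    rw [hg x hx, hg y hy] at hxy
    exact congrArg Subtype.val (hg₀ hxy)
  · intro x hx
    rw [Sym2.eq_swap]; exact hgN x hx
  · intro x hx h
    exact ne_hub hF.1 (hgN x hx) i h.symm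
  · intro y hy
    have hπ : π y ∈ Ch H z := hH.gc1 y hy.1 hy.2
    have hπX : (⟨π y, hπ⟩ : Ch H z) ∈ X' := ⟨y, hy, rfl⟩
    rcases hg₀H _ hπX with ⟨j, hj, hjF⟩ | ⟨m, hm, hmF, hmh⟩
    · -- a rich vertex
      have hinf := leaves_infinite hH hk hX hF i j
      have h1 : (fun α => (leaf i j α : V K)) '' {α | el i j α ∈ F} ⊆
          {v | s(v, g (π y)) ∈ F ∧ v ≠ hub i ∧ ∀ x ∈ Ch H z, g x ≠ v} := by
        rintro _ ⟨α, hα, rfl⟩
        refine ⟨?_, by simp, ?_⟩
        · rw [hg _ hπ, hj, Sym2.eq_swap]; exact hα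
        · intro x hx h
          have h2 := hF.1 (hgN x hx)
          rw [h, SimpleGraph.mem_edgeSet] at h2
          exact h2
      have h2 : ((fun α => (leaf i j α : V K)) '' {α | el i j α ∈ F}).Infinite :=
        hinf.image (fun α _ β _ h => (leaf.inj h).2.2)
      have h3 := (h2.mono h1).encard_eq
      rw [h3]; exact le_top
    · -- a heavy client
      have h1 : hub '' ({i' | ep m i' ∈ F} \ {i}) ⊆
          {v : V K | s(v, g (π y)) ∈ F ∧ v ≠ hub i ∧ ∀ x ∈ Ch H z, g x ≠ v} := by
        rintro _ ⟨i', ⟨hi', hne⟩, rfl⟩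
        refine ⟨?_, ?_, ?_⟩
        · rw [hg _ hπ, hm, Sym2.eq_swap]; exact hi'
        · intro h; exact hne (hub.inj h)
        · intro x hx h
          exact ne_hub hF.1 (hgN x hx) i' h.symm
      have h2 : {i' | ep m i' ∈ F} ⊆ insert i ({i' | ep m i' ∈ F} \ {i}) := by
        intro i' hi'
        by_cases h : i' = i
        · exact Or.inl h
        · exact Or.inr ⟨hi', h⟩
      have h3 : ((s : ℕ) : ℕ∞) + 1 ≤ ({i' | ep m i' ∈ F} \ {i}).encard + 1 := by
        refine le_trans ?_ ((Set.encard_le_encard h2).trans (Set.encard_insert_le _ _))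
        exact Order.add_one_le_of_lt hmh
      have h4 : (s : ℕ∞) ≤ ({i' | ep m i' ∈ F} \ {i}).encard :=
        (ENat.add_le_add_iff_right (by simp)).1 h3
      refine h4.trans ?_
      rw [← Function.Injective.encard_image (f := (hub : ℕ → V K)) (fun a b h => hub.inj h)]
      exact Set.encard_le_encard h1
  · intro y hy v hv'
    exact hv'

/-- The main exchange. -/
theorem main_ineq [Finite W] (hH : IsBase H z π) (hk : K < (Ch H z).ncard)
    (hk' : (Ch H z).ncard = K + 1) (hX : 2 ≤ (X H z π).ncard) (hXs : (X H z π).ncard ≤ (Gc H z).ncard)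
    (hσ : (Gc H z).ncard < K) {F : Set (Sym2 (V K))} (hF : StronglyMaximal H (G K) F) :
    ∃ C : ℕ, ∀ t, ∀ s₁ ⊆ Finset.range t, ∀ s₂ ⊆ Finset.range t, ∀ s₃ ⊆ Finset.range t,
      (∀ i ∈ s₁, ∃ m, ep m i ∈ F ∧ ¬ hv F (Gc H z).ncard m) → (∀ m ∈ s₂, ∀ i, ep m i ∉ F) →
      (∀ m ∈ s₃, hv F (Gc H z).ncard m ∧ ∀ i, ep m i ∈ F → i < t) →
      s₁.card + s₂.card + s₃.card ≤ C := by
  classical
  set s := (Gc H z).ncard with hs
  have hs1 : 1 ≤ s := by omega
  -- bounds at the hubs
  have hsh : ∀ i, sh F s i ≤ (P F i).card := fun i => Finset.card_filter_le _ _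
  have hb1 : ∀ i, aa F i + sh F s i ≤ K := by
    intro i
    by_cases h : (Ch H z).ncard ≤ aa F i + (P F i).card
    · have := heavy hH hk hX hF i h
      rw [← hs] at this
      omega
    · have := hsh i
      omega
  have hb2 : ∀ i, (∃ m, ep m i ∈ F ∧ ¬ hv F s m) → aa F i + sh F s i + 1 ≤ K := by
    rintro i ⟨m, hm, hmh⟩
    by_cases h : (Ch H z).ncard ≤ aa F i + (P F i).card
    · have := heavy hH hk hX hF i h
      rw [← hs] at this
      omega
    · have h1 : sh F s i < (P F i).card := by
        apply Finset.card_lt_card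
        rw [Finset.filter_ssubset]
        exact ⟨m, (mem_P hF.1).2 hm, hmh⟩
      omega
  -- the neighbours of the clients
  have hD : ∀ m, {i | ep m i ∈ F}.encard ≤ (K : ℕ∞) := by
    intro m
    have h := deg_client hH hk hX hσ hF m
    rw [hk'] at h
    push_cast at h
    exact ENat.lt_natCast_add_one_iff.1 h
  have hDfin : ∀ m, {i | ep m i ∈ F}.Finite := fun m =>
    Set.encard_ne_top_iff.1 (ne_top_of_le_ne_top (ENat.natCast_ne_top K) (hD m))
  let Df : ℕ → Finset ℕ := fun m => (hDfin m).toFinset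
  have hDf : ∀ m i, i ∈ Df m ↔ ep m i ∈ F := fun m i => by simp [Df]
  have hvD : ∀ m, hv F s m ↔ s < (Df m).card := by
    intro m
    unfold hv
    rw [(hDfin m).encard_eq_coe_toFinset_card]
    exact Nat.cast_lt
  refine ⟨2 * (s * K) + s * s, fun t s₁ hs₁ s₂ hs₂ s₃ hs₃ h₁ h₂ h₃ => ?_⟩
  let far : ℕ → ℕ := fun m => ((Df m).filter (fun i => t + s ≤ i)).card
  let near : ℕ → ℕ := fun m => ((Df m).filter (fun i => ¬ t + s ≤ i)).card
  have hnf : ∀ m, far m + near m = (Df m).card := fun m => Finset.card_filter_add_card_filter_not _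
  let M₁ : Finset ℕ := (Finset.range t).filter (fun m => ¬ hv F s m ∨ far m < s)
  have hM₁ : ∀ m, m ∈ M₁ ↔ m < t ∧ (¬ hv F s m ∨ far m < s) := fun m => by
    simp only [M₁, Finset.mem_filter, Finset.mem_range]
  let A : Finset (Sym2 (V K)) := (Finset.range t).biUnion (E K) ∪
    (M₁ ×ˢ (Finset.Ico t (t + s))).image (fun p => ep p.1 p.2)
  let B : Finset (Sym2 (V K)) := (Finset.range t).biUnion (fun i => (E K i).filter (fun e => e ∈ F)) ∪
    (M₁.biUnion (fun m => (Df m).image (ep m)) ∪
      (((Finset.range t) \ M₁).biUnion (fun m => ((Df m).filter (fun i => ¬ t + s ≤ i)).image (ep m)) ∪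
        ((Finset.Ico t (t + s)).biUnion (E K) ∪
          ((Finset.Ico t (t + s)) ×ˢ (Finset.Ico t (t + s))).image (fun p => ep p.1 p.2))))
  have hAB : A.card ≤ B.card := by
    apply hF.exchange_fin
    · intro e he
      rcases Finset.mem_union.1 he with h | h
      · obtain ⟨i, _, hi⟩ := Finset.mem_biUnion.1 h
        obtain ⟨j, rfl⟩ := mem_E.1 hi
        exact mem_edgeSet.2 (Or.inr (Or.inl ⟨i, j, rfl⟩))
      · obtain ⟨p, hp, rfl⟩ := Finset.mem_image.1 h
        rw [Finset.mem_product, Finset.mem_Ico, hM₁] at hp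
        exact mem_edgeSet.2 (Or.inl ⟨p.1, p.2, by omega, rfl⟩)
    · intro e he heF
      rcases Finset.mem_union.1 he with h | h
      · obtain ⟨i, hi, hie⟩ := Finset.mem_biUnion.1 h
        exact Finset.mem_union_left _ (Finset.mem_biUnion.2 ⟨i, hi, Finset.mem_filter.2 ⟨hie, heF⟩⟩)
      · obtain ⟨p, hp, rfl⟩ := Finset.mem_image.1 h
        rw [Finset.mem_product] at hp
        refine Finset.mem_union_right _ (Finset.mem_union_left _ (Finset.mem_biUnion.2
          ⟨p.1, hp.1, Finset.mem_image.2 ⟨p.2, (hDf _ _).2 heF, rfl⟩⟩))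
    · rw [hFree_iff]
      intro f hf hfI
      let Rest : V K → Prop := fun v => match v with
        | hub i => t + s ≤ i
        | cli m => m ∉ M₁
        | rich i _ => t ≤ i
        | leaf i _ _ => t ≤ i
      have key : ∀ v w : V K, s(v, w) ∈ F \ ↑B ∪ ↑A →
          (∃ i, i < t ∧ inHub i v ∧ inHub i w ∧
            ((∃ i j, s(v, w) = er i j) ∨ (∃ i j α, s(v, w) = el i j α))) ∨
          (∃ m i, m ∈ M₁ ∧ t ≤ i ∧ i < t + s ∧
            ((v = cli m ∧ w = hub i) ∨ (v = hub i ∧ w = cli m))) ∨
          (Rest v ∧ Rest w ∧ s(v, w) ∈ F) := by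
        rintro v w (⟨hF1, hB1⟩ | h)
        · rcases mem_edgeSet.1 (hF.1 hF1) with ⟨m, i, hmi, h2⟩ | ⟨i, j, h2⟩ | ⟨i, j, α, h2⟩
          · right; right
            have hmM : m ∉ M₁ := by
              intro hm
              exact hB1 (Finset.mem_coe.2 (Finset.mem_union_right _ (Finset.mem_union_left _
                (Finset.mem_biUnion.2 ⟨m, hm, Finset.mem_image.2 ⟨i, (hDf _ _).2 (h2 ▸ hF1), h2.symm⟩⟩))))
            have hit : t + s ≤ i := by
              by_contra hlt
              apply hB1
              rcases lt_or_ge m t with hm | hm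
              · refine Finset.mem_coe.2 (Finset.mem_union_right _ (Finset.mem_union_right _
                  (Finset.mem_union_left _ (Finset.mem_biUnion.2 ⟨m, ?_, Finset.mem_image.2
                  ⟨i, Finset.mem_filter.2 ⟨(hDf _ _).2 (h2 ▸ hF1), hlt⟩, h2.symm⟩⟩))))
                exact Finset.mem_sdiff.2 ⟨Finset.mem_range.2 hm, hmM⟩
              · refine Finset.mem_coe.2 (Finset.mem_union_right _ (Finset.mem_union_right _
                  (Finset.mem_union_right _ (Finset.mem_union_right _
                  (Finset.mem_image.2 ⟨(m, i), ?_, h2.symm⟩)))))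
                rw [Finset.mem_product, Finset.mem_Ico, Finset.mem_Ico]
                simp only
                omega
            simp only [ep, Sym2.eq_iff] at h2
            rcases h2 with ⟨rfl, rfl⟩ | ⟨rfl, rfl⟩
            · exact ⟨hmM, hit, hF1⟩
            · exact ⟨hit, hmM, hF1⟩
          · right; right
            have hit : t + s ≤ i := by
              by_contra hlt
              apply hB1
              rcases lt_or_ge i t with hm | hm
              · exact Finset.mem_coe.2 (Finset.mem_union_left _ (Finset.mem_biUnion.2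
                  ⟨i, Finset.mem_range.2 hm, Finset.mem_filter.2 ⟨mem_E.2 ⟨j, h2⟩, hF1⟩⟩))
              · exact Finset.mem_coe.2 (Finset.mem_union_right _ (Finset.mem_union_right _
                  (Finset.mem_union_right _ (Finset.mem_union_left _
                  (Finset.mem_biUnion.2 ⟨i, Finset.mem_Ico.2 ⟨hm, by omega⟩, mem_E.2 ⟨j, h2⟩⟩)))))
            have hit' : t ≤ i := by omega
            simp only [er, Sym2.eq_iff] at h2
            rcases h2 with ⟨rfl, rfl⟩ | ⟨rfl, rfl⟩
            · exact ⟨hit, hit', hF1⟩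
            · exact ⟨hit', hit, hF1⟩
          · have h3 := h2
            simp only [el, Sym2.eq_iff] at h2
            rcases lt_or_ge i t with hi | hi
            · left
              refine ⟨i, hi, ?_⟩
              rcases h2 with ⟨rfl, rfl⟩ | ⟨rfl, rfl⟩
              · exact ⟨rfl, rfl, Or.inr ⟨i, j, α, h3⟩⟩
              · exact ⟨rfl, rfl, Or.inr ⟨i, j, α, h3⟩⟩
            · right; right
              rcases h2 with ⟨rfl, rfl⟩ | ⟨rfl, rfl⟩
              · exact ⟨hi, hi, hF1⟩
              · exact ⟨hi, hi, hF1⟩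
        · rcases Finset.mem_union.1 (Finset.mem_coe.1 h) with h | h
          · left
            obtain ⟨i, hi, hie⟩ := Finset.mem_biUnion.1 h
            obtain ⟨j, h2⟩ := mem_E.1 hie
            have h3 := h2
            simp only [er, Sym2.eq_iff] at h2
            refine ⟨i, Finset.mem_range.1 hi, ?_⟩
            rcases h2 with ⟨rfl, rfl⟩ | ⟨rfl, rfl⟩
            · exact ⟨rfl, rfl, Or.inl ⟨i, j, h3⟩⟩
            · exact ⟨rfl, rfl, Or.inl ⟨i, j, h3⟩⟩
          · right; left
            obtain ⟨p, hp, hpe⟩ := Finset.mem_image.1 h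
            rw [Finset.mem_product, Finset.mem_Ico] at hp
            simp only [ep, Sym2.eq_iff] at hpe
            refine ⟨p.1, p.2, hp.1, hp.2.1, hp.2.2, ?_⟩
            rcases hpe with ⟨h1, h2⟩ | ⟨h1, h2⟩
            · exact Or.inl ⟨h1.symm, h2.symm⟩
            · exact Or.inr ⟨h2.symm, h1.symm⟩
      let cl : V K → ℕ ⊕ Bool := fun v => match v with
        | hub i => if i < t then .inl i else if i < t + s then .inr true else .inr false
        | cli m => if m ∈ M₁ then .inr true else .inr false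
        | rich i _ => if i < t then .inl i else .inr false
        | leaf i _ _ => if i < t then .inl i else .inr false
      have hclR : ∀ v, Rest v → cl v = .inr false := by
        intro v h
        cases v with
        | hub i =>
          have h' : t + s ≤ i := h
          simp only [cl]
          rw [if_neg (by omega), if_neg (by omega)]
        | cli m =>
          have h' : m ∉ M₁ := h
          simp only [cl]
          rw [if_neg h']
        | rich i j =>
          have h' : t ≤ i := h
          simp only [cl]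
          rw [if_neg (by omega)]
        | leaf i j α =>
          have h' : t ≤ i := h
          simp only [cl]
          rw [if_neg (by omega)]
      have hclQ : ∀ i v, i < t → inHub i v → cl v = .inl i := by
        intro i v hi h
        cases v with
        | hub i' =>
          have h' : i' = i := h
          subst h'
          simp only [cl]
          rw [if_pos hi]
        | cli m => exact absurd h id
        | rich i' j =>
          have h' : i' = i := h
          subst h'
          simp only [cl]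
          rw [if_pos hi]
        | leaf i' j α =>
          have h' : i' = i := h
          subst h'
          simp only [cl]
          rw [if_pos hi]
      have hclB1 : ∀ i, t ≤ i → i < t + s → cl (hub i) = .inr true := by
        intro i h h'
        simp only [cl]
        rw [if_neg (by omega), if_pos h']
      have hclB2 : ∀ m, m ∈ M₁ → cl (cli m) = .inr true := by
        intro m h
        simp only [cl]
        rw [if_pos h]
      have hconst := hH.const (fun x => cl (f x)) (fun a b hab => by
        rcases key _ _ (hfI a b hab) with ⟨i, hi, h1, h2, _⟩ | ⟨m, i, hm, hi1, hi2, h⟩ | ⟨h1, h2, _⟩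
        · exact (hclQ i _ hi h1).trans (hclQ i _ hi h2).symm
        · rcases h with ⟨h1, h2⟩ | ⟨h1, h2⟩
          · exact ((congrArg cl h1).trans (hclB2 m hm)).trans
              ((congrArg cl h2).trans (hclB1 i hi1 hi2)).symm
          · exact ((congrArg cl h1).trans (hclB1 i hi1 hi2)).trans
              ((congrArg cl h2).trans (hclB2 m hm)).symm
        · exact (hclR _ h1).trans (hclR _ h2).symm)
      obtain ⟨x₀, hx₀⟩ : (X H z π).Nonempty := by
        rw [← Set.ncard_pos (Set.toFinite _)]; omega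
      obtain ⟨y₀, hy₀, rfl⟩ := hx₀
      have hπ : H.Adj z (π y₀) := hH.gc1 y₀ hy₀.1 hy₀.2
      rcases key _ _ (hfI z (π y₀) hπ) with ⟨i, hi, h1, _, _⟩ | ⟨m, i, hm, hi1, hi2, h⟩ | ⟨h1, _, _⟩
      · -- inside a closed hub
        have hz : cl (f z) = .inl i := hclQ i _ hi h1
        refine no_closed hH hk hX f hf (fun a b hab => ?_)
        have hcl : cl (f a) = .inl i := (hconst a).trans hz
        rcases key _ _ (hfI a b hab) with ⟨i', hi', h1, _, h⟩ | ⟨m, i', hm, hi1, hi2, h⟩ | ⟨h1, _, _⟩
        · exact h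
        · rcases h with ⟨h1, _⟩ | ⟨h1, _⟩
          · rw [h1, hclB2 m hm] at hcl; exact absurd hcl (by simp)
          · rw [h1, hclB1 i' hi1 hi2] at hcl; exact absurd hcl (by simp)
        · rw [hclR _ h1] at hcl; exact absurd hcl (by simp)
      · -- inside the block
        have hz : cl (f z) = .inr true := by
          rcases h with ⟨h1, _⟩ | ⟨h1, _⟩
          · rw [h1]; exact hclB2 m hm
          · rw [h1]; exact hclB1 i hi1 hi2
        refine hH.no_bip (r := s) (by omega) (by omega) f hf
          (↑((Finset.Ico t (t + s)).image (fun i => (hub i : V K)))) ?_ ?_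
        · rw [Set.encard_coe_eq_coe_finsetCard]
          have : ((Finset.Ico t (t + s)).image (fun i => (hub i : V K))).card ≤ s :=
            Finset.card_image_le.trans (by simp)
          exact_mod_cast this
        · intro a b hab
          have hcl : cl (f a) = .inr true := (hconst a).trans hz
          rcases key _ _ (hfI a b hab) with ⟨i, hi, h1, _, _⟩ | ⟨m, i, hm, hi1, hi2, h⟩ | ⟨h1, _, _⟩
          · rw [hclQ i _ hi h1] at hcl; exact absurd hcl (by simp)
          · rcases h with ⟨h1, h2⟩ | ⟨h1, h2⟩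
            · rw [h1, h2]
              simp only [Finset.coe_image, Set.mem_image, Finset.coe_Ico, Set.mem_Ico, hub.injEq,
                exists_eq_right, reduceCtorEq, and_false, exists_false,
                false_iff, not_not]
              exact ⟨hi1, hi2⟩
            · rw [h1, h2]
              simp only [Finset.coe_image, Set.mem_image, Finset.coe_Ico, Set.mem_Ico, hub.injEq,
                exists_eq_right, reduceCtorEq, and_false, exists_false,
                not_false_iff, iff_true]
              exact ⟨hi1, hi2⟩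
          · rw [hclR _ h1] at hcl; exact absurd hcl (by simp)
      · -- in the rest
        have hz : cl (f z) = .inr false := hclR _ h1
        refine hFree_iff.1 hF.2.1 f hf (fun a b hab => ?_)
        have hcl : cl (f a) = .inr false := (hconst a).trans hz
        rcases key _ _ (hfI a b hab) with ⟨i, hi, h1, _, _⟩ | ⟨m, i, hm, hi1, hi2, h⟩ | ⟨_, _, h⟩
        · rw [hclQ i _ hi h1] at hcl; exact absurd hcl (by simp)
        · rcases h with ⟨h1, _⟩ | ⟨h1, _⟩
          · rw [h1, hclB2 m hm] at hcl; exact absurd hcl (by simp)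
          · rw [h1, hclB1 i hi1 hi2] at hcl; exact absurd hcl (by simp)
        · exact h
  -- the cardinality of A
  have hA : A.card = t * K + M₁.card * s := by
    rw [Finset.card_union_of_disjoint, Finset.card_biUnion, Finset.sum_congr rfl (fun i _ => card_E i),
      Finset.sum_const, Finset.card_range, smul_eq_mul, Finset.card_image_of_injective,
      Finset.card_product, Nat.card_Ico]
    · simp only [Nat.add_sub_cancel_left]
    · rintro ⟨a, b⟩ ⟨c, d⟩ h
      obtain ⟨h1, h2⟩ := ep_inj h
      simp only at h1 h2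
      rw [h1, h2]
    · intro i _ j _ hij
      refine Finset.disjoint_left.2 fun e he he' => hij ?_
      obtain ⟨a, ha⟩ := mem_E.1 he
      obtain ⟨b, hb⟩ := mem_E.1 he'
      exact (er_inj (ha.symm.trans hb)).1
    · rw [Finset.disjoint_left]
      intro e he he'
      obtain ⟨i, _, hi⟩ := Finset.mem_biUnion.1 he
      obtain ⟨a, ha⟩ := mem_E.1 hi
      obtain ⟨p, _, hp⟩ := Finset.mem_image.1 he'
      exact ep_ne_er (hp.trans ha)
  have hB : B.card ≤ (∑ i ∈ Finset.range t, aa F i) +
      ((∑ m ∈ M₁, (Df m).card) + ((∑ m ∈ (Finset.range t) \ M₁, near m) + (s * K + s * s))) := by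
    refine (Finset.card_union_le _ _).trans ?_
    gcongr
    · exact Finset.card_biUnion_le
    · refine (Finset.card_union_le _ _).trans ?_
      gcongr
      · refine Finset.card_biUnion_le.trans ?_
        gcongr
        exact Finset.card_image_le
      · refine (Finset.card_union_le _ _).trans ?_
        gcongr
        · refine Finset.card_biUnion_le.trans ?_
          gcongr
          exact Finset.card_image_le
        · refine (Finset.card_union_le _ _).trans ?_
          gcongr
          · refine Finset.card_biUnion_le.trans ?_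
            rw [Finset.sum_congr rfl (fun i _ => card_E i), Finset.sum_const, Nat.card_Ico, smul_eq_mul]
            simp
          · refine Finset.card_image_le.trans ?_
            rw [Finset.card_product, Nat.card_Ico]
            simp
  have hM₁t : M₁ ⊆ Finset.range t := Finset.filter_subset _ _
  have indic : ∀ u ⊆ Finset.range t, u.card = ∑ i ∈ Finset.range t, if i ∈ u then 1 else 0 := by
    intro u hu
    rw [Finset.sum_ite_mem, Finset.inter_eq_right.2 hu, Finset.sum_const, smul_eq_mul, mul_one]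
  -- gains at the hubs
  have g1 : (∑ i ∈ Finset.range t, (aa F i + sh F s i)) + s₁.card ≤ t * K := by
    have e2 : t * K = ∑ i ∈ Finset.range t, K := by
      rw [Finset.sum_const, Finset.card_range, smul_eq_mul]
    rw [indic s₁ hs₁, e2, ← Finset.sum_add_distrib]
    refine Finset.sum_le_sum fun i _ => ?_
    split
    · rename_i hi; exact hb2 i (h₁ i hi)
    · rw [add_zero]; exact hb1 i
  -- gains at the clients
  have g2 : (∑ m ∈ M₁, (Df m).card) + (∑ m ∈ (Finset.range t) \ M₁, near m) + s₂.card + s₃.card ≤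
      M₁.card * s + ∑ m ∈ Finset.range t, (if hv F s m then near m else 0) := by
    have e1 : (∑ m ∈ M₁, (Df m).card) + (∑ m ∈ (Finset.range t) \ M₁, near m) =
        ∑ m ∈ Finset.range t, if m ∈ M₁ then (Df m).card else near m := by
      rw [Finset.sum_ite, Finset.filter_mem_eq_inter, Finset.inter_eq_right.2 hM₁t]
      congr 1
      apply Finset.sum_congr _ (fun _ _ => rfl)
      ext m
      simp [Finset.mem_sdiff]
    have e2 : M₁.card * s = ∑ m ∈ Finset.range t, if m ∈ M₁ then s else 0 := by
      rw [Finset.sum_ite_mem, Finset.inter_eq_right.2 hM₁t, Finset.sum_const, smul_eq_mul]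
    rw [e1, e2, indic s₂ hs₂, indic s₃ hs₃, ← Finset.sum_add_distrib, ← Finset.sum_add_distrib,
      ← Finset.sum_add_distrib]
    refine Finset.sum_le_sum fun m hm => ?_
    have hmt := Finset.mem_range.1 hm
    have hnfm := hnf m
    have hvm := hvD m
    have k2 : m ∈ s₂ → (Df m).card = 0 := by
      intro h
      rw [Finset.card_eq_zero, Finset.eq_empty_iff_forall_notMem]
      intro i hi
      exact h₂ m h i ((hDf m i).1 hi)
    have k3 : m ∈ s₃ → hv F s m ∧ far m = 0 := by
      intro h
      refine ⟨(h₃ m h).1, ?_⟩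
      rw [Finset.card_eq_zero, Finset.eq_empty_iff_forall_notMem]
      intro i hi
      obtain ⟨h1, h2⟩ := Finset.mem_filter.1 hi
      have := (h₃ m h).2 i ((hDf m i).1 h1)
      omega
    by_cases hh : hv F s m
    · have hcard := hvm.1 hh
      have hs2 : m ∉ s₂ := fun h => by have := k2 h; omega
      by_cases hM : m ∈ M₁
      · have hfar : far m < s := by
          rcases ((hM₁ m).1 hM).2 with h | h
          · exact absurd hh h
          · exact h
        rw [if_pos hM, if_neg hs2, if_pos hM, if_pos hh]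
        by_cases h3 : m ∈ s₃
        · rw [if_pos h3]
          have := (k3 h3).2
          omega
        · rw [if_neg h3]; omega
      · have hs3 : m ∉ s₃ := fun h => by
          have := (k3 h).2
          exact hM ((hM₁ m).2 ⟨hmt, Or.inr (by omega)⟩)
        rw [if_neg hM, if_neg hs2, if_neg hM, if_pos hh, if_neg hs3]
        omega
    · have hM : m ∈ M₁ := (hM₁ m).2 ⟨hmt, Or.inl hh⟩
      have hs3 : m ∉ s₃ := fun h => hh (k3 h).1
      have hcard : (Df m).card ≤ s := by
        by_contra hlt
        exact hh (hvm.2 (by omega))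
      rw [if_pos hM, if_neg hs3, if_pos hM, if_neg hh]
      by_cases h2 : m ∈ s₂
      · rw [if_pos h2]
        have := k2 h2
        omega
      · rw [if_neg h2]; omega
  -- double counting
  have g3 : (∑ m ∈ Finset.range t, (if hv F s m then near m else 0)) ≤
      ∑ i ∈ Finset.range (t + s), sh F s i := by
    have e1 : ∀ m ∈ Finset.range t, (if hv F s m then near m else 0) ≤
        ∑ i ∈ Finset.range (t + s), (if hv F s m ∧ ep m i ∈ F then 1 else 0) := by
      intro m _
      by_cases hh : hv F s m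
      · rw [if_pos hh]
        have : near m ≤ ((Finset.range (t + s)).filter (fun i => hv F s m ∧ ep m i ∈ F)).card := by
          apply Finset.card_le_card
          intro i hi
          obtain ⟨h1, h2⟩ := Finset.mem_filter.1 hi
          rw [Finset.mem_filter, Finset.mem_range]
          exact ⟨by omega, hh, (hDf m i).1 h1⟩
        rwa [Finset.card_filter] at this
      · rw [if_neg hh]; exact Nat.zero_le _
    refine (Finset.sum_le_sum e1).trans ?_
    rw [Finset.sum_comm]
    refine Finset.sum_le_sum fun i _ => ?_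
    rw [← Finset.card_filter]
    apply Finset.card_le_card
    intro m hm
    obtain ⟨_, h1, h2⟩ := Finset.mem_filter.1 hm
    exact Finset.mem_filter.2 ⟨(mem_P hF.1).2 h2, h1⟩
  have g4 : (∑ i ∈ Finset.range (t + s), sh F s i) ≤ (∑ i ∈ Finset.range t, sh F s i) + s * K := by
    rw [Finset.sum_range_add]
    gcongr
    refine (Finset.sum_le_sum (g := fun _ => K) fun i _ => ?_).trans ?_
    · have := hb1 (t + i); omega
    · rw [Finset.sum_const, Finset.card_range, smul_eq_mul]
  rw [Finset.sum_add_distrib] at g1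
  omega

/-- Trees of radius two whose centre has at least `σ + 2` children, where `σ` is the number of
grandchildren, and at least two of them are not leaves, fail. -/
theorem fails [Finite W] (hH : IsBase H z π) (hX : 2 ≤ (X H z π).ncard)
    (hσ : (Gc H z).ncard + 2 ≤ (Ch H z).ncard) : Fails.{0} H := by
  obtain ⟨K, hK⟩ : ∃ K, (Ch H z).ncard = K + 1 := ⟨(Ch H z).ncard - 1, by omega⟩
  have hXs : (X H z π).ncard ≤ (Gc H z).ncard := by
    have : X H z π = π '' (Gc H z) := by
      ext x; rfl
    rw [this]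
    exact Set.ncard_image_le (Set.toFinite _)
  refine ⟨V K, G K, fun F hF => ?_⟩
  obtain ⟨C, hC⟩ := main_ineq hH (by omega) hK hX hXs (by omega) hF
  set s := (Gc H z).ncard with hs
  have hDfin : ∀ m, {i | ep m i ∈ F}.Finite := fun m => by
    have h := deg_client hH (by omega) hX (by omega) hF m
    exact Set.encard_ne_top_iff.1 (ne_top_of_lt h)
  have hO : {i | ∃ m, ep m i ∈ F ∧ ¬ hv F s m}.Finite := finite_of_count_le C (fun t u hu huO => by
    have := hC t u hu ∅ (Finset.empty_subset _) ∅ (Finset.empty_subset _) huO (by simp) (by simp)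
    simpa using this)
  have hZ : {m | ∀ i, ep m i ∉ F}.Finite := finite_of_count_le C (fun t u hu huO => by
    have := hC t ∅ (Finset.empty_subset _) u hu ∅ (Finset.empty_subset _) (by simp) huO (by simp)
    simpa using this)
  have hS : {m | hv F s m}.Finite := finite_of_count_le C (fun t u hu huO => by
    have hb : ∀ m, ∃ b, ∀ i, ep m i ∈ F → i < b := fun m => by
      obtain ⟨b, hb⟩ := (hDfin m).bddAbove
      exact ⟨b + 1, fun i hi => Nat.lt_succ_of_le (hb hi)⟩
    choose b hb using hb
    have := hC (t + u.sup b) ∅ (Finset.empty_subset _) ∅ (Finset.empty_subset _) u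
      (hu.trans (Finset.range_subset_range.2 (Nat.le_add_right _ _))) (by simp) (by simp)
      (fun m hm => ⟨huO m hm, fun i hi => by
        have h1 := hb m i hi
        have h2 : b m ≤ u.sup b := Finset.le_sup hm
        omega⟩)
    simpa using this)
  obtain ⟨b₁, hb₁⟩ := hO.bddAbove
  obtain ⟨b₂, hb₂⟩ := hZ.bddAbove
  obtain ⟨b₃, hb₃⟩ := hS.bddAbove
  have h1 : ¬ ∀ i, ep (b₁ + b₂ + b₃ + 1) i ∉ F := fun h => by
    have : b₁ + b₂ + b₃ + 1 ≤ b₂ := hb₂ h
    omega
  push Not at h1
  obtain ⟨i, hi⟩ := h1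
  have h3 : ¬ hv F s (b₁ + b₂ + b₃ + 1) := fun h => by
    have : b₁ + b₂ + b₃ + 1 ≤ b₃ := hb₃ h
    omega
  have h2 : i ≤ b₁ := hb₁ ⟨_, hi, h3⟩
  rcases mem_edgeSet.1 (hF.1 hi) with ⟨m, j, hmj, hj⟩ | ⟨i', j, hj⟩ | ⟨i', j, α, hj⟩
  · obtain ⟨h3, h4⟩ := ep_inj hj
    omega
  · exact ep_ne_er hj
  · exact ep_ne_el hj

end

end Host2

end Pool.Agent.StrongMax
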