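import Pool.Agent.Lib.StrongMax.Cells
import Pool.Agent.Lib.StrongMax.Soft

/-!
# The star host over a rigid set (helper9)

`H` consists of `k + 1` isomorphic components of `H - {s, c}` glued at the adjacent vertices `s`, `c`;
each of them contains exactly one neighbour of `s` outside the rigid set `L`.
-/

namespace Pool.Agent.StrongMax

/-- Vertices of the host. -/
inductive KV (W : Type) (k : ℕ) : Type
  | u
  | w (i : Idx)
  | leg (i : Idx) (l : Fin k) (x : W)
  | cell (i j : Idx) (x : W)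

/-- Indices of the cells. -/
inductive KC (k : ℕ) : Type
  | leg (i : Idx) (l : Fin k)
  | cell (i j : Idx)

/-- The structure of `H`. -/
structure KCtx {W : Type} (H : SimpleGraph W) (L : Set W) (s c : W) (k : ℕ)
    (comp : W → Fin (k + 1)) (xx : Fin (k + 1) → W) (β : Fin (k + 1) → W → W) : Prop where
  hδ : ∀ x, ∃ y z, y ≠ z ∧ H.Adj x y ∧ H.Adj x z
  hL : Rigid H L
  hs : s ∉ L
  hc : c ∉ L
  hcs : c ≠ s
  hst : Star H L s
  hN : ∀ n, n ∉ L → n ≠ s → H.Adj s n
  hxL : ∀ l, xx l ∉ L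
  hxs : ∀ l, xx l ≠ s
  hxc : ∀ l, xx l ≠ c
  hxcomp : ∀ l, comp (xx l) = l
  hout : ∀ n, n ∉ L → n ≠ s → n ≠ c → n = xx (comp n)
  hadj : ∀ a b, H.Adj a b → a ≠ s → a ≠ c → b ≠ s → b ≠ c → comp a = comp b
  hbc : ∀ y ∈ L, bdr H L y c
  hbx : ∀ y ∈ L, bdr H L y (xx (comp y))
  hdeg : (H.neighborSet (xx 0)).ncard < (H.neighborSet c).ncard
  βs : ∀ l, β l s = s
  βc : ∀ l, β l c = c
  βx : ∀ l, β l (xx l) = xx 0
  βinj : ∀ l a b, a ≠ s → a ≠ c → b ≠ s → b ≠ c → comp a = l → comp b = l → β l a = β l b → a = b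
  βmem : ∀ l a, a ≠ s → a ≠ c → comp a = l → β l a ≠ s ∧ β l a ≠ c ∧ comp (β l a) = 0
  βadj : ∀ l a b, H.Adj a b → (a = s ∨ a = c ∨ comp a = l) → (b = s ∨ b = c ∨ comp b = l) →
    H.Adj (β l a) (β l b)

section HostK

variable {W : Type} (H : SimpleGraph W) (s c x₀ : W) {k : ℕ} (comp : W → Fin (k + 1))

open Classical in
/-- The vertices of a leg. -/
noncomputable def legm (i : Idx) (l : Fin k) (x : W) : KV W k :=
  if x = s then .u else if x = c then .w i else .leg i l x

open Classical in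
/-- The vertices of a cell. -/
noncomputable def cellm (k : ℕ) (i j : Idx) (x : W) : KV W k :=
  if x = s then .u else if x = c then .w i else if x = x₀ then .w j else .cell i j x

/-- The items. -/
def itk (W : Type) (k : ℕ) (i : Idx) : Sym2 (KV W k) := s(.u, .w i)

/-- The edges of a leg. -/
def Lk (i : Idx) (l : Fin k) : Set (Sym2 (KV W k)) :=
  {e | ∃ x y, H.Adj x y ∧ x ≠ s ∧ x ≠ c ∧ comp x = 0 ∧ e = s(.leg i l x, legm s c i l y)}

/-- The edges of a cell. -/
def Dk (i j : Idx) : Set (Sym2 (KV W k)) :=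
  {e | ∃ x y, H.Adj x y ∧ x ≠ s ∧ x ≠ c ∧ x ≠ x₀ ∧ comp x = 0 ∧
    e = s(.cell i j x, cellm s c x₀ k i j y)}

/-- The host. -/
def hostK : SimpleGraph (KV W k) :=
  SimpleGraph.fromEdgeSet {e | (∃ i, e = itk W k i) ∨ (∃ i l, e ∈ Lk H s c comp i l) ∨
    ∃ i j, (Idx.Rel i j ∨ Idx.Rel j i) ∧ e ∈ Dk H s c x₀ comp i j}

variable {H s c x₀ comp}

@[simp] theorem legm_s (i : Idx) (l : Fin k) : legm s c i l s = .u := by simp [legm]

theorem legm_c (h : c ≠ s) (i : Idx) (l : Fin k) : legm s c i l c = .w i := by simp [legm, h]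

theorem legm_leg {x : W} (h : x ≠ s) (h' : x ≠ c) (i : Idx) (l : Fin k) :
    legm s c i l x = .leg i l x := by simp [legm, h, h']

theorem legm_eq_w {i j : Idx} {l : Fin k} {x : W} (h : legm s c i l x = .w j) : x = c ∧ j = i := by
  unfold legm at h
  split_ifs at h with h1 h2
  injection h with h3
  exact ⟨h2, h3.symm⟩

theorem legm_eq_u {i : Idx} {l : Fin k} {x : W} (h : legm s c i l x = .u) : x = s := by
  unfold legm at h
  split_ifs at h with h1
  exact h1

theorem legm_eq_leg {i j : Idx} {l m : Fin k} {x y : W} (h : legm s c i l x = .leg j m y) :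
    i = j ∧ l = m ∧ x = y ∧ x ≠ s ∧ x ≠ c := by
  unfold legm at h
  split_ifs at h with h1 h2
  injection h with h3 h4 h5
  exact ⟨h3, h4, h5, h1, h2⟩

theorem legm_ne_cell {i j j' : Idx} {l : Fin k} {x y : W} : legm s c i l x ≠ .cell j j' y := by
  intro h
  unfold legm at h
  split_ifs at h

@[simp] theorem cellm_s (i j : Idx) : cellm s c x₀ k i j s = .u := by simp [cellm]

theorem cellm_c (h : c ≠ s) (i j : Idx) : cellm s c x₀ k i j c = .w i := by simp [cellm, h]

theorem cellm_x (h : x₀ ≠ s) (h' : x₀ ≠ c) (i j : Idx) : cellm s c x₀ k i j x₀ = .w j := by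
  simp [cellm, h, h']

theorem cellm_cell {x : W} (h : x ≠ s) (h' : x ≠ c) (h'' : x ≠ x₀) (i j : Idx) :
    cellm s c x₀ k i j x = .cell i j x := by simp [cellm, h, h', h'']

theorem cellm_eq_w {i j m : Idx} {x : W} (h : cellm s c x₀ k i j x = .w m) :
    (x = c ∧ m = i) ∨ (x = x₀ ∧ m = j) := by
  unfold cellm at h
  split_ifs at h with h1 h2 h3
  · injection h with h4; exact Or.inl ⟨h2, h4.symm⟩
  · injection h with h4; exact Or.inr ⟨h3, h4.symm⟩

theorem cellm_eq_u {i j : Idx} {x : W} (h : cellm s c x₀ k i j x = .u) : x = s := by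
  unfold cellm at h
  split_ifs at h with h1
  exact h1

theorem cellm_eq_cell {i j i' j' : Idx} {x y : W} (h : cellm s c x₀ k i j x = .cell i' j' y) :
    i = i' ∧ j = j' ∧ x = y ∧ x ≠ s ∧ x ≠ c ∧ x ≠ x₀ := by
  unfold cellm at h
  split_ifs at h with h1 h2 h3
  injection h with h4 h5 h6
  exact ⟨h4, h5, h6, h1, h2, h3⟩

theorem cellm_ne_leg {i j i' : Idx} {l : Fin k} {x y : W} :
    cellm s c x₀ k i j x ≠ .leg i' l y := by
  intro h
  unfold cellm at h
  split_ifs at h

theorem hostK_adj_leg {i : Idx} {l : Fin k} {x : W} {v : KV W k}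
    (hB : ∀ a b, H.Adj a b → a ≠ s → a ≠ c → comp a = 0 → b = s ∨ b = c ∨ comp b = 0)
    (h : (hostK H s c x₀ comp).Adj (.leg i l x) v) :
    x ≠ s ∧ x ≠ c ∧ comp x = 0 ∧ ∃ y, H.Adj x y ∧ v = legm s c i l y := by
  rw [hostK, SimpleGraph.fromEdgeSet_adj] at h
  obtain ⟨h | h | h, hne⟩ := h
  · obtain ⟨m, h⟩ := h
    rw [itk, Sym2.eq_iff] at h
    rcases h with ⟨h, -⟩ | ⟨h, -⟩ <;> injection h
  · obtain ⟨i', l', x', y', hxy, hxs, hxc, hx, h⟩ := h
    rw [Sym2.eq_iff] at h
    rcases h with ⟨h, h'⟩ | ⟨h, h'⟩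
    · injection h with h1 h2 h3
      subst h1; subst h2; subst h3
      exact ⟨hxs, hxc, hx, y', hxy, h'⟩
    · obtain ⟨h1, h2, h3, h4, h5⟩ := legm_eq_leg h.symm
      subst h1; subst h2; subst h3
      refine ⟨h4, h5, ?_, x', hxy.symm, by rw [h', legm_leg hxs hxc]⟩
      rcases hB x' y' hxy hxs hxc hx with h6 | h6 | h6
      · exact absurd h6 h4
      · exact absurd h6 h5
      · exact h6
  · obtain ⟨i', j', -, x', y', hxy, hxs, hxc, hx0, hx, h⟩ := h
    rw [Sym2.eq_iff] at h
    rcases h with ⟨h, -⟩ | ⟨h, -⟩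
    · injection h
    · exact absurd h.symm cellm_ne_leg

theorem hostK_adj_cell {i j : Idx} {x : W} {v : KV W k}
    (hB : ∀ a b, H.Adj a b → a ≠ s → a ≠ c → comp a = 0 → b = s ∨ b = c ∨ comp b = 0)
    (h : (hostK H s c x₀ comp).Adj (.cell i j x) v) :
    (Idx.Rel i j ∨ Idx.Rel j i) ∧ x ≠ s ∧ x ≠ c ∧ x ≠ x₀ ∧ comp x = 0 ∧
      ∃ y, H.Adj x y ∧ v = cellm s c x₀ k i j y := by
  rw [hostK, SimpleGraph.fromEdgeSet_adj] at h
  obtain ⟨h | h | h, hne⟩ := h
  · obtain ⟨m, h⟩ := h
    rw [itk, Sym2.eq_iff] at h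
    rcases h with ⟨h, -⟩ | ⟨h, -⟩ <;> injection h
  · obtain ⟨i', l', x', y', hxy, hxs, hxc, hx, h⟩ := h
    rw [Sym2.eq_iff] at h
    rcases h with ⟨h, -⟩ | ⟨h, -⟩
    · injection h
    · exact absurd h.symm legm_ne_cell
  · obtain ⟨i', j', hij, x', y', hxy, hxs, hxc, hx0, hx, h⟩ := h
    rw [Sym2.eq_iff] at h
    rcases h with ⟨h, h'⟩ | ⟨h, h'⟩
    · injection h with h1 h2 h3
      subst h1; subst h2; subst h3
      exact ⟨hij, hxs, hxc, hx0, hx, y', hxy, h'⟩
    · obtain ⟨h1, h2, h3, h4, h5, h6⟩ := cellm_eq_cell h.symm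
      subst h1; subst h2; subst h3
      refine ⟨hij, h4, h5, h6, ?_, x', hxy.symm, by rw [h', cellm_cell hxs hxc hx0]⟩
      rcases hB x' y' hxy hxs hxc hx with h7 | h7 | h7
      · exact absurd h7 h4
      · exact absurd h7 h5
      · exact h7

/-- The roles of the host vertices near a cell. -/
def rhoK (s c x₀ : W) : KC k → KV W k → W
  | _, .u => s
  | .leg _ _, .w _ => c
  | .cell i _, .w m => if m = i then c else x₀
  | _, .leg _ _ x => x
  | _, .cell _ _ x => x

/-- The map of a cell. -/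
noncomputable def hmK (s c x₀ : W) : KC k → W → KV W k
  | .leg i l => legm s c i l
  | .cell i j => cellm s c x₀ k i j

variable {L : Set W} {xx : Fin (k + 1) → W} {β : Fin (k + 1) → W → W}
  (C : KCtx H L s c k comp xx β)

include C

theorem KCtx.hB (a b : W) (hab : H.Adj a b) (has : a ≠ s) (hac : a ≠ c) (ha : comp a = 0) :
    b = s ∨ b = c ∨ comp b = 0 := by
  by_cases h1 : b = s
  · exact Or.inl h1
  · by_cases h2 : b = c
    · exact Or.inr (Or.inl h2)
    · exact Or.inr (Or.inr ((C.hadj a b hab has hac h1 h2).symm.trans ha))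

theorem KCtx.neL {x : W} (hx : x ∈ L) : x ≠ s ∧ x ≠ c ∧ ∀ l, x ≠ xx l :=
  ⟨fun h => C.hs (h ▸ hx), fun h => C.hc (h ▸ hx), fun l h => C.hxL l (h ▸ hx)⟩

theorem KCtx.hm_M {x : W} (hx : x ∈ L) (q : KC k) :
    hmK s c (xx 0) q x = (match q with
      | .leg i l => .leg i l x
      | .cell i j => .cell i j x) := by
  obtain ⟨h1, h2, h3⟩ := C.neL hx
  rcases q with ⟨i, l⟩ | ⟨i, j⟩
  · exact legm_leg h1 h2 i l
  · exact cellm_cell h1 h2 (h3 0) i j

/-- The cells of the host. -/
noncomputable def celledK : Celled H L (hostK H s c (xx 0) comp) (KC k) where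
  hm := hmK s c (xx 0)
  ρ := rhoK s c (xx 0)
  M := fun _ => {x | x ∈ L ∧ comp x = 0}
  u := .u
  sub := fun _ x hx => hx.1
  nbr := by
    rintro (⟨i, l⟩ | ⟨i, j⟩) x hx v h
    · rw [C.hm_M hx.1] at h
      obtain ⟨-, -, -, y, hxy, hv⟩ := hostK_adj_leg C.hB h
      refine ⟨y, hxy, hv, ?_⟩
      rw [hv]
      by_cases h1 : y = s
      · subst h1; simp [rhoK]
      · by_cases h2 : y = c
        · subst h2; rw [legm_c h1]; simp [rhoK]
        · rw [legm_leg h1 h2]; simp [rhoK]
    · rw [C.hm_M hx.1] at h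
      obtain ⟨hij, -, -, -, -, y, hxy, hv⟩ := hostK_adj_cell C.hB h
      have hne : j ≠ i := by
        rcases hij with h | h
        · exact h.ne.symm
        · exact h.ne
      refine ⟨y, hxy, hv, ?_⟩
      rw [hv]
      by_cases h1 : y = s
      · subst h1; simp [rhoK]
      · by_cases h2 : y = c
        · subst h2; rw [cellm_c h1]; simp [rhoK]
        · by_cases h3 : y = xx 0
          · subst h3; rw [cellm_x h1 h2]; simp [rhoK, hne]
          · rw [cellm_cell h1 h2 h3]; simp [rhoK]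
  ρhm := by
    rintro (⟨i, l⟩ | ⟨i, j⟩) x hx
    · rw [C.hm_M hx.1]; simp [rhoK]
    · rw [C.hm_M hx.1]; simp [rhoK]
  clo := by
    intro q x hx y hy hxy
    obtain ⟨h1, h2, -⟩ := C.neL hx.1
    obtain ⟨h3, h4, -⟩ := C.neL hy
    exact ⟨hy, (C.hadj x y hxy h1 h2 h3 h4).symm.trans hx.2⟩
  star := by
    have key : ∀ v v' : KV W k, (∀ q : KC k, ∀ x ∈ {x | x ∈ L ∧ comp x = 0}, v ≠ hmK s c (xx 0) q x) →
        (∀ q : KC k, ∀ x ∈ {x | x ∈ L ∧ comp x = 0}, v' ≠ hmK s c (xx 0) q x) →
        (hostK H s c (xx 0) comp).Adj v v' → ((∃ i l x, v = .leg i l x) ∨ ∃ i j x, v = .cell i j x) →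
        v = .u ∨ v' = .u := by
      rintro v v' hv hv' h (⟨i, l, x, rfl⟩ | ⟨i, j, x, rfl⟩)
      · obtain ⟨hxs, hxc, hx, y, hxy, rfl⟩ := hostK_adj_leg C.hB h
        have hxL : x ∉ L := fun hxL => hv (.leg i l) x ⟨hxL, hx⟩ (legm_leg hxs hxc i l).symm
        have hys : y = s := by
          by_contra hys
          by_cases hyL : y ∈ L
          · obtain ⟨h1, h2, -⟩ := C.neL hyL
            exact hv' (.leg i l) y ⟨hyL, (C.hadj x y hxy hxs hxc h1 h2).symm.trans hx⟩ rfl
          · rcases C.hst x y hxy hxL hyL with h | h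
            · exact hxs h
            · exact hys h
        right
        rw [hys, legm_s]
      · exfalso
        obtain ⟨-, hxs, hxc, hx0, hx, -⟩ := hostK_adj_cell C.hB h
        have hxL : x ∉ L := fun hxL =>
          hv (.cell i j) x ⟨hxL, hx⟩ (cellm_cell hxs hxc hx0 i j).symm
        have := C.hout x hxL hxs hxc
        rw [hx] at this
        exact hx0 this
    intro v v' hv hv' h
    rcases v with _ | i | ⟨i, l, x⟩ | ⟨i, j, x⟩
    · exact Or.inl rfl
    · rcases v' with _ | j | ⟨j, l, x⟩ | ⟨j, j', x⟩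
      · exact Or.inr rfl
      · exfalso
        rw [hostK, SimpleGraph.fromEdgeSet_adj] at h
        obtain ⟨h | h | h, hne⟩ := h
        · obtain ⟨m, h⟩ := h
          rw [itk, Sym2.eq_iff] at h
          rcases h with ⟨h, -⟩ | ⟨-, h⟩ <;> injection h
        · obtain ⟨i', l', x', y', hxy, hxs, hxc, hx, h⟩ := h
          rw [Sym2.eq_iff] at h
          rcases h with ⟨h, -⟩ | ⟨-, h⟩ <;> injection h
        · obtain ⟨i', j', -, x', y', hxy, hxs, hxc, hx0, hx, h⟩ := h
          rw [Sym2.eq_iff] at h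
          rcases h with ⟨h, -⟩ | ⟨-, h⟩ <;> injection h
      · exact (key _ _ hv' hv h.symm (Or.inl ⟨j, l, x, rfl⟩)).symm
      · exact (key _ _ hv' hv h.symm (Or.inr ⟨j, j', x, rfl⟩)).symm
    · exact key _ _ hv hv' h (Or.inl ⟨i, l, x, rfl⟩)
    · exact key _ _ hv hv' h (Or.inr ⟨i, j, x, rfl⟩)

/-- The position of the images of a component of `H[L]`. -/
theorem KCtx.walk [Finite W] {f : W → KV W k} (hf : Function.Injective f)
    (hfa : ∀ a b, H.Adj a b → (hostK H s c (xx 0) comp).Adj (f a) (f b)) {q : KC k} {y x : W}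
    (hx : x ∈ L ∧ comp x = 0) (hy : f y = hmK s c (xx 0) q x) {z : W} (hz : bdr H L y z) :
    ∃ x' x'', x' ∈ L ∧ comp x' = 0 ∧ H.Adj x' x'' ∧ f z = hmK s c (xx 0) q x'' := by
  obtain ⟨y', hyy', hyz, -⟩ := hz
  have hwalk : ∀ y', Lr H L y y' → ∃ x', f y' = hmK s c (xx 0) q x' ∧ (x' ∈ L ∧ comp x' = 0) := by
    intro y' hy'
    induction hy' with
    | refl => exact ⟨x, hy, hx⟩
    | @tail y₁ y₂ _ h ih =>
      obtain ⟨x₁, hx₁, hx₁S⟩ := ih
      obtain ⟨-, h2, -⟩ := (celledK C).local_bij C.hL hf hfa (k := q) (x := x₁) hx₁S hx₁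
      obtain ⟨x₂, -, hx₂, hx₂'⟩ := h2 y₂ h.1
      exact ⟨x₂, hx₂, hx₂' h.2⟩
  obtain ⟨x', hx', hx'S⟩ := hwalk y' hyy'
  obtain ⟨-, h2, -⟩ := (celledK C).local_bij C.hL hf hfa (k := q) (x := x') hx'S hx'
  obtain ⟨x'', hxx, hx'', -⟩ := h2 z hyz
  exact ⟨x', x'', hx'S.1, hx'S.2, hxx, hx''⟩

theorem KCtx.fails [Finite W] : Fails.{0} H := by
  classical
  have h0s : xx 0 ≠ s := C.hxs 0
  have h0c : xx 0 ≠ c := C.hxc 0
  have hmain : ∀ f : W → KV W k, Function.Injective f →
      (∀ a b, H.Adj a b → (hostK H s c (xx 0) comp).Adj (f a) (f b)) →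
      f s = .u ∧ ∀ a, a ∈ L ↔ f a ∈ (celledK C).T := fun f hf hfa =>
    (celledK C).main C.hL hf hfa C.hδ C.hs C.hc (C.hxL 0) h0c.symm (C.hN c C.hc C.hcs)
      (C.hN _ (C.hxL 0) h0s)
  have hGe : (hostK H s c (xx 0) comp).edgeSet = {e | (∃ i, e = itk W k i) ∨
      (∃ i l, e ∈ Lk H s c comp i l) ∨
      ∃ i j, (Idx.Rel i j ∨ Idx.Rel j i) ∧ e ∈ Dk H s c (xx 0) comp i j} := by
    rw [hostK, SimpleGraph.edgeSet_fromEdgeSet]
    apply sdiff_eq_left.2
    rw [Set.disjoint_left]
    rintro e (⟨i, rfl⟩ | ⟨i, l, x, y, hxy, -, -, -, rfl⟩ |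
      ⟨i, j, -, x, y, hxy, -, -, -, -, rfl⟩) h
    · simp [itk] at h
    · rw [Sym2.mem_diagSet, Sym2.mk_isDiag_iff] at h
      exact hxy.ne (legm_eq_leg h.symm).2.2.1.symm
    · rw [Sym2.mem_diagSet, Sym2.mk_isDiag_iff] at h
      exact hxy.ne (cellm_eq_cell h.symm).2.2.1.symm
  refine ⟨KV W k, hostK H s c (xx 0) comp, not_stronglyMaximal_of_star bad_idx
    (fun i j h => h.asymm) k (itk W k) (Lk H s c comp) (Dk H s c (xx 0) comp)
    ?_ ?_ ?_ ?_ ?_ ?_ ?_ ?_ ?_ ?_ ?_⟩
  · intro i j h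
    rw [itk, itk, Sym2.eq_iff] at h
    rcases h with ⟨-, h⟩ | ⟨h, -⟩
    · injection h
    · injection h
  · intro i; rw [hGe]; exact Or.inl ⟨i, rfl⟩
  · intro i j hij e he; rw [hGe]; exact Or.inr (Or.inr ⟨i, j, hij, he⟩)
  · intro i l e he; rw [hGe]; exact Or.inr (Or.inl ⟨i, l, he⟩)
  · rintro i k' l - ⟨x, y, hxy, -, -, -, -, h⟩
    rw [itk, Sym2.eq_iff] at h
    rcases h with ⟨h, -⟩ | ⟨-, h⟩ <;> injection h
  · rintro i j l ⟨x, y, hxy, -, -, -, h⟩
    rw [itk, Sym2.eq_iff] at h
    rcases h with ⟨h, -⟩ | ⟨-, h⟩ <;> injection h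
  · rintro i j i' j' e - - ⟨x, y, hxy, -, -, -, -, rfl⟩ ⟨x', y', hxy', -, -, -, -, h⟩
    rw [Sym2.eq_iff] at h
    rcases h with ⟨h, -⟩ | ⟨h, -⟩
    · injection h with h1 h2
      exact ⟨h1, h2⟩
    · obtain ⟨h1, h2, -⟩ := cellm_eq_cell h.symm
      exact ⟨h1.symm, h2.symm⟩
  · rintro i j i' l e - ⟨x, y, hxy, -, -, -, -, rfl⟩ ⟨x', y', hxy', -, -, -, h⟩
    rw [Sym2.eq_iff] at h
    rcases h with ⟨h, -⟩ | ⟨h, -⟩
    · injection h
    · exact absurd h.symm legm_ne_cell
  · rintro i l j m e ⟨x, y, hxy, -, -, -, rfl⟩ ⟨x', y', hxy', -, -, -, h⟩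
    rw [Sym2.eq_iff] at h
    rcases h with ⟨h, -⟩ | ⟨h, -⟩
    · injection h with h1 h2
      exact ⟨h1, h2⟩
    · obtain ⟨h1, h2, -⟩ := legm_eq_leg h.symm
      exact ⟨h1.symm, h2.symm⟩
  · -- (Y1)
    intro i J M hJ hcard
    rw [not_hFree_iff]
    obtain ⟨τ⟩ : Nonempty (Fin (k + 1) ↪ ({j // j ∈ J} ⊕ {l // l ∈ M})) := by
      apply Function.Embedding.nonempty_of_card_le
      rw [Fintype.card_sum, Fintype.card_coe, Fintype.card_coe, Fintype.card_fin]
      exact hcard
    let pm : ({j // j ∈ J} ⊕ {l // l ∈ M}) → W → KV W k := fun t =>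
      match t with
      | .inl j => cellm s c (xx 0) k i j.1
      | .inr l => legm s c i l.1
    have hpms : ∀ t, pm t s = .u := by
      rintro (j | l)
      · exact cellm_s i j.1
      · exact legm_s i l.1
    have hpmc : ∀ t, pm t c = .w i := by
      rintro (j | l)
      · exact cellm_c C.hcs i j.1
      · exact legm_c C.hcs i l.1
    have hne : ∀ j : {j // j ∈ J}, j.1 ≠ i := by
      intro j
      rcases hJ j.1 j.2 with h | h
      · exact h.ne.symm
      · exact h.ne
    have hpm1 : ∀ t b, b ≠ s → b ≠ c → pm t b ≠ .u ∧ pm t b ≠ .w i := by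
      rintro (j | l) b hbs hbc
      · refine ⟨fun h => hbs (cellm_eq_u h), fun h => ?_⟩
        rcases cellm_eq_w h with ⟨h1, -⟩ | ⟨-, h1⟩
        · exact hbc h1
        · exact hne j h1.symm
      · exact ⟨fun h => hbs (legm_eq_u h), fun h => hbc (legm_eq_w h).1⟩
    have hpm2 : ∀ t t' b b', b ≠ s → b ≠ c → b' ≠ s → b' ≠ c → pm t b = pm t' b' →
        t = t' ∧ b = b' := by
      rintro (j | l) (j' | l') b b' hbs hbc hbs' hbc' h
      · by_cases hb0 : b = xx 0
        · subst hb0
          have h1 : pm (.inl j) (xx 0) = .w j.1 := cellm_x h0s h0c i j.1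
          rw [h1] at h
          rcases cellm_eq_w h.symm with ⟨h2, -⟩ | ⟨h2, h3⟩
          · exact absurd h2 hbc'
          · exact ⟨by rw [Subtype.ext h3], h2.symm⟩
        · have h1 : pm (.inl j) b = .cell i j.1 b := cellm_cell hbs hbc hb0 i j.1
          rw [h1] at h
          obtain ⟨-, h2, h3, -⟩ := cellm_eq_cell h.symm
          exact ⟨by rw [Subtype.ext h2.symm], h3.symm⟩
      · exfalso
        have h1 : pm (.inr l') b' = .leg i l'.1 b' := legm_leg hbs' hbc' i l'.1
        rw [h1] at h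
        exact cellm_ne_leg h
      · exfalso
        have h1 : pm (.inr l) b = .leg i l.1 b := legm_leg hbs hbc i l.1
        rw [h1] at h
        exact cellm_ne_leg h.symm
      · have h1 : pm (.inr l) b = .leg i l.1 b := legm_leg hbs hbc i l.1
        rw [h1] at h
        obtain ⟨-, h2, h3, -⟩ := legm_eq_leg h.symm
        exact ⟨by rw [Subtype.ext h2.symm], h3.symm⟩
    let ψ : W → KV W k := fun a => pm (τ (comp a)) (β (comp a) a)
    have hψs : ψ s = .u := by show pm _ (β _ s) = _; rw [C.βs, hpms]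
    have hψc : ψ c = .w i := by show pm _ (β _ c) = _; rw [C.βc, hpmc]
    have hψ1 : ∀ a, a ≠ s → a ≠ c → ψ a ≠ .u ∧ ψ a ≠ .w i := by
      intro a has hac
      obtain ⟨h1, h2, -⟩ := C.βmem (comp a) a has hac rfl
      exact hpm1 _ _ h1 h2
    refine ⟨ψ, ?_, ?_⟩
    · intro a a' h
      by_cases ha : a = s
      · by_cases ha' : a' = s
        · rw [ha, ha']
        · by_cases ha'c : a' = c
          · rw [ha, ha'c, hψs, hψc] at h
            injection h
          · rw [ha, hψs] at h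
            exact absurd h.symm (hψ1 a' ha' ha'c).1
      · by_cases hac : a = c
        · by_cases ha' : a' = s
          · rw [hac, ha', hψs, hψc] at h
            injection h
          · by_cases ha'c : a' = c
            · rw [hac, ha'c]
            · rw [hac, hψc] at h
              exact absurd h.symm (hψ1 a' ha' ha'c).2
        · by_cases ha' : a' = s
          · rw [ha', hψs] at h
            exact absurd h (hψ1 a ha hac).1
          · by_cases ha'c : a' = c
            · rw [ha'c, hψc] at h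
              exact absurd h (hψ1 a ha hac).2
            · obtain ⟨h1, h2, -⟩ := C.βmem (comp a) a ha hac rfl
              obtain ⟨h3, h4, -⟩ := C.βmem (comp a') a' ha' ha'c rfl
              obtain ⟨h5, h6⟩ := hpm2 _ _ _ _ h1 h2 h3 h4 h
              have h7 := τ.injective h5
              rw [← h7] at h6
              exact C.βinj (comp a) a a' ha hac ha' ha'c rfl h7.symm h6
    · -- edges
      have hpe : ∀ t : ({j // j ∈ J} ⊕ {l // l ∈ M}), ∀ x y, H.Adj x y → x ≠ s → x ≠ c →
          comp x = 0 → (y = s ∨ y = c ∨ comp y = 0) →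
          s(pm t x, pm t y) ∈ {e | e = itk W k i ∨ (∃ l ∈ M, e ∈ Lk H s c comp i l) ∨
            ∃ j ∈ J, e = itk W k j ∨ e ∈ Dk H s c (xx 0) comp i j} := by
        rintro (j | l) x y hxy hxs hxc hx hy
        · right; right
          refine ⟨j.1, j.2, ?_⟩
          by_cases hx0 : x = xx 0
          · by_cases hys : y = s
            · left
              subst hx0; subst hys
              show s(cellm _ _ _ _ _ _ _, cellm _ _ _ _ _ _ _) = _
              rw [cellm_x h0s h0c, cellm_s]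
              exact Sym2.eq_swap
            · right
              have hyL : y ∈ L := by
                by_contra hyL
                rcases C.hst x y hxy (hx0 ▸ C.hxL 0) hyL with h | h
                · exact hxs h
                · exact hys h
              obtain ⟨g1, g2, g3⟩ := C.neL hyL
              have hy0 : comp y = 0 := by
                rcases hy with h | h | h
                · exact absurd h g1
                · exact absurd h g2
                · exact h
              refine ⟨y, x, hxy.symm, g1, g2, g3 0, hy0, ?_⟩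
              show s(cellm _ _ _ _ _ _ _, cellm _ _ _ _ _ _ _) = _
              rw [cellm_cell g1 g2 (g3 0), Sym2.eq_swap]
          · right
            refine ⟨x, y, hxy, hxs, hxc, hx0, hx, ?_⟩
            show s(cellm _ _ _ _ _ _ _, cellm _ _ _ _ _ _ _) = _
            rw [cellm_cell hxs hxc hx0]
        · right; left
          refine ⟨l.1, l.2, x, y, hxy, hxs, hxc, hx, ?_⟩
          show s(legm _ _ _ _ _, legm _ _ _ _ _) = _
          rw [legm_leg hxs hxc]
      have hed : ∀ a b, H.Adj a b → a ≠ s → a ≠ c →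
          s(ψ a, ψ b) ∈ {e | e = itk W k i ∨ (∃ l ∈ M, e ∈ Lk H s c comp i l) ∨
            ∃ j ∈ J, e = itk W k j ∨ e ∈ Dk H s c (xx 0) comp i j} := by
        intro a b hab has hac
        obtain ⟨h1, h2, h3⟩ := C.βmem (comp a) a has hac rfl
        have hb : b = s ∨ b = c ∨ comp b = comp a := by
          by_cases hbs : b = s
          · exact Or.inl hbs
          · by_cases hbc : b = c
            · exact Or.inr (Or.inl hbc)
            · exact Or.inr (Or.inr (C.hadj a b hab has hac hbs hbc).symm)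
        have hψb : ψ b = pm (τ (comp a)) (β (comp a) b) := by
          rcases hb with h | h | h
          · rw [h, hψs, C.βs, hpms]
          · rw [h, hψc, C.βc, hpmc]
          · show pm _ _ = _
            rw [h]
        rw [hψb]
        refine hpe (τ (comp a)) _ _ (C.βadj (comp a) a b hab (Or.inr (Or.inr rfl)) hb) h1 h2 h3 ?_
        rcases hb with h | h | h
        · left; rw [h, C.βs]
        · right; left; rw [h, C.βc]
        · by_cases hbs : b = s
          · left; rw [hbs, C.βs]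
          · by_cases hbc : b = c
            · right; left; rw [hbc, C.βc]
            · exact Or.inr (Or.inr (C.βmem (comp a) b hbs hbc h).2.2)
      intro a b hab
      by_cases ha : a ≠ s ∧ a ≠ c
      · exact hed a b hab ha.1 ha.2
      by_cases hb : b ≠ s ∧ b ≠ c
      · rw [Sym2.eq_swap]; exact hed b a hab.symm hb.1 hb.2
      left
      have ha' : a = s ∨ a = c := by tauto
      have hb' : b = s ∨ b = c := by tauto
      rcases ha' with ha' | ha' <;> rcases hb' with hb' | hb'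
      · exact absurd (ha'.trans hb'.symm) hab.ne
      · rw [ha', hb', hψs, hψc]; rfl
      · rw [ha', hb', hψs, hψc]; exact Sym2.eq_swap
      · exact absurd (ha'.trans hb'.symm) hab.ne
  · -- (hB)
    intro f hf hfa
    obtain ⟨hfs, hT⟩ := hmain f hf hfa
    have hfL : ∀ a ∈ L, ∃ q x, (x ∈ L ∧ comp x = 0) ∧ f a = hmK s c (xx 0) q x := by
      intro a ha
      obtain ⟨q, x, hx, h⟩ := (hT a).1 ha
      exact ⟨q, x, hx, h⟩
    have hfN : ∀ a ∉ L, ∀ q x, x ∈ L ∧ comp x = 0 → f a ≠ hmK s c (xx 0) q x := by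
      intro a ha q x hx h
      exact ha ((hT a).2 ⟨q, x, hx, h⟩)
    -- outer vertices
    have hout : ∀ n, n ∉ L → n ≠ s → (∃ j, f n = .w j) ∨ ∃ i l, f n = .leg i l (xx 0) := by
      intro n hn hns
      have h := hfa s n (C.hN n hn hns)
      rw [hfs] at h
      rcases hfn : f n with _ | j | ⟨i, l, x⟩ | ⟨i, j, x⟩
      · exact absurd (hf (hfn.trans hfs.symm)) hns
      · exact Or.inl ⟨j, rfl⟩
      · right
        rw [hfn] at h
        obtain ⟨hxs, hxc, hx, y, hxy, hv⟩ := hostK_adj_leg C.hB h.symm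
        have hxL : x ∉ L := by
          intro hxL
          exact hfN n hn (.leg i l) x ⟨hxL, hx⟩ (hfn.trans (legm_leg hxs hxc i l).symm)
        have := C.hout x hxL hxs hxc
        rw [hx] at this
        exact ⟨i, l, by rw [this]⟩
      · exfalso
        rw [hfn] at h
        obtain ⟨-, hxs, hxc, hx0, hx, y, hxy, hv⟩ := hostK_adj_cell C.hB h.symm
        have hxL : x ∉ L := by
          intro hxL
          exact hfN n hn (.cell i j) x ⟨hxL, hx⟩ (hfn.trans (cellm_cell hxs hxc hx0 i j).symm)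
        have := C.hout x hxL hxs hxc
        rw [hx] at this
        exact hx0 this
    -- the centre
    obtain ⟨i, hi⟩ : ∃ i, f c = .w i := by
      rcases hout c C.hc C.hcs with h | ⟨i, l, h⟩
      · exact h
      · exfalso
        have h1 : ∀ b, H.Adj c b → ∃ y, H.Adj (xx 0) y ∧ f b = legm s c i l y := by
          intro b hb
          have h2 := hfa _ _ hb
          rw [h] at h2
          obtain ⟨-, -, -, y, hy, hv⟩ := hostK_adj_leg C.hB h2
          exact ⟨y, hy, hv⟩
        choose! σ hσ hσ' using h1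
        have h2 : (H.neighborSet c).ncard ≤ (H.neighborSet (xx 0)).ncard := by
          refine Set.ncard_le_ncard_of_injOn σ (fun b hb => hσ b hb) ?_ (Set.toFinite _)
          intro b hb b' hb' h
          exact hf (by rw [hσ' b hb, hσ' b' hb', h])
        have := C.hdeg
        omega
    -- the position of the components
    have hpos : ∀ y ∈ L, ∀ q x, (x ∈ L ∧ comp x = 0) → f y = hmK s c (xx 0) q x →
        (∃ l, q = .leg i l ∧ f (xx (comp y)) = .leg i l (xx 0)) ∨
        (∃ j, (q = .cell i j ∨ q = .cell j i) ∧ f (xx (comp y)) = .w j) := by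
      intro y hy q x hx hq
      obtain ⟨a1, a2, ha1, ha1', ha12, ha2⟩ := C.walk hf hfa hx hq (C.hbc y hy)
      obtain ⟨b1, b2, hb1, hb1', hb12, hb2⟩ := C.walk hf hfa hx hq (C.hbx y hy)
      rw [hi] at ha2
      have hxm := C.hxL (comp y)
      have hxmu : f (xx (comp y)) ≠ .u := fun h => C.hxs _ (hf (h.trans hfs.symm))
      have hxmi : f (xx (comp y)) ≠ .w i := fun h => C.hxc _ (hf (h.trans hi.symm))
      obtain ⟨g1, g2, -⟩ := C.neL hb1
      -- the vertex `b2`
      have hb2L : b2 ∉ L := by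
        intro h
        obtain ⟨g3, g4, -⟩ := C.neL h
        exact hfN _ hxm q b2 ⟨h, (C.hadj b1 b2 hb12 g1 g2 g3 g4).symm.trans hb1'⟩ hb2
      have hb20 : b2 = s ∨ b2 = c ∨ b2 = xx 0 := by
        by_cases h1 : b2 = s
        · exact Or.inl h1
        · by_cases h2 : b2 = c
          · exact Or.inr (Or.inl h2)
          · right; right
            have := C.hout b2 hb2L h1 h2
            rw [← C.hadj b1 b2 hb12 g1 g2 h1 h2, hb1'] at this
            exact this
      rcases q with ⟨i', l⟩ | ⟨i', j'⟩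
      · left
        have ha2' : (KV.w i : KV W k) = legm s c i' l a2 := ha2
        obtain ⟨-, h1⟩ := legm_eq_w ha2'.symm
        subst h1
        refine ⟨l, rfl, ?_⟩
        have hb2' : f (xx (comp y)) = legm s c i l b2 := hb2
        rcases hb20 with h | h | h
        · exact absurd (by rw [hb2', h, legm_s]) hxmu
        · exact absurd (by rw [hb2', h, legm_c C.hcs]) hxmi
        · rw [hb2', h, legm_leg h0s h0c]
      · right
        have ha2' : (KV.w i : KV W k) = cellm s c (xx 0) k i' j' a2 := ha2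
        have hb2' : f (xx (comp y)) = cellm s c (xx 0) k i' j' b2 := hb2
        rcases cellm_eq_w ha2'.symm with ⟨-, h1⟩ | ⟨-, h1⟩
        · subst h1
          refine ⟨j', Or.inl rfl, ?_⟩
          rcases hb20 with h | h | h
          · exact absurd (by rw [hb2', h, cellm_s]) hxmu
          · exact absurd (by rw [hb2', h, cellm_c C.hcs]) hxmi
          · rw [hb2', h, cellm_x h0s h0c]
        · subst h1
          refine ⟨i', Or.inr rfl, ?_⟩
          rcases hb20 with h | h | h
          · exact absurd (by rw [hb2', h, cellm_s]) hxmu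
          · rw [hb2', h, cellm_c C.hcs]
          · exact absurd (by rw [hb2', h, cellm_x h0s h0c]) hxmi
    -- conflicts
    have hconf : ∀ y ∈ L, ∀ q x, (x ∈ L ∧ comp x = 0) → f y = hmK s c (xx 0) q x →
        ∀ i' j', q = .cell i' j' → Idx.Rel i' j' ∨ Idx.Rel j' i' := by
      rintro y hy q x hx hq i' j' rfl
      obtain ⟨y', z', -, hy', -⟩ := C.hδ y
      have h := hfa _ _ hy'
      rw [hq, C.hm_M hx.1] at h
      exact (hostK_adj_cell C.hB h).1
    -- each special vertex has a neighbour in `L`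
    have hnbr : ∀ l, ∃ y ∈ L, H.Adj (xx l) y ∧ comp y = l := by
      intro l
      obtain ⟨y, z, hyz, hy, hz⟩ := C.hδ (xx l)
      have key : ∀ y, H.Adj (xx l) y → y ≠ s → y ∈ L := by
        intro y hy hys
        by_contra hyL
        rcases C.hst _ _ hy (C.hxL l) hyL with h | h
        · exact C.hxs l h
        · exact hys h
      have key2 : ∀ y ∈ L, H.Adj (xx l) y → comp y = l := by
        intro y hyL hy
        obtain ⟨g1, g2, -⟩ := C.neL hyL
        rw [← C.hadj _ _ hy (C.hxs l) (C.hxc l) g1 g2, C.hxcomp]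
      by_cases hys : y = s
      · have hzs : z ≠ s := fun h => hyz (hys.trans h.symm)
        exact ⟨z, key z hz hzs, hz, key2 z (key z hz hzs) hz⟩
      · exact ⟨y, key y hy hys, hy, key2 y (key y hy hys) hy⟩
    have hxm : ∀ l, (∃ m, f (xx l) = .leg i m (xx 0)) ∨
        ∃ j, (Idx.Rel i j ∨ Idx.Rel j i) ∧ f (xx l) = .w j := by
      intro l
      obtain ⟨y, hyL, -, hyl⟩ := hnbr l
      obtain ⟨q, x, hx, hq⟩ := hfL y hyL
      have hp := hpos y hyL q x hx hq
      rw [hyl] at hp
      rcases hp with ⟨m, -, h⟩ | ⟨j, hqj, h⟩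
      · exact Or.inl ⟨m, h⟩
      · right
        rcases hqj with hqj | hqj
        · exact ⟨j, hconf y hyL q x hx hq i j hqj, h⟩
        · exact ⟨j, (hconf y hyL q x hx hq j i hqj).symm, h⟩
    refine ⟨i, ⟨s, c, C.hN c C.hc C.hcs, by rw [hfs, hi]; rfl⟩, ?_, ?_⟩
    · by_contra hcon
      have hall : ∀ l, ∃ m, f (xx l) = .leg i m (xx 0) := by
        intro l
        rcases hxm l with h | ⟨j, hij, h⟩
        · exact h
        · exact absurd ⟨j, hij, s, xx l, C.hN _ (C.hxL l) (C.hxs l), by rw [hfs, h]; rfl⟩ hcon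
      choose m hm using hall
      have hinj : Function.Injective m := by
        intro l l' h
        have h1 : xx l = xx l' := hf (by rw [hm, hm, h])
        rw [← C.hxcomp l, h1, C.hxcomp]
      have := Fintype.card_le_of_injective m hinj
      simp at this
    · have hed : ∀ a b, H.Adj a b → a ∈ L →
          s(f a, f b) = itk W k i ∨ (∃ l, s(f a, f b) ∈ Lk H s c comp i l) ∨
          ∃ j, (Idx.Rel i j ∨ Idx.Rel j i) ∧ (∃ c d, H.Adj c d ∧ s(f c, f d) = itk W k j) ∧
            (s(f a, f b) = itk W k j ∨ s(f a, f b) ∈ Dk H s c (xx 0) comp i j ∨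
              s(f a, f b) ∈ Dk H s c (xx 0) comp j i) := by
        intro a b hab haL
        obtain ⟨q, x, hx, hq⟩ := hfL a haL
        obtain ⟨-, h2, -⟩ := (celledK C).local_bij C.hL hf hfa (k := q) (x := x) hx hq
        obtain ⟨y, hxy, hy, -⟩ := h2 b hab
        have hy' : f b = hmK s c (xx 0) q y := hy
        obtain ⟨g1, g2, g3⟩ := C.neL hx.1
        rcases hpos a haL q x hx hq with ⟨l, rfl, h⟩ | ⟨j, hqj, h⟩
        · right; left
          refine ⟨l, x, y, hxy, g1, g2, hx.2, ?_⟩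
          rw [hq, hy', C.hm_M hx.1]; rfl
        · right; right
          have hitem : ∃ c d, H.Adj c d ∧ s(f c, f d) = itk W k j :=
            ⟨s, xx (comp a), C.hN _ (C.hxL _) (C.hxs _), by rw [hfs, h]; rfl⟩
          rcases hqj with rfl | rfl
          · refine ⟨j, hconf a haL _ x hx hq i j rfl, hitem, Or.inr (Or.inl ?_)⟩
            refine ⟨x, y, hxy, g1, g2, g3 0, hx.2, ?_⟩
            rw [hq, hy', C.hm_M hx.1]; rfl
          · refine ⟨j, (hconf a haL _ x hx hq j i rfl).symm, hitem, Or.inr (Or.inr ?_)⟩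
            refine ⟨x, y, hxy, g1, g2, g3 0, hx.2, ?_⟩
            rw [hq, hy', C.hm_M hx.1]; rfl
      have hes : ∀ b, H.Adj s b → b ∉ L →
          s(f s, f b) = itk W k i ∨ (∃ l, s(f s, f b) ∈ Lk H s c comp i l) ∨
          ∃ j, (Idx.Rel i j ∨ Idx.Rel j i) ∧ (∃ c d, H.Adj c d ∧ s(f c, f d) = itk W k j) ∧
            (s(f s, f b) = itk W k j ∨ s(f s, f b) ∈ Dk H s c (xx 0) comp i j ∨
              s(f s, f b) ∈ Dk H s c (xx 0) comp j i) := by
        intro b hsb hbL
        by_cases hbc : b = c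
        · left; rw [hbc, hfs, hi]; rfl
        · have hb := C.hout b hbL hsb.ne.symm hbc
          rcases hxm (comp b) with ⟨l, h⟩ | ⟨j, hij, h⟩
          · right; left
            refine ⟨l, xx 0, s, (C.hN _ (C.hxL 0) h0s).symm, h0s, h0c, C.hxcomp 0, ?_⟩
            rw [hfs, hb, h, legm_s, Sym2.eq_swap]
          · right; right
            refine ⟨j, hij, ⟨s, b, hsb, by rw [hfs, hb, h]; rfl⟩, Or.inl ?_⟩
            rw [hfs, hb, h]; rfl
      intro a b hab
      by_cases haL : a ∈ L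
      · exact hed a b hab haL
      by_cases hbL : b ∈ L
      · rw [Sym2.eq_swap]; exact hed b a hab.symm hbL
      rcases C.hst a b hab haL hbL with h | h
      · subst h; exact hes b hab hbL
      · subst h; rw [Sym2.eq_swap]; exact hes a hab.symm haL

end HostK

end Pool.Agent.StrongMax
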