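import Pool.Agent.Lib.StrongMax.Cells
import Pool.Agent.Lib.StrongMax.Soft

/-!
# The apex host over a rigid set (helper9)
-/

namespace Pool.Agent.StrongMax

/-- Vertices of the host. -/
inductive PV (W : Type) : Type
  | u
  | w (i : Idx)
  | p (i j : Idx) (x : W)
  | q (i : Idx) (t : Bool) (x : W)

/-- Indices of the cells. -/
inductive PC : Type
  | p (i j : Idx)
  | q (i : Idx) (t : Bool) (α : Bool)

section Pages

variable {W : Type} {H : SimpleGraph W} {L : Set W} {s : W}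

theorem SOn.adj {n x y : W} (hx : x ∈ SOn H L s n) (hxy : H.Adj x y) :
    y ∈ SOn H L s n ∨ y = s ∨ y = n := by
  by_cases hy : y ∈ L
  · left
    refine ⟨hy, ?_⟩
    rintro z ⟨y', h1, h2, h3⟩
    exact hx.2 z ⟨y', Relation.ReflTransGen.head ⟨hxy, hy⟩ h1, h2, h3⟩
  · exact Or.inr (hx.2 y ⟨x, Relation.ReflTransGen.refl, hxy, hy⟩)

theorem SOn.of_adj {n x y : W} (hs : s ∉ L) (hn : n ∉ L) (hx : x ∈ SOn H L s n) (hy : y ∈ L)
    (hxy : H.Adj x y) : y ∈ SOn H L s n := by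
  rcases SOn.adj hx hxy with h | h | h
  · exact h
  · exact absurd (h ▸ hy) hs
  · exact absurd (h ▸ hy) hn

/-- The structure around a rigid set all of whose outer vertices are adjacent to `s`. -/
structure PCtx (H : SimpleGraph W) (L : Set W) (s n₁ n₂ : W) : Prop where
  h2 : Conn2 H
  hδ : ∀ x, ∃ y z, y ≠ z ∧ H.Adj x y ∧ H.Adj x z
  hL : Rigid H L
  hs : s ∉ L
  hst : Star H L s
  hN : ∀ n, n ∉ L → n ≠ s → H.Adj s n
  hn₁ : n₁ ∉ L
  hn₂ : n₂ ∉ L
  hn₁s : n₁ ≠ s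
  hn₂s : n₂ ≠ s
  hn : n₁ ≠ n₂

variable {n₁ n₂ : W} (c : PCtx H L s n₁ n₂)

include c

theorem PCtx.not_adj {a b : W} (ha : a ∉ L) (hb : b ∉ L) (has : a ≠ s) (hbs : b ≠ s) :
    ¬ H.Adj a b := by
  intro h
  rcases c.hst a b h ha hb with h | h
  · exact has h
  · exact hbs h

/-- The component of `x` in `H[L]` has a boundary vertex different from `q`. -/
theorem PCtx.exists_bdr {x : W} (hx : x ∈ L) (q : W) (hq : q ∉ L) : ∃ z, z ≠ q ∧ bdr H L x z := by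
  obtain ⟨a, ha, b, hb, haq, hbq, hab⟩ := c.h2 {y | Lr H L x y} q
    ⟨x, Relation.ReflTransGen.refl, fun h => hq (h ▸ hx)⟩ (by
      have hout : ∀ y, y ∉ L → ¬ Lr H L x y := by
        intro y hy h
        rcases Relation.ReflTransGen.cases_tail h with h | ⟨z, -, h⟩
        · exact hy (h ▸ hx)
        · exact hy h.2
      by_cases h1 : n₁ = q
      · exact ⟨n₂, hout n₂ c.hn₂, fun h => c.hn (h1.trans h.symm)⟩
      · exact ⟨n₁, hout n₁ c.hn₁, h1⟩)
  refine ⟨b, hbq, a, ha, hab, fun hbL => hb ?_⟩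
  exact Relation.ReflTransGen.tail ha ⟨hab, hbL⟩

theorem PCtx.disj {x : W} (h1 : x ∈ SOn H L s n₁) (h2 : x ∈ SOn H L s n₂) : False := by
  obtain ⟨z, hz, hb⟩ := c.exists_bdr h1.1 s c.hs
  rcases h1.2 z hb with h | h
  · exact hz h
  · rcases h2.2 z hb with h' | h'
    · exact hz h'
    · exact c.hn (h.symm.trans h')

/-- Each outer vertex has a component of `H[L]` which is attached elsewhere, too. -/
theorem PCtx.exists_page {n : W} (hn : n ∉ L) (hns : n ≠ s) :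
    ∃ y ∈ L, H.Adj n y ∧ y ∉ SOn H L s n := by
  obtain ⟨a, ha, b, hb, has, hbs, hab⟩ := c.h2 {y | y = n ∨ y ∈ SOn H L s n} s
    ⟨n, Or.inl rfl, hns⟩ (by
      by_cases h1 : n = n₁
      · refine ⟨n₂, ?_, c.hn₂s⟩
        rintro (h | h)
        · exact c.hn (h.trans h1).symm
        · exact c.hn₂ h.1
      · refine ⟨n₁, ?_, c.hn₁s⟩
        rintro (h | h)
        · exact h1 h.symm
        · exact c.hn₁ h.1)
  rcases ha with rfl | ha
  · have hbL : b ∈ L := by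
      by_contra h
      exact c.not_adj hn h hns hbs hab
    exact ⟨b, hbL, hab, fun h => hb (Or.inr h)⟩
  · rcases SOn.adj ha hab with h | h | h
    · exact absurd (Or.inr h) hb
    · exact absurd h hbs
    · exact absurd (Or.inl h) hb

end Pages

section HostP

variable {W : Type} (H : SimpleGraph W) (L : Set W) (s n₁ n₂ : W)

open Classical in
/-- The vertices of the piece of a conflict. -/
noncomputable def hpi (i j : Idx) (x : W) : PV W :=
  if x = s then .u else if x = n₁ then .w i else if x = n₂ then .w j else .p i j x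

open Classical in
/-- The vertices of a pool. -/
noncomputable def hpo (i : Idx) (t : Bool) (x : W) : PV W :=
  if x = s then .u else if x = n₁ ∨ x = n₂ then .w i else .q i t x

/-- The components of `H[L]` attached to `s` and one of the terminals only. -/
def SO2 : Set W := SOn H L s n₁ ∪ SOn H L s n₂

/-- The items. -/
def ite (W : Type) (i : Idx) : Sym2 (PV W) := s(.u, .w i)

/-- The edges of a piece. -/
def Dp (i j : Idx) : Set (Sym2 (PV W)) :=
  {e | ∃ x y, H.Adj x y ∧ x ∉ SO2 H L s n₁ n₂ ∧ y ∉ SO2 H L s n₁ n₂ ∧ x ≠ s ∧ x ≠ n₁ ∧ x ≠ n₂ ∧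
    e = s(.p i j x, hpi s n₁ n₂ i j y)}

/-- The edges of a pool. -/
def Qp (i : Idx) (t : Bool) : Set (Sym2 (PV W)) :=
  {e | ∃ x y, H.Adj x y ∧ x ∈ SO2 H L s n₁ n₂ ∧ e = s(.q i t x, hpo s n₁ n₂ i t y)}

/-- The host. -/
def hostP : SimpleGraph (PV W) :=
  SimpleGraph.fromEdgeSet {e | (∃ i, e = ite W i) ∨ (∃ i j, Idx.Rel i j ∧ e ∈ Dp H L s n₁ n₂ i j) ∨
    ∃ i t, e ∈ Qp H L s n₁ n₂ i t}

variable {H L s n₁ n₂}

@[simp] theorem hpi_s (i j : Idx) : hpi s n₁ n₂ i j s = .u := by simp [hpi]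

theorem hpi_n₁ (h : n₁ ≠ s) (i j : Idx) : hpi s n₁ n₂ i j n₁ = .w i := by simp [hpi, h]

theorem hpi_n₂ (h : n₂ ≠ s) (h' : n₁ ≠ n₂) (i j : Idx) : hpi s n₁ n₂ i j n₂ = .w j := by
  simp [hpi, h, h'.symm]

theorem hpi_p {x : W} (h : x ≠ s) (h1 : x ≠ n₁) (h2 : x ≠ n₂) (i j : Idx) :
    hpi s n₁ n₂ i j x = .p i j x := by simp [hpi, h, h1, h2]

theorem hpi_eq_u {i j : Idx} {x : W} (h : hpi s n₁ n₂ i j x = .u) : x = s := by
  unfold hpi at h
  split_ifs at h with h1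
  exact h1

theorem hpi_eq_w {i j k : Idx} {x : W} (h : hpi s n₁ n₂ i j x = .w k) :
    (x = n₁ ∧ k = i) ∨ (x = n₂ ∧ k = j) := by
  unfold hpi at h
  split_ifs at h with h1 h2 h3
  · injection h with h4; exact Or.inl ⟨h2, h4.symm⟩
  · injection h with h4; exact Or.inr ⟨h3, h4.symm⟩

theorem hpi_eq_p {i j k l : Idx} {x y : W} (h : hpi s n₁ n₂ i j x = .p k l y) :
    i = k ∧ j = l ∧ x = y ∧ x ≠ s ∧ x ≠ n₁ ∧ x ≠ n₂ := by
  unfold hpi at h
  split_ifs at h with h1 h2 h3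
  injection h with h4 h5 h6
  exact ⟨h4, h5, h6, h1, h2, h3⟩

theorem hpi_ne_q {i j k : Idx} {t : Bool} {x y : W} : hpi s n₁ n₂ i j x ≠ .q k t y := by
  intro h
  unfold hpi at h
  split_ifs at h

theorem hpi_injective {i j : Idx} (hij : i ≠ j) : Function.Injective (hpi s n₁ n₂ i j) := by
  intro x y h
  rcases hx : hpi s n₁ n₂ i j x with _ | k | ⟨k, l, z⟩ | ⟨k, t, z⟩
  · rw [hx] at h
    rw [hpi_eq_u hx, hpi_eq_u h.symm]
  · rw [hx] at h
    rcases hpi_eq_w hx with ⟨h1, h2⟩ | ⟨h1, h2⟩ <;> rcases hpi_eq_w h.symm with ⟨h3, h4⟩ | ⟨h3, h4⟩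
    · rw [h1, h3]
    · exact absurd (h2.symm.trans h4) hij
    · exact absurd (h4.symm.trans h2) hij
    · rw [h1, h3]
  · rw [hx] at h
    rw [(hpi_eq_p hx).2.2.1, (hpi_eq_p h.symm).2.2.1]
  · exact absurd hx hpi_ne_q

@[simp] theorem hpo_s (i : Idx) (t : Bool) : hpo s n₁ n₂ i t s = .u := by simp [hpo]

theorem hpo_n (h₁ : n₁ ≠ s) (h₂ : n₂ ≠ s) {x : W} (h : x = n₁ ∨ x = n₂) (i : Idx) (t : Bool) :
    hpo s n₁ n₂ i t x = .w i := by
  have hx : x ≠ s := by rcases h with rfl | rfl <;> assumption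
  simp only [hpo, if_neg hx, if_pos h]

theorem hpo_q {x : W} (h : x ≠ s) (h1 : x ≠ n₁) (h2 : x ≠ n₂) (i : Idx) (t : Bool) :
    hpo s n₁ n₂ i t x = .q i t x := by simp [hpo, h, h1, h2]

theorem hpo_eq_w {i k : Idx} {t : Bool} {x : W} (h : hpo s n₁ n₂ i t x = .w k) :
    (x = n₁ ∨ x = n₂) ∧ k = i := by
  unfold hpo at h
  split_ifs at h with h1 h2
  injection h with h4
  exact ⟨h2, h4.symm⟩

theorem hpo_eq_u {i : Idx} {t : Bool} {x : W} (h : hpo s n₁ n₂ i t x = .u) : x = s := by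
  unfold hpo at h
  split_ifs at h with h1
  exact h1

theorem hpo_eq_q {i k : Idx} {t t' : Bool} {x y : W} (h : hpo s n₁ n₂ i t x = .q k t' y) :
    i = k ∧ t = t' ∧ x = y ∧ x ≠ s ∧ x ≠ n₁ ∧ x ≠ n₂ := by
  unfold hpo at h
  split_ifs at h with h1 h2
  injection h with h4 h5 h6
  exact ⟨h4, h5, h6, h1, fun h => h2 (Or.inl h), fun h => h2 (Or.inr h)⟩

theorem hpo_ne_p {i k l : Idx} {t : Bool} {x y : W} : hpo s n₁ n₂ i t x ≠ .p k l y := by
  intro h
  unfold hpo at h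
  split_ifs at h

variable (c : PCtx H L s n₁ n₂)

include c

omit c in
theorem SO2.adj {x y : W} (hx : x ∈ SO2 H L s n₁ n₂) (hxy : H.Adj x y) :
    y ∈ SO2 H L s n₁ n₂ ∨ y = s ∨ y = n₁ ∨ y = n₂ := by
  rcases hx with hx | hx
  · rcases SOn.adj hx hxy with h | h | h
    · exact Or.inl (Or.inl h)
    · exact Or.inr (Or.inl h)
    · exact Or.inr (Or.inr (Or.inl h))
  · rcases SOn.adj hx hxy with h | h | h
    · exact Or.inl (Or.inr h)
    · exact Or.inr (Or.inl h)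
    · exact Or.inr (Or.inr (Or.inr h))

theorem SO2.ne {x : W} (hx : x ∈ SO2 H L s n₁ n₂) : x ≠ s ∧ x ≠ n₁ ∧ x ≠ n₂ := by
  have hxL : x ∈ L := by rcases hx with h | h <;> exact h.1
  exact ⟨fun h => c.hs (h ▸ hxL), fun h => c.hn₁ (h ▸ hxL), fun h => c.hn₂ (h ▸ hxL)⟩

omit c in
/-- Neighbours of a private vertex of a piece. -/
theorem hostP_adj_p {i j : Idx} {x : W} {v : PV W} (h : (hostP H L s n₁ n₂).Adj (.p i j x) v) :
    Idx.Rel i j ∧ x ∉ SO2 H L s n₁ n₂ ∧ x ≠ s ∧ x ≠ n₁ ∧ x ≠ n₂ ∧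
      ∃ y, H.Adj x y ∧ y ∉ SO2 H L s n₁ n₂ ∧ v = hpi s n₁ n₂ i j y := by
  rw [hostP, SimpleGraph.fromEdgeSet_adj] at h
  obtain ⟨h | h | h, hne⟩ := h
  · obtain ⟨k, h⟩ := h
    rw [ite, Sym2.eq_iff] at h
    rcases h with ⟨h, -⟩ | ⟨h, -⟩ <;> injection h
  · obtain ⟨k, l, hkl, x', y', hxy, hx, hy, hxs, hx1, hx2, h⟩ := h
    rw [Sym2.eq_iff] at h
    rcases h with ⟨h, h'⟩ | ⟨h, h'⟩
    · injection h with h1 h2 h3
      subst h1; subst h2; subst h3
      exact ⟨hkl, hx, hxs, hx1, hx2, y', hxy, hy, h'⟩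
    · obtain ⟨h1, h2, h3, h4, h5, h6⟩ := hpi_eq_p h.symm
      subst h1; subst h2; subst h3
      exact ⟨hkl, hy, h4, h5, h6, x', hxy.symm, hx, by rw [h', hpi_p hxs hx1 hx2]⟩
  · obtain ⟨k, t, x', y', hxy, hx, h⟩ := h
    rw [Sym2.eq_iff] at h
    rcases h with ⟨h, -⟩ | ⟨h, -⟩
    · injection h
    · exact absurd h.symm hpo_ne_p

/-- Neighbours of a vertex of a pool. -/
theorem hostP_adj_q {i : Idx} {t : Bool} {x : W} {v : PV W}
    (h : (hostP H L s n₁ n₂).Adj (.q i t x) v) :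
    x ∈ SO2 H L s n₁ n₂ ∧ ∃ y, H.Adj x y ∧ v = hpo s n₁ n₂ i t y := by
  rw [hostP, SimpleGraph.fromEdgeSet_adj] at h
  obtain ⟨h | h | h, hne⟩ := h
  · obtain ⟨k, h⟩ := h
    rw [ite, Sym2.eq_iff] at h
    rcases h with ⟨h, -⟩ | ⟨h, -⟩ <;> injection h
  · obtain ⟨k, l, hkl, x', y', hxy, hx, hy, hxs, hx1, hx2, h⟩ := h
    rw [Sym2.eq_iff] at h
    rcases h with ⟨h, -⟩ | ⟨h, -⟩
    · injection h
    · exact absurd h.symm hpi_ne_q
  · obtain ⟨k, t', x', y', hxy, hx, h⟩ := h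
    rw [Sym2.eq_iff] at h
    rcases h with ⟨h, h'⟩ | ⟨h, h'⟩
    · injection h with h1 h2 h3
      subst h1; subst h2; subst h3
      exact ⟨hx, y', hxy, h'⟩
    · obtain ⟨h1, h2, h3, h4, h5, h6⟩ := hpo_eq_q h.symm
      subst h1; subst h2; subst h3
      rcases SO2.adj hx hxy with h7 | h7 | h7 | h7
      · obtain ⟨g1, g2, g3⟩ := SO2.ne c hx
        exact ⟨h7, x', hxy.symm, by rw [h', hpo_q g1 g2 g3]⟩
      · exact absurd h7 h4
      · exact absurd h7 h5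
      · exact absurd h7 h6

omit c in
/-- The roles of the host vertices near a cell. -/
def rho (s n₁ n₂ : W) : PC → PV W → W
  | _, .u => s
  | .p i _, .w k => if k = i then n₁ else n₂
  | .q _ _ α, .w _ => if α then n₁ else n₂
  | _, .p _ _ x => x
  | _, .q _ _ x => x

/-- The cells of the host. -/
noncomputable def celledP : Celled H L (hostP H L s n₁ n₂) PC where
  hm := fun
    | .p i j => hpi s n₁ n₂ i j
    | .q i t _ => hpo s n₁ n₂ i t
  ρ := rho s n₁ n₂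
  M := fun
    | .p _ _ => {x | x ∈ L ∧ x ∉ SO2 H L s n₁ n₂}
    | .q _ _ α => SOn H L s (if α then n₁ else n₂)
  u := .u
  sub := by
    rintro (⟨i, j⟩ | ⟨i, t, α⟩) x hx
    · exact hx.1
    · exact hx.1
  nbr := by
    rintro (⟨i, j⟩ | ⟨i, t, α⟩) x hx v h
    · have hxs : x ≠ s := fun h => c.hs (h ▸ hx.1)
      have hx1 : x ≠ n₁ := fun h => c.hn₁ (h ▸ hx.1)
      have hx2 : x ≠ n₂ := fun h => c.hn₂ (h ▸ hx.1)
      simp only [hpi_p hxs hx1 hx2] at h
      obtain ⟨hij, -, -, -, -, y, hxy, -, hv⟩ := hostP_adj_p h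
      refine ⟨y, hxy, hv, ?_⟩
      rw [hv]
      by_cases h1 : y = s
      · subst h1; simp [rho]
      · by_cases h2 : y = n₁
        · subst h2; rw [hpi_n₁ h1]; simp [rho]
        · by_cases h3 : y = n₂
          · subst h3; rw [hpi_n₂ h1 c.hn]; simp [rho, hij.ne.symm]
          · rw [hpi_p h1 h2 h3]; simp [rho]
    · have hxL : x ∈ L := hx.1
      have hxs : x ≠ s := fun h => c.hs (h ▸ hxL)
      have hx1 : x ≠ n₁ := fun h => c.hn₁ (h ▸ hxL)
      have hx2 : x ≠ n₂ := fun h => c.hn₂ (h ▸ hxL)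
      simp only [hpo_q hxs hx1 hx2] at h
      obtain ⟨-, y, hxy, hv⟩ := hostP_adj_q c h
      refine ⟨y, hxy, hv, ?_⟩
      rw [hv]
      rcases SOn.adj hx hxy with h1 | h1 | h1
      · have hyL : y ∈ L := h1.1
        have hys : y ≠ s := fun h => c.hs (h ▸ hyL)
        have hy1 : y ≠ n₁ := fun h => c.hn₁ (h ▸ hyL)
        have hy2 : y ≠ n₂ := fun h => c.hn₂ (h ▸ hyL)
        rw [hpo_q hys hy1 hy2]
        simp [rho]
      · subst h1; simp [rho]
      · rw [hpo_n c.hn₁s c.hn₂s (by rw [h1]; cases α <;> simp)]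
        simp [rho, h1]
  ρhm := by
    rintro (⟨i, j⟩ | ⟨i, t, α⟩) x hx
    · have hxs : x ≠ s := fun h => c.hs (h ▸ hx.1)
      have hx1 : x ≠ n₁ := fun h => c.hn₁ (h ▸ hx.1)
      have hx2 : x ≠ n₂ := fun h => c.hn₂ (h ▸ hx.1)
      simp only [hpi_p hxs hx1 hx2, rho]
    · have hxL : x ∈ L := hx.1
      have hxs : x ≠ s := fun h => c.hs (h ▸ hxL)
      have hx1 : x ≠ n₁ := fun h => c.hn₁ (h ▸ hxL)
      have hx2 : x ≠ n₂ := fun h => c.hn₂ (h ▸ hxL)
      simp only [hpo_q hxs hx1 hx2, rho]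
  clo := by
    rintro (⟨i, j⟩ | ⟨i, t, α⟩) x hx y hy hxy
    · refine ⟨hy, ?_⟩
      rintro (h | h)
      · exact hx.2 (Or.inl (SOn.of_adj c.hs c.hn₁ h hx.1 hxy.symm))
      · exact hx.2 (Or.inr (SOn.of_adj c.hs c.hn₂ h hx.1 hxy.symm))
    · refine SOn.of_adj c.hs ?_ hx hy hxy
      cases α
      · exact c.hn₂
      · exact c.hn₁
  star := by
    intro v v' hv hv' h
    have key : ∀ v v', (∀ k : PC, ∀ x, (match k with
        | .p _ _ => x ∈ L ∧ x ∉ SO2 H L s n₁ n₂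
        | .q _ _ α => x ∈ SOn H L s (if α then n₁ else n₂)) → v ≠ (match k with
        | .p i j => hpi s n₁ n₂ i j x
        | .q i t _ => hpo s n₁ n₂ i t x)) → (∀ k : PC, ∀ x, (match k with
        | .p _ _ => x ∈ L ∧ x ∉ SO2 H L s n₁ n₂
        | .q _ _ α => x ∈ SOn H L s (if α then n₁ else n₂)) → v' ≠ (match k with
        | .p i j => hpi s n₁ n₂ i j x
        | .q i t _ => hpo s n₁ n₂ i t x)) → (hostP H L s n₁ n₂).Adj v v' →
        (∃ i j x, v = .p i j x) → v = .u ∨ v' = .u := by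
      rintro v v' hv hv' h ⟨i, j, x, rfl⟩
      obtain ⟨hij, hx, hxs, hx1, hx2, y, hxy, hy, rfl⟩ := hostP_adj_p h
      right
      have hxL : x ∉ L := fun hxL => hv (.p i j) x ⟨hxL, hx⟩ (hpi_p hxs hx1 hx2 i j).symm
      have hyL : y ∉ L := fun hyL => hv' (.p i j) y ⟨hyL, hy⟩ rfl
      by_cases hys : y = s
      · rw [hys, hpi_s]
      · exact absurd hxy (c.not_adj hxL hyL hxs hys)
    have key2 : ∀ v v', (∀ k : PC, ∀ x, (match k with
        | .p _ _ => x ∈ L ∧ x ∉ SO2 H L s n₁ n₂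
        | .q _ _ α => x ∈ SOn H L s (if α then n₁ else n₂)) → v ≠ (match k with
        | .p i j => hpi s n₁ n₂ i j x
        | .q i t _ => hpo s n₁ n₂ i t x)) → (hostP H L s n₁ n₂).Adj v v' →
        (∃ i t x, v = .q i t x) → False := by
      rintro v v' hv h ⟨i, t, x, rfl⟩
      obtain ⟨hx, -⟩ := hostP_adj_q c h
      obtain ⟨g1, g2, g3⟩ := SO2.ne c hx
      rcases hx with hx | hx
      · exact hv (.q i t true) x hx (hpo_q g1 g2 g3 i t).symm
      · exact hv (.q i t false) x hx (hpo_q g1 g2 g3 i t).symm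
    have hv1 : ∀ k : PC, ∀ x, (match k with
        | .p _ _ => x ∈ L ∧ x ∉ SO2 H L s n₁ n₂
        | .q _ _ α => x ∈ SOn H L s (if α then n₁ else n₂)) → v ≠ (match k with
        | .p i j => hpi s n₁ n₂ i j x
        | .q i t _ => hpo s n₁ n₂ i t x) := by
      rintro (⟨i, j⟩ | ⟨i, t, α⟩) x hx
      · exact hv (.p i j) x hx
      · exact hv (.q i t α) x hx
    have hv1' : ∀ k : PC, ∀ x, (match k with
        | .p _ _ => x ∈ L ∧ x ∉ SO2 H L s n₁ n₂
        | .q _ _ α => x ∈ SOn H L s (if α then n₁ else n₂)) → v' ≠ (match k with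
        | .p i j => hpi s n₁ n₂ i j x
        | .q i t _ => hpo s n₁ n₂ i t x) := by
      rintro (⟨i, j⟩ | ⟨i, t, α⟩) x hx
      · exact hv' (.p i j) x hx
      · exact hv' (.q i t α) x hx
    rcases v with _ | i | ⟨i, j, x⟩ | ⟨i, t, x⟩
    · exact Or.inl rfl
    · rcases v' with _ | j | ⟨k, l, x⟩ | ⟨k, t, x⟩
      · exact Or.inr rfl
      · exfalso
        rw [hostP, SimpleGraph.fromEdgeSet_adj] at h
        obtain ⟨h | h | h, hne⟩ := h
        · obtain ⟨k, h⟩ := h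
          rw [ite, Sym2.eq_iff] at h
          rcases h with ⟨h, -⟩ | ⟨-, h⟩ <;> injection h
        · obtain ⟨k, l, hkl, x', y', hxy, hx, hy, hxs, hx1, hx2, h⟩ := h
          rw [Sym2.eq_iff] at h
          rcases h with ⟨h, -⟩ | ⟨-, h⟩ <;> injection h
        · obtain ⟨k, t', x', y', hxy, hx, h⟩ := h
          rw [Sym2.eq_iff] at h
          rcases h with ⟨h, -⟩ | ⟨-, h⟩ <;> injection h
      · exact (key _ _ hv1' hv1 h.symm ⟨k, l, x, rfl⟩).symm
      · exact (key2 _ _ hv1' h.symm ⟨k, t, x, rfl⟩).elim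
    · exact key _ _ hv1 hv1' h ⟨i, j, x, rfl⟩
    · exact (key2 _ _ hv1 h ⟨i, t, x, rfl⟩).elim

/-- **Theorem P.** -/
theorem PCtx.fails (hesc : Esc H L s n₁ n₂) : Fails.{0} H := by
  classical
  have hiteG : ∀ i, ite W i ∈ (hostP H L s n₁ n₂).edgeSet := by
    intro i
    rw [hostP, SimpleGraph.edgeSet_fromEdgeSet]
    exact ⟨Or.inl ⟨i, rfl⟩, by simp [ite]⟩
  have hDG : ∀ i j, Idx.Rel i j → Dp H L s n₁ n₂ i j ⊆ (hostP H L s n₁ n₂).edgeSet := by
    intro i j hij e he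
    rw [hostP, SimpleGraph.edgeSet_fromEdgeSet]
    refine ⟨Or.inr (Or.inl ⟨i, j, hij, he⟩), ?_⟩
    obtain ⟨x, y, hxy, -, -, hxs, hx1, hx2, rfl⟩ := he
    rw [Sym2.mem_diagSet, Sym2.mk_isDiag_iff]
    intro h
    exact hxy.ne (hpi_eq_p h.symm).2.2.1.symm
  have hQG : ∀ i t, Qp H L s n₁ n₂ i t ⊆ (hostP H L s n₁ n₂).edgeSet := by
    intro i t e he
    rw [hostP, SimpleGraph.edgeSet_fromEdgeSet]
    refine ⟨Or.inr (Or.inr ⟨i, t, he⟩), ?_⟩
    obtain ⟨x, y, hxy, -, rfl⟩ := he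
    rw [Sym2.mem_diagSet, Sym2.mk_isDiag_iff]
    intro h
    exact hxy.ne (hpo_eq_q h.symm).2.2.1.symm
  have hnn₁ : H.Adj s n₁ := c.hN _ c.hn₁ c.hn₁s
  have hnn₂ : H.Adj s n₂ := c.hN _ c.hn₂ c.hn₂s
  have hmain : ∀ f : W → PV W, Function.Injective f →
      (∀ a b, H.Adj a b → (hostP H L s n₁ n₂).Adj (f a) (f b)) →
      f s = .u ∧ ∀ a, a ∈ L ↔ f a ∈ (celledP c).T := fun f hf hfa =>
    (celledP c).main c.hL hf hfa c.hδ c.hs c.hn₁ c.hn₂ c.hn hnn₁ hnn₂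
  -- a used vertex `w i` gives a used item
  have hitem : ∀ f : W → PV W, Function.Injective f →
      (∀ a b, H.Adj a b → (hostP H L s n₁ n₂).Adj (f a) (f b)) → ∀ a i, f a = .w i →
      a ∉ L ∧ a ≠ s ∧ ∃ x y, H.Adj x y ∧ s(f x, f y) = ite W i := by
    intro f hf hfa a i ha
    obtain ⟨hfs, hT⟩ := hmain f hf hfa
    have haL : a ∉ L := by
      intro haL
      obtain ⟨k, x, hx, h⟩ := (hT a).1 haL
      rcases k with ⟨i', j'⟩ | ⟨i', t, α⟩
      · have h' : f a = hpi s n₁ n₂ i' j' x := h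
        have hx' : x ∈ L := hx.1
        rw [ha] at h'
        rcases hpi_eq_w h'.symm with ⟨h1, -⟩ | ⟨h1, -⟩
        · exact c.hn₁ (h1 ▸ hx')
        · exact c.hn₂ (h1 ▸ hx')
      · have h' : f a = hpo s n₁ n₂ i' t x := h
        have hx' : x ∈ L := hx.1
        rw [ha] at h'
        rcases (hpo_eq_w h'.symm).1 with h1 | h1
        · exact c.hn₁ (h1 ▸ hx')
        · exact c.hn₂ (h1 ▸ hx')
    have has : a ≠ s := by
      rintro rfl
      rw [hfs] at ha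
      injection ha
    exact ⟨haL, has, s, a, c.hN a haL has, by rw [hfs, ha]; rfl⟩
  refine ⟨PV W, hostP H L s n₁ n₂, not_stronglyMaximal_of_soft bad_idx (ite W)
    (Dp H L s n₁ n₂) (Qp H L s n₁ n₂) ?_ hiteG hDG hQG ?_ ?_ ?_ ?_ ?_ ?_ ?_ ?_⟩
  · intro i j h
    rw [ite, ite, Sym2.eq_iff] at h
    rcases h with ⟨-, h⟩ | ⟨h, -⟩
    · injection h
    · injection h
  · rintro i k l - ⟨x, y, hxy, -, -, hxs, hx1, hx2, h⟩
    rw [ite, Sym2.eq_iff] at h
    rcases h with ⟨h, -⟩ | ⟨-, h⟩ <;> injection h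
  · rintro i k t ⟨x, y, hxy, -, h⟩
    rw [ite, Sym2.eq_iff] at h
    rcases h with ⟨h, -⟩ | ⟨-, h⟩ <;> injection h
  · rintro i j k l e hij hkl ⟨x, y, hxy, -, -, hxs, hx1, hx2, rfl⟩
      ⟨x', y', hxy', -, -, hxs', hx1', hx2', h⟩
    rw [Sym2.eq_iff] at h
    rcases h with ⟨h, -⟩ | ⟨h, -⟩
    · injection h with h1 h2
      exact ⟨h1, h2⟩
    · obtain ⟨h1, h2, -⟩ := hpi_eq_p h.symm
      exact ⟨h1.symm, h2.symm⟩
  · rintro i e ⟨x, y, hxy, -, rfl⟩ ⟨x', y', hxy', -, h⟩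
    rw [Sym2.eq_iff] at h
    rcases h with ⟨h, -⟩ | ⟨h, -⟩
    · injection h with h1 h2
      exact absurd h2 (by simp)
    · obtain ⟨-, h2, -⟩ := hpo_eq_q h.symm
      exact absurd h2 (by simp)
  · -- (X1')
    intro i j hij t t'
    rw [not_hFree_iff]
    let ψ : W → PV W := fun x => if x ∈ SOn H L s n₁ then .q i t x else
      if x ∈ SOn H L s n₂ then .q j t' x else hpi s n₁ n₂ i j x
    have hψ1 : ∀ x, x ∈ SOn H L s n₁ → ψ x = .q i t x := fun x hx => if_pos hx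
    have hψ2 : ∀ x, x ∈ SOn H L s n₂ → ψ x = .q j t' x := fun x hx => by
      simp only [ψ, if_neg (fun h => c.disj h hx), if_pos hx]
    have hψ3 : ∀ x, x ∉ SO2 H L s n₁ n₂ → ψ x = hpi s n₁ n₂ i j x := fun x hx => by
      simp only [ψ, if_neg (fun h => hx (Or.inl h)), if_neg (fun h => hx (Or.inr h))]
    have hnS : ∀ x, x ∉ L → x ∉ SO2 H L s n₁ n₂ := by
      rintro x hx (h | h)
      · exact hx h.1
      · exact hx h.1
    refine ⟨ψ, ?_, ?_⟩
    · intro x y hxy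
      have hne : i ≠ j := hij.ne
      by_cases hx1 : x ∈ SOn H L s n₁
      · rw [hψ1 x hx1] at hxy
        by_cases hy1 : y ∈ SOn H L s n₁
        · rw [hψ1 y hy1] at hxy
          injection hxy
        · by_cases hy2 : y ∈ SOn H L s n₂
          · rw [hψ2 y hy2] at hxy
            exact absurd (by injection hxy) hne
          · rw [hψ3 y (by rintro (h | h); exacts [hy1 h, hy2 h])] at hxy
            exact absurd hxy.symm hpi_ne_q
      · by_cases hx2 : x ∈ SOn H L s n₂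
        · rw [hψ2 x hx2] at hxy
          by_cases hy1 : y ∈ SOn H L s n₁
          · rw [hψ1 y hy1] at hxy
            exact absurd (by injection hxy with h1; exact h1.symm) hne
          · by_cases hy2 : y ∈ SOn H L s n₂
            · rw [hψ2 y hy2] at hxy
              injection hxy
            · rw [hψ3 y (by rintro (h | h); exacts [hy1 h, hy2 h])] at hxy
              exact absurd hxy.symm hpi_ne_q
        · rw [hψ3 x (by rintro (h | h); exacts [hx1 h, hx2 h])] at hxy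
          by_cases hy1 : y ∈ SOn H L s n₁
          · rw [hψ1 y hy1] at hxy
            exact absurd hxy hpi_ne_q
          · by_cases hy2 : y ∈ SOn H L s n₂
            · rw [hψ2 y hy2] at hxy
              exact absurd hxy hpi_ne_q
            · rw [hψ3 y (by rintro (h | h); exacts [hy1 h, hy2 h])] at hxy
              exact hpi_injective hne hxy
    · have key1 : ∀ x y, H.Adj x y → x ∈ SOn H L s n₁ → s(ψ x, ψ y) ∈ Qp H L s n₁ n₂ i t := by
        intro x y hxy hx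
        refine ⟨x, y, hxy, Or.inl hx, ?_⟩
        rw [hψ1 x hx]
        congr 1
        rcases SOn.adj hx hxy with h | h | h
        · obtain ⟨g1, g2, g3⟩ := SO2.ne c (Or.inl h)
          rw [hψ1 y h, hpo_q g1 g2 g3]
        · rw [h, hψ3 s (hnS s c.hs), hpi_s, hpo_s]
        · rw [h, hψ3 n₁ (hnS n₁ c.hn₁), hpi_n₁ c.hn₁s, hpo_n c.hn₁s c.hn₂s (Or.inl rfl)]
      have key2 : ∀ x y, H.Adj x y → x ∈ SOn H L s n₂ → s(ψ x, ψ y) ∈ Qp H L s n₁ n₂ j t' := by
        intro x y hxy hx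
        refine ⟨x, y, hxy, Or.inr hx, ?_⟩
        rw [hψ2 x hx]
        congr 1
        rcases SOn.adj hx hxy with h | h | h
        · obtain ⟨g1, g2, g3⟩ := SO2.ne c (Or.inr h)
          rw [hψ2 y h, hpo_q g1 g2 g3]
        · rw [h, hψ3 s (hnS s c.hs), hpi_s, hpo_s]
        · rw [h, hψ3 n₂ (hnS n₂ c.hn₂), hpi_n₂ c.hn₂s c.hn, hpo_n c.hn₁s c.hn₂s (Or.inr rfl)]
      intro x y hxy
      by_cases hx1 : x ∈ SOn H L s n₁
      · exact Or.inl (Or.inr (key1 x y hxy hx1))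
      by_cases hy1 : y ∈ SOn H L s n₁
      · rw [Sym2.eq_swap]; exact Or.inl (Or.inr (key1 y x hxy.symm hy1))
      by_cases hx2 : x ∈ SOn H L s n₂
      · exact Or.inr (key2 x y hxy hx2)
      by_cases hy2 : y ∈ SOn H L s n₂
      · rw [Sym2.eq_swap]; exact Or.inr (key2 y x hxy.symm hy2)
      have hx : x ∉ SO2 H L s n₁ n₂ := by rintro (h | h); exacts [hx1 h, hx2 h]
      have hy : y ∉ SO2 H L s n₁ n₂ := by rintro (h | h); exacts [hy1 h, hy2 h]
      left; left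
      rw [hψ3 x hx, hψ3 y hy]
      have key3 : ∀ x y, H.Adj x y → x ∉ SO2 H L s n₁ n₂ → y ∉ SO2 H L s n₁ n₂ → x ≠ s → x ≠ n₁ →
          x ≠ n₂ → s(hpi s n₁ n₂ i j x, hpi s n₁ n₂ i j y) ∈ Dp H L s n₁ n₂ i j := by
        intro x y hxy hx hy h1 h2 h3
        exact ⟨x, y, hxy, hx, hy, h1, h2, h3, by rw [hpi_p h1 h2 h3]⟩
      by_cases hxp : x ≠ s ∧ x ≠ n₁ ∧ x ≠ n₂
      · exact Or.inl (key3 x y hxy hx hy hxp.1 hxp.2.1 hxp.2.2)
      by_cases hyp : y ≠ s ∧ y ≠ n₁ ∧ y ≠ n₂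
      · rw [Sym2.eq_swap]
        exact Or.inl (key3 y x hxy.symm hy hx hyp.1 hyp.2.1 hyp.2.2)
      right
      have hx' : x = s ∨ x = n₁ ∨ x = n₂ := by tauto
      have hy' : y = s ∨ y = n₁ ∨ y = n₂ := by tauto
      have hn12 : ¬ H.Adj n₁ n₂ := c.not_adj c.hn₁ c.hn₂ c.hn₁s c.hn₂s
      rcases hx' with hx' | hx' | hx' <;> rcases hy' with hy' | hy' | hy'
      · exact absurd (hx'.trans hy'.symm) hxy.ne
      · left; rw [hx', hy', hpi_s, hpi_n₁ c.hn₁s]; rfl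
      · right; rw [hx', hy', hpi_s, hpi_n₂ c.hn₂s c.hn]; rfl
      · left; rw [hx', hy', hpi_s, hpi_n₁ c.hn₁s]; exact Sym2.eq_swap
      · exact absurd (hx'.trans hy'.symm) hxy.ne
      · rw [hx', hy'] at hxy; exact absurd hxy hn12
      · right; rw [hx', hy', hpi_s, hpi_n₂ c.hn₂s c.hn]; exact Sym2.eq_swap
      · rw [hx', hy'] at hxy; exact absurd hxy.symm hn12
      · exact absurd (hx'.trans hy'.symm) hxy.ne
  · -- (X3)
    intro f hf hfa i j hij hD
    obtain ⟨hfs, hT⟩ := hmain f hf hfa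
    -- a private vertex is used
    obtain ⟨a₀, x₀, ha₀, hx₀S, hx₀s, hx₀1, hx₀2⟩ : ∃ a x, f a = .p i j x ∧
        x ∉ SO2 H L s n₁ n₂ ∧ x ≠ s ∧ x ≠ n₁ ∧ x ≠ n₂ := by
      obtain ⟨a, b, hab, x, y, hxy, hx, hy, hxs, hx1, hx2, h⟩ := hD
      rw [Sym2.eq_iff] at h
      rcases h with ⟨h, -⟩ | ⟨-, h⟩
      · exact ⟨a, x, h, hx, hxs, hx1, hx2⟩
      · exact ⟨b, x, h, hx, hxs, hx1, hx2⟩
    let U : Set W := {x | x ∉ SO2 H L s n₁ n₂ ∧ ∃ a, f a = hpi s n₁ n₂ i j x}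
    have hg : ∀ x : W, ∃ a, x ∈ U → f a = hpi s n₁ n₂ i j x := by
      intro x
      by_cases hx : x ∈ U
      · obtain ⟨a, ha⟩ := hx.2
        exact ⟨a, fun _ => ha⟩
      · exact ⟨x, fun h => absurd h hx⟩
    choose g hg using hg
    have hnS : ∀ x, x ∉ L → x ∉ SO2 H L s n₁ n₂ := by
      rintro x hx (h | h)
      · exact hx h.1
      · exact hx h.1
    have hsU : s ∈ U := ⟨hnS s c.hs, s, by rw [hfs, hpi_s]⟩
    have hcl := hesc U g ?_ hsU ?_ ?_ ?_ ?_ ?_ ⟨x₀, ⟨hx₀S, a₀, ?_⟩, hx₀s, hx₀1, hx₀2⟩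
    · obtain ⟨⟨-, a1, h1⟩, ⟨-, a2, h2⟩⟩ := hcl
      rw [hpi_n₁ c.hn₁s] at h1
      rw [hpi_n₂ c.hn₂s c.hn] at h2
      exact ⟨(hitem f hf hfa a1 i h1).2.2, (hitem f hf hfa a2 j h2).2.2⟩
    · intro x hx y hy h
      exact hpi_injective hij.ne (by rw [← hg x hx, ← hg y hy, h])
    · exact hf (by rw [hg s hsU, hpi_s, hfs])
    · intro x hx
      exact ⟨fun h => hx.1 (Or.inl h), fun h => hx.1 (Or.inr h)⟩
    · intro x hx hxL
      have hM : x ∈ (celledP c).M (.p i j) := ⟨hxL, hx.1⟩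
      obtain ⟨h1, h2, h3⟩ := (celledP c).local_bij c.hL hf hfa hM (hg x hx)
      refine ⟨h1, ?_, ?_⟩
      · intro y hxy
        obtain ⟨b, hb, hb'⟩ := h3 y hxy
        have hyS : y ∉ SO2 H L s n₁ n₂ := by
          by_cases hyL : y ∈ L
          · exact ((celledP c).clo (.p i j) x hM y hyL hxy).2
          · exact hnS y hyL
        have hyU : y ∈ U := ⟨hyS, b, hb'⟩
        refine ⟨hyU, ?_⟩
        have : g y = b := hf (by rw [hg y hyU]; exact hb'.symm)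
        rw [this]; exact hb
      · intro b hb
        obtain ⟨y, hxy, hb', -⟩ := h2 b hb
        have hyS : y ∉ SO2 H L s n₁ n₂ := by
          by_cases hyL : y ∈ L
          · exact ((celledP c).clo (.p i j) x hM y hyL hxy).2
          · exact hnS y hyL
        exact ⟨y, hxy, hf (by rw [hg y ⟨hyS, b, hb'⟩]; exact hb'.symm)⟩
    · intro x hx hxL hxs
      constructor
      · intro h
        obtain ⟨k, x', hx', h'⟩ := (hT _).1 h
        have hx'L : x' ∈ L := (celledP c).sub k hx'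
        rw [hg x hx] at h'
        rcases k with ⟨i', j'⟩ | ⟨i', t, α⟩
        · have h'' : hpi s n₁ n₂ i j x = hpi s n₁ n₂ i' j' x' := h'
          have g1 : x' ≠ s := fun h => c.hs (h ▸ hx'L)
          have g2 : x' ≠ n₁ := fun h => c.hn₁ (h ▸ hx'L)
          have g3 : x' ≠ n₂ := fun h => c.hn₂ (h ▸ hx'L)
          rw [hpi_p g1 g2 g3] at h''
          exact hxL ((hpi_eq_p h'').2.2.1 ▸ hx'L)
        · have h'' : hpi s n₁ n₂ i j x = hpo s n₁ n₂ i' t x' := h'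
          have g1 : x' ≠ s := fun h => c.hs (h ▸ hx'L)
          have g2 : x' ≠ n₁ := fun h => c.hn₁ (h ▸ hx'L)
          have g3 : x' ≠ n₂ := fun h => c.hn₂ (h ▸ hx'L)
          rw [hpo_q g1 g2 g3] at h''
          exact hpi_ne_q h''
      · intro h
        have := hg x hx
        rw [h, hfs] at this
        exact hxs (hpi_eq_u this.symm)
    · intro x hx hxL hxs hx1 hx2 b hb
      have h := hfa _ _ hb
      rw [hg x hx, hpi_p hxs hx1 hx2] at h
      obtain ⟨-, -, -, -, -, y, hxy, hyS, hy⟩ := hostP_adj_p h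
      have hyU : y ∈ U := ⟨hyS, b, hy⟩
      exact ⟨y, hyU, hxy, hf (by rw [hg y hyU]; exact hy.symm)⟩
    · rw [hpi_p hx₀s hx₀1 hx₀2]; exact ha₀
  · -- (X2')
    intro f hf hfa i t hQ
    obtain ⟨hfs, hT⟩ := hmain f hf hfa
    obtain ⟨a, x, ha, hx⟩ : ∃ a x, f a = .q i t x ∧ x ∈ SO2 H L s n₁ n₂ := by
      obtain ⟨a, b, hab, x, y, hxy, hx, h⟩ := hQ
      rw [Sym2.eq_iff] at h
      rcases h with ⟨h, -⟩ | ⟨-, h⟩
      · exact ⟨a, x, h, hx⟩
      · exact ⟨b, x, h, hx⟩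
    obtain ⟨α, hα⟩ : ∃ α : Bool, x ∈ SOn H L s (if α then n₁ else n₂) := by
      rcases hx with h | h
      · exact ⟨true, h⟩
      · exact ⟨false, h⟩
    have hnα : (if α then n₁ else n₂) = n₁ ∨ (if α then n₁ else n₂) = n₂ := by
      cases α <;> simp
    obtain ⟨z, hzs, y, hxy, hyz, hzL⟩ := c.exists_bdr hα.1 s c.hs
    have hz : z = if α then n₁ else n₂ := by
      rcases hα.2 z ⟨y, hxy, hyz, hzL⟩ with h | h
      · exact absurd h hzs
      · exact h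
    -- walk along the component
    have hwalk : ∀ y, Lr H L x y → ∃ a, f a = hpo s n₁ n₂ i t y ∧
        y ∈ SOn H L s (if α then n₁ else n₂) := by
      intro y hy
      induction hy with
      | refl =>
        obtain ⟨g1, g2, g3⟩ := SO2.ne c hx
        exact ⟨a, by rw [hpo_q g1 g2 g3]; exact ha, hα⟩
      | @tail y y' _ h ih =>
        obtain ⟨b, hb, hbS⟩ := ih
        obtain ⟨-, -, h3⟩ := (celledP c).local_bij c.hL hf hfa
          (k := .q i t α) (x := y) hbS hb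
        obtain ⟨b', -, hb'⟩ := h3 y' h.1
        exact ⟨b', hb', (celledP c).clo (.q i t α) y hbS y' h.2 h.1⟩
    obtain ⟨b, hb, hbS⟩ := hwalk y hxy
    obtain ⟨-, -, h3⟩ := (celledP c).local_bij c.hL hf hfa (k := .q i t α) (x := y) hbS hb
    obtain ⟨b', -, hb'⟩ := h3 z hyz
    have hb'' : f b' = .w i := by
      have : f b' = hpo s n₁ n₂ i t z := hb'
      rw [this, hpo_n c.hn₁s c.hn₂s (by rw [hz]; exact hnα)]
    exact (hitem f hf hfa b' i hb'').2.2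
  · -- (X2'')
    intro f hf hfa i hi
    obtain ⟨hfs, hT⟩ := hmain f hf hfa
    obtain ⟨n, hn⟩ : ∃ n, f n = .w i := by
      obtain ⟨a, b, hab, h⟩ := hi
      rw [ite, Sym2.eq_iff] at h
      rcases h with ⟨-, h⟩ | ⟨h, -⟩
      · exact ⟨b, h⟩
      · exact ⟨a, h⟩
    obtain ⟨hnL, hns, -⟩ := hitem f hf hfa n i hn
    obtain ⟨y, hyL, hny, hyS⟩ := c.exists_page hnL hns
    obtain ⟨k, x, hx, hy⟩ := (hT y).1 hyL
    obtain ⟨-, h2, -⟩ := (celledP c).local_bij c.hL hf hfa hx hy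
    obtain ⟨x', hxx', hn', -⟩ := h2 n hny.symm
    have hxL : x ∈ L := (celledP c).sub k hx
    have g1 : x ≠ s := fun h => c.hs (h ▸ hxL)
    have g2 : x ≠ n₁ := fun h => c.hn₁ (h ▸ hxL)
    have g3 : x ≠ n₂ := fun h => c.hn₂ (h ▸ hxL)
    rcases k with ⟨j, l⟩ | ⟨i', t, α⟩
    · have hn'' : f n = hpi s n₁ n₂ j l x' := hn'
      have hy' : f y = .p j l x := by
        have : f y = hpi s n₁ n₂ j l x := hy
        rw [this, hpi_p g1 g2 g3]
      have hadj := hfa _ _ hny.symm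
      rw [hy'] at hadj
      obtain ⟨hjl, hxS, -, -, -, y', hxy', hyS', hy''⟩ := hostP_adj_p hadj
      refine ⟨j, l, hjl, ?_, y, n, hny.symm, x, y', hxy', hxS, hyS', g1, g2, g3, ?_⟩
      · rw [hn] at hn''
        rcases hpi_eq_w hn''.symm with ⟨-, h⟩ | ⟨-, h⟩
        · exact Or.inl h.symm
        · exact Or.inr h.symm
      · rw [hy', hy'']
    · exfalso
      apply hyS
      refine ⟨hyL, ?_⟩
      rintro z ⟨y', hyy', hyz, hzL⟩
      -- the component of `y` is mapped into the pool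
      have hwalk : ∀ y', Lr H L y y' → ∃ x', f y' = hpo s n₁ n₂ i' t x' ∧
          x' ∈ SOn H L s (if α then n₁ else n₂) := by
        intro y' hy'
        induction hy' with
        | refl => exact ⟨x, hy, hx⟩
        | @tail y₁ y₂ _ h ih =>
          obtain ⟨x₁, hx₁, hx₁S⟩ := ih
          obtain ⟨-, h2, -⟩ := (celledP c).local_bij c.hL hf hfa (k := .q i' t α) (x := x₁) hx₁S hx₁
          obtain ⟨x₂, -, hx₂, hx₂'⟩ := h2 y₂ h.1
          exact ⟨x₂, hx₂, hx₂' h.2⟩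
      obtain ⟨x₁, hx₁, hx₁S⟩ := hwalk y' hyy'
      obtain ⟨-, h2, -⟩ := (celledP c).local_bij c.hL hf hfa (k := .q i' t α) (x := x₁) hx₁S hx₁
      obtain ⟨x₂, hx₁x₂, hx₂, -⟩ := h2 z hyz
      have hx₂' : f z = hpo s n₁ n₂ i' t x₂ := hx₂
      have hx₂L : x₂ ∉ SOn H L s (if α then n₁ else n₂) := by
        intro h
        exact hzL ((hT z).2 ⟨.q i' t α, x₂, h, hx₂⟩)
      have hnn : f n = hpo s n₁ n₂ i' t x' := hn'
      have hii : i = i' := by
        rw [hn] at hnn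
        exact (hpo_eq_w hnn.symm).2
      rcases SOn.adj hx₁S hx₁x₂ with h | h | h
      · exact absurd h hx₂L
      · left
        rw [h, hpo_s] at hx₂'
        exact hf (hx₂'.trans hfs.symm)
      · right
        rw [hpo_n c.hn₁s c.hn₂s (by rw [h]; cases α <;> simp)] at hx₂'
        exact hf (by rw [hx₂', hn, hii])

end HostP

end Pool.Agent.StrongMax
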