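import Pool.Agent.Lib.StrongMax.Copy
import Pool.Agent.Lib.StrongMax.Soft

/-!
# A bad conflict relation of large girth (helper18, construction of helper9)
-/

namespace Pool.Agent.StrongMax

/-- The items: hubs, clients and the inner vertices of the chains. -/
inductive LGI : Type
  | hub (l j : ℕ)
  | cl (l c : ℕ)
  | ch (l j c i : ℕ)
  deriving DecidableEq

namespace LGI

/-- The number of hubs in the clusters before `l`. -/
def ss : ℕ → ℕ
  | 0 => 0
  | l + 1 => (l + 3) * (ss l + 1)

/-- The number of clients of the cluster `l`. -/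
def mm (l : ℕ) : ℕ := (l + 2) * ss l + 2

/-- The number of hubs of the cluster `l`. -/
def nn (l : ℕ) : ℕ := mm l + (l + 1)

theorem ss_succ (l : ℕ) : ss (l + 1) = ss l + nn l := by
  simp only [ss, nn, mm]
  ring

theorem ss_mono {k l : ℕ} (h : k ≤ l) : ss k ≤ ss l := by
  induction h with
  | refl => exact le_rfl
  | step _ ih => rw [ss_succ]; omega

/-- A hub is determined by its position. -/
theorem pos_inj {k p k' p' : ℕ} (hp : p < nn k) (hp' : p' < nn k') (h : ss k + p = ss k' + p') :
    k = k' ∧ p = p' := by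
  have key : ∀ {k k' p p' : ℕ}, p < nn k → ss k + p = ss k' + p' → ¬ k < k' := by
    intro k k' p p' hp h hlt
    have h1 := ss_mono (Nat.succ_le_of_lt hlt)
    rw [Nat.succ_eq_add_one, ss_succ] at h1
    omega
  have h1 : k = k' := by
    rcases Nat.lt_trichotomy k k' with h2 | h2 | h2
    · exact absurd h2 (key hp h)
    · exact h2
    · exact absurd h2 (key hp' h.symm)
  subst h1
  exact ⟨rfl, by omega⟩

/-- The nodes of a chain. -/
def node (r l j c : ℕ) (i : ℕ) : LGI :=
  if i = 0 then .hub l j else if i ≤ 2 * r then .ch l j c i else .cl l c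

variable {r : ℕ}

theorem node_zero (l j c : ℕ) : node r l j c 0 = .hub l j := by simp [node]

theorem node_last (l j c : ℕ) : node r l j c (2 * r + 1) = .cl l c := by
  simp [node]

theorem node_mid {l j c i : ℕ} (h0 : i ≠ 0) (h1 : i ≤ 2 * r) : node r l j c i = .ch l j c i := by
  simp [node, h0, h1]

theorem node_cases (l j c i : ℕ) : (i = 0 ∧ node r l j c i = .hub l j) ∨
    (1 ≤ i ∧ i ≤ 2 * r ∧ node r l j c i = .ch l j c i) ∨ (2 * r < i ∧ node r l j c i = .cl l c) := by
  by_cases h0 : i = 0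
  · subst h0; exact Or.inl ⟨rfl, node_zero _ _ _⟩
  · by_cases h1 : i ≤ 2 * r
    · exact Or.inr (Or.inl ⟨by omega, h1, node_mid h0 h1⟩)
    · right; right
      refine ⟨by omega, ?_⟩
      simp [node, h0, h1]

attribute [irreducible] node

/-- The conflicts. -/
inductive LRel (r : ℕ) : LGI → LGI → Prop
  | par (k p l j : ℕ) (hkl : k < l) (hp : p < nn k) (hj : j / (l + 2) = ss k + p) :
      LRel r (.hub k p) (.hub l j)
  | chain (l j c i : ℕ) (hj : j < nn l) (hc : c < mm l) (hi : i ≤ 2 * r) :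
      LRel r (node r l j c i) (node r l j c (i + 1))

/-- The edges of the chains are determined by their ends. -/
theorem edge_inj (hr : 1 ≤ r) {l j c i l' j' c' i' : ℕ} (hi : i ≤ 2 * r) (hi' : i' ≤ 2 * r)
    (h1 : node r l j c i = node r l' j' c' i') (h2 : node r l j c (i + 1) = node r l' j' c' (i' + 1)) :
    l = l' ∧ j = j' ∧ c = c' ∧ i = i' := by
  rcases node_cases (r := r) l j c i with ⟨e1, e2⟩ | ⟨e1, e1', e2⟩ | ⟨e1, e2⟩
  · rcases node_cases (r := r) l' j' c' i' with ⟨e3, e4⟩ | ⟨e3, e3', e4⟩ | ⟨e3, e4⟩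
    · subst e1; subst e3
      rw [node_mid (by omega) (by omega), node_mid (by omega) (by omega)] at h2
      injection h2 with h3 h4 h5 h6
      exact ⟨h3, h4, h5, rfl⟩
    · rw [e2, e4] at h1; cases h1
    · omega
  · rcases node_cases (r := r) l' j' c' i' with ⟨e3, e4⟩ | ⟨e3, e3', e4⟩ | ⟨e3, e4⟩
    · rw [e2, e4] at h1; cases h1
    · rw [e2, e4] at h1
      injection h1 with h3 h4 h5 h6
      exact ⟨h3, h4, h5, h6⟩
    · omega
  · omega

theorem LRel.ne {a b : LGI} (h : LRel r a b) : a ≠ b := by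
  cases h with
  | par k p l j hkl hp hj =>
    intro h
    injection h with h1 h2
    omega
  | chain l j c i hj hc hi =>
    intro h
    rcases node_cases (r := r) l j c i with ⟨e1, e2⟩ | ⟨e1, e1', e2⟩ | ⟨e1, e2⟩
    · rcases node_cases (r := r) l j c (i + 1) with ⟨e3, e4⟩ | ⟨e3, e3', e4⟩ | ⟨e3, e4⟩
      · omega
      · rw [e2, e4] at h; cases h
      · rw [e2, e4] at h; cases h
    · rcases node_cases (r := r) l j c (i + 1) with ⟨e3, e4⟩ | ⟨e3, e3', e4⟩ | ⟨e3, e4⟩
      · omega
      · rw [e2, e4] at h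
        injection h with h1 h2 h3 h4
        omega
      · rw [e2, e4] at h; cases h
    · omega

/-- A rank which increases along the conflicts. -/
def rank : LGI → ℕ × ℕ
  | .hub l _ => (0, l)
  | .ch _ _ _ i => (1, i)
  | .cl _ _ => (2, 0)

theorem LRel.rank_lt {a b : LGI} (h : LRel r a b) :
    (rank a).1 < (rank b).1 ∨ ((rank a).1 = (rank b).1 ∧ (rank a).2 < (rank b).2) := by
  cases h with
  | par k p l j hkl hp hj => exact Or.inr ⟨rfl, hkl⟩
  | chain l j c i hj hc hi =>
    rcases node_cases (r := r) l j c i with ⟨e1, e2⟩ | ⟨e1, e1', e2⟩ | ⟨e1, e2⟩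
    · rcases node_cases (r := r) l j c (i + 1) with ⟨e3, e4⟩ | ⟨e3, e3', e4⟩ | ⟨e3, e4⟩
      · omega
      · rw [e2, e4]; exact Or.inl (by simp [rank])
      · rw [e2, e4]; exact Or.inl (by simp [rank])
    · rcases node_cases (r := r) l j c (i + 1) with ⟨e3, e4⟩ | ⟨e3, e3', e4⟩ | ⟨e3, e4⟩
      · omega
      · rw [e2, e4]; exact Or.inr ⟨rfl, by simp [rank]⟩
      · rw [e2, e4]; exact Or.inl (by simp [rank])
    · omega

theorem oriented : Oriented (LRel r) where
  irrefl i h := by
    have := h.rank_lt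
    omega
  asymm i j h h' := by
    have h1 := h.rank_lt
    have h2 := h'.rank_lt
    omega

/-! ### The bridge property -/

/-- The hubs below the hub `(l, j)`. -/
inductive Desc (l j : ℕ) : ℕ → ℕ → Prop
  | self : Desc l j l j
  | step (k p l' j' : ℕ) (h : Desc l j k p) (hkl : k < l') (hp : p < nn k)
      (hj : j' / (l' + 2) = ss k + p) : Desc l j l' j'

theorem Desc.le {l j a b : ℕ} (h : Desc l j a b) : l ≤ a := by
  induction h with
  | self => exact le_rfl
  | step k p l' j' h hkl hp hj ih => omega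

theorem bridge (hr : 1 ≤ r) : Bridge (LRel r) (2 * r) := by
  classical
  intro E hE hER K hK
  -- every chain misses an edge
  have hmiss : ∀ l j c : ℕ, ∃ t, t ≤ 2 * r ∧ (node r l j c t, node r l j c (t + 1)) ∉ E := by
    intro l j c
    by_contra hcon
    push Not at hcon
    have h1 : (Finset.range (2 * r + 1)).image
        (fun t => (node r l j c t, node r l j c (t + 1))) ⊆ E := by
      intro e he
      obtain ⟨t, ht, rfl⟩ := Finset.mem_image.1 he
      exact hcon t (by have := Finset.mem_range.1 ht; omega)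
    have h2 := Finset.card_le_card h1
    rw [Finset.card_image_of_injOn, Finset.card_range] at h2
    · omega
    · intro t ht t' ht' h
      have ht := Finset.mem_range.1 (Finset.mem_coe.1 ht)
      have ht' := Finset.mem_range.1 (Finset.mem_coe.1 ht')
      obtain ⟨h3, h4⟩ := Prod.mk.inj h
      exact (edge_inj hr (by omega) (by omega) h3 h4).2.2.2
  choose t ht htE using hmiss
  have hKR := hER K hK
  obtain ⟨K₁, K₂⟩ := K
  -- it is enough to separate the two ends in one of the two directions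
  suffices h : ∃ Q : Set LGI, ((K₁ ∈ Q ∧ K₂ ∉ Q) ∨ (K₁ ∉ Q ∧ K₂ ∈ Q)) ∧
      ∀ l ∈ E, l ≠ (K₁, K₂) → (l.1 ∈ Q ↔ l.2 ∈ Q) by
    obtain ⟨Q, hQ | hQ, hQ'⟩ := h
    · exact ⟨Q, hQ.1, hQ.2, hQ'⟩
    · exact ⟨Qᶜ, hQ.1, fun h => h hQ.2, fun l hl hne => not_congr (hQ' l hl hne)⟩
  cases hKR with
  | par k p l j hkl hp hj =>
    let Q : Set LGI := {x | (∃ a b, x = .hub a b ∧ Desc l j a b) ∨
      (∃ a b c i, x = .ch a b c i ∧ Desc l j a b ∧ i ≤ t a b c)}
    have hQhub : ∀ a b, LGI.hub a b ∈ Q ↔ Desc l j a b := by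
      intro a b
      constructor
      · rintro (⟨a', b', h, h'⟩ | ⟨a', b', c, i, h, -⟩)
        · injection h with h1 h2; subst h1; subst h2; exact h'
        · cases h
      · exact fun h => Or.inl ⟨a, b, rfl, h⟩
    have hQch : ∀ a b c i, LGI.ch a b c i ∈ Q ↔ Desc l j a b ∧ i ≤ t a b c := by
      intro a b c i
      constructor
      · rintro (⟨a', b', h, h'⟩ | ⟨a', b', c', i', h, h', h''⟩)
        · cases h
        · injection h with h1 h2 h3 h4; subst h1; subst h2; subst h3; subst h4; exact ⟨h', h''⟩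
      · exact fun h => Or.inr ⟨a, b, c, i, rfl, h⟩
    have hQcl : ∀ a b, LGI.cl a b ∉ Q := by
      rintro a b (⟨a', b', h, h'⟩ | ⟨a', b', c', i', h, h', h''⟩)
      · cases h
      · cases h
    have hQnode : ∀ a b c i, i ≤ 2 * r + 1 → (node r a b c i ∈ Q ↔ Desc l j a b ∧ i ≤ t a b c) := by
      intro a b c i hi
      rcases node_cases (r := r) a b c i with ⟨e1, e2⟩ | ⟨e1, e1', e2⟩ | ⟨e1, e2⟩
      · rw [e2, hQhub, e1]
        exact ⟨fun h => ⟨h, Nat.zero_le _⟩, fun h => h.1⟩
      · rw [e2, hQch]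
      · rw [e2]
        refine ⟨fun h => absurd h (hQcl _ _), fun h => ?_⟩
        have := ht a b c
        omega
    refine ⟨Q, Or.inr ⟨fun h => ?_, (hQhub l j).2 Desc.self⟩, ?_⟩
    · have := ((hQhub k p).1 h).le
      omega
    · intro K' hK' hne
      have hK'R := hER K' hK'
      obtain ⟨K'₁, K'₂⟩ := K'
      cases hK'R with
      | par k' p' l' j' hkl' hp' hj' =>
        show _ ∈ Q ↔ _ ∈ Q
        rw [hQhub, hQhub]
        constructor
        · exact fun h => Desc.step k' p' l' j' h hkl' hp' hj'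
        · intro h
          cases h with
          | self =>
            exfalso
            obtain ⟨h1, h2⟩ := pos_inj hp hp' (hj.symm.trans hj')
            exact hne (by rw [h1, h2])
          | step k'' p'' _ _ h'' hkl'' hp'' hj'' =>
            obtain ⟨h1, h2⟩ := pos_inj hp' hp'' (hj'.symm.trans hj'')
            rw [h1, h2]
            exact h''
      | chain a b c i hb hc hi =>
        show _ ∈ Q ↔ _ ∈ Q
        rw [hQnode _ _ _ _ (by omega), hQnode _ _ _ _ (by omega)]
        have h1 : i ≠ t a b c := by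
          rintro h
          rw [h] at hK'
          exact htE a b c hK'
        constructor
        · rintro ⟨h2, h3⟩; exact ⟨h2, by omega⟩
        · rintro ⟨h2, h3⟩; exact ⟨h2, by omega⟩
  | chain l j c i hj hc hi =>
    -- segments of a chain
    have key : ∀ α β : ℕ, β ≤ 2 * r → α ≤ 2 * r →
        (∀ K' ∈ E, K' ≠ (node r l j c i, node r l j c (i + 1)) →
          K' ≠ (node r l j c α, node r l j c (α + 1)) ∧ K' ≠ (node r l j c β, node r l j c (β + 1))) →
        ∀ K' ∈ E, K' ≠ (node r l j c i, node r l j c (i + 1)) →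
          (K'.1 ∈ {x | ∃ i', α < i' ∧ i' ≤ β ∧ x = .ch l j c i'} ↔
            K'.2 ∈ {x | ∃ i', α < i' ∧ i' ≤ β ∧ x = .ch l j c i'}) := by
      intro α β hβ hα hαβ K' hK' hne
      have hK'R := hER K' hK'
      have h0 := hαβ K' hK' hne
      have hnode : ∀ l' j' c' i' : ℕ, i' ≤ 2 * r + 1 →
          (node r l' j' c' i' ∈ {x | ∃ i', α < i' ∧ i' ≤ β ∧ x = LGI.ch l j c i'} ↔
            l' = l ∧ j' = j ∧ c' = c ∧ α < i' ∧ i' ≤ β) := by
        intro l' j' c' i' hi'
        rw [Set.mem_ofPred_eq]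
        rcases node_cases (r := r) l' j' c' i' with ⟨e1, e2⟩ | ⟨e1, e1', e2⟩ | ⟨e1, e2⟩
        · rw [e2]
          constructor
          · rintro ⟨_, -, -, h⟩; cases h
          · rintro ⟨-, -, -, h, -⟩; omega
        · rw [e2]
          constructor
          · rintro ⟨i'', h1, h2, h3⟩
            injection h3 with h4 h5 h6 h7
            subst h7
            exact ⟨h4, h5, h6, h1, h2⟩
          · rintro ⟨h1, h2, h3, h4, h5⟩
            exact ⟨i', h4, h5, by rw [h1, h2, h3]⟩
        · rw [e2]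
          constructor
          · rintro ⟨_, -, -, h⟩; cases h
          · rintro ⟨-, -, -, -, h⟩; omega
      obtain ⟨K'₁, K'₂⟩ := K'
      cases hK'R with
      | par k' p' l' j' hkl' hp' hj' =>
        constructor
        · rintro ⟨_, -, -, h⟩; cases h
        · rintro ⟨_, -, -, h⟩; cases h
      | chain l' j' c' i' hb hc' hi' =>
        show _ ∈ {x | ∃ i', α < i' ∧ i' ≤ β ∧ x = LGI.ch l j c i'} ↔
          _ ∈ {x | ∃ i', α < i' ∧ i' ≤ β ∧ x = LGI.ch l j c i'}
        rw [hnode _ _ _ _ (by omega), hnode _ _ _ _ (by omega)]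
        constructor
        · rintro ⟨h1, h2, h3, h4, h5⟩
          refine ⟨h1, h2, h3, by omega, ?_⟩
          by_contra h6
          have h7 : i' = β := by omega
          exact h0.2 (by rw [h1, h2, h3, h7])
        · rintro ⟨h1, h2, h3, h4, h5⟩
          refine ⟨h1, h2, h3, ?_, by omega⟩
          by_contra h6
          have h7 : i' = α := by omega
          exact h0.1 (by rw [h1, h2, h3, h7])
    have hti : t l j c ≠ i := by
      intro h
      have := htE l j c
      rw [h] at this
      exact this hK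
    have htc := ht l j c
    have hside : ∀ K' ∈ E, K' ≠ (node r l j c (t l j c), node r l j c (t l j c + 1)) := by
      rintro K' hK' rfl
      exact htE l j c hK'
    rcases lt_or_gt_of_ne hti with h | h
    · refine ⟨{x | ∃ i', t l j c < i' ∧ i' ≤ i ∧ x = .ch l j c i'}, Or.inl ⟨?_, ?_⟩,
        key (t l j c) i hi htc (fun K' hK' hne => ⟨hside K' hK', hne⟩)⟩
      · exact ⟨i, h, le_rfl, node_mid (by omega) hi⟩
      · rintro ⟨i', h1, h2, h3⟩
        rcases node_cases (r := r) l j c (i + 1) with ⟨e1, e2⟩ | ⟨e1, e1', e2⟩ | ⟨e1, e2⟩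
        · omega
        · rw [e2] at h3
          injection h3 with h4 h5 h6 h7
          omega
        · rw [e2] at h3; cases h3
    · refine ⟨{x | ∃ i', i < i' ∧ i' ≤ t l j c ∧ x = .ch l j c i'}, Or.inr ⟨?_, ?_⟩,
        key i (t l j c) htc hi (fun K' hK' hne => ⟨hne, hside K' hK'⟩)⟩
      · rintro ⟨i', h1, h2, h3⟩
        rcases node_cases (r := r) l j c i with ⟨e1, e2⟩ | ⟨e1, e1', e2⟩ | ⟨e1, e2⟩
        · rw [e2] at h3; cases h3
        · rw [e2] at h3
          injection h3 with h4 h5 h6 h7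
          omega
        · omega
      · exact ⟨i + 1, by omega, by omega, node_mid (by omega) (by omega)⟩

end LGI

end Pool.Agent.StrongMax
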