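import Pool.Agent.Lib.StrongMax.LG

/-!
# The large girth relation is bad (helper18, construction of helper9)
-/

namespace Pool.Agent.StrongMax

open Finset

/-- `S` cannot be improved. -/
def Stable {I : Type*} (Rel : I → I → Prop) (S : Set I) : Prop :=
  ∀ (A B : Finset I) (C : Finset (I × I)), (∀ a ∈ A, a ∈ S) → (∀ b ∈ B, b ∉ S) →
    (∀ b ∈ B, ∀ i ∈ S, (Rel b i ∨ Rel i b) → i ∈ A) → (∀ b ∈ B, ∀ b' ∈ B, ¬ Rel b b') →
    (∀ c ∈ C, Rel c.1 c.2 ∧ c.1 ∈ S ∧ c.2 ∈ S ∧ (c.1 ∈ A ∨ c.2 ∈ A)) → B.card + C.card ≤ A.card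

theorem bad_of_stable {I : Type*} {Rel : I → I → Prop} (h : ∀ S, ¬ Stable Rel S) : Bad Rel := by
  intro S
  by_contra hcon
  refine h S (fun A B C h1 h2 h3 h4 h5 => ?_)
  by_contra h6
  exact hcon ⟨A, B, C, h1, h2, h3, h4, h5, not_le.1 h6⟩

open Classical in
/-- The exchange in a finite region `U`. -/
theorem Stable.exch {I : Type*} [DecidableEq I] {Rel : I → I → Prop} {S : Set I} (hS : Stable Rel S)
    (U new : Finset I) (hsub : new ⊆ U) (hind : ∀ b ∈ new, ∀ b' ∈ new, ¬ Rel b b')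
    (hnb : ∀ b ∈ new, ∀ i ∈ S, (Rel b i ∨ Rel i b) → i ∈ U) (C : Finset (I × I))
    (hC : ∀ c ∈ C, Rel c.1 c.2 ∧ c.1 ∈ S ∧ c.2 ∈ S ∧ (c.1 ∈ U \ new ∨ c.2 ∈ U \ new)) :
    new.card + C.card ≤ (U.filter (· ∈ S)).card := by
  have h1 := hS ((U.filter (· ∈ S)) \ new) (new.filter (· ∉ S)) C ?_ ?_ ?_ ?_ ?_
  · have h2 : (new.filter (· ∈ S)).card + (new.filter (· ∉ S)).card = new.card :=
      Finset.card_filter_add_card_filter_not _
    have h3 : ((U.filter (· ∈ S)) \ new).card + (new.filter (· ∈ S)).card =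
        (U.filter (· ∈ S)).card := by
      have h4 : (U.filter (· ∈ S)) \ new = (U.filter (· ∈ S)) \ (new.filter (· ∈ S)) := by
        ext x
        simp only [mem_sdiff, mem_filter]
        tauto
      rw [h4]
      exact card_sdiff_add_card_eq_card (filter_subset_filter _ hsub)
    omega
  · intro a ha
    rw [mem_sdiff, mem_filter] at ha
    exact ha.1.2
  · intro b hb
    rw [mem_filter] at hb
    exact hb.2
  · intro b hb i hi hbi
    rw [mem_filter] at hb
    rw [mem_sdiff, mem_filter]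
    refine ⟨⟨hnb b hb.1 i hi hbi, hi⟩, fun h => ?_⟩
    rcases hbi with h' | h'
    · exact hind b hb.1 i h h'
    · exact hind i h b hb.1 h'
  · intro b hb b' hb'
    rw [mem_filter] at hb hb'
    exact hind b hb.1 b' hb'.1
  · intro c hc
    obtain ⟨h1, h2, h3, h4⟩ := hC c hc
    refine ⟨h1, h2, h3, ?_⟩
    rw [mem_sdiff] at h4
    rw [mem_sdiff] at h4
    rw [mem_sdiff, mem_filter, mem_sdiff, mem_filter]
    rcases h4 with h4 | h4
    · exact Or.inl ⟨⟨h4.1, h2⟩, h4.2⟩
    · exact Or.inr ⟨⟨h4.1, h3⟩, h4.2⟩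

namespace LGI

/-! ### The inequality for a chain -/

theorem chain_odd (y : ℕ → ℕ) (hy : ∀ i, y i ≤ 1) (r : ℕ) :
    ∑ i ∈ range (2 * r), y (i + 1) ≤ r + ∑ i ∈ range r, y (2 * i + 1) * y (2 * i + 2) := by
  induction r with
  | zero => simp
  | succ r ih =>
    rw [show 2 * (r + 1) = 2 * r + 1 + 1 by ring, sum_range_succ, sum_range_succ, sum_range_succ]
    have h1 := hy (2 * r + 1)
    have h2 := hy (2 * r + 2)
    have h3 : y (2 * r + 1) + y (2 * r + 2) ≤ 1 + y (2 * r + 1) * y (2 * r + 2) := by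
      interval_cases y (2 * r + 1) <;> interval_cases y (2 * r + 2) <;> simp
    have h4 : y (2 * r + 1 + 1) = y (2 * r + 2) := rfl
    omega

theorem chain_even_aux (y : ℕ → ℕ) (hy : ∀ i, y i ≤ 1) (r : ℕ) :
    ∑ i ∈ range (2 * r + 2), y i ≤ (r + 1) + ∑ i ∈ range (r + 1), y (2 * i) * y (2 * i + 1) := by
  induction r with
  | zero =>
    have h1 := hy 0
    have h2 := hy 1
    simp only [sum_range_succ, range_zero, sum_empty, mul_zero, zero_add]
    interval_cases y 0 <;> interval_cases y 1 <;> simp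
  | succ r ih =>
    rw [show 2 * (r + 1) + 2 = 2 * r + 2 + 1 + 1 by ring, sum_range_succ, sum_range_succ,
      sum_range_succ _ (r + 1)]
    have h1 := hy (2 * r + 2)
    have h2 := hy (2 * r + 3)
    have h3 : y (2 * r + 2) + y (2 * r + 3) ≤ 1 + y (2 * r + 2) * y (2 * r + 3) := by
      interval_cases y (2 * r + 2) <;> interval_cases y (2 * r + 3) <;> simp
    have h4 : y (2 * r + 2 + 1) = y (2 * r + 3) := rfl
    have h5 : y (2 * (r + 1)) * y (2 * (r + 1) + 1) = y (2 * r + 2) * y (2 * r + 3) := by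
      rw [show 2 * (r + 1) = 2 * r + 2 by ring]
    omega

theorem chain_even (y : ℕ → ℕ) (hy : ∀ i, y i ≤ 1) (r : ℕ) (h0 : y 0 = 1) (h1 : y (2 * r + 1) = 1) :
    ∑ i ∈ range (2 * r), y (i + 1) + 1 ≤ r + ∑ i ∈ range (r + 1), y (2 * i) * y (2 * i + 1) := by
  have h2 := chain_even_aux y hy r
  rw [show 2 * r + 2 = (2 * r + 1) + 1 by ring, sum_range_succ, h1, sum_range_succ', h0] at h2
  omega

open Classical in
/-- The indicator function of `S`. -/
noncomputable def chi (S : Set LGI) (x : LGI) : ℕ := if x ∈ S then 1 else 0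

theorem chi_le (S : Set LGI) (x : LGI) : chi S x ≤ 1 := by
  unfold chi
  split_ifs <;> simp

theorem chi_eq_one {S : Set LGI} {x : LGI} : chi S x = 1 ↔ x ∈ S := by
  unfold chi
  split_ifs with h <;> simp [h]

theorem chi_eq_zero {S : Set LGI} {x : LGI} : chi S x = 0 ↔ x ∉ S := by
  unfold chi
  split_ifs with h <;> simp [h]

open Classical in
theorem chi_mul (S : Set LGI) (x y : LGI) :
    chi S x * chi S y = if x ∈ S ∧ y ∈ S then 1 else 0 := by
  unfold chi
  by_cases hx : x ∈ S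
  · by_cases hy : y ∈ S
    · rw [if_pos hx, if_pos hy, if_pos ⟨hx, hy⟩]
    · rw [if_pos hx, if_neg hy, if_neg (fun h => hy h.2)]
  · rw [if_neg hx, zero_mul, if_neg (fun h => hx h.1)]

variable {r : ℕ}

open Classical in
/-- A set of chain edges inside `S` which is large enough. -/
theorem chain_C (hr : 1 ≤ r) (S : Set LGI) (l j c : ℕ) : ∃ C : Finset (LGI × LGI),
    (∀ p ∈ C, p.1 ∈ S ∧ p.2 ∈ S ∧ ∃ t ≤ 2 * r, p = (node r l j c t, node r l j c (t + 1))) ∧
    ∑ i ∈ range (2 * r), chi S (.ch l j c (i + 1)) + chi S (.hub l j) * chi S (.cl l c) ≤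
      r + C.card := by
  let y : ℕ → ℕ := fun i => chi S (node r l j c i)
  have hy : ∀ i, y i ≤ 1 := fun i => chi_le _ _
  have hsum : ∑ i ∈ range (2 * r), chi S (.ch l j c (i + 1)) = ∑ i ∈ range (2 * r), y (i + 1) := by
    refine sum_congr rfl (fun i hi => ?_)
    have := mem_range.1 hi
    show _ = chi S (node r l j c (i + 1))
    rw [node_mid (by omega) (by omega)]
  have hinj : ∀ t t', t ≤ 2 * r → t' ≤ 2 * r → (node r l j c t, node r l j c (t + 1)) =
      (node r l j c t', node r l j c (t' + 1)) → t = t' := by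
    intro t t' ht ht' h
    obtain ⟨h3, h4⟩ := Prod.mk.inj h
    exact (edge_inj hr ht ht' h3 h4).2.2.2
  -- the edges with index in `T`
  have key : ∀ T : Finset ℕ, (∀ t ∈ T, t ≤ 2 * r) → ∃ C : Finset (LGI × LGI),
      (∀ p ∈ C, p.1 ∈ S ∧ p.2 ∈ S ∧ ∃ t ≤ 2 * r, p = (node r l j c t, node r l j c (t + 1))) ∧
      C.card = ∑ t ∈ T, y t * y (t + 1) := by
    intro T hT
    refine ⟨(T.filter (fun t => node r l j c t ∈ S ∧ node r l j c (t + 1) ∈ S)).image
      (fun t => (node r l j c t, node r l j c (t + 1))), ?_, ?_⟩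
    · intro p hp
      obtain ⟨t, ht, rfl⟩ := mem_image.1 hp
      obtain ⟨h1, h2, h3⟩ := mem_filter.1 ht
      exact ⟨h2, h3, t, hT t h1, rfl⟩
    · rw [card_image_of_injOn, card_filter]
      · refine sum_congr rfl (fun t _ => ?_)
        exact (chi_mul S _ _).symm
      · intro t ht t' ht' h
        exact hinj t t' (hT t (mem_filter.1 (mem_coe.1 ht)).1) (hT t' (mem_filter.1 (mem_coe.1 ht')).1) h
  by_cases hb : LGI.hub l j ∈ S ∧ LGI.cl l c ∈ S
  · obtain ⟨C, hC1, hC2⟩ := key ((range (r + 1)).image (fun i => 2 * i)) (by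
      intro t ht
      obtain ⟨i, hi, rfl⟩ := mem_image.1 ht
      have := mem_range.1 hi
      show 2 * i ≤ 2 * r
      omega)
    refine ⟨C, hC1, ?_⟩
    rw [sum_image (fun i _ i' _ h => by
      have h' : 2 * i = 2 * i' := h
      omega)] at hC2
    rw [hsum, hC2, chi_eq_one.2 hb.1, chi_eq_one.2 hb.2]
    refine chain_even y hy r ?_ ?_
    · show chi S (node r l j c 0) = 1
      rw [node_zero]; exact chi_eq_one.2 hb.1
    · show chi S (node r l j c (2 * r + 1)) = 1
      rw [node_last]; exact chi_eq_one.2 hb.2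
  · obtain ⟨C, hC1, hC2⟩ := key ((range r).image (fun i => 2 * i + 1)) (by
      intro t ht
      obtain ⟨i, hi, rfl⟩ := mem_image.1 ht
      have := mem_range.1 hi
      show 2 * i + 1 ≤ 2 * r
      omega)
    refine ⟨C, hC1, ?_⟩
    rw [sum_image (fun i _ i' _ h => by
      have h' : 2 * i + 1 = 2 * i' + 1 := h
      omega)] at hC2
    have h1 : chi S (.hub l j) * chi S (.cl l c) = 0 := by
      by_contra h2
      have h3 := chi_le S (.hub l j)
      have h4 := chi_le S (.cl l c)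
      have h5 : chi S (.hub l j) ≠ 0 := fun h => h2 (by rw [h, zero_mul])
      have h6 : chi S (.cl l c) ≠ 0 := fun h => h2 (by rw [h, mul_zero])
      exact hb ⟨chi_eq_one.1 (by omega), chi_eq_one.1 (by omega)⟩
    rw [hsum, hC2, h1, add_zero]
    exact chain_odd y hy r

/-! ### The clusters -/

/-- The hubs of a cluster. -/
def Hub (l : ℕ) : Finset LGI := (range (nn l)).image (.hub l)

/-- The clients of a cluster. -/
def Cli (l : ℕ) : Finset LGI := (range (mm l)).image (.cl l)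

/-- The indices of the chains of a cluster. -/
def JC (l : ℕ) : Finset (ℕ × ℕ) := range (nn l) ×ˢ range (mm l)

/-- The inner vertices of the chains of a cluster with index `α i + β + 1`. -/
def Inn (l : ℕ) (N : ℕ) (g : ℕ → ℕ) : Finset LGI :=
  (JC l ×ˢ range N).image (fun p => .ch l p.1.1 p.1.2 (g p.2))

theorem mem_Hub {l : ℕ} {x : LGI} : x ∈ Hub l ↔ ∃ j < nn l, x = .hub l j := by
  unfold Hub
  rw [mem_image]
  constructor
  · rintro ⟨j, hj, rfl⟩; exact ⟨j, mem_range.1 hj, rfl⟩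
  · rintro ⟨j, hj, rfl⟩; exact ⟨j, mem_range.2 hj, rfl⟩

theorem mem_Cli {l : ℕ} {x : LGI} : x ∈ Cli l ↔ ∃ j < mm l, x = .cl l j := by
  unfold Cli
  rw [mem_image]
  constructor
  · rintro ⟨j, hj, rfl⟩; exact ⟨j, mem_range.1 hj, rfl⟩
  · rintro ⟨j, hj, rfl⟩; exact ⟨j, mem_range.2 hj, rfl⟩

theorem mem_JC {l : ℕ} {p : ℕ × ℕ} : p ∈ JC l ↔ p.1 < nn l ∧ p.2 < mm l := by
  unfold JC
  rw [mem_product, mem_range, mem_range]

theorem mem_Inn {l N : ℕ} {g : ℕ → ℕ} {x : LGI} :
    x ∈ Inn l N g ↔ ∃ j < nn l, ∃ c < mm l, ∃ i < N, x = .ch l j c (g i) := by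
  unfold Inn
  rw [mem_image]
  constructor
  · rintro ⟨⟨⟨j, c⟩, i⟩, h, rfl⟩
    obtain ⟨h1, h2⟩ := mem_product.1 h
    obtain ⟨h3, h4⟩ := mem_JC.1 h1
    exact ⟨j, h3, c, h4, i, mem_range.1 h2, rfl⟩
  · rintro ⟨j, hj, c, hc, i, hi, rfl⟩
    exact ⟨⟨⟨j, c⟩, i⟩, mem_product.2 ⟨mem_JC.2 ⟨hj, hc⟩, mem_range.2 hi⟩, rfl⟩

theorem card_Hub (l : ℕ) : (Hub l).card = nn l := by
  unfold Hub
  rw [card_image_of_injective _ (fun a b h => by injection h), card_range]

theorem card_Cli (l : ℕ) : (Cli l).card = mm l := by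
  unfold Cli
  rw [card_image_of_injective _ (fun a b h => by injection h), card_range]

theorem card_Inn (l N : ℕ) {g : ℕ → ℕ} (hg : Function.Injective g) :
    (Inn l N g).card = nn l * mm l * N := by
  unfold Inn
  rw [card_image_of_injective, card_product, JC, card_product, card_range, card_range, card_range]
  rintro ⟨⟨j, c⟩, i⟩ ⟨⟨j', c'⟩, i'⟩ h
  injection h with h1 h2 h3 h4
  simp only at h2 h3 h4
  rw [h2, h3, hg h4]

/-- The cluster `l`. -/
def Clu (r l : ℕ) : Finset LGI := (Hub l ∪ Cli l) ∪ Inn l (2 * r) (fun i => i + 1)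

/-- The cluster in client mode. -/
def newC (r l : ℕ) : Finset LGI := Cli l ∪ Inn l r (fun i => 2 * i + 1)

/-- The cluster in hub mode. -/
def newH (r l : ℕ) : Finset LGI := Hub l ∪ Inn l r (fun i => 2 * i + 2)

theorem disj_Hub_Cli (l l' : ℕ) : Disjoint (Hub l) (Cli l') := by
  rw [disjoint_left]
  intro x hx hx'
  obtain ⟨j, -, rfl⟩ := mem_Hub.1 hx
  obtain ⟨c, -, h⟩ := mem_Cli.1 hx'
  cases h

theorem disj_Hub_Inn (l l' N : ℕ) (g : ℕ → ℕ) : Disjoint (Hub l) (Inn l' N g) := by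
  rw [disjoint_left]
  intro x hx hx'
  obtain ⟨j, -, rfl⟩ := mem_Hub.1 hx
  obtain ⟨_, _, _, _, _, _, h⟩ := mem_Inn.1 hx'
  cases h

theorem disj_Cli_Inn (l l' N : ℕ) (g : ℕ → ℕ) : Disjoint (Cli l) (Inn l' N g) := by
  rw [disjoint_left]
  intro x hx hx'
  obtain ⟨j, -, rfl⟩ := mem_Cli.1 hx
  obtain ⟨_, _, _, _, _, _, h⟩ := mem_Inn.1 hx'
  cases h

theorem card_newC (r l : ℕ) : (newC r l).card = mm l + nn l * mm l * r := by
  unfold newC
  rw [card_union_of_disjoint (disj_Cli_Inn _ _ _ _), card_Cli,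
    card_Inn _ _ (fun a b h => by
      have h' : 2 * a + 1 = 2 * b + 1 := h
      omega)]

theorem card_newH (r l : ℕ) : (newH r l).card = nn l + nn l * mm l * r := by
  unfold newH
  rw [card_union_of_disjoint (disj_Hub_Inn _ _ _ _), card_Hub,
    card_Inn _ _ (fun a b h => by
      have h' : 2 * a + 2 = 2 * b + 2 := h
      omega)]

/-- The index of the cluster of an item. -/
def cix : LGI → ℕ
  | .hub l _ => l
  | .cl l _ => l
  | .ch l _ _ _ => l

theorem mem_Clu_cix {l : ℕ} {x : LGI} (h : x ∈ Clu r l) : cix x = l := by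
  unfold Clu at h
  rw [mem_union, mem_union] at h
  rcases h with (h | h) | h
  · obtain ⟨j, -, rfl⟩ := mem_Hub.1 h; rfl
  · obtain ⟨j, -, rfl⟩ := mem_Cli.1 h; rfl
  · obtain ⟨_, _, _, _, _, _, rfl⟩ := mem_Inn.1 h; rfl

theorem newC_sub (l : ℕ) : newC r l ⊆ Clu r l := by
  intro x hx
  unfold newC at hx
  unfold Clu
  rw [mem_union, mem_union]
  rcases mem_union.1 hx with h | h
  · exact Or.inl (Or.inr h)
  · obtain ⟨j, hj, c, hc, i, hi, rfl⟩ := mem_Inn.1 h
    exact Or.inr (mem_Inn.2 ⟨j, hj, c, hc, 2 * i, by omega, rfl⟩)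

theorem newH_sub (l : ℕ) : newH r l ⊆ Clu r l := by
  intro x hx
  unfold newH at hx
  unfold Clu
  rw [mem_union, mem_union]
  rcases mem_union.1 hx with h | h
  · exact Or.inl (Or.inl h)
  · obtain ⟨j, hj, c, hc, i, hi, rfl⟩ := mem_Inn.1 h
    exact Or.inr (mem_Inn.2 ⟨j, hj, c, hc, 2 * i + 1, by omega, rfl⟩)

open Classical in
/-- The number of hubs in `S`. -/
noncomputable def aa (S : Set LGI) (l : ℕ) : ℕ := ((Hub l).filter (· ∈ S)).card

open Classical in
/-- The number of clients in `S`. -/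
noncomputable def bb (S : Set LGI) (l : ℕ) : ℕ := ((Cli l).filter (· ∈ S)).card

theorem aa_eq (S : Set LGI) (l : ℕ) : aa S l = ∑ j ∈ range (nn l), chi S (.hub l j) := by
  classical
  unfold aa Hub
  rw [card_filter, sum_image (fun i _ i' _ h => by injection h)]
  rfl

theorem bb_eq (S : Set LGI) (l : ℕ) : bb S l = ∑ j ∈ range (mm l), chi S (.cl l j) := by
  classical
  unfold bb Cli
  rw [card_filter, sum_image (fun i _ i' _ h => by injection h)]
  rfl

theorem aa_le (S : Set LGI) (l : ℕ) : aa S l ≤ nn l := by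
  classical
  unfold aa
  rw [← card_Hub l]
  exact card_filter_le _ _

theorem bb_le (S : Set LGI) (l : ℕ) : bb S l ≤ mm l := by
  classical
  unfold bb
  rw [← card_Cli l]
  exact card_filter_le _ _

open Classical in
/-- The edges of the chains of a cluster which are used in the counting. -/
theorem exists_CC (hr : 1 ≤ r) (S : Set LGI) (l : ℕ) : ∃ C : Finset (LGI × LGI),
    (∀ p ∈ C, p.1 ∈ S ∧ p.2 ∈ S ∧ ∃ j < nn l, ∃ c < mm l, ∃ t ≤ 2 * r,
      p = (node r l j c t, node r l j c (t + 1))) ∧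
    ((Clu r l).filter (· ∈ S)).card + aa S l * bb S l ≤ aa S l + bb S l + nn l * mm l * r + C.card := by
  choose C hC1 hC2 using fun p : ℕ × ℕ => chain_C hr S l p.1 p.2
  refine ⟨(JC l).biUnion C, ?_, ?_⟩
  · intro p hp
    obtain ⟨⟨j, c⟩, h1, h2⟩ := mem_biUnion.1 hp
    obtain ⟨h3, h4, t, h5, h6⟩ := hC1 (j, c) p h2
    obtain ⟨h7, h8⟩ := mem_JC.1 h1
    exact ⟨h3, h4, j, h7, c, h8, t, h5, h6⟩
  · rw [card_biUnion]
    · have h1 : ((Clu r l).filter (· ∈ S)).card = aa S l + bb S l +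
          ∑ p ∈ JC l, ∑ i ∈ range (2 * r), chi S (.ch l p.1 p.2 (i + 1)) := by
        unfold Clu aa bb
        rw [filter_union, card_union_of_disjoint, filter_union, card_union_of_disjoint]
        · congr 1
          unfold Inn
          rw [card_filter, sum_image, sum_product]
          · rfl
          · rintro ⟨⟨j, c⟩, i⟩ _ ⟨⟨j', c'⟩, i'⟩ _ h
            injection h with h1 h2 h3 h4
            simp only at h2 h3 h4
            rw [h2, h3, Nat.succ_injective h4]
        · exact disjoint_filter_filter (disj_Hub_Cli _ _)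
        · refine disjoint_filter_filter ?_
          rw [disjoint_union_left]
          exact ⟨disj_Hub_Inn _ _ _ _, disj_Cli_Inn _ _ _ _⟩
      have h2 : aa S l * bb S l = ∑ p ∈ JC l, chi S (.hub l p.1) * chi S (.cl l p.2) := by
        rw [aa_eq, bb_eq, sum_mul_sum, JC, sum_product]
      have h3 : ∑ p ∈ JC l, (∑ i ∈ range (2 * r), chi S (.ch l p.1 p.2 (i + 1)) +
          chi S (.hub l p.1) * chi S (.cl l p.2)) ≤ ∑ p ∈ JC l, (r + (C p).card) :=
        sum_le_sum (fun p _ => hC2 p)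
      rw [sum_add_distrib, sum_add_distrib, sum_const, smul_eq_mul] at h3
      have h4 : (JC l).card = nn l * mm l := by
        unfold JC
        rw [card_product, card_range, card_range]
      rw [h4] at h3
      rw [h1, h2]
      omega
    · rintro ⟨j, c⟩ h1 ⟨j', c'⟩ h2 hne
      rw [Function.onFun, disjoint_left]
      intro p hp hp'
      obtain ⟨-, -, t, ht, h3⟩ := hC1 (j, c) p hp
      obtain ⟨-, -, t', ht', h4⟩ := hC1 (j', c') p hp'
      rw [h3] at h4
      obtain ⟨h5, h6⟩ := Prod.mk.inj h4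
      obtain ⟨-, h7, h8, -⟩ := edge_inj hr ht ht' h5 h6
      simp only at h7 h8
      exact hne (by rw [h7, h8])

end LGI

end Pool.Agent.StrongMax
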