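import Pool.Agent.Lib.StrongMax.AtomDefs
import Pool.Agent.Lib.StrongMax.Copy

/-!
# Copies in the apex host over a conflict graph of large girth (helper9)
-/

namespace Pool.Agent.StrongMax

section

variable {J W : Type}

/-- The edge `a a'` of `H` is mapped into the piece `k`. -/
def EP (R : J → J → Prop) (H : SimpleGraph W) (r b x : W) (f : W → GV J W) (a a' : W)
    (k : J × J) : Prop :=
  R k.1 k.2 ∧ ∃ s t, H.Adj s t ∧ f a = gpsi r b x k.1 k.2 s ∧ f a' = gpsi r b x k.1 k.2 t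

/-- A copy of `H` in the apex host at a vertex of a graph of minimum degree at least three. -/
structure PCopy (R : J → J → Prop) (H : SimpleGraph W) (r b x : W) (f : W → GV J W) : Prop where
  hR : Oriented R
  h2 : Conn2 H
  hdeg : ∀ z p q : W, ∃ w, H.Adj z w ∧ w ≠ p ∧ w ≠ q
  two : ∀ D, IsFrag2 H D → ∃ x y, x ≠ y ∧ bd H D = {x, y}
  hrb : H.Adj r b
  hrx : H.Adj r x
  hbx : b ≠ x
  bridge : Bridge R (Nat.card (W × W))
  inj : Function.Injective f
  adj : ∀ a a', H.Adj a a' → (ghost R H r b x).Adj (f a) (f a')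

variable {R : J → J → Prop} {H : SimpleGraph W} {r b x : W} {f : W → GV J W}

theorem EP.symm {a a' : W} {k : J × J} (h : EP R H r b x f a a' k) : EP R H r b x f a' a k := by
  obtain ⟨h1, s, t, h2, h3, h4⟩ := h
  exact ⟨h1, t, s, h2.symm, h4, h3⟩

theorem EP.priv {a a' : W} {k : J × J} (h : EP R H r b x f a a' k) {i j : J} {t : W}
    (ha : f a = .p i j t) : k = (i, j) := by
  obtain ⟨h1, s, t', h2, h3, h4⟩ := h
  rw [ha] at h3
  obtain ⟨h5, h6, -⟩ := gpsi_eq_p h3.symm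
  exact Prod.ext h5 h6

variable (C : PCopy R H r b x f)

include C

theorem PCopy.ep {a a' : W} (h : H.Adj a a') : ∃ k, EP R H r b x f a a' k := by
  obtain ⟨-, i, j, s, t, hij, hst, h1, h2⟩ := C.adj a a' h
  exact ⟨(i, j), hij, s, t, hst, h1, h2⟩

theorem PCopy.uniq {a a' : W} (haa : a ≠ a') {k l : J × J} (hk : EP R H r b x f a a' k)
    (hl : EP R H r b x f a a' l) (ha : f a ≠ .u) (ha' : f a' ≠ .u) : k = l := by
  have hne : f a ≠ f a' := fun h => haa (C.inj h)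
  rcases hfa : f a with _ | m | ⟨i, j, s⟩
  · exact absurd hfa ha
  · rcases hfa' : f a' with _ | m' | ⟨i, j, s⟩
    · exact absurd hfa' ha'
    · obtain ⟨h1, s, t, -, h3, h4⟩ := hk
      obtain ⟨h1', s', t', -, h3', h4'⟩ := hl
      rw [hfa, hfa'] at hne
      rw [hfa] at h3 h3'
      rw [hfa'] at h4 h4'
      have hmm : m ≠ m' := fun h => hne (by rw [h])
      have key : ∀ k : J × J, ∀ s t : W, gpsi r b x k.1 k.2 s = .w m → gpsi r b x k.1 k.2 t = .w m' →
          (k.1 = m ∧ k.2 = m') ∨ (k.1 = m' ∧ k.2 = m) := by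
        intro k s t hs ht
        rcases gpsi_eq_w hs with ⟨-, g1⟩ | ⟨-, g1⟩ <;> rcases gpsi_eq_w ht with ⟨-, g2⟩ | ⟨-, g2⟩
        · exact absurd (g1.trans g2.symm) hmm
        · exact Or.inl ⟨g1.symm, g2.symm⟩
        · exact Or.inr ⟨g2.symm, g1.symm⟩
        · exact absurd (g1.trans g2.symm) hmm
      rcases key k s t h3.symm h4.symm with ⟨g1, g2⟩ | ⟨g1, g2⟩ <;>
        rcases key l s' t' h3'.symm h4'.symm with ⟨g3, g4⟩ | ⟨g3, g4⟩
      · exact Prod.ext (g1.trans g3.symm) (g2.trans g4.symm)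
      · rw [g1, g2] at h1; rw [g3, g4] at h1'
        exact absurd h1' (C.hR.asymm _ _ h1)
      · rw [g1, g2] at h1; rw [g3, g4] at h1'
        exact absurd h1' (C.hR.asymm _ _ h1)
      · exact Prod.ext (g1.trans g3.symm) (g2.trans g4.symm)
    · rw [hk.symm.priv hfa', hl.symm.priv hfa']
  · rw [hk.priv hfa, hl.priv hfa]

omit C in
/-- The vertices incident with an edge in the piece `k` not at the apex. -/
def Sk (R : J → J → Prop) (H : SimpleGraph W) (r b x : W) (f : W → GV J W) (k : J × J) : Set W :=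
  {a | f a ≠ .u ∧ ∃ a', H.Adj a a' ∧ f a' ≠ .u ∧ EP R H r b x f a a' k}

omit C in
/-- Two pieces meet at `c`. -/
def Cross (R : J → J → Prop) (H : SimpleGraph W) (r b x : W) (f : W → GV J W) (c : W) : Prop :=
  ∃ k l, k ≠ l ∧ c ∈ Sk R H r b x f k ∧ c ∈ Sk R H r b x f l

omit C in
theorem Cross.eq_w {c : W} (h : Cross R H r b x f c) : ∃ m, f c = .w m := by
  obtain ⟨k, l, hkl, ⟨hu, a, -, -, h1⟩, ⟨-, a', -, -, h2⟩⟩ := h
  rcases hfc : f c with _ | m | ⟨i, j, s⟩
  · exact absurd hfc hu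
  · exact ⟨m, rfl⟩
  · exact absurd ((h1.priv hfc).trans (h2.priv hfc).symm) hkl

/-- The bridge property for the used pieces. -/
theorem PCopy.side [Finite W] {k : J × J} (hk : (Sk R H r b x f k).Nonempty) {m m' : J}
    (hm : (m = k.1 ∧ m' = k.2) ∨ (m = k.2 ∧ m' = k.1)) :
    ∃ Q : Set J, m ∈ Q ∧ m' ∉ Q ∧
      ∀ l, (Sk R H r b x f l).Nonempty → l ≠ k → (l.1 ∈ Q ↔ l.2 ∈ Q) := by
  classical
  have h1 : ∀ k : {k : J × J // (Sk R H r b x f k).Nonempty}, ∃ p : W × W,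
      H.Adj p.1 p.2 ∧ f p.1 ≠ .u ∧ f p.2 ≠ .u ∧ EP R H r b x f p.1 p.2 k.1 := by
    rintro ⟨k, a, hau, a', haa, hau', he⟩
    exact ⟨(a, a'), haa, hau, hau', he⟩
  choose g hg using h1
  have hginj : Function.Injective g := by
    intro k l h
    have h1 := hg k
    have h2 := hg l
    rw [← h] at h2
    exact Subtype.ext (C.uniq h1.1.ne h1.2.2.2 h2.2.2.2 h1.2.1 h1.2.2.1)
  have hfin : {k : J × J | (Sk R H r b x f k).Nonempty}.Finite := Finite.of_injective g hginj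
  have hcard : hfin.toFinset.card ≤ Nat.card (W × W) := by
    have h2 := Nat.card_le_card_of_injective g hginj
    have h3 : hfin.toFinset.card = Nat.card {k : J × J // (Sk R H r b x f k).Nonempty} := by
      rw [← Set.ncard_eq_toFinset_card _ hfin]
      rfl
    omega
  obtain ⟨Q, h1, h2, h3⟩ := C.bridge hfin.toFinset hcard
    (fun k hk => by
      obtain ⟨a, -, a', -, -, he⟩ := hfin.mem_toFinset.1 hk
      exact he.1) k (hfin.mem_toFinset.2 hk)
  rcases hm with ⟨rfl, rfl⟩ | ⟨rfl, rfl⟩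
  · exact ⟨Q, h1, h2, fun l hl => h3 l (hfin.mem_toFinset.2 hl)⟩
  · refine ⟨Qᶜ, h2, fun h => h h1, fun l hl hlk => ?_⟩
    have := h3 l (hfin.mem_toFinset.2 hl) hlk
    simp only [Set.mem_compl_iff]
    rw [this]

/-- A crossing together with the apex separates the graph. -/
theorem PCopy.sep [Finite W] {c : W} (hc : Cross R H r b x f c) :
    ∃ F, IsFrag2 H F ∧ (∀ z ∈ bd H F, f z = .u ∨ z = c) ∧ c ∈ bd H F := by
  classical
  obtain ⟨m, hm⟩ := hc.eq_w
  obtain ⟨k, l, hkl, ⟨hcu, a, hca, hau, hek⟩, ⟨-, a', hca', hau', hel⟩⟩ := hc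
  have hkne : (Sk R H r b x f k).Nonempty := ⟨c, hcu, a, hca, hau, hek⟩
  have hlne : (Sk R H r b x f l).Nonempty := ⟨c, hcu, a', hca', hau', hel⟩
  -- the end of `k` at `c`
  obtain ⟨m', hm'⟩ : ∃ m', (m = k.1 ∧ m' = k.2) ∨ (m = k.2 ∧ m' = k.1) := by
    obtain ⟨-, s, t, -, h1, -⟩ := hek
    rw [hm] at h1
    rcases gpsi_eq_w h1.symm with ⟨-, h⟩ | ⟨-, h⟩
    · exact ⟨k.2, Or.inl ⟨h, rfl⟩⟩
    · exact ⟨k.1, Or.inr ⟨h, rfl⟩⟩
  obtain ⟨Q, hQm, hQm', hQ⟩ := C.side hkne hm'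
  let sd : W → Prop := fun a => (∃ i, f a = .w i ∧ i ∈ Q) ∨
    (∃ i j t, f a = .p i j t ∧ (i, j) ≠ k ∧ i ∈ Q)
  -- other pieces respect the sides
  have hpos : ∀ l, (Sk R H r b x f l).Nonempty → l ≠ k → ∀ a s, f a = gpsi r b x l.1 l.2 s →
      f a ≠ .u → (sd a ↔ l.1 ∈ Q) := by
    intro l hl hlk a s h hu
    rcases h' : gpsi r b x l.1 l.2 s with _ | m₁ | ⟨i, j, t⟩
    · exact absurd (h.trans h') hu
    · have h1 : f a = .w m₁ := h.trans h'
      have h2 : m₁ ∈ Q ↔ l.1 ∈ Q := by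
        rcases gpsi_eq_w h' with ⟨-, h2⟩ | ⟨-, h2⟩
        · rw [h2]
        · rw [h2]; exact (hQ l hl hlk).symm
      rw [← h2]
      constructor
      · rintro (⟨i, h3, h4⟩ | ⟨i, j, t, h3, -⟩)
        · rw [h1] at h3; injection h3 with h3; exact h3 ▸ h4
        · rw [h1] at h3; injection h3
      · exact fun h => Or.inl ⟨m₁, h1, h⟩
    · have h1 : f a = .p i j t := h.trans h'
      obtain ⟨h2, h3, h4, -⟩ := gpsi_eq_p h'
      rw [h2]
      constructor
      · rintro (⟨i, h3, h4⟩ | ⟨i, j, t, h3, -, h4⟩)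
        · rw [h1] at h3; injection h3
        · rw [h1] at h3; injection h3 with h3; exact h3 ▸ h4
      · refine fun h => Or.inr ⟨i, j, t, h1, fun h5 => hlk ?_, h⟩
        rw [← h5, ← h2, ← h3]
  -- vertices of the piece `k` on the side
  have hposk : ∀ a s, f a = gpsi r b x k.1 k.2 s → sd a → a = c := by
    intro a s h hs
    rcases hs with ⟨i, h1, h2⟩ | ⟨i, j, t, h1, h2, -⟩
    · rw [h1] at h
      rcases gpsi_eq_w h.symm with ⟨-, h3⟩ | ⟨-, h3⟩ <;> rcases hm' with ⟨g1, g2⟩ | ⟨g1, g2⟩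
      · exact C.inj (by rw [h1, hm, h3, g1])
      · rw [h3, ← g2] at h2; exact absurd h2 hQm'
      · rw [h3, ← g2] at h2; exact absurd h2 hQm'
      · exact C.inj (by rw [h1, hm, h3, g1])
    · rw [h1] at h
      obtain ⟨h3, h4, -⟩ := gpsi_eq_p h.symm
      exact absurd (by rw [← h3, ← h4]) h2
  have hsc : sd c := Or.inl ⟨m, hm, hQm⟩
  let F : Set W := {z | f z ≠ .u ∧ ¬ sd z}
  have haF : a ∈ F := by
    refine ⟨hau, fun h => ?_⟩
    obtain ⟨-, s, t, -, -, h1⟩ := hek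
    exact hca.ne (hposk a t h1 h).symm
  have hbdF : ∀ z ∈ bd H F, f z = .u ∨ z = c := by
    rintro z ⟨hz, y, ⟨hyu, hys⟩, hyz⟩
    by_cases hzu : f z = .u
    · exact Or.inl hzu
    right
    have hzs : sd z := by
      by_contra h
      exact hz ⟨hzu, h⟩
    obtain ⟨l', hl'⟩ := C.ep hyz
    have hl'ne : (Sk R H r b x f l').Nonempty := ⟨y, hyu, z, hyz, hzu, hl'⟩
    obtain ⟨hR', s, t, -, h1, h2⟩ := hl'
    by_cases hlk : l' = k
    · subst hlk
      exact hposk z t h2 hzs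
    · exact absurd ((hpos l' hl'ne hlk y s h1 hyu).2
        ((hpos l' hl'ne hlk z t h2 hzu).1 hzs)) hys
  have ha's : sd a' := by
    obtain ⟨-, s, t, -, h1, h2⟩ := hel
    exact (hpos l hlne hkl.symm a' t h2 hau').2 ((hpos l hlne hkl.symm c s h1 hcu).1 hsc)
  refine ⟨F, ⟨⟨a, haF⟩, ?_, a', fun h => h.2 ha's, ?_⟩, hbdF, fun h => h.2 hsc, a, haF, hca.symm⟩
  · by_cases hu : ∃ v, f v = .u
    · obtain ⟨v, hv⟩ := hu
      have hsub : bd H F ⊆ {v, c} := by
        intro z hz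
        rcases hbdF z hz with h | h
        · exact Or.inl (C.inj (h.trans hv.symm))
        · exact Or.inr h
      refine (Set.ncard_le_ncard hsub (Set.toFinite _)).trans ?_
      refine (Set.ncard_insert_le v {c}).trans ?_
      rw [Set.ncard_singleton]
    · have hsub : bd H F ⊆ {c} := by
        intro z hz
        rcases hbdF z hz with h | h
        · exact absurd ⟨z, h⟩ hu
        · exact h
      refine (Set.ncard_le_ncard hsub (Set.toFinite _)).trans ?_
      rw [Set.ncard_singleton]; norm_num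
  · intro h
    rcases hbdF a' h with h | h
    · exact hau' h
    · exact hca'.ne h.symm

/-- If no vertex of the piece `k` is a crossing, then all vertices are in the piece. -/
theorem PCopy.all_in {k : J × J} (hk : (Sk R H r b x f k).Nonempty)
    (hnc : ∀ c ∈ Sk R H r b x f k, ¬ Cross R H r b x f c) (a : W) (ha : f a ≠ .u) :
    a ∈ Sk R H r b x f k := by
  by_contra hcon
  obtain ⟨q, hqk, hqa, hq⟩ : ∃ q, (∃ z ∈ Sk R H r b x f k, z ≠ q) ∧ a ≠ q ∧ ∀ z, f z = .u → z = q := by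
    by_cases hu : ∃ v, f v = .u
    · obtain ⟨v, hv⟩ := hu
      obtain ⟨z, hz⟩ := hk
      exact ⟨v, ⟨z, hz, fun h => hz.1 (h ▸ hv)⟩, fun h => ha (h ▸ hv),
        fun z hz => C.inj (hz.trans hv.symm)⟩
    · obtain ⟨z, hz⟩ := hk
      obtain ⟨w, hw, hwz, hwa⟩ := C.hdeg z z a
      exact ⟨w, ⟨z, hz, fun h => hwz h.symm⟩, fun h => hwa h.symm, fun z hz => absurd ⟨z, hz⟩ hu⟩
  obtain ⟨p, hp, p', hp', hpq, hpq', hpp⟩ := C.h2 (Sk R H r b x f k) q hqk ⟨a, hcon, hqa⟩
  have hpu' : f p' ≠ .u := fun h => hpq' (hq p' h)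
  obtain ⟨l, hl⟩ := C.ep hpp
  by_cases hlk : l = k
  · subst hlk
    exact hp' ⟨hpu', p, hpp.symm, hp.1, hl.symm⟩
  · exact hnc p hp ⟨k, l, fun h => hlk h.symm, hp, hp.1, p', hpp, hpu', hl⟩

/-- The apex is used. -/
theorem PCopy.exists_u [Finite W] (a₀ : W) : ∃ v, f v = .u := by
  by_contra hno
  push Not at hno
  have hnc : ∀ c, ¬ Cross R H r b x f c := by
    intro c hc
    obtain ⟨F, hF, hbd, -⟩ := C.sep hc
    obtain ⟨p, q, hpq, hpqF⟩ := C.two F hF
    have hp : p = c := by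
      rcases hbd p (by rw [hpqF]; exact Or.inl rfl) with h | h
      · exact absurd h (hno p)
      · exact h
    have hq : q = c := by
      rcases hbd q (by rw [hpqF]; exact Or.inr rfl) with h | h
      · exact absurd h (hno q)
      · exact h
    exact hpq (hp.trans hq.symm)
  obtain ⟨a, ha, -, -⟩ := C.hdeg a₀ a₀ a₀
  obtain ⟨k, hk⟩ := C.ep ha
  have hall := C.all_in (k := k) ⟨a₀, hno a₀, a, ha, hno a, hk⟩ (fun c _ => hnc c)
  have h1 : ∀ a, ∃ t, f a = gpsi r b x k.1 k.2 t := by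
    intro a
    obtain ⟨-, a', -, -, -, s, t, -, h, -⟩ := hall a (hno a)
    exact ⟨s, h⟩
  choose σ hσ using h1
  have hinj : Function.Injective σ := fun a b h => C.inj (by rw [hσ, hσ, h])
  obtain ⟨a, ha⟩ := Finite.surjective_of_injective hinj r
  exact hno a (by rw [hσ, ha, gpsi_r])

/-- The cut at a crossing. -/
theorem PCopy.cut [Finite W] {v c : W} (hv : f v = .u) (hc : Cross R H r b x f c) :
    ∃ F, IsFrag2 H F ∧ bd H F = {v, c} := by
  obtain ⟨F, hF, hbd, hcF⟩ := C.sep hc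
  obtain ⟨p, q, hpq, hpqF⟩ := C.two F hF
  refine ⟨F, hF, ?_⟩
  have hvc : v ≠ c := by
    rintro rfl
    obtain ⟨m, hm⟩ := hc.eq_w
    rw [hv] at hm
    injection hm
  have h1 : ∀ z ∈ bd H F, z = v ∨ z = c := by
    intro z hz
    rcases hbd z hz with h | h
    · exact Or.inl (C.inj (h.trans hv.symm))
    · exact Or.inr h
  apply Set.Subset.antisymm
  · exact fun z hz => h1 z hz
  · rintro z (rfl | rfl)
    · -- one of `p`, `q` is the apex
      rcases h1 p (by rw [hpqF]; exact Or.inl rfl) with h | h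
      · rw [← h, hpqF]; exact Or.inl rfl
      · rcases h1 q (by rw [hpqF]; exact Or.inr rfl) with h' | h'
        · rw [← h', hpqF]; exact Or.inr rfl
        · exact absurd (h.trans h'.symm) hpq
    · exact hcF

end

end Pool.Agent.StrongMax
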