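import Pool.Agent.Lib.StrongMax.LemC1

/-!
# Copies in the apex host at a vertex of an atom (helper9)
-/

namespace Pool.Agent.StrongMax

/-- The facts on atoms which are used. -/
structure AtomAPI {W : Type} (H : SimpleGraph W) : Prop where
  conn : ∀ D, IsAtom2 H D → ConnIn H D
  two : ∀ D, IsFrag2 H D → ∃ x y, x ≠ y ∧ bd H D = {x, y}
  not_bd : ∀ D F, IsAtom2 H D → IsFrag2 H F → ∀ v ∈ bd H F, v ∉ D
  two_nbr : ∀ D v, IsAtom2 H D → v ∈ bd H D → ∃ a ∈ D, ∃ b ∈ D, a ≠ b ∧ H.Adj v a ∧ H.Adj v b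

section

variable {J W : Type} {R : J → J → Prop} {H : SimpleGraph W} {r b x : W} {f : W → GV J W}

/-- A proper subset of an atom with at most two boundary vertices is empty. -/
theorem small_bd [Finite W] {D X : Set W} (hD : IsAtom2 H D) (hX : X ⊆ D) (hXD : X ≠ D)
    (hbd : (bd H X).ncard ≤ 2) : X = ∅ := by
  by_contra hne
  have hne' : X.Nonempty := Set.nonempty_iff_ne_empty.2 hne
  obtain ⟨z, hz, hz'⟩ := hD.frag.out
  have hF : IsFrag2 H X := by
    refine ⟨hne', hbd, z, fun h => hz (hX h), ?_⟩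
    rintro ⟨-, a, ha, haz⟩
    exact hz' ⟨hz, a, hX ha, haz⟩
  have h1 := hD.min X hF
  have h2 : X.ncard < D.ncard := Set.ncard_lt_ncard ⟨hX, fun h => hXD (Set.Subset.antisymm hX h)⟩
    (Set.toFinite _)
  omega

/-- A connected set which is disjoint from the boundary of `P` and meets `P` is contained in `P`. -/
theorem sub_of_conn {D P : Set W} (hD : ConnIn H D) (hP : ∀ z ∈ bd H P, z ∉ D) {a : W}
    (ha : a ∈ D) (haP : a ∈ P) : D ⊆ P := by
  intro z hz
  by_contra hzP
  obtain ⟨p, hp⟩ := hD a ha z hz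
  obtain ⟨x', a', q, r, h1, h2, h3, h4, h5, h6⟩ := walk_exit p haP hzP
  exact hP a' ⟨h5, x', h1 x' q.end_mem_support, h4⟩ (hp a' (h3 a' r.start_mem_support))

/-- A copy which is not contained in a piece. -/
structure LCtx (R : J → J → Prop) (H : SimpleGraph W) (I₀ : Set W) (r b x y : W)
    (f : W → GV J W) (v : W) : Prop extends PCopy R H r b x f where
  api : AtomAPI H
  hI : IsAtom2 H I₀
  hbd : bd H I₀ = {x, y}
  hxy : x ≠ y
  hrI : r ∈ I₀
  hbI : b ∈ I₀
  hv : f v = .u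
  hone : ∀ a b a' b', H.Adj a b → H.Adj a' b' → a ∉ atomSet H → b ∉ atomSet H →
    a' ∉ atomSet H → b' ∉ atomSet H → s(a, b) = s(a', b')
  cross : ∃ c, Cross R H r b x f c

variable {I₀ : Set W} {y v : W} (C : LCtx R H I₀ r b x y f v)

include C

theorem LCtx.ne_u {a : W} (h : a ≠ v) : f a ≠ .u := fun h' => h (C.inj (h'.trans C.hv.symm))

theorem LCtx.cross_notMem [Finite W] {c : W} (hc : Cross R H r b x f c) {D : Set W}
    (hD : IsAtom2 H D) : c ∉ D ∧ v ∉ D := by
  obtain ⟨F, hF, hbd⟩ := C.toPCopy.cut C.hv hc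
  exact ⟨C.api.not_bd D F hD hF c (by rw [hbd]; exact Or.inr rfl),
    C.api.not_bd D F hD hF v (by rw [hbd]; exact Or.inl rfl)⟩

theorem LCtx.v_notMem [Finite W] {D : Set W} (hD : IsAtom2 H D) : v ∉ D := by
  obtain ⟨c, hc⟩ := C.cross
  exact (C.cross_notMem hc hD).2

/-- An atom is mapped into one piece. -/
theorem LCtx.piece [Finite W] {D : Set W} (hD : IsAtom2 H D) :
    ∃ k, R k.1 k.2 ∧ ∀ a ∈ D, ∀ a', H.Adj a a' → a' ≠ v → EP R H r b x f a a' k := by
  obtain ⟨a₀, ha₀⟩ := hD.frag.ne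
  obtain ⟨a₁, h01, h1v, -⟩ := C.hdeg a₀ v v
  obtain ⟨k, hk⟩ := C.toPCopy.ep h01
  have hvD := C.v_notMem hD
  have hu : ∀ a ∈ D, f a ≠ .u := fun a ha => C.ne_u (fun h => hvD (h ▸ ha))
  have key : ∀ a ∈ D, a ∈ Sk R H r b x f k → ∀ a', H.Adj a a' → a' ≠ v →
      EP R H r b x f a a' k := by
    intro a ha hak a' haa' ha'v
    obtain ⟨l, hl⟩ := C.toPCopy.ep haa'
    by_cases hlk : l = k
    · exact hlk ▸ hl
    · exfalso
      refine (C.cross_notMem ⟨k, l, fun h => hlk h.symm, hak, ?_⟩ hD).1 ha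
      exact ⟨hu a ha, a', haa', C.ne_u ha'v, hl⟩
  have hsub : ∀ a ∈ D, a ∈ Sk R H r b x f k := by
    intro a ha
    by_contra hcon
    obtain ⟨p, hp⟩ := C.api.conn D hD a₀ ha₀ a ha
    obtain ⟨x', a', q, r', h1, h2, h3, h4, h5, h6⟩ := walk_exit (A := Sk R H r b x f k) p
      ⟨hu a₀ ha₀, a₁, h01, C.ne_u h1v, hk⟩ hcon
    have hx'D : x' ∈ D := hp x' (h2 x' q.end_mem_support)
    have ha'D : a' ∈ D := hp a' (h3 a' r'.start_mem_support)
    have he := key x' hx'D (h1 x' q.end_mem_support) a' h4 (fun h => hvD (h ▸ ha'D))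
    exact h5 ⟨hu a' ha'D, x', h4.symm, hu x' hx'D, he.symm⟩
  exact ⟨k, hk.1, fun a ha => key a ha (hsub a ha)⟩

end

section

variable {J W : Type} {R : J → J → Prop} {H : SimpleGraph W} {r b x : W} {f : W → GV J W}
  {I₀ : Set W} {y v : W}

/-- The role in the piece `k`. -/
noncomputable def role (r b x : W) (f : W → GV J W) (k : J × J) (a : W) : W :=
  open Classical in if h : ∃ t, f a = gpsi r b x k.1 k.2 t then h.choose else a

theorem role_spec {k : J × J} {a : W} (h : ∃ t, f a = gpsi r b x k.1 k.2 t) :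
    f a = gpsi r b x k.1 k.2 (role r b x f k a) := by
  unfold role
  rw [dif_pos h]
  exact h.choose_spec

theorem EP.left {a a' : W} {k : J × J} (h : EP R H r b x f a a' k) :
    f a = gpsi r b x k.1 k.2 (role r b x f k a) := by
  obtain ⟨-, s, t, -, h1, -⟩ := h
  exact role_spec ⟨s, h1⟩

/-- An atom attached to the apex. -/
structure LAt (C : LCtx R H I₀ r b x y f v) (I₁ : Set W) (k : J × J) (t : W) : Prop where
  hI₁ : IsAtom2 H I₁
  hR : R k.1 k.2
  hk : ∀ a ∈ I₁, ∀ a', H.Adj a a' → a' ≠ v → EP R H r b x f a a' k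
  hbd₁ : bd H I₁ = {v, t}
  hvt : v ≠ t

variable {C : LCtx R H I₀ r b x y f v} {I₁ : Set W} {k : J × J} {t : W}

theorem LAt.inZ [Finite W] (A : LAt C I₁ k t) {a : W} (ha : a ∈ I₁) : f a = gpsi r b x k.1 k.2 (role r b x f k a) := by
  obtain ⟨a', h1, h2, -⟩ := C.hdeg a v v
  exact (A.hk a ha a' h1 h2).left

theorem LAt.tZ [Finite W] (A : LAt C I₁ k t) : f t = gpsi r b x k.1 k.2 (role r b x f k t) := by
  obtain ⟨-, a, ha, hat⟩ : t ∈ bd H I₁ := by rw [A.hbd₁]; exact Or.inr rfl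
  exact (A.hk a ha t hat A.hvt.symm).symm.left

theorem LCtx.vZ (C : LCtx R H I₀ r b x y f v) (k : J × J) : f v = gpsi r b x k.1 k.2 (role r b x f k v) :=
  role_spec ⟨r, by rw [C.hv, gpsi_r]⟩

theorem LCtx.gv (C : LCtx R H I₀ r b x y f v) (k : J × J) : role r b x f k v = r := by
  have h := C.vZ k
  rw [C.hv] at h
  exact gpsi_eq_u h.symm

theorem LAt.g_adj (A : LAt C I₁ k t) {a a' : W} (ha : f a = gpsi r b x k.1 k.2 (role r b x f k a))
    (ha' : f a' = gpsi r b x k.1 k.2 (role r b x f k a')) (h : H.Adj a a') : H.Adj (role r b x f k a) (role r b x f k a') := by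
  have h1 := C.adj a a' h
  rw [ha, ha'] at h1
  exact (gpsi_adj_iff C.hR C.hrb C.hrx A.hR).1 h1

theorem LAt.g_inj (_A : LAt C I₁ k t) {a a' : W} (ha : f a = gpsi r b x k.1 k.2 (role r b x f k a))
    (ha' : f a' = gpsi r b x k.1 k.2 (role r b x f k a')) (h : role r b x f k a = role r b x f k a') : a = a' :=
  C.inj (by rw [ha, ha', h])

theorem LCtx.nbr (C : LCtx R H I₀ r b x y f v) {z z' : W} (hz : z ∈ I₀) (h : H.Adj z z') :
    z' ∈ I₀ ∨ z' = x ∨ z' = y := by
  by_cases hz' : z' ∈ I₀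
  · exact Or.inl hz'
  · have : z' ∈ bd H I₀ := ⟨hz', z, hz, h⟩
    rw [C.hbd] at this
    exact Or.inr this

/-- The extended atom. -/
def Jp (I₀ : Set W) (x y : W) : Set W := {z | z ∈ I₀ ∨ z = x ∨ z = y}

theorem LCtx.nbr_out (C : LCtx R H I₀ r b x y f v) {z z' : W} (hz : z ∈ Jp I₀ x y)
    (hz' : z' ∉ Jp I₀ x y) (h : H.Adj z z') : z = x ∨ z = y := by
  rcases hz with hz | hz
  · exact absurd (C.nbr hz h) hz'
  · exact hz

theorem LCtx.xI (C : LCtx R H I₀ r b x y f v) : x ∉ I₀ := by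
  have : x ∈ bd H I₀ := by rw [C.hbd]; exact Or.inl rfl
  exact this.1

theorem LCtx.yI (C : LCtx R H I₀ r b x y f v) : y ∉ I₀ := by
  have : y ∈ bd H I₀ := by rw [C.hbd]; exact Or.inr rfl
  exact this.1

theorem LCtx.ncard_Jp [Finite W] (C : LCtx R H I₀ r b x y f v) :
    (Jp I₀ x y).ncard = I₀.ncard + 2 := by
  have h1 : Jp I₀ x y = insert x (insert y I₀) := by
    ext z; simp only [Jp, Set.mem_ofPred_eq, Set.mem_insert_iff]; tauto
  rw [h1, Set.ncard_insert_of_notMem _ (Set.toFinite _), Set.ncard_insert_of_notMem C.yI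
    (Set.toFinite _)]
  rintro (h | h)
  · exact C.hxy h
  · exact C.xI h

/-- The vertices of the atom mapped outside. -/
def Iout (r b x : W) (f : W → GV J W) (k : J × J) (I₀ I₁ : Set W) (y : W) : Set W :=
  {a | a ∈ I₁ ∧ role r b x f k a ∉ Jp I₀ x y}

theorem LAt.bd_out [Finite W] (A : LAt C I₁ k t) {z : W} (hz : z ∈ bd H (Iout r b x f k I₀ I₁ y)) :
    z = t ∨ (z ∈ I₁ ∧ (role r b x f k z = x ∨ role r b x f k z = y)) := by
  obtain ⟨hz1, a, ⟨ha, haJ⟩, haz⟩ := hz
  have hZa := A.inZ ha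
  by_cases hzv : z = v
  · exfalso
    have h1 := A.g_adj hZa (C.vZ k) (hzv ▸ haz)
    rw [C.gv k] at h1
    exact haJ (C.nbr C.hrI h1.symm)
  by_cases hzI : z ∈ I₁
  · right
    refine ⟨hzI, ?_⟩
    have hzJ : role r b x f k z ∈ Jp I₀ x y := by
      by_contra h
      exact hz1 ⟨hzI, h⟩
    exact C.nbr_out hzJ haJ (A.g_adj hZa (A.inZ hzI) haz).symm
  · left
    have : z ∈ bd H I₁ := ⟨hzI, a, ha, haz⟩
    rw [A.hbd₁] at this
    rcases this with h | h
    · exact absurd h hzv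
    · exact h

theorem LAt.out_ne [Finite W] (A : LAt C I₁ k t) : Iout r b x f k I₀ I₁ y ≠ I₁ := by
  intro h
  obtain ⟨-, a, ha, hav⟩ : v ∈ bd H I₁ := by rw [A.hbd₁]; exact Or.inl rfl
  have h1 := A.g_adj (A.inZ ha) (C.vZ k) hav
  rw [C.gv k] at h1
  have h2 : a ∈ Iout r b x f k I₀ I₁ y := by rw [h]; exact ha
  exact h2.2 (C.nbr C.hrI h1.symm)

theorem LAt.sub_J [Finite W] (A : LAt C I₁ k t) (h : (bd H (Iout r b x f k I₀ I₁ y)).ncard ≤ 2)
    {a : W} (ha : a ∈ I₁) : role r b x f k a ∈ Jp I₀ x y := by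
  by_contra hcon
  have h1 := small_bd A.hI₁ (fun z hz => hz.1) A.out_ne h
  have h2 : a ∈ Iout r b x f k I₀ I₁ y := ⟨ha, hcon⟩
  rw [h1] at h2
  exact h2

theorem LAt.ncard_eq [Finite W] (A : LAt C I₁ k t) : I₁.ncard = I₀.ncard :=
  le_antisymm (A.hI₁.min _ C.hI.frag) (C.hI.min _ A.hI₁.frag)

/-- Size argument. -/
theorem LAt.size [Finite W] (A : LAt C I₁ k t) {κ : W} (hκ : κ ∈ Jp I₀ x y) (hκr : κ ≠ r)
    (hJ : ∀ a ∈ I₁, role r b x f k a ∈ Jp I₀ x y) (hne : ∀ a ∈ I₁, role r b x f k a ≠ κ) :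
    (fun a => role r b x f k a) '' I₁ = Jp I₀ x y \ {r, κ} := by
  have hvI : v ∉ I₁ := C.v_notMem A.hI₁
  have hinj : Set.InjOn (fun a => role r b x f k a) I₁ := fun a ha a' ha' h => A.g_inj (A.inZ ha) (A.inZ ha') h
  have hr : r ∈ Jp I₀ x y := Or.inl C.hrI
  have h1 : (Jp I₀ x y \ {r, κ}).ncard = I₀.ncard := by
    have h2 : ({r, κ} : Set W) ⊆ Jp I₀ x y := by
      rintro z (rfl | rfl)
      · exact hr
      · exact hκ
    have h3 := Set.ncard_sdiff h2 (Set.toFinite _)
    rw [h3, C.ncard_Jp, Set.ncard_pair hκr.symm]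
    omega
  apply Set.eq_of_subset_of_ncard_le
  · rintro _ ⟨a, ha, rfl⟩
    refine ⟨hJ a ha, ?_⟩
    rintro (h | h)
    · have h' : role r b x f k a = role r b x f k v := by rw [C.gv k]; exact h
      exact hvI (A.g_inj (A.inZ ha) (C.vZ k) h' ▸ ha)
    · exact hne a ha h
  · rw [h1, hinj.ncard_image, A.ncard_eq]
  · exact Set.toFinite _

/-- A crossing vertex of the piece. -/
theorem LAt.cross_role [Finite W] (_A : LAt C I₁ k t) {c : W} (hc : c ∈ Sk R H r b x f k)
    (hcr : Cross R H r b x f c) : f c = gpsi r b x k.1 k.2 (role r b x f k c) ∧ (role r b x f k c = b ∨ role r b x f k c = x) := by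
  obtain ⟨hcu, a, hca, hau, he⟩ := hc
  have h1 := he.left
  refine ⟨h1, ?_⟩
  obtain ⟨m, hm⟩ := hcr.eq_w
  rw [hm] at h1
  rcases gpsi_eq_w h1.symm with ⟨h2, -⟩ | ⟨h2, -⟩
  · exact Or.inl h2
  · exact Or.inr h2

theorem LAt.exists_cross [Finite W] (A : LAt C I₁ k t) :
    ∃ c ∈ Sk R H r b x f k, Cross R H r b x f c := by
  by_contra hcon
  push Not at hcon
  obtain ⟨c, hc⟩ := C.cross
  obtain ⟨a, ha⟩ := A.hI₁.frag.ne
  have hvI : v ∉ I₁ := C.v_notMem A.hI₁
  obtain ⟨a', h1, h2, -⟩ := C.hdeg a v v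
  have hcu : f c ≠ .u := by
    obtain ⟨m, hm⟩ := hc.eq_w
    rw [hm]
    intro h
    injection h
  exact hcon c (C.toPCopy.all_in ⟨a, C.ne_u (fun h => hvI (h ▸ ha)), a', h1, C.ne_u h2,
    A.hk a ha a' h1 h2⟩ hcon c hcu) hc

/-- The conclusion of the analysis. -/
def LRes (I₀ I₁ : Set W) (r b x y : W) (f : W → GV J W) (k : J × J) (t : W) : Prop :=
  ∃ κ, (κ = b ∨ κ = x) ∧ role r b x f k t = κ ∧
    (fun a => role r b x f k a) '' I₁ = Jp I₀ x y \ {r, κ}

/-- The case of a crossing at the vertex in the role of `x`. -/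
theorem LAt.caseA [Finite W] (A : LAt C I₁ k t) {c : W} (hc : c ∈ Sk R H r b x f k)
    (hcr : Cross R H r b x f c) (hgc : role r b x f k c = x) : LRes I₀ I₁ r b x y f k t := by
  obtain ⟨hZc, -⟩ := A.cross_role hc hcr
  have hcI : c ∉ I₁ := (C.cross_notMem hcr A.hI₁).1
  have hne : ∀ a ∈ I₁, role r b x f k a ≠ x := by
    intro a ha h
    exact hcI (A.g_inj (A.inZ ha) hZc (h.trans hgc.symm) ▸ ha)
  have hbd : (bd H (Iout r b x f k I₀ I₁ y)).ncard ≤ 2 := by
    by_cases hy : ∃ a ∈ I₁, role r b x f k a = y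
    · obtain ⟨a, ha, hay⟩ := hy
      have hsub : bd H (Iout r b x f k I₀ I₁ y) ⊆ {t, a} := by
        intro z hz
        rcases A.bd_out hz with h | ⟨h1, h2 | h2⟩
        · exact Or.inl h
        · exact absurd h2 (hne z h1)
        · exact Or.inr (A.g_inj (A.inZ h1) (A.inZ ha) (h2.trans hay.symm))
      refine (Set.ncard_le_ncard hsub (Set.toFinite _)).trans ?_
      refine (Set.ncard_insert_le t {a}).trans ?_
      rw [Set.ncard_singleton]
    · have hsub : bd H (Iout r b x f k I₀ I₁ y) ⊆ {t} := by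
        intro z hz
        rcases A.bd_out hz with h | ⟨h1, h2 | h2⟩
        · exact h
        · exact absurd h2 (hne z h1)
        · exact absurd ⟨z, h1, h2⟩ hy
      refine (Set.ncard_le_ncard hsub (Set.toFinite _)).trans ?_
      rw [Set.ncard_singleton]; norm_num
  have hJ := fun a ha => A.sub_J hbd (a := a) ha
  have himg := A.size (κ := x) (Or.inr (Or.inl rfl)) C.hrx.ne.symm hJ hne
  refine ⟨x, Or.inr rfl, ?_, himg⟩
  -- the role of `t`
  have htI : t ∉ I₁ := by
    have : t ∈ bd H I₁ := by rw [A.hbd₁]; exact Or.inr rfl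
    exact this.1
  obtain ⟨a1, ha1, a2, ha2, h12, hta1, hta2⟩ := C.api.two_nbr I₁ t A.hI₁
    (by rw [A.hbd₁]; exact Or.inr rfl)
  have hgtJ : role r b x f k t ∈ Jp I₀ x y := by
    by_contra hcon
    have h1 := C.nbr_out (hJ a1 ha1) hcon (A.g_adj A.tZ (A.inZ ha1) hta1).symm
    have h2 := C.nbr_out (hJ a2 ha2) hcon (A.g_adj A.tZ (A.inZ ha2) hta2).symm
    rcases h1 with h1 | h1
    · exact hne a1 ha1 h1
    · rcases h2 with h2 | h2
      · exact hne a2 ha2 h2
      · exact h12 (A.g_inj (A.inZ ha1) (A.inZ ha2) (h1.trans h2.symm))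
  by_contra hgt
  have h3 : role r b x f k t ∈ Jp I₀ x y \ {r, x} := by
    refine ⟨hgtJ, ?_⟩
    rintro (h | h)
    · have h' : role r b x f k t = role r b x f k v := by rw [C.gv k]; exact h
      exact A.hvt (A.g_inj A.tZ (C.vZ k) h').symm
    · exact hgt h
  rw [← himg] at h3
  obtain ⟨a, ha, h⟩ := h3
  exact htI (A.g_inj (A.inZ ha) A.tZ h ▸ ha)

/-- The case of a crossing at the vertex in the role of `b` only. -/
theorem LAt.caseB [Finite W] (A : LAt C I₁ k t) {c : W} (hc : c ∈ Sk R H r b x f k)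
    (hcr : Cross R H r b x f c) (hgc : role r b x f k c = b)
    (hno : ∀ c' ∈ Sk R H r b x f k, Cross R H r b x f c' → role r b x f k c' ≠ x) :
    LRes I₀ I₁ r b x y f k t := by
  obtain ⟨hZc, -⟩ := A.cross_role hc hcr
  have hcI : c ∉ I₁ := (C.cross_notMem hcr A.hI₁).1
  have hcv : c ≠ v := by
    rintro rfl
    exact hc.1 C.hv
  have hbx : b ≠ x := C.hbx
  have hne : ∀ a ∈ I₁, role r b x f k a ≠ b := by
    intro a ha h
    exact hcI (A.g_inj (A.inZ ha) hZc (h.trans hgc.symm) ▸ ha)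
  have huniq : ∀ c' ∈ Sk R H r b x f k, Cross R H r b x f c' → c' = c := by
    intro c' hc' hcr'
    obtain ⟨h1, h2⟩ := A.cross_role hc' hcr'
    rcases h2 with h2 | h2
    · exact A.g_inj h1 hZc (h2.trans hgc.symm)
    · exact absurd h2 (hno c' hc' hcr')
  have htI : t ∉ I₁ := by
    have : t ∈ bd H I₁ := by rw [A.hbd₁]; exact Or.inr rfl
    exact this.1
  have hvI : v ∉ I₁ := C.v_notMem A.hI₁
  -- the part of the piece beyond `c`
  let P : Set W := {a | a ≠ c ∧ a ∈ Sk R H r b x f k}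
  have hPv : v ∉ P := fun h => h.2.1 C.hv
  have hI₁P : I₁ ⊆ P := by
    intro a ha
    obtain ⟨a', h1, h2, -⟩ := C.hdeg a v v
    exact ⟨fun h => hcI (h ▸ ha), C.ne_u (fun h => hvI (h ▸ ha)), a', h1, C.ne_u h2,
      A.hk a ha a' h1 h2⟩
  have hPk : ∀ a ∈ P, ∀ a', H.Adj a a' → a' ≠ v → EP R H r b x f a a' k := by
    intro a ha a' haa' ha'v
    obtain ⟨l, hl⟩ := C.toPCopy.ep haa'
    by_cases hlk : l = k
    · exact hlk ▸ hl
    · exfalso
      refine ha.1 (huniq a ha.2 ⟨k, l, fun h => hlk h.symm, ha.2, ha.2.1, a', haa', C.ne_u ha'v, hl⟩)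
  have hPZ : ∀ a ∈ P, f a = gpsi r b x k.1 k.2 (role r b x f k a) := by
    intro a ha
    obtain ⟨-, -, a', -, -, he⟩ := ha
    exact he.left
  have hbdP' : ∀ z ∈ bd H P, z = v ∨ z = c := by
    rintro z ⟨hz, a, ha, haz⟩
    by_cases hzv : z = v
    · exact Or.inl hzv
    right
    by_contra hzc
    exact hz ⟨hzc, C.ne_u hzv, a, haz.symm, ha.2.1, (hPk a ha z haz hzv).symm⟩
  have hPF : IsFrag2 H P := by
    obtain ⟨a, ha⟩ := A.hI₁.frag.ne
    refine ⟨⟨a, hI₁P ha⟩, ?_, ?_⟩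
    · have hsub : bd H P ⊆ {v, c} := fun z hz => hbdP' z hz
      refine (Set.ncard_le_ncard hsub (Set.toFinite _)).trans ?_
      refine (Set.ncard_insert_le v {c}).trans ?_
      rw [Set.ncard_singleton]
    · -- an edge at `c` in another piece
      have hcr' := hcr
      obtain ⟨k1, l1, hkl, hk1, hl1⟩ := hcr'
      obtain ⟨l, hlk, hl⟩ : ∃ l, l ≠ k ∧ c ∈ Sk R H r b x f l := by
        by_cases h : k1 = k
        · exact ⟨l1, fun h' => hkl (h.trans h'.symm), hl1⟩
        · exact ⟨k1, h, hk1⟩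
      obtain ⟨-, a', hca', ha'u, he⟩ := hl
      have ha'v : a' ≠ v := fun h => ha'u (h ▸ C.hv)
      refine ⟨a', fun ha' => ?_, fun ha' => ?_⟩
      · have h1 := hPk a' ha' c hca'.symm hcv
        exact hlk (C.toPCopy.uniq hca'.ne he h1.symm hc.1 ha'u)
      · rcases hbdP' a' ha' with h | h
        · exact ha'v h
        · exact hca'.ne h.symm
  have hbdP : bd H P = {v, c} := by
    obtain ⟨p, q, hpq, hpqP⟩ := C.api.two P hPF
    have hp := hbdP' p (by rw [hpqP]; exact Or.inl rfl)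
    have hq := hbdP' q (by rw [hpqP]; exact Or.inr rfl)
    rw [hpqP]
    rcases hp with rfl | rfl <;> rcases hq with rfl | rfl
    · exact absurd rfl hpq
    · rfl
    · exact Set.pair_comm _ _
    · exact absurd rfl hpq
  -- atoms meeting `P` are contained in `P`
  have hsubP : ∀ D, IsAtom2 H D → ∀ a ∈ D, a ∈ P → D ⊆ P := fun D hD a ha haP =>
    sub_of_conn (C.api.conn D hD) (fun z hz => C.api.not_bd D P hD hPF z hz) ha haP
  have hvL : ∀ D, IsAtom2 H D → v ∉ D := fun D hD => C.v_notMem hD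
  have hcL : ∀ D, IsAtom2 H D → c ∉ D := fun D hD => (C.cross_notMem hcr hD).1
  have hcA : c ∉ atomSet H := by
    rintro ⟨D, hD, h⟩
    exact hcL D hD h
  -- both `x` and `y` are hit
  have hboth : (∃ a ∈ I₁, role r b x f k a = x) ∧ ∃ a ∈ I₁, role r b x f k a = y := by
    by_contra hcon
    have hbd : (bd H (Iout r b x f k I₀ I₁ y)).ncard ≤ 2 := by
      by_cases hx : ∃ a ∈ I₁, role r b x f k a = x
      · obtain ⟨a, ha, hax⟩ := hx
        have hsub : bd H (Iout r b x f k I₀ I₁ y) ⊆ {t, a} := by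
          intro z hz
          rcases A.bd_out hz with h | ⟨h1, h2 | h2⟩
          · exact Or.inl h
          · exact Or.inr (A.g_inj (A.inZ h1) (A.inZ ha) (h2.trans hax.symm))
          · exact absurd ⟨⟨a, ha, hax⟩, z, h1, h2⟩ hcon
        refine (Set.ncard_le_ncard hsub (Set.toFinite _)).trans ?_
        refine (Set.ncard_insert_le t {a}).trans ?_
        rw [Set.ncard_singleton]
      · by_cases hy : ∃ a ∈ I₁, role r b x f k a = y
        · obtain ⟨a, ha, hay⟩ := hy
          have hsub : bd H (Iout r b x f k I₀ I₁ y) ⊆ {t, a} := by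
            intro z hz
            rcases A.bd_out hz with h | ⟨h1, h2 | h2⟩
            · exact Or.inl h
            · exact absurd ⟨z, h1, h2⟩ hx
            · exact Or.inr (A.g_inj (A.inZ h1) (A.inZ ha) (h2.trans hay.symm))
          refine (Set.ncard_le_ncard hsub (Set.toFinite _)).trans ?_
          refine (Set.ncard_insert_le t {a}).trans ?_
          rw [Set.ncard_singleton]
        · have hsub : bd H (Iout r b x f k I₀ I₁ y) ⊆ {t} := by
            intro z hz
            rcases A.bd_out hz with h | ⟨h1, h2 | h2⟩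
            · exact h
            · exact absurd ⟨z, h1, h2⟩ hx
            · exact absurd ⟨z, h1, h2⟩ hy
          refine (Set.ncard_le_ncard hsub (Set.toFinite _)).trans ?_
          rw [Set.ncard_singleton]; norm_num
    have hJ := fun a ha => A.sub_J hbd (a := a) ha
    have himg := A.size (κ := b) (Or.inl C.hbI) C.hrb.ne.symm hJ hne
    apply hcon
    constructor
    · have h1 : x ∈ Jp I₀ x y \ {r, b} := by
        refine ⟨Or.inr (Or.inl rfl), ?_⟩
        rintro (h | h)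
        · exact C.hrx.ne h.symm
        · exact hbx h.symm
      rw [← himg] at h1
      exact h1
    · have h1 : y ∈ Jp I₀ x y \ {r, b} := by
        refine ⟨Or.inr (Or.inr rfl), ?_⟩
        rintro (h | h)
        · exact C.yI (h ▸ C.hrI)
        · exact C.yI (h ▸ C.hbI)
      rw [← himg] at h1
      exact h1
  obtain ⟨⟨xh, hxh, hgx⟩, ⟨yh, hyh, hgy⟩⟩ := hboth
  -- (*)
  have hstar : ∀ p, (p = c ∨ p ∈ P) → p ∉ I₁ → role r b x f k p ∈ I₀ → ∀ D, IsAtom2 H D → D ⊆ P →
      p ∈ bd H D → D = I₁ := by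
    intro p hp hpI hgp D hD hDP hpD
    by_contra hne'
    have hZp : f p = gpsi r b x k.1 k.2 (role r b x f k p) := by
      rcases hp with rfl | hp
      · exact hZc
      · exact hPZ p hp
    have hdisj : ∀ a ∈ D, a ∉ I₁ := by
      intro a ha ha'
      apply hne'
      apply Set.Subset.antisymm
      · exact sub_of_conn (C.api.conn D hD)
          (fun z hz => C.api.not_bd D I₁ hD A.hI₁.frag z hz) ha ha'
      · exact sub_of_conn (C.api.conn I₁ A.hI₁)
          (fun z hz => C.api.not_bd I₁ D A.hI₁ hD.frag z hz) ha' ha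
    have hgx' : ∀ a ∈ D, role r b x f k a ≠ x ∧ role r b x f k a ≠ y := by
      intro a ha
      constructor
      · intro h
        exact hdisj a ha (A.g_inj (hPZ a (hDP ha)) (A.inZ hxh) (h.trans hgx.symm) ▸ hxh)
      · intro h
        exact hdisj a ha (A.g_inj (hPZ a (hDP ha)) (A.inZ hyh) (h.trans hgy.symm) ▸ hyh)
    obtain ⟨hpD', a₀, ha₀, ha₀p⟩ := hpD
    have hstep : ∀ a ∈ D, ∀ z, f z = gpsi r b x k.1 k.2 (role r b x f k z) → role r b x f k z ∈ I₀ → H.Adj z a → role r b x f k a ∈ I₀ := by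
      intro a ha z hZz hz hza
      rcases C.nbr hz (A.g_adj hZz (hPZ a (hDP ha)) hza) with h | h | h
      · exact h
      · exact absurd h (hgx' a ha).1
      · exact absurd h (hgx' a ha).2
    have hall : ∀ a ∈ D, role r b x f k a ∈ I₀ := by
      intro a ha
      by_contra hcon
      obtain ⟨q, hq⟩ := C.api.conn D hD a₀ ha₀ a ha
      obtain ⟨x', a', q', r', h1, h2, h3, h4, h5, h6⟩ := walk_exit (A := {z | role r b x f k z ∈ I₀}) q
        (hstep a₀ ha₀ p hZp hgp ha₀p.symm) hcon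
      have hx'D : x' ∈ D := hq x' (h2 x' q'.end_mem_support)
      have ha'D : a' ∈ D := hq a' (h3 a' r'.start_mem_support)
      exact h5 (hstep a' ha'D x' (hPZ x' (hDP hx'D)) (h1 x' q'.end_mem_support) h4)
    have hinj : Set.InjOn (fun a => role r b x f k a) (insert p D) := by
      have hZ : ∀ a ∈ insert p D, f a = gpsi r b x k.1 k.2 (role r b x f k a) := by
        rintro a (rfl | ha)
        · exact hZp
        · exact hPZ a (hDP ha)
      intro a ha a' ha' h
      exact A.g_inj (hZ a ha) (hZ a' ha') h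
    have h1 : (insert p D).ncard ≤ I₀.ncard := by
      refine Set.ncard_le_ncard_of_injOn (fun a => role r b x f k a) ?_ hinj (Set.toFinite _)
      rintro a (rfl | ha)
      · exact hgp
      · exact hall a ha
    rw [Set.ncard_insert_of_notMem hpD' (Set.toFinite _)] at h1
    have h2 := C.hI.min D hD.frag
    omega
  -- `t` plays the role of `b`
  have htc : t = c := by
    have hcbd : c ∈ bd H P := by rw [hbdP]; exact Or.inr rfl
    obtain ⟨-, p', hp'P, hp'c⟩ := hcbd
    by_cases hp'L : p' ∈ atomSet H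
    · obtain ⟨D, hD, hp'D⟩ := hp'L
      have hDP := hsubP D hD p' hp'D hp'P
      have hcD : c ∈ bd H D := ⟨hcL D hD, p', hp'D, hp'c⟩
      have := hstar c (Or.inl rfl) hcI (by rw [hgc]; exact C.hbI) D hD hDP hcD
      subst this
      rw [A.hbd₁] at hcD
      rcases hcD with h | h
      · exact absurd h hcv
      · exact h.symm
    · exfalso
      have hp'I : p' ∉ I₁ := fun h => hp'L ⟨I₁, A.hI₁, h⟩
      have hgp' : role r b x f k p' ∈ I₀ := by
        have h1 := A.g_adj hZc (hPZ p' hp'P) hp'c.symm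
        rw [hgc] at h1
        rcases C.nbr C.hbI h1 with h | h | h
        · exact h
        · exact absurd (A.g_inj (hPZ p' hp'P) (A.inZ hxh) (h.trans hgx.symm) ▸ hxh) hp'I
        · exact absurd (A.g_inj (hPZ p' hp'P) (A.inZ hyh) (h.trans hgy.symm) ▸ hyh) hp'I
      obtain ⟨a, hpa, hac, -⟩ := C.hdeg p' c c
      have haL : a ∈ atomSet H := by
        by_contra haL
        have h1 := C.hone p' a c p' hpa hp'c.symm hp'L haL hcA hp'L
        rw [Sym2.eq_iff] at h1
        rcases h1 with ⟨h1, -⟩ | ⟨-, h1⟩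
        · exact hp'c.ne h1
        · exact hac h1
      obtain ⟨D, hD, haD⟩ := haL
      have haP : a ∈ P := by
        by_contra haP
        have h1 : a ∈ bd H P := ⟨haP, p', hp'P, hpa⟩
        exact C.api.not_bd D P hD hPF a h1 haD
      have hDP := hsubP D hD a haD haP
      have hp'bd : p' ∈ bd H D := ⟨fun h => hp'L ⟨D, hD, h⟩, a, haD, hpa.symm⟩
      have hDI := hstar p' (Or.inr hp'P) hp'I hgp' D hD hDP hp'bd
      subst hDI
      have hp't : p' = t := by
        rw [A.hbd₁] at hp'bd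
        rcases hp'bd with h | h
        · exact absurd (h ▸ hp'P) hPv
        · exact h
      have hgt : role r b x f k t ∈ I₀ := hp't ▸ hgp'
      have hbd : (bd H (Iout r b x f k I₀ D y)).ncard ≤ 2 := by
        have hsub : bd H (Iout r b x f k I₀ D y) ⊆ {xh, yh} := by
          intro z hz
          rcases A.bd_out hz with h | ⟨h1, h2 | h2⟩
          · exfalso
            obtain ⟨-, a', ⟨ha', haJ⟩, haz⟩ := hz
            rw [h] at haz
            exact haJ (C.nbr hgt (A.g_adj A.tZ (A.inZ ha') haz.symm))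
          · exact Or.inl (A.g_inj (A.inZ h1) (A.inZ hxh) (h2.trans hgx.symm))
          · exact Or.inr (A.g_inj (A.inZ h1) (A.inZ hyh) (h2.trans hgy.symm))
        refine (Set.ncard_le_ncard hsub (Set.toFinite _)).trans ?_
        refine (Set.ncard_insert_le xh {yh}).trans ?_
        rw [Set.ncard_singleton]
      have hJ := fun a ha => A.sub_J hbd (a := a) ha
      have himg := A.size (κ := b) (Or.inl C.hbI) C.hrb.ne.symm hJ hne
      have h3 : role r b x f k t ∈ Jp I₀ x y \ {r, b} := by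
        refine ⟨Or.inl hgt, ?_⟩
        rintro (h | h)
        · have h' : role r b x f k t = role r b x f k v := by rw [C.gv k]; exact h
          exact A.hvt (A.g_inj A.tZ (C.vZ k) h').symm
        · have h' : role r b x f k t = role r b x f k c := h.trans hgc.symm
          have h4 := A.g_inj A.tZ hZc h'
          exact hp'c.ne (hp't.trans h4)
      rw [← himg] at h3
      obtain ⟨a', ha', h⟩ := h3
      exact htI (A.g_inj (A.inZ ha') A.tZ h ▸ ha')
  have hgt : role r b x f k t = b := by rw [htc]; exact hgc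
  have hbd : (bd H (Iout r b x f k I₀ I₁ y)).ncard ≤ 2 := by
    have hsub : bd H (Iout r b x f k I₀ I₁ y) ⊆ {xh, yh} := by
      intro z hz
      rcases A.bd_out hz with h | ⟨h1, h2 | h2⟩
      · exfalso
        obtain ⟨-, a', ⟨ha', haJ⟩, haz⟩ := hz
        rw [h] at haz
        have h1 := A.g_adj A.tZ (A.inZ ha') haz.symm
        rw [hgt] at h1
        exact haJ (C.nbr C.hbI h1)
      · exact Or.inl (A.g_inj (A.inZ h1) (A.inZ hxh) (h2.trans hgx.symm))
      · exact Or.inr (A.g_inj (A.inZ h1) (A.inZ hyh) (h2.trans hgy.symm))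
    refine (Set.ncard_le_ncard hsub (Set.toFinite _)).trans ?_
    refine (Set.ncard_insert_le xh {yh}).trans ?_
    rw [Set.ncard_singleton]
  have hJ := fun a ha => A.sub_J hbd (a := a) ha
  exact ⟨b, Or.inl rfl, hgt, A.size (κ := b) (Or.inl C.hbI) C.hrb.ne.symm hJ hne⟩

theorem LAt.res [Finite W] (A : LAt C I₁ k t) : LRes I₀ I₁ r b x y f k t := by
  obtain ⟨c, hc, hcr⟩ := A.exists_cross
  by_cases h : ∃ c' ∈ Sk R H r b x f k, Cross R H r b x f c' ∧ role r b x f k c' = x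
  · obtain ⟨c', hc', hcr', hgc'⟩ := h
    exact A.caseA hc' hcr' hgc'
  · push Not at h
    rcases (A.cross_role hc hcr).2 with h1 | h1
    · exact A.caseB hc hcr h1 (fun c' hc' hcr' => h c' hc' hcr')
    · exact absurd h1 (h c hc hcr)

end

end Pool.Agent.StrongMax
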