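import Pool.Agent.Lib.StrongMax.Rays

/-!
# Locally finite graphs with a ray
-/

namespace Pool.Agent.StrongMax

open Cardinal

universe u

section LocFin

variable {W : Type u} {H : SimpleGraph W}

/-- In a locally finite graph only finitely many vertices are the ends of walks of length `k`
starting at `x`. -/
theorem walk_ends_finite (hlf : ∀ x, (H.neighborSet x).Finite) (x : W) (k : ℕ) :
    {y | ∃ p : H.Walk x y, p.length = k}.Finite := by
  induction k with
  | zero =>
    refine (Set.finite_singleton x).subset ?_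
    rintro y ⟨p, hp⟩
    exact (SimpleGraph.Walk.eq_of_length_eq_zero hp).symm
  | succ k ih =>
    refine (Set.Finite.biUnion ih (fun z _ => hlf z)).subset ?_
    rintro y ⟨p, hp⟩
    have hlen : p.reverse.length = k + 1 := by rw [SimpleGraph.Walk.length_reverse, hp]
    obtain ⟨z, hz, q, hq⟩ : ∃ z, ∃ _ : H.Adj y z, ∃ q : H.Walk z x, q.length = k := by
      cases hpr : p.reverse with
      | nil => rw [hpr] at hlen; simp at hlen
      | cons h q =>
        rw [hpr] at hlen
        exact ⟨_, h, q, by simpa using hlen⟩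
    simp only [Set.mem_iUnion]
    exact ⟨z, ⟨q.reverse, by rw [SimpleGraph.Walk.length_reverse, hq]⟩, hz.symm⟩

/-- A root in the component of `x`. -/
noncomputable def rootOf (H : SimpleGraph W) (x : W) : W :=
  (H.connectedComponentMk x).out

theorem rootOf_reachable (x : W) : H.Reachable (rootOf H x) x := by
  apply SimpleGraph.ConnectedComponent.exact
  exact Quot.out_eq (H.connectedComponentMk x)

theorem rootOf_adj {x y : W} (h : H.Adj x y) : rootOf H x = rootOf H y := by
  unfold rootOf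
  rw [SimpleGraph.ConnectedComponent.sound h.reachable]

/-- The distance from the root. -/
noncomputable def levOf (H : SimpleGraph W) (x : W) : ℕ := H.dist (rootOf H x) x

theorem levOf_adj {x y : W} (h : H.Adj x y) : levOf H y ≤ levOf H x + 1 := by
  obtain ⟨p, hp⟩ := (rootOf_reachable (H := H) x).exists_walk_length_eq_dist
  have h1 := SimpleGraph.dist_le (p.concat h)
  rw [SimpleGraph.Walk.length_concat, hp] at h1
  unfold levOf
  rw [← rootOf_adj h]
  exact h1

theorem levels_finite (hlf : ∀ x, (H.neighborSet x).Finite) (c : W) (k : ℕ) :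
    {w | rootOf H w = c ∧ levOf H w = k}.Finite := by
  refine (walk_ends_finite hlf c k).subset ?_
  rintro w ⟨hw, hk⟩
  obtain ⟨p, hp⟩ := (rootOf_reachable (H := H) w).exists_walk_length_eq_dist
  subst hw
  exact ⟨p, hp.trans hk⟩

/-- **Theorem LF1.** A locally finite graph with a ray fails. -/
theorem fails_of_locFin_ray (hlf : ∀ x, (H.neighborSet x).Finite) (hray : ¬ Rayless H Set.univ) :
    Fails.{u} H := by
  classical
  -- indices: a rayless set, a placement, a root, a level
  let ι : Type u := {D : Set W // Rayless H D} × (W → W) × W × ℕ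
  let D : ι → Set W := fun i => i.1.1
  let P : ι → W → W → Prop := fun i d w => rootOf H w = i.2.2.1 ∧ levOf H w = i.2.2.2 ∧
    ∃ z, H.Adj d z ∧ i.2.1 z = w
  -- tags
  have hD : ∀ i : ι, Rayless H (D i) := fun i => i.1.2
  let tag : ∀ {Λ : Type u}, W ⊕ (ι × Λ × W) → W × ℕ := fun {Λ} v => match v with
    | .inl w => (rootOf H w, levOf H w)
    | .inr a => (a.1.2.2.1, a.1.2.2.2)
  have htag1 : ∀ (Λ : Type u) (v w : W ⊕ (ι × Λ × W)), (gHost H ⊥ D P Λ).Adj v w →
      tag v = tag w := by
    rintro Λ (x | a) (y | b) hvw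
    · exact absurd hvw (by simp [gHost_inl_inl])
    · obtain ⟨-, h1, h2, -⟩ := gHost_inl_inr.1 hvw
      exact Prod.ext h1 h2
    · obtain ⟨-, h1, h2, -⟩ := gHost_inr_inl.1 hvw
      exact Prod.ext h1.symm h2.symm
    · have := (gHost_inr_inr.1 hvw).1
      show (a.1.2.2.1, a.1.2.2.2) = (b.1.2.2.1, b.1.2.2.2)
      rw [this]
  have htag2 : ∀ (Λ : Type u) (v w : W ⊕ (ι × Λ × W)), (gHost H H D P Λ).Adj v w →
      (tag v).1 = (tag w).1 := by
    intro Λ v w hvw
    by_cases h : ∃ x y, v = .inl x ∧ w = .inl y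
    · obtain ⟨x, y, rfl, rfl⟩ := h
      exact rootOf_adj (gHost_inl_inl.1 hvw)
    · rw [htag1 Λ v w (gHost_bot_of hvw h)]
  -- rays with a finite set of tags
  have hfin : ∀ (Λ : Type u) (r : ℕ → W ⊕ (ι × Λ × W)), Function.Injective r →
      (∀ n, (gHost H H D P Λ).Adj (r n) (r (n + 1))) → ∀ (c : W) (k : ℕ),
      (∀ n, (tag (r n)).1 = c ∧ (tag (r n)).2 ≤ k) → False := by
    intro Λ r hr hadj c k hck
    refine no_thick_ray' hD r hr hadj ?_
    have h1 : {n | ∃ w, r n = .inl w} ⊆ r ⁻¹' (⋃ j ∈ Finset.range (k + 1),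
        Sum.inl '' {w | rootOf H w = c ∧ levOf H w = j}) := by
      rintro n ⟨w, hw⟩
      obtain ⟨h2, h3⟩ := hck n
      rw [hw] at h2 h3
      simp only [Set.mem_preimage, Set.mem_iUnion]
      exact ⟨levOf H w, Finset.mem_range.2 (Nat.lt_succ_of_le h3), w, ⟨h2, rfl⟩, hw.symm⟩
    refine Set.Finite.subset (Set.Finite.preimage hr.injOn ?_) h1
    exact Set.Finite.biUnion (Finset.finite_toSet _) (fun j _ => (levels_finite hlf c j).image _)
  refine fails_of_gadgets H H D P le_rfl ?_ ?_
  · intro Λ φ hφ hφa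
    refine hray (fun r hr hadj _ => ?_)
    have h1 : ∀ n, tag (φ (r n)) = tag (φ (r 0)) := by
      intro n
      induction n with
      | zero => rfl
      | succ n ih => rw [← ih]; exact (htag1 Λ _ _ (hφa _ _ (hadj n))).symm
    exact hfin Λ (φ ∘ r) (hφ.comp hr) (fun n => gHost_of_bot (hφa _ _ (hadj n)))
      (tag (φ (r 0))).1 (tag (φ (r 0))).2 (fun n => ⟨congrArg Prod.fst (h1 n),
        (congrArg Prod.snd (h1 n)).le⟩)
  · intro Λ φ hφ hφa p q x y hpq hpx hqy
    have hcomp : ∀ u v, H.Reachable u v → (tag (φ v)).1 = (tag (φ u)).1 := by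
      rintro u v ⟨w⟩
      induction w with
      | nil => rfl
      | cons h _ ih => exact ih.trans (htag2 Λ _ _ (hφa _ _ h)).symm
    let E : Set W := {z | H.Reachable p z ∧ (tag (φ z)).2 ≤ (tag (φ p)).2}
    have hE : Rayless H E := by
      intro r hr hadj hrE
      exact hfin Λ (φ ∘ r) (hφ.comp hr) (fun n => hφa _ _ (hadj n)) (tag (φ p)).1 (tag (φ p)).2
        (fun n => ⟨hcomp _ _ (hrE n).1, (hrE n).2⟩)
    refine ⟨(⟨E, hE⟩, fun z => Sum.elim id (fun _ => p) (φ z), (tag (φ p)).1,
      (tag (φ p)).2 + 1), Or.inl ⟨SimpleGraph.Reachable.refl p, le_rfl⟩, ?_⟩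
    intro z hz d hd hdz
    have hpz : H.Reachable p z := hd.1.trans hdz.reachable
    have hlz : (tag (φ p)).2 < (tag (φ z)).2 := by
      by_contra hcon
      exact hz ⟨hpz, not_lt.1 hcon⟩
    have hadj := hφa d z hdz
    obtain ⟨v, w, hv, hw⟩ : ∃ v w, φ d = .inl v ∧ φ z = .inl w := by
      by_contra hcon
      have h1 := htag1 Λ _ _ (gHost_bot_of hadj hcon)
      have h2 : (tag (φ d)).2 ≤ (tag (φ p)).2 := hd.2
      rw [h1] at h2
      exact absurd h2 (not_le.2 hlz)
    refine ⟨w, hw, ?_, ?_, z, hdz, ?_⟩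
    · have := hcomp p z hpz
      rw [hw] at this
      exact this
    · have h2 : (tag (φ d)).2 ≤ (tag (φ p)).2 := hd.2
      rw [hv] at h2
      rw [hw] at hlz
      have h2' : levOf H v ≤ (tag (φ p)).2 := h2
      have hlz' : (tag (φ p)).2 < levOf H w := hlz
      rw [hv, hw, gHost_inl_inl] at hadj
      have h3 := levOf_adj hadj
      show levOf H w = (tag (φ p)).2 + 1
      omega
    · show Sum.elim id (fun _ => p) (φ z) = w
      rw [hw]
      rfl

end LocFin

end Pool.Agent.StrongMax
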