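import Pool.Agent.Lib.StrongMax.N2e
import Pool.Agent.Lib.StrongMax.HostP
import Pool.Agent.Lib.StrongMax.HostK

/-!
# Theorem N2 (helper42, after helper9)
-/

namespace Pool.Agent.StrongMax

section N2

variable {W : Type} {H : SimpleGraph W} [Finite W]

theorem N2Ctx.two_nbrs {L : Set W} {s : W} (h : N2Ctx H L s) (x : W) :
    ∃ y z, y ≠ z ∧ H.Adj x y ∧ H.Adj x z := by
  have h1 : 1 < (H.neighborSet x).ncard := by
    have := h.hδ x
    omega
  obtain ⟨a, ha, b, hb, hab⟩ := (Set.one_lt_ncard (Set.toFinite _)).1 h1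
  exact ⟨a, b, hab, ha, hb⟩

theorem N2End.fails_of_esc {L : Set W} {s n₁ n₂ : W} (h : N2End H L s) (h1 : n₁ ∉ L)
    (h2 : n₂ ∉ L) (h1s : n₁ ≠ s) (h2s : n₂ ≠ s) (hne : n₁ ≠ n₂)
    (hesc : Esc H L s n₁ n₂) : Fails.{0} H :=
  PCtx.fails (L := L) (s := s) (n₁ := n₁) (n₂ := n₂)
    ⟨h.c2, h.toN2Ctx.two_nbrs, h.rig, h.sL, h.star, fun n hn hns => (h.all n hn hns).symm,
      h1, h2, h1s, h2s, hne⟩ hesc

/-- Case R1. -/
theorem N2End.r1 {L : Set W} {s : W} (h : N2End H L s)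
    (heq : ∀ x y, x ∉ L → x ≠ s → y ∉ L → y ≠ s →
      (H.neighborSet x).ncard = (H.neighborSet y).ncard) : Fails.{0} H := by
  let T : Set W := {x | x ∉ L ∧ x ≠ s}
  have hconn : ∀ x ∈ T, ∀ y ∈ T, Relation.ReflTransGen
      (fun a b => Linked H L s a b ∧ b ∈ T) x y := by
    intro x hx y hy
    -- `H - s` is connected
    have h1 : Lr H {z | z ≠ s} x y := by
      by_contra hcon
      obtain ⟨a, ha, b, hb, has, hbs, hab⟩ := h.c2 {z | Lr H {z | z ≠ s} x z} s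
        ⟨x, Lr.refl x, hx.2⟩ ⟨y, hcon, hy.2⟩
      exact hb (Lr.tail ha hab hbs)
    have h2 := links_of_Lr h.star (M := {z | z ≠ s}) (fun h' => h' rfl) hx.2 hx.1 h1 hy.1
    clear h1 hy
    induction h2 with
    | refl => exact .refl
    | @tail u v _ huv ih =>
      obtain ⟨_, _, _, _, _, _, hv⟩ := huv.1
      exact ih.tail ⟨huv.1, bdr_notMem hv, huv.2⟩
  obtain ⟨m₁, m₂, hne, hm₁, hm₂, h₁, h₂⟩ := h.two
  obtain ⟨n₁, hn₁, n₂, hn₂, hn, e1, e2⟩ := exists_ends hconn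
    ⟨m₁, ⟨hm₁, h₁.ne.symm⟩, m₂, ⟨hm₂, h₂.ne.symm⟩, hne⟩
  refine h.fails_of_esc hn₁.1 hn₂.1 hn₁.2 hn₂.2 hn (esc_of_data ?_)
  intro U g hd
  refine hd.finish ?_
  intro m hm hmL hms hm1 hm2
  refine hd.walk (T := T) (fun x hx => hx) ?_ e1 e2 hm ⟨hmL, hms⟩ hm1 hm2
  intro x hx hxT
  obtain ⟨h3, h4⟩ := hd.hN x hx hxT.1 hxT.2
  exact (heq x (g x) hxT.1 hxT.2 h3 h4).le

variable {L : Set W} {s c : W}

/-- Case R23 with `|X| = 1`. -/
theorem R23.single (h : R23 H L s c) {x : W} (hx : x ∉ L) (hxs : x ≠ s) (hxc : x ≠ c)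
    (huniq : ∀ y, y ∉ L → y ≠ s → y ≠ c → y = x) : Fails.{0} H := by
  refine h.toN2End.fails_of_esc hx h.cL hxs h.cs hxc (esc_of_data ?_)
  intro U g hd
  refine hd.finish ?_
  intro m hm hmL hms hm1 hm2
  exact absurd (huniq m hmL hms hm2) hm1

/-- Case R23 with `q ≥ 2`. -/
theorem R23.big (h : R23 H L s c)
    (hq : ∀ x, x ∉ L → x ≠ s → x ≠ c → ∃ x', x' ∉ L ∧ x' ≠ x ∧ Lr H {z | z ≠ s ∧ z ≠ c} x x') :
    Fails.{0} H := by
  classical
  let M : Set W := {z | z ≠ s ∧ z ≠ c}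
  obtain ⟨x₁, x₂, hx12, hx₁, hx₂, hr12, hl₁, hl₂⟩ := h.f4 hq
  have hx₁M : x₁ ∈ M := ⟨hl₁.2.1, hl₁.1⟩
  have hx₂M : x₂ ∈ M := ⟨hl₂.2.1, hl₂.1⟩
  let T : Set W := {x | x ∉ L ∧ Lr H M x₁ x}
  have hTM : ∀ x ∈ T, x ∈ M := fun x hx => hx.2.mem hx₁M
  have hconn : ∀ x ∈ T, ∀ y ∈ T, Relation.ReflTransGen
      (fun a b => Linked H L s a b ∧ b ∈ T) x y := by
    intro x hx y hy
    have hxM := hTM x hx
    have h1 : Lr H M x y := (hx.2.symm hx₁M).trans hy.2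
    have h2 := links_of_Lr h.star (M := M) (fun h' => h'.1 rfl) hxM hx.1 h1 hy.1
    have h3 : ∀ z, Relation.ReflTransGen (fun a b => Linked H L s a b ∧ b ∈ M) x z →
        Lr H M x z ∧ Relation.ReflTransGen (fun a b => Linked H L s a b ∧ b ∈ T) x z := by
      intro z hz
      induction hz with
      | refl => exact ⟨Lr.refl x, .refl⟩
      | @tail u v _ huv ih =>
        obtain ⟨-, -, -, y, hy, ⟨y₁, hy₁, hy₁u, -⟩, ⟨y₂, hy₂, hy₂v, hvL⟩⟩ := huv.1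
        have hLM : L ⊆ M := fun z hz => h.LM hz
        have h4 : Lr H M y v := (hy₂.mono hLM).tail hy₂v huv.2
        have h5 : Lr H M u y := by
          have h6 : Lr H M u y₁ := Lr.single hy₁u.symm (hLM (hy₁.mem hy))
          exact h6.trans ((hy₁.symm hy).mono hLM)
        have h7 : Lr H M x v := ih.1.trans (h5.trans h4)
        exact ⟨h7, ih.2.tail ⟨huv.1, hvL, hx.2.trans h7⟩⟩
    exact (h3 y h2).2
  obtain ⟨n₁, hn₁, n₂, hn₂, hn, e1, e2⟩ := exists_ends hconn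
    ⟨x₁, ⟨hx₁, Lr.refl _⟩, x₂, ⟨hx₂, hr12⟩, hx12⟩
  have hn₁M := hTM n₁ hn₁
  have hn₂M := hTM n₂ hn₂
  refine h.toN2End.fails_of_esc hn₁.1 hn₂.1 hn₁M.1 hn₂M.1 hn (esc_of_data ?_)
  intro U g hd
  have hdegX : ∀ x ∈ U, x ∉ L → x ≠ s → x ≠ c →
      (H.neighborSet x).ncard ≤ (H.neighborSet (g x)).ncard := by
    intro x hx hxL hxs hxc
    obtain ⟨h3, h4⟩ := hd.hN x hx hxL hxs
    exact h.min hxL hxs hxc h3 h4
  -- (1)
  have h1 : ∀ x ∈ U, x ∈ T → x ≠ n₁ → x ≠ n₂ → n₁ ∈ U ∧ n₂ ∈ U := by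
    intro x hx hxT hx1 hx2
    exact hd.walk (T := T) (fun x hx => ⟨hx.1, (hTM x hx).1⟩)
      (fun x hx hxT => hdegX x hx hxT.1 (hTM x hxT).1 (hTM x hxT).2) e1 e2 hx hxT hx1 hx2
  -- (2)
  have h2 : ∀ x ∈ U, x ∉ L → x ≠ s → x ≠ c → ¬ Lr H M x₁ x → c ∈ U ∧ g c = c := by
    intro x hx hxL hxs hxc hxT
    have hxM : x ∈ M := ⟨hxs, hxc⟩
    -- vertices of the component outside `L` are private
    have hpriv : ∀ z, Lr H M x z → z ≠ n₁ ∧ z ≠ n₂ := by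
      intro z hz
      have hz' := hz.symm hxM
      constructor
      · rintro rfl
        exact hxT (hn₁.2.trans hz')
      · rintro rfl
        exact hxT (hn₂.2.trans hz')
    have hMs : ∀ z, Lr H M x z → z ≠ s ∧ z ≠ c := fun z hz => hz.mem hxM
    have hstep : ∀ z ∈ U, Lr H M x z → ∀ w, H.Adj z w → w ∈ U := by
      intro z hz hr w hzw
      by_cases hzL : z ∈ L
      · exact ((hd.hL z hz hzL).2.1 w hzw).1
      · exact hd.nbrs hz hzL (hMs z hr).1 (hpriv z hr).1 (hpriv z hr).2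
          (hdegX z hz hzL (hMs z hr).1 (hMs z hr).2) w hzw
    have hKU : ∀ z, Lr H M x z → z ∈ U := by
      intro z hz
      have key : z ∈ {z | z ∈ U ∧ Lr H M x z} := by
        refine hz.ind ⟨hx, Lr.refl x⟩ ?_
        rintro a ⟨haU, har⟩ b hb hab
        exact ⟨hstep a haU har b hab, har.tail hab hb⟩
      exact key.1
    have hgM : ∀ z, Lr H M x z → g z ∈ M := by
      intro z hz
      have hzU := hKU z hz
      refine ⟨fun hgz => ?_, fun hgz => ?_⟩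
      · exact (hMs z hz).1 (hd.inj hzU hd.sU (hgz.trans hd.gs.symm))
      · by_cases hzL : z ∈ L
        · have := (hd.hL z hzU hzL).1
          rw [hgz] at this
          exact h.cL this
        · have h3 : H.neighborSet (g z) ⊆ g '' H.neighborSet z := by
            intro b hb
            obtain ⟨y, -, hzy, rfl⟩ := hd.hc z hzU hzL (hMs z hz).1 (hpriv z hz).1
              (hpriv z hz).2 b hb
            exact ⟨y, hzy, rfl⟩
          have h4 := Set.ncard_le_ncard h3 (Set.toFinite _)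
          have h5 : (g '' H.neighborSet z).ncard ≤ (H.neighborSet z).ncard :=
            Set.ncard_image_le (Set.toFinite _)
          have h6 := h.lt z hzL (hMs z hz).1 (hMs z hz).2
          rw [hgz] at h4
          omega
    have hadj : ∀ z w, Lr H M x z → H.Adj z w → (z ∈ L ∨ w ∈ L) → w ∈ U → H.Adj (g z) (g w) := by
      intro z w hz hzw hL hwU
      rcases hL with hL | hL
      · exact ((hd.hL z (hKU z hz) hL).2.1 w hzw).2
      · exact ((hd.hL w hwU hL).2.1 z hzw.symm).2.symm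
    have hgr : ∀ z, Lr H M x z → Lr H M (g x) (g z) := by
      intro z hz
      have key : z ∈ {z | Lr H M x z ∧ Lr H M (g x) (g z)} := by
        refine hz.ind ⟨Lr.refl x, Lr.refl _⟩ ?_
        rintro a ⟨har, hga⟩ b hb hab
        have hrb := har.tail hab hb
        have hL : a ∈ L ∨ b ∈ L := by
          by_cases haL : a ∈ L
          · exact Or.inl haL
          · exact Or.inr ((h.nbr haL (hMs a har).1 hab).resolve_right hb.1)
        exact ⟨hrb, hga.tail (hadj a b har hab hL (hKU b hrb)) (hgM b hrb)⟩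
      exact key.2
    have hgxM := hgM x (Lr.refl x)
    have hcnt := h.cnt x (g x) hxs hxc hgxM.1 hgxM.2
    have himg : g '' (comp H M x ∩ {z | z ∉ L ∧ z ≠ s ∧ z ≠ c}) =
        comp H M (g x) ∩ {z | z ∉ L ∧ z ≠ s ∧ z ≠ c} := by
      refine Set.eq_of_subset_of_ncard_le ?_ ?_ (Set.toFinite _)
      · rintro _ ⟨z, ⟨hz, hzL, hzs, hzc⟩, rfl⟩
        exact ⟨hgr z hz, (hd.hN z (hKU z hz) hzL hzs).1, hgM z hz⟩
      · rw [Set.InjOn.ncard_image]
        · exact hcnt.symm.le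
        · rintro z ⟨hz, -⟩ z' ⟨hz', -⟩ he
          exact hd.inj (hKU z hz) (hKU z' hz') he
    -- the neighbour of `c`
    obtain ⟨w, hw, hwc⟩ := h.comp_c (z := x) hxM
    have hwM := hMs w hw
    have hwL : w ∈ L := by
      by_contra hwL
      rcases h.nbr hwL hwM.1 hwc with h' | h'
      · exact h.cL h'
      · exact h.cs h'
    have hcU : c ∈ U := ((hd.hL w (hKU w hw) hwL).2.1 c hwc).1
    have hgcs : g c ≠ s := (hd.hN c hcU h.cL h.cs).2
    have hgcL : g c ∉ L := (hd.hN c hcU h.cL h.cs).1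
    refine ⟨hcU, ?_⟩
    by_contra hgc
    have h3 : g c ∈ comp H M (g x) ∩ {z | z ∉ L ∧ z ≠ s ∧ z ≠ c} := by
      refine ⟨?_, hgcL, hgcs, hgc⟩
      exact (hgr w hw).tail ((hd.hL w (hKU w hw) hwL).2.1 c hwc).2 ⟨hgcs, hgc⟩
    rw [← himg] at h3
    obtain ⟨z, ⟨hz, -⟩, hzc⟩ := h3
    exact (hMs z hz).2 (hd.inj (hKU z hz) hcU hzc)
  -- (3), (4)
  have h3 : c ∈ U → n₁ ∈ U ∧ n₂ ∈ U := by
    intro hcU
    have hcn₁ : c ≠ n₁ := fun h' => hn₁M.2 h'.symm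
    have hcn₂ : c ≠ n₂ := fun h' => hn₂M.2 h'.symm
    -- two vertices of `T` in `U`
    have hfin : ∀ a b, a ∈ U → b ∈ U → a ∈ T → b ∈ T → a ≠ b → n₁ ∈ U ∧ n₂ ∈ U := by
      intro a b ha hb haT hbT hab
      by_cases ha1 : a = n₁
      · by_cases hb2 : b = n₂
        · exact ⟨ha1 ▸ ha, hb2 ▸ hb⟩
        · exact h1 b hb hbT (fun h' => hab (ha1.trans h'.symm)) hb2
      · by_cases ha2 : a = n₂
        · by_cases hb1 : b = n₁
          · exact ⟨hb1 ▸ hb, ha2 ▸ ha⟩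
          · exact h1 b hb hbT hb1 (fun h' => hab (ha2.trans h'.symm))
        · exact h1 a ha haT ha1 ha2
    by_cases hgc : g c = c
    · have h4 := fun m hm => hd.linked hcU h.cL h.cs hcn₁ hcn₂ (by rw [hgc]) (m := m) hm
      exact hfin x₁ x₂ (h4 x₁ hl₁.symm) (h4 x₂ hl₂.symm) ⟨hx₁, Lr.refl _⟩ ⟨hx₂, hr12⟩ hx12
    · obtain ⟨hgcL, hgcs⟩ := hd.hN c hcU h.cL h.cs
      obtain ⟨m, m', hmm, hm, hm'⟩ := h.f3 hq hgcL hgcs hgc
      -- linked vertices come from `U`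
      have h4 : ∀ m, Linked H L s (g c) m → ∃ μ ∈ U, g μ = m ∧ μ ∉ L ∧ μ ≠ s ∧ μ ≠ c := by
        rintro m ⟨hcm, -, hms, y', hy', ⟨y'', hy'', hyc, -⟩, hym⟩
        obtain ⟨y, hyU, hcy, rfl⟩ := hd.hc c hcU h.cL h.cs hcn₁ hcn₂ y'' hyc.symm
        have hgyL : g y ∈ L := hy''.mem hy'
        have hyL : y ∈ L := by
          rcases h.nbr h.cL h.cs hcy with h5 | h5
          · exact h5
          · rw [h5, hd.gs] at hgyL
            exact absurd hgyL h.sL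
        obtain ⟨b, hb, hbm, hmL⟩ := (bdr_congr hy' hy'').1 hym
        have key : b ∈ {b | ∃ z ∈ U, z ∈ L ∧ g z = b} := by
          refine hb.ind ⟨y, hyU, hyL, rfl⟩ ?_
          rintro _ ⟨z, hzU, hzL, rfl⟩ b' hb' hbb
          obtain ⟨y₁, hzy₁, rfl⟩ := (hd.hL z hzU hzL).2.2 b' hbb
          have hy₁U := ((hd.hL z hzU hzL).2.1 y₁ hzy₁).1
          refine ⟨y₁, hy₁U, ?_, rfl⟩
          by_contra hy₁L
          by_cases hy₁s : y₁ = s
          · rw [hy₁s, hd.gs] at hb'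
            exact h.sL hb'
          · exact (hd.hN y₁ hy₁U hy₁L hy₁s).1 hb'
        obtain ⟨z, hzU, hzL, rfl⟩ := key
        obtain ⟨μ, hzμ, rfl⟩ := (hd.hL z hzU hzL).2.2 m hbm
        have hμU := ((hd.hL z hzU hzL).2.1 μ hzμ).1
        refine ⟨μ, hμU, rfl, fun hμL => hmL (hd.hL μ hμU hμL).1, ?_, ?_⟩
        · rintro rfl
          exact hms hd.gs
        · rintro rfl
          exact hcm rfl
      obtain ⟨μ, hμU, hμ, hμL, hμs, hμc⟩ := h4 m hm
      obtain ⟨μ', hμ'U, hμ', hμ'L, hμ's, hμ'c⟩ := h4 m' hm'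
      have hμT : Lr H M x₁ μ := by
        by_contra h5
        exact hgc (h2 μ hμU hμL hμs hμc h5).2
      have hμ'T : Lr H M x₁ μ' := by
        by_contra h5
        exact hgc (h2 μ' hμ'U hμ'L hμ's hμ'c h5).2
      refine hfin μ μ' hμU hμ'U ⟨hμL, hμT⟩ ⟨hμ'L, hμ'T⟩ ?_
      rintro rfl
      exact hmm (hμ.symm.trans hμ')
  refine hd.finish ?_
  intro m hm hmL hms hm1 hm2
  by_cases hmc : m = c
  · exact h3 (hmc ▸ hm)
  · by_cases hmT : Lr H M x₁ m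
    · exact h1 m hm ⟨hmL, hmT⟩ hm1 hm2
    · exact h3 (h2 m hm hmL hms hmc hmT).1

end N2

end Pool.Agent.StrongMax
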