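import Pool.Agent.Lib.StrongMax.Closed

/-!
# The regular-component lemma and the induction for Theorem N2 (helper42, after helper9)
-/

namespace Pool.Agent.StrongMax

section N2a

variable {W : Type} {H : SimpleGraph W}

/-- Restricting an embedding into `L'` to the vertices which are mapped to `L`. -/
theorem PEmb.restrict {L L' C : Set W} {φ : W → W} (h : PEmb H L' C φ)
    (hsat : ∀ x ∈ L', ∀ y ∈ L, H.Adj x y → y ∈ L') : PEmb H L {a | a ∈ C ∧ φ a ∈ L} φ := by
  refine ⟨fun a ha => ha.2, fun a ha => h.adj a ha.1, ?_, ?_⟩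
  · intro a ha b hab hb hbL
    have h1 : φ b ∈ L' := hsat _ (h.mem a ha.1) _ hbL (h.adj a ha.1 b hab)
    by_cases hbC : b ∈ C
    · exact hb ⟨hbC, hbL⟩
    · exact h.out a ha.1 b hab hbC h1
  · refine h.inj.mono ?_
    rintro x (hx | ⟨a, ha, hax⟩)
    · exact Or.inl hx.1
    · exact Or.inr ⟨a, ha.1, hax⟩

theorem PEmb.surj_of_deg [Finite W] {L C : Set W} {φ : W → W} (h : PEmb H L C φ) {a : W}
    (ha : a ∈ C) (hd : (H.neighborSet (φ a)).ncard ≤ (H.neighborSet a).ncard) {y : W}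
    (hy : H.Adj (φ a) y) : ∃ b, H.Adj a b ∧ φ b = y := by
  classical
  have hinj : Set.InjOn φ (H.neighborSet a) := fun b hb b' hb' he => h.nbr_eq ha hb ha hb' he
  have h1 : φ '' H.neighborSet a = H.neighborSet (φ a) := by
    refine Set.eq_of_subset_of_ncard_le ?_ ?_ (Set.toFinite _)
    · rintro _ ⟨b, hb, rfl⟩
      exact h.adj a ha b hb
    · rw [hinj.ncard_image]; exact hd
  have h2 : y ∈ φ '' H.neighborSet a := by rw [h1]; exact hy
  obtain ⟨b, hb, rfl⟩ := h2
  exact ⟨b, hb, rfl⟩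

/-- A vertex with at least two neighbours has a neighbour different from `t`. -/
theorem exists_nbr_ne [Finite W] {x : W} (hx : 2 ≤ (H.neighborSet x).ncard) (t : W) :
    ∃ y, H.Adj x y ∧ y ≠ t := by
  have h1 : 1 < (H.neighborSet x).ncard := by omega
  obtain ⟨a, ha, b, hb, hab⟩ := (Set.one_lt_ncard (Set.toFinite _)).1 h1
  by_cases h : a = t
  · exact ⟨b, hb, fun h' => hab (h.trans h'.symm)⟩
  · exact ⟨a, ha, h⟩

/-- The component of `x` in `H[M]`. -/
def comp (H : SimpleGraph W) (M : Set W) (x : W) : Set W := {y | Lr H M x y}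

theorem comp_eq {M : Set W} {x y : W} (hx : x ∈ M) (h : Lr H M x y) : comp H M x = comp H M y := by
  ext z
  exact ⟨fun hz => (h.symm hx).trans hz, fun hz => h.trans hz⟩

/-- The vertices of the components of `H[M]` with the largest number of vertices in `X`. -/
def topSet (H : SimpleGraph W) (M X : Set W) : Set W :=
  {x | x ∈ M ∧ ∀ y ∈ M, (comp H M y ∩ X).ncard ≤ (comp H M x ∩ X).ncard}

theorem topSet_nonempty [Finite W] {M X : Set W} (hM : M.Nonempty) :
    (topSet H M X).Nonempty := by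
  obtain ⟨x, hx, h⟩ := Set.exists_max_image M (fun x => (comp H M x ∩ X).ncard)
    (Set.toFinite _) hM
  exact ⟨x, hx, h⟩

theorem topSet_step {M X : Set W} {x y : W} (hx : x ∈ topSet H M X) (hy : y ∈ M)
    (hxy : H.Adj x y) : y ∈ topSet H M X := by
  refine ⟨hy, fun z hz => ?_⟩
  rw [← comp_eq hx.1 (Lr.single hxy hy)]
  exact hx.2 z hz

/-- If the edges outside `topSet` contain a vertex outside `M` then `topSet` is everything. -/
theorem topSet_eq [Finite W] (hδ : ∀ x, 2 ≤ (H.neighborSet x).ncard) {M X : Set W} {t : W}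
    (ht : Star H (topSet H M X) t) (htM : t ∉ M) : topSet H M X = M := by
  refine Set.Subset.antisymm (fun x hx => hx.1) ?_
  intro x hx
  by_contra hcon
  obtain ⟨b, hb, hbt⟩ := exists_nbr_ne (hδ x) t
  have h1 : b ∉ topSet H M X := fun h => hcon (topSet_step h hx hb.symm)
  rcases ht x b hb hcon h1 with h | h
  · exact htM (h ▸ hx)
  · exact hbt h

/-- **The regular-component lemma.** -/
theorem rigid_topSet [Finite W] {L X : Set W} (hR : Rigid H L) (hXL : ∀ x ∈ X, x ∉ L)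
    (hstep : ∀ C φ, PEmb H (topSet H (X ∪ L) X) C φ → ∀ a ∈ C, φ a ∉ L → a ∈ X ∧
      (∀ b ∈ X ∪ L, H.Adj a b → b ∈ C) ∧ (∀ y, H.Adj (φ a) y → ∃ b, H.Adj a b ∧ φ b = y)) :
    Rigid H (topSet H (X ∪ L) X) := by
  classical
  have key : ∀ C φ, PEmb H (topSet H (X ∪ L) X) C φ → C ⊆ topSet H (X ∪ L) X ∧
      (∀ a ∈ C, ∀ b ∈ topSet H (X ∪ L) X, H.Adj a b → b ∈ C) ∧
      (∀ a ∈ C, ∀ y, H.Adj (φ a) y → ∃ b, H.Adj a b ∧ φ b = y) := by
    intro C φ hC
    have hCL := hC.restrict (L := L) (fun x hx y hy hxy => topSet_step hx (Or.inr hy) hxy)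
    have hsurj : ∀ a ∈ C, ∀ y, H.Adj (φ a) y → ∃ b, H.Adj a b ∧ φ b = y := by
      intro a ha y hy
      by_cases hL : φ a ∈ L
      · exact hR.surj _ φ hCL a ⟨ha, hL⟩ y hy
      · exact (hstep C φ hC a ha hL).2.2 y hy
    have hCM : ∀ a ∈ C, a ∈ X ∪ L := by
      intro a ha
      by_cases hL : φ a ∈ L
      · exact Or.inr (hR.sub _ φ hCL ⟨ha, hL⟩)
      · exact Or.inl (hstep C φ hC a ha hL).1
    -- the component of `a`
    have hcomp : ∀ a ∈ C, a ∈ topSet H (X ∪ L) X ∧ comp H (X ∪ L) a ∩ X ⊆ C := by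
      intro a ha
      let Ca : Set W := {b | Lr H C a b}
      have hCaC : Ca ⊆ C := fun b hb => Lr.mem hb ha
      have himg : ∀ y, Lr H (X ∪ L) (φ a) y → ∃ b ∈ Ca, φ b = y := by
        intro y hy
        refine hy.ind (S := {y | ∃ b ∈ Ca, φ b = y}) ⟨a, Lr.refl a, rfl⟩ ?_
        rintro _ ⟨b, hb, rfl⟩ z hz hbz
        obtain ⟨b', hb', rfl⟩ := hsurj b (hCaC hb) z hbz
        have h1 : φ b' ∈ topSet H (X ∪ L) X := topSet_step (hC.mem b (hCaC hb)) hz hbz
        have h2 : b' ∈ C := by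
          by_contra h2
          exact hC.out b (hCaC hb) b' hb' h2 h1
        exact ⟨b', Lr.tail hb hb' h2, rfl⟩
      have h1 : (comp H (X ∪ L) (φ a) ∩ X).ncard ≤ (Ca ∩ X).ncard := by
        have h2 : comp H (X ∪ L) (φ a) ∩ X ⊆ φ '' (Ca ∩ X) := by
          rintro y ⟨hy, hyX⟩
          obtain ⟨b, hb, rfl⟩ := himg y hy
          exact ⟨b, ⟨hb, (hstep C φ hC b (hCaC hb) (hXL _ hyX)).1⟩, rfl⟩
        exact (Set.ncard_le_ncard h2 (Set.toFinite _)).trans (Set.ncard_image_le (Set.toFinite _))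
      have h2 : Ca ∩ X ⊆ comp H (X ∪ L) a ∩ X := fun b hb => ⟨hb.1.mono hCM, hb.2⟩
      have h3 := Set.ncard_le_ncard h2 (Set.toFinite _)
      have h4 := hC.mem a ha
      have h5 := h4.2 a (hCM a ha)
      refine ⟨⟨hCM a ha, fun y hy => ?_⟩, ?_⟩
      · have := h4.2 y hy
        omega
      · have h6 : Ca ∩ X = comp H (X ∪ L) a ∩ X :=
          Set.eq_of_subset_of_ncard_le h2 (by omega) (Set.toFinite _)
        rw [← h6]
        exact fun b hb => hCaC hb.1
    refine ⟨fun a ha => (hcomp a ha).1, ?_, hsurj⟩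
    intro a ha b hb hab
    by_cases hL : φ a ∈ L
    · rcases hb.1 with hbX | hbL
      · exact (hcomp a ha).2 ⟨Lr.single hab (Or.inl hbX), hbX⟩
      · exact (hR.closed _ φ hCL a ⟨ha, hL⟩ b hbL hab).1
    · exact (hstep C φ hC a ha hL).2.1 b hb.1 hab
  exact ⟨fun C φ h => (key C φ h).1, fun C φ h => (key C φ h).2.1, fun C φ h => (key C φ h).2.2⟩

/-- The situation of Theorem N2: a rigid set `L` such that all edges outside `L` contain the
vertex `s ∉ L`, which has at least two neighbours outside `L`. -/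
structure N2Ctx (H : SimpleGraph W) (L : Set W) (s : W) : Prop where
  c2 : Conn2 H
  hδ : ∀ x, 2 ≤ (H.neighborSet x).ncard
  mc : MC H
  rig : Rigid H L
  sL : s ∉ L
  star : Star H L s
  two : ∃ n₁ n₂, n₁ ≠ n₂ ∧ n₁ ∉ L ∧ n₂ ∉ L ∧ H.Adj s n₁ ∧ H.Adj s n₂

/-- The neighbours of a vertex outside `L ∪ {s}`. -/
theorem N2Ctx.nbr {L : Set W} {s : W} (h : N2Ctx H L s) {x y : W} (hx : x ∉ L) (hxs : x ≠ s)
    (hxy : H.Adj x y) : y ∈ L ∨ y = s := by
  by_cases hy : y ∈ L
  · exact Or.inl hy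
  · rcases h.star x y hxy hx hy with h1 | h1
    · exact absurd h1 hxs
    · exact Or.inr h1

/-- **Step 2**: a vertex `a` mapped to a vertex outside `L ∪ {s}`. -/
theorem N2Ctx.step2 [Finite W] {L : Set W} {s : W} (h : N2Ctx H L s) {L' C : Set W} {φ : W → W}
    (hC : PEmb H L' C φ) (hsat : ∀ x ∈ L', ∀ y ∈ L, H.Adj x y → y ∈ L') {a : W} (ha : a ∈ C)
    (hφL : φ a ∉ L) (hφs : φ a ≠ s) :
    a ∉ L ∧ a ≠ s ∧ (∀ b, H.Adj a b → φ b ≠ s → b ∈ C ∧ φ b ∈ L ∧ b ∈ L) ∧
      (H.Adj a s → φ s = s) := by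
  have hCL := hC.restrict hsat
  have h3 : ∀ b, H.Adj a b → φ b ≠ s → b ∈ C ∧ φ b ∈ L ∧ b ∈ L := by
    intro b hb hbs
    have h1 : φ b ∈ L := (h.nbr hφL hφs (hC.adj a ha b hb)).resolve_right hbs
    have h2 : φ b ∈ L' := hsat _ (hC.mem a ha) _ h1 (hC.adj a ha b hb)
    have h3 : b ∈ C := by
      by_contra h3
      exact hC.out a ha b hb h3 h2
    exact ⟨h3, h1, h.rig.sub _ φ hCL ⟨h3, h1⟩⟩
  refine ⟨?_, ?_, h3, ?_⟩
  · intro haL
    -- a neighbour with `φ b ≠ s`
    have h1 : 1 < (H.neighborSet a).ncard := by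
      have := h.hδ a
      omega
    obtain ⟨b, hb, b', hb', hbb⟩ := (Set.one_lt_ncard (Set.toFinite _)).1 h1
    have h2 : ∃ b, H.Adj a b ∧ φ b ≠ s := by
      by_cases hbs : φ b = s
      · refine ⟨b', hb', fun hbs' => hbb (hC.nbr_eq ha hb ha hb' (hbs.trans hbs'.symm))⟩
      · exact ⟨b, hb, hbs⟩
    obtain ⟨b, hb, hbs⟩ := h2
    obtain ⟨hbC, hφb, hbL⟩ := h3 b hb hbs
    exact hφL (h.rig.closed _ φ hCL b ⟨hbC, hφb⟩ a haL hb.symm).2
  · rintro rfl
    obtain ⟨n₁, n₂, hne, hn₁, hn₂, h₁, h₂⟩ := h.two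
    have e1 : φ n₁ = a := by
      by_contra hcon
      exact hn₁ (h3 n₁ h₁ hcon).2.2
    have e2 : φ n₂ = a := by
      by_contra hcon
      exact hn₂ (h3 n₂ h₂ hcon).2.2
    exact hne (hC.nbr_eq ha h₁ ha h₂ (e1.trans e2.symm))
  · intro has
    by_contra hcon
    exact h.sL (h3 s has hcon).2.2

/-- The vertices of minimal degree in `T`. -/
def minDeg (H : SimpleGraph W) (T : Set W) : Set W :=
  {x | x ∈ T ∧ ∀ y ∈ T, (H.neighborSet x).ncard ≤ (H.neighborSet y).ncard}

theorem minDeg_nonempty [Finite W] {T : Set W} (hT : T.Nonempty) : (minDeg H T).Nonempty := by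
  obtain ⟨x, hx, h⟩ := Set.exists_min_image T (fun x => (H.neighborSet x).ncard)
    (Set.toFinite _) hT
  exact ⟨x, hx, h⟩

/-- The two phases: `T` is the set of vertices outside `L ∪ {s}` not adjacent to `s`, or all
vertices outside `L ∪ {s}` are adjacent to `s` and `T` is the set of these. -/
theorem N2Ctx.phase [Finite W] {L : Set W} {s : W} (h : N2Ctx H L s) {T : Set W}
    (hTL : ∀ x ∈ T, x ∉ L) (hTs : s ∉ T)
    (hT : ((∀ x ∈ T, ¬ H.Adj x s) ∧ ∀ x, x ∉ L → x ≠ s → ¬ H.Adj x s → x ∈ T) ∨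
      ∀ x, x ∉ L → x ≠ s → H.Adj x s ∧ x ∈ T) :
    Rigid H (topSet H (minDeg H T ∪ L) (minDeg H T)) := by
  have hsat : ∀ x ∈ topSet H (minDeg H T ∪ L) (minDeg H T), ∀ y ∈ L, H.Adj x y →
      y ∈ topSet H (minDeg H T ∪ L) (minDeg H T) :=
    fun x hx y hy hxy => topSet_step hx (Or.inr hy) hxy
  refine rigid_topSet h.rig (fun x hx => hTL x hx.1) ?_
  intro C φ hC a ha haL
  have hx : φ a ∈ minDeg H T := (hC.mem a ha).1.resolve_right haL
  have hφs : φ a ≠ s := fun hs => hTs (hs ▸ hx.1)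
  obtain ⟨h1, h2, h3, h4⟩ := h.step2 hC hsat ha haL hφs
  have haT : a ∈ T := by
    rcases hT with hT | hT
    · refine hT.2 a h1 h2 (fun has => hT.1 _ hx.1 ?_)
      have := hC.adj a ha s has
      rwa [h4 has] at this
    · exact (hT a h1 h2).2
  have hd := hC.deg_le ha
  refine ⟨⟨haT, fun y hy => hd.trans (hx.2 y hy)⟩, ?_, fun y hy => hC.surj_of_deg ha (hx.2 a haT) hy⟩
  intro b hb hab
  have hbs : b ≠ s := by
    rintro rfl
    rcases hb with hb | hb
    · exact hTs hb.1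
    · exact h.sL hb
  have hφb : φ b ≠ s := by
    intro hφb
    rcases hT with hT | hT
    · refine hT.1 _ hx.1 ?_
      have := hC.adj a ha b hab
      rwa [hφb] at this
    · have has := (hT a h1 h2).1
      exact hbs (hC.nbr_eq ha hab ha has (hφb.trans (h4 has).symm))
  exact (h3 b hab hφb).1

/-- The end situation of the induction: all vertices outside `L ∪ {s}` are adjacent to `s`. -/
structure N2End (H : SimpleGraph W) (L : Set W) (s : W) : Prop extends N2Ctx H L s where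
  all : ∀ x, x ∉ L → x ≠ s → H.Adj x s

/-- **The induction**: it is enough to treat the cases R1 (all vertices outside `L ∪ {s}` are
adjacent to `s` and have the same degree) and R23. -/
theorem N2Ctx.cases [Finite W] {s : W} {Q : Prop}
    (hR1 : ∀ L : Set W, N2End H L s → (∀ x y, x ∉ L → x ≠ s → y ∉ L → y ≠ s →
      (H.neighborSet x).ncard = (H.neighborSet y).ncard) → Q)
    (hR23 : ∀ (L : Set W) (c : W), N2End H L s → c ∉ L → c ≠ s →
      (∀ x, x ∉ L → x ≠ s → x ≠ c → (H.neighborSet x).ncard < (H.neighborSet c).ncard) →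
      (∀ x y, x ∉ L → x ≠ s → x ≠ c → y ∉ L → y ≠ s → y ≠ c →
        (H.neighborSet x).ncard = (H.neighborSet y).ncard) →
      Rigid H {z | z ≠ s ∧ z ≠ c} →
      (∀ x y, x ≠ s → x ≠ c → y ≠ s → y ≠ c →
        (comp H {z | z ≠ s ∧ z ≠ c} x ∩ {z | z ∉ L ∧ z ≠ s ∧ z ≠ c}).ncard =
        (comp H {z | z ≠ s ∧ z ≠ c} y ∩ {z | z ∉ L ∧ z ≠ s ∧ z ≠ c}).ncard) → Q) :
    ∀ (n : ℕ) (L : Set W), Lᶜ.ncard ≤ n → N2Ctx H L s → Q := by
  intro n
  induction n with
  | zero =>
    intro L hn h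
    exfalso
    have h1 : Lᶜ = ∅ := by
      rw [← Set.ncard_eq_zero (Set.toFinite _)]
      omega
    have h2 : s ∈ Lᶜ := h.sL
    rw [h1] at h2
    exact h2
  | succ n ih =>
    intro L hn h
    -- one step of the induction
    have hnext : ∀ T : Set W, T.Nonempty → (∀ x ∈ T, x ∉ L) → s ∉ T →
        Rigid H (minDeg H T ∪ L) → (∃ n₁ n₂, n₁ ≠ n₂ ∧ n₁ ∉ minDeg H T ∪ L ∧
          n₂ ∉ minDeg H T ∪ L ∧ H.Adj s n₁ ∧ H.Adj s n₂) → Q := by
      intro T hT hTL hTs hrig htwo
      refine ih (minDeg H T ∪ L) ?_ ⟨h.c2, h.hδ, h.mc, hrig, ?_, ?_, htwo⟩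
      · obtain ⟨x, hx⟩ := minDeg_nonempty hT
        have h1 : (minDeg H T ∪ L)ᶜ ⊂ Lᶜ := by
          refine ⟨fun z hz hzL => hz (Or.inr hzL), fun hsub => ?_⟩
          exact (hsub (hTL x hx.1)) (Or.inl hx)
        have h2 := Set.ncard_lt_ncard h1 (Set.toFinite _)
        omega
      · rintro (hs | hs)
        · exact hTs hs.1
        · exact h.sL hs
      · intro a b hab ha hb
        exact h.star a b hab (fun h' => ha (Or.inr h')) (fun h' => hb (Or.inr h'))
    obtain ⟨n₁, n₂, hne, hn₁, hn₂, h₁, h₂⟩ := h.two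
    by_cases hY : ∃ y, y ∉ L ∧ y ≠ s ∧ ¬ H.Adj y s
    · -- phase 1
      let T : Set W := {y | y ∉ L ∧ y ≠ s ∧ ¬ H.Adj y s}
      have hTs : s ∉ T := fun hs => hs.2.1 rfl
      have hrig := h.phase (T := T) (fun x hx => hx.1) hTs
        (Or.inl ⟨fun x hx => hx.2.2, fun x h1 h2 h3 => ⟨h1, h2, h3⟩⟩)
      have hTne : T.Nonempty := hY
      have hM : (minDeg H T ∪ L).Nonempty := (minDeg_nonempty hTne).inl
      have hsM : s ∉ minDeg H T ∪ L := by
        rintro (hs | hs)
        · exact hTs hs.1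
        · exact h.sL hs
      have hnM : ∀ m, m ∉ L → H.Adj s m → m ∉ minDeg H T ∪ L := by
        rintro m hm hsm (hm' | hm')
        · exact hm'.1.2.2 hsm.symm
        · exact hm hm'
      obtain ⟨t, ht⟩ := h.mc _ (topSet_nonempty hM) hrig.isClosedSet
      have hts : t = s := by
        have e1 := ht s n₁ h₁ (fun h' => hsM h'.1) (fun h' => hnM n₁ hn₁ h₁ h'.1)
        have e2 := ht s n₂ h₂ (fun h' => hsM h'.1) (fun h' => hnM n₂ hn₂ h₂ h'.1)
        rcases e1 with e1 | e1
        · exact e1.symm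
        · rcases e2 with e2 | e2
          · exact e2.symm
          · exact absurd (e1.trans e2.symm) hne
      rw [topSet_eq h.hδ ht (hts ▸ hsM)] at hrig
      exact hnext T hTne (fun x hx => hx.1) hTs hrig
        ⟨n₁, n₂, hne, hnM n₁ hn₁ h₁, hnM n₂ hn₂ h₂, h₁, h₂⟩
    · push Not at hY
      have hend : N2End H L s := ⟨h, hY⟩
      -- phase 2
      let T : Set W := {y | y ∉ L ∧ y ≠ s}
      have hTs : s ∉ T := fun hs => hs.2 rfl
      have hrig := h.phase (T := T) (fun x hx => hx.1) hTs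
        (Or.inr (fun x h1 h2 => ⟨hY x h1 h2, h1, h2⟩))
      have hTne : T.Nonempty := ⟨n₁, hn₁, h₁.ne.symm⟩
      have hM : (minDeg H T ∪ L).Nonempty := (minDeg_nonempty hTne).inl
      have hsM : s ∉ minDeg H T ∪ L := by
        rintro (hs | hs)
        · exact hTs hs.1
        · exact h.sL hs
      by_cases hall : ∀ y ∈ T, y ∈ minDeg H T
      · refine hR1 L hend ?_
        intro x y hx hxs hy hys
        exact le_antisymm ((hall x ⟨hx, hxs⟩).2 y ⟨hy, hys⟩) ((hall y ⟨hy, hys⟩).2 x ⟨hx, hxs⟩)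
      · push Not at hall
        obtain ⟨c, hcT, hc⟩ := hall
        have hcM : ∀ c ∈ T, c ∉ minDeg H T → c ∉ minDeg H T ∪ L := by
          rintro c hc hc' (h' | h')
          · exact hc' h'
          · exact hc.1 h'
        obtain ⟨t, ht⟩ := h.mc _ (topSet_nonempty hM) hrig.isClosedSet
        have hsc : ∀ c ∈ T, H.Adj s c := fun c hc => (hY c hc.1 hc.2).symm
        by_cases hc2 : ∃ c', c' ∈ T ∧ c' ∉ minDeg H T ∧ c' ≠ c
        · obtain ⟨c', hc'T, hc', hcc⟩ := hc2
          have hts : t = s := by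
            have e1 := ht s c (hsc c hcT) (fun h' => hsM h'.1) (fun h' => hcM c hcT hc h'.1)
            have e2 := ht s c' (hsc c' hc'T) (fun h' => hsM h'.1) (fun h' => hcM c' hc'T hc' h'.1)
            rcases e1 with e1 | e1
            · exact e1.symm
            · rcases e2 with e2 | e2
              · exact e2.symm
              · exact absurd (e2.trans e1.symm) hcc
          rw [topSet_eq h.hδ ht (hts ▸ hsM)] at hrig
          exact hnext T hTne (fun x hx => hx.1) hTs hrig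
            ⟨c, c', hcc.symm, hcM c hcT hc, hcM c' hc'T hc', hsc c hcT, hsc c' hc'T⟩
        · push Not at hc2
          have htM : t ∉ minDeg H T ∪ L := by
            have e1 := ht s c (hsc c hcT) (fun h' => hsM h'.1) (fun h' => hcM c hcT hc h'.1)
            rcases e1 with e1 | e1
            · exact e1 ▸ hsM
            · exact e1 ▸ hcM c hcT hc
          have htop := topSet_eq h.hδ ht htM
          have hMeq : minDeg H T ∪ L = {z | z ≠ s ∧ z ≠ c} := by
            ext z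
            constructor
            · intro hz
              exact ⟨fun h' => hsM (h' ▸ hz), fun h' => hcM c hcT hc (h' ▸ hz)⟩
            · rintro ⟨hzs, hzc⟩
              by_cases hzL : z ∈ L
              · exact Or.inr hzL
              · left
                by_contra hcon
                exact hzc (hc2 z ⟨hzL, hzs⟩ hcon)
          have hXeq : minDeg H T = {z | z ∉ L ∧ z ≠ s ∧ z ≠ c} := by
            ext z
            constructor
            · intro hz
              have h1 : z ∈ minDeg H T ∪ L := Or.inl hz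
              rw [hMeq] at h1
              exact ⟨hz.1.1, h1.1, h1.2⟩
            · rintro ⟨hzL, hzs, hzc⟩
              have h1 : z ∈ minDeg H T ∪ L := by rw [hMeq]; exact ⟨hzs, hzc⟩
              exact h1.resolve_right hzL
          have hXm : ∀ x, x ∉ L → x ≠ s → x ≠ c → x ∈ minDeg H T := by
            intro x h1 h2 h3
            rw [hXeq]; exact ⟨h1, h2, h3⟩
          refine hR23 L c hend hcT.1 hcT.2 ?_ ?_ ?_ ?_
          · intro x hx hxs hxc
            by_contra hcon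
            exact hc ⟨hcT, fun y hy => (not_lt.1 hcon).trans ((hXm x hx hxs hxc).2 y hy)⟩
          · intro x y hx hxs hxc hy hys hyc
            exact le_antisymm ((hXm x hx hxs hxc).2 y ⟨hy, hys⟩)
              ((hXm y hy hys hyc).2 x ⟨hx, hxs⟩)
          · rw [htop, hMeq] at hrig
            exact hrig
          · intro x y hxs hxc hys hyc
            have hx : x ∈ topSet H (minDeg H T ∪ L) (minDeg H T) := by
              rw [htop, hMeq]; exact ⟨hxs, hxc⟩
            have hy : y ∈ topSet H (minDeg H T ∪ L) (minDeg H T) := by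
              rw [htop, hMeq]; exact ⟨hys, hyc⟩
            have h1 := hx.2 y hy.1
            have h2 := hy.2 x hx.1
            rw [hMeq, hXeq] at h1 h2
            exact le_antisymm h2 h1

end N2a

end Pool.Agent.StrongMax
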