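import Pool.Agent.Lib.StrongMax.N2a

/-!
# Lifting lemmas for the sets `hat A` (helper42, after helper9)
-/

namespace Pool.Agent.StrongMax

section N2b

variable {W : Type} {H : SimpleGraph W}

/-- `A` together with the pages (components of `H[L]`) with a boundary vertex in `A`. -/
def hat (H : SimpleGraph W) (L A : Set W) : Set W := A ∪ {y | y ∈ L ∧ ∃ x ∈ A, bdr H L y x}

/-- Two vertices outside `L ∪ {s}` are linked if they are boundary vertices of a common page. -/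
def Linked (H : SimpleGraph W) (L : Set W) (s m n : W) : Prop :=
  m ≠ n ∧ m ≠ s ∧ n ≠ s ∧ ∃ y ∈ L, bdr H L y m ∧ bdr H L y n

theorem Linked.symm {L : Set W} {s m n : W} (h : Linked H L s m n) : Linked H L s n m := by
  obtain ⟨h1, h2, h3, y, hy, h4, h5⟩ := h
  exact ⟨h1.symm, h3, h2, y, hy, h5, h4⟩

/-- There is a page with boundary in `{s, x}` at `x`. -/
def SPage (H : SimpleGraph W) (L : Set W) (s x : W) : Prop :=
  ∃ y ∈ L, bdr H L y x ∧ ∀ z, bdr H L y z → z = s ∨ z = x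

theorem bdr_of_adj {L : Set W} {y z : W} (h : H.Adj y z) (hz : z ∉ L) : bdr H L y z :=
  ⟨y, Lr.refl y, h, hz⟩

theorem hat_sat {L A : Set W} (hA : ∀ x ∈ A, x ∉ L) : ∀ x ∈ hat H L A, ∀ y ∈ L, H.Adj x y →
    y ∈ hat H L A := by
  rintro x (hx | ⟨hxL, z, hz, hxz⟩) y hy hxy
  · exact Or.inr ⟨hy, x, hx, bdr_of_adj hxy.symm (hA x hx)⟩
  · exact Or.inr ⟨hy, z, hz, (bdr_congr hxL (Lr.single hxy hy)).1 hxz⟩

/-- An embedding into `hat A`. -/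
structure LiftCtx (H : SimpleGraph W) (L : Set W) (s : W) (A C : Set W) (φ : W → W) : Prop where
  ctx : N2End H L s
  hA : ∀ x ∈ A, x ∉ L ∧ x ≠ s
  emb : PEmb H (hat H L A) C φ

variable {L : Set W} {s : W} {A C : Set W} {φ : W → W}

theorem LiftCtx.restr (h : LiftCtx H L s A C φ) : PEmb H L {a | a ∈ C ∧ φ a ∈ L} φ :=
  h.emb.restrict (hat_sat (fun x hx => (h.hA x hx).1))

theorem LiftCtx.mem_L (h : LiftCtx H L s A C φ) {a : W} (ha : a ∈ C) (haL : φ a ∈ L) : a ∈ L :=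
  h.ctx.rig.sub _ φ h.restr ⟨ha, haL⟩

theorem LiftCtx.nbr_L (h : LiftCtx H L s A C φ) {a b : W} (ha : a ∈ C) (haL : φ a ∈ L)
    (hb : b ∈ L) (hab : H.Adj a b) : b ∈ C ∧ φ b ∈ L :=
  h.ctx.rig.closed _ φ h.restr a ⟨ha, haL⟩ b hb hab

theorem LiftCtx.surj_L (h : LiftCtx H L s A C φ) {a y : W} (ha : a ∈ C) (haL : φ a ∈ L)
    (hy : H.Adj (φ a) y) : ∃ b, H.Adj a b ∧ φ b = y :=
  h.ctx.rig.surj _ φ h.restr a ⟨ha, haL⟩ y hy

theorem LiftCtx.mem_A (h : LiftCtx H L s A C φ) {a : W} (ha : a ∈ C) (haL : φ a ∉ L) : φ a ∈ A := by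
  rcases h.emb.mem a ha with h1 | h1
  · exact h1
  · exact absurd h1.1 haL

/-- Vertices mapped to `A`. -/
theorem LiftCtx.atA [Finite W] (h : LiftCtx H L s A C φ) {a : W} (ha : a ∈ C) (haL : φ a ∉ L) :
    a ∉ L ∧ a ≠ s ∧ φ s = s ∧ ∀ b, H.Adj a b → b ≠ s → b ∈ C ∧ φ b ∈ L ∧ b ∈ L := by
  have hφs : φ a ≠ s := (h.hA _ (h.mem_A ha haL)).2
  obtain ⟨h1, h2, h3, h4⟩ := h.ctx.toN2Ctx.step2 h.emb (hat_sat (fun x hx => (h.hA x hx).1)) ha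
    haL hφs
  have has := h.ctx.all a h1 h2
  refine ⟨h1, h2, h4 has, ?_⟩
  intro b hb hbs
  exact h3 b hb (fun hφb => hbs (h.emb.nbr_eq ha hb ha has (hφb.trans (h4 has).symm)))

/-- Lifting pages. -/
theorem LiftCtx.page (h : LiftCtx H L s A C φ) {a : W} (ha : a ∈ C) (haL : φ a ∈ L) {b : W}
    (hab : Lr H L a b) : b ∈ C ∧ φ b ∈ L ∧ Lr H L (φ a) (φ b) := by
  have key : b ∈ {b | b ∈ C ∧ φ b ∈ L ∧ Lr H L (φ a) (φ b)} := by
    refine hab.ind ⟨ha, haL, Lr.refl _⟩ ?_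
    rintro x ⟨hx, hxL, hax⟩ y hy hxy
    obtain ⟨h1, h2⟩ := h.nbr_L hx hxL hy hxy
    exact ⟨h1, h2, hax.tail (h.emb.adj x hx y hxy) h2⟩
  exact key

theorem LiftCtx.mem_C (h : LiftCtx H L s A C φ) {a b : W} (ha : a ∈ C) (hab : H.Adj a b)
    (hb : φ b ∈ hat H L A) : b ∈ C := by
  by_contra hcon
  exact h.emb.out a ha b hab hcon hb

theorem LiftCtx.mem_hat (h : LiftCtx H L s A C φ) {a b : W} (ha : a ∈ C) (hab : H.Adj a b)
    (hb : φ b ∈ L) : φ b ∈ hat H L A :=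
  hat_sat (fun x hx => (h.hA x hx).1) _ (h.emb.mem a ha) _ hb (h.emb.adj a ha b hab)

theorem LiftCtx.page_surj (h : LiftCtx H L s A C φ) {a : W} (ha : a ∈ C) (haL : φ a ∈ L) {y : W}
    (hy : Lr H L (φ a) y) : ∃ b, Lr H L a b ∧ φ b = y := by
  have key : y ∈ {y | ∃ b, Lr H L a b ∧ φ b = y} := by
    refine hy.ind ⟨a, Lr.refl _, rfl⟩ ?_
    rintro _ ⟨b, hb, rfl⟩ z hz hbz
    obtain ⟨hbC, hbL, -⟩ := h.page ha haL hb
    obtain ⟨b', hb', rfl⟩ := h.surj_L hbC hbL hbz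
    have h1 : b' ∈ C := h.mem_C hbC hb' (h.mem_hat hbC hb' hz)
    exact ⟨b', hb.tail hb' (h.mem_L h1 hz), rfl⟩
  exact key

theorem LiftCtx.bdr_map (h : LiftCtx H L s A C φ) {a : W} (ha : a ∈ C) (haL : φ a ∈ L) {z : W}
    (hz : bdr H L a z) : bdr H L (φ a) (φ z) := by
  obtain ⟨b, hb, hbz, hzL⟩ := hz
  obtain ⟨hbC, hbL, hab⟩ := h.page ha haL hb
  refine ⟨φ b, hab, h.emb.adj b hbC z hbz, fun hφz => hzL ?_⟩
  exact h.mem_L (h.mem_C hbC hbz (h.mem_hat hbC hbz hφz)) hφz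

theorem LiftCtx.bdr_surj (h : LiftCtx H L s A C φ) {a : W} (ha : a ∈ C) (haL : φ a ∈ L) {y : W}
    (hy : bdr H L (φ a) y) : ∃ z, bdr H L a z ∧ φ z = y := by
  obtain ⟨b', hb', hby, hyL⟩ := hy
  obtain ⟨b, hb, rfl⟩ := h.page_surj ha haL hb'
  obtain ⟨hbC, hbL, hab⟩ := h.page ha haL hb
  obtain ⟨z, hz, rfl⟩ := h.surj_L hbC hbL hby
  refine ⟨z, ⟨b, hb, hz, fun hzL => hyL ?_⟩, rfl⟩
  exact (h.nbr_L hbC hbL hzL hz).2

/-- Members of the domain of injectivity. -/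
def InDom (H : SimpleGraph W) (C : Set W) (z : W) : Prop := z ∈ C ∨ ∃ a ∈ C, H.Adj a z

theorem LiftCtx.inj (h : LiftCtx H L s A C φ) {x y : W} (hx : InDom H C x) (hy : InDom H C y)
    (he : φ x = φ y) : x = y := h.emb.inj hx hy he

theorem LiftCtx.dom_bdr (h : LiftCtx H L s A C φ) {a : W} (ha : a ∈ C) (haL : φ a ∈ L) {z : W}
    (hz : bdr H L a z) : InDom H C z := by
  obtain ⟨b, hb, hbz, -⟩ := hz
  exact Or.inr ⟨b, (h.page ha haL hb).1, hbz⟩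

theorem LiftCtx.dom_s [Finite W] (h : LiftCtx H L s A C φ) {a : W} (ha : a ∈ C) (haL : φ a ∉ L) :
    InDom H C s := by
  obtain ⟨h1, h2, -, -⟩ := h.atA ha haL
  exact Or.inr ⟨a, ha, h.ctx.all a h1 h2⟩

/-- Each page in `C` has a boundary vertex which is mapped to `A`. -/
theorem LiftCtx.exists_atA (h : LiftCtx H L s A C φ) {a : W} (ha : a ∈ C) (haL : φ a ∈ L) :
    ∃ u ∈ C, φ u ∈ A ∧ bdr H L a u := by
  rcases h.emb.mem a ha with h1 | ⟨-, x, hx, hax⟩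
  · exact absurd haL (h.hA _ h1).1
  · obtain ⟨z, hz, rfl⟩ := h.bdr_surj ha haL hax
    obtain ⟨b, hb, hbz, hzL⟩ := id hz
    obtain ⟨hbC, hbL, hab⟩ := h.page ha haL hb
    exact ⟨z, h.mem_C hbC hbz (Or.inl hx), hx, hz⟩

/-- If all vertices mapped to `A` are in `A` then `C ⊆ hat A`. -/
theorem LiftCtx.subset (h : LiftCtx H L s A C φ) (hU : ∀ u ∈ C, φ u ∈ A → u ∈ A) :
    C ⊆ hat H L A := by
  intro a ha
  by_cases haL : φ a ∈ L
  · obtain ⟨u, hu, huA, hau⟩ := h.exists_atA ha haL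
    exact Or.inr ⟨h.mem_L ha haL, u, hU u hu huA, hau⟩
  · exact Or.inl (hU a ha (h.mem_A ha haL))

variable [Finite W]

/-- A page at `u` (with `φ u ∈ A`) is in `C`. -/
theorem LiftCtx.page_at (h : LiftCtx H L s A C φ) {u : W} (hu : u ∈ C) (huL : φ u ∉ L) {y : W}
    (hy : y ∈ L) (hyu : bdr H L y u) : y ∈ C ∧ φ y ∈ L := by
  obtain ⟨h1, h2, h3, h4⟩ := h.atA hu huL
  obtain ⟨b, hb, hbu, -⟩ := hyu
  have hbL : b ∈ L := hb.mem hy
  obtain ⟨hbC, hφb, -⟩ := h4 b hbu.symm (fun h' => h.ctx.sL (h' ▸ hbL))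
  have h5 := h.page hbC hφb (hb.symm hy)
  exact ⟨h5.1, h5.2.1⟩

theorem LiftCtx.linked_map (h : LiftCtx H L s A C φ) {u m : W} (hu : u ∈ C) (huL : φ u ∉ L)
    (hm : Linked H L s u m) : Linked H L s (φ u) (φ m) ∧ InDom H C m := by
  obtain ⟨h1, h2, h3, y, hy, hyu, hym⟩ := hm
  obtain ⟨hyC, hφy⟩ := h.page_at hu huL hy hyu
  have hd := h.dom_bdr hyC hφy hym
  have hds := h.dom_s hu huL
  have hφs := (h.atA hu huL).2.2.1
  refine ⟨⟨fun he => h1 (h.inj (Or.inl hu) hd he), fun he => ?_, fun he => ?_, φ y, hφy,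
    h.bdr_map hyC hφy hyu, h.bdr_map hyC hφy hym⟩, hd⟩
  · exact h2 (h.inj (Or.inl hu) hds (he.trans hφs.symm))
  · exact h3 (h.inj hd hds (he.trans hφs.symm))

/-- Pages at `φ u` come from pages at `u`. -/
theorem LiftCtx.page_back (h : LiftCtx H L s A C φ) {u : W} (hu : u ∈ C) (huL : φ u ∉ L)
    (hsurj : ∀ y, H.Adj (φ u) y → ∃ b, H.Adj u b ∧ φ b = y) {y' : W} (hy' : y' ∈ L)
    (hyu : bdr H L y' (φ u)) : ∃ b, b ∈ C ∧ b ∈ L ∧ φ b ∈ L ∧ bdr H L b u ∧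
      Lr H L y' (φ b) := by
  obtain ⟨h1, h2, h3, h4⟩ := h.atA hu huL
  obtain ⟨y'', hy'', hyu'', -⟩ := hyu
  obtain ⟨b, hb, rfl⟩ := hsurj y'' hyu''.symm
  have hbL : φ b ∈ L := hy''.mem hy'
  have hbs : b ≠ s := by
    rintro rfl
    rw [h3] at hbL
    exact h.ctx.sL hbL
  obtain ⟨hbC, -, hbL'⟩ := h4 b hb hbs
  exact ⟨b, hbC, hbL', hbL, bdr_of_adj hb.symm h1, hy''⟩

theorem LiftCtx.linked_back (h : LiftCtx H L s A C φ) {u m' : W} (hu : u ∈ C) (huL : φ u ∉ L)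
    (hsurj : ∀ y, H.Adj (φ u) y → ∃ b, H.Adj u b ∧ φ b = y) (hm : Linked H L s (φ u) m') :
    ∃ m, Linked H L s u m ∧ φ m = m' := by
  obtain ⟨h1, h2, h3, y', hy', hyu, hym⟩ := hm
  obtain ⟨b, hbC, hbL, hφb, hbu, hyb⟩ := h.page_back hu huL hsurj hy' hyu
  obtain ⟨m, hm, rfl⟩ := h.bdr_surj hbC hφb ((bdr_congr hy' hyb).1 hym)
  obtain ⟨h5, h6, h7, -⟩ := h.atA hu huL
  refine ⟨m, ⟨fun he => h1 (by rw [he]), h6, fun he => h3 ?_, b, hbL, hbu, hm⟩, rfl⟩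
  rw [he, h7]

theorem LiftCtx.spage_map (h : LiftCtx H L s A C φ) {u : W} (hu : u ∈ C) (huL : φ u ∉ L)
    (hm : SPage H L s u) : SPage H L s (φ u) := by
  obtain ⟨y, hy, hyu, hall⟩ := hm
  obtain ⟨hyC, hφy⟩ := h.page_at hu huL hy hyu
  refine ⟨φ y, hφy, h.bdr_map hyC hφy hyu, ?_⟩
  intro z' hz'
  obtain ⟨z, hz, rfl⟩ := h.bdr_surj hyC hφy hz'
  rcases hall z hz with h1 | h1
  · left; rw [h1]; exact (h.atA hu huL).2.2.1
  · right; rw [h1]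

theorem LiftCtx.spage_back (h : LiftCtx H L s A C φ) {u : W} (hu : u ∈ C) (huL : φ u ∉ L)
    (hsurj : ∀ y, H.Adj (φ u) y → ∃ b, H.Adj u b ∧ φ b = y) (hm : SPage H L s (φ u)) :
    SPage H L s u := by
  obtain ⟨y', hy', hyu, hall⟩ := hm
  obtain ⟨b, hbC, hbL, hφb, hbu, hyb⟩ := h.page_back hu huL hsurj hy' hyu
  refine ⟨b, hbL, hbu, ?_⟩
  intro z hz
  rcases hall (φ z) ((bdr_congr hy' hyb).2 (h.bdr_map hbC hφb hz)) with h1 | h1
  · left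
    exact h.inj (h.dom_bdr hbC hφb hz) (h.dom_s hu huL) (h1.trans (h.atA hu huL).2.2.1.symm)
  · right
    exact h.inj (h.dom_bdr hbC hφb hz) (Or.inl hu) h1

/-- If `A` consists of vertices of minimal degree then `φ` is locally surjective at the vertices
mapped to `A`, and these have minimal degree. -/
theorem LiftCtx.min_surj (h : LiftCtx H L s A C φ)
    (hmin : ∀ x ∈ A, ∀ y, y ∉ L → y ≠ s → (H.neighborSet x).ncard ≤ (H.neighborSet y).ncard)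
    {u : W} (hu : u ∈ C) (huL : φ u ∉ L) :
    (∀ y, H.Adj (φ u) y → ∃ b, H.Adj u b ∧ φ b = y) ∧
      (H.neighborSet u).ncard ≤ (H.neighborSet (φ u)).ncard := by
  obtain ⟨h1, h2, h3, h4⟩ := h.atA hu huL
  have h5 := hmin (φ u) (h.mem_A hu huL) u h1 h2
  exact ⟨fun y hy => h.emb.surj_of_deg hu h5 hy, h.emb.deg_le hu⟩

end N2b

end Pool.Agent.StrongMax
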