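import Pool.Agent.Lib.StrongMax.N2b

/-!
# Facts in the case R23 (helper42, after helper9)
-/

namespace Pool.Agent.StrongMax

section N2c

variable {W : Type} {H : SimpleGraph W}

/-- The case R23. -/
structure R23 (H : SimpleGraph W) (L : Set W) (s c : W) : Prop extends N2End H L s where
  cL : c ∉ L
  cs : c ≠ s
  lt : ∀ x, x ∉ L → x ≠ s → x ≠ c → (H.neighborSet x).ncard < (H.neighborSet c).ncard
  eq : ∀ x y, x ∉ L → x ≠ s → x ≠ c → y ∉ L → y ≠ s → y ≠ c →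
    (H.neighborSet x).ncard = (H.neighborSet y).ncard
  rigM : Rigid H {z | z ≠ s ∧ z ≠ c}
  cnt : ∀ x y, x ≠ s → x ≠ c → y ≠ s → y ≠ c →
    (comp H {z | z ≠ s ∧ z ≠ c} x ∩ {z | z ∉ L ∧ z ≠ s ∧ z ≠ c}).ncard =
    (comp H {z | z ≠ s ∧ z ≠ c} y ∩ {z | z ∉ L ∧ z ≠ s ∧ z ≠ c}).ncard

theorem bdr_notMem {L : Set W} {y z : W} (h : bdr H L y z) : z ∉ L := by
  obtain ⟨_, _, _, h⟩ := h
  exact h

theorem star_absurd {S : Set W} {t a b c d : W} (ht : Star H S t) (hab : H.Adj a b)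
    (ha : a ∉ S) (hb : b ∉ S) (hcd : H.Adj c d) (hc : c ∉ S) (hd : d ∉ S) (h1 : a ≠ c)
    (h2 : a ≠ d) (h3 : b ≠ c) (h4 : b ≠ d) : False := by
  rcases ht a b hab ha hb with h | h <;> rcases ht c d hcd hc hd with h' | h'
  · exact h1 (h.trans h'.symm)
  · exact h2 (h.trans h'.symm)
  · exact h3 (h.trans h'.symm)
  · exact h4 (h.trans h'.symm)

variable {L : Set W} {s c : W}

theorem R23.LM (h : R23 H L s c) {y : W} (hy : y ∈ L) : y ≠ s ∧ y ≠ c :=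
  ⟨fun h' => h.sL (h' ▸ hy), fun h' => h.cL (h' ▸ hy)⟩

theorem R23.exists_X (h : R23 H L s c) : ∃ x, x ∉ L ∧ x ≠ s ∧ x ≠ c := by
  obtain ⟨n₁, n₂, hne, hn₁, hn₂, h₁, h₂⟩ := h.two
  by_cases hc : n₁ = c
  · exact ⟨n₂, hn₂, h₂.ne.symm, fun h' => hne (hc.trans h'.symm)⟩
  · exact ⟨n₁, hn₁, h₁.ne.symm, hc⟩

theorem R23.scAdj (h : R23 H L s c) : H.Adj s c := (h.all c h.cL h.cs).symm

/-- **F0**: every page has a boundary vertex in `X`. -/
theorem R23.f0 [Finite W] (h : R23 H L s c) {y : W} (hy : y ∈ L) :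
    ∃ x, x ∉ L ∧ x ≠ s ∧ x ≠ c ∧ bdr H L y x := by
  by_contra hcon
  push Not at hcon
  obtain ⟨x, hx, hxs, hxc⟩ := h.exists_X
  have h1 := h.cnt x y hxs hxc (h.LM hy).1 (h.LM hy).2
  have h2 : comp H {z | z ≠ s ∧ z ≠ c} y ∩ {z | z ∉ L ∧ z ≠ s ∧ z ≠ c} = ∅ := by
    rw [Set.eq_empty_iff_forall_notMem]
    rintro z ⟨hz, hzL, -⟩
    have key : z ∈ {z | z ∈ L ∧ Lr H L y z} := by
      refine Lr.ind (M := {z | z ≠ s ∧ z ≠ c}) hz ⟨hy, Lr.refl y⟩ ?_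
      rintro a ⟨haL, hya⟩ b ⟨hbs, hbc⟩ hab
      have hbL : b ∈ L := by
        by_contra hbL
        exact hcon b hbL hbs hbc ⟨a, hya, hab, hbL⟩
      exact ⟨hbL, hya.tail hab hbL⟩
    exact hzL key.1
  rw [h2, Set.ncard_empty, Set.ncard_eq_zero (Set.toFinite _)] at h1
  have h3 : x ∈ comp H {z | z ≠ s ∧ z ≠ c} x ∩ {z | z ∉ L ∧ z ≠ s ∧ z ≠ c} :=
    ⟨Lr.refl x, hx, hxs, hxc⟩
  rw [h1] at h3
  exact h3

theorem R23.min (h : R23 H L s c) {x y : W} (hx : x ∉ L) (hxs : x ≠ s) (hxc : x ≠ c)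
    (hy : y ∉ L) (hys : y ≠ s) : (H.neighborSet x).ncard ≤ (H.neighborSet y).ncard := by
  by_cases hyc : y = c
  · rw [hyc]; exact (h.lt x hx hxs hxc).le
  · exact (h.eq x y hx hxs hxc hy hys hyc).le

/-- A criterion for `hat A` to be closed. -/
theorem R23.closed_hat [Finite W] (h : R23 H L s c) {A : Set W}
    (hA : ∀ x ∈ A, x ∉ L ∧ x ≠ s ∧ x ≠ c)
    (hstep : ∀ C φ, LiftCtx H L s A C φ → ∀ u ∈ C, φ u ∈ A → u ∉ L → u ≠ s → u ≠ c →
      (∀ y, H.Adj (φ u) y → ∃ b, H.Adj u b ∧ φ b = y) → u ∈ A) : IsClosedSet H (hat H L A) := by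
  intro C φ hC
  have hl : LiftCtx H L s A C φ := ⟨h.toN2End, fun x hx => ⟨(hA x hx).1, (hA x hx).2.1⟩, hC⟩
  refine hl.subset ?_
  intro u hu huA
  obtain ⟨h1, h2, h3⟩ := hA _ huA
  obtain ⟨h4, h5, -, -⟩ := hl.atA hu h1
  obtain ⟨h6, h7⟩ := hl.min_surj (fun x hx y hy hys => h.min (hA x hx).1 (hA x hx).2.1
    (hA x hx).2.2 hy hys) hu h1
  refine hstep C φ hl u hu huA h4 h5 (fun huc => ?_) h6
  have h8 := h.lt _ h1 h2 h3
  rw [← huc] at h8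
  omega

/-- **F1**: if `|X| ≥ 2` there is no page attached only to `s` and one vertex of `X`. -/
theorem R23.f1 [Finite W] (h : R23 H L s c) (hX : ∀ x, ∃ x', x' ∉ L ∧ x' ≠ s ∧ x' ≠ c ∧ x' ≠ x)
    {x : W} (hx : x ∉ L) (hxs : x ≠ s) (hxc : x ≠ c) : ¬ SPage H L s x := by
  intro hxP
  obtain ⟨y₀, hy₀, ⟨y, hy, hyx, -⟩, hall⟩ := id hxP
  have hyL : y ∈ L := hy.mem hy₀
  have hally : ∀ z, bdr H L y z → z = s ∨ z = x := fun z hz => hall z ((bdr_congr hy₀ hy).2 hz)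
  -- first closed set
  let A : Set W := {x | x ∉ L ∧ x ≠ s ∧ x ≠ c ∧ ¬ SPage H L s x}
  have hAcl : IsClosedSet H (hat H L A) := by
    refine h.closed_hat (fun x hx => ⟨hx.1, hx.2.1, hx.2.2.1⟩) ?_
    intro C φ hl u hu huA huL hus huc _
    exact ⟨huL, hus, huc, fun hP => huA.2.2.2 (hl.spage_map hu huA.1 hP)⟩
  have hcH : ∀ A : Set W, c ∉ A → c ∉ hat H L A := by
    rintro A hcA (h' | h')
    · exact hcA h'
    · exact h.cL h'.1
  have hsH : ∀ A : Set W, s ∉ A → s ∉ hat H L A := by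
    rintro A hcA (h' | h')
    · exact hcA h'
    · exact h.sL h'.1
  have hys := h.LM hyL
  have hA0 : ∀ x, x ∉ L → x ≠ s → x ≠ c → SPage H L s x := by
    intro x₁ hx₁ hx₁s hx₁c
    by_contra hP
    obtain ⟨t, ht⟩ := h.mc _ ⟨x₁, Or.inl ⟨hx₁, hx₁s, hx₁c, hP⟩⟩ hAcl
    refine star_absurd ht h.scAdj (hsH A (fun h' => h'.2.1 rfl)) (hcH A (fun h' => h'.2.2.1 rfl))
      hyx.symm ?_ ?_ hxs.symm hys.1.symm hxc.symm hys.2.symm
    · rintro (h' | h')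
      · exact h'.2.2.2 hxP
      · exact hx h'.1
    · rintro (h' | ⟨-, z, hz, hyz⟩)
      · exact h'.1 hyL
      · rcases hally z hyz with h' | h'
        · exact hz.2.1 h'
        · exact hz.2.2.2 (h' ▸ hxP)
  -- second closed set
  have hccl : IsClosedSet H (hat H L {c}) := by
    intro C φ hC
    have hl : LiftCtx H L s {c} C φ :=
      ⟨h.toN2End, fun x hx => by rw [Set.mem_singleton_iff.1 hx]; exact ⟨h.cL, h.cs⟩, hC⟩
    refine hl.subset ?_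
    intro u hu huA
    have huA' : φ u = c := huA
    have huL : φ u ∉ L := by rw [huA']; exact h.cL
    obtain ⟨h1, h2, -, -⟩ := hl.atA hu huL
    by_contra huc
    have h3 := hl.spage_map hu huL (hA0 u h1 h2 (fun h' => huc h'))
    rw [huA'] at h3
    obtain ⟨y', hy', -, hall'⟩ := h3
    obtain ⟨z, -, hzs, hzc, hz⟩ := h.f0 hy'
    rcases hall' z hz with h' | h'
    · exact hzs h'
    · exact hzc h'
  obtain ⟨x', hx', hx's, hx'c, hx'x⟩ := hX x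
  obtain ⟨t, ht⟩ := h.mc _ ⟨c, Or.inl rfl⟩ hccl
  refine star_absurd ht (h.all x' hx' hx's).symm (hsH {c} (fun h' => h.cs h'.symm)) ?_ hyx.symm
    ?_ ?_ hxs.symm hys.1.symm hx'x (fun h' => hx' (h' ▸ hyL))
  · rintro (h' | h')
    · exact hx'c h'
    · exact hx' h'.1
  · rintro (h' | h')
    · exact hxc h'
    · exact hx h'.1
  · rintro (h' | ⟨-, z, hz, hyz⟩)
    · exact hys.2 h'
    · rcases hally z hyz with h' | h'
      · exact h.cs ((Set.mem_singleton_iff.1 hz).symm.trans h')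
      · exact hxc ((h'.symm.trans (Set.mem_singleton_iff.1 hz)))

/-- **F1'**: the boundary of a page, minus `s`, has at least two vertices. -/
theorem R23.f1' [Finite W] (h : R23 H L s c)
    (hX : ∀ x, ∃ x', x' ∉ L ∧ x' ≠ s ∧ x' ≠ c ∧ x' ≠ x) {y : W} (hy : y ∈ L) (n : W) :
    ∃ m, bdr H L y m ∧ m ≠ s ∧ m ≠ n := by
  by_contra hcon
  push Not at hcon
  obtain ⟨x, hx, hxs, hxc, hyx⟩ := h.f0 hy
  have hxn := hcon x hyx hxs
  refine h.f1 hX hx hxs hxc ⟨y, hy, hyx, fun z hz => ?_⟩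
  by_cases hzs : z = s
  · exact Or.inl hzs
  · exact Or.inr ((hcon z hz hzs).trans hxn.symm)

/-- `c` has a neighbour in `L`. -/
theorem R23.c_nbr [Finite W] (h : R23 H L s c) : ∃ b ∈ L, H.Adj c b := by
  obtain ⟨b, hb, hbs⟩ := exists_nbr_ne (h.hδ c) s
  exact ⟨b, (h.nbr h.cL h.cs hb).resolve_right hbs, hb⟩

/-- **F3**: if all components have at least two vertices of `X` then each vertex of `X` is linked
to at least two vertices. -/
theorem R23.f3 [Finite W] (h : R23 H L s c)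
    (hq : ∀ x, x ∉ L → x ≠ s → x ≠ c → ∃ x', x' ∉ L ∧ x' ≠ x ∧ Lr H {z | z ≠ s ∧ z ≠ c} x x')
    {x : W} (hx : x ∉ L) (hxs : x ≠ s) (hxc : x ≠ c) :
    ∃ m m', m ≠ m' ∧ Linked H L s x m ∧ Linked H L s x m' := by
  by_contra hcon
  let A : Set W := {x | x ∉ L ∧ x ≠ s ∧ x ≠ c ∧
    ∀ m m', Linked H L s x m → Linked H L s x m' → m = m'}
  have hxA : x ∈ A := by
    refine ⟨hx, hxs, hxc, fun m m' hm hm' => ?_⟩
    by_contra hne
    exact hcon ⟨m, m', hne, hm, hm'⟩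
  have hAcl : IsClosedSet H (hat H L A) := by
    refine h.closed_hat (fun x hx => ⟨hx.1, hx.2.1, hx.2.2.1⟩) ?_
    intro C φ hl u hu huA huL hus huc _
    refine ⟨huL, hus, huc, fun m m' hm hm' => ?_⟩
    obtain ⟨h1, h2⟩ := hl.linked_map hu huA.1 hm
    obtain ⟨h3, h4⟩ := hl.linked_map hu huA.1 hm'
    exact hl.inj h2 h4 (huA.2.2.2 _ _ h1 h3)
  -- no vertex of `A` is linked to `c`
  have hAc : ∀ x ∈ A, ¬ Linked H L s x c := by
    rintro x ⟨hx, hxs, hxc, huniq⟩ hxl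
    obtain ⟨x', hx', hne, hr⟩ := hq x hx hxs hxc
    have key : x' ∈ {z | z = x ∨ (z ∈ L ∧ bdr H L z x)} := by
      refine hr.ind (Or.inl rfl) ?_
      rintro a ha b ⟨hbs, hbc⟩ hab
      rcases ha with rfl | ⟨haL, hax⟩
      · have hbL : b ∈ L := (h.nbr hx hxs hab).resolve_right hbs
        exact Or.inr ⟨hbL, bdr_of_adj hab.symm hx⟩
      · by_cases hbL : b ∈ L
        · exact Or.inr ⟨hbL, (bdr_congr haL (Lr.single hab hbL)).1 hax⟩
        · by_cases hbx : b = x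
          · exact Or.inl hbx
          · exact absurd (huniq b c ⟨fun h' => hbx h'.symm, hxs, hbs, a, haL, hax,
              bdr_of_adj hab hbL⟩ hxl) hbc
    rcases key with h1 | h1
    · exact hne h1
    · exact hx' h1.1
  obtain ⟨b, hbL, hcb⟩ := h.c_nbr
  obtain ⟨x₁, hx₁, hx₁s, hx₁c, hbx₁⟩ := h.f0 hbL
  have hbc : bdr H L b c := bdr_of_adj hcb.symm h.cL
  have hx₁A : x₁ ∉ A := fun h' => hAc x₁ h' ⟨hx₁c, hx₁s, h.cs, b, hbL, hbx₁, hbc⟩
  obtain ⟨t, ht⟩ := h.mc _ ⟨x, Or.inl hxA⟩ hAcl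
  refine star_absurd ht (h.all x₁ hx₁ hx₁s).symm ?_ ?_ hcb ?_ ?_ h.cs.symm (h.LM hbL).1.symm
    hx₁c (fun h' => hx₁ (h' ▸ hbL))
  · rintro (h' | h')
    · exact h'.2.1 rfl
    · exact h.sL h'.1
  · rintro (h' | h')
    · exact hx₁A h'
    · exact hx₁ h'.1
  · rintro (h' | h')
    · exact h'.2.2.1 rfl
    · exact h.cL h'.1
  · rintro (h' | ⟨-, z, hz, hbz⟩)
    · exact h'.1 hbL
    · exact hAc z hz ⟨hz.2.2.1, hz.2.1, h.cs, b, hbL, hbz, hbc⟩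

/-- **F4**: if all components have at least two vertices of `X` then some component has two
vertices of `X` linked to `c`. -/
theorem R23.f4 [Finite W] (h : R23 H L s c)
    (hq : ∀ x, x ∉ L → x ≠ s → x ≠ c → ∃ x', x' ∉ L ∧ x' ≠ x ∧ Lr H {z | z ≠ s ∧ z ≠ c} x x') :
    ∃ x x', x ≠ x' ∧ x ∉ L ∧ x' ∉ L ∧ Lr H {z | z ≠ s ∧ z ≠ c} x x' ∧ Linked H L s x c ∧
      Linked H L s x' c := by
  by_contra hno
  have hno' : ∀ x x', x ∉ L → x' ∉ L → Lr H {z | z ≠ s ∧ z ≠ c} x x' → Linked H L s x c →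
      Linked H L s x' c → x = x' := by
    intro x x' h1 h2 h3 h4 h5
    by_contra hne
    exact hno ⟨x, x', hne, h1, h2, h3, h4, h5⟩
  let A : Set W := {x | x ∉ L ∧ x ≠ s ∧ x ≠ c ∧ ¬ Linked H L s x c}
  have hAM : ∀ z ∈ hat H L A, z ≠ s ∧ z ≠ c := by
    rintro z (hz | hz)
    · exact ⟨hz.2.1, hz.2.2.1⟩
    · exact h.LM hz.1
  obtain ⟨b, hbL, hcb⟩ := h.c_nbr
  obtain ⟨x₁, hx₁, hx₁s, hx₁c, hbx₁⟩ := h.f0 hbL
  have hbc : bdr H L b c := bdr_of_adj hcb.symm h.cL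
  have hx₁l : Linked H L s x₁ c := ⟨hx₁c, hx₁s, h.cs, b, hbL, hbx₁, hbc⟩
  have hAne : A.Nonempty := by
    obtain ⟨x', hx', hne, hr⟩ := hq x₁ hx₁ hx₁s hx₁c
    have hx'M : x' ≠ s ∧ x' ≠ c := hr.mem (M := {z | z ≠ s ∧ z ≠ c}) ⟨hx₁s, hx₁c⟩
    exact ⟨x', hx', hx'M.1, hx'M.2, fun hl => hne (hno' x₁ x' hx₁ hx' hr hx₁l hl).symm⟩
  have hAcl : IsClosedSet H (hat H L A) := by
    refine h.closed_hat (fun x hx => ⟨hx.1, hx.2.1, hx.2.2.1⟩) ?_
    intro C φ hl u hu huA huL hus huc _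
    refine ⟨huL, hus, huc, fun hlc => ?_⟩
    obtain ⟨h1, hcD⟩ := hl.linked_map hu huA.1 hlc
    obtain ⟨-, -, hφs, -⟩ := hl.atA hu huA.1
    have hsD := hl.dom_s hu huA.1
    -- `c ∉ C`
    have hcC : c ∉ C := by
      intro hcC
      have h2 : φ c ∉ L := by
        intro h2
        exact h.cL (hl.mem_L hcC h2)
      have h3 := hl.mem_A hcC h2
      have h4 := (hl.min_surj (fun x hx y hy hys => h.min hx.1 hx.2.1 hx.2.2.1 hy hys) hcC h2).2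
      have h5 := h.lt _ h3.1 h3.2.1 h3.2.2.1
      omega
    obtain ⟨hne, hφus, hφcs, y', hy', hyu', hyc'⟩ := id h1
    have hφcL : φ c ∉ L := bdr_notMem hyc'
    -- vertices outside `C` adjacent to a vertex of `C` mapped to `L`
    have hstep : ∀ z ∈ C, φ z ∈ L → Lr H {z | z ≠ s ∧ z ≠ c} (φ u) (φ z) →
        ∀ w, H.Adj z w → w ∉ L → w ≠ s → w ∉ C → Linked H L s (φ w) c ∧
          Lr H {z | z ≠ s ∧ z ≠ c} (φ u) (φ w) := by
      intro z hz hzL hr w hzw hwL hws hwC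
      have hd : InDom H C w := Or.inr ⟨z, hz, hzw⟩
      have h2 : bdr H L (φ z) (φ w) := hl.bdr_map hz hzL (bdr_of_adj hzw hwL)
      have h3 : φ w ∉ A := fun h' => hwC (hl.mem_C hz hzw (Or.inl h'))
      have h4 : φ w ∉ L := bdr_notMem h2
      have h5 : φ w ≠ s := fun h' => hws (hl.inj hd hsD (h'.trans hφs.symm))
      obtain ⟨u', hu', hu'A, hzu'⟩ := hl.exists_atA hz hzL
      have h6 := hl.bdr_map hz hzL hzu'
      have h7 : φ w ≠ c := by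
        intro h7
        rw [h7] at h2
        exact hu'A.2.2.2 ⟨hu'A.2.2.1, hu'A.2.1, h.cs, φ z, hzL, h6, h2⟩
      refine ⟨?_, hr.tail (hl.emb.adj z hz w hzw) ⟨h5, h7⟩⟩
      by_contra h8
      exact h3 ⟨h4, h5, h7, h8⟩
    -- the vertex `c`
    have hφc : Linked H L s (φ c) c ∧ Lr H {z | z ≠ s ∧ z ≠ c} (φ u) (φ c) := by
      obtain ⟨-, -, -, y, hy, hyu, hyc⟩ := hlc
      obtain ⟨hyC, hφy⟩ := hl.page_at hu huA.1 hy hyu
      obtain ⟨y₂, hy₂, hy₂c, -⟩ := hyc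
      obtain ⟨hy₂C, hφy₂, hr⟩ := hl.page hyC hφy hy₂
      refine hstep y₂ hy₂C hφy₂ ?_ c hy₂c h.cL h.cs hcC
      have e1 : Lr H {z | z ≠ s ∧ z ≠ c} (φ y) (φ u) := by
        obtain ⟨w, hw, hwu, -⟩ := hl.bdr_map hyC hφy hyu
        exact (hw.mono (fun z hz => h.LM hz)).tail hwu ⟨huA.2.1, huA.2.2.1⟩
      exact (e1.symm (h.LM hφy)).trans (hr.mono (fun z hz => h.LM hz))
    -- the component of `u` is in `C`
    have hall : ∀ z, Lr H {z | z ≠ s ∧ z ≠ c} u z → z ∈ C ∧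
        Lr H {z | z ≠ s ∧ z ≠ c} (φ u) (φ z) := by
      intro z hz
      have key : z ∈ {z | z ∈ C ∧ Lr H {z | z ≠ s ∧ z ≠ c} (φ u) (φ z)} := by
        refine hz.ind ⟨hu, Lr.refl _⟩ ?_
        rintro a ⟨haC, har⟩ w ⟨hws, hwc⟩ haw
        have hwC : w ∈ C := by
          by_cases haL : φ a ∈ L
          · by_cases hwL : w ∈ L
            · exact (hl.nbr_L haC haL hwL haw).1
            · by_contra hwC
              obtain ⟨h2, h3⟩ := hstep a haC haL har w haw hwL hws hwC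
              have h4 : φ w ∉ L := bdr_notMem (hl.bdr_map haC haL (bdr_of_adj haw hwL))
              have h5 : Lr H {z | z ≠ s ∧ z ≠ c} (φ w) (φ c) :=
                (h3.symm ⟨huA.2.1, huA.2.2.1⟩).trans hφc.2
              have h6 := hno' (φ w) (φ c) h4 hφcL h5 h2 hφc.1
              exact hwc (hl.inj (Or.inr ⟨a, haC, haw⟩) hcD h6)
          · exact ((hl.atA haC haL).2.2.2 w haw hws).1
        have h2 := hAM _ (hl.emb.mem w hwC)
        exact ⟨hwC, har.tail (hl.emb.adj a haC w haw) h2⟩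
      exact key
    -- counting
    have hcnt := h.cnt u (φ u) hus huc huA.2.1 huA.2.2.1
    have h2 : (comp H {z | z ≠ s ∧ z ≠ c} u ∩ {z | z ∉ L ∧ z ≠ s ∧ z ≠ c}).ncard ≤
        ((comp H {z | z ≠ s ∧ z ≠ c} (φ u) ∩ {z | z ∉ L ∧ z ≠ s ∧ z ≠ c}) \ {φ c}).ncard := by
      refine Set.ncard_le_ncard_of_injOn φ ?_ ?_ (Set.toFinite _)
      · rintro z ⟨hz, hzL, -⟩
        obtain ⟨hzC, hzr⟩ := hall z hz
        have h3 : φ z ∉ L := fun h3 => hzL (hl.mem_L hzC h3)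
        have h4 := hl.mem_A hzC h3
        refine ⟨⟨hzr, h3, h4.2.1, h4.2.2.1⟩, fun h5 => ?_⟩
        rw [Set.mem_singleton_iff] at h5
        rw [h5] at h4
        exact h4.2.2.2 hφc.1
      · rintro z ⟨hz, -⟩ z' ⟨hz', -⟩ he
        exact hl.inj (Or.inl (hall z hz).1) (Or.inl (hall z' hz').1) he
    have h3 : φ c ∈ comp H {z | z ≠ s ∧ z ≠ c} (φ u) ∩ {z | z ∉ L ∧ z ≠ s ∧ z ≠ c} :=
      ⟨hφc.2, hφcL, hφcs, hφc.1.1⟩
    have h4 := Set.ncard_sdiff_singleton_lt_of_mem h3 (Set.toFinite _)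
    omega
  obtain ⟨t, ht⟩ := h.mc _ (hAne.mono (fun x hx => Or.inl hx)) hAcl
  have hsA : s ∉ hat H L A := fun h' => (hAM s h').1 rfl
  have hcA : c ∉ hat H L A := fun h' => (hAM c h').2 rfl
  refine star_absurd ht (h.all x₁ hx₁ hx₁s).symm hsA ?_ hcb hcA ?_ h.cs.symm (h.LM hbL).1.symm
    hx₁c (fun h' => hx₁ (h' ▸ hbL))
  · rintro (h' | h')
    · exact h'.2.2.2 hx₁l
    · exact hx₁ h'.1
  · rintro (h' | ⟨-, z, hz, hbz⟩)
    · exact h'.1 hbL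
    · exact hz.2.2.2 ⟨hz.2.2.1, hz.2.1, h.cs, b, hbL, hbz, hbc⟩

end N2c

end Pool.Agent.StrongMax
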