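import Pool.Agent.Lib.StrongMax.N2c

/-!
# The components in the case R23 with `q = 1` are isomorphic (helper42, after helper9)
-/

namespace Pool.Agent.StrongMax

section N2d

variable {W : Type} {H : SimpleGraph W} {L : Set W} {s c : W}

/-- Each component of `H - {s, c}` has a neighbour of `c`. -/
theorem R23.comp_c (h : R23 H L s c) {z : W} (hz : z ≠ s ∧ z ≠ c) :
    ∃ w, Lr H {z | z ≠ s ∧ z ≠ c} z w ∧ H.Adj w c := by
  obtain ⟨x, hx, y, hy, hxs, hys, hxy⟩ := h.c2 (comp H {z | z ≠ s ∧ z ≠ c} z) s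
    ⟨z, Lr.refl z, hz.1⟩ ⟨c, fun hc => (hc.mem (M := {z | z ≠ s ∧ z ≠ c}) hz).2 rfl, h.cs⟩
  have hyc : y = c := by
    by_contra hyc
    exact hy (Lr.tail hx hxy ⟨hys, hyc⟩)
  exact ⟨x, hx, hyc ▸ hxy⟩

/-- The embeddings in fact FK. -/
def KEmb (H : SimpleGraph W) (s c x₀ x : W) : Prop :=
  ∃ β : W → W, β s = s ∧ β c = c ∧ β x = x₀ ∧
    Set.InjOn β (insert s (insert c (comp H {z | z ≠ s ∧ z ≠ c} x))) ∧
    (∀ z ∈ comp H {z | z ≠ s ∧ z ≠ c} x, β z ∈ comp H {z | z ≠ s ∧ z ≠ c} x₀) ∧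
    ∀ a ∈ insert s (insert c (comp H {z | z ≠ s ∧ z ≠ c} x)),
      ∀ b ∈ insert s (insert c (comp H {z | z ≠ s ∧ z ≠ c} x)), H.Adj a b → H.Adj (β a) (β b)

theorem KEmb.refl (x₀ : W) : KEmb H s c x₀ x₀ :=
  ⟨id, rfl, rfl, rfl, Set.injOn_id _, fun _ h => h, fun _ _ _ _ h => h⟩

theorem R23.fk [Finite W] (h : R23 H L s c)
    (hq : ∀ x x', x ∉ L → x' ∉ L → x ≠ s → x ≠ c → Lr H {z | z ≠ s ∧ z ≠ c} x x' → x = x')
    {x₀ : W} (hx₀ : x₀ ∉ L) (hx₀s : x₀ ≠ s) (hx₀c : x₀ ≠ c) {x₁ : W} (hx₁ : x₁ ∉ L)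
    (hx₁s : x₁ ≠ s) (hx₁c : x₁ ≠ c) : KEmb H s c x₀ x₁ := by
  by_contra hcon
  let M : Set W := {z | z ≠ s ∧ z ≠ c}
  let L' : Set W := {z | ∃ x, x ∉ L ∧ x ≠ s ∧ x ≠ c ∧ Lr H M x z ∧ KEmb H s c x₀ x}
  have hL'M : ∀ z ∈ L', z ∈ M := by
    rintro z ⟨x, -, hxs, hxc, hr, -⟩
    exact hr.mem (M := M) ⟨hxs, hxc⟩
  have hsatM : ∀ x ∈ L', ∀ y ∈ M, H.Adj x y → y ∈ L' := by
    rintro x ⟨z, hz, hzs, hzc, hr, hE⟩ y hy hxy
    exact ⟨z, hz, hzs, hzc, hr.tail hxy hy, hE⟩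
  have hsat : ∀ x ∈ L', ∀ y ∈ L, H.Adj x y → y ∈ L' := fun x hx y hy hxy =>
    hsatM x hx y (h.LM hy) hxy
  have hcl : IsClosedSet H L' := by
    intro C φ hC a ha
    have hCM := hC.restrict hsatM
    have hφM : ∀ b ∈ C, φ b ∈ M := fun b hb => hL'M _ (hC.mem b hb)
    have hbM : ∀ b ∈ C, b ∈ M := fun b hb => h.rigM.sub _ φ hCM ⟨hb, hφM b hb⟩
    -- components are mapped to components
    have h1 : ∀ b, Lr H M a b → b ∈ C ∧ Lr H M (φ a) (φ b) := by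
      intro b hb
      have key : b ∈ {b | b ∈ C ∧ Lr H M (φ a) (φ b)} := by
        refine hb.ind ⟨ha, Lr.refl _⟩ ?_
        rintro x ⟨hx, hr⟩ y hy hxy
        have hyC := (h.rigM.closed _ φ hCM x ⟨hx, hφM x hx⟩ y hy hxy).1
        exact ⟨hyC, hr.tail (hC.adj x hx y hxy) (hφM y hyC)⟩
      exact key
    have h2 : ∀ y, Lr H M (φ a) y → ∃ b, Lr H M a b ∧ φ b = y := by
      intro y hy
      have key : y ∈ {y | ∃ b, Lr H M a b ∧ φ b = y} := by
        refine hy.ind ⟨a, Lr.refl a, rfl⟩ ?_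
        rintro _ ⟨b, hb, rfl⟩ z hz hbz
        obtain ⟨hbC, -⟩ := h1 b hb
        obtain ⟨b', hb', rfl⟩ := h.rigM.surj _ φ hCM b ⟨hbC, hφM b hbC⟩ z hbz
        have hb'C : b' ∈ C := by
          by_contra hcon'
          exact hC.out b hbC b' hb' hcon' (hsatM _ (hC.mem b hbC) _ hz hbz)
        exact ⟨b', hb.tail hb' (hbM b' hb'C), rfl⟩
      exact key
    obtain ⟨x', hx', hx's, hx'c, hr', β, hβs, hβc, hβx, hβi, hβm, hβa⟩ := hC.mem a ha
    obtain ⟨b, hab, hbx⟩ := h2 x' (hr'.symm (M := M) ⟨hx's, hx'c⟩)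
    obtain ⟨hbC, -⟩ := h1 b hab
    obtain ⟨hbL, hbs, -, h4⟩ := h.toN2Ctx.step2 hC hsat hbC (by rw [hbx]; exact hx')
      (by rw [hbx]; exact hx's)
    have hbc : b ≠ c := (hbM b hbC).2
    have hbs' : H.Adj b s := h.all b hbL hbs
    have hφs : φ s = s := h4 hbs'
    obtain ⟨w, hw, hwc⟩ := h.comp_c (hbM a ha)
    obtain ⟨hwC, -⟩ := h1 w hw
    have hcC : c ∉ C := fun h' => (hbM c h').2 rfl
    have hφcM : φ c ∉ M := hCM.out w ⟨hwC, hφM w hwC⟩ c hwc (fun h' => hcC h'.1)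
    have hφc : φ c = c := by
      by_contra hφc
      refine hφcM ⟨fun hφcs => ?_, hφc⟩
      exact h.cs (hC.nbr_eq hwC hwc hbC hbs' (hφcs.trans hφs.symm))
    -- the composed embedding
    have hbcomp : ∀ z ∈ comp H M b, z ∈ C ∧ φ z ∈ comp H M x' := by
      intro z hz
      obtain ⟨h5, h6⟩ := h1 z (hab.trans hz)
      refine ⟨h5, ?_⟩
      exact hr'.trans h6
    have hdom : ∀ z ∈ insert s (insert c (comp H M b)), InDom H C z := by
      rintro z (rfl | rfl | hz)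
      · exact Or.inr ⟨b, hbC, hbs'⟩
      · exact Or.inr ⟨w, hwC, hwc⟩
      · exact Or.inl (hbcomp z hz).1
    have himg : ∀ z ∈ insert s (insert c (comp H M b)), φ z ∈ insert s (insert c (comp H M x')) := by
      rintro z (rfl | rfl | hz)
      · exact Or.inl hφs
      · exact Or.inr (Or.inl hφc)
      · exact Or.inr (Or.inr (hbcomp z hz).2)
    refine ⟨b, hbL, hbs, hbc, hab.symm (hbM a ha), β ∘ φ, ?_, ?_, ?_, ?_, ?_, ?_⟩
    · show β (φ s) = s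
      rw [hφs, hβs]
    · show β (φ c) = c
      rw [hφc, hβc]
    · show β (φ b) = x₀
      rw [hbx, hβx]
    · intro z hz z' hz' he
      exact hC.inj (hdom z hz) (hdom z' hz') (hβi (himg z hz) (himg z' hz') he)
    · intro z hz
      exact hβm _ (hbcomp z hz).2
    · intro z hz z' hz' hzz
      refine hβa _ (himg z hz) _ (himg z' hz') ?_
      by_cases hzC : z ∈ comp H M b
      · exact hC.adj z (hbcomp z hzC).1 z' hzz
      · by_cases hz'C : z' ∈ comp H M b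
        · exact (hC.adj z' (hbcomp z' hz'C).1 z hzz.symm).symm
        · have e1 : φ z = z := by
            rcases hz with rfl | rfl | hz
            · exact hφs
            · exact hφc
            · exact absurd hz hzC
          have e2 : φ z' = z' := by
            rcases hz' with rfl | rfl | hz
            · exact hφs
            · exact hφc
            · exact absurd hz hz'C
          rw [e1, e2]
          exact hzz
  obtain ⟨t, ht⟩ := h.mc L' ⟨x₀, x₀, hx₀, hx₀s, hx₀c, Lr.refl _, KEmb.refl x₀⟩ hcl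
  obtain ⟨w, hw, hwc⟩ := h.comp_c (z := x₁) ⟨hx₁s, hx₁c⟩
  have hnot : ∀ z, Lr H M x₁ z → z ∉ L' := by
    rintro z hz ⟨x, hx, hxs, hxc, hr, hE⟩
    have h1 : Lr H M x x₁ := hr.trans (hz.symm (M := M) ⟨hx₁s, hx₁c⟩)
    rw [hq x x₁ hx hx₁ hxs hxc h1] at hE
    exact hcon hE
  have hwx : w ≠ x₁ := by
    rintro rfl
    rcases h.nbr hx₁ hx₁s hwc with h1 | h1
    · exact h.cL h1
    · exact h.cs h1
  have hwM : w ≠ s ∧ w ≠ c := hw.mem (M := M) ⟨hx₁s, hx₁c⟩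
  exact star_absurd ht (h.all x₁ hx₁ hx₁s).symm (fun h' => (hL'M s h').1 rfl)
    (hnot x₁ (Lr.refl _)) hwc.symm (fun h' => (hL'M c h').2 rfl) (hnot w hw) h.cs.symm
    hwM.1.symm hx₁c hwx.symm

end N2d

end Pool.Agent.StrongMax
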