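import Pool.Agent.Lib.StrongMax.N2d

/-!
# The escape condition (helper42, after helper9)
-/

namespace Pool.Agent.StrongMax

section NonCut

/-- In a finite connected graph with at least two vertices there are two distinct vertices neither
of which separates the graph. -/
theorem exists_two_noncut {V : Type} [Finite V] {G : SimpleGraph V} (hG : G.Connected)
    (hV : Nontrivial V) : ∃ n₁ n₂ : V, n₁ ≠ n₂ ∧
      (∀ x, x ≠ n₂ → Relation.ReflTransGen (fun a b => G.Adj a b ∧ b ≠ n₂) x n₁) ∧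
      (∀ x, x ≠ n₁ → Relation.ReflTransGen (fun a b => G.Adj a b ∧ b ≠ n₁) x n₂) := by
  classical
  -- farthest vertices do not separate
  have key : ∀ r v : V, (∀ u, G.dist r u ≤ G.dist r v) → ∀ n u, G.dist r u ≤ n → u ≠ v → r ≠ v →
      Relation.ReflTransGen (fun a b => G.Adj a b ∧ b ≠ v) u r := by
    intro r v hv n
    induction n with
    | zero =>
      intro u hu _ _
      have h1 : G.dist r u = 0 := by omega
      have h2 : r = u := (hG.dist_eq_zero_iff).1 h1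
      rw [h2]
    | succ n ih =>
      intro u hu huv hrv
      by_cases hru : u = r
      · rw [hru]
      obtain ⟨p, hp⟩ := hG.exists_walk_length_eq_dist u r
      cases p with
      | nil => exact absurd rfl hru
      | @cons _ w _ huw p =>
        rw [SimpleGraph.Walk.length_cons] at hp
        have h1 : G.dist w r ≤ p.length := SimpleGraph.dist_le p
        have h2 : G.dist r w < G.dist r u := by
          rw [SimpleGraph.dist_comm (u := r) (v := w), SimpleGraph.dist_comm (u := r) (v := u)]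
          omega
        have h3 := hv u
        have hwv : w ≠ v := by
          rintro rfl
          omega
        exact Relation.ReflTransGen.head ⟨huw, hwv⟩ (ih w (by omega) hwv hrv)
  have hsymm : ∀ v u w : V, u ≠ v → Relation.ReflTransGen (fun a b => G.Adj a b ∧ b ≠ v) u w →
      Relation.ReflTransGen (fun a b => G.Adj a b ∧ b ≠ v) w u := by
    intro v u w hu h
    have h' : Relation.ReflTransGen (fun a b => G.Adj a b ∧ b ≠ v) w u ∧ w ≠ v := by
      induction h with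
      | refl => exact ⟨.refl, hu⟩
      | tail _ h ih => exact ⟨Relation.ReflTransGen.head ⟨h.1.symm, ih.2⟩ ih.1, h.2⟩
    exact h'.1
  obtain ⟨r, r', hrr⟩ := hV.exists_pair_ne
  obtain ⟨n₁, -, hn₁⟩ := Set.exists_max_image Set.univ (fun u => G.dist r u) (Set.toFinite _)
    ⟨r, trivial⟩
  obtain ⟨n₂, -, hn₂⟩ := Set.exists_max_image Set.univ (fun u => G.dist n₁ u) (Set.toFinite _)
    ⟨r, trivial⟩
  have hne1 : r ≠ n₁ := by
    rintro rfl
    have h1 := hn₁ r' trivial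
    rw [SimpleGraph.dist_self] at h1
    exact hrr ((hG.dist_eq_zero_iff).1 (by omega))
  have hne2 : n₁ ≠ n₂ := by
    rintro rfl
    have h1 := hn₂ r trivial
    rw [SimpleGraph.dist_self] at h1
    exact hne1 ((hG.dist_eq_zero_iff).1 (by omega)).symm
  refine ⟨n₁, n₂, hne2, ?_, ?_⟩
  · intro x hx
    exact key n₁ n₂ (fun u => hn₂ u trivial) _ x le_rfl hx hne2
  · intro x hx
    have h1 := key r n₁ (fun u => hn₁ u trivial) _ x le_rfl hx hne1
    have h2 := key r n₁ (fun u => hn₁ u trivial) _ n₂ le_rfl hne2.symm hne1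
    exact h1.trans (hsymm n₁ n₂ r hne2.symm h2)

end NonCut

section N2e

variable {W : Type} {H : SimpleGraph W} {L : Set W} {s : W}

/-- Vertices connected inside `M` are connected by links. -/
theorem links_of_Lr (hst : Star H L s) {M : Set W} (hsM : s ∉ M) {x x' : W} (hxM : x ∈ M)
    (hx : x ∉ L) (h : Lr H M x x') (hx' : x' ∉ L) :
    Relation.ReflTransGen (fun a b => Linked H L s a b ∧ b ∈ M) x x' := by
  have key : x' ∈ {z | z ∈ M ∧ (z ∉ L → Relation.ReflTransGen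
      (fun a b => Linked H L s a b ∧ b ∈ M) x z) ∧ (z ∈ L → ∃ m ∈ M, bdr H L z m ∧
        Relation.ReflTransGen (fun a b => Linked H L s a b ∧ b ∈ M) x m)} := by
    refine h.ind ⟨hxM, fun _ => .refl, fun h' => absurd h' hx⟩ ?_
    rintro z ⟨hzM, hz1, hz2⟩ w hw hzw
    have hzs : z ≠ s := fun h' => hsM (h' ▸ hzM)
    have hws : w ≠ s := fun h' => hsM (h' ▸ hw)
    by_cases hzL : z ∈ L
    · obtain ⟨m, hmM, hzm, hm⟩ := hz2 hzL
      refine ⟨hw, fun hwL => ?_, fun hwL => ⟨m, hmM, (bdr_congr hzL (Lr.single hzw hwL)).1 hzm,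
        hm⟩⟩
      by_cases hmw : m = w
      · exact hmw ▸ hm
      · exact hm.tail ⟨⟨hmw, fun h' => hsM (h' ▸ hmM), hws, z, hzL, hzm, bdr_of_adj hzw hwL⟩, hw⟩
    · refine ⟨hw, fun hwL => ?_, fun hwL => ⟨z, hzM, bdr_of_adj hzw.symm hzL, hz1 hzL⟩⟩
      rcases hst z w hzw hzL hwL with h' | h'
      · exact absurd h' hzs
      · exact absurd h' hws
  exact key.2.1 hx'

/-- The data in the escape condition. -/
structure EscData (H : SimpleGraph W) (L : Set W) (s n₁ n₂ : W) (U : Set W) (g : W → W) :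
    Prop where
  inj : Set.InjOn g U
  sU : s ∈ U
  gs : g s = s
  so : ∀ x ∈ U, x ∉ SOn H L s n₁ ∧ x ∉ SOn H L s n₂
  hL : ∀ x ∈ U, x ∈ L → g x ∈ L ∧ (∀ y, H.Adj x y → y ∈ U ∧ H.Adj (g x) (g y)) ∧
      ∀ b, H.Adj (g x) b → ∃ y, H.Adj x y ∧ g y = b
  hN : ∀ x ∈ U, x ∉ L → x ≠ s → g x ∉ L ∧ g x ≠ s
  hc : ∀ x ∈ U, x ∉ L → x ≠ s → x ≠ n₁ → x ≠ n₂ →
      ∀ b, H.Adj (g x) b → ∃ y ∈ U, H.Adj x y ∧ g y = b
  hd : ∃ x ∈ U, x ≠ s ∧ x ≠ n₁ ∧ x ≠ n₂

variable {n₁ n₂ : W} {U : Set W} {g : W → W}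

theorem EscData.page (h : EscData H L s n₁ n₂ U g) {x y : W} (hx : x ∈ U) (hxL : x ∈ L)
    (hxy : Lr H L x y) : y ∈ U ∧ y ∈ L := by
  have key : y ∈ {y | y ∈ U ∧ y ∈ L} := by
    refine hxy.ind ⟨hx, hxL⟩ ?_
    rintro a ⟨ha, haL⟩ b hb hab
    exact ⟨((h.hL a ha haL).2.1 b hab).1, hb⟩
  exact key

theorem EscData.bdrU (h : EscData H L s n₁ n₂ U g) {x z : W} (hx : x ∈ U) (hxL : x ∈ L)
    (hxz : bdr H L x z) : z ∈ U := by
  obtain ⟨y, hy, hyz, -⟩ := hxz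
  obtain ⟨hyU, hyL⟩ := h.page hx hxL hy
  exact ((h.hL y hyU hyL).2.1 z hyz).1

/-- The end of all escape arguments. -/
theorem EscData.finish (h : EscData H L s n₁ n₂ U g)
    (hG : ∀ m ∈ U, m ∉ L → m ≠ s → m ≠ n₁ → m ≠ n₂ → n₁ ∈ U ∧ n₂ ∈ U) : n₁ ∈ U ∧ n₂ ∈ U := by
  obtain ⟨x, hx, hxs, hx1, hx2⟩ := h.hd
  by_cases hxL : x ∈ L
  · by_contra hcon
    have h1 : ∀ z, bdr H L x z → z ≠ s → z = n₁ ∨ z = n₂ := by
      intro z hz hzs
      by_contra hz'
      push Not at hz'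
      exact hcon (hG z (h.bdrU hx hxL hz) (bdr_notMem hz) hzs hz'.1 hz'.2)
    obtain ⟨so1, so2⟩ := h.so x hx
    have e2 : n₂ ∈ U := by
      by_contra hn
      refine so1 ⟨hxL, fun z hz => ?_⟩
      by_cases hzs : z = s
      · exact Or.inl hzs
      · rcases h1 z hz hzs with h2 | h2
        · exact Or.inr h2
        · exact absurd (h2 ▸ h.bdrU hx hxL hz) hn
    have e1 : n₁ ∈ U := by
      by_contra hn
      refine so2 ⟨hxL, fun z hz => ?_⟩
      by_cases hzs : z = s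
      · exact Or.inl hzs
      · rcases h1 z hz hzs with h2 | h2
        · exact absurd (h2 ▸ h.bdrU hx hxL hz) hn
        · exact Or.inr h2
    exact hcon ⟨e1, e2⟩
  · exact hG x hx hxL hxs hx1 hx2

theorem EscData.nbrs [Finite W] (h : EscData H L s n₁ n₂ U g) {x : W} (hx : x ∈ U) (hxL : x ∉ L)
    (hxs : x ≠ s) (hx1 : x ≠ n₁) (hx2 : x ≠ n₂)
    (hd : (H.neighborSet x).ncard ≤ (H.neighborSet (g x)).ncard) : ∀ y, H.Adj x y → y ∈ U := by
  intro y hy
  have h1 : H.neighborSet (g x) ⊆ g '' (H.neighborSet x ∩ U) := by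
    intro b hb
    obtain ⟨z, hz, hxz, rfl⟩ := h.hc x hx hxL hxs hx1 hx2 b hb
    exact ⟨z, ⟨hxz, hz⟩, rfl⟩
  have h2 := Set.ncard_le_ncard h1 (Set.toFinite _)
  have h3 : (g '' (H.neighborSet x ∩ U)).ncard ≤ (H.neighborSet x ∩ U).ncard :=
    Set.ncard_image_le (Set.toFinite _)
  have h4 : H.neighborSet x ∩ U = H.neighborSet x :=
    Set.eq_of_subset_of_ncard_le Set.inter_subset_left (by omega) (Set.toFinite _)
  have h5 : y ∈ H.neighborSet x ∩ U := by rw [h4]; exact hy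
  exact h5.2

theorem EscData.linked [Finite W] (h : EscData H L s n₁ n₂ U g) {x : W} (hx : x ∈ U)
    (hxL : x ∉ L) (hxs : x ≠ s) (hx1 : x ≠ n₁) (hx2 : x ≠ n₂)
    (hd : (H.neighborSet x).ncard ≤ (H.neighborSet (g x)).ncard) {m : W}
    (hm : Linked H L s x m) : m ∈ U := by
  obtain ⟨-, -, -, y, hy, ⟨y', hy', hyx, -⟩, hym⟩ := hm
  have h1 := h.nbrs hx hxL hxs hx1 hx2 hd y' hyx.symm
  exact h.bdrU h1 (hy'.mem hy) ((bdr_congr hy hy').1 hym)

/-- Walking along links. -/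
theorem EscData.walk [Finite W] (h : EscData H L s n₁ n₂ U g) {T : Set W}
    (hT : ∀ x ∈ T, x ∉ L ∧ x ≠ s)
    (hdeg : ∀ x ∈ U, x ∈ T → (H.neighborSet x).ncard ≤ (H.neighborSet (g x)).ncard)
    (h1 : ∀ x ∈ T, x ≠ n₂ → Relation.ReflTransGen
      (fun a b => (Linked H L s a b ∧ b ∈ T) ∧ b ≠ n₂) x n₁)
    (h2 : ∀ x ∈ T, x ≠ n₁ → Relation.ReflTransGen
      (fun a b => (Linked H L s a b ∧ b ∈ T) ∧ b ≠ n₁) x n₂)
    {x : W} (hxU : x ∈ U) (hxT : x ∈ T) (hx1 : x ≠ n₁) (hx2 : x ≠ n₂) : n₁ ∈ U ∧ n₂ ∈ U := by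
  have key : ∀ a b : W, (∀ z, z ∈ U → z ∈ T → z ≠ a → z ≠ b → ∀ m, Linked H L s z m → m ∈ U) →
      x ≠ b → Relation.ReflTransGen (fun a' b' => (Linked H L s a' b' ∧ b' ∈ T) ∧ b' ≠ b) x a →
      a ∈ U := by
    intro a b hclo hxb hr
    have key' : ∀ z, Relation.ReflTransGen
        (fun a' b' => (Linked H L s a' b' ∧ b' ∈ T) ∧ b' ≠ b) x z →
        a ∈ U ∨ (z ∈ U ∧ z ∈ T ∧ z ≠ b) := by
      intro z hz
      induction hz with
      | refl => exact Or.inr ⟨hxU, hxT, hxb⟩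
      | @tail u v _ huv ih =>
        rcases ih with ih | ⟨huU, huT, hub⟩
        · exact Or.inl ih
        · by_cases hua : u = a
          · exact Or.inl (hua ▸ huU)
          · exact Or.inr ⟨hclo u huU huT hua hub v huv.1.1, huv.1.2, huv.2⟩
    rcases key' a hr with h' | h'
    · exact h'
    · exact h'.1
  refine ⟨key n₁ n₂ ?_ hx2 (h1 x hxT hx2), key n₂ n₁ ?_ hx1 (h2 x hxT hx1)⟩
  · intro z hzU hzT hz1 hz2 m hm
    exact h.linked hzU (hT z hzT).1 (hT z hzT).2 hz1 hz2 (hdeg z hzU hzT) hm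
  · intro z hzU hzT hz2 hz1 m hm
    exact h.linked hzU (hT z hzT).1 (hT z hzT).2 hz1 hz2 (hdeg z hzU hzT) hm

theorem esc_of_data (h : ∀ U g, EscData H L s n₁ n₂ U g → n₁ ∈ U ∧ n₂ ∈ U) :
    Esc H L s n₁ n₂ := by
  intro U g h1 h2 h3 h4 h5 h6 h7 h8
  exact h U g ⟨h1, h2, h3, h4, h5, h6, h7, h8⟩

/-- Non-cut vertices of the link graph on `T`. -/
theorem exists_ends [Finite W] {T : Set W} (hconn : ∀ x ∈ T, ∀ y ∈ T, Relation.ReflTransGen
      (fun a b => Linked H L s a b ∧ b ∈ T) x y) (hT : ∃ x ∈ T, ∃ y ∈ T, x ≠ y) :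
    ∃ n₁ ∈ T, ∃ n₂ ∈ T, n₁ ≠ n₂ ∧
      (∀ x ∈ T, x ≠ n₂ → Relation.ReflTransGen
        (fun a b => (Linked H L s a b ∧ b ∈ T) ∧ b ≠ n₂) x n₁) ∧
      (∀ x ∈ T, x ≠ n₁ → Relation.ReflTransGen
        (fun a b => (Linked H L s a b ∧ b ∈ T) ∧ b ≠ n₁) x n₂) := by
  classical
  let G : SimpleGraph T :=
    { Adj := fun a b => Linked H L s a b
      symm := ⟨fun a b h => h.symm⟩
      loopless := ⟨fun a h => h.1 rfl⟩ }
  obtain ⟨x, hx, y, hy, hxy⟩ := hT
  have hnt : Nontrivial T := ⟨⟨x, hx⟩, ⟨y, hy⟩, fun h => hxy (congrArg Subtype.val h)⟩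
  have hG : G.Connected := by
    rw [SimpleGraph.connected_iff]
    refine ⟨fun a b => ?_, ⟨⟨x, hx⟩⟩⟩
    have h1 : ∀ z, Relation.ReflTransGen (fun a b => Linked H L s a b ∧ b ∈ T) a.1 z →
        ∃ hz : z ∈ T, G.Reachable a ⟨z, hz⟩ := by
      intro z hz
      induction hz with
      | refl => exact ⟨a.2, SimpleGraph.Reachable.refl _⟩
      | @tail u v _ huv ih =>
        obtain ⟨hu, hr⟩ := ih
        refine ⟨huv.2, hr.trans (SimpleGraph.Adj.reachable ?_)⟩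
        show Linked H L s u v
        exact huv.1
    exact (h1 b.1 (hconn a.1 a.2 b.1 b.2)).2
  obtain ⟨n₁, n₂, hne, h1, h2⟩ := exists_two_noncut hG hnt
  have hlift : ∀ (v a b : T), Relation.ReflTransGen (fun a b => G.Adj a b ∧ b ≠ v) a b →
      Relation.ReflTransGen (fun a b => (Linked H L s a b ∧ b ∈ T) ∧ b ≠ v.1) a.1 b.1 := by
    intro v a b h
    induction h with
    | refl => exact .refl
    | @tail u w _ huw ih =>
      exact ih.tail ⟨⟨huw.1, w.2⟩, fun h' => huw.2 (Subtype.ext h')⟩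
  refine ⟨n₁.1, n₁.2, n₂.1, n₂.2, fun h' => hne (Subtype.ext h'), ?_, ?_⟩
  · intro x hx hxn
    exact hlift n₂ ⟨x, hx⟩ n₁ (h1 ⟨x, hx⟩ (fun h' => hxn (congrArg Subtype.val h')))
  · intro x hx hxn
    exact hlift n₁ ⟨x, hx⟩ n₂ (h2 ⟨x, hx⟩ (fun h' => hxn (congrArg Subtype.val h')))

end N2e

end Pool.Agent.StrongMax
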