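import Pool.Agent.Lib.StrongMax.RC
import Pool.Agent.Lib.StrongMax.Cycle

/-!
# Pages (helper42)

`H` is `2`-connected, `s` is a vertex such that all edges between vertices of degree at least
three contain `s`, all neighbours of `s` have degree at least three and no two vertices of degree
two are adjacent.  A *page* is a connected set `D` with two boundary vertices which avoids `s` and
its neighbours.
-/

namespace Pool.Agent.StrongMax

section Walks

variable {W : Type} {H : SimpleGraph W}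

theorem walk_exit {A : Set W} {x y : W} (p : H.Walk x y) (hx : x ∈ A) (hy : y ∉ A) :
    ∃ (x' a : W) (q : H.Walk x x') (r : H.Walk a y), (∀ z ∈ q.support, z ∈ A) ∧
      (∀ z ∈ q.support, z ∈ p.support) ∧ (∀ z ∈ r.support, z ∈ p.support) ∧ H.Adj x' a ∧ a ∉ A ∧
      q.length + 1 + r.length = p.length := by
  induction p with
  | nil => exact absurd hx hy
  | @cons u v w huv p ih =>
    by_cases hv : v ∈ A
    · obtain ⟨x', a, q, r, h1, h2, h3, h4, h5, h6⟩ := ih hv hy
      refine ⟨x', a, .cons huv q, r, ?_, ?_, ?_, h4, h5, ?_⟩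
      · intro z hz
        rw [SimpleGraph.Walk.support_cons, List.mem_cons] at hz
        rcases hz with rfl | hz
        · exact hx
        · exact h1 z hz
      · intro z hz
        rw [SimpleGraph.Walk.support_cons, List.mem_cons] at hz ⊢
        rcases hz with rfl | hz
        · exact Or.inl rfl
        · exact Or.inr (h2 z hz)
      · intro z hz
        rw [SimpleGraph.Walk.support_cons, List.mem_cons]
        exact Or.inr (h3 z hz)
      · simp only [SimpleGraph.Walk.length_cons]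
        omega
    · refine ⟨u, v, .nil, p, ?_, ?_, ?_, huv, hv, ?_⟩
      · intro z hz
        rw [SimpleGraph.Walk.support_nil, List.mem_singleton] at hz
        exact hz ▸ hx
      · intro z hz
        rw [SimpleGraph.Walk.support_nil, List.mem_singleton] at hz
        rw [SimpleGraph.Walk.support_cons, hz]
        exact List.mem_cons_self
      · intro z hz
        rw [SimpleGraph.Walk.support_cons, List.mem_cons]
        exact Or.inr hz
      · simp only [SimpleGraph.Walk.length_cons, SimpleGraph.Walk.length_nil]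
        omega

/-- `D` is connected (walks inside `D`). -/
def ConnIn (H : SimpleGraph W) (D : Set W) : Prop :=
  ∀ x ∈ D, ∀ y ∈ D, ∃ p : H.Walk x y, ∀ z ∈ p.support, z ∈ D

/-- The outer boundary of `D`. -/
def bd (H : SimpleGraph W) (D : Set W) : Set W := {y | y ∉ D ∧ ∃ x ∈ D, H.Adj x y}

/-- Any walk which passes from one vertex outside `D` through `D` to another one has length at
least `m`. -/
def Wide (H : SimpleGraph W) (D : Set W) (m : ℕ) : Prop :=
  ∀ a b, a ∉ D → b ∉ D → a ≠ b → ∀ (x y : W) (p : H.Walk x y), (∀ z ∈ p.support, z ∈ D) →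
    H.Adj a x → H.Adj y b → m ≤ p.length + 2

/-- The neighbours of the degree-two vertex `t` are joined by a walk of length at most `m`
avoiding `t`. -/
def ShortAt (H : SimpleGraph W) (t : W) (m : ℕ) : Prop :=
  ∃ (x y : W) (p : H.Walk x y), H.Adj t x ∧ H.Adj t y ∧ x ≠ y ∧ t ∉ p.support ∧ p.length ≤ m

/-- Degree-two vertices all of whose cycles have length at least `M + 2`. -/
def IsMV (H : SimpleGraph W) (M : ℕ) (t : W) : Prop :=
  (H.neighborSet t).ncard = 2 ∧ ∀ k, ShortAt H t k → M ≤ k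

/-- Pages. -/
structure IsPage (H : SimpleGraph W) (s : W) (D : Set W) : Prop where
  ne : D.Nonempty
  conn : ConnIn H D
  notMem : s ∉ D
  nbr : ∀ y ∈ D, ¬ H.Adj s y
  bd2 : (bd H D).ncard ≤ 2

/-- The situation in which pages are used. -/
structure PageCtx (H : SimpleGraph W) (s : W) : Prop where
  h2 : Conn2 H
  hδ : ∀ x, 2 ≤ (H.neighborSet x).ncard
  hs : 3 ≤ (H.neighborSet s).ncard
  hN : ∀ y, H.Adj s y → 3 ≤ (H.neighborSet y).ncard
  hZ : ∀ a b, H.Adj a b → 3 ≤ (H.neighborSet a).ncard → 3 ≤ (H.neighborSet b).ncard →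
    a = s ∨ b = s
  h1 : ∀ a b, H.Adj a b → (H.neighborSet a).ncard = 2 → 3 ≤ (H.neighborSet b).ncard

theorem exit_bd {D : Set W} (hD : ConnIn H D) {P : Set W} {x y : W} (hx : x ∈ D) (hxP : x ∈ P)
    (hy : y ∈ D) (hyP : y ∉ P) : ∃ a, a ∈ D ∧ a ∈ bd H P := by
  obtain ⟨p, hp⟩ := hD x hx y hy
  obtain ⟨x', a, q, r, h1, h2, h3, h4, h5, h6⟩ := walk_exit p hxP hyP
  exact ⟨a, hp a (h3 a r.start_mem_support), h5, x', h1 x' q.end_mem_support, h4⟩

/-- In a set without cut vertices, boundaries have at least two vertices. -/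
theorem two_bd (h2 : Conn2 H) {D : Set W} (hne : D.Nonempty)
    (hout : ∀ a b : W, ∃ y ∉ D, y ≠ a ∧ y ≠ b) : ∃ a ∈ bd H D, ∃ b ∈ bd H D, a ≠ b := by
  obtain ⟨x, hx⟩ := hne
  obtain ⟨y0, hy0, -, -⟩ := hout x x
  obtain ⟨y1, hy1, hy10, -⟩ := hout y0 y0
  obtain ⟨x', hx', a, ha, -, -, hxa⟩ := h2 D y0 ⟨x, hx, fun h => hy0 (h ▸ hx)⟩ ⟨y1, hy1, hy10⟩
  obtain ⟨y2, hy2, hy2a, -⟩ := hout a a
  obtain ⟨x'', hx'', b, hb, -, hba, hxb⟩ := h2 D a ⟨x, hx, fun h => ha (h ▸ hx)⟩ ⟨y2, hy2, hy2a⟩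
  exact ⟨a, ⟨ha, x', hx', hxa⟩, b, ⟨hb, x'', hx'', hxb⟩, hba.symm⟩

variable [Finite W] {s : W}

theorem PageCtx.out (hc : PageCtx H s) {D : Set W} (hD : ∀ y ∈ D, ¬ H.Adj s y) (a b : W) :
    ∃ y ∉ D, y ≠ a ∧ y ≠ b := by
  by_contra hcon
  push Not at hcon
  have h1 : H.neighborSet s ⊆ {a, b} := by
    intro y hy
    have hyD : y ∉ D := fun h => hD y h hy
    by_cases hya : y = a
    · exact Or.inl hya
    · exact Or.inr (hcon y hyD hya)
  have h2 := Set.ncard_le_ncard h1 (Set.toFinite _)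
  have h3 : ({a, b} : Set W).ncard ≤ 2 := by
    have h4 := Set.ncard_insert_le a {b}
    rw [Set.ncard_singleton] at h4
    exact h4
  have := hc.hs
  omega

theorem IsPage.two (hc : PageCtx H s) {D : Set W} (hD : IsPage H s D) :
    ∃ a ∈ bd H D, ∃ b ∈ bd H D, a ≠ b ∧ bd H D = {a, b} := by
  obtain ⟨a, ha, b, hb, hab⟩ := two_bd hc.h2 hD.ne (hc.out hD.nbr)
  refine ⟨a, ha, b, hb, hab, ?_⟩
  symm
  refine Set.eq_of_subset_of_ncard_le ?_ ?_ (Set.toFinite _)
  · rintro x (rfl | rfl)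
    · exact ha
    · exact hb
  · rw [Set.ncard_pair hab]
    exact hD.bd2

/-- Three elements of the boundary of a page are not distinct. -/
theorem IsPage.bd_eq {D : Set W} (hD : IsPage H s D) {a b c : W}
    (ha : a ∈ bd H D) (hb : b ∈ bd H D) (hc : c ∈ bd H D) (hac : a ≠ c) (hbc : b ≠ c) : a = b := by
  by_contra hab
  have h1 : ({a, b, c} : Set W) ⊆ bd H D := by
    rintro x (rfl | rfl | rfl)
    · exact ha
    · exact hb
    · exact hc
  have h2 := Set.ncard_le_ncard h1 (Set.toFinite _)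
  have h3 : ({a, b, c} : Set W).ncard = 3 := by
    rw [Set.ncard_eq_three]
    exact ⟨a, b, c, hab, hac, hbc, rfl⟩
  have := hD.bd2
  omega

/-- The width of a page is bounded. -/
theorem IsPage.wide_le (hc : PageCtx H s) {D : Set W} (hD : IsPage H s D) {m : ℕ}
    (hm : Wide H D m) : m ≤ Nat.card W + 2 := by
  classical
  obtain ⟨a, ha, b, hb, hab, -⟩ := hD.two hc
  obtain ⟨haD, x, hx, hxa⟩ := ha
  obtain ⟨hbD, y, hy, hyb⟩ := hb
  obtain ⟨p, hp⟩ := hD.conn x hx y hy
  have h1 := hm a b haD hbD hab x y p.bypass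
    (fun z hz => hp z (p.support_bypass_subset_support hz)) hxa.symm hyb
  have : Fintype W := Fintype.ofFinite W
  have h2 := p.bypass_isPath.length_lt
  rw [Nat.card_eq_fintype_card]
  omega

/-- A page of maximal width has boundary vertices of degree at least three. -/
theorem IsPage.bd_deg (hc : PageCtx H s) {D : Set W} (hD : IsPage H s D) {m : ℕ}
    (hm : Wide H D m) (hmax : ∀ D', IsPage H s D' → ¬ Wide H D' (m + 1)) {g : W}
    (hg : g ∈ bd H D) : 3 ≤ (H.neighborSet g).ncard := by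
  classical
  by_contra hcon
  have hg2 : (H.neighborSet g).ncard = 2 := by
    have := hc.hδ g
    omega
  obtain ⟨hgD, x₀, hx₀, hxg⟩ := hg
  have hgs : g ≠ s := by
    rintro rfl
    have := hc.hs
    omega
  have hgs' : ¬ H.Adj s g := fun h => by
    have := hc.hN g h
    omega
  -- outside `D` the vertex `g` has at most one neighbour
  have hone : ∀ a b, H.Adj g a → H.Adj g b → a ∉ D → b ∉ D → a = b := by
    intro a b ha hb haD hbD
    by_contra hab
    have h1 : ({a, b, x₀} : Set W) ⊆ H.neighborSet g := by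
      rintro x (rfl | rfl | rfl)
      · exact ha
      · exact hb
      · exact hxg.symm
    have h2 := Set.ncard_le_ncard h1 (Set.toFinite _)
    have h3 : ({a, b, x₀} : Set W).ncard = 3 := by
      rw [Set.ncard_eq_three]
      exact ⟨a, b, x₀, hab, fun h => haD (h ▸ hx₀), fun h => hbD (h ▸ hx₀), rfl⟩
    omega
  refine hmax (insert g D) ⟨⟨g, Or.inl rfl⟩, ?_, ?_, ?_, ?_⟩ ?_
  · -- connected
    have hto : ∀ x ∈ insert g D, ∃ p : H.Walk g x, ∀ z ∈ p.support, z ∈ insert g D := by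
      rintro x (rfl | hx)
      · refine ⟨.nil, fun z hz => ?_⟩
        rw [SimpleGraph.Walk.support_nil, List.mem_singleton] at hz
        exact Or.inl hz
      · obtain ⟨p, hp⟩ := hD.conn x₀ hx₀ x hx
        refine ⟨.cons hxg.symm p, fun z hz => ?_⟩
        rw [SimpleGraph.Walk.support_cons, List.mem_cons] at hz
        rcases hz with hz | hz
        · exact Or.inl hz
        · exact Or.inr (hp z hz)
    intro x hx y hy
    obtain ⟨p, hp⟩ := hto x hx
    obtain ⟨q, hq⟩ := hto y hy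
    refine ⟨p.reverse.append q, fun z hz => ?_⟩
    rw [SimpleGraph.Walk.mem_support_append_iff] at hz
    rcases hz with hz | hz
    · rw [SimpleGraph.Walk.support_reverse, List.mem_reverse] at hz
      exact hp z hz
    · exact hq z hz
  · rintro (h | h)
    · exact hgs h.symm
    · exact hD.notMem h
  · rintro y (rfl | hy)
    · exact hgs'
    · exact hD.nbr y hy
  · have h1 : bd H (insert g D) ⊆ (bd H D \ {g}) ∪ (H.neighborSet g \ D) := by
      rintro y ⟨hy, x, hx, hxy⟩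
      have hyg : y ≠ g := fun h => hy (Or.inl h)
      have hyD : y ∉ D := fun h => hy (Or.inr h)
      rcases hx with rfl | hx
      · exact Or.inr ⟨hxy, hyD⟩
      · exact Or.inl ⟨⟨hyD, x, hx, hxy⟩, hyg⟩
    have h2 : (bd H D \ {g}).ncard ≤ 1 := by
      rw [Set.ncard_le_one (Set.toFinite _)]
      intro a ha b hb
      exact hD.bd_eq ha.1 hb.1 ⟨hgD, x₀, hx₀, hxg⟩ ha.2 hb.2
    have h3 : (H.neighborSet g \ D).ncard ≤ 1 := by
      rw [Set.ncard_le_one (Set.toFinite _)]
      intro a ha b hb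
      exact hone a b ha.1 hb.1 ha.2 hb.2
    have h4 := Set.ncard_le_ncard h1 (Set.toFinite _)
    have h5 := Set.ncard_union_le (bd H D \ {g}) (H.neighborSet g \ D)
    omega
  · intro a b ha hb hab x y p hp hax hyb
    have haD : a ∉ D := fun h => ha (Or.inr h)
    have hbD : b ∉ D := fun h => hb (Or.inr h)
    have hag : a ≠ g := fun h => ha (Or.inl h)
    have hbg : b ≠ g := fun h => hb (Or.inl h)
    rcases hp x p.start_mem_support with hxg' | hxD
    · rcases hp y p.end_mem_support with hyg | hyD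
      · exact absurd (hone a b (hxg' ▸ hax.symm) (hyg ▸ hyb) haD hbD) hab
      · subst hxg'
        obtain ⟨x', a', q, r, h1, h2, h3, h4, h5, h6⟩ := walk_exit p.reverse hyD hgD
        have ha' : a' ∈ insert x D := by
          have := h3 a' r.start_mem_support
          rw [SimpleGraph.Walk.support_reverse, List.mem_reverse] at this
          exact hp a' this
        rcases ha' with ha' | ha'
        · subst ha'
          have h7 := hm b a' hbD hgD hbg y x' q h1 hyb.symm h4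
          rw [SimpleGraph.Walk.length_reverse] at h6
          omega
        · exact absurd ha' h5
    · rcases hp y p.end_mem_support with hyg | hyD
      · subst hyg
        obtain ⟨x', a', q, r, h1, h2, h3, h4, h5, h6⟩ := walk_exit p hxD hgD
        have ha' : a' ∈ insert y D := hp a' (h3 a' r.start_mem_support)
        rcases ha' with ha' | ha'
        · subst ha'
          have h7 := hm a a' haD hgD hag x x' q h1 hax h4
          omega
        · exact absurd ha' h5
      · exfalso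
        refine hab (hD.bd_eq (c := g) ⟨haD, x, hxD, hax.symm⟩ ⟨hbD, y, hyD, hyb⟩
          ⟨hgD, x₀, hx₀, hxg⟩ hag hbg)

/-- The union of two crossing pages of maximal width would be a page of larger width. -/
theorem IsPage.not_cross {D₁ D₂ : Set W} (hD₁ : IsPage H s D₁)
    (hD₂ : IsPage H s D₂) {m : ℕ} (hm₁ : Wide H D₁ m) (hm₂ : Wide H D₂ m)
    (hmax : ∀ D', IsPage H s D' → ¬ Wide H D' (m + 1)) {a' b' : W}
    (ha' : a' ∈ bd H D₁) (ha'2 : a' ∈ D₂) (hb' : b' ∈ bd H D₂) (hb'1 : b' ∈ D₁) : False := by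
  classical
  have hU : ∀ y, y ∈ bd H (D₁ ∪ D₂) → (y ∈ bd H D₁ \ {a'}) ∨ (y ∈ bd H D₂ \ {b'}) := by
    rintro y ⟨hy, x, hx, hxy⟩
    have hy1 : y ∉ D₁ := fun h => hy (Or.inl h)
    have hy2 : y ∉ D₂ := fun h => hy (Or.inr h)
    rcases hx with hx | hx
    · exact Or.inl ⟨⟨hy1, x, hx, hxy⟩, fun h => hy2 (by rw [Set.mem_singleton_iff.1 h]; exact ha'2)⟩
    · exact Or.inr ⟨⟨hy2, x, hx, hxy⟩, fun h => hy1 (by rw [Set.mem_singleton_iff.1 h]; exact hb'1)⟩
  have hu1 : ∀ x ∈ bd H D₁ \ {a'}, ∀ y ∈ bd H D₁ \ {a'}, x = y := fun x hx y hy =>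
    hD₁.bd_eq hx.1 hy.1 ha' hx.2 hy.2
  have hu2 : ∀ x ∈ bd H D₂ \ {b'}, ∀ y ∈ bd H D₂ \ {b'}, x = y := fun x hx y hy =>
    hD₂.bd_eq hx.1 hy.1 hb' hx.2 hy.2
  obtain ⟨ha'1, x₁, hx₁, hx₁a⟩ := ha'
  obtain ⟨hb'2, x₂, hx₂, hx₂b⟩ := hb'
  refine hmax (D₁ ∪ D₂) ⟨⟨x₁, Or.inl hx₁⟩, ?_, ?_, ?_, ?_⟩ ?_
  · have hto : ∀ x ∈ D₁ ∪ D₂, ∃ p : H.Walk a' x, ∀ z ∈ p.support, z ∈ D₁ ∪ D₂ := by
      rintro x (hx | hx)
      · obtain ⟨p, hp⟩ := hD₁.conn x₁ hx₁ x hx
        refine ⟨.cons hx₁a.symm p, fun z hz => ?_⟩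
        rw [SimpleGraph.Walk.support_cons, List.mem_cons] at hz
        rcases hz with hz | hz
        · exact Or.inr (hz ▸ ha'2)
        · exact Or.inl (hp z hz)
      · obtain ⟨p, hp⟩ := hD₂.conn a' ha'2 x hx
        exact ⟨p, fun z hz => Or.inr (hp z hz)⟩
    intro x hx y hy
    obtain ⟨p, hp⟩ := hto x hx
    obtain ⟨q, hq⟩ := hto y hy
    refine ⟨p.reverse.append q, fun z hz => ?_⟩
    rw [SimpleGraph.Walk.mem_support_append_iff] at hz
    rcases hz with hz | hz
    · rw [SimpleGraph.Walk.support_reverse, List.mem_reverse] at hz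
      exact hp z hz
    · exact hq z hz
  · rintro (h | h)
    · exact hD₁.notMem h
    · exact hD₂.notMem h
  · rintro y (hy | hy)
    · exact hD₁.nbr y hy
    · exact hD₂.nbr y hy
  · have h1 : bd H (D₁ ∪ D₂) ⊆ (bd H D₁ \ {a'}) ∪ (bd H D₂ \ {b'}) := fun y hy => hU y hy
    have h2 : (bd H D₁ \ {a'}).ncard ≤ 1 := by
      rw [Set.ncard_le_one (Set.toFinite _)]
      exact hu1
    have h3 : (bd H D₂ \ {b'}).ncard ≤ 1 := by
      rw [Set.ncard_le_one (Set.toFinite _)]
      exact hu2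
    have h4 := Set.ncard_le_ncard h1 (Set.toFinite _)
    have h5 := Set.ncard_union_le (bd H D₁ \ {a'}) (bd H D₂ \ {b'})
    omega
  · intro a b ha hb hab x y p hp hax hyb
    have ha1 : a ∉ D₁ := fun h => ha (Or.inl h)
    have ha2 : a ∉ D₂ := fun h => ha (Or.inr h)
    have hb1 : b ∉ D₁ := fun h => hb (Or.inl h)
    have hb2 : b ∉ D₂ := fun h => hb (Or.inr h)
    have haa : a ≠ a' := fun h => ha2 (h ▸ ha'2)
    have hba : b ≠ a' := fun h => hb2 (h ▸ ha'2)
    have hab' : a ≠ b' := fun h => ha1 (h ▸ hb'1)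
    have hbb' : b ≠ b' := fun h => hb1 (h ▸ hb'1)
    rcases hp x p.start_mem_support with hx1 | hx2
    · have hy1 : y ∉ D₁ := fun hy1 =>
        hab (hu1 a ⟨⟨ha1, x, hx1, hax.symm⟩, haa⟩ b ⟨⟨hb1, y, hy1, hyb⟩, hba⟩)
      obtain ⟨x', c, q, r, h1, h2, h3, h4, h5, h6⟩ := walk_exit p hx1 hy1
      have hac : a ≠ c := by
        rintro rfl
        exact ha (hp a (h3 a r.start_mem_support))
      have h7 := hm₁ a c ha1 h5 hac x x' q h1 hax h4
      omega
    · have hy2 : y ∉ D₂ := fun hy2 =>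
        hab (hu2 a ⟨⟨ha2, x, hx2, hax.symm⟩, hab'⟩ b ⟨⟨hb2, y, hy2, hyb⟩, hbb'⟩)
      obtain ⟨x', c, q, r, h1, h2, h3, h4, h5, h6⟩ := walk_exit p hx2 hy2
      have hac : a ≠ c := by
        rintro rfl
        exact ha (hp a (h3 a r.start_mem_support))
      have h7 := hm₂ a c ha2 h5 hac x x' q h1 hax h4
      omega

/-- Two pages of maximal width and equal size do not meet or touch. -/
theorem IsPage.separate {D₁ D₂ : Set W} (hD₁ : IsPage H s D₁)
    (hD₂ : IsPage H s D₂) {m : ℕ} (hm₁ : Wide H D₁ m) (hm₂ : Wide H D₂ m)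
    (hmax : ∀ D', IsPage H s D' → ¬ Wide H D' (m + 1)) (hcard : D₁.ncard = D₂.ncard)
    (hne : D₁ ≠ D₂) : ∀ x ∈ D₂, x ∉ D₁ ∧ x ∉ bd H D₁ := by
  have hdisj : ∀ x ∈ D₂, x ∉ D₁ := by
    intro x hx2 hx1
    obtain ⟨y, hy2, hy1⟩ : ∃ y ∈ D₂, y ∉ D₁ := by
      by_contra hcon
      push Not at hcon
      exact hne (Set.eq_of_subset_of_ncard_le hcon hcard.le (Set.toFinite _)).symm
    obtain ⟨z, hz1, hz2⟩ : ∃ z ∈ D₁, z ∉ D₂ := by
      by_contra hcon
      push Not at hcon
      exact hne (Set.eq_of_subset_of_ncard_le hcon hcard.ge (Set.toFinite _))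
    obtain ⟨a', ha'2, ha'⟩ := exit_bd hD₂.conn hx2 hx1 hy2 hy1
    obtain ⟨b', hb'1, hb'⟩ := exit_bd hD₁.conn hx1 hx2 hz1 hz2
    exact hD₁.not_cross hD₂ hm₁ hm₂ hmax ha' ha'2 hb' hb'1
  refine fun x hx2 => ⟨hdisj x hx2, ?_⟩
  rintro hx
  obtain ⟨hx1, y, hy1, hyx⟩ := id hx
  exact hD₁.not_cross hD₂ hm₁ hm₂ hmax hx hx2
    ⟨fun h => hdisj y h hy1, x, hx2, hyx.symm⟩ hy1

end Walks

end Pool.Agent.StrongMax
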