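import Pool.Agent.Lib.StrongMax.PagesA

/-!
# Pages: transfer along copies (helper42)
-/

namespace Pool.Agent.StrongMax

section Transfer

variable {W : Type} {H : SimpleGraph W}

/-- The oriented edges starting in `D`. -/
def arcs (H : SimpleGraph W) (D : Set W) : Set (W × W) := {p | p.1 ∈ D ∧ H.Adj p.1 p.2}

/-- A copy of the edges meeting `E` inside the edges meeting `D`. -/
structure Transfer (H : SimpleGraph W) (E D : Set W) (σ : W → W) : Prop where
  mem : ∀ e ∈ E, σ e ∈ D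
  bdm : ∀ b ∈ bd H E, σ b ∈ bd H D
  inj : ∀ x ∈ E ∪ bd H E, ∀ y ∈ E ∪ bd H E, σ x = σ y → x = y
  adj : ∀ e ∈ E, ∀ b, H.Adj e b → H.Adj (σ e) (σ b)

variable {E D : Set W} {σ : W → W}

theorem nbr_mem {e b : W} (he : e ∈ E) (hb : H.Adj e b) : b ∈ E ∪ bd H E := by
  by_cases h : b ∈ E
  · exact Or.inl h
  · exact Or.inr ⟨h, e, he, hb⟩

theorem Transfer.walk (hσ : Transfer H E D σ) {x y : W} (p : H.Walk x y)
    (hp : ∀ z ∈ p.support, z ∈ E) :
    ∃ q : H.Walk (σ x) (σ y), (∀ z ∈ q.support, z ∈ D) ∧ q.length = p.length := by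
  induction p with
  | @nil u =>
    refine ⟨.nil, fun z hz => ?_, rfl⟩
    rw [SimpleGraph.Walk.support_nil, List.mem_singleton] at hz
    rw [hz]
    exact hσ.mem u (hp u (SimpleGraph.Walk.start_mem_support _))
  | @cons u v w huv p ih =>
    obtain ⟨q, hq, hl⟩ := ih (fun z hz => hp z (by
      rw [SimpleGraph.Walk.support_cons]
      exact List.mem_cons_of_mem _ hz))
    have hu : u ∈ E := hp u (SimpleGraph.Walk.start_mem_support _)
    refine ⟨.cons (hσ.adj u hu v huv) q, fun z hz => ?_, ?_⟩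
    · rw [SimpleGraph.Walk.support_cons, List.mem_cons] at hz
      rcases hz with rfl | hz
      · exact hσ.mem u hu
      · exact hq z hz
    · simp only [SimpleGraph.Walk.length_cons, hl]

theorem Transfer.wide (hσ : Transfer H E D σ) {m : ℕ} (hm : Wide H D m) : Wide H E m := by
  intro a b ha hb hab x y p hp hax hyb
  have hx : x ∈ E := hp x p.start_mem_support
  have hy : y ∈ E := hp y p.end_mem_support
  have haE : a ∈ bd H E := ⟨ha, x, hx, hax.symm⟩
  have hbE : b ∈ bd H E := ⟨hb, y, hy, hyb⟩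
  obtain ⟨q, hq, hl⟩ := hσ.walk p hp
  have h := hm (σ a) (σ b) (hσ.bdm a haE).1 (hσ.bdm b hbE).1
    (fun h => hab (hσ.inj a (Or.inr haE) b (Or.inr hbE) h)) _ _ q hq
    (hσ.adj x hx a hax.symm).symm (hσ.adj y hy b hyb)
  omega

variable [Finite W]

theorem Transfer.bd_le (hσ : Transfer H E D σ) : (bd H E).ncard ≤ (bd H D).ncard :=
  Set.ncard_le_ncard_of_injOn σ hσ.bdm
    (fun x hx y hy h => hσ.inj x (Or.inr hx) y (Or.inr hy) h) (Set.toFinite _)

theorem Transfer.ncard_le (hσ : Transfer H E D σ) : E.ncard ≤ D.ncard :=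
  Set.ncard_le_ncard_of_injOn σ hσ.mem
    (fun x hx y hy h => hσ.inj x (Or.inl hx) y (Or.inl hy) h) (Set.toFinite _)

theorem Transfer.arcs_injOn (hσ : Transfer H E D σ) :
    Set.InjOn (fun p : W × W => (σ p.1, σ p.2)) (arcs H E) := by
  rintro ⟨e, b⟩ ⟨he, hb⟩ ⟨e', b'⟩ ⟨he', hb'⟩ h
  simp only [Prod.mk.injEq] at h
  have h1 := hσ.inj e (Or.inl he) e' (Or.inl he') h.1
  have h2 := hσ.inj b (nbr_mem he hb) b' (nbr_mem he' hb') h.2
  rw [h1, h2]

theorem Transfer.arcs_le (hσ : Transfer H E D σ) : (arcs H E).ncard ≤ (arcs H D).ncard :=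
  Set.ncard_le_ncard_of_injOn _ (fun p hp => ⟨hσ.mem p.1 hp.1, hσ.adj p.1 hp.1 p.2 hp.2⟩)
    hσ.arcs_injOn (Set.toFinite _)

theorem Transfer.pull (hσ : Transfer H E D σ) (hle : (arcs H D).ncard ≤ (arcs H E).ncard)
    {x y : W} (hx : x ∈ D) (hxy : H.Adj x y) : ∃ e ∈ E, ∃ b, H.Adj e b ∧ σ e = x ∧ σ b = y := by
  have h1 : (fun p : W × W => (σ p.1, σ p.2)) '' arcs H E = arcs H D := by
    refine Set.eq_of_subset_of_ncard_le ?_ ?_ (Set.toFinite _)
    · rintro _ ⟨p, hp, rfl⟩
      exact ⟨hσ.mem p.1 hp.1, hσ.adj p.1 hp.1 p.2 hp.2⟩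
    · rw [hσ.arcs_injOn.ncard_image]
      exact hle
  have h2 : (x, y) ∈ (fun p : W × W => (σ p.1, σ p.2)) '' arcs H E := by
    rw [h1]; exact ⟨hx, hxy⟩
  obtain ⟨⟨e, b⟩, ⟨he, hb⟩, h⟩ := h2
  simp only [Prod.mk.injEq] at h
  exact ⟨e, he, b, hb, h.1, h.2⟩

/-- Pulling back walks. -/
theorem Transfer.pullWalk (hσ : Transfer H E D σ)
    (hpull : ∀ x ∈ D, ∀ y, H.Adj x y → ∃ e ∈ E, ∃ b, H.Adj e b ∧ σ e = x ∧ σ b = y)
    (hbd : ∀ g ∈ bd H D, ∀ g' ∈ bd H D, ¬ H.Adj g g') {x' y' : W} (p : H.Walk x' y')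
    (hp : ∀ z ∈ p.support, z ∈ D ∪ bd H D) :
    ∀ x ∈ E ∪ bd H E, σ x = x' → ∃ y ∈ E ∪ bd H E, σ y = y' ∧ ∃ q : H.Walk x y,
      (∀ z ∈ q.support, σ z ∈ p.support) ∧ q.length = p.length := by
  induction p with
  | @nil u =>
    intro x hx hxu
    refine ⟨x, hx, hxu, .nil, fun z hz => ?_, rfl⟩
    rw [SimpleGraph.Walk.support_nil, List.mem_singleton] at hz ⊢
    rw [hz, hxu]
  | @cons u v w huv p ih =>
    intro x hx hxu
    have hu := hp u (SimpleGraph.Walk.start_mem_support _)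
    have hsub : ∀ z ∈ p.support, z ∈ D ∪ bd H D := fun z hz => hp z (by
      rw [SimpleGraph.Walk.support_cons]
      exact List.mem_cons_of_mem _ hz)
    have hv := hsub v p.start_mem_support
    obtain ⟨x₂, hx₂, hxx₂, hσ₂⟩ : ∃ x₂ ∈ E ∪ bd H E, H.Adj x x₂ ∧ σ x₂ = v := by
      rcases hu with hu | hu
      · obtain ⟨e, he, b, heb, h1, h2⟩ := hpull u hu v huv
        have hex : e = x := hσ.inj e (Or.inl he) x hx (h1.trans hxu.symm)
        subst hex
        exact ⟨b, nbr_mem he heb, heb, h2⟩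
      · rcases hv with hv | hv
        · obtain ⟨e, he, b, heb, h1, h2⟩ := hpull v hv u huv.symm
          have hbx : b = x := hσ.inj b (nbr_mem he heb) x hx (h2.trans hxu.symm)
          subst hbx
          exact ⟨e, Or.inl he, heb.symm, h1⟩
        · exact absurd huv (hbd u hu v hv)
    obtain ⟨y, hy, hyw, q, hq, hl⟩ := ih hsub x₂ hx₂ hσ₂
    refine ⟨y, hy, hyw, .cons hxx₂ q, fun z hz => ?_, ?_⟩
    · rw [SimpleGraph.Walk.support_cons, List.mem_cons] at hz ⊢
      rcases hz with rfl | hz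
      · exact Or.inl hxu
      · exact Or.inr (hq z hz)
    · simp only [SimpleGraph.Walk.length_cons, hl]

theorem walk_pos {x y : W} (p : H.Walk x y) (hxy : x ≠ y) : 1 ≤ p.length := by
  cases p with
  | nil => exact absurd rfl hxy
  | cons h p => simp only [SimpleGraph.Walk.length_cons]; omega

theorem approach {t x z : W} (ht : t ∈ D) (hxt : H.Adj x t) (q : H.Walk x z) (hz : z ∉ D)
    (hz' : z ∉ bd H D) : ∃ g, g ∈ bd H D ∧ g ∈ q.support ∧ ∃ (u : W) (r : H.Walk u t),
      (∀ w ∈ r.support, w ∈ D) ∧ H.Adj g u ∧ r.length + 1 ≤ q.length := by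
  by_cases hx : x ∈ D
  · obtain ⟨u, a, q0, r0, h1, h2, h3, h4, h5, h6⟩ := walk_exit q hx hz
    have ha : a ∈ bd H D := ⟨h5, u, h1 u q0.end_mem_support, h4⟩
    have hpos := walk_pos r0 (fun h => hz' (h ▸ ha))
    refine ⟨a, ha, h3 a r0.start_mem_support, u, q0.reverse.append (.cons hxt .nil), ?_, h4.symm, ?_⟩
    · intro w hw
      rw [SimpleGraph.Walk.mem_support_append_iff] at hw
      rcases hw with hw | hw
      · rw [SimpleGraph.Walk.support_reverse, List.mem_reverse] at hw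
        exact h1 w hw
      · rw [SimpleGraph.Walk.support_cons, SimpleGraph.Walk.support_nil, List.mem_cons,
          List.mem_singleton] at hw
        rcases hw with rfl | rfl
        · exact hx
        · exact ht
    · rw [SimpleGraph.Walk.length_append, SimpleGraph.Walk.length_reverse,
        SimpleGraph.Walk.length_cons, SimpleGraph.Walk.length_nil]
      omega
  · have hxb : x ∈ bd H D := ⟨hx, t, ht, hxt.symm⟩
    refine ⟨x, hxb, q.start_mem_support, t, .nil, ?_, hxt, ?_⟩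
    · intro w hw
      rw [SimpleGraph.Walk.support_nil, List.mem_singleton] at hw
      exact hw ▸ ht
    · have := walk_pos q (fun h => hz' (h ▸ hxb))
      rw [SimpleGraph.Walk.length_nil]
      omega

/-- A path around `t ∈ D` which leaves `D` and its boundary is long. -/
theorem long_of_leave {m : ℕ} (hm : Wide H D m) {t x y z : W} (ht : t ∈ D) (hxt : H.Adj x t)
    (hyt : H.Adj y t) (p : H.Walk x y) (hp : p.IsPath) (hzp : z ∈ p.support) (hz : z ∉ D)
    (hz' : z ∉ bd H D) : m ≤ p.length := by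
  classical
  have hspec := p.take_spec hzp
  obtain ⟨g, hg, hgs, u, r, hr, hgu, hrl⟩ := approach ht hxt (p.takeUntil z hzp) hz hz'
  obtain ⟨g', hg', hgs', u', r', hr', hgu', hrl'⟩ :=
    approach ht hyt (p.dropUntil z hzp).reverse hz hz'
  have hne : g ≠ g' := by
    rintro rfl
    have hnd : (p.takeUntil z hzp).support.Disjoint (p.dropUntil z hzp).support.tail := by
      have h1 := hp.support_nodup
      rw [← hspec, SimpleGraph.Walk.support_append] at h1
      exact List.disjoint_of_nodup_append h1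
    have h2 : g ∈ (p.dropUntil z hzp).support := by
      rw [SimpleGraph.Walk.support_reverse, List.mem_reverse] at hgs'
      exact hgs'
    rw [SimpleGraph.Walk.mem_support_iff] at h2
    rcases h2 with h2 | h2
    · exact hz' (h2 ▸ hg)
    · exact hnd hgs h2
  have h := hm g g' hg.1 hg'.1 hne u u' (r.append r'.reverse) (fun w hw => by
    rw [SimpleGraph.Walk.mem_support_append_iff] at hw
    rcases hw with hw | hw
    · exact hr w hw
    · rw [SimpleGraph.Walk.support_reverse, List.mem_reverse] at hw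
      exact hr' w hw) hgu hgu'.symm
  have hlen : (p.takeUntil z hzp).length + (p.dropUntil z hzp).length = p.length := by
    rw [← SimpleGraph.Walk.length_append, hspec]
  rw [SimpleGraph.Walk.length_append, SimpleGraph.Walk.length_reverse] at h
  rw [SimpleGraph.Walk.length_reverse] at hrl'
  omega

theorem Transfer.isMV (hσ : Transfer H E D σ)
    (hpull : ∀ x ∈ D, ∀ y, H.Adj x y → ∃ e ∈ E, ∃ b, H.Adj e b ∧ σ e = x ∧ σ b = y)
    (hbd : ∀ g ∈ bd H D, ∀ g' ∈ bd H D, ¬ H.Adj g g') {M m : ℕ} (hMm : M ≤ m) (hm : Wide H D m)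
    {t : W} (ht : t ∈ E) (hMt : IsMV H M t) : IsMV H M (σ t) := by
  classical
  have hnb : ∀ x', H.Adj (σ t) x' → ∃ x, H.Adj t x ∧ σ x = x' := by
    intro x' hx'
    obtain ⟨e, he, b, heb, h1, h2⟩ := hpull (σ t) (hσ.mem t ht) x' hx'
    have hex : e = t := hσ.inj e (Or.inl he) t (Or.inl ht) h1
    subst hex
    exact ⟨b, heb, h2⟩
  refine ⟨?_, ?_⟩
  · have h1 : σ '' H.neighborSet t = H.neighborSet (σ t) := by
      ext x'
      constructor
      · rintro ⟨x, hx, rfl⟩
        exact hσ.adj t ht x hx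
      · intro hx'
        obtain ⟨x, hx, rfl⟩ := hnb x' hx'
        exact ⟨x, hx, rfl⟩
    have h2 : Set.InjOn σ (H.neighborSet t) := fun x hx y hy h =>
      hσ.inj x (nbr_mem ht hx) y (nbr_mem ht hy) h
    rw [← h1, h2.ncard_image]
    exact hMt.1
  · rintro k ⟨x', y', p', hx', hy', hne, hav, hk⟩
    by_contra hcon
    obtain ⟨x, hx, rfl⟩ := hnb x' hx'
    obtain ⟨y, hy, rfl⟩ := hnb y' hy'
    have hsub : ∀ z ∈ p'.bypass.support, z ∈ p'.support :=
      fun z hz => p'.support_bypass_subset_support hz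
    have hlen : p'.bypass.length ≤ p'.length := p'.length_bypass_le
    by_cases hall : ∀ z ∈ p'.bypass.support, z ∈ D ∪ bd H D
    · obtain ⟨y₂, hy₂, hσy, q, hq, hl⟩ := hσ.pullWalk hpull hbd p'.bypass hall x
        (nbr_mem ht hx) rfl
      have hyy : y₂ = y := hσ.inj y₂ hy₂ y (nbr_mem ht hy) hσy
      subst hyy
      have h3 := hMt.2 k ⟨x, y₂, q, hx, hy, fun h => hne (by rw [h]),
        fun h => hav (hsub _ (hq t h)), by omega⟩
      omega
    · push Not at hall
      obtain ⟨z, hz, hzn⟩ := hall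
      have h4 := long_of_leave hm (hσ.mem t ht) hx'.symm hy'.symm p'.bypass p'.bypass_isPath hz
        (fun h => hzn (Or.inl h)) (fun h => hzn (Or.inr h))
      omega

end Transfer

end Pool.Agent.StrongMax
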