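import Pool.Agent.Lib.StrongMax.Assemble

/-!
# The general attaching lemma (helper42)
-/

namespace Pool.Agent.StrongMax

open Cardinal

/-- **Attaching lemma.** Let `A` fail. Suppose that for every vertex type `V₀` of a host of `A` and
every index type `K` there are pairwise disjoint edge sets `P k` (`k : K`) on `V₀ ⊕ X`, none of them
with an edge inside `V₀`, such that (1) adding all of them to an `A`-free edge set on `V₀` gives an
`H`-free edge set, and (2) adding infinitely many of them to an edge set on `V₀` which is not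
`A`-free gives an edge set which is not `H`-free. Then `H` fails. -/
theorem Fails.of_parts {W W' : Type} {H : SimpleGraph W} {A : SimpleGraph W'}
    (hA : Fails.{0} A) (hAe : ∃ a b, A.Adj a b) (X : Type → Type → Type)
    (P : (V₀ : Type) → (K : Type) → K → Set (Sym2 (V₀ ⊕ X V₀ K)))
    (hPl : ∀ V₀ K k, ∀ e ∈ P V₀ K k, ∀ a : Sym2 V₀, Sym2.map Sum.inl a ≠ e)
    (hPd : ∀ V₀ K k, ∀ e ∈ P V₀ K k, ¬ e.IsDiag)
    (hdisj : ∀ V₀ K k l, ∀ e, e ∈ P V₀ K k → e ∈ P V₀ K l → k = l)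
    (h1 : ∀ (V₀ K : Type) (I₀ : Set (Sym2 V₀)), HFree A I₀ →
      HFree H (Sym2.map Sum.inl '' I₀ ∪ {e | ∃ k, e ∈ P V₀ K k}))
    (h2 : ∀ (V₀ K : Type) (F₀ : Set (Sym2 V₀)) (Good : Set K), Good.Infinite → ¬ HFree A F₀ →
      ¬ HFree H (Sym2.map Sum.inl '' F₀ ∪ {e | ∃ k ∈ Good, e ∈ P V₀ K k})) : Fails.{0} H := by
  classical
  obtain ⟨V₀, G₀, hG₀⟩ := hA
  let K : Type := Set (Sym2 V₀ ⊕ ℕ)
  have hKinf : Infinite K :=
    Infinite.of_injective (fun n : ℕ => ({Sum.inr n} : Set (Sym2 V₀ ⊕ ℕ)))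
      (fun m n h => Sum.inr_injective (Set.singleton_injective h))
  have hcard : #(Sym2 V₀) < #K := by
    have h1 : #(Sym2 V₀) ≤ #(Sym2 V₀ ⊕ ℕ) := Cardinal.mk_le_of_injective Sum.inl_injective
    have h2 : #(Sym2 V₀ ⊕ ℕ) < #K := Cardinal.mk_set ▸ Cardinal.cantor _
    exact lt_of_le_of_lt h1 h2
  let L : Sym2 V₀ → Sym2 (V₀ ⊕ X V₀ K) := Sym2.map Sum.inl
  have L_inj : Function.Injective L := Sym2.map.injective Sum.inl_injective
  let PP : Set (Sym2 (V₀ ⊕ X V₀ K)) := {e | ∃ k, e ∈ P V₀ K k}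
  let G : SimpleGraph (V₀ ⊕ X V₀ K) := SimpleGraph.fromEdgeSet (L '' G₀.edgeSet ∪ PP)
  have hGe : G.edgeSet = L '' G₀.edgeSet ∪ PP := by
    show (SimpleGraph.fromEdgeSet (L '' G₀.edgeSet ∪ PP)).edgeSet = _
    rw [SimpleGraph.edgeSet_fromEdgeSet]
    apply sdiff_eq_left.2
    rw [Set.disjoint_left]
    rintro e (⟨a, ha, rfl⟩ | ⟨k, hk⟩) he
    · induction a with
      | _ a b =>
        have h1 : G₀.Adj a b := ha
        simp only [L, Sym2.map_mk, Sym2.mem_diagSet, Sym2.mk_isDiag_iff, Sum.inl.injEq] at he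
        exact h1.ne he
    · exact hPd V₀ K k e hk (by simpa using he)
  refine ⟨_, G, fun F hF => ?_⟩
  obtain ⟨hFG, hFH, hFmax⟩ := hF
  rw [hGe] at hFG
  -- the empty edge set is `A`-free
  have hA0 : HFree A (∅ : Set (Sym2 V₀)) := by
    rw [hFree_iff]
    intro f _ h
    obtain ⟨a, b, hab⟩ := hAe
    exact h a b hab
  have hPH : HFree H PP := (h1 V₀ K ∅ hA0).mono Set.subset_union_right
  have hPF : #(↥(PP \ F)) ≤ #(Sym2 V₀) := by
    refine (hFmax PP ?_ hPH).trans ?_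
    · rw [hGe]; exact Set.subset_union_right
    · have h1 : ∀ e : ↥(F \ PP), ∃ e' : Sym2 V₀, L e' = e.1 := by
        rintro ⟨e, he, heP⟩
        rcases hFG he with ⟨e', _, h⟩ | h
        · exact ⟨e', h⟩
        · exact absurd h heP
      choose g hg using h1
      exact Cardinal.mk_le_of_injective (f := g)
        (fun a b h => Subtype.ext (by rw [← hg a, ← hg b, h]))
  -- the good indices
  let Bad : Set K := {k | ∃ e ∈ P V₀ K k, e ∉ F}
  have hBad : #(↥Bad) < #K := by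
    refine lt_of_le_of_lt (le_trans ?_ hPF) hcard
    have h1 : ∀ k : ↥Bad, ∃ e, e ∈ P V₀ K k.1 ∧ e ∉ F := fun k => k.2
    choose g hg hgF using h1
    refine Cardinal.mk_le_of_injective (f := fun k => ⟨g k, ⟨k.1, hg k⟩, hgF k⟩) ?_
    intro k l h
    have h2 : g k = g l := congrArg Subtype.val h
    exact Subtype.ext (hdisj V₀ K k.1 l.1 (g k) (hg k) (h2 ▸ hg l))
  have hGood : (Badᶜ).Infinite := by
    have h1 : #(↥(Badᶜ)) = #K := Cardinal.mk_compl_of_infinite _ hBad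
    have h2 : Infinite ↥(Badᶜ) := by
      rw [Cardinal.infinite_iff, h1]; exact Cardinal.infinite_iff.1 hKinf
    exact Set.infinite_coe_iff.1 h2
  let FC : Set (Sym2 V₀) := {e | L e ∈ F}
  refine hG₀ FC ⟨?_, ?_, ?_⟩
  · intro e he
    rcases hFG he with ⟨e', he', h⟩ | ⟨k, h⟩
    · exact (L_inj h) ▸ he'
    · exact absurd rfl (hPl V₀ K k _ h e)
  · by_contra hcon
    refine h2 V₀ K FC (Badᶜ) hGood hcon (hFH.mono ?_)
    rintro e (⟨e', he', rfl⟩ | ⟨k, hk, he⟩)
    · exact he'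
    · by_contra h
      exact hk ⟨e, he, h⟩
  · intro IC hICG hIC
    have h3 := hFmax (L '' IC ∪ (F ∩ PP)) ?_ ((h1 V₀ K IC hIC).mono ?_)
    · refine le_trans ?_ (h3.trans ?_)
      · refine Cardinal.mk_le_of_injective (f := fun e => ⟨L e.1, Or.inl ⟨e.1, e.2.1, rfl⟩, e.2.2⟩) ?_
        intro a b h
        exact Subtype.ext (L_inj (congrArg Subtype.val h))
      · have h2 : ∀ e : ↥(F \ (L '' IC ∪ (F ∩ PP))), ∃ e' : ↥(FC \ IC), L e'.1 = e.1 := by
          rintro ⟨e, he, hn⟩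
          rcases hFG he with ⟨e', _, h⟩ | h
          · refine ⟨⟨e', ?_, ?_⟩, h⟩
            · show L e' ∈ F
              rw [h]; exact he
            · intro h'
              exact hn (Or.inl ⟨e', h', h⟩)
          · exact absurd (Or.inr ⟨he, h⟩) hn
        choose g hg using h2
        exact Cardinal.mk_le_of_injective (f := g)
          (fun a b h => Subtype.ext (by rw [← hg a, ← hg b, h]))
    · rw [hGe]
      rintro e (⟨e', he', rfl⟩ | ⟨_, he⟩)
      · exact Or.inl ⟨e', hICG he', rfl⟩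
      · exact Or.inr he
    · rintro e (he | ⟨_, he⟩)
      · exact Or.inl he
      · exact Or.inr he

end Pool.Agent.StrongMax
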