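import Pool.Agent.Lib.StrongMax.Basic42

/-!
# Pruning leaves (helper42)

If `H` has an edge between two vertices of degree at least two, every other vertex is a leaf attached
to a vertex of degree at least two, and the graph `H'` induced on the vertices of degree at least two
fails, then `H` fails.
-/

namespace Pool.Agent.StrongMax

open Cardinal

universe u v

section Prune

variable {W : Type v} (H : SimpleGraph W)

/-- The vertices with at least two neighbours. -/
def coreSet : Set W := {x | ∃ y z, y ≠ z ∧ H.Adj x y ∧ H.Adj x z}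

/-- The graph on `V ⊕ V × κ` obtained from `G` by attaching `κ` leaves at each vertex. -/
def addLeaves {V : Type u} (G : SimpleGraph V) (κ : Type u) : SimpleGraph (V ⊕ (V × κ)) where
  Adj a b := match a, b with
    | .inl v, .inl w => G.Adj v w
    | .inl v, .inr p => v = p.1
    | .inr p, .inl v => v = p.1
    | .inr _, .inr _ => False
  symm := ⟨by
    rintro (v | p) (w | q) h
    · exact G.adj_symm h
    · exact h
    · exact h
    · exact h⟩
  loopless := ⟨by
    rintro (v | p) h
    · exact G.irrefl h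
    · exact h⟩

variable {H}

theorem Fails.of_prune [Finite W]
    (hedge : ∃ x ∈ coreSet H, ∃ y ∈ coreSet H, H.Adj x y)
    (hleaf : ∀ y, y ∉ coreSet H → ∃ x ∈ coreSet H, H.Adj y x)
    (hbad : Fails.{u} (H.induce (coreSet H))) : Fails.{u} H := by
  classical
  obtain ⟨V, G, hG⟩ := hbad
  let κ : Type u := Set (Sym2 V ⊕ ULift.{u} ℕ)
  have hκ : Infinite κ :=
    Infinite.of_injective (fun n : ℕ => ({Sum.inr ⟨n⟩} : Set (Sym2 V ⊕ ULift.{u} ℕ)))
      (fun m n h => by
        have h1 := Set.singleton_injective h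
        have h2 := Sum.inr_injective h1
        exact congrArg ULift.down h2)
  have hcard : #(Sym2 V) < #κ := by
    have h1 : #(Sym2 V) ≤ #(Sym2 V ⊕ ULift.{u} ℕ) := Cardinal.mk_le_of_injective Sum.inl_injective
    have h2 : #(Sym2 V ⊕ ULift.{u} ℕ) < #κ := Cardinal.mk_set ▸ Cardinal.cantor _
    exact lt_of_le_of_lt h1 h2
  let G₁ := addLeaves G κ
  refine ⟨V ⊕ (V × κ), G₁, ?_⟩
  rintro F ⟨hFG, hFH, hFmax⟩
  -- the injection of edges
  let j : Sym2 V → Sym2 (V ⊕ (V × κ)) := Sym2.map Sum.inl
  have hj : Function.Injective j := Sym2.map.injective Sum.inl_injective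
  let p : V → κ → Sym2 (V ⊕ (V × κ)) := fun v t => s(Sum.inl v, Sum.inr (v, t))
  have hp : ∀ v t v' t', p v t = p v' t' → v = v' ∧ t = t' := by
    intro v t v' t' h
    simp only [p, Sym2.eq_iff] at h
    rcases h with ⟨h1, h2⟩ | ⟨h1, h2⟩
    · simp only [Sum.inr.injEq, Prod.mk.injEq] at h2
      exact h2
    · exact absurd h1 (by simp)
  have hjp : ∀ e v t, j e ≠ p v t := by
    intro e v t h
    induction e with
    | _ a b =>
      simp only [j, p, Sym2.map_mk, Sym2.eq_iff] at h
      rcases h with ⟨_, h2⟩ | ⟨h1, _⟩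
      · exact absurd h2 (by simp)
      · exact absurd h1 (by simp)
  -- edges of G₁
  have hG₁ : ∀ e ∈ G₁.edgeSet, (∃ e' ∈ G.edgeSet, e = j e') ∨ ∃ v t, e = p v t := by
    intro e he
    induction e with
    | _ a b =>
      rw [SimpleGraph.mem_edgeSet] at he
      rcases a with v | q <;> rcases b with w | r
      · exact Or.inl ⟨s(v, w), he, rfl⟩
      · right
        have h : v = r.1 := he
        exact ⟨v, r.2, by subst h; rfl⟩
      · right
        have h : w = q.1 := he
        exact ⟨w, q.2, by subst h; exact Sym2.eq_swap⟩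
      · exact absurd he id
  have hjG : ∀ e ∈ G.edgeSet, j e ∈ G₁.edgeSet := by
    intro e he
    induction e with
    | _ a b => exact he
  have hpG : ∀ v t, p v t ∈ G₁.edgeSet := by
    intro v t
    show G₁.Adj (Sum.inl v) (Sum.inr (v, t))
    rfl
  -- an edge set of G₁ containing a copy of H: core vertices go to `inl`
  have hcore : ∀ (I : Set (Sym2 (V ⊕ (V × κ)))), I ⊆ G₁.edgeSet → ∀ f : W → V ⊕ (V × κ),
      Function.Injective f → (∀ a b, H.Adj a b → s(f a, f b) ∈ I) →
      ∀ x ∈ coreSet H, ∃ v, f x = Sum.inl v := by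
    intro I hI f hf hfI x hx
    obtain ⟨y, z, hyz, hxy, hxz⟩ := hx
    rcases hfx : f x with v | q
    · exact ⟨v, rfl⟩
    · exfalso
      have h1 := hI (hfI x y hxy)
      have h2 := hI (hfI x z hxz)
      rw [SimpleGraph.mem_edgeSet, hfx] at h1 h2
      rcases hfy : f y with w | r
      · rcases hfz : f z with w' | r'
        · rw [hfy] at h1
          rw [hfz] at h2
          have h1' : w = q.1 := h1
          have h2' : w' = q.1 := h2
          exact hyz (hf (by rw [hfy, hfz, h1', h2']))
        · rw [hfz] at h2; exact h2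
      · rw [hfy] at h1; exact h1
  -- the set of all pendant edges is H-free
  let L : Set (Sym2 (V ⊕ (V × κ))) := {e | ∃ v t, e = p v t}
  have hLG : L ⊆ G₁.edgeSet := by
    rintro e ⟨v, t, rfl⟩; exact hpG v t
  have hLfree : HFree H L := by
    rw [hFree_iff]
    intro f hf hfL
    obtain ⟨x, hx, y, hy, hxy⟩ := hedge
    obtain ⟨v, hv⟩ := hcore L hLG f hf hfL x hx
    obtain ⟨w, hw⟩ := hcore L hLG f hf hfL y hy
    obtain ⟨v', t, h⟩ := hfL x y hxy
    rw [hv, hw] at h
    exact hjp s(v, w) v' t h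
  -- claim 1
  have hT : ∀ v, {t | p v t ∈ F}.Infinite := by
    intro v hfin
    have h1 := hFmax L hLG hLfree
    have h2 : #(↥({t | p v t ∈ F}ᶜ : Set κ)) = #κ := Cardinal.mk_compl_of_infinite _
      (lt_of_lt_of_le (Cardinal.lt_aleph0_iff_set_finite.2 hfin) (Cardinal.aleph0_le_mk κ))
    have h3 : #κ ≤ #(↥(L \ F)) := by
      rw [← h2]
      refine Cardinal.mk_le_of_injective (f := fun t => ⟨p v t.1, ⟨⟨v, t.1, rfl⟩, t.2⟩⟩) ?_
      intro s t h
      exact Subtype.ext (hp _ _ _ _ (congrArg Subtype.val h)).2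
    have h4 : #(↥(F \ L)) ≤ #(Sym2 V) := by
      have : ∀ e : ↥(F \ L), ∃ e' : Sym2 V, e.1 = j e' := by
        rintro ⟨e, heF, heL⟩
        rcases hG₁ e (hFG heF) with ⟨e', _, he'⟩ | h
        · exact ⟨e', he'⟩
        · exact absurd h heL
      choose g hg using this
      refine Cardinal.mk_le_of_injective (f := g) ?_
      intro a b h
      exact Subtype.ext (by rw [hg a, hg b, h])
    exact absurd (h3.trans (h1.trans h4)) (not_le.2 hcard)
  -- the trace on V
  let F' : Set (Sym2 V) := j ⁻¹' F
  have hF'G : F' ⊆ G.edgeSet := by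
    intro e he
    rcases hG₁ _ (hFG he) with ⟨e', he', h⟩ | ⟨v, t, h⟩
    · rw [hj h]; exact he'
    · exact absurd h (hjp e v t)
  refine hG F' ⟨hF'G, ?_, ?_⟩
  · -- claim 2
    rw [hFree_iff]
    intro f hf hfF
    obtain ⟨enc, henc⟩ := exists_injective_nat W
    have hemb : ∀ v, ∃ g : ℕ → κ, Function.Injective g ∧ ∀ n, p v (g n) ∈ F := by
      intro v
      have := (hT v).to_subtype
      refine ⟨fun n => (Infinite.natEmbedding {t | p v t ∈ F} n).1, ?_, fun n => (Infinite.natEmbedding {t | p v t ∈ F} n).2⟩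
      intro m n h
      exact (Infinite.natEmbedding {t | p v t ∈ F}).injective (Subtype.ext h)
    choose g hg1 hg2 using hemb
    have hpar : ∀ y, y ∉ coreSet H → ∃ x : coreSet H, H.Adj y x := fun y hy => by
      obtain ⟨x, hx, hyx⟩ := hleaf y hy
      exact ⟨⟨x, hx⟩, hyx⟩
    choose π hπ using hpar
    have huniq : ∀ y (hy : y ∉ coreSet H) x, H.Adj y x → x = π y hy := by
      intro y hy x hx
      by_contra hne
      exact hy ⟨x, π y hy, hne, hx, hπ y hy⟩
    let φ : W → V ⊕ (V × κ) := fun x =>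
      if h : x ∈ coreSet H then Sum.inl (f ⟨x, h⟩)
      else Sum.inr (f (π x h), g (f (π x h)) (enc x))
    have hφ1 : ∀ x (h : x ∈ coreSet H), φ x = Sum.inl (f ⟨x, h⟩) := fun x h => dif_pos h
    have hφ2 : ∀ x (h : x ∉ coreSet H), φ x = Sum.inr (f (π x h), g (f (π x h)) (enc x)) :=
      fun x h => dif_neg h
    refine (hFree_iff.1 hFH) φ ?_ ?_
    · intro x y hxy
      by_cases hx : x ∈ coreSet H <;> by_cases hy : y ∈ coreSet H
      · rw [hφ1 x hx, hφ1 y hy] at hxy
        exact congrArg Subtype.val (hf (Sum.inl_injective hxy))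
      · rw [hφ1 x hx, hφ2 y hy] at hxy; exact absurd hxy (by simp)
      · rw [hφ2 x hx, hφ1 y hy] at hxy; exact absurd hxy (by simp)
      · rw [hφ2 x hx, hφ2 y hy] at hxy
        have h := Sum.inr_injective hxy
        rw [Prod.mk.injEq] at h
        obtain ⟨h1, h2⟩ := h
        rw [h1] at h2
        exact henc (hg1 _ h2)
    · intro a b hab
      by_cases ha : a ∈ coreSet H <;> by_cases hb : b ∈ coreSet H
      · rw [hφ1 a ha, hφ1 b hb]
        exact hfF ⟨a, ha⟩ ⟨b, hb⟩ hab
      · rw [hφ1 a ha, hφ2 b hb]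
        have h := huniq b hb a hab.symm
        have h' : (⟨a, ha⟩ : coreSet H) = π b hb := Subtype.ext h
        rw [h']
        exact hg2 _ _
      · rw [hφ2 a ha, hφ1 b hb, Sym2.eq_swap]
        have h := huniq a ha b hab
        have h' : (⟨b, hb⟩ : coreSet H) = π a ha := Subtype.ext h
        rw [h']
        exact hg2 _ _
      · have h := huniq a ha b hab
        exact absurd (h ▸ (π a ha).2) hb
  · -- claim 3
    intro I' hI'G hI'H
    let I : Set (Sym2 (V ⊕ (V × κ))) := (F ∩ L) ∪ j '' I'
    have hIG : I ⊆ G₁.edgeSet := by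
      rintro e (he | ⟨e', he', rfl⟩)
      · exact hFG he.1
      · exact hjG e' (hI'G he')
    have hIH : HFree H I := by
      rw [hFree_iff]
      intro f hf hfI
      have h1 := hcore I hIG f hf hfI
      have hne : Nonempty V := by
        obtain ⟨x, hx, _⟩ := hedge
        obtain ⟨v, _⟩ := h1 x hx
        exact ⟨v⟩
      choose! f' hf' using h1
      refine (hFree_iff.1 hI'H) (fun x => f' x.1) ?_ ?_
      · intro x y hxy
        apply Subtype.ext
        apply hf
        rw [hf' x x.2, hf' y y.2]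
        exact congrArg Sum.inl hxy
      · intro a b hab
        have h2 := hfI a b hab
        rw [hf' a a.2, hf' b b.2] at h2
        rcases h2 with ⟨_, v, t, h⟩ | ⟨e', he', h⟩
        · exact absurd h (hjp s(f' a.1, f' b.1) v t)
        · have : e' = s(f' a.1, f' b.1) := hj h
          rw [← this]; exact he'
    have h1 := hFmax I hIG hIH
    have h2 : #(↥(I' \ F')) ≤ #(↥(I \ F)) := by
      refine Cardinal.mk_le_of_injective (f := fun e => ⟨j e.1, ⟨Or.inr ⟨e.1, e.2.1, rfl⟩, e.2.2⟩⟩) ?_
      intro a b h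
      exact Subtype.ext (hj (congrArg Subtype.val h))
    have h3 : #(↥(F \ I)) ≤ #(↥(F' \ I')) := by
      have : ∀ e : ↥(F \ I), ∃ e' : ↥(F' \ I'), e.1 = j e'.1 := by
        rintro ⟨e, heF, heI⟩
        rcases hG₁ e (hFG heF) with ⟨e', _, he'⟩ | h
        · refine ⟨⟨e', ?_, ?_⟩, he'⟩
          · show j e' ∈ F
            rw [← he']; exact heF
          · intro h
            exact heI (Or.inr ⟨e', h, he'.symm⟩)
        · exact absurd (Or.inl ⟨heF, h⟩) heI
      choose g hg using this
      refine Cardinal.mk_le_of_injective (f := g) ?_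
      intro a b h
      exact Subtype.ext (by rw [hg a, hg b, h])
    exact h2.trans (h1.trans h3)

end Prune

end Pool.Agent.StrongMax
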