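import Pool.Agent.Lib.StrongMax.Prune
import Pool.Agent.Lib.StrongMax.Host2

/-!
# Reduction of connected graphs to graphs of minimum degree at least two (helper42)
-/

namespace Pool.Agent.StrongMax

universe u v w

theorem Fails.of_iso {W : Type v} {W' : Type w} {H : SimpleGraph W} {H' : SimpleGraph W'}
    (e : H ≃g H') (h : Fails.{u} H) : Fails.{u} H' := by
  obtain ⟨V, G, hG⟩ := h
  refine ⟨V, G, fun F hF => hG F ⟨hF.1, ?_, fun I hI hIH => hF.2.2 I hI ?_⟩⟩
  · exact (SimpleGraph.free_congr_left e).2 hF.2.1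
  · exact (SimpleGraph.free_congr_left e).1 hIH

section

variable {W : Type v} {H : SimpleGraph W}

theorem reachable_closed {S : Set W} (hS : ∀ a ∈ S, ∀ b, H.Adj a b → b ∈ S) {u v : W}
    (h : H.Reachable u v) (hu : u ∈ S) : v ∈ S := by
  obtain ⟨p⟩ := h
  induction p with
  | nil => exact hu
  | cons hab _ ih => exact ih (hS _ hu _ hab)

theorem closed_univ {S : Set W} (hc : H.Connected) (hS : ∀ a ∈ S, ∀ b, H.Adj a b → b ∈ S)
    (hne : S.Nonempty) : ∀ x, x ∈ S := by
  obtain ⟨a, ha⟩ := hne
  exact fun x => reachable_closed hS (hc.preconnected a x) ha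

/-- In a connected graph with two adjacent core vertices, each other vertex is attached to a core
vertex. -/
theorem leaf_parent (hc : H.Connected) (hedge : ∃ x ∈ coreSet H, ∃ y ∈ coreSet H, H.Adj x y) :
    ∀ y, y ∉ coreSet H → ∃ x ∈ coreSet H, H.Adj y x := by
  intro y hy
  obtain ⟨x₀, hx₀, y₀, hy₀, hxy⟩ := hedge
  -- y has a neighbour
  obtain ⟨x, hx⟩ : ∃ x, H.Adj y x := by
    by_contra hcon
    push Not at hcon
    have := closed_univ (S := {y}) hc (fun a ha b hab => by
      rw [Set.mem_singleton_iff] at ha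
      exact absurd (ha ▸ hab) (hcon b)) ⟨y, rfl⟩ x₀
    rw [Set.mem_singleton_iff] at this
    exact hy (this ▸ hx₀)
  refine ⟨x, ?_, hx⟩
  by_contra hxc
  have h1 : ∀ b, H.Adj y b → b = x := by
    intro b hb
    by_contra hne
    exact hy ⟨b, x, hne, hb, hx⟩
  have h2 : ∀ b, H.Adj x b → b = y := by
    intro b hb
    by_contra hne
    exact hxc ⟨b, y, hne, hb, hx.symm⟩
  have := closed_univ (S := {x, y}) hc (fun a ha b hab => by
    rcases ha with rfl | ha
    · exact Or.inr (h2 b hab)
    · rw [Set.mem_singleton_iff] at ha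
      exact Or.inl (h1 b (ha ▸ hab))) ⟨x, Or.inl rfl⟩ x₀
  rcases this with h | h
  · exact hxc (h ▸ hx₀)
  · rw [Set.mem_singleton_iff] at h
    exact hy (h ▸ hx₀)

/-- The core of a connected graph is connected. -/
theorem core_connected (hc : H.Connected) (hedge : ∃ x ∈ coreSet H, ∃ y ∈ coreSet H, H.Adj x y) :
    (H.induce (coreSet H)).Connected := by
  classical
  have hleaf := leaf_parent hc hedge
  have hr : ∀ y, ∃ x : coreSet H, (y ∈ coreSet H → x.1 = y) ∧ (y ∉ coreSet H → H.Adj y x) := by
    intro y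
    by_cases h : y ∈ coreSet H
    · exact ⟨⟨y, h⟩, fun _ => rfl, fun h' => absurd h h'⟩
    · obtain ⟨x, hx, hyx⟩ := hleaf y h
      exact ⟨⟨x, hx⟩, fun h' => absurd h' h, fun _ => hyx⟩
  choose r hr1 hr2 using hr
  have huniq : ∀ y, y ∉ coreSet H → ∀ b, H.Adj y b → b = r y := by
    intro y hy b hb
    by_contra hne
    exact hy ⟨b, r y, hne, hb, hr2 y hy⟩
  have hstep : ∀ a b, H.Adj a b → (H.induce (coreSet H)).Reachable (r a) (r b) := by
    intro a b hab
    by_cases ha : a ∈ coreSet H <;> by_cases hb : b ∈ coreSet H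
    · apply SimpleGraph.Adj.reachable
      show H.Adj (r a).1 (r b).1
      rw [hr1 a ha, hr1 b hb]; exact hab
    · have h1 := huniq b hb a hab.symm
      have : r a = r b := Subtype.ext (by rw [hr1 a ha]; exact h1)
      rw [this]
    · have h1 := huniq a ha b hab
      have : r b = r a := Subtype.ext (by rw [hr1 b hb]; exact h1)
      rw [this]
    · have h1 := huniq a ha b hab
      exact absurd (h1 ▸ (r a).2) hb
  have hwalk : ∀ a b, H.Walk a b → (H.induce (coreSet H)).Reachable (r a) (r b) := by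
    intro a b p
    induction p with
    | nil => exact SimpleGraph.Reachable.refl _
    | cons hab _ ih => exact (hstep _ _ hab).trans ih
  rw [SimpleGraph.connected_iff]
  refine ⟨fun a b => ?_, ?_⟩
  · obtain ⟨p⟩ := hc.preconnected a.1 b.1
    have h := hwalk _ _ p
    have ha : r a.1 = a := Subtype.ext (hr1 a.1 a.2)
    have hb : r b.1 = b := Subtype.ext (hr1 b.1 b.2)
    rwa [ha, hb] at h
  · obtain ⟨x, hx, _⟩ := hedge
    exact ⟨⟨x, hx⟩⟩

/-- Graphs whose core is a star. -/
theorem base_of_star (hc : H.Connected) (hedge : ∃ x ∈ coreSet H, ∃ y ∈ coreSet H, H.Adj x y)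
    {z : W} (hstar : ∀ w ∈ coreSet H, w = z ∨ H.Adj z w)
    (hno : ∀ x ∈ coreSet H, ∀ y ∈ coreSet H, H.Adj z x → H.Adj z y → ¬ H.Adj x y) :
    ∃ π : W → W, IsBase H z π := by
  classical
  have hleaf := leaf_parent hc hedge
  choose! π hπ1 hπ2 using hleaf
  refine ⟨π, ?_, ?_, ?_, ?_⟩
  · intro x y hx hy hxy
    have h1 : x ∈ coreSet H := ⟨z, y, fun h => by subst h; exact H.irrefl hy, hx.symm, hxy⟩
    have h2 : y ∈ coreSet H := ⟨z, x, fun h => by subst h; exact H.irrefl hx, hy.symm, hxy.symm⟩
    exact hno x h1 y h2 hx hy hxy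
  · intro y hyz hyn
    have hy : y ∉ coreSet H := fun h => by
      rcases hstar y h with h | h
      · exact hyz h
      · exact hyn h
    rcases hstar (π y) (hπ1 y hy) with h | h
    · exact absurd ((h ▸ hπ2 y hy).symm) hyn
    · exact h
  · intro y hyz hyn
    have hy : y ∉ coreSet H := fun h => by
      rcases hstar y h with h | h
      · exact hyz h
      · exact hyn h
    exact hπ2 y hy
  · intro y hyz hyn x hx
    have hy : y ∉ coreSet H := fun h => by
      rcases hstar y h with h | h
      · exact hyz h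
      · exact hyn h
    by_contra hne
    exact hy ⟨x, π y, hne, hx, hπ2 y hy⟩

theorem two_le_ncard_Ch [Finite W] {z : W} (hz : z ∈ coreSet H) : 2 ≤ (Ch H z).ncard := by
  obtain ⟨a, b, hab, ha, hb⟩ := hz
  have h1 : ({a, b} : Set W) ⊆ Ch H z := by
    rintro x (rfl | rfl)
    · exact ha
    · exact hb
  calc 2 = ({a, b} : Set W).ncard := (Set.ncard_pair hab).symm
    _ ≤ _ := Set.ncard_le_ncard h1 (Set.toFinite _)

/-- Connected graphs whose core is a star with at least one edge fail. -/
theorem base_fails [Finite W] (hc : H.Connected)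
    (hedge : ∃ x ∈ coreSet H, ∃ y ∈ coreSet H, H.Adj x y)
    (hno : ∀ x y : coreSet H, x ∈ coreSet (H.induce (coreSet H)) →
      y ∈ coreSet (H.induce (coreSet H)) → ¬ H.Adj x y) : Fails.{0} H := by
  classical
  have hcc := core_connected hc hedge
  by_cases hA : ∃ z : coreSet H, z ∈ coreSet (H.induce (coreSet H))
  · obtain ⟨z, hz⟩ := hA
    have hstar' := closed_univ (S := {w : coreSet H | w = z ∨ H.Adj z w}) hcc (fun a ha b hab => by
      have hab' : H.Adj a b := hab
      rcases ha with rfl | ha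
      · exact Or.inr hab'
      · by_contra hb
        have hbz : b ≠ z := fun h => hb (Or.inl h)
        exact hno z a hz ⟨z, b, hbz.symm, ha.symm, hab⟩ ha) ⟨z, Or.inl rfl⟩
    have hstar : ∀ w ∈ coreSet H, w = z.1 ∨ H.Adj z w := by
      intro w hw
      rcases hstar' ⟨w, hw⟩ with h | h
      · exact Or.inl (congrArg Subtype.val h)
      · exact Or.inr h
    have hno' : ∀ x ∈ coreSet H, ∀ y ∈ coreSet H, H.Adj z x → H.Adj z y → ¬ H.Adj x y := by
      intro x hx y hy hzx hzy hxy
      have hyz : (⟨y, hy⟩ : coreSet H) ≠ z := fun h => by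
        have : y = z.1 := congrArg Subtype.val h
        exact hzy.ne this.symm
      exact hno z ⟨x, hx⟩ hz ⟨z, ⟨y, hy⟩, hyz.symm, hzx.symm, hxy⟩ hzx
    obtain ⟨π, hH⟩ := base_of_star hc hedge hstar hno'
    have hk := two_le_ncard_Ch z.2
    by_cases hkσ : (Ch H z.1).ncard ≤ (Gc H z.1).ncard + 1
    · exact Host1.fails hH hk hkσ
    · refine Host2.fails hH ?_ (by omega)
      obtain ⟨a, b, hab, ha, hb⟩ := hz
      have hX : ∀ x : coreSet H, H.Adj z x → x.1 ∈ Host2.X H z.1 π := by
        intro x hzx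
        obtain ⟨c, d, hcd, hc', hd'⟩ := x.2
        obtain ⟨e, hez, he⟩ : ∃ e, e ≠ z.1 ∧ H.Adj x e := by
          by_cases h : c = z.1
          · exact ⟨d, fun h' => hcd (h.trans h'.symm), hd'⟩
          · exact ⟨c, h, hc'⟩
        have hne : ¬ H.Adj z.1 e := fun h => hH.no_cc _ _ hzx h he
        exact ⟨e, ⟨hez, hne⟩, (hH.gc3 e hez hne x.1 he.symm).symm⟩
      have h1 : ({a.1, b.1} : Set W) ⊆ Host2.X H z.1 π := by
        rintro x (rfl | rfl)
        · exact hX a ha
        · exact hX b hb
      have hab' : a.1 ≠ b.1 := fun h => hab (Subtype.ext h)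
      calc 2 = ({a.1, b.1} : Set W).ncard := (Set.ncard_pair hab').symm
        _ ≤ _ := Set.ncard_le_ncard h1 (Set.toFinite _)
  · push Not at hA
    have hedge' := hedge
    obtain ⟨x₀, hx₀, y₀, hy₀, hxy⟩ := hedge
    -- the core is {x₀, y₀}
    have key : ∀ x₀ y₀ (hx₀ : x₀ ∈ coreSet H) (hy₀ : y₀ ∈ coreSet H), H.Adj x₀ y₀ →
        (Ch H x₀).ncard ≤ (Ch H y₀).ncard → Fails.{0} H := by
      intro x₀ y₀ hx₀ hy₀ hxy hle
      have h2 : ∀ (a b : coreSet H), H.Adj a b → ∀ c : coreSet H, H.Adj a c → c = b := by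
        intro a b hab c hac
        by_contra hne
        exact hA a ⟨c, b, hne, hac, hab⟩
      have hall := closed_univ (S := {w : coreSet H | w.1 = x₀ ∨ w.1 = y₀}) hcc
        (fun a ha b hab => by
          have hab' : H.Adj a b := hab
          rcases ha with ha | ha
          · have h3 := h2 a ⟨y₀, hy₀⟩ (by rw [ha]; exact hxy) b hab'
            exact Or.inr (congrArg Subtype.val h3)
          · have h3 := h2 a ⟨x₀, hx₀⟩ (by rw [ha]; exact hxy.symm) b hab'
            exact Or.inl (congrArg Subtype.val h3)) ⟨⟨x₀, hx₀⟩, Or.inl rfl⟩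
      have hstar : ∀ w ∈ coreSet H, w = x₀ ∨ H.Adj x₀ w := by
        intro w hw
        rcases hall ⟨w, hw⟩ with h | h
        · exact Or.inl h
        · right
          have h' : w = y₀ := h
          rw [h']; exact hxy
      have hno' : ∀ x ∈ coreSet H, ∀ y ∈ coreSet H, H.Adj x₀ x → H.Adj x₀ y → ¬ H.Adj x y := by
        intro x hx y hy hzx hzy hab
        have hx' : x = y₀ := by
          rcases hall ⟨x, hx⟩ with h | h
          · exact absurd h hzx.ne'
          · exact h
        have hy' : y = y₀ := by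
          rcases hall ⟨y, hy⟩ with h | h
          · exact absurd h hzy.ne'
          · exact h
        rw [hx', hy'] at hab
        exact H.irrefl hab
      obtain ⟨π, hH⟩ := base_of_star hc hedge' hstar hno'
      refine Host1.fails hH (two_le_ncard_Ch hx₀) ?_
      have h4 : Ch H y₀ ⊆ insert x₀ (Gc H x₀) := by
        intro y hy
        by_cases hyx : y = x₀
        · exact Or.inl hyx
        · exact Or.inr ⟨hyx, fun h => hH.no_cc _ _ hxy h hy⟩
      exact hle.trans ((Set.ncard_le_ncard h4 (Set.toFinite _)).trans (Set.ncard_insert_le _ _))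
    rcases le_total (Ch H x₀).ncard (Ch H y₀).ncard with h | h
    · exact key x₀ y₀ hx₀ hy₀ hxy h
    · exact key y₀ x₀ hy₀ hx₀ hxy.symm h

end

/-- The induced subgraph of an induced subgraph. -/
def induceInduce {W : Type v} (H : SimpleGraph W) (S : Set W) (T : Set S) :
    (H.induce S).induce T ≃g H.induce (Subtype.val '' T) where
  toFun x := ⟨x.1.1, ⟨x.1, x.2, rfl⟩⟩
  invFun x := ⟨⟨x.1, by obtain ⟨y, _, h⟩ := x.2; rw [← h]; exact y.2⟩,
    by obtain ⟨y, hy, h⟩ := x.2; have : y = ⟨x.1, h ▸ y.2⟩ := Subtype.ext h; exact this ▸ hy⟩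
  left_inv _ := rfl
  right_inv _ := rfl
  map_rel_iff' := Iff.rfl

theorem mem_coreSet_iso {W : Type v} {W' : Type w} {H : SimpleGraph W} {H' : SimpleGraph W'}
    (e : H ≃g H') {x : W} (hx : x ∈ coreSet H) : e x ∈ coreSet H' := by
  obtain ⟨y, z, hyz, hy, hz⟩ := hx
  exact ⟨e y, e z, fun h => hyz (e.injective h), e.map_adj_iff.2 hy, e.map_adj_iff.2 hz⟩

/-- A connected finite graph with two adjacent vertices of degree at least two fails if all its
connected induced subgraphs with minimum degree at least two fail. -/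
theorem reduction (n : ℕ) : ∀ (W : Type v) [Finite W] (H : SimpleGraph W), Nat.card W = n →
    H.Connected → (∃ x ∈ coreSet H, ∃ y ∈ coreSet H, H.Adj x y) →
    (∀ S : Set W, (H.induce S).Connected → (∀ x, x ∈ coreSet (H.induce S)) →
      Fails.{0} (H.induce S)) → Fails.{0} H := by
  induction n using Nat.strong_induction_on with
  | _ n ih =>
    intro W _ H hn hc hedge hS
    by_cases huniv : ∀ x, x ∈ coreSet H
    · refine Fails.of_iso (SimpleGraph.induceUnivIso H) (hS Set.univ ?_ ?_)
      · exact (SimpleGraph.induceUnivIso H).connected_iff.2 hc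
      · intro x
        have h := mem_coreSet_iso (SimpleGraph.induceUnivIso H).symm (huniv x.1)
        exact h
    · by_cases hno : ∃ x ∈ coreSet (H.induce (coreSet H)), ∃ y ∈ coreSet (H.induce (coreSet H)),
          (H.induce (coreSet H)).Adj x y
      · refine Fails.of_prune hedge (leaf_parent hc hedge) ?_
        have hlt : Nat.card (coreSet H) < n := by
          push Not at huniv
          obtain ⟨x, hx⟩ := huniv
          rw [← hn, Nat.card_coe_set_eq, ← Set.ncard_univ]
          exact Set.ncard_lt_ncard (Set.ssubset_univ_iff.2 (fun h => hx (h ▸ Set.mem_univ x)))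
            (Set.toFinite _)
        refine ih _ hlt (coreSet H) (H.induce (coreSet H)) rfl (core_connected hc hedge) hno ?_
        intro T hT1 hT2
        let e := induceInduce H (coreSet H) T
        refine Fails.of_iso e.symm (hS _ (e.connected_iff.1 hT1) ?_)
        intro x
        have h := mem_coreSet_iso e (hT2 (e.symm x))
        rwa [e.apply_symm_apply] at h
      · push Not at hno
        exact base_fails hc hedge (fun x y hx hy => hno x hx y hy)

/-- Finite trees that are not stars fail. -/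
theorem tree_fails {W : Type v} [Finite W] {H : SimpleGraph W} (hT : H.IsTree)
    (hedge : ∃ x ∈ coreSet H, ∃ y ∈ coreSet H, H.Adj x y) : Fails.{0} H := by
  classical
  refine reduction _ W H rfl hT.connected hedge (fun S hS hS2 => ?_)
  exfalso
  have := Fintype.ofFinite S
  have hac : (H.induce S).IsTree := ⟨hS, hT.isAcyclic.induce S⟩
  obtain ⟨x⟩ := hS.nonempty
  obtain ⟨y, z, hyz, _⟩ := hS2 x
  have : Nontrivial S := ⟨y, z, hyz⟩
  obtain ⟨v, hv⟩ := hac.exists_vert_degree_one_of_nontrivial
  obtain ⟨a, b, hab, ha, hb⟩ := hS2 v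
  rw [← SimpleGraph.card_neighborFinset_eq_degree, Finset.card_eq_one] at hv
  obtain ⟨c, hc⟩ := hv
  have h1 : a ∈ ({c} : Finset S) := hc ▸ (SimpleGraph.mem_neighborFinset _ _ _).2 ha
  have h2 : b ∈ ({c} : Finset S) := hc ▸ (SimpleGraph.mem_neighborFinset _ _ _).2 hb
  rw [Finset.mem_singleton] at h1 h2
  exact hab (h1.trans h2.symm)

end Pool.Agent.StrongMax
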